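import Pool.Agent.VD.ColSt

/-!
# MP_cf06d4_co, group V, module CA of the collapse lemma: sum over decorated words
-/

set_option autoImplicit false

namespace Pool.VD.M_CA

open Pool.VD Finset

lemma Hi_trans {a b c : Car} (h1 : Hi a b) (h2 : Hi b c) : Hi a c := by
  unfold Hi at *; omega

/-- the order key -/
def key (c : Car) : ℤ ×ₗ ℕᵒᵈ := toLex (c.1, OrderDual.toDual c.2)

lemma key_inj : Function.Injective key := by
  intro a b h
  have h1 : ((a.1, OrderDual.toDual a.2) : ℤ × ℕᵒᵈ) = (b.1, OrderDual.toDual b.2) := toLex.injective h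
  rw [Prod.mk.injEq] at h1
  exact Prod.ext h1.1 (OrderDual.toDual.injective h1.2)

lemma key_lt (c d : Car) : key d < key c ↔ Hi c d := by
  unfold key Hi
  rw [Prod.Lex.toLex_lt_toLex]
  rfl

lemma prod_key {B : Type} [CommRing B] (I : Finset Car) (g : Car → B) :
    ∏ c ∈ I, (1 + g c) = 1 + ∑ c ∈ I, g c * ∏ c' ∈ I.filter (fun c' => Hi c c'), (1 + g c') := by
  have h := Finset.prod_add_ordered (I.map ⟨key, key_inj⟩) (fun _ => (1 : B))
    (fun x => g ((ofLex x).1, OrderDual.ofDual (ofLex x).2))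
  have hk : ∀ c : Car, ((ofLex (key c)).1, OrderDual.ofDual (ofLex (key c)).2) = c := fun c => rfl
  rw [Finset.prod_map, Finset.sum_map] at h
  simp only [Function.Embedding.coeFn_mk, hk, Finset.prod_const_one, mul_one] at h
  rw [h]
  congr 1
  refine Finset.sum_congr rfl fun c _ => ?_
  congr 1
  rw [Finset.filter_map, Finset.prod_map]
  simp only [Function.Embedding.coeFn_mk, hk, Function.comp_def, key_lt]

section

variable {A : Type} [CommRing A]

lemma coeff_key (I : Finset Car) (g : Car → A) (R : Polynomial A) (k : ℕ) :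
    ((∏ c ∈ I, (1 + Polynomial.C (g c) * Polynomial.X)) * R).coeff (k + 1) =
      R.coeff (k + 1) + ∑ c ∈ I, g c *
        ((∏ c' ∈ I.filter (fun c' => Hi c c'), (1 + Polynomial.C (g c') * Polynomial.X)) * R).coeff k := by
  rw [prod_key I (fun c => Polynomial.C (g c) * Polynomial.X), add_mul, one_mul, Polynomial.coeff_add,
    Finset.sum_mul, Polynomial.finsetSum_coeff]
  congr 1
  refine Finset.sum_congr rfl fun c _ => ?_
  rw [mul_assoc, mul_assoc, Polynomial.coeff_C_mul, Polynomial.coeff_X_mul]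

lemma coeff_zero_key (I : Finset Car) (g : Car → A) (R : Polynomial A) :
    ((∏ c ∈ I, (1 + Polynomial.C (g c) * Polynomial.X)) * R).coeff 0 = R.coeff 0 := by
  rw [Polynomial.mul_coeff_zero, Polynomial.coeff_zero_prod]
  simp

variable (S : Finset Car) (φ γ : Car → List Car → A)

open Classical in
/-- left side -/
noncomputable def F (n k : ℕ) (p : Car) (h : List Car) : A :=
  ∑ L ∈ Wd (AD2 S) n, if LegD p L ∧ ndec L = k then wtD φ γ h L else 0

open Classical in
/-- right side -/
noncomputable def G (m k : ℕ) (p : Car) (h : List Car) : A :=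
  ∑ L ∈ Wd S m, if Leg p L then wtP φ h L * (GP S γ p h L).coeff k else 0

open Classical in
/-- right side with a general first gap -/
noncomputable def Q (m k : ℕ) (c u : Car) (h : List Car) : A :=
  ∑ L ∈ Wd S m, if Leg u L then wtP φ (u :: h) L *
    ((∏ c' ∈ S.filter (fun c' => Hi c c' ∧ Hi c' (dn u)), (1 + Polynomial.C (γ c' h) * Polynomial.X)) *
      GP S γ u (u :: h) L).coeff k else 0

lemma sum_Wd {α : Type} (T : Finset α) (n : ℕ) (f : List α → A) :
    ∑ L ∈ Wd T (n + 1), f L = ∑ d ∈ T, ∑ L ∈ Wd T n, f (d :: L) := by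
  rw [Wd, Finset.sum_map, Finset.sum_product]
  rfl

lemma len_Wd {α : Type} (T : Finset α) : ∀ (n : ℕ) (L : List α), L ∈ Wd T n → L.length = n := by
  intro n
  induction n with
  | zero => intro L hL; rw [Wd, Finset.mem_singleton] at hL; rw [hL]; rfl
  | succ n ih =>
    intro L hL
    rw [Wd, Finset.mem_map] at hL
    obtain ⟨p, hp, rfl⟩ := hL
    rw [Finset.mem_product] at hp
    show (p.1 :: p.2).length = n + 1
    rw [List.length_cons, ih p.2 hp.2]

lemma ndec_false (u : Car) (L : List DCar) : ndec ((u, false) :: L) = ndec L := by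
  simp [ndec]

lemma ndec_true (u : Car) (L : List DCar) : ndec ((u, true) :: L) = ndec L + 1 := by
  simp [ndec]

lemma F_gt (n k : ℕ) (hk : n < k) (p : Car) (h : List Car) : F S φ γ n k p h = 0 := by
  classical
  refine Finset.sum_eq_zero fun L hL => ?_
  rw [if_neg]
  rintro ⟨_, h2⟩
  have h3 := len_Wd _ n L hL
  have h4 : ndec L ≤ L.length := List.countP_le_length
  omega

lemma F_succ (n k : ℕ) (p : Car) (h : List Car) :
    F S φ γ (n + 1) (k + 1) p h =
      (∑ u ∈ S, if Hi p (dn u) then φ u h * F S φ γ n (k + 1) u (u :: h) else 0) +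
      ∑ c ∈ S, if Hi p c then γ c h * F S φ γ n k c h else 0 := by
  classical
  rw [F, sum_Wd, AD2, Finset.sum_product, ← Finset.sum_add_distrib]
  refine Finset.sum_congr rfl fun u _ => ?_
  rw [Fintype.sum_bool, add_comm]
  congr 1
  · by_cases hu : Hi p (dn u)
    · rw [if_pos hu, F, Finset.mul_sum]
      refine Finset.sum_congr rfl fun L _ => ?_
      rw [ndec_false]
      by_cases hL : LegD u L ∧ ndec L = k + 1
      · rw [if_pos hL, if_pos ⟨⟨hu, hL.1⟩, hL.2⟩, wtD]
      · rw [if_neg hL, if_neg (fun h' => hL ⟨h'.1.2, h'.2⟩), mul_zero]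
    · rw [if_neg hu]
      refine Finset.sum_eq_zero fun L _ => ?_
      rw [if_neg (fun h' => hu h'.1.1)]
  · by_cases hu : Hi p u
    · rw [if_pos hu, F, Finset.mul_sum]
      refine Finset.sum_congr rfl fun L _ => ?_
      rw [ndec_true]
      by_cases hL : LegD u L ∧ ndec L = k
      · rw [if_pos hL, if_pos ⟨⟨hu, hL.1⟩, by rw [hL.2]⟩, wtD]
      · rw [if_neg hL, if_neg (fun h' => hL ⟨h'.1.2, by omega⟩), mul_zero]
    · rw [if_neg hu]
      refine Finset.sum_eq_zero fun L _ => ?_
      rw [if_neg (fun h' => hu h'.1.1)]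

lemma F_succ_zero (n : ℕ) (p : Car) (h : List Car) :
    F S φ γ (n + 1) 0 p h = ∑ u ∈ S, if Hi p (dn u) then φ u h * F S φ γ n 0 u (u :: h) else 0 := by
  classical
  rw [F, sum_Wd, AD2, Finset.sum_product]
  refine Finset.sum_congr rfl fun u _ => ?_
  rw [Fintype.sum_bool]
  have h1 : ∑ L ∈ Wd (S ×ˢ (Finset.univ : Finset Bool)) n,
      (if LegD p ((u, true) :: L) ∧ ndec ((u, true) :: L) = 0 then wtD φ γ h ((u, true) :: L) else 0) = 0 := by
    refine Finset.sum_eq_zero fun L _ => ?_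
    rw [ndec_true, if_neg (fun h' => absurd h'.2 (Nat.succ_ne_zero _))]
  rw [h1, zero_add]
  by_cases hu : Hi p (dn u)
  · rw [if_pos hu, F, Finset.mul_sum]
    refine Finset.sum_congr rfl fun L _ => ?_
    rw [ndec_false]
    by_cases hL : LegD u L ∧ ndec L = 0
    · rw [if_pos hL, if_pos ⟨⟨hu, hL.1⟩, hL.2⟩, wtD]
    · rw [if_neg hL, if_neg (fun h' => hL ⟨h'.1.2, h'.2⟩), mul_zero]
  · rw [if_neg hu]
    refine Finset.sum_eq_zero fun L _ => ?_
    rw [if_neg (fun h' => hu h'.1.1)]

lemma G_succ (m k : ℕ) (p : Car) (h : List Car) :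
    G S φ γ (m + 1) k p h = ∑ u ∈ S, if Hi p (dn u) then φ u h * Q S φ γ m k p u h else 0 := by
  classical
  rw [G, sum_Wd]
  refine Finset.sum_congr rfl fun u _ => ?_
  by_cases hu : Hi p (dn u)
  · rw [if_pos hu, Q, Finset.mul_sum]
    refine Finset.sum_congr rfl fun L _ => ?_
    by_cases hL : Leg u L
    · rw [if_pos hL, if_pos (show Leg p (u :: L) from ⟨hu, hL⟩), wtP, GP, mul_assoc]
    · rw [if_neg hL, if_neg (fun h' : Leg p (u :: L) => hL h'.2), mul_zero]
  · rw [if_neg hu]
    refine Finset.sum_eq_zero fun L _ => ?_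
    rw [if_neg (fun h' : Leg p (u :: L) => hu h'.1)]

lemma Q_zero (m : ℕ) (c u : Car) (h : List Car) : Q S φ γ m 0 c u h = G S φ γ m 0 u (u :: h) := by
  classical
  rw [Q, G]
  refine Finset.sum_congr rfl fun L _ => ?_
  rw [coeff_zero_key]

lemma filt {p c : Car} (u : Car) (hpc : Hi p c) :
    (S.filter (fun c' => Hi p c' ∧ Hi c' u)).filter (fun c' => Hi c c') =
      S.filter (fun c' => Hi c c' ∧ Hi c' u) := by
  ext x
  simp only [Finset.mem_filter]
  constructor
  · rintro ⟨⟨h1, _, h3⟩, h4⟩; exact ⟨h1, h4, h3⟩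
  · rintro ⟨h1, h2, h3⟩; exact ⟨⟨h1, Hi_trans hpc h2, h3⟩, h2⟩

lemma Q_succ (m k : ℕ) (p u : Car) (h : List Car) :
    Q S φ γ m (k + 1) p u h = G S φ γ m (k + 1) u (u :: h) +
      ∑ c ∈ S, if Hi p c ∧ Hi c (dn u) then γ c h * Q S φ γ m k c u h else 0 := by
  classical
  rw [← Finset.sum_filter]
  have h1 : ∀ c ∈ S.filter (fun c => Hi p c ∧ Hi c (dn u)), γ c h * Q S φ γ m k c u h =
      ∑ L ∈ Wd S m, γ c h * (if Leg u L then wtP φ (u :: h) L *
        ((∏ c' ∈ (S.filter (fun c' => Hi p c' ∧ Hi c' (dn u))).filter (fun c' => Hi c c'),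
          (1 + Polynomial.C (γ c' h) * Polynomial.X)) * GP S γ u (u :: h) L).coeff k else 0) := by
    intro c hc
    rw [Q, Finset.mul_sum, filt S (dn u) (Finset.mem_filter.1 hc).2.1]
  rw [Finset.sum_congr rfl h1, Finset.sum_comm, Q, G, ← Finset.sum_add_distrib]
  refine Finset.sum_congr rfl fun L _ => ?_
  by_cases hL : Leg u L
  · simp only [if_pos hL]
    rw [coeff_key, mul_add, Finset.mul_sum]
    congr 1
    refine Finset.sum_congr rfl fun c _ => ?_
    ring
  · simp only [if_neg hL, mul_zero, Finset.sum_const_zero, add_zero]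

lemma G_succ_succ (m k : ℕ) (p : Car) (h : List Car) :
    G S φ γ (m + 1) (k + 1) p h =
      (∑ u ∈ S, if Hi p (dn u) then φ u h * G S φ γ m (k + 1) u (u :: h) else 0) +
      ∑ c ∈ S, if Hi p c then γ c h * G S φ γ (m + 1) k c h else 0 := by
  classical
  have h2 : ∀ c ∈ S, (if Hi p c then γ c h * G S φ γ (m + 1) k c h else 0) =
      ∑ u ∈ S, if Hi p (dn u) then φ u h *
        (if Hi p c ∧ Hi c (dn u) then γ c h * Q S φ γ m k c u h else 0) else 0 := by
    intro c _
    by_cases hc : Hi p c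
    · rw [if_pos hc, G_succ, Finset.mul_sum]
      refine Finset.sum_congr rfl fun u _ => ?_
      by_cases hu : Hi c (dn u)
      · rw [if_pos hu, if_pos (Hi_trans hc hu), if_pos ⟨hc, hu⟩]; ring
      · rw [if_neg hu, if_neg (fun h' : Hi p c ∧ Hi c (dn u) => hu h'.2), mul_zero, mul_zero, ite_self]
    · rw [if_neg hc]
      refine (Finset.sum_eq_zero fun u _ => ?_).symm
      rw [if_neg (fun h' : Hi p c ∧ Hi c (dn u) => hc h'.1), mul_zero, ite_self]
  rw [G_succ, Finset.sum_congr rfl h2, Finset.sum_comm, ← Finset.sum_add_distrib]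
  refine Finset.sum_congr rfl fun u _ => ?_
  by_cases hu : Hi p (dn u)
  · simp only [if_pos hu]
    rw [Q_succ, mul_add, Finset.mul_sum]
  · simp only [if_neg hu, Finset.sum_const_zero, add_zero]

lemma G_zero_succ (k : ℕ) (p : Car) (h : List Car) :
    G S φ γ 0 (k + 1) p h = ∑ c ∈ S, if Hi p c then γ c h * G S φ γ 0 k c h else 0 := by
  classical
  have hl : ∀ c : Car, Leg c [] ↔ Hi c (-1, 0) := by
    intro c
    show 0 ≤ c.1 ↔ ((-1 : ℤ) < c.1 ∨ (-1 : ℤ) = c.1 ∧ c.2 < 0)
    omega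
  have hG : ∀ (k : ℕ) (c : Car), G S φ γ 0 k c h = if Hi c (-1, 0) then
      (∏ c' ∈ S.filter (fun c' => Hi c c' ∧ Hi c' (-1, 0)),
        (1 + Polynomial.C (γ c' h) * Polynomial.X)).coeff k else 0 := by
    intro k c
    rw [G, Wd, Finset.sum_singleton, wtP, GP, one_mul]
    exact if_congr (hl c) rfl rfl
  rw [hG]
  by_cases hp : Hi p (-1, 0)
  · rw [if_pos hp]
    have h1 := coeff_key (S.filter (fun c' => Hi p c' ∧ Hi c' (-1, 0))) (fun c => γ c h) 1 k
    rw [mul_one, Polynomial.coeff_one, if_neg (Nat.succ_ne_zero k), zero_add] at h1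
    rw [h1, Finset.sum_filter]
    refine Finset.sum_congr rfl fun c _ => ?_
    rw [hG]
    by_cases hc : Hi p c
    · by_cases hc2 : Hi c (-1, 0)
      · rw [if_pos ⟨hc, hc2⟩, if_pos hc, if_pos hc2, filt S _ hc, mul_one]
      · rw [if_neg (fun h' => hc2 h'.2), if_pos hc, if_neg hc2, mul_zero]
    · rw [if_neg (fun h' => hc h'.1), if_neg hc]
  · rw [if_neg hp]
    refine (Finset.sum_eq_zero fun c _ => ?_).symm
    rw [hG]
    by_cases hc : Hi p c
    · rw [if_neg (fun h' : Hi c (-1, 0) => hp (Hi_trans hc h')), mul_zero, ite_self]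
    · rw [if_neg hc]

lemma F_eq_G : ∀ (n m k : ℕ), m + k = n → ∀ (p : Car) (h : List Car), F S φ γ n k p h = G S φ γ m k p h := by
  intro n
  induction n with
  | zero =>
    intro m k hmk p h
    obtain rfl : m = 0 := by omega
    obtain rfl : k = 0 := by omega
    classical
    rw [F, G, Wd, Wd, Finset.sum_singleton, Finset.sum_singleton, wtD, wtP, GP]
    have h1 := coeff_zero_key (S.filter (fun c' => Hi p c' ∧ Hi c' (-1, 0))) (fun c => γ c h) 1
    rw [mul_one, Polynomial.coeff_one, if_pos rfl] at h1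
    rw [h1, mul_one]
    refine if_congr ?_ rfl rfl
    show (0 ≤ p.1 ∧ ndec [] = 0) ↔ 0 ≤ p.1
    exact ⟨fun h' => h'.1, fun h' => ⟨h', rfl⟩⟩
  | succ n ih =>
    intro m k hmk p h
    rcases k with _ | k
    · obtain ⟨m, rfl⟩ : ∃ m', m = m' + 1 := ⟨m - 1, by omega⟩
      rw [F_succ_zero, G_succ]
      refine Finset.sum_congr rfl fun u _ => ?_
      rw [ih m 0 (by omega), Q_zero]
    · rcases m with _ | m
      · rw [F_succ, G_zero_succ]
        have h1 : (∑ u ∈ S, if Hi p (dn u) then φ u h * F S φ γ n (k + 1) u (u :: h) else 0) = 0 := by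
          refine Finset.sum_eq_zero fun u _ => ?_
          rw [F_gt S φ γ n (k + 1) (by omega), mul_zero, ite_self]
        rw [h1, zero_add]
        refine Finset.sum_congr rfl fun c _ => ?_
        rw [ih 0 k (by omega)]
      · rw [F_succ, G_succ_succ]
        congr 1
        · refine Finset.sum_congr rfl fun u _ => ?_
          rw [ih m (k + 1) (by omega)]
        · refine Finset.sum_congr rfl fun c _ => ?_
          rw [ih (m + 1) k (by omega)]

end

theorem main : StCA := by
  intro A _ S φ γ m k p h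
  have h1 := F_eq_G S φ γ (m + k) m k rfl p h
  rw [F, G] at h1
  rw [Finset.sum_filter, Finset.sum_filter]
  convert h1

end Pool.VD.M_CA
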