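import Pool.Agent.VD.ColSt

/-!
# MP_cf06d4_co, module CB: regrouping of the gap product by cars
-/

set_option autoImplicit false

namespace Pool.VD.M_CB

open Pool.VD Finset

theorem cnt_cons (u : Car) (L : List Car) (c : Car) :
    cnt (u :: L) c = cnt L c + if att u c then 1 else 0 := by
  simp [cnt, List.countP_cons]

theorem att_iff (u c : Car) : att u c ↔ Hi u c ∧ Hi c (dn u) := by
  unfold att Hi dn
  constructor
  · rintro (⟨h1, h2⟩ | ⟨h1, h2⟩)
    · exact ⟨Or.inr ⟨h1, h2⟩, Or.inl (by simp only; omega)⟩
    · exact ⟨Or.inl (by omega), Or.inr ⟨by simp only; omega, h2⟩⟩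
  · simp only
    rintro ⟨h1, h2⟩
    omega

theorem hi_or (u c : Car) : Hi u c ∨ Hi c (dn u) := by
  unfold Hi dn
  simp only
  omega

theorem hi_dn {p u c : Car} (h1 : Hi p (dn u)) (h2 : ¬ Hi p c) : Hi c (dn u) := by
  unfold Hi dn at *
  simp only at *
  omega

theorem hi_neg (c : Car) : Hi c (-1, 0) ↔ 0 ≤ c.1 := by
  unfold Hi
  simp only
  omega

theorem pos_cnt (c : Car) (hc : c.1 < 0) (L : List Car) (p : Car) (hL : Leg p L)
    (hp : ¬ Hi p c) : 1 ≤ cnt L c := by
  induction L generalizing p with
  | nil =>
    exfalso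
    have h0 : 0 ≤ p.1 := hL
    apply hp
    unfold Hi
    omega
  | cons u L ih =>
    obtain ⟨h1, h2⟩ := hL
    have h3 : Hi c (dn u) := hi_dn h1 hp
    rw [cnt_cons]
    by_cases h4 : Hi u c
    · rw [if_pos ((att_iff u c).2 ⟨h4, h3⟩)]
      omega
    · have := ih u h2 h4
      omega

section

variable {B : Type} [CommMonoid B]

/-- the factors of a fixed car in the gap product -/
def F (g : ℕ → B) (c : Car) : Car → List Car → List Car → B
  | p, h, [] => if Hi p c ∧ Hi c (-1, 0) then g (cnt h c) else 1
  | p, h, u :: L => (if Hi p c ∧ Hi c (dn u) then g (cnt h c) else 1) * F g c u (u :: h) L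

theorem F_eq (g : ℕ → B) (c : Car) (L : List Car) (p : Car) (h : List Car) (hL : Leg p L) :
    F g c p h L = ∏ j ∈ Ico (cnt h c + if Hi p c then 0 else 1)
      (cnt h c + cnt L c + if 0 ≤ c.1 then 1 else 0), g j := by
  induction L generalizing p h with
  | nil =>
    have h0 : 0 ≤ p.1 := hL
    simp only [F, hi_neg]
    have hc : cnt ([] : List Car) c = 0 := rfl
    rw [hc]
    by_cases h1 : 0 ≤ c.1
    · by_cases h2 : Hi p c
      · simp [h1, h2]
      · simp [h1, h2]
    · have h2 : Hi p c := by
        unfold Hi
        omega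
      simp [h1, h2]
  | cons u L ih =>
    obtain ⟨h1, h2⟩ := hL
    rw [F, ih u (u :: h) h2, cnt_cons, cnt_cons]
    by_cases hp : Hi p c
    · by_cases hd : Hi c (dn u)
      · by_cases hu : Hi u c
        · have ha : att u c := (att_iff u c).2 ⟨hu, hd⟩
          simp only [hp, hd, hu, ha, and_self, if_true, add_zero]
          have e : cnt h c + 1 + cnt L c = cnt h c + (cnt L c + 1) := by omega
          rw [e]
          exact (Finset.prod_eq_prod_Ico_succ_bot (by omega) g).symm
        · have ha : ¬ att u c := fun h => hu ((att_iff u c).1 h).1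
          simp only [hp, hd, hu, ha, and_self, if_true, if_false, add_zero]
          have hpos : cnt h c < cnt h c + cnt L c + if 0 ≤ c.1 then 1 else 0 := by
            by_cases h0 : 0 ≤ c.1
            · rw [if_pos h0]
              omega
            · rw [if_neg h0]
              have := pos_cnt c (by omega) L u h2 hu
              omega
          exact (Finset.prod_eq_prod_Ico_succ_bot hpos g).symm
      · have hu : Hi u c := (hi_or u c).resolve_right hd
        have ha : ¬ att u c := fun h => hd ((att_iff u c).1 h).2
        simp only [hp, hd, hu, ha, and_false, if_true, if_false, add_zero, one_mul]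
    · have hd : Hi c (dn u) := hi_dn h1 hp
      by_cases hu : Hi u c
      · have ha : att u c := (att_iff u c).2 ⟨hu, hd⟩
        simp only [hp, hu, ha, false_and, if_true, if_false, add_zero, one_mul]
        have e : cnt h c + 1 + cnt L c = cnt h c + (cnt L c + 1) := by omega
        rw [e]
      · have ha : ¬ att u c := fun h => hu ((att_iff u c).1 h).1
        simp only [hp, hu, ha, false_and, if_false, add_zero, one_mul]

end

theorem GP_eq {A : Type} [CommRing A] (S : Finset Car) (ψ : Car → ℕ → A) (L : List Car)
    (p : Car) (h : List Car) :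
    GP S (fun c h => ψ c (cnt h c)) p h L =
      ∏ c ∈ S, F (fun j => 1 + Polynomial.C (ψ c j) * Polynomial.X) c p h L := by
  induction L generalizing p h with
  | nil =>
    simp only [GP, F]
    rw [Finset.prod_filter]
  | cons u L ih =>
    simp only [GP, F]
    rw [ih u (u :: h), Finset.prod_filter, ← Finset.prod_mul_distrib]

theorem main : StCB := by
  intro A _ S ψ p h L hL
  rw [GP_eq]
  exact Finset.prod_congr rfl fun c _ => F_eq _ c L p h hL

end Pool.VD.M_CB
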