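import Pool.Agent.VD.ColSt

/-!
# MP_cf06d4_co, group V: COL_D, the literal sum in terms of decorated words
-/

set_option autoImplicit false

namespace Pool.VD.M_CD

open Pool.VD
open Finset

/-! ### words -/

theorem mem_Wd {α : Type} (S : Finset α) : ∀ (n : ℕ) (L : List α),
    L ∈ Wd S n ↔ L.length = n ∧ ∀ c ∈ L, c ∈ S := by
  intro n
  induction n with
  | zero =>
    intro L
    simp only [Wd, Finset.mem_singleton]
    constructor
    · rintro rfl; simp
    · rintro ⟨h, -⟩; exact List.length_eq_zero_iff.mp h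
  | succ n ih =>
    intro L
    unfold Wd
    constructor
    · intro h
      obtain ⟨⟨a, l⟩, hal, h⟩ := Finset.mem_map.mp h
      have h' : a :: l = L := h
      subst h'
      obtain ⟨ha, hl⟩ := Finset.mem_product.mp hal
      obtain ⟨h1, h2⟩ := (ih l).mp hl
      refine ⟨by rw [List.length_cons, h1], ?_⟩
      intro c hc
      rcases List.mem_cons.mp hc with rfl | hc
      · exact ha
      · exact h2 c hc
    · rintro ⟨h1, h2⟩
      cases L with
      | nil => simp at h1
      | cons a l =>
        exact Finset.mem_map.mpr ⟨(a, l), Finset.mem_product.mpr ⟨h2 a (by simp),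
          (ih l).mpr ⟨by simpa using h1, fun c hc => h2 c (by simp [hc])⟩⟩, rfl⟩

/-- the step condition -/
def stp (p : Car) (d : DCar) : Prop := if d.2 then Hi p d.1 else Hi p (dn d.1)

theorem legD_cons (p : Car) (d : DCar) (L : List DCar) :
    LegD p (d :: L) ↔ stp p d ∧ LegD d.1 L := by
  obtain ⟨u, b⟩ := d
  cases b <;> simp [LegD, stp]

theorem legD_ofFn : ∀ (n : ℕ) (f : Fin (n + 1) → DCar) (p : Car),
    LegD p (List.ofFn f) ↔
      stp p (f 0) ∧ (∀ i : Fin n, stp (f i.castSucc).1 (f i.succ)) ∧ 0 ≤ (f (Fin.last n)).1.1 := by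
  intro n
  induction n with
  | zero =>
    intro f p
    rw [List.ofFn_succ, legD_cons]
    simp [LegD]
  | succ n ih =>
    intro f p
    rw [List.ofFn_succ, legD_cons, ih (fun i => f i.succ) (f 0).1, Fin.forall_fin_succ]
    simp only [Fin.castSucc_zero, Fin.castSucc_succ, Fin.succ_last]
    tauto

/-- the decorated word of a decorated labelled path -/
def wd {n N : ℕ} (x : Fin n → Fin n) (w : Fin n → Fin N) (D : Finset (Fin n)) : List DCar :=
  List.ofFn fun i => ((lev x i, (w i : ℕ)), decide (i ∈ D))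

theorem isLab_of {m N : ℕ} (x : Fin (m + 1) → Fin (m + 1)) (w : Fin (m + 1) → Fin N)
    (hx : Monotone x) (h : ∀ i : Fin m, x i.castSucc = x i.succ → w i.castSucc < w i.succ) :
    IsLab x w := by
  have key : ∀ d : ℕ, ∀ i j : Fin (m + 1), (j : ℕ) = (i : ℕ) + d + 1 → x i = x j → w i < w j := by
    intro d
    induction d with
    | zero =>
      intro i j hij hx'
      have hi : (i : ℕ) < m := by have := j.isLt; omega
      have e1 : i = (⟨i, hi⟩ : Fin m).castSucc := by ext; rfl
      have e2 : j = (⟨i, hi⟩ : Fin m).succ := by ext; simp; omega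
      rw [e1, e2] at hx' ⊢
      exact h _ hx'
    | succ d ih =>
      intro i j hij hx'
      have hj := j.isLt
      have hi : (i : ℕ) + d + 1 < m := by omega
      set a : Fin m := ⟨(i : ℕ) + d + 1, hi⟩ with ha
      have e2 : j = a.succ := by ext; simp [ha]; omega
      have h1 : x i ≤ x a.castSucc := hx (by rw [Fin.le_iff_val_le_val]; simp [ha]; omega)
      have h2 : x a.castSucc ≤ x j := hx (by rw [Fin.le_iff_val_le_val]; simp [ha]; omega)
      have h3 : x i = x a.castSucc := le_antisymm h1 (by rw [hx']; exact h2)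
      have h4 : x a.castSucc = x a.succ := by rw [← e2, ← hx', h3]
      have := ih i a.castSucc (by simp [ha]) h3
      have h5 := h a h4
      rw [e2]
      exact this.trans h5
  intro i j hij hx'
  refine key ((j : ℕ) - i - 1) i j ?_ hx'
  have := Fin.lt_def.mp hij
  omega

theorem leg_iff {m N : ℕ} (x : Fin (m + 1) → Fin (m + 1)) (w : Fin (m + 1) → Fin N)
    (D : Finset (Fin (m + 1))) :
    LegD (0, N) (wd x w D) ↔ Monotone x ∧ IsLab x w ∧ ∀ i ∈ D, CV x w i := by
  unfold wd
  rw [legD_ofFn]
  have hlast : 0 ≤ lev x (Fin.last m) := by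
    unfold lev
    have := (x (Fin.last m)).isLt
    simp
    omega
  have hl0 : lev x 0 ≤ 0 := by
    unfold lev
    simp
  have h0 : stp (0, N) ((lev x 0, (w 0 : ℕ)), decide ((0 : Fin (m + 1)) ∈ D)) ↔
      (0 ∈ D → CV x w 0) := by
    have hw := (w 0).isLt
    unfold stp
    by_cases hD : (0 : Fin (m + 1)) ∈ D
    · simp only [hD, decide_true, if_true, Hi, true_imp_iff]
      unfold CV
      constructor
      · intro h
        left
        refine ⟨rfl, ?_⟩
        rcases h with h | ⟨h1, h2⟩
        · exact h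
        · omega
      · rintro (⟨-, h⟩ | ⟨j, hj, -⟩)
        · left; exact h
        · simp at hj
    · simp only [hD, decide_false, Bool.false_eq_true, if_false, Hi, dn, false_imp_iff, iff_true]
      left
      omega
  have hs : ∀ i : Fin m, stp (lev x i.castSucc, (w i.castSucc : ℕ))
      ((lev x i.succ, (w i.succ : ℕ)), decide (i.succ ∈ D)) ↔
      (x i.castSucc ≤ x i.succ ∧ (x i.castSucc = x i.succ → w i.castSucc < w i.succ) ∧
        (i.succ ∈ D → CV x w i.succ)) := by
    intro i
    have e1 : lev x i.castSucc = ((i : ℕ) : ℤ) - ((x i.castSucc : ℕ) : ℤ) := rfl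
    have e2 : lev x i.succ = ((i : ℕ) : ℤ) + 1 - ((x i.succ : ℕ) : ℤ) := by
      unfold lev; simp
    have hCV : CV x w i.succ ↔ (lev x i.succ < lev x i.castSucc ∨
        (lev x i.succ = lev x i.castSucc ∧ w i.castSucc < w i.succ)) := by
      unfold CV
      constructor
      · rintro (⟨h, -⟩ | ⟨j, hj, h⟩)
        · simp at h
        · have : j = i.castSucc := by ext; simpa using hj
          rw [this] at h
          exact h
      · intro h
        right
        exact ⟨i.castSucc, by simp, h⟩
    rw [hCV]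
    unfold stp
    by_cases hD : i.succ ∈ D
    · simp only [hD, decide_true, if_true, Hi, true_imp_iff, e1, e2, Fin.le_def, Fin.lt_def, Fin.ext_iff]
      constructor
      · intro h
        refine ⟨?_, ?_, ?_⟩ <;> omega
      · rintro ⟨h1, h2, h3⟩
        omega
    · simp only [hD, decide_false, Bool.false_eq_true, if_false, Hi, dn, false_imp_iff, and_true, e1, e2,
        Fin.le_def, Fin.lt_def, Fin.ext_iff]
      omega
  simp only
  rw [h0]
  constructor
  · rintro ⟨a0, a1, -⟩
    have hmono : Monotone x := Fin.monotone_iff_le_succ.mpr fun i => ((hs i).mp (a1 i)).1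
    refine ⟨hmono, isLab_of x w hmono fun i => ((hs i).mp (a1 i)).2.1, ?_⟩
    intro i hi
    rcases Fin.eq_zero_or_eq_succ i with rfl | ⟨j, rfl⟩
    · exact a0 hi
    · exact ((hs j).mp (a1 j)).2.2 hi
  · rintro ⟨hmono, hlab, hcv⟩
    refine ⟨fun h => hcv 0 h, fun i => (hs i).mpr ⟨hmono (Fin.castSucc_lt_succ (i := i)).le, fun h => ?_,
      fun h => hcv _ h⟩, hlast⟩
    exact hlab _ _ (Fin.castSucc_lt_succ (i := i)) h

/-! ### counting -/

theorem countP_ofFn {α : Type} : ∀ (n : ℕ) (f : Fin n → α) (p : α → Bool),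
    (List.ofFn f).countP p = ∑ i, if p (f i) then 1 else 0 := by
  intro n
  induction n with
  | zero => intro f p; simp
  | succ n ih =>
    intro f p
    rw [List.ofFn_succ, List.countP_cons, ih, Fin.sum_univ_succ, add_comm]

/-- number of attacks from undecorated letters -/
def invD : List DCar → ℕ
  | [] => 0
  | d :: L => (if d.2 then 0 else L.countP (fun e => decide (att d.1 e.1))) + invD L

theorem invD_ofFn : ∀ (n : ℕ) (f : Fin n → DCar),
    invD (List.ofFn f) =
      ∑ i, ∑ j, if (i < j ∧ (f i).2 = false ∧ att (f i).1 (f j).1) then 1 else 0 := by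
  intro n
  induction n with
  | zero => intro f; simp [invD]
  | succ n ih =>
    intro f
    rw [List.ofFn_succ, invD, ih, Fin.sum_univ_succ, countP_ofFn]
    congr 1
    · rw [Fin.sum_univ_succ]
      simp only [lt_irrefl, false_and, if_false, zero_add, Fin.succ_pos, true_and, decide_eq_true_eq]
      cases (f 0).2
      · simp
      · simp
    · refine Finset.sum_congr rfl fun i _ => ?_
      rw [Fin.sum_univ_succ]
      simp only [Fin.not_lt_zero, false_and, if_false, zero_add, Fin.succ_lt_succ_iff]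

/-- the exponent of `q` -/
def EX : List Car → List DCar → ℤ
  | _, [] => 0
  | h, (u, false) :: L => ((cnt h u : ℕ) : ℤ) + (if u.1 < 0 then 1 else 0) + EX (u :: h) L
  | h, (u, true) :: L => ((cnt h u : ℕ) : ℤ) - (if 0 ≤ u.1 then 1 else 0) + EX h L

theorem sum_cnt_cons (u : Car) (h : List Car) (L : List DCar) :
    (L.map (fun d => cnt (u :: h) d.1)).sum =
      (L.map (fun d => cnt h d.1)).sum + L.countP (fun e => decide (att u e.1)) := by
  induction L with
  | nil => simp
  | cons d L ih =>
    rw [List.map_cons, List.sum_cons, ih, List.map_cons, List.sum_cons, List.countP_cons]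
    have : cnt (u :: h) d.1 = cnt h d.1 + if att u d.1 then 1 else 0 := by
      unfold cnt
      rw [List.countP_cons]
      simp
    rw [this]
    simp only [decide_eq_true_eq]
    omega

theorem EX_eq : ∀ (L : List DCar) (h : List Car),
    EX h L = (((L.map (fun d => cnt h d.1)).sum : ℕ) : ℤ) + ((invD L : ℕ) : ℤ) +
      ((L.countP (fun d => decide (d.1.1 < 0)) : ℕ) : ℤ) - ((ndec L : ℕ) : ℤ) := by
  intro L
  induction L with
  | nil => intro h; simp [EX, invD, ndec]
  | cons d L ih =>
    intro h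
    obtain ⟨u, b⟩ := d
    cases b
    · rw [EX, ih (u :: h), sum_cnt_cons, List.map_cons, List.sum_cons, invD, List.countP_cons]
      have e : ndec ((u, false) :: L) = ndec L := by simp [ndec]
      rw [e]
      simp only [decide_eq_true_eq, Bool.false_eq_true, if_false]
      push_cast
      split_ifs <;> ring
    · rw [EX, ih h, List.map_cons, List.sum_cons, invD, List.countP_cons]
      have e : ndec ((u, true) :: L) = ndec L + 1 := by simp [ndec]
      rw [e]
      simp only [decide_eq_true_eq, if_true]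
      push_cast
      split_ifs <;> omega

variable {K : Type} [Field K] [CharZero K]

theorem wtD_eq (q t : K) (ht : t ≠ 0) (hq : q ≠ 0) (N : ℕ) : ∀ (L : List DCar) (h : List Car),
    wtD (phU q t N) (gaD q t N) h L =
      MvPolynomial.C (t ^ (L.map (fun d => d.1.1)).sum * q ^ EX h L) *
        (L.map (fun d => yv K N d.1.2)).prod := by
  intro L
  induction L with
  | nil => intro h; simp [wtD, EX]
  | cons d L ih =>
    intro h
    obtain ⟨u, b⟩ := d
    cases b
    · rw [wtD, ih (u :: h), EX, List.map_cons, List.sum_cons, List.map_cons, List.prod_cons, phU]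
      have e1 : (t ^ (u.1 + (L.map (fun d => d.1.1)).sum) : K) = t ^ u.1 * t ^ (L.map (fun d => d.1.1)).sum :=
        zpow_add₀ ht _ _
      have e2 : (q ^ (((cnt h u : ℕ) : ℤ) + (if u.1 < 0 then 1 else 0) + EX (u :: h) L) : K) =
          q ^ (cnt h u + if u.1 < 0 then 1 else 0) * q ^ EX (u :: h) L := by
        rw [zpow_add₀ hq]
        congr 1
        rw [← zpow_natCast]
        congr 1
        push_cast
        rfl
      rw [e1, e2]
      simp only [map_mul]
      ring
    · rw [wtD, ih h, EX, List.map_cons, List.sum_cons, List.map_cons, List.prod_cons, gaD]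
      have e1 : (t ^ (u.1 + (L.map (fun d => d.1.1)).sum) : K) = t ^ u.1 * t ^ (L.map (fun d => d.1.1)).sum :=
        zpow_add₀ ht _ _
      have e2 : (q ^ (((cnt h u : ℕ) : ℤ) - (if 0 ≤ u.1 then 1 else 0) + EX h L) : K) =
          q ^ (((cnt h u : ℕ) : ℤ) - if 0 ≤ u.1 then 1 else 0) * q ^ EX h L := zpow_add₀ hq _ _
      rw [e1, e2]
      simp only [map_mul]
      ring

/-! ### shift -/

theorem botD_le (L : List DCar) (b : ℕ) : botD L ≤ b ↔ ∀ d ∈ L, -(b : ℤ) ≤ d.1.1 := by
  unfold botD
  induction L with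
  | nil => simp
  | cons d L ih =>
    simp only [List.map_cons, List.foldr_cons, max_le_iff, List.mem_cons, forall_eq_or_imp]
    rw [ih]
    refine and_congr_left fun _ => ?_
    omega

theorem sh_le {m : ℕ} (x : Fin (m + 1) → Fin (m + 1)) (b : ℕ) :
    sh x ≤ b ↔ ∀ i, -(b : ℤ) ≤ lev x i := by
  have hbdd : BddBelow (Set.range (lev x)) := (Set.finite_range _).bddBelow
  have h0 : (⨅ i, lev x i) ≤ lev x 0 := ciInf_le hbdd 0
  have hl0 : lev x 0 ≤ 0 := by
    unfold lev
    simp
  have h1 : (∀ i, -(b : ℤ) ≤ lev x i) ↔ -(b : ℤ) ≤ ⨅ i, lev x i := (le_ciInf_iff hbdd).symm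
  rw [h1]
  unfold sh
  omega

theorem botD_wd {m N : ℕ} (x : Fin (m + 1) → Fin (m + 1)) (w : Fin (m + 1) → Fin N)
    (D : Finset (Fin (m + 1))) : botD (wd x w D) = sh x := by
  refine eq_of_forall_ge_iff fun b => ?_
  rw [botD_le, sh_le]
  unfold wd
  simp only [List.mem_ofFn, forall_exists_index, forall_apply_eq_imp_iff]

theorem tarea (t : K) (ht : t ≠ 0) {m : ℕ} (x : Fin (m + 1) → Fin (m + 1)) :
    t ^ area x = t ^ ((m + 1) * sh x) * t ^ (∑ i, lev x i) := by
  have hn : 0 ≤ ∑ i, (lev x i + (sh x : ℤ)) := by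
    refine Finset.sum_nonneg fun i _ => ?_
    have := (sh_le x (sh x)).mp le_rfl i
    omega
  rw [← zpow_natCast, ← zpow_natCast, ← zpow_add₀ ht]
  congr 1
  unfold area
  rw [Int.toNat_of_nonneg hn, Finset.sum_add_distrib]
  simp
  ring

theorem ndec_wd {m N : ℕ} (x : Fin (m + 1) → Fin (m + 1)) (w : Fin (m + 1) → Fin N)
    (D : Finset (Fin (m + 1))) : ndec (wd x w D) = D.card := by
  unfold ndec wd
  rw [countP_ofFn]
  simp

theorem card_AP {m N : ℕ} (x : Fin (m + 1) → Fin (m + 1)) (w : Fin (m + 1) → Fin N)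
    (D : Finset (Fin (m + 1))) : invD (wd x w D) = (AP x w D).card := by
  unfold wd AP
  rw [invD_ofFn, Finset.card_filter, Finset.univ_product_univ.symm, Finset.sum_product]
  refine Finset.sum_congr rfl fun i _ => Finset.sum_congr rfl fun j _ => ?_
  refine if_congr ?_ rfl rfl
  simp only [decide_eq_false_iff_not, att, Fin.lt_def]

theorem EX_wd {m N : ℕ} (x : Fin (m + 1) → Fin (m + 1)) (w : Fin (m + 1) → Fin N)
    (D : Finset (Fin (m + 1))) : EX [] (wd x w D) = dinv x w D := by
  rw [EX_eq, card_AP, ndec_wd]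
  unfold dinv
  have e1 : ((wd x w D).map (fun d => cnt [] d.1)).sum = 0 := by
    unfold cnt
    simp
  have e2 : (wd x w D).countP (fun d => decide (d.1.1 < 0)) = (univ.filter fun i => lev x i < 0).card := by
    unfold wd
    rw [countP_ofFn, Finset.card_filter]
    refine Finset.sum_congr rfl fun i _ => ?_
    simp
  rw [e1, e2]
  simp

theorem weight (q t : K) (ht : t ≠ 0) (hq : q ≠ 0) {m N : ℕ} (x : Fin (m + 1) → Fin (m + 1))
    (w : Fin (m + 1) → Fin N) (D : Finset (Fin (m + 1))) :
    MvPolynomial.C (t ^ area x * q ^ dinv x w D) * ∏ i, (MvPolynomial.X (w i) : MvPolynomial (Fin N) K) =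
      MvPolynomial.C (t ^ ((m + 1) * botD (wd x w D))) *
        wtD (phU q t N) (gaD q t N) [] (wd x w D) := by
  rw [wtD_eq q t ht hq, EX_wd, botD_wd, tarea t ht]
  have e1 : ((wd x w D).map (fun d => d.1.1)).sum = ∑ i, lev x i := by
    unfold wd
    rw [List.map_ofFn, List.sum_ofFn]
    rfl
  have e2 : ((wd x w D).map (fun d => yv K N d.1.2)).prod = ∏ i, MvPolynomial.X (w i) := by
    unfold wd
    rw [List.map_ofFn, List.prod_ofFn]
    refine Finset.prod_congr rfl fun i _ => ?_
    simp [yv]
  rw [e1, e2]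
  simp only [map_mul]
  ring

/-! ### the bijection -/

theorem wd_mem {m N s : ℕ} (hs : m + 1 ≤ s) (x : Fin (m + 1) → Fin (m + 1))
    (w : Fin (m + 1) → Fin N) (D : Finset (Fin (m + 1))) :
    wd x w D ∈ Wd (AD2 (Als s (m + 1) N)) (m + 1) := by
  rw [mem_Wd]
  unfold wd
  refine ⟨by simp, ?_⟩
  intro c hc
  obtain ⟨i, rfl⟩ := List.mem_ofFn.mp hc
  have h1 := (x i).isLt
  have h2 := i.isLt
  have h3 := (w i).isLt
  simp only [AD2, Als, Finset.mem_product, Finset.mem_univ, and_true, Finset.mem_Icc, Finset.mem_range]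
  unfold lev
  refine ⟨⟨?_, ?_⟩, h3⟩ <;> push_cast <;> omega

theorem wd_inj {m N : ℕ} (x x' : Fin (m + 1) → Fin (m + 1))
    (w w' : Fin (m + 1) → Fin N) (D D' : Finset (Fin (m + 1))) (h : wd x w D = wd x' w' D') :
    x = x' ∧ w = w' ∧ D = D' := by
  have h := List.ofFn_injective h
  refine ⟨?_, ?_, ?_⟩
  · funext i
    have := congrFun h i
    simp only [Prod.mk.injEq] at this
    have h1 := this.1.1
    unfold lev at h1
    ext
    omega
  · funext i
    have := congrFun h i
    simp only [Prod.mk.injEq] at this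
    ext
    exact this.1.2
  · ext i
    have := congrFun h i
    simp only [Prod.mk.injEq] at this
    simpa using this.2

theorem wd_surj {m N s : ℕ} (L : List DCar) (hL : L ∈ Wd (AD2 (Als s (m + 1) N)) (m + 1))
    (hleg : LegD (0, N) L) :
    ∃ (x : Fin (m + 1) → Fin (m + 1)) (w : Fin (m + 1) → Fin N) (D : Finset (Fin (m + 1))),
      wd x w D = L := by
  rw [mem_Wd] at hL
  obtain ⟨hlen, hmem⟩ := hL
  obtain ⟨f, rfl⟩ : ∃ f : Fin (m + 1) → DCar, L = List.ofFn f := by
    refine ⟨fun i => L.get (i.cast hlen.symm), ?_⟩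
    refine List.ext_getElem (by simp [hlen]) ?_
    intro i h1 h2
    simp only [List.getElem_ofFn, List.get_eq_getElem, Fin.val_cast]
  rw [legD_ofFn] at hleg
  obtain ⟨h0, h1, h2⟩ := hleg
  have hlab : ∀ i, (f i).1.2 < N := by
    intro i
    have := hmem (f i) (List.mem_ofFn.mpr ⟨i, rfl⟩)
    simp only [AD2, Als, Finset.mem_product, Finset.mem_range] at this
    exact this.1.2
  have b0 : (f 0).1.1 ≤ 0 := by
    have := hlab 0
    unfold stp at h0
    split_ifs at h0
    · unfold Hi at h0; simp only at h0; omega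
    · unfold Hi dn at h0; simp only at h0; omega
  have b1 : ∀ i : Fin m, (f i.succ).1.1 ≤ (f i.castSucc).1.1 + 1 := by
    intro i
    have h := h1 i
    unfold stp at h
    split_ifs at h
    · unfold Hi at h; omega
    · unfold Hi dn at h; simp only at h; omega
  have hmono : Monotone fun i : Fin (m + 1) => ((i : ℕ) : ℤ) - (f i).1.1 := by
    refine Fin.monotone_iff_le_succ.mpr fun i => ?_
    have := b1 i
    simp only [Fin.val_castSucc, Fin.val_succ]
    push_cast
    omega
  have c0 : ∀ i : Fin (m + 1), 0 ≤ ((i : ℕ) : ℤ) - (f i).1.1 := by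
    intro i
    have := hmono (Fin.zero_le i)
    simp only [Fin.val_zero] at this
    push_cast at this
    omega
  have c1 : ∀ i : Fin (m + 1), ((i : ℕ) : ℤ) - (f i).1.1 ≤ m := by
    intro i
    have := hmono (Fin.le_last i)
    simp only [Fin.val_last] at this
    omega
  refine ⟨fun i => ⟨(((i : ℕ) : ℤ) - (f i).1.1).toNat, ?_⟩, fun i => ⟨(f i).1.2, hlab i⟩,
    univ.filter fun i => (f i).2 = true, ?_⟩
  · have := c0 i
    have := c1 i
    omega
  · unfold wd
    congr 1
    funext i
    have := c0 i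
    refine Prod.ext (Prod.ext ?_ rfl) ?_
    · simp only [lev]
      omega
    · simp

open Classical in
theorem main (q t : K) : StCD q t := by
  intro ht hq n k N s hn hs
  obtain ⟨m, rfl⟩ : ∃ m, n = m + 1 := ⟨n - 1, by omega⟩
  unfold FF
  refine Finset.sum_bij (fun P _ => wd P.1 P.2.1 P.2.2) ?_ ?_ ?_ ?_
  · intro P hP
    simp only [VP, Finset.mem_filter, Finset.mem_univ, true_and] at hP
    obtain ⟨h1, h2, h3, h4⟩ := hP
    rw [Finset.mem_filter]
    exact ⟨wd_mem hs _ _ _, (leg_iff _ _ _).mpr ⟨h1, h2, h3⟩, by rw [ndec_wd, h4]⟩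
  · intro P _ P' _ h
    obtain ⟨h1, h2, h3⟩ := wd_inj _ _ _ _ _ _ h
    exact Prod.ext h1 (Prod.ext h2 h3)
  · intro L hL
    rw [Finset.mem_filter] at hL
    obtain ⟨h1, h2, h3⟩ := hL
    obtain ⟨x, w, D, rfl⟩ := wd_surj L h1 h2
    obtain ⟨h4, h5, h6⟩ := (leg_iff _ _ _).mp h2
    refine ⟨(x, w, D), ?_, rfl⟩
    simp only [VP, Finset.mem_filter, Finset.mem_univ, true_and]
    exact ⟨h4, h5, h6, by rw [← h3, ndec_wd]⟩
  · intro P _
    exact weight q t ht hq _ _ _

end Pool.VD.M_CD
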