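import Pool.Agent.VD.ColSt

/-!
# MP_cf06d4_co, group V, module CE: decomposition by the shift
-/

set_option autoImplicit false

namespace Pool.VD.M_CE

open Pool.VD Finset

theorem mem_Wd {α : Type} (S : Finset α) : ∀ (n : ℕ) (L : List α),
    L ∈ Wd S n ↔ L.length = n ∧ ∀ x ∈ L, x ∈ S := by
  intro n
  induction n with
  | zero =>
    intro L
    simp only [Wd, Finset.mem_singleton]
    constructor
    · rintro rfl; simp
    · rintro ⟨h, -⟩; exact List.length_eq_zero_iff.mp h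
  | succ n ih =>
    intro L
    simp only [Wd, Finset.mem_map, Finset.mem_product, Function.Embedding.coeFn_mk, Prod.exists]
    constructor
    · rintro ⟨a, M, ⟨ha, hM⟩, rfl⟩
      obtain ⟨h1, h2⟩ := (ih M).mp hM
      refine ⟨by simp [h1], ?_⟩
      intro x hx
      rcases List.mem_cons.mp hx with rfl | hx
      · exact ha
      · exact h2 x hx
    · rintro ⟨h1, h2⟩
      cases L with
      | nil => simp at h1
      | cons a M =>
        exact ⟨a, M, ⟨h2 a (by simp), (ih M).mpr ⟨by simpa using h1, fun x hx => h2 x (by simp [hx])⟩⟩,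
          rfl⟩

theorem botD_le (i : ℕ) : ∀ L : List DCar, botD L ≤ i ↔ ∀ c ∈ L, -(i : ℤ) ≤ c.1.1 := by
  intro L
  induction L with
  | nil => simp [botD]
  | cons a L ih =>
    have h : botD (a :: L) = max (-a.1.1).toNat (botD L) := rfl
    rw [h, max_le_iff, ih]
    simp only [List.mem_cons, forall_eq_or_imp]
    constructor
    · rintro ⟨h1, h2⟩
      exact ⟨by omega, h2⟩
    · rintro ⟨h1, h2⟩
      exact ⟨by omega, h2⟩

theorem mem_AD2 (i B N : ℕ) (c : DCar) :
    c ∈ AD2 (Als i B N) ↔ -(i : ℤ) ≤ c.1.1 ∧ c.1.1 ≤ (B : ℤ) ∧ c.1.2 < N := by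
  simp only [AD2, Als, Finset.mem_product, Finset.mem_Icc, Finset.mem_range, Finset.mem_univ,
    and_true, and_assoc]

theorem mem_W (n B N i : ℕ) (L : List DCar) : L ∈ Wd (AD2 (Als i B N)) n ↔
    L.length = n ∧ botD L ≤ i ∧ ∀ c ∈ L, c.1.1 ≤ (B : ℤ) ∧ c.1.2 < N := by
  rw [mem_Wd, botD_le]
  constructor
  · rintro ⟨h1, h2⟩
    exact ⟨h1, fun c hc => ((mem_AD2 i B N c).mp (h2 c hc)).1,
      fun c hc => ((mem_AD2 i B N c).mp (h2 c hc)).2⟩
  · rintro ⟨h1, h2, h3⟩
    exact ⟨h1, fun c hc => (mem_AD2 i B N c).mpr ⟨h2 c hc, h3 c hc⟩⟩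

theorem main : StCE := by
  classical
  intro A _ f θ n k N B s hn
  induction s with
  | zero =>
    rw [Finset.range_zero, Finset.sum_empty, add_zero]
    refine Finset.sum_congr rfl fun L hL => ?_
    have h1 := (mem_W n B N 0 L).mp (Finset.mem_filter.mp hL).1
    have h2 : botD L = 0 := Nat.le_zero.mp h1.2.1
    rw [h2, mul_zero, pow_zero, one_mul]
  | succ s ih =>
    rw [Finset.sum_range_succ, ← add_assoc, ← ih]
    set P : List DCar → Prop := fun L => LegD (0, N) L ∧ ndec L = k with hP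
    set W1 := (Wd (AD2 (Als (s + 1) B N)) n).filter P with hW1
    set W0 := (Wd (AD2 (Als s B N)) n).filter P with hW0
    have hsub : W0 ⊆ W1 := by
      intro L hL
      obtain ⟨h1, h2⟩ := Finset.mem_filter.mp hL
      obtain ⟨h3, h4, h5⟩ := (mem_W n B N s L).mp h1
      exact Finset.mem_filter.mpr ⟨(mem_W n B N (s + 1) L).mpr ⟨h3, by omega, h5⟩, h2⟩
    have hd : ∀ L ∈ W1 \ W0, botD L = s + 1 := by
      intro L hL
      obtain ⟨h1, h2⟩ := Finset.mem_sdiff.mp hL
      obtain ⟨h3, h4⟩ := Finset.mem_filter.mp h1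
      obtain ⟨h5, h6, h7⟩ := (mem_W n B N (s + 1) L).mp h3
      by_contra hne
      exact h2 (Finset.mem_filter.mpr ⟨(mem_W n B N s L).mpr ⟨h5, by omega, h7⟩, h4⟩)
    rw [← Finset.sum_sdiff hsub, ← Finset.sum_sdiff (f := f) hsub, add_sub_cancel_right,
      Finset.mul_sum, add_comm]
    congr 1
    refine Finset.sum_congr rfl fun L hL => ?_
    rw [hd L hL]

end Pool.VD.M_CE
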