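import Pool.Agent.VD.ColSt

/-!
# MP_cf06d4_co, group V, module CF: the coefficient over the alphabet with levels bounded below
-/

set_option autoImplicit false
set_option linter.unusedSectionVars false

namespace Pool.VD.M_CF

open Pool.VD Finset

variable {K : Type} [Field K] [CharZero K]

theorem bot_ge (L : List Car) : ∀ c ∈ L, 0 ≤ c.1 + (bot L : ℤ) := by
  induction L with
  | nil => intro c hc; simp at hc
  | cons u L ih =>
    intro c hc
    have hb : bot (u :: L) = max (-u.1).toNat (bot L) := rfl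
    rw [hb]
    rcases List.mem_cons.1 hc with h | h
    · subst h
      have := le_max_left (-c.1).toNat (bot L)
      omega
    · have h1 := ih c h
      have := le_max_right (-u.1).toNat (bot L)
      omega

theorem bot_le (m : ℕ) (L : List Car) (hL : ∀ c ∈ L, -(m : ℤ) ≤ c.1) : bot L ≤ m := by
  induction L with
  | nil => simp [bot]
  | cons u L ih =>
    have hb : bot (u :: L) = max (-u.1).toNat (bot L) := rfl
    rw [hb]
    apply max_le
    · have := hL u List.mem_cons_self
      omega
    · exact ih (fun c hc => hL c (List.mem_cons_of_mem _ hc))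

theorem reindex {M : Type} [CommMonoid M] (F : ℤ → M) (s i B R m : ℕ) (hi : s ≤ i) (hB : m ≤ B)
    (hR : s + m < R) (h1 : ∀ a : ℤ, -(i : ℤ) ≤ a → a < -(s : ℤ) → F a = 1)
    (h2 : ∀ a : ℤ, (m : ℤ) < a → F a = 1) :
    ∏ a ∈ Icc (-(i : ℤ)) (B : ℤ), F a = ∏ b ∈ range R, F ((b : ℤ) - (s : ℤ)) := by
  have e1 : ∏ a ∈ Icc (-(s : ℤ)) (m : ℤ), F a = ∏ a ∈ Icc (-(i : ℤ)) (B : ℤ), F a := by
    apply prod_subset
    · intro a ha
      rw [mem_Icc] at ha ⊢
      omega
    · intro a ha ha'
      rw [mem_Icc] at ha ha'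
      by_cases h : a < -(s : ℤ)
      · exact h1 a ha.1 h
      · exact h2 a (by omega)
  have e2 : ∏ b ∈ range (s + m + 1), F ((b : ℤ) - (s : ℤ)) = ∏ b ∈ range R, F ((b : ℤ) - (s : ℤ)) := by
    apply prod_subset
    · intro b hb
      rw [mem_range] at hb ⊢
      omega
    · intro b hb hb'
      rw [mem_range] at hb hb'
      exact h2 _ (by omega)
  rw [← e1, ← e2]
  symm
  apply prod_bij (fun (b : ℕ) _ => (b : ℤ) - (s : ℤ))
  · intro b hb
    rw [mem_range] at hb
    rw [mem_Icc]
    omega
  · intro b _ b' _ h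
    omega
  · intro a ha
    rw [mem_Icc] at ha
    refine ⟨(a + s).toNat, ?_, ?_⟩
    · rw [mem_range]; omega
    · omega
  · intro b _
    rfl

/-- product over all cars of a fixed level -/
noncomputable def fac (q t : K) (N : ℕ) (L : List Car) (a : ℤ) : Polynomial (MvPolynomial (Fin N) K) :=
  ∏ v ∈ range N, ∏ j ∈ range (cnt L (a, v)),
    (1 + Polynomial.C (MvPolynomial.C (t ^ a * q ^ j) * yv K N v) * Polynomial.X)

theorem cnt_zero (L : List Car) (a : ℤ) (v : ℕ) (h : ∀ c ∈ L, a ≠ c.1 ∧ a ≠ c.1 - 1) :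
    cnt L (a, v) = 0 := by
  unfold cnt
  rw [List.countP_eq_zero]
  intro d hd
  have := h d hd
  simp only [att, decide_eq_true_eq]
  intro h'
  rcases h' with h' | h'
  · exact this.1 h'.1
  · exact this.2 h'.1

theorem fac_one (q t : K) (N : ℕ) (L : List Car) (a : ℤ) (h : ∀ c ∈ L, a ≠ c.1 ∧ a ≠ c.1 - 1) :
    fac q t N L a = 1 := by
  unfold fac
  apply prod_eq_one
  intro v _
  rw [cnt_zero L a v h]
  simp

theorem EE_eq (q t : K) (N i B k : ℕ) (L : List Car) :
    EE q t N i B k L = (∏ a ∈ Icc (-(i : ℤ)) (B : ℤ), fac q t N L a).coeff k := by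
  unfold EE Als fac
  rw [prod_product]

theorem scale {R : Type} [CommRing R] {ι : Type} (s : Finset ι) (p p' : ι → Polynomial R) (r : R)
    (h : ∀ i ∈ s, p' i = (p i).comp (Polynomial.C r * Polynomial.X)) :
    ∏ i ∈ s, p' i = (∏ i ∈ s, p i).comp (Polynomial.C r * Polynomial.X) := by
  rw [Polynomial.prod_comp]
  exact prod_congr rfl h

theorem fac_scale (q t : K) (ht : t ≠ 0) (N : ℕ) (L : List Car) (s b : ℕ) :
    fac q t N L ((b : ℤ) - s) =
      (∏ v ∈ range N, poch q t N b v (cnt L ((b : ℤ) - s, v))).comp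
        (Polynomial.C (MvPolynomial.C ((t ^ s)⁻¹)) * Polynomial.X) := by
  unfold fac
  apply scale
  intro v _
  unfold poch
  apply scale
  intro j _
  have e : t ^ ((b : ℤ) - (s : ℤ)) = (t ^ s)⁻¹ * t ^ b := by
    rw [zpow_sub₀ ht, zpow_natCast, zpow_natCast, div_eq_mul_inv, mul_comm]
  rw [e]
  simp only [Polynomial.add_comp, Polynomial.mul_comp, Polynomial.one_comp, Polynomial.C_comp,
    Polynomial.X_comp, map_mul]
  ring

theorem coeff_scale (q t : K) (ht : t ≠ 0) (N : ℕ) (L : List Car) (s R k : ℕ) :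
    (∏ b ∈ range R, fac q t N L ((b : ℤ) - s)).coeff k =
      MvPolynomial.C ((t ^ (k * s))⁻¹) *
        (∏ b ∈ range R, ∏ v ∈ range N, poch q t N b v (cnt L ((b : ℤ) - s, v))).coeff k := by
  rw [scale (range R) (fun b => ∏ v ∈ range N, poch q t N b v (cnt L ((b : ℤ) - s, v)))
    (fun b => fac q t N L ((b : ℤ) - s)) (MvPolynomial.C ((t ^ s)⁻¹))
    (fun b _ => fac_scale q t ht N L s b), Polynomial.comp_C_mul_X_coeff, ← map_pow, mul_comm]
  congr 2
  rw [inv_pow, ← pow_mul, mul_comm]

theorem main (q t : K) : StCF q t := by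
  intro ht N B m k L hm hL hB
  have hb : bot L ≤ m := bot_le m L (fun c hc => (hL c hc).1)
  have hg := bot_ge L
  constructor
  · rw [EE_eq, reindex (fac q t N L) (bot L) (bot L) B (2 * L.length + 2) m le_rfl hB (by omega)
      (fun a h1 h2 => by omega)
      (fun a ha => fac_one q t N L a (fun c hc => by
        have := hL c hc
        constructor <;> omega)), coeff_scale q t ht, A0]
  · intro i hi
    rw [EE_eq, reindex (fac q t N L) (bot L + 1) i B (2 * L.length + 3) m hi hB (by omega)
      (fun a h1 h2 => fac_one q t N L a (fun c hc => by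
        have := hg c hc
        push_cast at h2
        constructor <;> omega))
      (fun a ha => fac_one q t N L a (fun c hc => by
        have := hL c hc
        constructor <;> omega)), coeff_scale q t ht, A1]
    have e : ∀ b : ℕ, (b : ℤ) - ((bot L + 1 : ℕ) : ℤ) = (b : ℤ) - 1 - (bot L : ℤ) := by
      intro b
      push_cast
      ring
    simp only [e]

end Pool.VD.M_CF
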