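import Pool.Agent.VD.ColSt

/-!
# MP_cf06d4_co, group V, module CG: weight of an undecorated word
-/

set_option autoImplicit false

namespace Pool.VD.M_CG

open Pool.VD

set_option linter.unusedSectionVars false

variable {K : Type} [Field K] [CharZero K]

theorem sum_cnt (u : Car) (h L : List Car) :
    (L.map (cnt (u :: h))).sum = (L.map (cnt h)).sum + L.countP (fun d => decide (att u d)) := by
  induction L with
  | nil => simp
  | cons c L ih =>
    rw [List.map_cons, List.sum_cons, ih, List.map_cons, List.sum_cons, List.countP_cons]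
    have : cnt (u :: h) c = cnt h c + if decide (att u c) = true then 1 else 0 := by
      unfold cnt
      rw [List.countP_cons]
    rw [this]
    ring

theorem gen (q t : K) (ht : t ≠ 0) (N : ℕ) (L : List Car) : ∀ h : List Car,
    wtP (phU q t N) h L =
      MvPolynomial.C (t ^ ((L.map (fun c => c.1)).sum) *
        q ^ (inv L + (L.map (cnt h)).sum + L.countP (fun c => decide (c.1 < 0)))) *
      (L.map (fun c => yv K N c.2)).prod := by
  induction L with
  | nil => intro h; simp [wtP, inv]
  | cons u L ih =>
    intro h
    rw [wtP, ih (u :: h), sum_cnt, phU, inv, List.map_cons, List.sum_cons, List.map_cons,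
      List.sum_cons, List.map_cons, List.prod_cons, List.countP_cons]
    have e1 : t ^ (u.1 + (L.map (fun c => c.1)).sum) =
        t ^ u.1 * t ^ ((L.map (fun c => c.1)).sum) := zpow_add₀ ht _ _
    rw [e1]
    have e2 : (if decide (u.1 < 0) = true then 1 else 0 : ℕ) = if u.1 < 0 then 1 else 0 := by
      simp
    rw [e2]
    simp only [map_mul, map_pow]
    ring

theorem bot_le (L : List Car) : ∀ c ∈ L, 0 ≤ c.1 + (bot L : ℤ) := by
  induction L with
  | nil => intro c hc; simp at hc
  | cons u L ih =>
    intro c hc
    have hb : bot (u :: L) = max (-u.1).toNat (bot L) := rfl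
    rw [hb]
    rcases List.mem_cons.1 hc with h | h
    · subst h
      have := le_max_left (-c.1).toNat (bot L)
      omega
    · have h1 := ih c h
      have := le_max_right (-u.1).toNat (bot L)
      omega

theorem sum_toNat (b : ℕ) (L : List Car) (hL : ∀ c ∈ L, 0 ≤ c.1 + (b : ℤ)) :
    (((L.map (fun c => (c.1 + (b : ℤ)).toNat)).sum : ℕ) : ℤ) =
      (L.map (fun c => c.1)).sum + (L.length * b : ℕ) := by
  induction L with
  | nil => simp
  | cons u L ih =>
    rw [List.map_cons, List.sum_cons, List.map_cons, List.sum_cons, List.length_cons]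
    rw [Nat.cast_add, ih (fun c hc => hL c (List.mem_cons_of_mem _ hc))]
    have h1 : 0 ≤ u.1 + (b : ℤ) := hL u List.mem_cons_self
    rw [Int.toNat_of_nonneg h1]
    push_cast
    ring

theorem main (q t : K) : StCG q t := by
  intro ht N L
  rw [gen q t ht N L [], wU]
  have h0 : (L.map (cnt [])).sum = 0 := by
    have : (L.map (cnt [])) = L.map (fun _ => 0) := by
      apply List.map_congr_left
      intro a _
      simp [cnt]
    rw [this]
    simp
  rw [h0, add_zero, ← mul_assoc, ← MvPolynomial.C_mul, ← mul_assoc]
  have e : t ^ (L.length * bot L) * t ^ ((L.map (fun c => c.1)).sum) =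
      t ^ ((L.map (fun c => (c.1 + (bot L : ℤ)).toNat)).sum) := by
    rw [← zpow_natCast t (L.length * bot L), ← zpow_add₀ ht, ← zpow_natCast t, sum_toNat (bot L) L (bot_le L),
      add_comm]
  rw [e]

end Pool.VD.M_CG
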