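import Pool.Agent.VD.ColSt

/-!
# MP_cf06d4_co, group V, module CZ: `F_(n,k) = 0` for `k ≥ n ≥ 1`
-/

set_option autoImplicit false

namespace Pool.VD.M_CZ

open Pool.VD Finset

private theorem lev_neg {n N : ℕ} (x : Fin n → Fin n) (w : Fin n → Fin N) (h : ∀ i, CV x w i) :
    ∀ (m : ℕ) (hm : m < n), lev x ⟨m, hm⟩ < 0 := by
  intro m
  induction m with
  | zero =>
    intro hm
    rcases h ⟨0, hm⟩ with ⟨-, h1⟩ | ⟨j, h1, -⟩
    · exact h1
    · simp at h1
  | succ m ih =>
    intro hm
    rcases h ⟨m + 1, hm⟩ with ⟨h1, -⟩ | ⟨j, h1, h2⟩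
    · simp at h1
    · have hj : j = ⟨m, by omega⟩ := by
        apply Fin.ext
        simp only at h1 ⊢
        omega
      rw [hj] at h2
      have h3 := ih (by omega)
      rcases h2 with h2 | ⟨h2, -⟩ <;> omega

theorem main {K : Type} [Field K] [CharZero K] (q t : K) : StCZ q t := by
  intro n k N hn hk
  unfold FF
  apply sum_eq_zero
  rintro ⟨x, w, D⟩ hP
  exfalso
  simp only [VP, mem_filter, mem_univ, true_and] at hP
  obtain ⟨-, -, hD, hc⟩ := hP
  have h1 : D.card ≤ n := by
    have := card_le_univ D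
    simpa using this
  have h2 : D = univ := by
    apply (card_eq_iff_eq_univ D).1
    rw [Fintype.card_fin]
    omega
  have h3 : ∀ i, CV x w i := fun i => hD i (by rw [h2]; exact mem_univ i)
  have h4 := lev_neg x w h3 (n - 1) (by omega)
  have h5 : ((x ⟨n - 1, by omega⟩ : Fin n) : ℕ) < n := Fin.is_lt _
  unfold lev at h4
  simp only at h4
  omega

end Pool.VD.M_CZ
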