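import Pool.Agent.VD.M_COL
import Pool.Agent.VD.M_CA
import Pool.Agent.VD.M_CB
import Pool.Agent.VD.M_CD
import Pool.Agent.VD.M_CE
import Pool.Agent.VD.M_CF
import Pool.Agent.VD.M_CG
import Pool.Agent.VD.M_CZ

/-!
# MP_cf06d4_co, group V: the collapse lemma (helper13 and helpers 5, 15, 29, 60, 65, 89)
-/

set_option autoImplicit false

namespace Pool.VD

variable {K : Type} [Field K] [CharZero K]

/-- COLLAPSE LEMMA for square paths -/
theorem col (q t : K) (hq : q ≠ 0) (ht : t ≠ 0) : StCol q t :=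
  M_COL.main q t hq ht M_CA.main M_CB.main (M_CD.main q t) M_CE.main (M_CF.main q t) (M_CG.main q t)

/-- `F_(n,k) = 0` for `k ≥ n ≥ 1` -/
theorem col0 (q t : K) : StCol0 q t := M_CZ.main q t

end Pool.VD
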