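import Pool.Agent.VD.StS

/-!
# MP_cf06d4_co, group V, block S, module SFDY: the square sum as a sum over Dyck words
-/

set_option autoImplicit false

namespace Pool.VD.M_SFDY

open Pool.VD MvPolynomial Finset

/-- number of cars of `M` attacking `c` -/
def cM (M : Multiset Car) (c : Car) : ℕ := M.countP (fun d => att d c)

theorem cM_shc (L : List Car) (l : ℤ) (v : ℕ) : cM (shc L) (l, v) = cnt L (l - bot L, v) := by
  unfold cM shc cnt
  rw [Multiset.coe_countP, List.countP_map]
  apply List.countP_congr
  intro d _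
  simp only [Function.comp_apply, decide_eq_true_eq, att]
  constructor
  · rintro (⟨h1, h2⟩ | ⟨h1, h2⟩)
    · left; exact ⟨by omega, h2⟩
    · right; exact ⟨by omega, h2⟩
  · rintro (⟨h1, h2⟩ | ⟨h1, h2⟩)
    · left; exact ⟨by omega, h2⟩
    · right; exact ⟨by omega, h2⟩

theorem card_shc (L : List Car) : (shc L).card = L.length := by
  simp [shc]

variable {K : Type} [Field K]

noncomputable def B0 (q t : K) (N : ℕ) (M : Multiset Car) : Polynomial (MvPolynomial (Fin N) K) :=
  ∏ b ∈ range (2 * M.card + 2), ∏ v ∈ range N, poch q t N b v (cM M ((b : ℤ), v))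

noncomputable def B1 (q t : K) (N : ℕ) (M : Multiset Car) : Polynomial (MvPolynomial (Fin N) K) :=
  ∏ b ∈ range (2 * M.card + 3), ∏ v ∈ range N, poch q t N b v (cM M ((b : ℤ) - 1, v))

theorem A0_eq (q t : K) (N : ℕ) (L : List Car) : A0 q t N L = B0 q t N (shc L) := by
  unfold A0 B0
  rw [card_shc]
  apply prod_congr rfl
  intro b _
  apply prod_congr rfl
  intro v _
  rw [cM_shc]

theorem A1_eq (q t : K) (N : ℕ) (L : List Car) : A1 q t N L = B1 q t N (shc L) := by
  unfold A1 B1
  rw [card_shc]
  apply prod_congr rfl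
  intro b _
  apply prod_congr rfl
  intro v _
  rw [cM_shc]

/-- the function of the shifted content -/
noncomputable def Phi (q t : K) (m k N : ℕ) (M : Multiset Car) : MvPolynomial (Fin N) K :=
  C (t ^ (M.map (fun c => c.1.toNat)).sum) * (M.map (fun c => yv K N c.2)).prod *
    ((B0 q t N M).coeff k + C (t ^ m) * ((B1 q t N M).coeff k - C (t ^ k) * (B0 q t N M).coeff k))

theorem summand (q t : K) (m k N : ℕ) (L : List Car) :
    wU q t N L * ((A0 q t N L).coeff k +
      C (t ^ m) * ((A1 q t N L).coeff k - C (t ^ k) * (A0 q t N L).coeff k)) =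
    (q ^ (inv L + L.countP (fun c => decide (c.1 < 0)))) • Phi q t m k N (shc L) := by
  rw [A0_eq, A1_eq]
  unfold wU Phi
  have h1 : (((shc L).map (fun c => c.1.toNat)).sum) =
      (L.map (fun c => (c.1 + (bot L : ℤ)).toNat)).sum := by
    unfold shc
    rw [Multiset.map_coe, Multiset.sum_coe, List.map_map]
    rfl
  have h2 : (((shc L).map (fun c => yv K N c.2)).prod) = (L.map (fun c => yv K N c.2)).prod := by
    unfold shc
    rw [Multiset.map_coe, Multiset.prod_coe, List.map_map]
    rfl
  rw [h1, h2, MvPolynomial.smul_eq_C_mul, map_mul]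
  ring

theorem bot_zero (L : List Car) (h : ∀ c ∈ L, 0 ≤ c.1) : bot L = 0 := by
  unfold bot
  induction L with
  | nil => simp
  | cons c L ih =>
    rw [List.map_cons, List.foldr_cons, ih (fun d hd => h d (List.mem_cons_of_mem _ hd))]
    have := h c List.mem_cons_self
    simp only [Nat.max_zero]
    omega

theorem shc_dyck (L : List Car) (h : ∀ c ∈ L, 0 ≤ c.1) : shc L = (L : Multiset Car) := by
  unfold shc
  rw [bot_zero L h]
  simp

theorem neg_zero (L : List Car) (h : ∀ c ∈ L, 0 ≤ c.1) : L.countP (fun c => decide (c.1 < 0)) = 0 := by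
  rw [List.countP_eq_zero]
  intro c hc
  have := h c hc
  simp only [decide_eq_true_eq]
  omega

variable [CharZero K]

theorem pFDy (q t : K) (hSD : StSD q) (hCol : StCol q t) : StFDy q t := by
  intro m k N hm
  rw [hCol m k N hm]
  have h1 := hSD (MvPolynomial (Fin N) K) m N hm (Phi q t m k N)
  rw [sum_congr rfl (fun L _ => summand q t m k N L), h1]
  apply sum_congr rfl
  intro L hL
  unfold DyW at hL
  rw [mem_filter] at hL
  have h2 := hL.2
  rw [summand, shc_dyck L h2, neg_zero L h2, add_zero, mul_smul]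
  rw [MvPolynomial.smul_eq_C_mul]

end Pool.VD.M_SFDY
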