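import Pool.Agent.VD.StS

/-!
# MP_cf06d4_co, group V, block S, module SRAT: ratio of the sums over shifted contents
-/

set_option autoImplicit false

namespace Pool.VD.M_SRAT

open Pool.VD Finset

theorem countP_sum (M : Multiset Car) (l : ℤ) (S : Finset ℕ) :
    M.countP (fun u => u.1 = l ∧ u.2 ∈ S) = ∑ i ∈ S, M.count (l, i) := by
  induction M using Multiset.induction_on with
  | empty => simp
  | cons x M ih =>
    rw [Multiset.countP_cons, ih]
    simp only [Multiset.count_cons, sum_add_distrib]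
    congr 1
    obtain ⟨a, c⟩ := x
    simp only [Prod.mk.injEq]
    by_cases ha : a = l
    · subst ha
      simp
    · have ha' : ¬ l = a := fun h => ha h.symm
      simp [ha, ha']

theorem countP_congr' (M : Multiset Car) (p p' : Car → Prop) [DecidablePred p] [DecidablePred p']
    (h : ∀ x ∈ M, (p x ↔ p' x)) : M.countP p = M.countP p' :=
  Multiset.countP_congr rfl (fun x hx => propext (h x hx))

theorem nU_sum (M : Multiset Car) (N : ℕ) (hM : ∀ u ∈ M, u.2 < N) (l : ℤ) (c : ℕ) :
    nU M l c = ∑ i ∈ (range N).filter (fun i => c < i), M.count (l, i) := by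
  rw [← countP_sum]
  unfold nU
  apply countP_congr'
  intro u hu
  have := hM u hu
  simp only [mem_filter, mem_range]
  tauto

theorem nD_sum (M : Multiset Car) (N : ℕ) (hM : ∀ u ∈ M, u.2 < N) (l : ℤ) (c : ℕ) :
    nD M l c = ∑ i ∈ range c, M.count (l, i) := by
  rw [← countP_sum]
  unfold nD
  apply countP_congr'
  intro u hu
  simp only [mem_range]

theorem lev_sum (M : Multiset Car) (N : ℕ) (hM : ∀ u ∈ M, u.2 < N) (l : ℤ) :
    M.countP (fun u => u.1 = l) = ∑ i ∈ range N, M.count (l, i) := by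
  rw [← countP_sum]
  apply countP_congr'
  intro u hu
  have := hM u hu
  simp only [mem_range]
  tauto

theorem sft_inj (s : ℤ) : Function.Injective (fun u : Car => ((u.1 - s, u.2) : Car)) := by
  rintro ⟨a, b⟩ ⟨c, d⟩ h
  simp only [Prod.mk.injEq] at h
  ext <;> simp <;> omega

theorem count_sft (M : Multiset Car) (s l : ℤ) (c : ℕ) : (sft s M).count (l - s, c) = M.count (l, c) := by
  unfold sft
  exact Multiset.count_map_eq_count' _ _ (sft_inj s) ((l, c) : Car)

theorem nU_sft (M : Multiset Car) (s l : ℤ) (c : ℕ) : nU (sft s M) (l - s) c = nU M l c := by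
  unfold nU sft
  rw [Multiset.countP_map, Multiset.countP_eq_card_filter]
  congr 1
  apply Multiset.filter_congr
  intro u _
  constructor
  · rintro ⟨h1, h2⟩; exact ⟨by omega, h2⟩
  · rintro ⟨h1, h2⟩; exact ⟨by omega, h2⟩

theorem nD_sft (M : Multiset Car) (s l : ℤ) (c : ℕ) : nD (sft s M) (l - s) c = nD M l c := by
  unfold nD sft
  rw [Multiset.countP_map, Multiset.countP_eq_card_filter]
  congr 1
  apply Multiset.filter_congr
  intro u _
  constructor
  · rintro ⟨h1, h2⟩; exact ⟨by omega, h2⟩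
  · rintro ⟨h1, h2⟩; exact ⟨by omega, h2⟩

theorem hb_zero {R : Type} [CommRing R] (q : R) (N : ℕ) : hb q N 0 = 1 := by
  cases N <;> simp [hb]

variable {K : Type} [Field K]

/-- the factor of the level `l`, base level `s` -/
def F (q : K) (N : ℕ) (M : Multiset Car) (s l : ℕ) : K :=
  ∏ c ∈ range N, hb q (if l = s then 1 + nU M (l : ℤ) c
    else if s < l then nU M (l : ℤ) c + nD M ((l : ℤ) - 1) c
    else nD M (l : ℤ) c + nU M ((l : ℤ) + 1) c) (M.count ((l : ℤ), c))

theorem fac_sft (q : K) (M : Multiset Car) (s l c : ℕ) :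
    fac q 0 (sft (s : ℤ) M) ((l : ℤ) - s, c) = hb q (if l = s then 1 + nU M (l : ℤ) c
    else if s < l then nU M (l : ℤ) c + nD M ((l : ℤ) - 1) c
    else nD M (l : ℤ) c + nU M ((l : ℤ) + 1) c) (M.count ((l : ℤ), c)) := by
  unfold fac
  simp only
  rw [count_sft]
  congr 1
  by_cases h1 : l = s
  · subst h1
    rw [if_pos (by omega), if_pos rfl]
    congr 1
    have := nU_sft M (l : ℤ) (l : ℤ) c
    rw [sub_self] at this
    exact this
  · rw [if_neg (by omega), if_neg h1]
    by_cases h2 : s < l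
    · rw [if_pos (by omega), if_pos h2, nU_sft]
      congr 1
      have := nD_sft M (s : ℤ) ((l : ℤ) - 1) c
      rw [← this]
      congr 1
      ring
    · rw [if_neg (by omega), if_neg h2, nD_sft]
      congr 1
      have := nU_sft M (s : ℤ) ((l : ℤ) + 1) c
      rw [← this]
      congr 1
      ring

variable [CharZero K]

theorem Tw_eq (q : K) (hProd : StProd q) (N H : ℕ) (M : Multiset Car)
    (hM : ∀ u ∈ M, u.2 < N ∧ 0 ≤ u.1 ∧ u.1 ≤ (H : ℤ)) (s : ℕ) :
    Tw q (0, N) (sft (s : ℤ) M) = ∏ l ∈ range (H + 1), F q N M s l := by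
  have hM' : ∀ u ∈ sft (s : ℤ) M, u.2 < N := by
    intro u hu
    unfold sft at hu
    rw [Multiset.mem_map] at hu
    obtain ⟨v, hv, rfl⟩ := hu
    exact (hM v hv).1
  rw [hProd N _ hM']
  have h1 : ∏ l ∈ range (H + 1), F q N M s l =
      ∏ p ∈ range (H + 1) ×ˢ range N, fac q 0 (sft (s : ℤ) M) (((p.1 : ℤ) - s, p.2) : Car) := by
    rw [prod_product]
    apply prod_congr rfl
    intro l _
    unfold F
    apply prod_congr rfl
    intro c _
    rw [fac_sft]
  rw [h1]
  have hinj : Set.InjOn (fun p : ℕ × ℕ => (((p.1 : ℤ) - s, p.2) : Car))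
      ((range (H + 1) ×ˢ range N : Finset (ℕ × ℕ)) : Set (ℕ × ℕ)) := by
    rintro ⟨a, b⟩ _ ⟨c, d⟩ _ h
    simp only [Prod.mk.injEq] at h
    ext <;> simp <;> omega
  rw [← prod_image (f := fun X : Car => fac q 0 (sft (s : ℤ) M) X) hinj]
  apply prod_subset
  · intro X hX
    rw [Multiset.mem_toFinset] at hX
    unfold sft at hX
    rw [Multiset.mem_map] at hX
    obtain ⟨v, hv, rfl⟩ := hX
    obtain ⟨h2, h3, h4⟩ := hM v hv
    rw [mem_image]
    refine ⟨(v.1.toNat, v.2), ?_, ?_⟩
    · rw [mem_product, mem_range, mem_range]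
      constructor
      · simp only; omega
      · exact h2
    · simp only [Prod.mk.injEq, and_true]
      omega
  · intro X _ hX
    rw [Multiset.mem_toFinset] at hX
    unfold fac
    rw [Multiset.count_eq_zero_of_notMem hX, hb_zero]

theorem step (q : K) (hProd : StProd q) (hTel : StTel q) (N H : ℕ) (M : Multiset Car)
    (hM : ∀ u ∈ M, u.2 < N ∧ 0 ≤ u.1 ∧ u.1 ≤ (H : ℤ))
    (hne : ∀ l : ℕ, l ≤ H → 1 ≤ M.countP (fun u => u.1 = (l : ℤ))) (s : ℕ) (hs : s + 1 ≤ H) :
    qn q (M.countP (fun u => u.1 = (s : ℤ))) * Tw q (0, N) (sft ((s + 1 : ℕ) : ℤ) M) =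
      qn q (M.countP (fun u => u.1 = ((s + 1 : ℕ) : ℤ))) * Tw q (0, N) (sft (s : ℤ) M) := by
  rw [Tw_eq q hProd N H M hM, Tw_eq q hProd N H M hM]
  have hN : ∀ u ∈ M, u.2 < N := fun u hu => (hM u hu).1
  have hs1 : s ∈ range (H + 1) := by rw [mem_range]; omega
  have hs2 : s + 1 ∈ (range (H + 1)).erase s := by rw [mem_erase, mem_range]; omega
  rw [← mul_prod_erase (range (H + 1)) (fun l => F q N M (s + 1) l) hs1,
    ← mul_prod_erase ((range (H + 1)).erase s) (fun l => F q N M (s + 1) l) hs2,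
    ← mul_prod_erase (range (H + 1)) (fun l => F q N M s l) hs1,
    ← mul_prod_erase ((range (H + 1)).erase s) (fun l => F q N M s l) hs2]
  have hrest : ∏ l ∈ ((range (H + 1)).erase s).erase (s + 1), F q N M (s + 1) l =
      ∏ l ∈ ((range (H + 1)).erase s).erase (s + 1), F q N M s l := by
    apply prod_congr rfl
    intro l hl
    rw [mem_erase, mem_erase] at hl
    unfold F
    apply prod_congr rfl
    intro c _
    rw [if_neg hl.1, if_neg hl.2.1]
    by_cases h : s < l
    · rw [if_pos (by omega), if_pos h]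
    · rw [if_neg (by omega), if_neg h]
  rw [hrest]
  have hT := hTel N (fun c => M.count ((s : ℤ), c)) (fun c => M.count (((s + 1 : ℕ) : ℤ), c))
    (by rw [← lev_sum M N hN]; exact hne s (by omega))
    (by rw [← lev_sum M N hN]; exact hne (s + 1) (by omega))
  rw [← lev_sum M N hN, ← lev_sum M N hN] at hT
  have e1 : F q N M (s + 1) s = ∏ c ∈ range N, hb q (∑ i ∈ range c, M.count ((s : ℤ), i) +
      ∑ i ∈ (range N).filter (fun i => c < i), M.count (((s + 1 : ℕ) : ℤ), i)) (M.count ((s : ℤ), c)) := by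
    unfold F
    apply prod_congr rfl
    intro c _
    rw [if_neg (by omega), if_neg (by omega), nD_sum M N hN, nU_sum M N hN]
    push_cast
    rfl
  have e2 : F q N M (s + 1) (s + 1) = ∏ c ∈ range N, hb q (1 +
      ∑ i ∈ (range N).filter (fun i => c < i), M.count (((s + 1 : ℕ) : ℤ), i))
      (M.count (((s + 1 : ℕ) : ℤ), c)) := by
    unfold F
    apply prod_congr rfl
    intro c _
    rw [if_pos rfl, nU_sum M N hN]
  have e3 : F q N M s s = ∏ c ∈ range N, hb q (1 +
      ∑ i ∈ (range N).filter (fun i => c < i), M.count ((s : ℤ), i)) (M.count ((s : ℤ), c)) := by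
    unfold F
    apply prod_congr rfl
    intro c _
    rw [if_pos rfl, nU_sum M N hN]
  have e4 : F q N M s (s + 1) = ∏ c ∈ range N, hb q (∑ i ∈ range c, M.count ((s : ℤ), i) +
      ∑ i ∈ (range N).filter (fun i => c < i), M.count (((s + 1 : ℕ) : ℤ), i))
      (M.count (((s + 1 : ℕ) : ℤ), c)) := by
    unfold F
    apply prod_congr rfl
    intro c _
    rw [if_neg (by omega), if_pos (by omega), nD_sum M N hN, nU_sum M N hN, add_comm]
    congr 2
    apply sum_congr rfl
    intro i _
    congr 2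
    push_cast
    ring
  rw [e1, e2, e3, e4]
  linear_combination (∏ l ∈ ((range (H + 1)).erase s).erase (s + 1), F q N M s l) * hT

theorem pRat (q : K) (hq : ∀ j, 1 ≤ j → qn q j ≠ 0) (hProd : StProd q) (hTel : StTel q) : StRat q := by
  intro N H M hM hne s
  induction s with
  | zero =>
    intro _
    have h1 : sft ((0 : ℕ) : ℤ) M = M := by
      unfold sft
      simp
    rw [h1]
    simp
  | succ s ih =>
    intro hs
    have h1 := ih (by omega)
    have h2 := step q hProd hTel N H M hM hne s hs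
    have h3 := hq _ (hne s (by omega))
    apply mul_left_cancel₀ h3
    linear_combination qn q (M.countP (fun u => u.1 = 0)) * h2 +
      qn q (M.countP (fun u => u.1 = ((s + 1 : ℕ) : ℤ))) * h1

end Pool.VD.M_SRAT
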