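import Pool.Agent.VD.StS

/-!
# MP_cf06d4_co, group V, block S, module STEL: arithmetic of `hb`, the telescoping identity
-/

set_option autoImplicit false

namespace Pool.VD.M_STEL

open Pool.VD Finset

section ring

variable {R : Type} [CommRing R]

theorem hb_zero (q : R) (N : ℕ) : hb q N 0 = 1 := by
  cases N <;> simp [hb]

theorem hb_zero_succ (q : R) (b : ℕ) : hb q 0 (b + 1) = 0 := by
  simp [hb]

theorem hb_succ (q : R) (N b : ℕ) :
    hb q (N + 1) (b + 1) = hb q N (b + 1) + q ^ N * hb q (N + 1) b := by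
  rw [hb]

theorem hb_one (q : R) (N : ℕ) : hb q N 1 + q ^ N = 1 + q * hb q N 1 := by
  induction N with
  | zero => simp [hb_zero_succ q 0]
  | succ N ih =>
    rw [hb_succ q N 0, hb_zero]
    linear_combination ih

theorem hb_rec2 (q : R) (N : ℕ) : ∀ b : ℕ,
    hb q (N + 1) (b + 1) = hb q (N + 1) b + q ^ (b + 1) * hb q N (b + 1) := by
  induction N with
  | zero =>
    intro b
    rw [hb_succ, hb_zero_succ]
    simp
  | succ N ihN =>
    intro b
    induction b with
    | zero =>
      rw [hb_succ, hb_zero]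
      have := hb_one q (N + 1)
      linear_combination this
    | succ b ihb =>
      rw [hb_succ q (N + 1) (b + 1)]
      have h1 := ihN (b + 1)
      have h3 := hb_succ q (N + 1) b
      have h4 := hb_succ q N (b + 1)
      linear_combination h1 - h3 + q ^ (N + 1) * ihb - q ^ (b + 2) * h4

/-- `[n]` -/
def br (q : R) (n : ℕ) : R := ∑ i ∈ range n, q ^ i

theorem br_add (q : R) (N m : ℕ) : br q (N + m) = br q N + q ^ N * br q m := by
  unfold br
  rw [sum_range_add, mul_sum]
  simp only [pow_add]

/-- `∏_(j < a) [N + j]` -/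
def Pq (q : R) (N a : ℕ) : R := ∏ j ∈ range a, br q (N + j)

theorem hb_closed (q : R) (N : ℕ) : ∀ b : ℕ, hb q N b * Pq q 1 b = Pq q N b := by
  induction N with
  | zero =>
    intro b
    cases b with
    | zero => simp [hb_zero, Pq]
    | succ b =>
      rw [hb_zero_succ, zero_mul]
      unfold Pq
      rw [prod_range_succ']
      simp [br]
  | succ N ihN =>
    intro b
    induction b with
    | zero => simp [hb_zero, Pq]
    | succ b ihb =>
      have h1 := ihN (b + 1)
      have e1 : Pq q N (b + 1) = Pq q (N + 1) b * br q N := by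
        unfold Pq
        rw [prod_range_succ', add_zero]
        congr 1
        apply prod_congr rfl
        intro j _
        congr 1
        ring
      have e2 : Pq q (N + 1) (b + 1) = Pq q (N + 1) b * br q (N + (b + 1)) := by
        unfold Pq
        rw [prod_range_succ]
        congr 2
        ring
      have e3 : Pq q 1 (b + 1) = Pq q 1 b * br q (b + 1) := by
        unfold Pq
        rw [prod_range_succ]
        congr 2
        ring
      rw [hb_succ, e2, br_add]
      rw [e1] at h1
      rw [e3] at h1 ⊢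
      linear_combination h1 + q ^ N * br q (b + 1) * ihb

theorem hb_map {S : Type} [CommRing S] (φ : R →+* S) (q : R) (N : ℕ) :
    ∀ b : ℕ, φ (hb q N b) = hb (φ q) N b := by
  induction N with
  | zero =>
    intro b
    cases b with
    | zero => simp [hb_zero]
    | succ b => simp [hb_zero_succ]
  | succ N ihN =>
    intro b
    induction b with
    | zero => simp [hb_zero]
    | succ b ihb => rw [hb_succ, hb_succ, map_add, map_mul, map_pow, ihN, ihb]

/-- `∏_(k ≤ j < Z) [j]` -/
def Gq' (q : R) (Z k : ℕ) : R := ∏ j ∈ Ico k Z, br q j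

theorem Pq_Gq (q : R) (N a Z : ℕ) (h : N + a ≤ Z) : Pq q N a * Gq' q Z (N + a) = Gq' q Z N := by
  unfold Pq Gq'
  have h1 : ∏ j ∈ range a, br q (N + j) = ∏ j ∈ Ico N (N + a), br q j := by
    rw [prod_Ico_eq_prod_range]
    simp
  rw [h1]
  exact prod_Ico_consecutive _ (by omega) h

theorem Pq_add (q : R) (a b : ℕ) : Pq q 1 a * Pq q (1 + a) b = Pq q 1 (a + b) := by
  unfold Pq
  rw [prod_range_add]
  congr 1
  apply prod_congr rfl
  intro j _
  congr 1
  ring

theorem filt_succ (n c : ℕ) (b : ℕ → ℕ) (hc : c < n) :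
    ∑ i ∈ (range n).filter (fun i => c ≤ i), b i = ∑ i ∈ (range n).filter (fun i => c < i), b i + b c := by
  have h1 : (range n).filter (fun i => c ≤ i) = insert c ((range n).filter (fun i => c < i)) := by
    ext i
    simp only [mem_filter, mem_range, mem_insert]
    omega
  rw [h1, sum_insert (by simp)]
  ring

theorem filt_succ' (n c : ℕ) (b : ℕ → ℕ) :
    ∑ i ∈ (range n).filter (fun i => c + 1 ≤ i), b i = ∑ i ∈ (range n).filter (fun i => c < i), b i := rfl

/-- `word(b) ∏ [b_c]! = [B]!` -/
theorem word_closed (q : R) (n : ℕ) (b : ℕ → ℕ) :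
    (∏ c ∈ range n, hb q (1 + ∑ i ∈ (range n).filter (fun i => c < i), b i) (b c)) *
      ∏ c ∈ range n, Pq q 1 (b c) = Pq q 1 (∑ i ∈ range n, b i) := by
  rw [← prod_mul_distrib]
  have h1 : ∀ m, m ≤ n → (∏ c ∈ range m, (hb q (1 + ∑ i ∈ (range n).filter (fun i => c < i), b i) (b c) *
      Pq q 1 (b c))) * Pq q 1 (∑ i ∈ (range n).filter (fun i => m ≤ i), b i) =
      Pq q 1 (∑ i ∈ range n, b i) := by
    intro m
    induction m with
    | zero => intro _; simp
    | succ m ih =>
      intro hm
      rw [prod_range_succ, ← ih (by omega), hb_closed, filt_succ' n m b, filt_succ n m b (by omega),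
        ← Pq_add]
      ring
  have h2 := h1 n le_rfl
  have h3 : (range n).filter (fun i => n ≤ i) = ∅ := by
    ext i
    simp only [mem_filter, mem_range, notMem_empty, iff_false]
    omega
  rw [h3] at h2
  simpa [Pq] using h2

theorem tel (q : R) (n Z : ℕ) (a b : ℕ → ℕ) (hZ : ∑ i ∈ range n, a i + ∑ i ∈ range n, b i < Z) :
    (∏ c ∈ range n, Pq q (∑ i ∈ range c, a i + ∑ i ∈ (range n).filter (fun i => c < i), b i) (a c)) *
      Gq' q Z (∑ i ∈ range n, a i) =
    Gq' q Z (∑ i ∈ range n, b i) *
      ∏ c ∈ range n, Pq q (∑ i ∈ range c, a i + ∑ i ∈ (range n).filter (fun i => c < i), b i) (b c) := by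
  have h1 : ∀ m, m ≤ n →
      (∏ c ∈ range m, Pq q (∑ i ∈ range c, a i + ∑ i ∈ (range n).filter (fun i => c < i), b i) (a c)) *
        Gq' q Z (∑ i ∈ range m, a i + ∑ i ∈ (range n).filter (fun i => m ≤ i), b i) =
      Gq' q Z (∑ i ∈ range n, b i) *
        ∏ c ∈ range m, Pq q (∑ i ∈ range c, a i + ∑ i ∈ (range n).filter (fun i => c < i), b i) (b c) := by
    intro m
    induction m with
    | zero => intro _; simp
    | succ m ih =>
      intro hm
      have ih' := ih (by omega)
      have hle1 : ∑ i ∈ range m, a i + a m ≤ ∑ i ∈ range n, a i := by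
        rw [← sum_range_succ]
        exact sum_le_sum_of_subset (range_subset_range.2 hm)
      have hle2 : ∑ i ∈ (range n).filter (fun i => m < i), b i + b m ≤ ∑ i ∈ range n, b i := by
        rw [← filt_succ n m b (by omega)]
        exact sum_le_sum_of_subset (filter_subset _ _)
      have hA := Pq_Gq q (∑ i ∈ range m, a i + ∑ i ∈ (range n).filter (fun i => m < i), b i) (a m) Z
        (by omega)
      have hB := Pq_Gq q (∑ i ∈ range m, a i + ∑ i ∈ (range n).filter (fun i => m < i), b i) (b m) Z
        (by omega)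
      rw [filt_succ n m b (by omega), ← add_assoc] at ih'
      have e1 : ∑ i ∈ range (m + 1), a i + ∑ i ∈ (range n).filter (fun i => m + 1 ≤ i), b i =
          ∑ i ∈ range m, a i + ∑ i ∈ (range n).filter (fun i => m < i), b i + a m := by
        rw [sum_range_succ, filt_succ' n m b]
        ring
      rw [e1, prod_range_succ, prod_range_succ, mul_assoc, hA, ← mul_assoc, ← ih', ← hB]
      ring
  have h2 := h1 n le_rfl
  have h3 : (range n).filter (fun i => n ≤ i) = ∅ := by
    ext i
    simp only [mem_filter, mem_range, notMem_empty, iff_false]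
    omega
  rw [h3] at h2
  simpa using h2

theorem fact_G (q : R) (A Z : ℕ) (h : A < Z) : Pq q 1 A * Gq' q Z A = br q A * Gq' q Z 1 := by
  have h1 : Gq' q Z A = br q A * Gq' q Z (1 + A) := by
    unfold Gq'
    rw [add_comm, ← prod_eq_prod_Ico_succ_bot h]
  rw [h1, ← Pq_Gq q 1 A Z (by omega)]
  ring

end ring

section domain

variable {R : Type} [CommRing R] [IsDomain R]

theorem tel_domain (q : R) (hq : ∀ j, br q (j + 1) ≠ 0) (n : ℕ) (a b : ℕ → ℕ) :
    br q (∑ i ∈ range n, a i) *
      (∏ c ∈ range n, hb q (1 + ∑ i ∈ (range n).filter (fun i => c < i), b i) (b c)) *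
      (∏ c ∈ range n,
        hb q (∑ i ∈ range c, a i + ∑ i ∈ (range n).filter (fun i => c < i), b i) (a c)) =
    br q (∑ i ∈ range n, b i) *
      (∏ c ∈ range n, hb q (1 + ∑ i ∈ (range n).filter (fun i => c < i), a i) (a c)) *
      (∏ c ∈ range n,
        hb q (∑ i ∈ range c, a i + ∑ i ∈ (range n).filter (fun i => c < i), b i) (b c)) := by
  have hP : ∀ a, Pq q 1 a ≠ 0 := by
    intro a
    unfold Pq
    rw [prod_ne_zero_iff]
    intro j _
    rw [add_comm]
    exact hq j
  set A := ∑ i ∈ range n, a i with hA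
  set B := ∑ i ∈ range n, b i with hB
  have hG : Gq' q (A + B + 1) 1 ≠ 0 := by
    unfold Gq'
    rw [prod_ne_zero_iff]
    intro j hj
    rw [mem_Ico] at hj
    obtain ⟨i, rfl⟩ : ∃ i, j = i + 1 := ⟨j - 1, by omega⟩
    exact hq i
  have hT := tel q n (A + B + 1) a b (by omega)
  have hFA := fact_G q A (A + B + 1) (by omega)
  have hFB := fact_G q B (A + B + 1) (by omega)
  have hWa := word_closed q n a
  have hWb := word_closed q n b
  rw [← hA] at hWa hT
  rw [← hB] at hWb hT
  have hCa : (∏ c ∈ range n,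
        hb q (∑ i ∈ range c, a i + ∑ i ∈ (range n).filter (fun i => c < i), b i) (a c)) *
        ∏ c ∈ range n, Pq q 1 (a c) =
      ∏ c ∈ range n, Pq q (∑ i ∈ range c, a i + ∑ i ∈ (range n).filter (fun i => c < i), b i) (a c) := by
    rw [← prod_mul_distrib]
    exact prod_congr rfl (fun c _ => hb_closed _ _ _)
  have hCb : (∏ c ∈ range n,
        hb q (∑ i ∈ range c, a i + ∑ i ∈ (range n).filter (fun i => c < i), b i) (b c)) *
        ∏ c ∈ range n, Pq q 1 (b c) =
      ∏ c ∈ range n, Pq q (∑ i ∈ range c, a i + ∑ i ∈ (range n).filter (fun i => c < i), b i) (b c) := by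
    rw [← prod_mul_distrib]
    exact prod_congr rfl (fun c _ => hb_closed _ _ _)
  have hPa : ∏ c ∈ range n, Pq q 1 (a c) ≠ 0 := prod_ne_zero_iff.2 (fun c _ => hP _)
  have hPb : ∏ c ∈ range n, Pq q 1 (b c) ≠ 0 := prod_ne_zero_iff.2 (fun c _ => hP _)
  generalize (∏ c ∈ range n,
        hb q (∑ i ∈ range c, a i + ∑ i ∈ (range n).filter (fun i => c < i), b i) (a c)) = x1 at *
  generalize (∏ c ∈ range n,
        hb q (∑ i ∈ range c, a i + ∑ i ∈ (range n).filter (fun i => c < i), b i) (b c)) = x2 at *
  generalize (∏ c ∈ range n, hb q (1 + ∑ i ∈ (range n).filter (fun i => c < i), b i) (b c)) = x3 at *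
  generalize (∏ c ∈ range n, hb q (1 + ∑ i ∈ (range n).filter (fun i => c < i), a i) (a c)) = x4 at *
  generalize (∏ c ∈ range n, Pq q (∑ i ∈ range c, a i + ∑ i ∈ (range n).filter (fun i => c < i), b i)
    (a c)) = y1 at *
  generalize (∏ c ∈ range n, Pq q (∑ i ∈ range c, a i + ∑ i ∈ (range n).filter (fun i => c < i), b i)
    (b c)) = y2 at *
  generalize ∏ c ∈ range n, Pq q 1 (a c) = pa at *
  generalize ∏ c ∈ range n, Pq q 1 (b c) = pb at *
  generalize Pq q 1 A = fa at *
  generalize Pq q 1 B = fb at *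
  generalize Gq' q (A + B + 1) 1 = g1 at *
  generalize Gq' q (A + B + 1) A = ga at *
  generalize Gq' q (A + B + 1) B = gb at *
  generalize br q A = ba at *
  generalize br q B = bb at *
  -- `ba x3 x1 = bb x4 x2`
  apply mul_right_cancel₀ hPa
  apply mul_right_cancel₀ hPb
  apply mul_right_cancel₀ hG
  have e1 : ba * x3 * x1 * pa * pb * g1 = ba * (x3 * pb) * (x1 * pa) * g1 := by ring
  have e2 : bb * x4 * x2 * pa * pb * g1 = bb * (x4 * pa) * (x2 * pb) * g1 := by ring
  rw [e1, e2, hWb, hWa, hCa, hCb]
  linear_combination fa * fb * hT - fb * y1 * hFA + fa * y2 * hFB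

end domain

theorem pHb : StHb := by
  intro R _ q N b
  have h1 := hb_closed q N b
  unfold Pq br at h1
  simpa only [add_comm 1] using h1

theorem pHb2 : StHb2 := fun _ _ q N b => hb_rec2 q N b

theorem pTel {K : Type} [Field K] [CharZero K] (q : K) : StTel q := by
  intro n a b _ _
  have hX : ∀ j, br (Polynomial.X : Polynomial ℤ) (j + 1) ≠ 0 := by
    intro j h
    have h1 := congrArg (Polynomial.eval 1) h
    unfold br at h1
    simp only [Polynomial.eval_finsetSum, Polynomial.eval_pow, Polynomial.eval_X, one_pow, sum_const,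
      card_range, Polynomial.eval_zero] at h1
    simp at h1
    omega
  have h1 := congrArg (Polynomial.eval₂RingHom (Int.castRingHom K) q)
    (tel_domain (Polynomial.X : Polynomial ℤ) hX n a b)
  have h2 : ∀ m, Polynomial.eval₂RingHom (Int.castRingHom K) q (br Polynomial.X m) = qn q m := by
    intro m
    simp [br, qn]
  have h3 : Polynomial.eval₂RingHom (Int.castRingHom K) q Polynomial.X = q := by simp
  simp only [map_mul, map_prod, hb_map, h2, h3] at h1
  exact h1

end Pool.VD.M_STEL
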