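import Pool.Agent.VD.M_SASM
import Pool.Agent.VD.M_STEL
import Pool.Agent.VD.M_SRAT
import Pool.Agent.VD.M_SFDY
import Pool.Agent.VD.Col

/-! # VD block S, assembled (helper54, helper15) -/

set_option autoImplicit false

namespace Pool.VD

open MvPolynomial Finset

variable {K : Type} [Field K] [CharZero K]

theorem blockSD (q : K) (hq : ∀ j : ℕ, 1 ≤ j → qn q j ≠ 0) : StSD q :=
  pSD q hq (M_SRAT.pRat q hq (pProd q) (M_STEL.pTel q))

/-- interface of block S for block C -/
theorem blockS (q t : K) (hq0 : q ≠ 0) (ht0 : t ≠ 0) (hq : ∀ j : ℕ, 1 ≤ j → qn q j ≠ 0) : StFDy q t :=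
  M_SFDY.pFDy q t (blockSD q hq) (col q t hq0 ht0)

end Pool.VD
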