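import Mathlib

/-!
# MP_cf06d4_co (valley Delta square conjecture), group V: common definitions of the algebraic side

Model: `K` a field of characteristic 0 with elements `q t` (algebraically independent over `ℚ` where needed),
`Lam K = MvPolynomial ℕ K`, where `X i` is the power sum `p_(i+1)`.  Plethysm = algebra homomorphism.
-/

set_option autoImplicit false

namespace Pool.VD

open MvPolynomial Finset

/-- `Hs a n = h_n[A]` where `a i = p_(i+1)[A]`: `(n+1) h_(n+1) = ∑_(i ≤ n) p_(i+1) h_(n-i)`, `h_0 = 1`. -/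
def Hs {R : Type} [CommRing R] [Algebra ℚ R] (a : ℕ → R) : ℕ → R
  | 0 => 1
  | n + 1 => ((n + 1 : ℚ)⁻¹) • ∑ i : Fin (n + 1), a i * Hs a (n - i)
termination_by n => n
decreasing_by omega

/-- symmetric functions, `X i = p_(i+1)` -/
abbrev Lam (K : Type) [Field K] : Type := MvPolynomial ℕ K

variable {K : Type} [Field K] [CharZero K]

/-- `h_n` -/
noncomputable def Hn (K : Type) [Field K] [CharZero K] (n : ℕ) : Lam K := Hs (fun i => (X i : Lam K)) n

/-- `(-1)^n e_n`, the coefficients of `Exp[-zX]` -/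
noncomputable def Ep (K : Type) [Field K] [CharZero K] (n : ℕ) : Lam K :=
  Hs (fun i => -(X i : Lam K)) n

/-- `e_n` -/
noncomputable def En (K : Type) [Field K] [CharZero K] (n : ℕ) : Lam K := (-1) ^ n * Ep K n

/-- `M_k = (1-q^k)(1-t^k)` -/
def Mk (q t : K) (k : ℕ) : K := (1 - q ^ k) * (1 - t ^ k)

/-- `h_n[X/M]` -/
noncomputable def Hst (q t : K) (n : ℕ) : Lam K :=
  Hs (fun i => (C (Mk q t (i + 1))⁻¹ * X i : Lam K)) n

/-- `e_n[X/M]` -/
noncomputable def Est (q t : K) (n : ℕ) : Lam K :=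
  (-1) ^ n * Hs (fun i => -(C (Mk q t (i + 1))⁻¹ * X i : Lam K)) n

/-- the translation `f ↦ f[X + A w]`, `m i = p_(i+1)[A]` -/
noncomputable def Tr (m : ℕ → K) : Lam K →ₐ[K] Polynomial (Lam K) :=
  aeval (fun i => Polynomial.C (X i : Lam K) +
    Polynomial.C (C (m i) : Lam K) * (Polynomial.X : Polynomial (Lam K)) ^ (i + 1))

/-- the `Lam K`-linear map `Lam K[w] → Lam K`, `w^j ↦ s j` -/
noncomputable def Lf (s : ℕ → Lam K) : Polynomial (Lam K) →ₗ[Lam K] Lam K :=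
  Polynomial.lsum (fun j => LinearMap.toSpanSingleton (Lam K) (Lam K) (s j))

/-- the vertex operator `f ↦ f[X + A/z] Exp[zB] |_(z^k)`, `m i = p_(i+1)[A]`, `a i = p_(i+1)[B]`:
`f ↦ ∑_j (coefficient of w^j in f[X + A w]) h_(j+k)[B]`. -/
noncomputable def Vo (m : ℕ → K) (a : ℕ → Lam K) (k : ℕ) : Lam K →ₗ[K] Lam K :=
  (Lf (fun j => Hs a (j + k))).restrictScalars K ∘ₗ (Tr m).toLinearMap

/-- `D_k f = f[X + M/z] Exp[-zX] |_(z^k)`, `k ≥ 0` -/
noncomputable def Dk (q t : K) (k : ℕ) : Lam K →ₗ[K] Lam K :=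
  Vo (fun i => Mk q t (i + 1)) (fun i => -(X i : Lam K)) k

/-- `D*_0 f = f[X - M~/z] Exp[zX] |_(z^0)`, `M~ = (1-1/q)(1-1/t)` -/
noncomputable def Ds (q t : K) : Lam K →ₗ[K] Lam K :=
  Vo (fun i => -Mk q⁻¹ t⁻¹ (i + 1)) (fun i => (X i : Lam K)) 0

/-- multiplication by `f` -/
noncomputable def mulL (f : Lam K) : Lam K →ₗ[K] Lam K := LinearMap.mulLeft K f

/-- `f` is homogeneous of degree `n` (`p_(i+1)` has degree `i+1`) -/
def IsH (n : ℕ) (f : Lam K) : Prop := IsWeightedHomogeneous (fun i : ℕ => i + 1) f n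

/-! ### partitions: `YoungDiagram`, cells `(i,j)`: row `i` (coleg), column `j` (coarm) -/

/-- `q^a' t^l'` -/
def xc (q t : K) (c : ℕ × ℕ) : K := q ^ c.2 * t ^ c.1

/-- `B_μ` -/
def Bm (q t : K) (μ : YoungDiagram) : K := ∑ c ∈ μ.cells, xc q t c

/-- `1 - M B_μ`, the eigenvalue of `D_0` -/
def cm (q t : K) (μ : YoungDiagram) : K := 1 - Mk q t 1 * Bm q t μ

/-- dominance order `μ ≤ lam` -/
def Dom (μ lam : YoungDiagram) : Prop :=
  μ.card = lam.card ∧ ∀ k : ℕ, ∑ i ∈ range k, μ.rowLen i ≤ ∑ i ∈ range k, lam.rowLen i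

/-- `h_z[A]` for an integer index -/
noncomputable def HZ (a : ℕ → Lam K) (z : ℤ) : Lam K := if 0 ≤ z then Hs a z.toNat else 0

/-- Jacobi - Trudi determinant `det h_(lam_i - i + j)[A]` (`s_lam[A]`) -/
noncomputable def JT (a : ℕ → Lam K) (lam : YoungDiagram) : Lam K :=
  Matrix.det (Matrix.of fun i j : Fin (lam.colLen 0) =>
    HZ a ((lam.rowLen (i : ℕ) : ℤ) - ((i : ℕ) : ℤ) + ((j : ℕ) : ℤ)))

/-- the Schur function `s_lam` -/
noncomputable def schur (K : Type) [Field K] [CharZero K] (lam : YoungDiagram) : Lam K :=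
  JT (fun i => (X i : Lam K)) lam

/-- the product `h_lam[A]` -/
noncomputable def hP (a : ℕ → Lam K) (lam : YoungDiagram) : Lam K :=
  ∏ i ∈ range (lam.colLen 0), Hs a (lam.rowLen i)

/-- plethystic substitution `p_(i+1) ↦ c_i p_(i+1)` -/
noncomputable def scal (c : ℕ → K) : Lam K →ₐ[K] Lam K := aeval (fun i => (C (c i) * X i : Lam K))

/-- Haiman's axioms for the modified Macdonald polynomial `H_μ`, up to a nonzero scalar:
`H[X(1-q)] ∈ span (s_lam : lam ≥ μ)`, `H[X(1-t)] ∈ span (s_lam : lam ≥ μ')`. -/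
structure IsMac (q t : K) (μ : YoungDiagram) (H : Lam K) : Prop where
  ne : H ≠ 0
  ax1 : scal (fun i => 1 - q ^ (i + 1)) H ∈
    Submodule.span K {f : Lam K | ∃ lam : YoungDiagram, Dom μ lam ∧ f = schur K lam}
  ax2 : scal (fun i => 1 - t ^ (i + 1)) H ∈
    Submodule.span K {f : Lam K | ∃ lam : YoungDiagram, Dom μ.transpose lam ∧ f = schur K lam}

/-- `e_m[B_μ]` -/
def eB (q t : K) (m : ℕ) (μ : YoungDiagram) : K := ∑ S ∈ μ.cells.powersetCard m, ∏ c ∈ S, xc q t c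

/-- `D` acts in degree `n` as `Delta_(e_m)`: `D H_μ = e_m[B_μ] H_μ` for every `μ` of size `n`. -/
def IsDelta (q t : K) (n m : ℕ) (D : Lam K →ₗ[K] Lam K) : Prop :=
  ∀ (μ : YoungDiagram) (H : Lam K), μ.card = n → IsMac q t μ H → D H = eB q t m μ • H

/-- `ω p_n`, `n ≥ 1` -/
noncomputable def omp (K : Type) [Field K] (n : ℕ) : Lam K := (-1) ^ (n - 1) * X (n - 1)

/-- `[n]_q` -/
def qn (q : K) (n : ℕ) : K := ∑ i ∈ range n, q ^ i

/-- the three properties which characterise the operator nabla -/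
structure IsNabla (q t : K) (N : Lam K →ₗ[K] Lam K) : Prop where
  one : N 1 = 1
  d0 : ∀ f, N (Dk q t 0 f) = Dk q t 0 (N f)
  e1 : ∀ f, N (X 0 * f) = -Dk q t 1 (N f)

end Pool.VD
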