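import Mathlib
import Pool.Agent.VD.Defs

/-!
# MP_cf06d4_co, block CM (Carlsson - Mellit operators), definitions

`Ry K = Lam K [y_0, y_1, ...]`.  `y_0` is the TOP (= last) variable of `V_k`, so `V_k` is the part in the variables
`y_0, ..., y_(k-1)`; the variables `y_j`, `j ≥ k`, are spectators, and all operators below are total.
-/

set_option autoImplicit false

namespace Pool.VD.CM

open MvPolynomial Finset

/-- `Lam[y_0, y_1, ...]` -/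
abbrev Ry (K : Type) [Field K] : Type := MvPolynomial ℕ (Lam K)

section ops
variable {K : Type} [Field K]

/-- `io F = F[X + (q-1) y_0]`, `y_j ↦ y_(j+1)`  (`D_+'` of the notes) -/
noncomputable def io (q : K) : Ry K →ₐ[K] Ry K :=
  aevalTower (aeval (fun i => C (X i) + C (C (q ^ (i + 1) - 1)) * (X 0 : Ry K) ^ (i + 1)) : Lam K →ₐ[K] Ry K)
    (fun j => (X (j + 1) : Ry K))

/-- `th F = F[X - (q-1) Y]`, `y_0 ↦ Y`, `y_(j+1) ↦ y_j`; `th (io G) = C G`, `th y_0 = Y` -/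
noncomputable def th (q : K) : Ry K →ₐ[K] Polynomial (Ry K) :=
  aevalTower (aeval (fun i => Polynomial.C (C (X i) : Ry K) -
      Polynomial.C (C (C (q ^ (i + 1) - 1)) : Ry K) * (Polynomial.X : Polynomial (Ry K)) ^ (i + 1)) :
      Lam K →ₐ[K] Polynomial (Ry K))
    (fun j => Nat.rec (Polynomial.X : Polynomial (Ry K)) (fun j _ => Polynomial.C (X j : Ry K)) j)

/-- `sg q t k F = F[X + (q-1) t y_k]`, `y_j ↦ y_j` for `j < k`, `y_j ↦ y_(j+1)` for `j ≥ k`  (`d_+^*` on `V_k`) -/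
noncomputable def sg (q t : K) (k : ℕ) : Ry K →ₐ[K] Ry K :=
  aevalTower (aeval (fun i => C (X i) + C (C ((q ^ (i + 1) - 1) * t ^ (i + 1))) * (X k : Ry K) ^ (i + 1)) :
      Lam K →ₐ[K] Ry K)
    (fun j => if j < k then (X j : Ry K) else X (j + 1))

/-- exchange of `y_j` and `y_(j+1)` -/
noncomputable def sw (K : Type) [Field K] (j : ℕ) : Ry K →ₐ[Lam K] Ry K := rename (Equiv.swap j (j + 1))

theorem dvd_sw (j : ℕ) (F : Ry K) : (X j - X (j + 1) : Ry K) ∣ F - sw K j F := by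
  induction F using MvPolynomial.induction_on with
  | C a => simp [sw]
  | add p r hp hr =>
    have : p + r - sw K j (p + r) = (p - sw K j p) + (r - sw K j r) := by rw [map_add]; ring
    rw [this]; exact dvd_add hp hr
  | mul_X p n hp =>
    have hX : (X j - X (j + 1) : Ry K) ∣ X n - sw K j (X n) := by
      rw [sw, rename_X]
      by_cases h1 : n = j
      · subst h1; rw [Equiv.swap_apply_left]
      · by_cases h2 : n = j + 1
        · subst h2; rw [Equiv.swap_apply_right]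
          exact ⟨-1, by ring⟩
        · rw [Equiv.swap_apply_of_ne_of_ne h1 h2, sub_self]; exact dvd_zero _
    have : p * X n - sw K j (p * X n) = (p - sw K j p) * X n + sw K j p * (X n - sw K j (X n)) := by
      rw [map_mul]; ring
    rw [this]
    exact dvd_add (dvd_mul_of_dvd_left hp _) (dvd_mul_of_dvd_right hX _)

/-- divided difference `(F - s_j F) / (y_j - y_(j+1))` -/
noncomputable def dd (j : ℕ) (F : Ry K) : Ry K := Classical.choose (dvd_sw j F)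

theorem dd_spec (j : ℕ) (F : Ry K) : F - sw K j F = (X j - X (j + 1) : Ry K) * dd j F :=
  Classical.choose_spec (dvd_sw j F)

theorem Xj_ne (j : ℕ) : (X j - X (j + 1) : Ry K) ≠ 0 := by
  intro h
  have h2 : (X j : Ry K) = X (j + 1) := sub_eq_zero.mp h
  have := (MvPolynomial.X_injective (σ := ℕ) (R := Lam K)) h2
  omega

theorem dd_unique (j : ℕ) (F G : Ry K) (h : F - sw K j F = (X j - X (j + 1) : Ry K) * G) : dd j F = G :=
  mul_left_cancel₀ (Xj_ne j) ((dd_spec j F).symm.trans h)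

theorem smulK (c : K) (G : Ry K) : c • G = C (C c) * G := by
  rw [← smul_eq_C_mul, ← algebraMap_eq]
  exact (algebraMap_smul (Lam K) c G).symm

/-- `T_j F = s_j F + (q-1) y_(j+1) (F - s_j F)/(y_j - y_(j+1))` -/
noncomputable def Th (q : K) (j : ℕ) : Ry K →ₗ[K] Ry K where
  toFun F := sw K j F + C (C (q - 1)) * X (j + 1) * dd j F
  map_add' F G := by
    have h : dd j (F + G) = dd j F + dd j G := by
      apply dd_unique
      rw [map_add]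
      linear_combination dd_spec j F + dd_spec j G
    rw [h, map_add]; ring
  map_smul' c F := by
    have h1 : ∀ G : Ry K, c • G = C (C c) * G := fun G => smulK c G
    have h : dd j (c • F) = c • dd j F := by
      apply dd_unique
      rw [h1, h1, map_mul, show sw K j (C (C c)) = C (C c) from AlgHom.commutes _ _]
      linear_combination (C (C c) : Ry K) * dd_spec j F
    rw [h, RingHom.id_apply, h1, h1, h1, map_mul, show sw K j (C (C c)) = C (C c) from AlgHom.commutes _ _]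
    ring

/-- `(T_j)⁻¹ = (T_j + q - 1)/q` -/
noncomputable def Thi (q : K) (j : ℕ) : Ry K →ₗ[K] Ry K := q⁻¹ • (Th q j + (q - 1) • LinearMap.id)

/-- multiplication by `y_j` -/
noncomputable def mY (K : Type) [Field K] (j : ℕ) : Ry K →ₗ[K] Ry K := LinearMap.mulLeft K (X j : Ry K)

/-- `T_(m-1) ... T_1 T_0` -/
noncomputable def TD (q : K) : ℕ → (Ry K →ₗ[K] Ry K)
  | 0 => LinearMap.id
  | m + 1 => Th q m ∘ₗ TD q m

/-- `T_0 T_1 ... T_(m-1)` -/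
noncomputable def TU (q : K) : ℕ → (Ry K →ₗ[K] Ry K)
  | 0 => LinearMap.id
  | m + 1 => TU q m ∘ₗ Th q m

/-- `d_+ : V_k → V_(k+1)`, `d_+ = T_(k-1) ... T_0 io` -/
noncomputable def dpl (q : K) (k : ℕ) : Ry K →ₗ[K] Ry K := TD q k ∘ₗ (io q).toLinearMap

end ops

/-- `ε_n[q-1]`: `1, 1-q, 1-q, ...` -/
def ka {K : Type} [Field K] (q : K) : ℕ → K
  | 0 => 1
  | _ + 1 => 1 - q

/-- `ε_n[1-q]`: `1, q-1, (q-1)q, (q-1)q^2, ...` -/
def kb {K : Type} [Field K] (q : K) : ℕ → K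
  | 0 => 1
  | n + 1 => (q - 1) * q ^ n

section ops2
variable {K : Type} [Field K] [CharZero K]

/-- `d_- F`: `th F = ∑_a G_a Y^a ↦ -∑_a ε_(a+1) G_a`, `ε_n = (-1)^n e_n`.
Characterised by `dmi (io G * F) = G * dmi F` and `dmi (y_0^a) = -ε_(a+1)`. -/
noncomputable def dmi (q : K) : Ry K →ₗ[K] Ry K :=
  ((Polynomial.lsum (fun a => LinearMap.toSpanSingleton (Ry K) (Ry K) (-C (Ep K (a + 1))))).restrictScalars K :
    Polynomial (Ry K) →ₗ[K] Ry K) ∘ₗ (th q).toLinearMap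

/-- `ζ = [d_+^*, d_-]` on `V_(k+1)` -/
noncomputable def ze (q t : K) (k : ℕ) : Ry K →ₗ[K] Ry K :=
  (sg q t k).toLinearMap ∘ₗ dmi q - dmi q ∘ₗ (sg q t (k + 1)).toLinearMap

/-- `η = [d_+, d_-]` on `V_(k+1)` -/
noncomputable def et (q : K) (k : ℕ) : Ry K →ₗ[K] Ry K := dpl q k ∘ₗ dmi q - dmi q ∘ₗ dpl q (k + 1)

/-- `d_+^*'`: `T_0 T_1 ... T_(k-1) d_+^*` on `V_k`, the starred version of `io` -/
noncomputable def ios (q t : K) (k : ℕ) : Ry K →ₗ[K] Ry K := TU q k ∘ₗ (sg q t k).toLinearMap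

/-- `z_j` on `V_(k+1)`: `z_0 = (q⁻¹-1)⁻¹ T_0 ... T_(k-1) ζ`, `z_(j+1) = q T_j⁻¹ z_j T_j⁻¹` -/
noncomputable def zo (q t : K) (k : ℕ) : ℕ → (Ry K →ₗ[K] Ry K)
  | 0 => (q⁻¹ - 1)⁻¹ • (TU q k ∘ₗ ze q t k)
  | j + 1 => q • (Thi q j ∘ₗ zo q t k j ∘ₗ Thi q j)

end ops2

/-! ### abstract `A_q`-modules -/

section abs
variable {K : Type} [Field K] {U : ℕ → Type} [∀ k, AddCommGroup (U k)] [∀ k, Module K (U k)]

/-- the relations of the Dyck path algebra `A_q` on a family `U k`, `k ≥ 0`; `T k j` is used for `j + 1 < k`,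
`j = 0` is the top pair (last two strands). -/
structure IsAq (q : K) (Dm : ∀ k, U (k + 1) →ₗ[K] U k) (Dp : ∀ k, U k →ₗ[K] U (k + 1))
    (T : ∀ k, ℕ → (U k →ₗ[K] U k)) : Prop where
  quad : ∀ k j (f : U k), j + 1 < k → T k j (T k j f) = (1 - q) • T k j f + q • f
  braid : ∀ k j (f : U k), j + 2 < k → T k j (T k (j + 1) (T k j f)) = T k (j + 1) (T k j (T k (j + 1) f))
  far : ∀ k i j (f : U k), j + 1 < k → i + 2 ≤ j → T k i (T k j f) = T k j (T k i f)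
  dmT : ∀ k j (f : U (k + 1)), j + 1 < k → Dm k (T (k + 1) (j + 1) f) = T k j (Dm k f)
  dpT : ∀ k j (f : U k), j + 1 < k → Dp k (T k j f) = T (k + 1) j (Dp k f)
  dm2 : ∀ k (f : U (k + 2)), Dm k (Dm (k + 1) (T (k + 2) 0 f)) = Dm k (Dm (k + 1) f)
  dp2 : ∀ k (f : U k), T (k + 2) k (Dp (k + 1) (Dp k f)) = Dp (k + 1) (Dp k f)
  sa : ∀ k (f : U (k + 2)), Dm (k + 1) (Dm (k + 2) (Dp (k + 2) f)) + q • Dp k (Dm k (Dm (k + 1) f)) =
    Dm (k + 1) (Dp (k + 1) (Dm (k + 1) (T (k + 2) 0 f + q • f)))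
  sb : ∀ k (f : U (k + 1)), Dm (k + 2) (Dp (k + 2) (Dp (k + 1) f)) + q • Dp (k + 1) (Dp k (Dm k f)) =
    T (k + 2) k (Dp (k + 1) (Dm (k + 1) (Dp (k + 1) f))) + q • Dp (k + 1) (Dm (k + 1) (Dp (k + 1) f))

/-- `T⁻¹ = (T + q - 1)/q` -/
noncomputable def Ti (q : K) (T : ∀ k, ℕ → (U k →ₗ[K] U k)) (k j : ℕ) : U k →ₗ[K] U k :=
  q⁻¹ • (T k j + (q - 1) • LinearMap.id)

/-- `T_0⁻¹ T_1⁻¹ ... T_(m-1)⁻¹` on `U k` -/
noncomputable def Qi (q : K) (T : ∀ k, ℕ → (U k →ₗ[K] U k)) (k : ℕ) : ℕ → (U k →ₗ[K] U k)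
  | 0 => LinearMap.id
  | m + 1 => Qi q T k m ∘ₗ Ti q T k m

/-- `D_+' = T_0⁻¹ ... T_(k-1)⁻¹ D_+ : U k → U (k+1)` -/
noncomputable def Io (q : K) (Dp : ∀ k, U k →ₗ[K] U (k + 1)) (T : ∀ k, ℕ → (U k →ₗ[K] U k)) (k : ℕ) :
    U k →ₗ[K] U (k + 1) := Qi q T (k + 1) k ∘ₗ Dp k

/-- `y_j` on `U (k+1)`: `y_0 = (q-1)⁻¹ T_0⁻¹ ... T_(k-1)⁻¹ (D_+ D_- - D_- D_+)`, `y_(j+1) = q⁻¹ T_j y_j T_j` -/
noncomputable def Yo (q : K) (Dm : ∀ k, U (k + 1) →ₗ[K] U k) (Dp : ∀ k, U k →ₗ[K] U (k + 1))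
    (T : ∀ k, ℕ → (U k →ₗ[K] U k)) (k : ℕ) : ℕ → (U (k + 1) →ₗ[K] U (k + 1))
  | 0 => (q - 1)⁻¹ • (Qi q T (k + 1) k ∘ₗ (Dp k ∘ₗ Dm k - Dm (k + 1) ∘ₗ Dp (k + 1)))
  | j + 1 => q⁻¹ • (T (k + 1) j ∘ₗ Yo q Dm Dp T k j ∘ₗ T (k + 1) j)

/-- `y_j` on `U k`; zero for `j ≥ k` -/
noncomputable def yU (q : K) (Dm : ∀ k, U (k + 1) →ₗ[K] U k) (Dp : ∀ k, U k →ₗ[K] U (k + 1))
    (T : ∀ k, ℕ → (U k →ₗ[K] U k)) : (k : ℕ) → ℕ → (U k →ₗ[K] U k)
  | 0, _ => 0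
  | k + 1, j => if j < k + 1 then Yo q Dm Dp T k j else 0

/-- `E_r = ε_r` on `U k`: `E_0 = 1`, `E_(r+1) = -D_- y_0^r D_+'` -/
noncomputable def Eo (q : K) (Dm : ∀ k, U (k + 1) →ₗ[K] U k) (Dp : ∀ k, U k →ₗ[K] U (k + 1))
    (T : ∀ k, ℕ → (U k →ₗ[K] U k)) (k : ℕ) : ℕ → (U k →ₗ[K] U k)
  | 0 => LinearMap.id
  | r + 1 => -(Dm k ∘ₗ ((Yo q Dm Dp T k 0) ^ r) ∘ₗ Io q Dp T k)

end abs

end Pool.VD.CM
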