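import Pool.Agent.VD.M_HS

/-!
# Vertex operators: commutation with multiplications
-/

set_option autoImplicit false
set_option linter.unusedSectionVars false

namespace Pool.VD

open MvPolynomial Finset

variable {K : Type} [Field K] [CharZero K]

theorem Lf_monomial (s : ℕ → Lam K) (f : Lam K) (j : ℕ) :
    Lf s (Polynomial.monomial j f) = f * s j := by
  simp [Lf, Polynomial.lsum_apply, Polynomial.sum_monomial_index]

theorem Lf_C_mul (s : ℕ → Lam K) (f : Lam K) (P : Polynomial (Lam K)) :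
    Lf s (Polynomial.C f * P) = f * Lf s P := by
  rw [← Polynomial.smul_eq_C_mul, map_smul, smul_eq_mul]

theorem Lf_C (s : ℕ → Lam K) (f : Lam K) : Lf s (Polynomial.C f) = f * s 0 := by
  rw [← Polynomial.monomial_zero_left, Lf_monomial]

theorem Lf_X_pow_mul (s : ℕ → Lam K) (P : Polynomial (Lam K)) (i : ℕ) :
    Lf s (Polynomial.X ^ i * P) = Lf (fun j => s (j + i)) P := by
  induction P using Polynomial.induction_on' with
  | add P Q hP hQ => rw [mul_add, map_add, map_add, hP, hQ]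
  | monomial n f =>
    rw [Lf_monomial, mul_comm, ← Polynomial.C_mul_X_pow_eq_monomial, mul_assoc, ← pow_add,
      Polynomial.C_mul_X_pow_eq_monomial, Lf_monomial]

theorem Lf_eq_sum (s : ℕ → Lam K) (P : Polynomial (Lam K)) {n : ℕ} (hn : P.natDegree < n) :
    Lf s P = ∑ j ∈ range n, P.coeff j * s j := by
  conv_lhs => rw [P.as_sum_range' n hn]
  rw [map_sum]
  exact sum_congr rfl fun j _ => Lf_monomial _ _ _

theorem Tr_X (m : ℕ → K) (i : ℕ) : Tr m (X i) = Polynomial.C (X i : Lam K) +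
    Polynomial.C (C (m i) : Lam K) * (Polynomial.X : Polynomial (Lam K)) ^ (i + 1) := by
  simp [Tr]

theorem Tr_C (m : ℕ → K) (c : K) : Tr m (C c) = Polynomial.C (C c : Lam K) := by
  have h := (Tr m).commutes c
  rw [MvPolynomial.algebraMap_eq] at h
  rw [h]
  rfl

theorem Vo_apply (m : ℕ → K) (a : ℕ → Lam K) (k : ℕ) (f : Lam K) :
    Vo m a k f = Lf (fun j => Hs a (j + k)) (Tr m f) := rfl

/-- `Vo_k 1 = h_k[B]` -/
theorem Vo_one (m : ℕ → K) (a : ℕ → Lam K) (k : ℕ) : Vo m a k 1 = Hs a k := by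
  rw [Vo_apply, map_one, ← Polynomial.C_1, Lf_C, one_mul, zero_add]

theorem Vo_C_mul (m : ℕ → K) (a : ℕ → Lam K) (k : ℕ) (c : K) (f : Lam K) :
    Vo m a k (C c * f) = C c * Vo m a k f := by
  rw [← MvPolynomial.smul_eq_C_mul, map_smul, MvPolynomial.smul_eq_C_mul]

/-- if `g[X + A w] = ∑ b_i w^(e_i)` then `Vo_k g = ∑ b_i Vo_(k + e_i)` as operators. -/
theorem Vo_mul_of (m : ℕ → K) (a : ℕ → Lam K) (k : ℕ) {g : Lam K} {ι : Type} (s : Finset ι)
    (b : ι → Lam K) (e : ι → ℕ)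
    (hg : Tr m g = ∑ i ∈ s, Polynomial.C (b i) * Polynomial.X ^ (e i)) (f : Lam K) :
    Vo m a k (g * f) = ∑ i ∈ s, b i * Vo m a (k + e i) f := by
  rw [Vo_apply, map_mul, hg, sum_mul, map_sum]
  refine sum_congr rfl fun i _ => ?_
  rw [mul_assoc, Lf_C_mul, Lf_X_pow_mul, Vo_apply]
  congr 3
  funext j
  congr 1
  ring

/-- `Vo_k p_(i+1) = p_(i+1) Vo_k + p_(i+1)[A] Vo_(k+i+1)` -/
theorem Vo_X_mul (m : ℕ → K) (a : ℕ → Lam K) (k i : ℕ) (f : Lam K) :
    Vo m a k (X i * f) = X i * Vo m a k f + C (m i) * Vo m a (k + (i + 1)) f := by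
  have h := Vo_mul_of m a k (g := X i) (univ : Finset (Fin 2)) ![X i, C (m i)] ![0, i + 1]
    (by rw [Tr_X]; simp [Fin.sum_univ_two]) f
  rw [h]
  simp [Fin.sum_univ_two]

/-- `h_n[A X]` where `p_(i+1)[A] = c_i` -/
noncomputable def Hc (c : ℕ → K) (n : ℕ) : Lam K := Hs (fun i => (C (c i) * X i : Lam K)) n

theorem Hc_zero (c : ℕ → K) : Hc c 0 = 1 := Hs_zero _

theorem Hs_C (c : ℕ → K) (n : ℕ) : Hs (fun i => (C (c i) : Lam K)) n = C (Hs c n) :=
  (Hs_map (C : K →+* Lam K) c n).symm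

/-- `h_n[A X + A M w] = ∑ h_(n-i)[AX] h_i[AM] w^i` -/
theorem Tr_Hc (m c : ℕ → K) (n : ℕ) : Tr m (Hc c n) = ∑ i ∈ range (n + 1),
    Polynomial.C (C (Hs (fun i => c i * m i) i) * Hc c (n - i) : Lam K) * Polynomial.X ^ i := by
  have h1 : Tr m (Hc c n) = Hs (fun k => Tr m (C (c k) * X k : Lam K)) n := by
    have := Hs_map ((Tr m : Lam K →ₐ[K] Polynomial (Lam K)) : Lam K →+* Polynomial (Lam K))
      (fun i => (C (c i) * X i : Lam K)) n
    exact this
  have h2 : (fun k => Tr m (C (c k) * X k : Lam K)) =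
      (fun k => (Polynomial.X : Polynomial (Lam K)) ^ (k + 1) *
        Polynomial.C (C (c k * m k) : Lam K)) + (fun k => Polynomial.C (C (c k) * X k : Lam K)) := by
    funext k
    rw [map_mul, Tr_X, Tr_C, Pi.add_apply]
    simp only [map_mul]
    ring
  rw [h1, h2, Hs_add']
  refine sum_congr rfl fun i _ => ?_
  rw [Hs_scale]
  have h3 : Hs (fun k => Polynomial.C (C (c k * m k) : Lam K)) i =
      Polynomial.C (C (Hs (fun i => c i * m i) i) : Lam K) := by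
    have := Hs_map ((Polynomial.C : Lam K →+* Polynomial (Lam K)).comp (C : K →+* Lam K))
      (fun i => c i * m i) i
    exact this.symm
  have h4 : Hs (fun k => Polynomial.C (C (c k) * X k : Lam K)) (n - i) =
      Polynomial.C (Hc c (n - i)) :=
    (Hs_map (Polynomial.C : Lam K →+* Polynomial (Lam K)) _ _).symm
  rw [h3, h4]
  simp only [map_mul]
  ring

/-- `Vo_k h_n[AX] = ∑ h_i[AM] h_(n-i)[AX] Vo_(k+i)` -/
theorem Vo_Hc_mul (m : ℕ → K) (a : ℕ → Lam K) (c : ℕ → K) (k n : ℕ) (f : Lam K) :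
    Vo m a k (Hc c n * f) = ∑ i ∈ range (n + 1),
      C (Hs (fun i => c i * m i) i) * Hc c (n - i) * Vo m a (k + i) f :=
  Vo_mul_of m a k (range (n + 1)) (fun i => C (Hs (fun i => c i * m i) i) * Hc c (n - i))
    (fun i => i) (Tr_Hc m c n) f

/-- induction principle: linear operators which agree after multiplication by power sums -/
theorem lin_ext {A B : Lam K →ₗ[K] Lam K} (h1 : A 1 = B 1)
    (hX : ∀ i f, A f = B f → A (X i * f) = B (X i * f)) : A = B := by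
  refine LinearMap.ext fun f => ?_
  induction f using MvPolynomial.induction_on with
  | C c =>
    rw [show (C c : Lam K) = c • 1 by rw [MvPolynomial.smul_eq_C_mul, mul_one], map_smul,
      map_smul, h1]
  | add f g hf hg => rw [map_add, map_add, hf, hg]
  | mul_X f i hf => rw [mul_comm]; exact hX i f hf

/-! ### The operators `D_k` -/

theorem Dk_one (q t : K) (k : ℕ) : Dk q t k 1 = Ep K k := Vo_one _ _ _

theorem Ds_one (q t : K) : Ds q t 1 = 1 := by
  rw [Ds, Vo_one, Hs_zero]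

/-- `[D_k, p_(i+1)] = M_(i+1) D_(k+i+1)` -/
theorem Dk_X_mul (q t : K) (k i : ℕ) (f : Lam K) :
    Dk q t k (X i * f) = X i * Dk q t k f + C (Mk q t (i + 1)) * Dk q t (k + (i + 1)) f :=
  Vo_X_mul _ _ _ _ _

/-- `[D_k, e_1] = M D_(k+1)` -/
theorem Dk_e1_mul (q t : K) (k : ℕ) (f : Lam K) :
    Dk q t k (X 0 * f) = X 0 * Dk q t k f + C (Mk q t 1) * Dk q t (k + 1) f := by
  have h := Dk_X_mul q t k 0 f
  simpa using h

theorem Mk_ne_zero {q t : K} {k : ℕ} (hq : q ^ k ≠ 1) (ht : t ^ k ≠ 1) : Mk q t k ≠ 0 :=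
  mul_ne_zero (sub_ne_zero.2 (Ne.symm hq)) (sub_ne_zero.2 (Ne.symm ht))

/-- `h_n[X/M] = Hst n` and `h_i[1] = 1`: `D_k h_n^* = ∑ h_(n-i)^* D_(k+i)`. -/
theorem Dk_Hst_mul {q t : K} (hM : ∀ i, Mk q t (i + 1) ≠ 0) (k n : ℕ) (f : Lam K) :
    Dk q t k (Hst q t n * f) = ∑ i ∈ range (n + 1), Hst q t (n - i) * Dk q t (k + i) f := by
  have h := Vo_Hc_mul (fun i => Mk q t (i + 1)) (fun i => -(X i : Lam K))
    (fun i => (Mk q t (i + 1))⁻¹) k n f
  have h1 : (fun i => (Mk q t (i + 1))⁻¹ * Mk q t (i + 1)) = fun _ => (1 : K) := by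
    funext i; exact inv_mul_cancel₀ (hM i)
  simp only [h1, Hs_const_one, map_one, one_mul] at h
  exact h

theorem Est_eq_Hc (q t : K) (n : ℕ) :
    Est q t n = (-1) ^ n * Hc (fun i => -(Mk q t (i + 1))⁻¹) n := by
  simp [Est, Hc]

theorem Est_zero (q t : K) : Est q t 0 = 1 := by
  simp [Est, Hs_zero]

/-- `D_k e_(n+1)^* = e_(n+1)^* D_k + e_n^* D_(k+1)` -/
theorem Dk_Est_mul {q t : K} (hM : ∀ i, Mk q t (i + 1) ≠ 0) (k n : ℕ) (f : Lam K) :
    Dk q t k (Est q t (n + 1) * f) =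
      Est q t (n + 1) * Dk q t k f + Est q t n * Dk q t (k + 1) f := by
  have h := Vo_Hc_mul (fun i => Mk q t (i + 1)) (fun i => -(X i : Lam K))
    (fun i => -(Mk q t (i + 1))⁻¹) k (n + 1) f
  have h1 : (fun i => -(Mk q t (i + 1))⁻¹ * Mk q t (i + 1)) = fun _ => (-1 : K) := by
    funext i; rw [neg_mul, inv_mul_cancel₀ (hM i)]
  simp only [h1, Hs_const_neg_one] at h
  rw [sum_range_succ', sum_range_succ'] at h
  simp at h
  rw [Est_eq_Hc, Est_eq_Hc]
  have h2 : ((-1) ^ (n + 1) * Hc (fun i => -(Mk q t (i + 1))⁻¹) (n + 1) * f : Lam K) =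
      C ((-1) ^ (n + 1)) * (Hc (fun i => -(Mk q t (i + 1))⁻¹) (n + 1) * f) := by
    simp; ring
  rw [h2, Dk, Vo_C_mul, h]
  simp
  simp only [Dk]
  ring

/-- `g_n = h_n[X/(1-q)]` -/
noncomputable def Gn (q : K) (n : ℕ) : Lam K := Hc (fun i => (1 - q ^ (i + 1))⁻¹) n

theorem Gn_zero (q : K) : Gn q 0 = 1 := Hc_zero _

/-- `D_k g_n = g_n D_k + (1-t) ∑_(i ≥ 1) g_(n-i) D_(k+i)` -/
theorem Dk_Gn_mul {q : K} (t : K) (hq : ∀ i : ℕ, q ^ (i + 1) ≠ 1) (k n : ℕ) (f : Lam K) :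
    Dk q t k (Gn q n * f) = Gn q n * Dk q t k f +
      C (1 - t) * ∑ i ∈ range n, Gn q (n - (i + 1)) * Dk q t (k + (i + 1)) f := by
  have h := Vo_Hc_mul (fun i => Mk q t (i + 1)) (fun i => -(X i : Lam K))
    (fun i => (1 - q ^ (i + 1))⁻¹) k n f
  have h1 : (fun i => (1 - q ^ (i + 1))⁻¹ * Mk q t (i + 1)) = fun i => 1 - t ^ (i + 1) := by
    funext i
    rw [Mk, ← mul_assoc, inv_mul_cancel₀ (sub_ne_zero.2 (Ne.symm (hq i))), one_mul]
  simp only [h1, Hs_one_sub_geom] at h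
  rw [sum_range_succ'] at h
  simp at h
  rw [Gn, Dk, h, mul_sum, add_comm]
  congr 1
  refine sum_congr rfl fun i _ => ?_
  simp only [Gn, Dk, map_sub, map_one]
  ring

/-- `D_k` is symmetric in `q`, `t`. -/
theorem Dk_comm (q t : K) (k : ℕ) : Dk q t k = Dk t q k := by
  have h : (fun i => Mk q t (i + 1)) = fun i => Mk t q (i + 1) := by
    funext i; simp only [Mk]; ring
  rw [Dk, Dk, h]

end Pool.VD
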