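import Pool.Agent.VD.CM
import Pool.Agent.VD.M_DK

/-!
# Block CM: library for `io`, `th`, `dmi`, `sg`
-/

set_option autoImplicit false
set_option linter.unusedSectionVars false

namespace Pool.VD.CM

open MvPolynomial Finset

section ops
variable {K : Type} [Field K]

/-- two `K`-algebra maps out of `Ry K` which agree on the `p_i` and the `y_j` are equal -/
theorem Ry_ringHom_ext {S : Type} [CommSemiring S] (f g : Ry K →+* S)
    (hc : ∀ c : K, f (C (C c)) = g (C (C c)))
    (hp : ∀ i, f (C (X i)) = g (C (X i))) (hy : ∀ j, f (X j) = g (X j)) : f = g := by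
  refine MvPolynomial.ringHom_ext (fun r => ?_) hy
  have h : (f.comp (C : Lam K →+* Ry K)) = g.comp (C : Lam K →+* Ry K) :=
    MvPolynomial.ringHom_ext hc hp
  exact RingHom.congr_fun h r

theorem Ry_algHom_ext {S : Type} [CommSemiring S] [Algebra K S] (f g : Ry K →ₐ[K] S)
    (hp : ∀ i, f (C (X i)) = g (C (X i))) (hy : ∀ j, f (X j) = g (X j)) : f = g := by
  have h : (f : Ry K →+* S) = (g : Ry K →+* S) := by
    refine Ry_ringHom_ext _ _ (fun c => ?_) hp hy
    have h1 : (C (C c) : Ry K) = algebraMap K (Ry K) c := rfl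
    simp only [RingHom.coe_coe]
    rw [h1, AlgHom.commutes, AlgHom.commutes]
  exact AlgHom.ext fun x => RingHom.congr_fun h x

theorem io_C (q : K) (f : Lam K) : io q (C f) =
    (aeval (fun i => C (X i) + C (C (q ^ (i + 1) - 1)) * (X 0 : Ry K) ^ (i + 1)) :
      Lam K →ₐ[K] Ry K) f := by
  simp [io]

theorem io_p (q : K) (i : ℕ) : io q (C (X i)) =
    C (X i) + C (C (q ^ (i + 1) - 1)) * (X 0 : Ry K) ^ (i + 1) := by
  rw [io_C, aeval_X]

theorem io_X (q : K) (j : ℕ) : io q (X j) = X (j + 1) := by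
  simp [io]

theorem CC_eq (c : K) : (C (C c) : Ry K) = algebraMap K (Ry K) c := rfl

theorem io_CC (q c : K) : io q (C (C c)) = C (C c) := by
  rw [CC_eq, AlgHom.commutes]

theorem C_neg' (f : Lam K) : (C (-f) : Ry K) = -C f := map_neg C f

theorem th_p (q : K) (i : ℕ) : th q (C (X i)) = Polynomial.C (C (X i) : Ry K) -
    Polynomial.C (C (C (q ^ (i + 1) - 1)) : Ry K) * (Polynomial.X : Polynomial (Ry K)) ^ (i + 1) := by
  simp [th]

theorem th_X0 (q : K) : th q (X 0) = Polynomial.X := by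
  simp [th]

theorem th_Xs (q : K) (j : ℕ) : th q (X (j + 1)) = Polynomial.C (X j) := by
  simp [th]

/-- `th (io G) = G` -/
theorem th_io (q : K) (G : Ry K) : th q (io q G) = Polynomial.C G := by
  have h : (th q).comp (io q) = (Polynomial.CAlgHom : Ry K →ₐ[K] Polynomial (Ry K)) := by
    refine Ry_algHom_ext _ _ (fun i => ?_) (fun j => ?_)
    · simp only [AlgHom.comp_apply, io_p, map_add, map_mul, map_pow, th_p, th_X0]
      have h1 : th q (C (C (q ^ (i + 1) - 1))) = Polynomial.C (C (C (q ^ (i + 1) - 1)) : Ry K) := by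
        have h2 : (C (C (q ^ (i + 1) - 1)) : Ry K) = algebraMap K (Ry K) (q ^ (i + 1) - 1) := rfl
        rw [h2, AlgHom.commutes]
        rfl
      rw [h1]
      show _ = Polynomial.C (C (X i) : Ry K)
      ring
    · simp only [AlgHom.comp_apply, io_X, th_Xs]
      rfl
  exact AlgHom.congr_fun h G

/-- the inverse of `th`: `G ↦ io G`, `Y ↦ y_0` -/
noncomputable def ht (q : K) : Polynomial (Ry K) →+* Ry K := Polynomial.eval₂RingHom (io q : Ry K →+* Ry K) (X 0)

theorem ht_th (q : K) (F : Ry K) : ht q (th q F) = F := by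
  have h : (ht q).comp (th q : Ry K →+* Polynomial (Ry K)) = RingHom.id (Ry K) := by
    refine Ry_ringHom_ext _ _ (fun c => ?_) (fun i => ?_) (fun j => ?_)
    · have h2 : (C (C c) : Ry K) = algebraMap K (Ry K) c := rfl
      have h3 : th q (C (C c)) = Polynomial.C (C (C c) : Ry K) := by
        rw [h2, AlgHom.commutes]; rfl
      simp only [RingHom.comp_apply, RingHom.coe_coe, h3, ht, Polynomial.coe_eval₂RingHom,
        Polynomial.eval₂_C, io_CC, RingHom.id_apply]
    · simp only [RingHom.comp_apply, RingHom.coe_coe, th_p, ht, Polynomial.coe_eval₂RingHom,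
        Polynomial.eval₂_sub, Polynomial.eval₂_mul, Polynomial.eval₂_C, Polynomial.eval₂_pow,
        Polynomial.eval₂_X, io_p, io_CC, RingHom.id_apply]
      ring
    · cases j with
      | zero => simp [th_X0, ht]
      | succ j => simp [th_Xs, ht, io_X]
  exact RingHom.congr_fun h F

/-- every element is a sum of `io G * y_0^a` -/
theorem io_sum (q : K) (F : Ry K) : F = ∑ a ∈ range ((th q F).natDegree + 1),
    io q ((th q F).coeff a) * X 0 ^ a := by
  conv_lhs => rw [← ht_th q F, ht, Polynomial.coe_eval₂RingHom, Polynomial.eval₂_eq_sum_range]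
  rfl

/-- induction: additive properties of the elements `io G * y_0^a` -/
theorem io_induction (q : K) {P : Ry K → Prop} (h0 : P 0) (hadd : ∀ F G, P F → P G → P (F + G))
    (hm : ∀ G a, P (io q G * X 0 ^ a)) (F : Ry K) : P F := by
  rw [io_sum q F]
  exact Finset.sum_induction _ P hadd h0 fun a _ => hm _ _

/-- linear maps which agree on all `io G * y_0^a` are equal -/
theorem io_ext (q : K) {W : Type} [AddCommMonoid W] [Module K W] {A B : Ry K →ₗ[K] W}
    (h : ∀ G a, A (io q G * X 0 ^ a) = B (io q G * X 0 ^ a)) : A = B := by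
  refine LinearMap.ext fun F => ?_
  refine io_induction q (P := fun F => A F = B F) (by rw [map_zero, map_zero])
    (fun F G hF hG => by rw [map_add, map_add, hF, hG]) h F

theorem io_injective (q : K) : Function.Injective (io q) := by
  intro F G h
  have h1 := congrArg (th q) h
  rw [th_io, th_io] at h1
  exact Polynomial.C_injective h1

end ops

section ops2
variable {K : Type} [Field K] [CharZero K]

theorem dmi_eq (q : K) (F : Ry K) : dmi q F =
    (th q F).sum (fun a G => G * -C (Ep K (a + 1))) := by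
  simp [dmi, Polynomial.lsum_apply]

/-- `d_- (io G * F) = G * d_- F` -/
theorem dmi_io_mul (q : K) (G F : Ry K) : dmi q (io q G * F) = G * dmi q F := by
  have h : ∀ P : Polynomial (Ry K),
      (Polynomial.lsum (fun a => LinearMap.toSpanSingleton (Ry K) (Ry K) (-C (Ep K (a + 1)))))
        (Polynomial.C G * P) = G *
      (Polynomial.lsum (fun a => LinearMap.toSpanSingleton (Ry K) (Ry K) (-C (Ep K (a + 1))))) P := by
    intro P
    rw [← Polynomial.smul_eq_C_mul, map_smul, smul_eq_mul]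
  have h1 : dmi q (io q G * F) =
      (Polynomial.lsum (fun a => LinearMap.toSpanSingleton (Ry K) (Ry K) (-C (Ep K (a + 1)))))
        (th q (io q G * F)) := rfl
  rw [h1, map_mul, th_io, h]
  rfl

theorem dmi_pow (q : K) (a : ℕ) : dmi q (X 0 ^ a) = -C (Ep K (a + 1)) := by
  rw [dmi_eq, map_pow, th_X0, ← Polynomial.monomial_one_right_eq_X_pow]
  rw [Polynomial.sum_monomial_index]
  · ring
  · ring

theorem dmi_one (q : K) : dmi q (1 : Ry K) = -C (Ep K 1) := by
  have h := dmi_pow q 0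
  rwa [pow_zero] at h

/-- `d_- (io G * y_0^a) = -G ε_(a+1)` -/
theorem dmi_io_pow (q : K) (G : Ry K) (a : ℕ) :
    dmi q (io q G * X 0 ^ a) = -(G * C (Ep K (a + 1))) := by
  rw [dmi_io_mul, dmi_pow]
  ring

theorem dmi_Xs_mul (q : K) (j : ℕ) (F : Ry K) : dmi q (X (j + 1) * F) = X j * dmi q F := by
  rw [← io_X q, dmi_io_mul]

theorem dmi_CC_mul (q c : K) (F : Ry K) : dmi q (C (C c) * F) = C (C c) * dmi q F := by
  rw [← smulK, map_smul, smulK]

/-- `ε_n[X + (q-1) y_0] = ∑ ka_j ε_(n-j) y_0^j` -/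
theorem io_Ep (q : K) (n : ℕ) : io q (C (Ep K n)) = ∑ j ∈ range (n + 1),
    C (C (ka q j) * Ep K (n - j)) * X 0 ^ j := by
  have h1 : io q (C (Ep K n)) = Hs (fun k => io q (C (-X k : Lam K))) n := by
    have := Hs_map (((io q : Ry K →ₐ[K] Ry K) : Ry K →+* Ry K).comp (C : Lam K →+* Ry K))
      (fun k => (-X k : Lam K)) n
    exact this
  have h2 : (fun k => io q (C (-X k : Lam K))) =
      (fun k => (X 0 : Ry K) ^ (k + 1) * C (C (1 - q ^ (k + 1)))) + fun k => C (-X k : Lam K) := by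
    funext k
    rw [Pi.add_apply, C_neg', map_neg, io_p]
    simp only [map_sub, map_one]
    ring
  rw [h1, h2, Hs_add']
  refine sum_congr rfl fun j _ => ?_
  rw [Hs_scale]
  have h3 : Hs (fun k => C (C (1 - q ^ (k + 1))) : ℕ → Ry K) j = C (C (ka q j)) := by
    have h4 := Hs_map ((C : Lam K →+* Ry K).comp (C : K →+* Lam K)) (fun k => 1 - q ^ (k + 1)) j
    have h5 : Hs (fun k => C (C (1 - q ^ (k + 1))) : ℕ → Ry K) j =
        Hs (fun k => ((C : Lam K →+* Ry K).comp (C : K →+* Lam K)) (1 - q ^ (k + 1))) j := rfl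
    rw [h5, ← h4, Hs_one_sub_geom]
    cases j with
    | zero => simp [ka]
    | succ j => simp [ka]
  have h6 : Hs (fun k => C (-X k : Lam K) : ℕ → Ry K) (n - j) = C (Ep K (n - j)) :=
    (Hs_map (C : Lam K →+* Ry K) _ _).symm
  rw [h3, h6, map_mul]
  ring

theorem Hs_kb (q : K) (j : ℕ) : Hs (fun k => q ^ (k + 1) - 1) j = kb q j := by
  have h : (fun k : ℕ => q ^ (k + 1) - 1) = (fun _ => (-1 : K)) + fun k => q ^ (k + 1) := by
    funext k
    rw [Pi.add_apply]
    ring
  rw [h, Hs_add']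
  cases j with
  | zero => simp [Hs_zero, kb]
  | succ j =>
    rw [sum_range_succ', sum_range_succ']
    simp [Hs_const_neg_one, Hs_geom, kb]
    ring

/-- `ε_n = ∑ kb_j io(ε_(n-j)) y_0^j` -/
theorem Ep_io (q : K) (n : ℕ) : (C (Ep K n) : Ry K) = ∑ j ∈ range (n + 1),
    io q (C (C (kb q j) * Ep K (n - j))) * X 0 ^ j := by
  have h2 : (fun k => C (-X k : Lam K) : ℕ → Ry K) =
      (fun k => (X 0 : Ry K) ^ (k + 1) * C (C (q ^ (k + 1) - 1))) +
        fun k => io q (C (-X k : Lam K)) := by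
    funext k
    rw [Pi.add_apply, C_neg', map_neg, io_p]
    ring
  have h6 : (C (Ep K n) : Ry K) = Hs (fun k => C (-X k : Lam K) : ℕ → Ry K) n :=
    Hs_map (C : Lam K →+* Ry K) _ _
  rw [h6, h2, Hs_add']
  refine sum_congr rfl fun j _ => ?_
  rw [Hs_scale]
  have h3 : Hs (fun k => C (C (q ^ (k + 1) - 1)) : ℕ → Ry K) j = C (C (kb q j)) := by
    have h4 := Hs_map ((C : Lam K →+* Ry K).comp (C : K →+* Lam K)) (fun k => q ^ (k + 1) - 1) j
    have h5 : Hs (fun k => C (C (q ^ (k + 1) - 1)) : ℕ → Ry K) j =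
        Hs (fun k => ((C : Lam K →+* Ry K).comp (C : K →+* Lam K)) (q ^ (k + 1) - 1)) j := rfl
    rw [h5, ← h4, Hs_kb]
    rfl
  have h1 : Hs (fun k => io q (C (-X k : Lam K))) (n - j) = io q (C (Ep K (n - j))) := by
    have := Hs_map (((io q : Ry K →ₐ[K] Ry K) : Ry K →+* Ry K).comp (C : Lam K →+* Ry K))
      (fun k => (-X k : Lam K)) (n - j)
    exact this.symm
  rw [h3, h1, map_mul C, map_mul, io_CC]
  ring

/-- `d_- (ε_n y_0^a) = -∑ kb_j ε_(n-j) ε_(a+j+1)` -/
theorem dmi_Ep_pow (q : K) (n a : ℕ) : dmi q (C (Ep K n) * X 0 ^ a) =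
    -∑ j ∈ range (n + 1), C (C (kb q j) * Ep K (n - j) * Ep K (a + j + 1)) := by
  rw [Ep_io q n, sum_mul, map_sum, ← sum_neg_distrib]
  refine sum_congr rfl fun j _ => ?_
  rw [mul_assoc, ← pow_add, dmi_io_pow, map_mul C (C (kb q j) * Ep K (n - j)), add_comm j a]

/-! ### the maps `sg` -/

theorem sg_C (q t : K) (k : ℕ) (f : Lam K) : sg q t k (C f) =
    (aeval (fun i => C (X i) + C (C ((q ^ (i + 1) - 1) * t ^ (i + 1))) * (X k : Ry K) ^ (i + 1)) :
      Lam K →ₐ[K] Ry K) f := by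
  simp [sg]

theorem sg_p (q t : K) (k i : ℕ) : sg q t k (C (X i)) =
    C (X i) + C (C ((q ^ (i + 1) - 1) * t ^ (i + 1))) * (X k : Ry K) ^ (i + 1) := by
  rw [sg_C, aeval_X]

theorem sg_X_lt (q t : K) {k j : ℕ} (h : j < k) : sg q t k (X j) = X j := by
  simp [sg, h]

theorem sg_X_ge (q t : K) {k j : ℕ} (h : k ≤ j) : sg q t k (X j) = X (j + 1) := by
  simp [sg, not_lt.2 h]

theorem sg_CC (q t : K) (k : ℕ) (c : K) : sg q t k (C (C c)) = C (C c) := by
  rw [CC_eq, AlgHom.commutes]

/-- `ε_n[X + (q-1) t y_k] = ∑ ka_j t^j ε_(n-j) y_k^j` -/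
theorem sg_Ep (q t : K) (k n : ℕ) : sg q t k (C (Ep K n)) = ∑ j ∈ range (n + 1),
    C (C (ka q j * t ^ j) * Ep K (n - j)) * X k ^ j := by
  have h1 : sg q t k (C (Ep K n)) = Hs (fun i => sg q t k (C (-X i : Lam K))) n := by
    have := Hs_map (((sg q t k : Ry K →ₐ[K] Ry K) : Ry K →+* Ry K).comp (C : Lam K →+* Ry K))
      (fun i => (-X i : Lam K)) n
    exact this
  have h2 : (fun i => sg q t k (C (-X i : Lam K))) =
      (fun i => ((C (C t) * X k : Ry K)) ^ (i + 1) * C (C (1 - q ^ (i + 1)))) +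
        fun i => C (-X i : Lam K) := by
    funext i
    rw [Pi.add_apply, C_neg', map_neg, sg_p]
    simp only [map_sub, map_one, map_mul, map_pow, mul_pow]
    ring
  rw [h1, h2, Hs_add']
  refine sum_congr rfl fun j _ => ?_
  rw [Hs_scale]
  have h3 : Hs (fun k => C (C (1 - q ^ (k + 1))) : ℕ → Ry K) j = C (C (ka q j)) := by
    have h4 := Hs_map ((C : Lam K →+* Ry K).comp (C : K →+* Lam K)) (fun k => 1 - q ^ (k + 1)) j
    have h5 : Hs (fun k => C (C (1 - q ^ (k + 1))) : ℕ → Ry K) j =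
        Hs (fun k => ((C : Lam K →+* Ry K).comp (C : K →+* Lam K)) (1 - q ^ (k + 1))) j := rfl
    rw [h5, ← h4, Hs_one_sub_geom]
    cases j with
    | zero => simp [ka]
    | succ j => simp [ka]
  have h6 : Hs (fun k => C (-X k : Lam K) : ℕ → Ry K) (n - j) = C (Ep K (n - j)) :=
    (Hs_map (C : Lam K →+* Ry K) _ _).symm
  rw [h3, h6]
  simp only [map_mul, map_pow, mul_pow]
  ring

/-- `d_+^* io = io d_+^*` (`V_k → V_(k+2)`) -/
theorem sg_io (q t : K) (k : ℕ) (F : Ry K) : sg q t (k + 1) (io q F) = io q (sg q t k F) := by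
  have h : (sg q t (k + 1)).comp (io q) = (io q).comp (sg q t k) := by
    refine Ry_algHom_ext _ _ (fun i => ?_) (fun j => ?_)
    · simp only [AlgHom.comp_apply, io_p, sg_p, map_add, map_mul, map_pow, sg_CC, io_CC, io_X,
        sg_X_lt q t (Nat.succ_pos k)]
      ring
    · simp only [AlgHom.comp_apply, io_X]
      by_cases hj : j < k
      · rw [sg_X_lt q t hj, sg_X_lt q t (Nat.succ_lt_succ hj), io_X]
      · rw [sg_X_ge q t (not_lt.1 hj), sg_X_ge q t (Nat.succ_le_succ (not_lt.1 hj)), io_X]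
  exact AlgHom.congr_fun h F

end ops2

end Pool.VD.CM
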