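import Pool.Agent.VD.Defs

/-!
# MP_cf06d4_co, group V, block CM: the Demazure - Lusztig operators on `Λ[y_0, y_1, …]`
(index `0` is the top variable)
-/

set_option autoImplicit false

namespace Pool.VD

open MvPolynomial

/-- the ring `Λ[y_0, y_1, …]` -/
abbrev RR (K : Type) [Field K] : Type := MvPolynomial ℕ (Lam K)

section

variable {K : Type} [Field K]

/-- exchange of `y_j` and `y_(j+1)` -/
noncomputable def sw (K : Type) [Field K] (j : ℕ) : RR K →ₐ[Lam K] RR K :=
  rename (Equiv.swap j (j + 1))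

theorem sw_C (j : ℕ) (a : Lam K) : sw K j (C a) = C a := by simp [sw]

theorem sw_X (j v : ℕ) : sw K j (X v) = X (Equiv.swap j (j + 1) v) := by simp [sw]

theorem sw_X0 (j : ℕ) : sw K j (X j) = X (j + 1) := by simp [sw]

theorem sw_X1 (j : ℕ) : sw K j (X (j + 1)) = X j := by simp [sw]

theorem sw_Xo (j v : ℕ) (h0 : v ≠ j) (h1 : v ≠ j + 1) : sw K j (X v) = X v := by
  rw [sw_X, Equiv.swap_apply_of_ne_of_ne h0 h1]

theorem sw_smul (j : ℕ) (c : K) (F : RR K) : sw K j (c • F) = c • sw K j F := by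
  rw [Algebra.smul_def, Algebra.smul_def, map_mul]
  congr 1
  rw [IsScalarTower.algebraMap_apply K (Lam K) (RR K)]
  exact sw_C j _

theorem sw_sw (j : ℕ) (F : RR K) : sw K j (sw K j F) = F := by
  have h : (sw K j).comp (sw K j) = AlgHom.id (Lam K) (RR K) := by
    refine MvPolynomial.algHom_ext fun v => ?_
    simp [sw]
  exact congrArg (fun f => f F) h

/-- the denominator `y_j - y_(j+1)` -/
noncomputable def dn' (K : Type) [Field K] (j : ℕ) : RR K := X j - X (j + 1)

theorem dn'_ne (j : ℕ) : dn' K j ≠ 0 := by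
  intro h
  have h1 : (X j : RR K) = X (j + 1) := sub_eq_zero.1 h
  have h2 := MvPolynomial.X_injective h1
  omega

theorem sw_dn' (j : ℕ) : sw K j (dn' K j) = -dn' K j := by
  rw [dn', map_sub, sw_X0, sw_X1]; ring

theorem dvd_sub_sw (j : ℕ) (F : RR K) : dn' K j ∣ F - sw K j F := by
  induction F using MvPolynomial.induction_on with
  | C a => rw [sw_C, sub_self]; exact dvd_zero _
  | add F G hF hG =>
    have h : F + G - sw K j (F + G) = (F - sw K j F) + (G - sw K j G) := by rw [map_add]; ring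
    rw [h]; exact dvd_add hF hG
  | mul_X F v hF =>
    have h : F * X v - sw K j (F * X v) = (F - sw K j F) * X v + sw K j F * (X v - sw K j (X v)) := by
      rw [map_mul]; ring
    rw [h]
    refine dvd_add (Dvd.dvd.mul_right hF _) (Dvd.dvd.mul_left ?_ _)
    by_cases h0 : v = j
    · subst h0; rw [sw_X0]; exact dvd_refl _
    · by_cases h1 : v = j + 1
      · subst h1; rw [sw_X1]
        exact ⟨-1, by rw [dn']; ring⟩
      · rw [sw_Xo j v h0 h1, sub_self]; exact dvd_zero _

/-- the divided difference `(F - s_j F)/(y_j - y_(j+1))` -/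
noncomputable def dd (j : ℕ) (F : RR K) : RR K := Classical.choose (dvd_sub_sw j F)

theorem dd_spec (j : ℕ) (F : RR K) : dn' K j * dd j F = F - sw K j F :=
  (Classical.choose_spec (dvd_sub_sw j F)).symm

theorem dd_eq {j : ℕ} {F G : RR K} (h : dn' K j * G = F - sw K j F) : dd j F = G :=
  mul_left_cancel₀ (dn'_ne j) ((dd_spec j F).trans h.symm)

theorem dd_add (j : ℕ) (F G : RR K) : dd j (F + G) = dd j F + dd j G :=
  dd_eq (by rw [mul_add, dd_spec, dd_spec, map_add]; ring)

/-- `dd` is linear over symmetric elements -/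
theorem dd_sym_mul (j : ℕ) (S F : RR K) (hS : sw K j S = S) : dd j (S * F) = S * dd j F :=
  dd_eq (by rw [mul_left_comm, dd_spec, map_mul, hS]; ring)

theorem dd_smul (j : ℕ) (c : K) (F : RR K) : dd j (c • F) = c • dd j F := by
  apply dd_eq
  rw [mul_smul_comm, dd_spec, sw_smul, smul_sub]

theorem dd_sym (j : ℕ) (F : RR K) (hF : sw K j F = F) : dd j F = 0 :=
  dd_eq (by rw [hF, sub_self, mul_zero])

/-- `T_j F = s_j F + (q-1) y_(j+1) (F - s_j F)/(y_j - y_(j+1))` -/
noncomputable def Tj (q : K) (j : ℕ) : RR K →ₗ[K] RR K where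
  toFun F := sw K j F + (q - 1) • (X (j + 1) * dd j F)
  map_add' F G := by rw [map_add, dd_add, mul_add, smul_add]; ring
  map_smul' c F := by
    simp only [RingHom.id_apply]
    rw [sw_smul, dd_smul, mul_smul_comm, smul_add, smul_comm]

theorem Tj_apply (q : K) (j : ℕ) (F : RR K) :
    Tj q j F = sw K j F + (q - 1) • (X (j + 1) * dd j F) := rfl

/-- the key identity -/
theorem Tj_key (q : K) (j : ℕ) (F : RR K) :
    dn' K j * Tj q j F = (q - 1) • (X (j + 1) * F) + (X j - q • X (j + 1)) * sw K j F := by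
  have h := dd_spec j F
  rw [Tj_apply]
  simp only [Algebra.smul_def, map_sub, map_one] at *
  have h2 : dn' K j = X j - X (j + 1) := rfl
  linear_combination ((algebraMap K (RR K) q - 1) * X (j + 1)) * h + sw K j F * h2

theorem Tj_eq {q : K} {j : ℕ} {F G : RR K}
    (h : dn' K j * G = (q - 1) • (X (j + 1) * F) + (X j - q • X (j + 1)) * sw K j F) :
    Tj q j F = G :=
  mul_left_cancel₀ (dn'_ne j) ((Tj_key q j F).trans h.symm)

theorem Tj_sym_mul (q : K) (j : ℕ) (S F : RR K) (hS : sw K j S = S) :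
    Tj q j (S * F) = S * Tj q j F := by
  rw [Tj_apply, Tj_apply, map_mul, hS, dd_sym_mul j S F hS, mul_add, mul_smul_comm]
  congr 2; ring

theorem Tj_sym (q : K) (j : ℕ) (F : RR K) (hF : sw K j F = F) : Tj q j F = F := by
  rw [Tj_apply, hF, dd_sym j F hF, mul_zero, smul_zero, add_zero]

theorem Tj_one (q : K) (j : ℕ) : Tj q j (1 : RR K) = 1 := Tj_sym q j 1 (map_one _)

theorem Tj_C_mul (q : K) (j : ℕ) (a : Lam K) (F : RR K) : Tj q j (C a * F) = C a * Tj q j F :=
  Tj_sym_mul q j _ _ (sw_C j a)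

/-- `T_j y_j = y_(j+1) T_j + (q-1) y_(j+1)` -/
theorem Tj_X0 (q : K) (j : ℕ) (F : RR K) :
    Tj q j (X j * F) = X (j + 1) * Tj q j F + (q - 1) • (X (j + 1) * F) := by
  apply Tj_eq
  have h := Tj_key q j F
  rw [map_mul, sw_X0]
  simp only [Algebra.smul_def, map_sub, map_one] at *
  have h2 : dn' K j = X j - X (j + 1) := rfl
  linear_combination X (j + 1) * h + (algebraMap K (RR K) q - 1) * (X (j + 1) * F) * h2

/-- `T_j y_(j+1) = y_j T_j + (1-q) y_(j+1)` -/
theorem Tj_X1 (q : K) (j : ℕ) (F : RR K) :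
    Tj q j (X (j + 1) * F) = X j * Tj q j F + (1 - q) • (X (j + 1) * F) := by
  apply Tj_eq
  have h := Tj_key q j F
  rw [map_mul, sw_X1]
  simp only [Algebra.smul_def, map_sub, map_one] at *
  have h2 : dn' K j = X j - X (j + 1) := rfl
  linear_combination X j * h + (1 - algebraMap K (RR K) q) * (X (j + 1) * F) * h2

theorem Tj_Xo (q : K) (j v : ℕ) (h0 : v ≠ j) (h1 : v ≠ j + 1) (F : RR K) :
    Tj q j (X v * F) = X v * Tj q j F :=
  Tj_sym_mul q j _ _ (sw_Xo j v h0 h1)

/-- the quadratic relation `T² = (1-q) T + q` -/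
theorem Tj_quad (q : K) (j : ℕ) (F : RR K) :
    Tj q j (Tj q j F) = (1 - q) • Tj q j F + q • F := by
  induction F using MvPolynomial.induction_on with
  | C a =>
    rw [Tj_sym q j _ (sw_C j a), Tj_sym q j _ (sw_C j a), ← add_smul]
    simp
  | add F G hF hG => simp only [map_add, hF, hG, smul_add]; abel
  | mul_X F v hF =>
    rw [mul_comm F (X v)]
    by_cases h0 : v = j
    · subst h0
      rw [Tj_X0, map_add, Tj_X1, map_smul, Tj_X1, hF]
      simp only [Algebra.smul_def, map_sub, map_one]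
      ring
    · by_cases h1 : v = j + 1
      · subst h1
        rw [Tj_X1, map_add, Tj_X0, map_smul, Tj_X1, hF]
        simp only [Algebra.smul_def, map_sub, map_one]
        ring
      · rw [Tj_Xo q j v h0 h1, Tj_Xo q j v h0 h1, hF]
        simp only [Algebra.smul_def, map_sub, map_one]
        ring

/-- far commutation -/
theorem Tj_far (q : K) (i j : ℕ) (h : i + 1 < j) (F : RR K) :
    Tj q i (Tj q j F) = Tj q j (Tj q i F) := by
  induction F using MvPolynomial.induction_on with
  | C a => simp only [Tj_sym q _ _ (sw_C _ a)]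
  | add F G hF hG => simp only [map_add, hF, hG]
  | mul_X F v hF =>
    rw [mul_comm F (X v)]
    by_cases h0 : v = i
    · subst h0
      rw [Tj_Xo q j v (by omega) (by omega), Tj_X0, Tj_X0, map_add, map_smul,
        Tj_Xo q j _ (by omega) (by omega), Tj_Xo q j _ (by omega) (by omega), hF]
    · by_cases h1 : v = i + 1
      · subst h1
        rw [Tj_Xo q j _ (by omega) (by omega), Tj_X1, Tj_X1, map_add, map_smul,
          Tj_Xo q j _ (by omega) (by omega), Tj_Xo q j _ (by omega) (by omega), hF]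
      · by_cases h2 : v = j
        · subst h2
          rw [Tj_X0, Tj_Xo q i v h0 h1, Tj_X0, map_add, map_smul,
            Tj_Xo q i _ (by omega) (by omega), Tj_Xo q i _ (by omega) (by omega), hF]
        · by_cases h3 : v = j + 1
          · subst h3
            rw [Tj_X1, Tj_Xo q i _ h0 h1, Tj_X1, map_add, map_smul,
              Tj_Xo q i _ (by omega) (by omega), Tj_Xo q i _ (by omega) (by omega), hF]
          · rw [Tj_Xo q j v h2 h3, Tj_Xo q i v h0 h1, Tj_Xo q i v h0 h1, Tj_Xo q j v h2 h3, hF]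

theorem Tj_Q (q c : K) (j : ℕ) (F : RR K) :
    Tj q j (algebraMap K (RR K) c * F) = algebraMap K (RR K) c * Tj q j F := by
  rw [← Algebra.smul_def, map_smul, Algebra.smul_def]

/-- braid relation -/
theorem Tj_braid (q : K) (j : ℕ) (F : RR K) :
    Tj q j (Tj q (j + 1) (Tj q j F)) = Tj q (j + 1) (Tj q j (Tj q (j + 1) F)) := by
  induction F using MvPolynomial.induction_on with
  | C a => simp only [Tj_sym q _ _ (sw_C _ a)]
  | add F G hF hG => simp only [map_add, hF, hG]
  | mul_X F v hF =>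
    rw [mul_comm F (X v)]
    have hq0 : ∀ G : RR K, Tj q j (Tj q j G) =
        Tj q j G - algebraMap K (RR K) q * Tj q j G + algebraMap K (RR K) q * G := fun G => by
      rw [Tj_quad, Algebra.smul_def, Algebra.smul_def, map_sub, map_one]; ring
    have hq1 : ∀ G : RR K, Tj q (j + 1) (Tj q (j + 1) G) =
        Tj q (j + 1) G - algebraMap K (RR K) q * Tj q (j + 1) G + algebraMap K (RR K) q * G :=
      fun G => by
        rw [Tj_quad, Algebra.smul_def, Algebra.smul_def, map_sub, map_one]; ring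
    have a00 : ∀ G : RR K, Tj q j (X j * G) = X (j + 1) * Tj q j G +
        algebraMap K (RR K) q * (X (j + 1) * G) - X (j + 1) * G := fun G => by
      rw [Tj_X0, Algebra.smul_def, map_sub, map_one]; ring
    have a01 : ∀ G : RR K, Tj q j (X (j + 1) * G) = X j * Tj q j G -
        algebraMap K (RR K) q * (X (j + 1) * G) + X (j + 1) * G := fun G => by
      rw [Tj_X1, Algebra.smul_def, map_sub, map_one]; ring
    have a10 : ∀ G : RR K, Tj q (j + 1) (X (j + 1) * G) = X (j + 1 + 1) * Tj q (j + 1) G +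
        algebraMap K (RR K) q * (X (j + 1 + 1) * G) - X (j + 1 + 1) * G := fun G => by
      rw [Tj_X0, Algebra.smul_def, map_sub, map_one]; ring
    have a11 : ∀ G : RR K, Tj q (j + 1) (X (j + 1 + 1) * G) = X (j + 1) * Tj q (j + 1) G -
        algebraMap K (RR K) q * (X (j + 1 + 1) * G) + X (j + 1 + 1) * G := fun G => by
      rw [Tj_X1, Algebra.smul_def, map_sub, map_one]; ring
    have b0 : ∀ G : RR K, Tj q j (X (j + 1 + 1) * G) = X (j + 1 + 1) * Tj q j G :=
      fun G => Tj_Xo q j _ (by omega) (by omega) G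
    have b1 : ∀ G : RR K, Tj q (j + 1) (X j * G) = X j * Tj q (j + 1) G :=
      fun G => Tj_Xo q (j + 1) _ (by omega) (by omega) G
    have c0 := Tj_Q q q j
    have c1 := Tj_Q q q (j + 1)
    by_cases h0 : v = j
    · subst h0
      simp only [a00, a01, a10, a11, b0, b1, map_add, map_sub, hq0, hq1, c0, c1]
      linear_combination X (v + 1 + 1) * hF
    · by_cases h1 : v = j + 1
      · subst h1
        simp only [a00, a01, a10, a11, b0, b1, map_add, map_sub, hq0, hq1, c0, c1]
        linear_combination X (j + 1) * hF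
      · by_cases h2 : v = j + 1 + 1
        · subst h2
          simp only [a00, a01, a10, a11, b0, b1, map_add, map_sub, hq0, hq1, c0, c1]
          linear_combination X j * hF
        · have d0 : ∀ G : RR K, Tj q j (X v * G) = X v * Tj q j G :=
            fun G => Tj_Xo q j _ h0 h1 G
          have d1 : ∀ G : RR K, Tj q (j + 1) (X v * G) = X v * Tj q (j + 1) G :=
            fun G => Tj_Xo q (j + 1) _ h1 h2 G
          simp only [d0, d1, hF]

/-- intertwining with an algebra homomorphism -/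
theorem Tj_hom (q : K) (i j : ℕ) (g : RR K →ₐ[K] RR K)
    (hg : ∀ F, g (sw K i F) = sw K j (g F)) (h0 : g (X i) = X j) (h1 : g (X (i + 1)) = X (j + 1))
    (F : RR K) : g (Tj q i F) = Tj q j (g F) := by
  symm
  apply Tj_eq
  have h := congrArg g (Tj_key q i F)
  have h2 : g (dn' K i) = dn' K j := by rw [dn', map_sub, h0, h1]; rfl
  rw [map_mul, h2] at h
  rw [h, map_add, map_smul, map_mul, map_mul, map_sub, map_smul, h0, h1, hg]

/-- intertwining with a linear map that commutes with `s_j` and multiplication by `y_j`, `y_(j+1)` -/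
theorem Tj_lin (q : K) (i j : ℕ) (g : RR K →ₗ[K] RR K)
    (hg : ∀ F, g (sw K i F) = sw K j (g F)) (h0 : ∀ F, g (X i * F) = X j * g F)
    (h1 : ∀ F, g (X (i + 1) * F) = X (j + 1) * g F)
    (F : RR K) : g (Tj q i F) = Tj q j (g F) := by
  symm
  apply Tj_eq
  have h := congrArg g (Tj_key q i F)
  rw [dn', sub_mul, map_sub, h0, h1, map_add, map_smul, h1, sub_mul (X i), smul_mul_assoc,
    map_sub, map_smul, h0, h1, hg] at h
  rw [dn', sub_mul, h, sub_mul, smul_mul_assoc]

/-- inverse of `T_j` -/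
noncomputable def Tinv (q : K) (j : ℕ) : RR K →ₗ[K] RR K :=
  q⁻¹ • Tj q j + (1 - q⁻¹) • LinearMap.id

theorem Tinv_apply (q : K) (j : ℕ) (F : RR K) :
    Tinv q j F = q⁻¹ • Tj q j F + (1 - q⁻¹) • F := rfl

theorem Tj_Tinv {q : K} (hq : q ≠ 0) (j : ℕ) (F : RR K) : Tj q j (Tinv q j F) = F := by
  rw [Tinv_apply, map_add, map_smul, map_smul, Tj_quad]
  have e : (q⁻¹ : K) * q = 1 := inv_mul_cancel₀ hq
  rw [smul_add, smul_smul, smul_smul, e, one_smul, mul_sub, mul_one, e]
  module

theorem Tinv_Tj {q : K} (hq : q ≠ 0) (j : ℕ) (F : RR K) : Tinv q j (Tj q j F) = F := by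
  rw [Tinv_apply, Tj_quad]
  have e : (q⁻¹ : K) * q = 1 := inv_mul_cancel₀ hq
  rw [smul_add, smul_smul, smul_smul, e, one_smul, mul_sub, mul_one, e]
  module

end

end Pool.VD
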