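import Pool.Agent.VD.StS

/-!
# MP_cf06d4_co, group V, block C: common definitions (helper17)

Generic operators built from `d_-` and `d_+` (used for the source side `(dm, sg)` at `(1/q, 1/t)`, for the
target side `(dm, dp)`, and for the words model).  The words half is in `StCW.lean` (helper23), the linear words
operators are in `DefCW.lean`.
-/

set_option autoImplicit false

namespace Pool.VD

open MvPolynomial Finset

section gen

variable {K : Type} [Field K] {U : Type} [AddCommGroup U] [Module K U]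

/-- `C = d_- d_+ - d_+ d_-` on `V_(s+1)` -/
def CCk (dm : Module.End K U) (dp : ℕ → Module.End K U) (s : ℕ) : Module.End K U :=
  dm * dp (s + 1) - dp s * dm

/-- `w_b : V_(s+b) → V_(s+1)`: `w_0 = d_+`, `w_(b+1) = (q-1)⁻¹ C d_-^b` (`c = (q-1)⁻¹`) -/
def ww (c : K) (dm : Module.End K U) (dp : ℕ → Module.End K U) : ℕ → ℕ → Module.End K U
  | 0, s => dp s
  | b + 1, s => c • (CCk dm dp s * dm ^ b)

/-- `AA r k m : V_(m+k) → V_(m+r)`, the sum of all `w_(b_1) ⋯ w_(b_r)` with `b_1 + ⋯ + b_r = k` -/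
def AA (c : K) (dm : Module.End K U) (dp : ℕ → Module.End K U) : ℕ → ℕ → ℕ → Module.End K U
  | 0, k, _ => if k = 0 then 1 else 0
  | r + 1, k, m => ∑ b ∈ range (k + 1), AA c dm dp r (k - b) (m + 1) * ww c dm dp b (m + k - b)

/-- `dpi m k = d_+^m : V_k → V_(k+m)` -/
def dpi (dp : ℕ → Module.End K U) : ℕ → ℕ → Module.End K U
  | 0, _ => 1
  | m + 1, k => dp (k + m) * dpi dp m k

/-- `(q;q)_m` -/
def qfac (q : K) (m : ℕ) : K := ∏ i ∈ range m, (1 - q ^ (i + 1))

/-- the right side of the level recursion for a family `κ r a n ∈ V_r` (`a` = degree in `z`, `n` = number of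
cars above the level 0) -/
def Lrec (q t : K) (dm : Module.End K U) (dp : ℕ → Module.End K U) (κ : ℕ → ℕ → ℕ → U) (r a n : ℕ) : U :=
  t ^ n • ∑ m ∈ range (a + 1), (t ^ (a - m) * (-1) ^ m / qfac q m) •
    ∑ k ∈ range (n + 1), (dm ^ m) (AA (q - 1)⁻¹ dm dp r k m (dpi dp m k (κ k (a - m) (n - k))))

end gen

end Pool.VD
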