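import Pool.Agent.VD.CM_D
import Pool.Agent.VD.DefC

/-!
# MP_cf06d4_co, block C, V half (helper44), part 1: coefficientwise operators on power series over `Ry K`
-/

set_option autoImplicit false
set_option linter.unusedSectionVars false

namespace Pool.VD.CV

open MvPolynomial Finset Pool.VD.CM

variable {K : Type} [Field K] [CharZero K]

/-- series in the auxiliary variable `z` with coefficients in `Ry K` -/
abbrev SR (K : Type) [Field K] : Type := PowerSeries (Ry K)

theorem cs_smul (c : K) (F : SR K) (n : ℕ) : PowerSeries.coeff n (c • F) = c • PowerSeries.coeff n F := rfl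

/-- a linear operator acting on the coefficients -/
noncomputable def LS (L : Module.End K (Ry K)) : Module.End K (SR K) where
  toFun F := PowerSeries.mk fun n => L (PowerSeries.coeff n F)
  map_add' F G := by
    ext1 n
    simp only [PowerSeries.coeff_mk, map_add]
  map_smul' c F := by
    ext1 n
    rw [PowerSeries.coeff_mk, cs_smul, map_smul, RingHom.id_apply, cs_smul, PowerSeries.coeff_mk]

theorem coeff_LS (L : Module.End K (Ry K)) (F : SR K) (n : ℕ) :
    PowerSeries.coeff n (LS L F) = L (PowerSeries.coeff n F) := by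
  show PowerSeries.coeff n (PowerSeries.mk fun n => L (PowerSeries.coeff n F)) = _
  rw [PowerSeries.coeff_mk]

theorem LS_one : LS (1 : Module.End K (Ry K)) = 1 := by
  refine LinearMap.ext fun F => ?_
  ext1 n
  rw [coeff_LS]; rfl

theorem LS_zero : LS (0 : Module.End K (Ry K)) = 0 := by
  refine LinearMap.ext fun F => ?_
  ext1 n
  rw [coeff_LS]; rfl

theorem LS_mul (A B : Module.End K (Ry K)) : LS (A * B) = LS A * LS B := by
  refine LinearMap.ext fun F => ?_
  ext1 n
  rw [coeff_LS, Module.End.mul_apply, Module.End.mul_apply, coeff_LS, coeff_LS]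

theorem LS_add (A B : Module.End K (Ry K)) : LS (A + B) = LS A + LS B := by
  refine LinearMap.ext fun F => ?_
  ext1 n
  rw [coeff_LS, LinearMap.add_apply, LinearMap.add_apply, map_add, coeff_LS, coeff_LS]

theorem LS_sub (A B : Module.End K (Ry K)) : LS (A - B) = LS A - LS B := by
  refine LinearMap.ext fun F => ?_
  ext1 n
  rw [coeff_LS, LinearMap.sub_apply, LinearMap.sub_apply, map_sub, coeff_LS, coeff_LS]

theorem LS_smul (c : K) (A : Module.End K (Ry K)) : LS (c • A) = c • LS A := by
  refine LinearMap.ext fun F => ?_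
  ext1 n
  rw [coeff_LS, LinearMap.smul_apply, LinearMap.smul_apply, cs_smul, coeff_LS]

theorem LS_pow (A : Module.End K (Ry K)) (m : ℕ) : LS (A ^ m) = LS A ^ m := by
  induction m with
  | zero => rw [pow_zero, pow_zero, LS_one]
  | succ m ih => rw [pow_succ, pow_succ, LS_mul, ih]

theorem LS_sum {ι : Type} (s : Finset ι) (A : ι → Module.End K (Ry K)) :
    LS (∑ i ∈ s, A i) = ∑ i ∈ s, LS (A i) := by
  classical
  induction s using Finset.induction_on with
  | empty => rw [sum_empty, sum_empty, LS_zero]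
  | insert a s ha ih => rw [sum_insert ha, sum_insert ha, LS_add, ih]

theorem LS_CCk (dm : Module.End K (Ry K)) (dp : ℕ → Module.End K (Ry K)) (s : ℕ) :
    LS (CCk dm dp s) = CCk (LS dm) (fun k => LS (dp k)) s := by
  rw [CCk, CCk, LS_sub, LS_mul, LS_mul]

theorem LS_ww (c : K) (dm : Module.End K (Ry K)) (dp : ℕ → Module.End K (Ry K)) (b s : ℕ) :
    LS (ww c dm dp b s) = ww c (LS dm) (fun k => LS (dp k)) b s := by
  cases b with
  | zero => rfl
  | succ b => rw [ww, ww, LS_smul, LS_mul, LS_pow, LS_CCk]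

theorem LS_AA (c : K) (dm : Module.End K (Ry K)) (dp : ℕ → Module.End K (Ry K)) (r : ℕ) : ∀ k m : ℕ,
    LS (AA c dm dp r k m) = AA c (LS dm) (fun k => LS (dp k)) r k m := by
  induction r with
  | zero =>
    intro k m
    rw [AA, AA]
    split_ifs
    · exact LS_one
    · exact LS_zero
  | succ r ih =>
    intro k m
    rw [AA, AA, LS_sum]
    refine sum_congr rfl fun b _ => ?_
    rw [LS_mul, ih, LS_ww]

theorem LS_dpi (dp : ℕ → Module.End K (Ry K)) (m k : ℕ) :
    LS (dpi dp m k) = dpi (fun k => LS (dp k)) m k := by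
  induction m with
  | zero => exact LS_one
  | succ m ih => rw [dpi, dpi, LS_mul, ih]

/-! ### the operators -/

/-- `d_-` on series -/
noncomputable def dmS (p : K) : Module.End K (SR K) := LS (dmi p)

/-- `d_+^*` on series -/
noncomputable def sgS (p s : K) (k : ℕ) : Module.End K (SR K) := LS (sg p s k).toLinearMap

/-- `io` on series -/
noncomputable def ioS (p : K) : SR K →+* SR K := PowerSeries.map (io p : Ry K →+* Ry K)

theorem coeff_ioS (p : K) (F : SR K) (n : ℕ) :
    PowerSeries.coeff n (ioS p F) = io p (PowerSeries.coeff n F) := by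
  rw [ioS, PowerSeries.coeff_map]; rfl

theorem coeff_dmS (p : K) (F : SR K) (n : ℕ) :
    PowerSeries.coeff n (dmS p F) = dmi p (PowerSeries.coeff n F) := coeff_LS _ _ _

theorem coeff_sgS (p s : K) (k : ℕ) (F : SR K) (n : ℕ) :
    PowerSeries.coeff n (sgS p s k F) = sg p s k (PowerSeries.coeff n F) := coeff_LS _ _ _

theorem sgS_eq (p s : K) (k : ℕ) (F : SR K) :
    sgS p s k F = PowerSeries.map (sg p s k : Ry K →+* Ry K) F := by
  ext1 n
  rw [coeff_sgS, PowerSeries.coeff_map]; rfl

theorem sgS_mul (p s : K) (k : ℕ) (F G : SR K) : sgS p s k (F * G) = sgS p s k F * sgS p s k G := by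
  rw [sgS_eq, sgS_eq, sgS_eq, map_mul]

/-- `d_-` is linear over the image of `io` -/
theorem dmS_io_mul (p : K) (G F : SR K) : dmS p (ioS p G * F) = G * dmS p F := by
  ext1 n
  rw [coeff_dmS, PowerSeries.coeff_mul, map_sum, PowerSeries.coeff_mul]
  refine sum_congr rfl fun x _ => ?_
  rw [coeff_ioS, dmi_io_mul, coeff_dmS]

theorem dmS_pow_io_mul (p : K) (G : SR K) (m : ℕ) : ∀ F : SR K,
    (dmS p ^ m) (((ioS p)^[m] G) * F) = G * (dmS p ^ m) F := by
  induction m generalizing G with
  | zero => intro F; rfl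
  | succ m ih =>
    intro F
    rw [Function.iterate_succ_apply, pow_succ', Module.End.mul_apply, Module.End.mul_apply, ih (ioS p G) F,
      dmS_io_mul]

theorem sgS_io (p s : K) (k : ℕ) (F : SR K) : sgS p s (k + 1) (ioS p F) = ioS p (sgS p s k F) := by
  ext1 n
  rw [coeff_sgS, coeff_ioS, coeff_ioS, coeff_sgS, sg_io]

/-! ### the alphabets -/

/-- power sums of `X` -/
noncomputable def cX (K : Type) [Field K] : ℕ → Ry K := fun i => C (X i)

/-- power sums of `c y_j` -/
noncomputable def yX (c : K) (j : ℕ) : ℕ → Ry K := fun i => (C (C c) * X j) ^ (i + 1)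

/-- power sums of `y_a + ... + y_(a+r-1)` -/
noncomputable def yR (K : Type) [Field K] (a r : ℕ) : ℕ → Ry K := fun i => ∑ l ∈ range r, (X (a + l) : Ry K) ^ (i + 1)

/-- `p_(i+1)[(X + (p-1)(y_0 + … + y_(r-1)))/((1-p)(1-s))]` -/
noncomputable def aR (p s : K) (r : ℕ) : ℕ → Ry K := fun i =>
  C (C ((Mk p s (i + 1))⁻¹)) * (C (X i) + C (C (p ^ (i + 1) - 1)) * ∑ l ∈ range r, (X l : Ry K) ^ (i + 1))

/-- `p_(i+1)[X/(1-p)]` -/
noncomputable def gY (p : K) : ℕ → Ry K := fun i => C (C ((1 - p ^ (i + 1))⁻¹)) * C (X i)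

theorem HS_map' (φ : Ry K →+* Ry K) (a : ℕ → Ry K) :
    PowerSeries.map φ (HS a) = HS (fun i => φ (a i)) := by
  ext1 n
  rw [PowerSeries.coeff_map, coeff_HS, coeff_HS, Hs_map]

theorem ioS_HS (p : K) (a : ℕ → Ry K) : ioS p (HS a) = HS (fun i => io p (a i)) := HS_map' _ _

theorem sgS_HS (p s : K) (k : ℕ) (a : ℕ → Ry K) : sgS p s k (HS a) = HS (fun i => sg p s k (a i)) := by
  rw [sgS_eq, HS_map']; rfl

theorem coeff_HS_yX (c : K) (j n : ℕ) : PowerSeries.coeff n (HS (yX c j)) = (C (C c) * X j : Ry K) ^ n := by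
  rw [coeff_HS]
  exact Hs_geom _ _

/-- `d_- 1/(1 - z y_0)`: the coefficients -/
theorem dmS_yX (p c : K) : (PowerSeries.X : SR K) * dmS p (HS (yX c 0)) * PowerSeries.C (C (C c) : Ry K) =
    1 - HS (fun i => (C (C c) : Ry K) ^ (i + 1) * -cX K i) := by
  ext1 n
  cases n with
  | zero =>
    rw [mul_assoc, PowerSeries.coeff_zero_X_mul, map_sub, coeff_HS, Hs_zero]
    simp
  | succ n =>
    rw [mul_assoc, PowerSeries.coeff_succ_X_mul, PowerSeries.coeff_mul_C, coeff_dmS, coeff_HS_yX, map_sub,
      coeff_HS, Hs_scale, mul_pow, ← map_pow, ← map_pow, dmi_CC_mul, dmi_pow, PowerSeries.coeff_one,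
      if_neg (Nat.succ_ne_zero n)]
    have h6 : (C (Ep K (n + 1)) : Ry K) = Hs (fun k => -cX K k) (n + 1) := by
      have h := Hs_map (C : Lam K →+* Ry K) (fun i => -(X i : Lam K)) (n + 1)
      rw [Ep, h]
      congr 1
      funext k
      rw [map_neg]; rfl
    rw [h6]
    simp only [map_pow]
    ring

end Pool.VD.CV
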