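import Pool.Agent.VD.CV1

/-!
# MP_cf06d4_co, block C, V half (helper44), part 2: powers of `d_-` on X-free series, three weighted sums
-/

set_option autoImplicit false
set_option linter.unusedSectionVars false

namespace Pool.VD.CV

open MvPolynomial Finset Pool.VD.CM

variable {K : Type} [Field K] [CharZero K]

/-! ### arithmetic of q-Pochhammer sums -/

/-- `(x;q)_n` -/
def qpp (q x : K) (n : ℕ) : K := ∏ i ∈ range n, (1 - x * q ^ i)

theorem qpp_zero (q x : K) : qpp q x 0 = 1 := by simp [qpp]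

theorem qpp_succ (q x : K) (n : ℕ) : qpp q x (n + 1) = qpp q x n * (1 - x * q ^ n) := by
  rw [qpp, qpp, prod_range_succ]

theorem qpp_succ' (q x : K) (n : ℕ) : qpp q x (n + 1) = (1 - x) * qpp q (x * q) n := by
  rw [qpp, qpp, prod_range_succ', pow_zero, mul_one, mul_comm]
  congr 1
  refine prod_congr rfl fun i _ => ?_
  rw [pow_succ']; ring

theorem qpp_vanish (p q : K) (h : p * q = 1) (k n : ℕ) (hn : k < n) : qpp q (p ^ k) n = 0 := by
  rw [qpp]
  refine prod_eq_zero (mem_range.2 hn) ?_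
  rw [← mul_pow, h, one_pow, sub_self]

/-- `∏_(i<j) (1 - p^(k-j+i+1)) = (p^k; q)_j` for `j ≤ k` -/
theorem prod_eq_qpp (p q : K) (h : p * q = 1) (k j : ℕ) (hj : j ≤ k) :
    ∏ i ∈ range j, (1 - p ^ (k - j + i + 1)) = qpp q (p ^ k) j := by
  rw [qpp, ← prod_range_reflect]
  refine prod_congr rfl fun i hi => ?_
  have hi' := mem_range.1 hi
  have e : k - j + (j - 1 - i) + 1 + i = k := by omega
  have h1 : p ^ (k - j + (j - 1 - i) + 1) = p ^ k * q ^ i := by
    have h2 : p ^ k = p ^ (k - j + (j - 1 - i) + 1) * p ^ i := by rw [← pow_add, e]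
    rw [h2, mul_assoc, ← mul_pow, h, one_pow, mul_one]
  rw [h1]

theorem qfac_succ (q : K) (n : ℕ) : qfac q (n + 1) = qfac q n * (1 - q ^ (n + 1)) := by
  rw [qfac, qfac, prod_range_succ]

theorem qfac_ne (q : K) (hq : ∀ k : ℕ, q ^ (k + 1) ≠ 1) (n : ℕ) : qfac q n ≠ 0 := by
  rw [qfac]
  exact prod_ne_zero_iff.2 fun i _ => sub_ne_zero.2 (Ne.symm (hq i))

theorem sum_tail_partial (q x : K) (hq : ∀ k : ℕ, q ^ (k + 1) ≠ 1) (M : ℕ) :
    ∑ j ∈ range (M + 1), q ^ j / qfac q j * qpp q x j = qpp q (x * q) M / qfac q M := by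
  induction M with
  | zero => simp [qpp_zero, qfac]
  | succ M ih =>
    rw [sum_range_succ, ih, qpp_succ' q x M, qfac_succ, qpp_succ q (x * q) M]
    have h1 := qfac_ne q hq M
    have h2 : 1 - q ^ (M + 1) ≠ 0 := sub_ne_zero.2 (Ne.symm (hq M))
    field_simp
    ring

/-- `∑_(j ≤ k) q^j/(q;q)_j (p^k;q)_j = δ_(k,0)` -/
theorem sum_tail (p q : K) (h : p * q = 1) (hq : ∀ k : ℕ, q ^ (k + 1) ≠ 1) (k : ℕ) :
    ∑ j ∈ range (k + 1), q ^ j / qfac q j * qpp q (p ^ k) j = if k = 0 then 1 else 0 := by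
  rw [sum_tail_partial q _ hq]
  cases k with
  | zero => simp [qpp_zero, qfac]
  | succ k =>
    rw [if_neg (Nat.succ_ne_zero k)]
    have h1 : p ^ (k + 1) * q = p ^ k := by rw [pow_succ, mul_assoc, h, mul_one]
    rw [h1, qpp_vanish p q h k (k + 1) (Nat.lt_succ_self k), zero_div]

theorem sum_geo_partial (q x : K) (M : ℕ) :
    x * ∑ j ∈ range M, q ^ j * qpp q x j = 1 - qpp q x M := by
  induction M with
  | zero => simp [qpp_zero]
  | succ M ih => rw [sum_range_succ, mul_add, ih, qpp_succ]; ring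

/-- `∑_(j ≤ k) q^j (p^k;q)_j = q^k` -/
theorem sum_geo (p q : K) (h : p * q = 1) (k : ℕ) :
    ∑ j ∈ range (k + 1), q ^ j * qpp q (p ^ k) j = q ^ k := by
  have h1 := sum_geo_partial q (p ^ k) (k + 1)
  rw [qpp_vanish p q h k (k + 1) (Nat.lt_succ_self k), sub_zero] at h1
  have h2 : q ^ k * p ^ k = 1 := by rw [← mul_pow, mul_comm, h, one_pow]
  calc ∑ j ∈ range (k + 1), q ^ j * qpp q (p ^ k) j
      = q ^ k * (p ^ k * ∑ j ∈ range (k + 1), q ^ j * qpp q (p ^ k) j) := by rw [← mul_assoc, h2, one_mul]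
    _ = q ^ k := by rw [h1, mul_one]

theorem sum_log_diff (q x : K) (hq : ∀ k : ℕ, q ^ (k + 1) ≠ 1) (M : ℕ) :
    ∑ j ∈ range M, q ^ (j + 1) * qpp q x (j + 1) / (1 - q ^ (j + 1)) =
      ∑ j ∈ range M, q ^ (j + 1) * qpp q (x * q) (j + 1) / (1 - q ^ (j + 1)) - (1 - qpp q (x * q) M) := by
  have h1 := sum_geo_partial q (x * q) M
  rw [← h1, mul_sum, ← sum_sub_distrib]
  refine sum_congr rfl fun j _ => ?_
  have h2 : 1 - q ^ (j + 1) ≠ 0 := sub_ne_zero.2 (Ne.symm (hq j))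
  rw [qpp_succ' q x j, qpp_succ q (x * q) j]
  field_simp
  ring

/-- `∑_(1 ≤ j ≤ k) q^j (p^k;q)_j/(1-q^j) = -k` -/
theorem sum_log (p q : K) (h : p * q = 1) (hq : ∀ k : ℕ, q ^ (k + 1) ≠ 1) (k : ℕ) :
    ∑ j ∈ range k, q ^ (j + 1) * qpp q (p ^ k) (j + 1) / (1 - q ^ (j + 1)) = -(k : K) := by
  induction k with
  | zero => simp
  | succ k ih =>
    rw [sum_log_diff q _ hq]
    have h1 : p ^ (k + 1) * q = p ^ k := by rw [pow_succ, mul_assoc, h, mul_one]
    rw [h1, sum_range_succ, ih, qpp_vanish p q h k (k + 1) (Nat.lt_succ_self k)]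
    push_cast
    ring

/-! ### `d_-^j` of `∏_(i<j) 1/(1 - w y_i)` -/

theorem io_gY (p : K) (hp : ∀ k : ℕ, p ^ (k + 1) ≠ 1) (i : ℕ) :
    io p (gY p i) = gY p i - X 0 ^ (i + 1) := by
  have h : (1 - p ^ (i + 1)) ≠ 0 := sub_ne_zero.2 (Ne.symm (hp i))
  have h2 : (C (C ((1 - p ^ (i + 1))⁻¹)) * C (C (p ^ (i + 1) - 1)) : Ry K) = -1 := by
    rw [← map_mul, ← map_mul]
    have h3 : (1 - p ^ (i + 1))⁻¹ * (p ^ (i + 1) - 1) = -1 := by field_simp; ring
    rw [h3, map_neg, map_neg, map_one, map_one]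
  rw [gY, map_mul, io_CC, io_p]
  linear_combination (X 0 : Ry K) ^ (i + 1) * h2

theorem yX_one (j i : ℕ) : yX (1 : K) j i = X j ^ (i + 1) := by
  rw [yX, map_one, map_one, one_mul]

/-- `z d_-(1/(1 - z y_0)) = 1 - Exp[-zX]` -/
theorem X_dmS_y (p : K) : (PowerSeries.X : SR K) * dmS p (HS (yX 1 0)) = 1 - HS (-cX K) := by
  have h := dmS_yX p (1 : K)
  have h2 : (fun i => (C (C (1 : K)) : Ry K) ^ (i + 1) * -cX K i) = -cX K := by
    funext i
    rw [map_one, map_one, one_pow, one_mul]; rfl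
  rw [h2, map_one, map_one, map_one, mul_one] at h
  exact h

theorem cX_eq (p : K) (hp : ∀ k : ℕ, p ^ (k + 1) ≠ 1) (i : ℕ) :
    cX K i = gY p i - (C (C p) : Ry K) ^ (i + 1) * gY p i := by
  have h : (1 - p ^ (i + 1)) ≠ 0 := sub_ne_zero.2 (Ne.symm (hp i))
  have h2 : (C (C (1 - p ^ (i + 1))) * C (C ((1 - p ^ (i + 1))⁻¹)) : Ry K) = 1 := by
    rw [← map_mul, ← map_mul, mul_inv_cancel₀ h, map_one, map_one]
  have h3 : (C (C (1 - p ^ (i + 1))) : Ry K) = 1 - C (C p) ^ (i + 1) := by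
    simp only [map_sub, map_one, map_pow]
  rw [h3] at h2
  rw [cX, gY]
  linear_combination (-(C (X i) : Ry K)) * h2

/-- `d_- h_k[X/(1-p)] = (1 - p^(k+1)) h_(k+1)[X/(1-p)]` -/
theorem dmi_gY (p : K) (hp : ∀ k : ℕ, p ^ (k + 1) ≠ 1) (k : ℕ) :
    dmi p (Hs (gY p) k) = C (C (1 - p ^ (k + 1))) * Hs (gY p) (k + 1) := by
  have h1 : HS (gY p) = ioS p (HS (gY p)) * HS (yX 1 0) := by
    rw [ioS_HS, ← HS_add]
    congr 1
    funext i
    rw [Pi.add_apply, io_gY p hp, yX_one, sub_add_cancel]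
  have h2 : (PowerSeries.X : SR K) * dmS p (HS (gY p)) =
      HS (gY p) - HS (fun i => (C (C p) : Ry K) ^ (i + 1) * gY p i) := by
    rw [h1, dmS_io_mul, ← h1, mul_left_comm, X_dmS_y, mul_sub, mul_one, ← HS_add]
    congr 2
    funext i
    rw [Pi.add_apply, Pi.neg_apply, cX_eq p hp]
    ring
  have h3 := congrArg (PowerSeries.coeff (k + 1)) h2
  rw [PowerSeries.coeff_succ_X_mul, coeff_dmS, coeff_HS, map_sub, coeff_HS, coeff_HS, Hs_scale] at h3
  rw [h3]
  simp only [map_sub, map_one, map_pow]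
  ring

/-- the factor `∏_(i<j) (1 - p^(k+i+1)) h_(k+j)[X/(1-p)]`, as a series in `k` -/
noncomputable def Gm (p : K) (j : ℕ) : SR K :=
  PowerSeries.mk fun k => C (C (∏ i ∈ range j, (1 - p ^ (k + i + 1)))) * Hs (gY p) (k + j)

/-- `d_-^j ∏_(i<j) 1/(1 - w y_i)` -/
noncomputable def GG (p : K) (j : ℕ) : SR K := (dmS p ^ j) (HS (yR K 0 j))

theorem yR_succ (a r : ℕ) : yR K a (r + 1) = yR K a r + yX 1 (a + r) := by
  funext i
  rw [Pi.add_apply, yX_one, yR, yR, sum_range_succ]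

theorem yR_succ' (a r : ℕ) : yR K a (r + 1) = yX 1 a + yR K (a + 1) r := by
  funext i
  rw [Pi.add_apply, yX_one, yR, yR, sum_range_succ', add_zero, add_comm]
  congr 1
  refine sum_congr rfl fun l _ => ?_
  rw [add_right_comm, add_assoc]

theorem yR_zero (a : ℕ) : yR K a 0 = 0 := by
  funext i
  rw [yR, sum_range_zero]; rfl

theorem ioS_yX (p : K) (j : ℕ) : ioS p (HS (yX (1 : K) j)) = HS (yX 1 (j + 1)) := by
  rw [ioS_HS]
  congr 1
  funext i
  rw [yX_one, yX_one, map_pow, io_X]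

theorem ioS_iter_yX (p : K) (j a : ℕ) : (ioS p)^[j] (HS (yX (1 : K) a)) = HS (yX 1 (a + j)) := by
  induction j with
  | zero => rfl
  | succ j ih => rw [Function.iterate_succ_apply', ih, ioS_yX]; rfl

theorem ioS_yR (p : K) (a r : ℕ) : ioS p (HS (yR K a r)) = HS (yR K (a + 1) r) := by
  rw [ioS_HS]
  congr 1
  funext i
  rw [yR, yR, map_sum]
  refine sum_congr rfl fun l _ => ?_
  rw [map_pow, io_X, add_right_comm]

theorem ioS_iter_yR (p : K) (j a r : ℕ) : (ioS p)^[j] (HS (yR K a r)) = HS (yR K (a + j) r) := by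
  induction j with
  | zero => rfl
  | succ j ih => rw [Function.iterate_succ_apply', ih, ioS_yR]; rfl

/-- one more variable -/
theorem dmS_pow_yR_succ (p : K) (j : ℕ) :
    (dmS p ^ j) (HS (yR K 0 (j + 1))) = HS (yX 1 0) * GG p j := by
  rw [yR_succ, HS_add, mul_comm (HS (yR K 0 j))]
  have h := ioS_iter_yX (K := K) p j 0
  rw [← h, dmS_pow_io_mul]
  rfl

theorem GG_succ (p : K) (j : ℕ) : GG p (j + 1) = dmS p (HS (yX 1 0) * GG p j) := by
  rw [← dmS_pow_yR_succ, GG, pow_succ', Module.End.mul_apply]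

theorem ioS_neg_gY (p : K) (hp : ∀ k : ℕ, p ^ (k + 1) ≠ 1) :
    HS (yX 1 0) * HS (-gY p) = ioS p (HS (-gY p)) := by
  rw [ioS_HS, ← HS_add]
  congr 1
  funext i
  rw [Pi.add_apply, Pi.neg_apply, map_neg, io_gY p hp, yX_one]
  ring

theorem dmS_Gm (p : K) (hp : ∀ k : ℕ, p ^ (k + 1) ≠ 1) (j : ℕ) : dmS p (Gm p j) = Gm p (j + 1) := by
  ext1 k
  rw [coeff_dmS, Gm, Gm, PowerSeries.coeff_mk, PowerSeries.coeff_mk, dmi_CC_mul, dmi_gY p hp, prod_range_succ,
    map_mul, map_mul, mul_assoc]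
  rfl

/-- the closed formula -/
theorem GG_eq (p : K) (hp : ∀ k : ℕ, p ^ (k + 1) ≠ 1) (j : ℕ) : GG p j = HS (-gY p) * Gm p j := by
  induction j with
  | zero =>
    have h : Gm p 0 = HS (gY p) := by
      ext1 k
      rw [Gm, PowerSeries.coeff_mk, coeff_HS, prod_range_zero, map_one, map_one, one_mul]; rfl
    rw [h, HS_neg_mul, GG, yR_zero, HS_zero_seq]; rfl
  | succ j ih => rw [GG_succ, ih, ← mul_assoc, ioS_neg_gY p hp, dmS_io_mul, dmS_Gm p hp]

/-- weighted sums of the `GG` -/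
theorem sum_w (p q : K) (h : p * q = 1) (B : SR K) (w : ℕ → K) (n : ℕ) :
    ∑ j ∈ range (n + 1), C (C (w j)) * PowerSeries.coeff (n - j) (B * Gm p j) =
      ∑ k ∈ range (n + 1), C (C (∑ j ∈ range (k + 1), w j * qpp q (p ^ k) j)) *
        (PowerSeries.coeff (n - k) B * Hs (gY p) k) := by
  have h1 : ∀ j ∈ range (n + 1), C (C (w j)) * PowerSeries.coeff (n - j) (B * Gm p j) =
      ∑ k ∈ range (n + 1 - j), C (C (w j)) * (C (C (∏ i ∈ range j, (1 - p ^ (k + i + 1)))) *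
        (PowerSeries.coeff (n - (k + j)) B * Hs (gY p) (k + j))) := by
    intro j hj
    have hj' := mem_range.1 hj
    rw [mul_comm B, PowerSeries.coeff_mul, Finset.Nat.sum_antidiagonal_eq_sum_range_succ_mk, mul_sum]
    have e : n + 1 - j = (n - j).succ := by omega
    rw [e]
    refine sum_congr rfl fun k hk => ?_
    have hk' := mem_range.1 hk
    have e2 : n - j - k = n - (k + j) := by omega
    simp only [Gm, PowerSeries.coeff_mk]
    rw [e2]
    ring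
  rw [sum_congr rfl h1, ← Finset.sum_range_diag_flip (n + 1) (fun j k => C (C (w j)) *
    (C (C (∏ i ∈ range j, (1 - p ^ (k + i + 1)))) *
      (PowerSeries.coeff (n - (k + j)) B * Hs (gY p) (k + j))))]
  refine sum_congr rfl fun k _ => ?_
  rw [map_sum, map_sum, sum_mul]
  refine sum_congr rfl fun j hj => ?_
  have hj' := mem_range.1 hj
  have e : k - j + j = k := by omega
  rw [e, prod_eq_qpp p q h k j (by omega), map_mul, map_mul]
  ring

/-- (TAIL) -/
theorem tail (p q : K) (h : p * q = 1) (hq : ∀ k : ℕ, q ^ (k + 1) ≠ 1) (hp : ∀ k : ℕ, p ^ (k + 1) ≠ 1)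
    (B : SR K) (n : ℕ) :
    ∑ j ∈ range (n + 1), C (C (q ^ j / qfac q j)) * PowerSeries.coeff (n - j) (B * GG p j) =
      PowerSeries.coeff n (B * HS (-gY p)) := by
  have h1 : ∀ j ∈ range (n + 1), C (C (q ^ j / qfac q j)) * PowerSeries.coeff (n - j) (B * GG p j) =
      C (C (q ^ j / qfac q j)) * PowerSeries.coeff (n - j) ((B * HS (-gY p)) * Gm p j) := by
    intro j _
    rw [GG_eq p hp, mul_assoc]
  rw [sum_congr rfl h1, sum_w p q h (B * HS (-gY p)) (fun j => q ^ j / qfac q j) n,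
    sum_range_succ', sum_eq_zero, zero_add]
  · rw [sum_tail p q h hq, if_pos rfl, map_one, map_one, one_mul, Hs_zero, mul_one]
    rfl
  · intro k _
    rw [sum_tail p q h hq, if_neg (Nat.succ_ne_zero k), map_zero, map_zero, zero_mul]

/-- the geometric sum -/
theorem geo (p q : K) (h : p * q = 1) (hp : ∀ k : ℕ, p ^ (k + 1) ≠ 1) (n : ℕ) :
    ∑ j ∈ range (n + 1), C (C (p ^ (n - j))) * (dmi p ^ j) (Hs (yR K 0 (j + 1)) (n - j)) =
      Hs (cX K + yX p 0) n := by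
  have h1 : ∀ j ∈ range (n + 1), C (C (p ^ (n - j))) * (dmi p ^ j) (Hs (yR K 0 (j + 1)) (n - j)) =
      C (C (p ^ n)) * (C (C (q ^ j)) *
        PowerSeries.coeff (n - j) ((HS (yX 1 0) * HS (-gY p)) * Gm p j)) := by
    intro j hj
    have hj' := mem_range.1 hj
    have h2 : (dmi p ^ j) (Hs (yR K 0 (j + 1)) (n - j)) =
        PowerSeries.coeff (n - j) ((HS (yX 1 0) * HS (-gY p)) * Gm p j) := by
      rw [mul_assoc, ← GG_eq p hp, ← dmS_pow_yR_succ, dmS, ← LS_pow, coeff_LS, coeff_HS]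
    have h3 : p ^ (n - j) = p ^ n * q ^ j := by
      have e : n - j + j = n := by omega
      have h4 : p ^ n = p ^ (n - j) * p ^ j := by rw [← pow_add, e]
      rw [h4, mul_assoc, ← mul_pow, h, one_pow, mul_one]
    rw [h2, h3, map_mul, map_mul, mul_assoc]
  rw [sum_congr rfl h1, ← mul_sum, sum_w p q h _ (fun j => q ^ j) n]
  have h5 : ∀ k ∈ range (n + 1), C (C (∑ j ∈ range (k + 1), q ^ j * qpp q (p ^ k) j)) *
        (PowerSeries.coeff (n - k) (HS (yX 1 0) * HS (-gY p)) * Hs (gY p) k : Ry K) =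
      C (C (q ^ k)) * (PowerSeries.coeff (n - k) (HS (yX 1 0) * HS (-gY p)) * Hs (gY p) k) := by
    intro k _
    rw [sum_geo p q h]
  rw [sum_congr rfl h5]
  have h6 : cX K + yX p 0 = gY p + (fun i => (C (C p) : Ry K) ^ (i + 1) * (yX (1 : K) 0 + -gY p : ℕ → Ry K) i) := by
    funext i
    rw [Pi.add_apply, Pi.add_apply, Pi.add_apply, Pi.neg_apply, cX_eq p hp, yX_one, yX, mul_pow]
    ring
  rw [h6, Hs_add', mul_sum]
  refine sum_congr rfl fun k hk => ?_
  have hk' := mem_range.1 hk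
  rw [Hs_scale, ← HS_add, coeff_HS]
  have h7 : (C (C (p ^ n)) * C (C (q ^ k)) : Ry K) = C (C p) ^ (n - k) := by
    rw [← map_mul, ← map_mul, ← map_pow, ← map_pow]
    have e : n - k + k = n := by omega
    have h4 : p ^ n = p ^ (n - k) * p ^ k := by rw [← pow_add, e]
    rw [h4, mul_assoc, ← mul_pow, h, one_pow, mul_one]
  rw [← h7]
  ring

end Pool.VD.CV
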