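import Pool.Agent.VD.CV2

/-!
# MP_cf06d4_co, block C, V half (helper44), part 3: the operators `w_b` and `AA` on the tail series
(`p = 1/q`, `u = 1/t`, `c = (q-1)⁻¹`)
-/

set_option autoImplicit false
set_option linter.unusedSectionVars false

namespace Pool.VD.CV

open MvPolynomial Finset Pool.VD.CM

variable {K : Type} [Field K] [CharZero K]

/-- the series `∑ z^j h_j[(X + (p-1)(y_0 + … + y_(r-1)))/((1-p)(1-u))]` -/
noncomputable def AS (p u : K) (r : ℕ) : SR K := HS (aR p u r)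

theorem io_aR (p u : K) (r i : ℕ) : io p (aR p u r i) = aR p u (r + 1) i := by
  have h : ∀ l ∈ range r, io p ((X l : Ry K) ^ (i + 1)) = X (l + 1) ^ (i + 1) := by
    intro l _
    rw [map_pow, io_X]
  have h2 : io p (∑ l ∈ range r, (X l : Ry K) ^ (i + 1)) = ∑ l ∈ range r, (X (l + 1) : Ry K) ^ (i + 1) := by
    rw [map_sum, sum_congr rfl h]
  have h3 : ∑ l ∈ range (r + 1), (X l : Ry K) ^ (i + 1) =
      ∑ l ∈ range r, (X (l + 1) : Ry K) ^ (i + 1) + X 0 ^ (i + 1) := sum_range_succ' _ _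
  have h4 : io p (aR p u r i) = C (C ((Mk p u (i + 1))⁻¹)) * (io p (C (X i)) +
      C (C (p ^ (i + 1) - 1)) * io p (∑ l ∈ range r, (X l : Ry K) ^ (i + 1))) := by
    rw [aR, map_mul (io p), map_add (io p), map_mul (io p), io_CC, io_CC]
  rw [h4, h2, io_p, aR, h3]
  generalize (∑ l ∈ range r, (X (l + 1) : Ry K) ^ (i + 1)) = S
  ring

theorem ioS_AS (p u : K) (r : ℕ) : ioS p (AS p u r) = AS p u (r + 1) := by
  rw [AS, AS, ioS_HS]
  congr 1
  funext i
  exact io_aR p u r i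

theorem ioS_iter_AS (p u : K) (b r : ℕ) : (ioS p)^[b] (AS p u r) = AS p u (r + b) := by
  induction b with
  | zero => rfl
  | succ b ih => rw [Function.iterate_succ_apply', ih, ioS_AS]; rfl

theorem sg_aR (p u : K) (hM : ∀ i, Mk p u (i + 1) ≠ 0) (r i : ℕ) :
    sg p u r (aR p u r i) = aR p u (r + 1) i + X r ^ (i + 1) := by
  have h : ∀ l ∈ range r, sg p u r ((X l : Ry K) ^ (i + 1)) = X l ^ (i + 1) := by
    intro l hl
    rw [map_pow, sg_X_lt p u (mem_range.1 hl)]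
  have h2 : (C (C ((Mk p u (i + 1))⁻¹)) * C (C (Mk p u (i + 1))) : Ry K) = 1 := by
    rw [← map_mul, ← map_mul, inv_mul_cancel₀ (hM i), map_one, map_one]
  have h3 : (C (C (Mk p u (i + 1))) : Ry K) =
      C (C ((p ^ (i + 1) - 1) * u ^ (i + 1))) - C (C (p ^ (i + 1) - 1)) := by
    rw [Mk, ← map_sub, ← map_sub]
    congr 2
    ring
  have h4 : sg p u r (aR p u r i) = C (C ((Mk p u (i + 1))⁻¹)) * (sg p u r (C (X i)) +
      C (C (p ^ (i + 1) - 1)) * ∑ l ∈ range r, (X l : Ry K) ^ (i + 1)) := by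
    rw [aR, map_mul (sg p u r), map_add (sg p u r), map_mul (sg p u r), sg_CC, sg_CC, map_sum,
      sum_congr rfl h]
  rw [h4, sg_p, aR, sum_range_succ]
  rw [h3] at h2
  generalize (∑ l ∈ range r, (X l : Ry K) ^ (i + 1)) = S
  linear_combination (X r : Ry K) ^ (i + 1) * h2

theorem sgS_AS (p u : K) (hM : ∀ i, Mk p u (i + 1) ≠ 0) (r : ℕ) :
    sgS p u r (AS p u r) = AS p u (r + 1) * HS (yX 1 r) := by
  rw [AS, AS, sgS_HS, ← HS_add]
  congr 1
  funext i
  rw [Pi.add_apply, sg_aR p u hM, yX_one]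

/-- `P` is fixed by all `sg k`, `k ≥ m` -/
def Fx (p u : K) (m : ℕ) (P : SR K) : Prop := ∀ k, m ≤ k → sgS p u k P = P

theorem Fx.mul {p u : K} {m : ℕ} {P Q : SR K} (hP : Fx p u m P) (hQ : Fx p u m Q) : Fx p u m (P * Q) := by
  intro k hk
  rw [sgS_mul, hP k hk, hQ k hk]

theorem Fx.mono {p u : K} {m n : ℕ} {P : SR K} (hP : Fx p u m P) (h : m ≤ n) : Fx p u n P :=
  fun k hk => hP k (h.trans hk)

theorem Fx.io {p u : K} {m : ℕ} {P : SR K} (hP : Fx p u m P) : Fx p u (m + 1) (ioS p P) := by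
  intro k hk
  obtain ⟨k, rfl⟩ : ∃ j, k = j + 1 := ⟨k - 1, by omega⟩
  rw [sgS_io, hP k (by omega)]

theorem Fx.io_iter {p u : K} {m : ℕ} {P : SR K} (hP : Fx p u m P) (b : ℕ) : Fx p u (m + b) ((ioS p)^[b] P) := by
  induction b with
  | zero => exact hP
  | succ b ih => rw [Function.iterate_succ_apply']; exact ih.io

theorem sgS_C (p u : K) (k : ℕ) (F : Ry K) : sgS p u k (PowerSeries.C F) = PowerSeries.C (sg p u k F) := by
  rw [sgS_eq, PowerSeries.map_C]; rfl

theorem ioS_C (p : K) (F : Ry K) : ioS p (PowerSeries.C F) = PowerSeries.C (io p F) := by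
  rw [ioS, PowerSeries.map_C]; rfl

theorem ioS_iter_C (p : K) (b : ℕ) (F : Ry K) :
    (ioS p)^[b] (PowerSeries.C F) = PowerSeries.C ((io p)^[b] F) := by
  induction b with
  | zero => rfl
  | succ b ih => rw [Function.iterate_succ_apply', ih, ioS_C, Function.iterate_succ_apply']

theorem ioS_iter_mul (p : K) (b : ℕ) (F G : SR K) :
    (ioS p)^[b] (F * G) = (ioS p)^[b] F * (ioS p)^[b] G := by
  induction b with
  | zero => rfl
  | succ b ih => rw [Function.iterate_succ_apply', ih, map_mul, Function.iterate_succ_apply',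
      Function.iterate_succ_apply']

theorem dmS_C (p : K) (F : Ry K) : dmS p (PowerSeries.C F) = PowerSeries.C (dmi p F) := by
  ext1 n
  rw [coeff_dmS, PowerSeries.coeff_C, PowerSeries.coeff_C]
  split_ifs
  · rfl
  · exact map_zero _

theorem dmS_pow_C (p : K) (m : ℕ) (F : Ry K) :
    (dmS p ^ m) (PowerSeries.C F) = PowerSeries.C ((dmi p ^ m) F) := by
  induction m generalizing F with
  | zero => rfl
  | succ m ih =>
    rw [pow_succ, Module.End.mul_apply, dmS_C, ih]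
    rfl

theorem sg_yR (p u : K) (a r k i : ℕ) (h : a + r ≤ k) : sg p u k (yR K a r i) = yR K a r i := by
  rw [yR, map_sum]
  refine sum_congr rfl fun l hl => ?_
  rw [map_pow, sg_X_lt p u (by have := mem_range.1 hl; omega)]

theorem Fx_yR (p u : K) (a r : ℕ) : Fx p u (a + r) (HS (yR K a r)) := by
  intro k hk
  rw [sgS_HS]
  congr 1
  funext i
  exact sg_yR p u a r k i hk

theorem Fx_yX (p u : K) (a : ℕ) : Fx p u (a + 1) (HS (yX (1 : K) a)) := by
  intro k hk
  rw [sgS_HS]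
  congr 1
  funext i
  rw [yX_one, map_pow, sg_X_lt p u (by omega)]

theorem Fx_C_Hs (p u : K) (a r n : ℕ) : Fx p u (a + r) (PowerSeries.C (Hs (yR K a r) n)) := by
  intro k hk
  rw [sgS_C]
  congr 1
  have h := Hs_map (((sg p u k : Ry K →ₐ[K] Ry K) : Ry K →+* Ry K)) (yR K a r) n
  have h2 : (fun i => ((sg p u k : Ry K →ₐ[K] Ry K) : Ry K →+* Ry K) (yR K a r i)) = yR K a r := by
    funext i
    exact sg_yR p u a r k i hk
  rw [h2] at h
  exact h

theorem Fx_C_mul_X_pow (p u c : K) (a n : ℕ) : Fx p u (a + 1) (PowerSeries.C ((C (C c) * X a : Ry K) ^ n)) := by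
  intro k hk
  rw [sgS_C, map_pow, map_mul, sg_CC, sg_X_lt p u (by omega)]

theorem Fx_CC (p u c : K) (m : ℕ) : Fx p u m (PowerSeries.C (C (C c) : Ry K)) := by
  intro k _
  rw [sgS_C, sg_CC]

/-! ### the commutator `C` -/

theorem Hs_io (p : K) (a : ℕ → Ry K) (n : ℕ) : io p (Hs a n) = Hs (fun i => io p (a i)) n := by
  have h := Hs_map (((io p : Ry K →ₐ[K] Ry K) : Ry K →+* Ry K)) a n
  exact h

theorem Hs_sg (p u : K) (k : ℕ) (a : ℕ → Ry K) (n : ℕ) : sg p u k (Hs a n) = Hs (fun i => sg p u k (a i)) n := by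
  have h := Hs_map (((sg p u k : Ry K →ₐ[K] Ry K) : Ry K →+* Ry K)) a n
  exact h

/-- `h_n[X + p y_0]` -/
noncomputable def W1 (p : K) (n : ℕ) : Ry K := Hs (cX K + yX p 0) n

/-- alphabet `(p-1) u y_s` -/
noncomputable def vX (p u : K) (s : ℕ) : ℕ → Ry K := fun i => C (C ((p ^ (i + 1) - 1) * u ^ (i + 1))) * X s ^ (i + 1)

theorem io_cX_y (p : K) : HS (cX K + yX p 0) = ioS p (HS (cX K)) * HS (yX 1 0) := by
  rw [ioS_HS, ← HS_add]
  congr 1
  funext i
  rw [Pi.add_apply, Pi.add_apply, yX_one, cX, io_p, yX]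
  simp only [map_sub, map_one, map_pow, mul_pow]
  ring

theorem dmi_W1 (p : K) (n : ℕ) : dmi p (W1 p n) = Hs (cX K) (n + 1) := by
  have h2 : (PowerSeries.X : SR K) * dmS p (HS (cX K + yX p 0)) = HS (cX K) - 1 := by
    rw [io_cX_y, dmS_io_mul, mul_left_comm, X_dmS_y, mul_sub, mul_one, HS_mul_neg]
  have h3 := congrArg (PowerSeries.coeff (n + 1)) h2
  rw [PowerSeries.coeff_succ_X_mul, coeff_dmS, coeff_HS, map_sub, coeff_HS, PowerSeries.coeff_one,
    if_neg (Nat.succ_ne_zero n), sub_zero] at h3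
  exact h3

theorem sg_cX (p u : K) (s i : ℕ) : sg p u s (cX K i) = cX K i + vX p u s i := by
  rw [cX, sg_p, vX]

theorem io_vX (p u : K) (s i : ℕ) : io p (vX p u s i) = vX p u (s + 1) i := by
  rw [vX, vX, map_mul, io_CC, map_pow, io_X]

/-- `d_- sg_(s+1) h_n[X + p y_0] = h_(n+1)[X + (p-1) u y_s] - h_(n+1)[(p-1) u y_s]` -/
theorem dmi_sg_W1 (p u : K) (s n : ℕ) : dmi p (sg p u (s + 1) (W1 p n)) =
    Hs (cX K + vX p u s) (n + 1) - Hs (vX p u s) (n + 1) := by
  have h1 : sg p u (s + 1) (W1 p n) = PowerSeries.coeff n (ioS p (HS (vX p u s)) * HS (cX K + yX p 0)) := by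
    rw [ioS_HS, ← HS_add, coeff_HS, W1, Hs_sg]
    congr 1
    funext i
    rw [Pi.add_apply, Pi.add_apply, Pi.add_apply, map_add, sg_cX, yX, map_pow, map_mul, sg_CC,
      sg_X_lt p u (Nat.succ_pos s), io_vX]
    ring
  have h2 : (PowerSeries.X : SR K) * dmS p (ioS p (HS (vX p u s)) * HS (cX K + yX p 0)) =
      HS (cX K + vX p u s) - HS (vX p u s) := by
    have h3 : (PowerSeries.X : SR K) * dmS p (HS (cX K + yX p 0)) = HS (cX K) - 1 := by
      rw [io_cX_y, dmS_io_mul, mul_left_comm, X_dmS_y, mul_sub, mul_one, HS_mul_neg]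
    rw [dmS_io_mul, mul_left_comm, h3, mul_sub, mul_one, HS_add]
    ring
  have h4 := congrArg (PowerSeries.coeff (n + 1)) h2
  rw [PowerSeries.coeff_succ_X_mul, coeff_dmS, ← h1, map_sub, coeff_HS, coeff_HS] at h4
  exact h4

theorem Hs_vX (p u : K) (s n : ℕ) : Hs (vX p u s) (n + 1) = (C (C u) * X s : Ry K) ^ (n + 1) * C (C ((p - 1) * p ^ n)) := by
  have h1 : vX p u s = fun i => (C (C u) * X s : Ry K) ^ (i + 1) * C (C (p ^ (i + 1) - 1)) := by
    funext i
    rw [vX]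
    simp only [map_mul, map_pow, mul_pow]
    ring
  rw [h1, Hs_scale]
  congr 1
  have h4 := Hs_map ((C : Lam K →+* Ry K).comp (C : K →+* Lam K)) (fun k => p ^ (k + 1) - 1) (n + 1)
  rw [Hs_kb] at h4
  exact h4.symm

/-- the commutator on `A_(s+1) * io P * h_n[X + p y_0]` -/
theorem CC_step (p u : K) (hM : ∀ i, Mk p u (i + 1) ≠ 0) (s n : ℕ) (P : SR K) (hP : Fx p u s P) :
    CCk (dmS p) (sgS p u) s (AS p u (s + 1) * ioS p P * PowerSeries.C (W1 p n)) =
      AS p u (s + 1) * HS (yX 1 s) * P *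
        PowerSeries.C (-((C (C u) * X s : Ry K) ^ (n + 1) * C (C ((p - 1) * p ^ n)))) := by
  have h1 : dmS p (AS p u (s + 1) * ioS p P * PowerSeries.C (W1 p n)) =
      AS p u s * P * PowerSeries.C (Hs (cX K) (n + 1)) := by
    rw [← ioS_AS, ← map_mul, dmS_io_mul, dmS_C, dmi_W1]
  have h2 : sgS p u s (AS p u s * P * PowerSeries.C (Hs (cX K) (n + 1))) =
      AS p u (s + 1) * HS (yX 1 s) * P * PowerSeries.C (Hs (cX K + vX p u s) (n + 1)) := by
    rw [sgS_mul, sgS_mul, sgS_AS p u hM, hP s le_rfl, sgS_C, Hs_sg]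
    congr 3
    funext i
    exact sg_cX p u s i
  have h3 : sgS p u (s + 1) (AS p u (s + 1) * ioS p P * PowerSeries.C (W1 p n)) =
      ioS p (AS p u (s + 1) * HS (yX 1 s) * P) * PowerSeries.C (sg p u (s + 1) (W1 p n)) := by
    rw [sgS_mul, sgS_mul, sgS_AS p u hM, sgS_io, hP s le_rfl, sgS_C, map_mul, map_mul, ioS_AS, ioS_yX]
  rw [CCk, LinearMap.sub_apply, Module.End.mul_apply, Module.End.mul_apply, h1, h2, h3, dmS_io_mul, dmS_C,
    dmi_sg_W1, ← mul_sub, ← map_sub, sub_sub_cancel_left, Hs_vX]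

end Pool.VD.CV
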