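import Pool.Agent.VD.CV3

/-!
# MP_cf06d4_co, block C, V half (helper44), part 4: the sums of the `w_b` and of the `AA r k m` on the tail series
-/

set_option autoImplicit false
set_option linter.unusedSectionVars false

namespace Pool.VD.CV

open MvPolynomial Finset Pool.VD.CM

variable {K : Type} [Field K] [CharZero K]

theorem sum_tri_comm {M : Type} [AddCommMonoid M] (F : ℕ → ℕ → M) (n : ℕ) :
    ∑ a ∈ range (n + 1), ∑ b ∈ range (n + 1 - a), F a b =
      ∑ b ∈ range (n + 1), ∑ a ∈ range (n + 1 - b), F a b :=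
  sum_comm' (by intro x y; simp only [mem_range]; omega)

theorem sum_tri_diag {M : Type} [AddCommMonoid M] (F : ℕ → ℕ → M) (n : ℕ) :
    ∑ a ∈ range (n + 1), ∑ b ∈ range (n + 1 - a), F a b =
      ∑ g ∈ range (n + 1), ∑ a ∈ range (g + 1), F a (g - a) :=
  (Finset.sum_range_diag_flip (n + 1) F).symm

theorem sum_flip {M : Type} [AddCommMonoid M] (F : ℕ → ℕ → M) (k : ℕ) :
    ∑ b ∈ range (k + 1), F (k - b) b = ∑ j ∈ range (k + 1), F j (k - j) := by
  rw [← sum_range_reflect (fun j => F j (k - j)) (k + 1)]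
  refine sum_congr rfl fun b hb => ?_
  have hb' := mem_range.1 hb
  have e1 : k + 1 - 1 - b = k - b := by omega
  have e2 : k - (k - b) = b := by omega
  simp only [e1, e2]

theorem Hs_0_succ (n : ℕ) : Hs (0 : ℕ → Ry K) (n + 1) = 0 := by
  rw [← coeff_HS, HS_zero_seq, PowerSeries.coeff_one, if_neg (Nat.succ_ne_zero n)]

theorem smulS (c : K) (F : SR K) : c • F = F * PowerSeries.C (C (C c) : Ry K) := by
  ext1 n
  rw [cs_smul, PowerSeries.coeff_mul_C, smulK, mul_comm]

theorem dmi_pow_CC_mul (p c : K) (m : ℕ) (F : Ry K) :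
    (dmi p ^ m) (C (C c) * F) = C (C c) * (dmi p ^ m) F := by
  rw [← smulK, map_smul, smulK]

theorem dmS_pow_io_C (p : K) (m : ℕ) (G : SR K) (F : Ry K) :
    (dmS p ^ m) (((ioS p)^[m] G) * PowerSeries.C F) = G * PowerSeries.C ((dmi p ^ m) F) := by
  rw [dmS_pow_io_mul, dmS_pow_C]

theorem yR_add (a r s : ℕ) : yR K a (r + s) = yR K a r + yR K (a + r) s := by
  funext i
  rw [Pi.add_apply, yR, yR, yR, sum_range_add]
  congr 1
  refine sum_congr rfl fun l _ => ?_
  rw [add_assoc]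

theorem coeff_ioS_iter (p : K) (b : ℕ) (F : SR K) (n : ℕ) :
    PowerSeries.coeff n ((ioS p)^[b] F) = (io p)^[b] (PowerSeries.coeff n F) := by
  induction b with
  | zero => rfl
  | succ b ih => rw [Function.iterate_succ_apply', coeff_ioS, ih, Function.iterate_succ_apply']

theorem io_iter_CC (p c : K) (b : ℕ) : (io p)^[b] (C (C c)) = C (C c) := by
  induction b with
  | zero => rfl
  | succ b ih => rw [Function.iterate_succ_apply', ih, io_CC]

theorem io_iter_mul (p : K) (b : ℕ) (F G : Ry K) : (io p)^[b] (F * G) = (io p)^[b] F * (io p)^[b] G := by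
  induction b with
  | zero => rfl
  | succ b ih =>
    rw [Function.iterate_succ_apply', ih, map_mul, Function.iterate_succ_apply', Function.iterate_succ_apply']

theorem io_iter_pow (p : K) (b : ℕ) (F : Ry K) (n : ℕ) : (io p)^[b] (F ^ n) = ((io p)^[b] F) ^ n := by
  induction b with
  | zero => rfl
  | succ b ih => rw [Function.iterate_succ_apply', ih, map_pow, Function.iterate_succ_apply']

theorem io_iter_X (p : K) (b j : ℕ) : (io p)^[b] (X j) = X (j + b) := by
  induction b with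
  | zero => rfl
  | succ b ih => rw [Function.iterate_succ_apply', ih, io_X]; rfl

theorem io_iter_Hs_yR (p : K) (b a r n : ℕ) : (io p)^[b] (Hs (yR K a r) n) = Hs (yR K (a + b) r) n := by
  rw [← coeff_HS, ← coeff_ioS_iter, ioS_iter_yR, coeff_HS]

theorem Hs_yX_one (j n : ℕ) : Hs (yX (1 : K) j) n = X j ^ n := by
  rw [← coeff_HS, coeff_HS_yX, map_one, map_one, one_mul]

/-- splitting of the argument -/
theorem split_arg (p : K) (k b M : ℕ) : C (C (p ^ M)) * Hs (yR K 0 (k + b)) M =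
    ∑ e ∈ range (M + 1), (C (C (p ^ e)) * Hs (yR K 0 b) e) *
      (io p)^[b] (C (C (p ^ (M - e))) * Hs (yR K 0 k) (M - e)) := by
  rw [add_comm k b, yR_add, zero_add, Hs_add', mul_sum]
  refine sum_congr rfl fun e he => ?_
  have he' := mem_range.1 he
  have e1 : M = e + (M - e) := by omega
  have h1 : (C (C (p ^ M)) : Ry K) = C (C (p ^ e)) * C (C (p ^ (M - e))) := by
    rw [← map_mul, ← map_mul, ← pow_add, ← e1]
  rw [io_iter_mul, io_iter_CC, io_iter_Hs_yR, zero_add, h1]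
  ring

theorem Fx.congr {p u : K} {m : ℕ} {P Q : SR K} (hP : Fx p u m P) (h : Q = P) : Fx p u m Q := h ▸ hP

/-- (S): the sum of the `w_b` -/
theorem step_S (p q u : K) (h : p * q = 1) (hp : ∀ k : ℕ, p ^ (k + 1) ≠ 1) (hM : ∀ i, Mk p u (i + 1) ≠ 0)
    (s g : ℕ) (P : SR K) (hP : Fx p u s P) :
    ∑ b ∈ range (g + 1), ww (q - 1)⁻¹ (dmS p) (sgS p u) b s (AS p u (s + b) * (ioS p)^[b] P *
        PowerSeries.C (C (C (p ^ (g - b))) * Hs (yR K 0 b) (g - b))) =
      AS p u (s + 1) * HS (yX 1 s) * P * PowerSeries.C ((C (C (u * p)) * X s : Ry K) ^ g) := by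
  cases g with
  | zero =>
    rw [zero_add, sum_range_one, Nat.sub_zero, pow_zero, pow_zero, Hs_zero, map_one, map_one, mul_one, map_one,
      mul_one, mul_one]
    show sgS p u s (AS p u s * P) = _
    rw [sgS_mul, sgS_AS p u hM, hP s le_rfl]
  | succ g =>
    have hq1 : q - 1 ≠ 0 := by
      intro h1
      have h2 : q = 1 := sub_eq_zero.1 h1
      rw [h2, mul_one] at h
      exact hp 0 (by rw [zero_add, pow_one, h])
    have hc : (q - 1)⁻¹ * (-((p - 1) * p ^ g)) = p ^ (g + 1) := by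
      field_simp
      have : p - 1 = - (p * (q - 1)) := by rw [mul_sub, h]; ring
      rw [this]; ring
    rw [sum_range_succ']
    have h0 : ww (q - 1)⁻¹ (dmS p) (sgS p u) 0 s (AS p u (s + 0) * (ioS p)^[0] P *
        PowerSeries.C (C (C (p ^ (g + 1 - 0))) * Hs (yR K 0 0) (g + 1 - 0))) = 0 := by
      rw [yR_zero, Nat.sub_zero, Hs_0_succ, mul_zero, map_zero, mul_zero, map_zero]
    rw [h0, add_zero]
    have h1 : ∀ b ∈ range (g + 1), ww (q - 1)⁻¹ (dmS p) (sgS p u) (b + 1) s (AS p u (s + (b + 1)) *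
        (ioS p)^[b + 1] P * PowerSeries.C (C (C (p ^ (g + 1 - (b + 1)))) * Hs (yR K 0 (b + 1)) (g + 1 - (b + 1)))) =
        (q - 1)⁻¹ • CCk (dmS p) (sgS p u) s (AS p u (s + 1) * ioS p P *
          PowerSeries.C (C (C (p ^ (g - b))) * (dmi p ^ b) (Hs (yR K 0 (b + 1)) (g - b)))) := by
      intro b _
      have e1 : g + 1 - (b + 1) = g - b := by omega
      have e2 : s + (b + 1) = s + 1 + b := by omega
      rw [ww, LinearMap.smul_apply, Module.End.mul_apply, e1, e2, Function.iterate_succ_apply, ← ioS_iter_AS,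
        ← ioS_iter_mul, dmS_pow_io_C, dmi_pow_CC_mul]
    rw [sum_congr rfl h1, ← smul_sum, ← map_sum, ← mul_sum, ← map_sum, geo p q h hp]
    have h2 := CC_step p u hM s g P hP
    rw [W1] at h2
    rw [h2, smulS, mul_assoc (AS p u (s + 1) * HS (yX 1 s) * P), ← map_mul]
    congr 2
    have h3 : (C (C ((p - 1) * p ^ g)) * C (C ((q - 1)⁻¹)) : Ry K) = -C (C p) ^ (g + 1) := by
      rw [← map_mul, ← map_mul, ← map_pow, ← map_pow, ← hc, ← map_neg, ← map_neg]
      congr 2
      ring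
    have h4 : (C (C (u * p)) : Ry K) = C (C u) * C (C p) := by rw [map_mul, map_mul]
    rw [h4]
    linear_combination (-(C (C u) * X s : Ry K) ^ (g + 1)) * h3

theorem SR_alg (A B D E : SR K) : A * (B * D) * E = A * B * (E * D) := by ring

theorem SR_alg2 (A B D E F : SR K) : A * B * (D * E) * F = A * (B * D * F) * E := by ring

theorem SR_alg3 (A B D E F G : SR K) : A * B * (D * E * F) * G = A * (D * B) * E * (F * G) := by ring

theorem arg_split (p u : K) (m k b N : ℕ) (P : SR K) (Q : ℕ → SR K)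
    (hQd : ∀ g, Q g = (ioS p)^[k] P * PowerSeries.C (C (C (p ^ (N - g))) * Hs (yR K 0 k) (N - g)))
    (hb : b ≤ N) : AS p u (m + (k + b)) * (ioS p)^[k + b] P *
      PowerSeries.C (C (C (p ^ (N - b))) * Hs (yR K 0 (k + b)) (N - b)) =
      ∑ e ∈ range (N + 1 - b), AS p u (m + k + b) * (ioS p)^[b] (Q (b + e)) *
        PowerSeries.C (C (C (p ^ e)) * Hs (yR K 0 b) e) := by
  have e1 : N + 1 - b = N - b + 1 := by omega
  rw [split_arg, map_sum, mul_sum, e1]
  refine sum_congr rfl fun e he => ?_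
  have he' := mem_range.1 he
  have e2 : N - (b + e) = N - b - e := by omega
  have h1 : (ioS p)^[k + b] P = (ioS p)^[b] ((ioS p)^[k] P) := by
    rw [add_comm k b, Function.iterate_add_apply]
  have h2 : (ioS p)^[b] (Q (b + e)) = (ioS p)^[k + b] P *
      PowerSeries.C ((io p)^[b] (C (C (p ^ (N - b - e))) * Hs (yR K 0 k) (N - b - e))) := by
    rw [hQd, e2, ioS_iter_mul, ioS_iter_C, h1]
  have h3 : PowerSeries.C ((C (C (p ^ e)) * Hs (yR K 0 b) e : Ry K) *
      (io p)^[b] (C (C (p ^ (N - b - e))) * Hs (yR K 0 k) (N - b - e))) =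
      PowerSeries.C ((C (C (p ^ e)) * Hs (yR K 0 b) e : Ry K)) * PowerSeries.C
      ((io p)^[b] (C (C (p ^ (N - b - e))) * Hs (yR K 0 k) (N - b - e))) := map_mul _ _ _
  rw [h2, h3, ← add_assoc m k b]
  exact (SR_alg _ _ _ _).symm

/-- the inner sum over `b`, with `k - b` fixed -/
theorem inner_sum (p q u : K) (h : p * q = 1) (hp : ∀ k : ℕ, p ^ (k + 1) ≠ 1) (hM : ∀ i, Mk p u (i + 1) ≠ 0)
    (A : Module.End K (SR K)) (m k N : ℕ) (P : SR K) (hP : Fx p u m P) :
    ∑ b ∈ range (N + 1), A (ww (q - 1)⁻¹ (dmS p) (sgS p u) b (m + k) (AS p u (m + (k + b)) *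
        (ioS p)^[k + b] P * PowerSeries.C (C (C (p ^ (N - b))) * Hs (yR K 0 (k + b)) (N - b)))) =
      ∑ g ∈ range (N + 1), A (AS p u (m + 1 + k) * (ioS p)^[k] (HS (yX 1 m) * P *
            PowerSeries.C ((C (C (u * p)) * X m : Ry K) ^ g)) *
            PowerSeries.C (C (C (p ^ (N - g))) * Hs (yR K 0 k) (N - g))) := by
  -- the factor not depending on `b`
  obtain ⟨Q, hQd⟩ : ∃ Q : ℕ → SR K, ∀ g, Q g = (ioS p)^[k] P *
      PowerSeries.C (C (C (p ^ (N - g))) * Hs (yR K 0 k) (N - g)) := ⟨_, fun _ => rfl⟩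
  have hQ : ∀ g, Fx p u (m + k) (Q g) := by
    intro g
    have h1 : Fx p u (m + k) ((ioS p)^[k] P * (PowerSeries.C (C (C (p ^ (N - g)))) *
        PowerSeries.C (Hs (yR K 0 k) (N - g)))) :=
      (hP.io_iter k).mul ((Fx_CC p u _ (m + k)).mul ((Fx_C_Hs p u 0 k (N - g)).mono (by omega)))
    rw [hQd, map_mul PowerSeries.C]
    exact h1
  have h1 : ∀ b ∈ range (N + 1), A (ww (q - 1)⁻¹ (dmS p) (sgS p u) b (m + k) (AS p u (m + (k + b)) *
        (ioS p)^[k + b] P * PowerSeries.C (C (C (p ^ (N - b))) * Hs (yR K 0 (k + b)) (N - b)))) =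
      ∑ e ∈ range (N + 1 - b), A (ww (q - 1)⁻¹ (dmS p) (sgS p u) b (m + k)
        (AS p u (m + k + b) * (ioS p)^[b] (Q (b + e)) * PowerSeries.C (C (C (p ^ e)) * Hs (yR K 0 b) e))) := by
    intro b hb
    have hb' := mem_range.1 hb
    rw [arg_split p u m k b N P Q hQd (by omega), map_sum, map_sum]
  rw [sum_congr rfl h1, sum_tri_diag]
  refine sum_congr rfl fun g hg => ?_
  have hg' := mem_range.1 hg
  have h3 : ∀ b ∈ range (g + 1), A (ww (q - 1)⁻¹ (dmS p) (sgS p u) b (m + k) (AS p u (m + k + b) *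
      (ioS p)^[b] (Q (b + (g - b))) * PowerSeries.C (C (C (p ^ (g - b))) * Hs (yR K 0 b) (g - b)))) =
      A (ww (q - 1)⁻¹ (dmS p) (sgS p u) b (m + k) (AS p u (m + k + b) * (ioS p)^[b] (Q g) *
          PowerSeries.C (C (C (p ^ (g - b))) * Hs (yR K 0 b) (g - b)))) := by
    intro b hb
    have hb' := mem_range.1 hb
    have e1 : b + (g - b) = g := by omega
    rw [e1]
  have h4 : ∑ b ∈ range (g + 1), A (ww (q - 1)⁻¹ (dmS p) (sgS p u) b (m + k) (AS p u (m + k + b) *
      (ioS p)^[b] (Q g) * PowerSeries.C (C (C (p ^ (g - b))) * Hs (yR K 0 b) (g - b)))) =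
      A (∑ b ∈ range (g + 1), ww (q - 1)⁻¹ (dmS p) (sgS p u) b (m + k) (AS p u (m + k + b) *
      (ioS p)^[b] (Q g) * PowerSeries.C (C (C (p ^ (g - b))) * Hs (yR K 0 b) (g - b)))) :=
    (map_sum A _ _).symm
  rw [sum_congr rfl h3, h4]
  refine congrArg A ?_
  rw [step_S p q u h hp hM (m + k) g (Q g) (hQ g)]
  have h5 : (ioS p)^[k] (HS (yX 1 m) * P * PowerSeries.C ((C (C (u * p)) * X m : Ry K) ^ g)) =
      HS (yX 1 (m + k)) * (ioS p)^[k] P * PowerSeries.C ((C (C (u * p)) * X (m + k) : Ry K) ^ g) := by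
    rw [ioS_iter_mul, ioS_iter_mul, ioS_iter_yX, ioS_iter_C, io_iter_pow, io_iter_mul, io_iter_CC, io_iter_X]
  rw [h5, hQd, add_right_comm m k 1]
  exact SR_alg2 _ _ _ _ _

/-- (WWE) -/
theorem step_AA (p q u : K) (h : p * q = 1) (hp : ∀ k : ℕ, p ^ (k + 1) ≠ 1) (hM : ∀ i, Mk p u (i + 1) ≠ 0)
    (r : ℕ) : ∀ (m n : ℕ) (P : SR K), Fx p u m P →
    ∑ k ∈ range (n + 1), AA (q - 1)⁻¹ (dmS p) (sgS p u) r k m (AS p u (m + k) * (ioS p)^[k] P *
        PowerSeries.C (C (C (p ^ (n - k))) * Hs (yR K 0 k) (n - k))) =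
      AS p u (m + r) * HS (yR K m r) * P * PowerSeries.C (C (C ((u * p) ^ n)) * Hs (yR K m r) n) := by
  induction r with
  | zero =>
    intro m n P _
    rw [sum_eq_single_of_mem 0 (mem_range.2 (Nat.succ_pos n))]
    · rw [AA, if_pos rfl]
      show AS p u (m + 0) * P * PowerSeries.C (C (C (p ^ (n - 0))) * Hs (yR K 0 0) (n - 0)) = _
      rw [yR_zero, yR_zero, HS_zero_seq, mul_one, Nat.sub_zero]
      cases n with
      | zero => rw [pow_zero, pow_zero]
      | succ n => rw [Hs_0_succ, mul_zero, mul_zero]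
    · intro k _ hk
      rw [AA, if_neg hk]
      rfl
  | succ r ih =>
    intro m n P hP
    have hP' : ∀ g, Fx p u (m + 1) (HS (yX 1 m) * P * PowerSeries.C ((C (C (u * p)) * X m : Ry K) ^ g)) := by
      intro g
      exact ((Fx_yX p u m).mul (hP.mono (Nat.le_succ m))).mul (Fx_C_mul_X_pow p u _ m g)
    -- expand `AA`
    let G : ℕ → ℕ → SR K := fun j b => AA (q - 1)⁻¹ (dmS p) (sgS p u) r j (m + 1)
      (ww (q - 1)⁻¹ (dmS p) (sgS p u) b (m + j) (AS p u (m + (j + b)) * (ioS p)^[j + b] P *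
        PowerSeries.C (C (C (p ^ (n - (j + b)))) * Hs (yR K 0 (j + b)) (n - (j + b)))))
    have h1 : ∀ k ∈ range (n + 1), AA (q - 1)⁻¹ (dmS p) (sgS p u) (r + 1) k m (AS p u (m + k) * (ioS p)^[k] P *
        PowerSeries.C (C (C (p ^ (n - k))) * Hs (yR K 0 k) (n - k))) = ∑ j ∈ range (k + 1), G j (k - j) := by
      intro k _
      rw [← sum_flip, AA, LinearMap.sum_apply]
      refine sum_congr rfl fun b hb => ?_
      have hb' := mem_range.1 hb
      have e1 : k - b + b = k := by omega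
      have e2 : m + k - b = m + (k - b) := by omega
      simp only [G]
      rw [e1, e2, Module.End.mul_apply]
    rw [sum_congr rfl h1, ← sum_tri_diag]
    have h2 : ∀ j ∈ range (n + 1), ∑ b ∈ range (n + 1 - j), G j b =
        ∑ g ∈ range (n + 1 - j), AA (q - 1)⁻¹ (dmS p) (sgS p u) r j (m + 1)
          (AS p u (m + 1 + j) * (ioS p)^[j] (HS (yX 1 m) * P *
            PowerSeries.C ((C (C (u * p)) * X m : Ry K) ^ g)) *
            PowerSeries.C (C (C (p ^ (n - g - j))) * Hs (yR K 0 j) (n - g - j))) := by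
      intro j hj
      have hj' := mem_range.1 hj
      have e1 : n + 1 - j = n - j + 1 := by omega
      have h3 := inner_sum p q u h hp hM (AA (q - 1)⁻¹ (dmS p) (sgS p u) r j (m + 1)) m j (n - j) P hP
      rw [e1]
      have h4 : ∀ b ∈ range (n - j + 1), G j b = AA (q - 1)⁻¹ (dmS p) (sgS p u) r j (m + 1)
          (ww (q - 1)⁻¹ (dmS p) (sgS p u) b (m + j) (AS p u (m + (j + b)) * (ioS p)^[j + b] P *
          PowerSeries.C (C (C (p ^ (n - j - b))) * Hs (yR K 0 (j + b)) (n - j - b)))) := by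
        intro b _
        simp only [G]
        rw [Nat.sub_sub n j b]
      rw [sum_congr rfl h4, h3]
      refine sum_congr rfl fun g _ => ?_
      rw [Nat.sub_right_comm n j g]
    rw [sum_congr rfl h2, sum_tri_comm]
    have h5 : ∀ g ∈ range (n + 1), ∑ j ∈ range (n + 1 - g), AA (q - 1)⁻¹ (dmS p) (sgS p u) r j (m + 1)
          (AS p u (m + 1 + j) * (ioS p)^[j] (HS (yX 1 m) * P *
            PowerSeries.C ((C (C (u * p)) * X m : Ry K) ^ g)) *
            PowerSeries.C (C (C (p ^ (n - g - j))) * Hs (yR K 0 j) (n - g - j))) =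
        AS p u (m + 1 + r) * HS (yR K (m + 1) r) * (HS (yX 1 m) * P *
            PowerSeries.C ((C (C (u * p)) * X m : Ry K) ^ g)) *
          PowerSeries.C (C (C ((u * p) ^ (n - g))) * Hs (yR K (m + 1) r) (n - g)) := by
      intro g hg
      have hg' := mem_range.1 hg
      have e1 : n + 1 - g = n - g + 1 := by omega
      rw [e1]
      exact ih (m + 1) (n - g) _ (hP' g)
    rw [sum_congr rfl h5]
    have h6 : ∀ g ∈ range (n + 1), AS p u (m + 1 + r) * HS (yR K (m + 1) r) * (HS (yX 1 m) * P *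
            PowerSeries.C ((C (C (u * p)) * X m : Ry K) ^ g)) *
          PowerSeries.C (C (C ((u * p) ^ (n - g))) * Hs (yR K (m + 1) r) (n - g)) =
        AS p u (m + 1 + r) * (HS (yX 1 m) * HS (yR K (m + 1) r)) * P * (PowerSeries.C (C (C ((u * p) ^ n)) : Ry K) *
          PowerSeries.C (Hs (yX 1 m) g * Hs (yR K (m + 1) r) (n - g))) := by
      intro g hg
      have hg' := mem_range.1 hg
      have h7 : ((C (C (u * p)) * X m : Ry K) ^ g) * (C (C ((u * p) ^ (n - g))) * Hs (yR K (m + 1) r) (n - g)) =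
          C (C ((u * p) ^ n)) * (Hs (yX 1 m) g * Hs (yR K (m + 1) r) (n - g)) := by
        have e1 : n = g + (n - g) := by omega
        have e2 : (C (C ((u * p) ^ n)) : Ry K) = C (C (u * p)) ^ g * C (C ((u * p) ^ (n - g))) := by
          rw [← map_pow, ← map_pow, ← map_mul, ← map_mul, ← pow_add, ← e1]
        rw [e2, Hs_yX_one, mul_pow]
        ring
      rw [SR_alg3, ← map_mul, h7, map_mul]
    rw [sum_congr rfl h6, ← mul_sum, ← mul_sum, ← map_sum, ← Hs_add', ← yR_succ', ← HS_add, ← yR_succ', ← map_mul]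
    have e : m + 1 + r = m + (r + 1) := by omega
    rw [e]

end Pool.VD.CV
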