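import Pool.Agent.VD.CV4

/-!
# MP_cf06d4_co, block C, V half (helper44), part 5: the level recursion (V) for the source side
-/

set_option autoImplicit false
set_option linter.unusedSectionVars false

namespace Pool.VD.CV

open MvPolynomial Finset Pool.VD.CM

variable {K : Type} [Field K] [CharZero K]

/-- `d_+^m` on the tail series -/
theorem dpiS (p u : K) (hM : ∀ i, Mk p u (i + 1) ≠ 0) (k m : ℕ) (F : SR K) (hF : Fx p u k F) :
    dpi (sgS p u) m k (AS p u k * F) = AS p u (k + m) * HS (yR K k m) * F := by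
  induction m with
  | zero =>
    show AS p u k * F = _
    rw [yR_zero, HS_zero_seq, mul_one, add_zero]
  | succ m ih =>
    rw [dpi, Module.End.mul_apply, ih, sgS_mul, sgS_mul, sgS_AS p u hM, hF (k + m) (Nat.le_add_right k m),
      Fx_yR p u k m (k + m) le_rfl, yR_succ, HS_add, ← add_assoc k m 1]
    congr 1
    rw [mul_assoc, mul_comm (HS (yX 1 (k + m)))]

/-- the family `κ` of the source side without the sign factor:
`q^(-d) φ_r(h_j[X/((1-p)(1-u))]) h_d[y_0 + … + y_(r-1)]` -/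
noncomputable def kW (p u : K) (r j d : ℕ) : Ry K :=
  C (C (p ^ d)) * (PowerSeries.coeff j (AS p u r) * Hs (yR K 0 r) d)

/-- the family `κ` of the source side -/
noncomputable def kV (p u : K) (r j d : ℕ) : Ry K := C (C ((-(p * u)) ^ j)) * kW p u r j d

theorem kW_coeff (p u : K) (r j d : ℕ) :
    kW p u r j d = PowerSeries.coeff j (AS p u r * PowerSeries.C (C (C (p ^ d)) * Hs (yR K 0 r) d)) := by
  rw [kW, PowerSeries.coeff_mul_C]
  ring

theorem Fx_arg (p u : K) (k n : ℕ) : Fx p u k (PowerSeries.C (C (C (p ^ n)) * Hs (yR K 0 k) n)) := by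
  have h := (Fx_CC p u (p ^ n) k).mul ((Fx_C_Hs p u 0 k n).mono (by omega))
  rw [← map_mul] at h
  exact h

/-- the level recursion, one value of `m` -/
theorem level_m (p q u : K) (h : p * q = 1) (hp : ∀ k : ℕ, p ^ (k + 1) ≠ 1) (hM : ∀ i, Mk p u (i + 1) ≠ 0)
    (r m n : ℕ) :
    ∑ k ∈ range (n + 1), (dmS p ^ m) (AA (q - 1)⁻¹ (dmS p) (sgS p u) r k m (dpi (sgS p u) m k
        (AS p u k * PowerSeries.C (C (C (p ^ (n - k))) * Hs (yR K 0 k) (n - k))))) =
      (AS p u r * HS (yR K 0 r)) * GG p m * PowerSeries.C (C (C ((u * p) ^ n)) * Hs (yR K 0 r) n) := by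
  have h1 : ∀ k ∈ range (n + 1), (dmS p ^ m) (AA (q - 1)⁻¹ (dmS p) (sgS p u) r k m (dpi (sgS p u) m k
        (AS p u k * PowerSeries.C (C (C (p ^ (n - k))) * Hs (yR K 0 k) (n - k))))) =
      (dmS p ^ m) (AA (q - 1)⁻¹ (dmS p) (sgS p u) r k m (AS p u (m + k) * (ioS p)^[k] (HS (yR K 0 m)) *
        PowerSeries.C (C (C (p ^ (n - k))) * Hs (yR K 0 k) (n - k)))) := by
    intro k _
    rw [dpiS p u hM k m _ (Fx_arg p u k (n - k)), ioS_iter_yR, zero_add, add_comm k m]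
  have hP : Fx p u m (HS (yR K 0 m)) := (Fx_yR p u 0 m).mono (by omega)
  rw [sum_congr rfl h1, ← map_sum, step_AA p q u h hp hM r m n _ hP]
  have h2 : AS p u (m + r) * HS (yR K m r) * HS (yR K 0 m) *
      PowerSeries.C (C (C ((u * p) ^ n)) * Hs (yR K m r) n) =
      (ioS p)^[m] (AS p u r * HS (yR K 0 r) * PowerSeries.C (C (C ((u * p) ^ n)) * Hs (yR K 0 r) n)) *
        HS (yR K 0 m) := by
    rw [ioS_iter_mul, ioS_iter_mul, ioS_iter_AS, ioS_iter_yR, ioS_iter_C, io_iter_mul, io_iter_CC,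
      io_iter_Hs_yR, zero_add, add_comm r m, mul_right_comm]
  rw [h2, dmS_pow_io_mul, mul_right_comm]
  rfl

theorem aR_key (p u : K) (hp : ∀ k : ℕ, p ^ (k + 1) ≠ 1) (hu : ∀ k : ℕ, u ^ (k + 1) ≠ 1) (r i : ℕ) :
    aR p u r i + yR K 0 r i + (-gY p) i = (C (C u) : Ry K) ^ (i + 1) * aR p u r i := by
  have h1 : (1 - p ^ (i + 1)) ≠ 0 := sub_ne_zero.2 (Ne.symm (hp i))
  have h2 : (1 - u ^ (i + 1)) ≠ 0 := sub_ne_zero.2 (Ne.symm (hu i))
  have h3 : ((1 : Ry K) - C (C u) ^ (i + 1)) * C (C ((Mk p u (i + 1))⁻¹)) = C (C ((1 - p ^ (i + 1))⁻¹)) := by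
    have h4 : (1 - u ^ (i + 1)) * (Mk p u (i + 1))⁻¹ = (1 - p ^ (i + 1))⁻¹ := by
      rw [Mk]
      field_simp
    rw [← h4, map_mul, map_mul]
    simp only [map_sub, map_one, map_pow]
  have h5 : (C (C ((1 - p ^ (i + 1))⁻¹)) * C (C (p ^ (i + 1) - 1)) : Ry K) = -1 := by
    rw [← map_mul, ← map_mul]
    have h3 : (1 - p ^ (i + 1))⁻¹ * (p ^ (i + 1) - 1) = -1 := by field_simp; ring
    rw [h3, map_neg, map_neg, map_one, map_one]
  have h6 : yR K 0 r i = ∑ l ∈ range r, (X l : Ry K) ^ (i + 1) := by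
    rw [yR]
    refine sum_congr rfl fun l _ => ?_
    rw [zero_add]
  rw [Pi.neg_apply, gY, aR, h6]
  generalize (∑ l ∈ range r, (X l : Ry K) ^ (i + 1)) = S
  linear_combination (C (X i) + C (C (p ^ (i + 1) - 1)) * S) * h3 + S * h5

theorem B_key (p u : K) (hp : ∀ k : ℕ, p ^ (k + 1) ≠ 1) (hu : ∀ k : ℕ, u ^ (k + 1) ≠ 1) (r n : ℕ) :
    PowerSeries.coeff n (AS p u r * HS (yR K 0 r) * HS (-gY p)) =
      C (C (u ^ n)) * PowerSeries.coeff n (AS p u r) := by
  have h1 : AS p u r * HS (yR K 0 r) * HS (-gY p) = HS (fun i => (C (C u) : Ry K) ^ (i + 1) * aR p u r i) := by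
    rw [AS, ← HS_add, ← HS_add]
    congr 1
    funext i
    rw [← aR_key p u hp hu]
    rfl
  rw [h1, coeff_HS, Hs_scale, AS, coeff_HS, map_pow, map_pow]

/-- `d_+^*` as a family of linear operators -/
noncomputable def sgL (p u : K) (k : ℕ) : Module.End K (Ry K) := (sg p u k).toLinearMap

theorem LS_ops (p u c : K) (r k m : ℕ) :
    LS (dmi p ^ m * (AA c (dmi p) (sgL p u) r k m * dpi (sgL p u) m k)) =
      dmS p ^ m * (AA c (dmS p) (sgS p u) r k m * dpi (sgS p u) m k) := by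
  rw [LS_mul, LS_mul, LS_pow, LS_AA, LS_dpi]
  rfl

theorem L_CC_mul (L : Module.End K (Ry K)) (c : K) (x : Ry K) : L (C (C c) * x) = C (C c) * L x := by
  rw [← smulK, map_smul, smulK]

/-- from elements to series -/
theorem ops_kV (p u c : K) (r k m j f : ℕ) :
    (dmi p ^ m) (AA c (dmi p) (sgL p u) r k m (dpi (sgL p u) m k (kV p u k j f))) =
      C (C ((-(p * u)) ^ j)) * PowerSeries.coeff j ((dmS p ^ m) (AA c (dmS p) (sgS p u) r k m
        (dpi (sgS p u) m k (AS p u k * PowerSeries.C (C (C (p ^ f)) * Hs (yR K 0 k) f))))) := by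
  have h1 := LS_ops p u c r k m
  have h2 : (dmS p ^ m) (AA c (dmS p) (sgS p u) r k m
        (dpi (sgS p u) m k (AS p u k * PowerSeries.C (C (C (p ^ f)) * Hs (yR K 0 k) f)))) =
      LS (dmi p ^ m * (AA c (dmi p) (sgL p u) r k m * dpi (sgL p u) m k))
        (AS p u k * PowerSeries.C (C (C (p ^ f)) * Hs (yR K 0 k) f)) := by
    rw [h1]; rfl
  have h3 : (dmi p ^ m) (AA c (dmi p) (sgL p u) r k m (dpi (sgL p u) m k (kV p u k j f))) =
      (dmi p ^ m * (AA c (dmi p) (sgL p u) r k m * dpi (sgL p u) m k)) (kV p u k j f) := rfl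
  rw [h2, coeff_LS, h3, kV, L_CC_mul, kW_coeff]

theorem Mk_ne' (p u : K) (hp : ∀ k : ℕ, p ^ (k + 1) ≠ 1) (hu : ∀ k : ℕ, u ^ (k + 1) ≠ 1) (i : ℕ) :
    Mk p u (i + 1) ≠ 0 :=
  mul_ne_zero (sub_ne_zero.2 (Ne.symm (hp i))) (sub_ne_zero.2 (Ne.symm (hu i)))

/-- (V): the level recursion -/
theorem rec_V (p q u t : K) (h : p * q = 1) (hut : u * t = 1) (hp : ∀ k : ℕ, p ^ (k + 1) ≠ 1)
    (hq : ∀ k : ℕ, q ^ (k + 1) ≠ 1) (hu : ∀ k : ℕ, u ^ (k + 1) ≠ 1) (r a n : ℕ) :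
    Lrec q t (dmi p) (sgL p u) (kV p u) r a n = kV p u r a n := by
  have hM := Mk_ne' p u hp hu
  have h1 : ∀ m ∈ range (a + 1), (t ^ (a - m) * (-1) ^ m / qfac q m) •
      ∑ k ∈ range (n + 1), (dmi p ^ m) (AA (q - 1)⁻¹ (dmi p) (sgL p u) r k m
        (dpi (sgL p u) m k (kV p u k (a - m) (n - k)))) =
      (C (C ((-p) ^ a)) * (C (C ((u * p) ^ n)) * Hs (yR K 0 r) n)) *
        (C (C (q ^ m / qfac q m)) * PowerSeries.coeff (a - m) ((AS p u r * HS (yR K 0 r)) * GG p m)) := by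
    intro m hm
    have hm' := mem_range.1 hm
    have h2 : ∀ k ∈ range (n + 1), (dmi p ^ m) (AA (q - 1)⁻¹ (dmi p) (sgL p u) r k m
        (dpi (sgL p u) m k (kV p u k (a - m) (n - k)))) =
        C (C ((-(p * u)) ^ (a - m))) * PowerSeries.coeff (a - m) ((dmS p ^ m) (AA (q - 1)⁻¹ (dmS p) (sgS p u)
          r k m (dpi (sgS p u) m k (AS p u k *
            PowerSeries.C (C (C (p ^ (n - k))) * Hs (yR K 0 k) (n - k)))))) := by
      intro k _
      exact ops_kV p u _ r k m (a - m) (n - k)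
    rw [sum_congr rfl h2, ← mul_sum, ← map_sum, level_m p q u h hp hM, PowerSeries.coeff_mul_C, smulK,
      ← mul_assoc, ← map_mul, ← map_mul]
    have h3 : t ^ (a - m) * (-1) ^ m / qfac q m * (-(p * u)) ^ (a - m) = (-p) ^ a * (q ^ m / qfac q m) := by
      have e1 : a = (a - m) + m := by omega
      have e2 : (-p) ^ a = (-p) ^ (a - m) * (-p) ^ m := by rw [← pow_add, ← e1]
      have e3 : t ^ (a - m) * (-(p * u)) ^ (a - m) = (-p) ^ (a - m) := by
        rw [← mul_pow]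
        congr 1
        linear_combination (-p) * hut
      have e4 : (-p) ^ m * q ^ m = (-1) ^ m := by
        rw [← mul_pow, neg_mul, h]
      calc t ^ (a - m) * (-1) ^ m / qfac q m * (-(p * u)) ^ (a - m)
          = (t ^ (a - m) * (-(p * u)) ^ (a - m)) * (-1) ^ m / qfac q m := by ring
        _ = (-p) ^ (a - m) * ((-p) ^ m * q ^ m) / qfac q m := by rw [e3, e4]
        _ = (-p) ^ a * (q ^ m / qfac q m) := by rw [e2]; ring
    rw [h3, map_mul, map_mul]
    ring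
  rw [Lrec, sum_congr rfl h1, ← mul_sum, tail p q h hq hp, B_key p u hp hu, smulK, kV, kW]
  have h4 : (C (C (t ^ n)) * C (C ((u * p) ^ n)) : Ry K) = C (C (p ^ n)) := by
    rw [← map_mul, ← map_mul, ← mul_pow]
    congr 3
    linear_combination p * hut
  have h5 : (C (C ((-p) ^ a)) * C (C (u ^ a)) : Ry K) = C (C ((-(p * u)) ^ a)) := by
    rw [← map_mul, ← map_mul, ← mul_pow]
    congr 3
    ring
  rw [← h4, ← h5]
  ring

end Pool.VD.CV
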