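import Pool.Agent.VD.CV5

/-!
# MP_cf06d4_co, block C, V half (helper44), part 6: the boundary values, (P) and (L1)
-/

set_option autoImplicit false
set_option linter.unusedSectionVars false

namespace Pool.VD.CV

open MvPolynomial Finset Pool.VD.CM

variable {K : Type} [Field K] [CharZero K]

theorem CC_mul (a b : K) : (C (C (a * b)) : Ry K) = C (C a) * C (C b) := by
  rw [map_mul, map_mul]

theorem coeff_AS_zero (p u : K) (j : ℕ) : PowerSeries.coeff j (AS p u 0) = C (Hst p u j) := by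
  have h := Hs_map (C : Lam K →+* Ry K) (fun i => (C (Mk p u (i + 1))⁻¹ * X i : Lam K)) j
  rw [Hst, h, AS, coeff_HS]
  congr 1
  funext i
  rw [aR, range_zero, sum_empty, mul_zero, add_zero, map_mul]

theorem kW_zero_zero (p u : K) (j : ℕ) : kW p u 0 j 0 = C (Hst p u j) := by
  rw [kW, coeff_AS_zero, pow_zero, map_one, map_one, one_mul, Hs_zero, mul_one]

theorem kW_zero_succ (p u : K) (j d : ℕ) : kW p u 0 j (d + 1) = 0 := by
  rw [kW, yR_zero, Hs_0_succ, mul_zero, mul_zero]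

theorem kV_zero_zero (p u : K) (j : ℕ) : kV p u 0 j 0 = C (C ((-(p * u)) ^ j) * Hst p u j) := by
  rw [kV, kW_zero_zero, map_mul C (C ((-(p * u)) ^ j))]

theorem kV_zero_succ (p u : K) (j d : ℕ) : kV p u 0 j (d + 1) = 0 := by
  rw [kV, kW_zero_succ, mul_zero]

/-- `∑_(1 ≤ k ≤ m) k h_(m-k)[-A] h_k[A] = p_m[A]` -/
theorem newton (a : ℕ → Ry K) (m : ℕ) :
    ∑ k ∈ range (m + 2), (C (C (k : K)) : Ry K) * (Hs (-a) (m + 1 - k) * Hs a k) = a m := by
  have h1 : HS (-a) * PowerSeries.derivative (Ry K) (HS a) = PowerSeries.mk a := by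
    rw [HS_deriv, mul_left_comm, HS_neg_mul, mul_one]
  have h2 := congrArg (PowerSeries.coeff m) h1
  rw [PowerSeries.coeff_mk, PowerSeries.coeff_mul, Finset.Nat.sum_antidiagonal_eq_sum_range_succ_mk] at h2
  rw [← h2, sum_range_succ', Nat.cast_zero, map_zero, map_zero, zero_mul, add_zero, ← sum_range_reflect]
  refine sum_congr rfl fun k hk => ?_
  have hk' := mem_range.1 hk
  have e1 : m + 1 - (m + 1 - 1 - k + 1) = k := by omega
  have e2 : m + 1 - 1 - k + 1 = m - k + 1 := by omega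
  rw [e1, e2, PowerSeries.coeff_derivative, coeff_HS, coeff_HS]
  have h3 : (C (C ((m - k + 1 : ℕ) : K)) : Ry K) = ((m - k : ℕ) : Ry K) + 1 := by
    rw [map_natCast, map_natCast, Nat.cast_succ]
  rw [h3]
  ring

/-- the main sum of (P) and (L1) -/
theorem sum_P (p q : K) (h : p * q = 1) (hp : ∀ k : ℕ, p ^ (k + 1) ≠ 1) (hq : ∀ k : ℕ, q ^ (k + 1) ≠ 1) (m : ℕ) :
    ∑ r ∈ range (m + 1), C (C ((1 - q ^ (m + 1)) / (1 - q ^ (r + 1)))) *
      (dmi p ^ (r + 1)) (C (C (p ^ (m - r))) * Hs (yR K 0 (r + 1)) (m - r)) = cX K m := by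
  obtain ⟨w, hw0, hw1⟩ : ∃ w : ℕ → K, w 0 = 0 ∧ ∀ r, w (r + 1) =
      p ^ (m + 1) * (1 - q ^ (m + 1)) * (q ^ (r + 1) / (1 - q ^ (r + 1))) := by
    refine ⟨fun r => Nat.rec 0 (fun r _ => p ^ (m + 1) * (1 - q ^ (m + 1)) * (q ^ (r + 1) / (1 - q ^ (r + 1)))) r,
      rfl, fun _ => rfl⟩
  have h1 : ∀ r ∈ range (m + 1), C (C ((1 - q ^ (m + 1)) / (1 - q ^ (r + 1)))) *
      (dmi p ^ (r + 1)) (C (C (p ^ (m - r))) * Hs (yR K 0 (r + 1)) (m - r)) =
      C (C (w (r + 1))) * PowerSeries.coeff (m + 1 - (r + 1)) (HS (-gY p) * Gm p (r + 1)) := by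
    intro r hr
    have hr' := mem_range.1 hr
    have e1 : m + 1 - (r + 1) = m - r := by omega
    have h2 : (dmi p ^ (r + 1)) (Hs (yR K 0 (r + 1)) (m - r)) =
        PowerSeries.coeff (m - r) (HS (-gY p) * Gm p (r + 1)) := by
      rw [← GG_eq p hp, GG, dmS, ← LS_pow, coeff_LS, coeff_HS]
    have h3 : w (r + 1) = (1 - q ^ (m + 1)) / (1 - q ^ (r + 1)) * p ^ (m - r) := by
      have e : m + 1 = (m - r) + (r + 1) := by omega
      have h4 : p ^ (m + 1) * q ^ (r + 1) = p ^ (m - r) := by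
        rw [e, pow_add, mul_assoc, ← mul_pow, h, one_pow, mul_one]
      rw [hw1, ← h4]
      ring
    rw [dmi_pow_CC_mul, h2, e1, h3, CC_mul, mul_assoc]
  have h5 := sum_w p q h (HS (-gY p)) w (m + 1)
  rw [sum_range_succ', hw0, map_zero, map_zero, zero_mul, add_zero] at h5
  rw [sum_congr rfl h1, h5]
  have h6 : ∀ k ∈ range (m + 1 + 1), C (C (∑ j ∈ range (k + 1), w j * qpp q (p ^ k) j)) *
        (PowerSeries.coeff (m + 1 - k) (HS (-gY p)) * Hs (gY p) k : Ry K) =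
      C (C (1 - p ^ (m + 1))) * (C (C (k : K)) * (Hs (-gY p) (m + 1 - k) * Hs (gY p) k)) := by
    intro k _
    have h7 : ∑ j ∈ range (k + 1), w j * qpp q (p ^ k) j = (1 - p ^ (m + 1)) * (k : K) := by
      rw [sum_range_succ', hw0, zero_mul, add_zero]
      have h8 : ∀ j ∈ range k, w (j + 1) * qpp q (p ^ k) (j + 1) = p ^ (m + 1) * (1 - q ^ (m + 1)) *
          (q ^ (j + 1) * qpp q (p ^ k) (j + 1) / (1 - q ^ (j + 1))) := by
        intro j _
        rw [hw1]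
        ring
      have h9 : p ^ (m + 1) * q ^ (m + 1) = 1 := by rw [← mul_pow, h, one_pow]
      rw [sum_congr rfl h8, ← mul_sum, sum_log p q h hq]
      linear_combination (k : K) * h9
    rw [h7, map_mul, map_mul, coeff_HS, mul_assoc]
  rw [sum_congr rfl h6, ← mul_sum, newton, cX_eq p hp]
  simp only [map_sub, map_one, map_pow]
  ring

theorem SR_C_mul (A : SR K) (F G : Ry K) : A * PowerSeries.C F * PowerSeries.C G = A * PowerSeries.C (G * F) := by
  rw [mul_assoc, ← map_mul, mul_comm F G]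

theorem SR_alg4 (A B D E : SR K) : A * B * D * E = A * (D * B) * E := by ring

theorem SR_alg5 (A B D E F : SR K) : A * B * (D * E + F) = A * B * D * E + A * F * B := by ring

theorem SR_alg6 (A B D : SR K) : A * B * D = A * D * B := by ring

/-- the sum over `r` of (L1), `m'` steps `d_+` inserted -/
theorem sum_T (p q u : K) (h : p * q = 1) (hp : ∀ k : ℕ, p ^ (k + 1) ≠ 1) (hq : ∀ k : ℕ, q ^ (k + 1) ≠ 1)
    (hM : ∀ i, Mk p u (i + 1) ≠ 0) (m k : ℕ) :
    ∑ r ∈ range (m + 1), (dmS p ^ (r + 1)) (dpi (sgS p u) k (r + 1) (AS p u (r + 1) *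
        PowerSeries.C (C (C (p ^ (m - r))) * Hs (yR K 0 (r + 1)) (m - r)))) *
        PowerSeries.C (C (C ((1 - q ^ (m + 1)) / (1 - q ^ (r + 1))))) =
      AS p u k * HS (yR K 0 k) * PowerSeries.C (cX K m) := by
  have h1 : ∀ r ∈ range (m + 1), (dmS p ^ (r + 1)) (dpi (sgS p u) k (r + 1) (AS p u (r + 1) *
        PowerSeries.C (C (C (p ^ (m - r))) * Hs (yR K 0 (r + 1)) (m - r)))) *
        PowerSeries.C (C (C ((1 - q ^ (m + 1)) / (1 - q ^ (r + 1))))) =
      AS p u k * HS (yR K 0 k) * PowerSeries.C (C (C ((1 - q ^ (m + 1)) / (1 - q ^ (r + 1)))) *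
        (dmi p ^ (r + 1)) (C (C (p ^ (m - r))) * Hs (yR K 0 (r + 1)) (m - r))) := by
    intro r _
    have h2 : AS p u (r + 1 + k) * HS (yR K (r + 1) k) *
        PowerSeries.C (C (C (p ^ (m - r))) * Hs (yR K 0 (r + 1)) (m - r)) =
        (ioS p)^[r + 1] (AS p u k * HS (yR K 0 k)) *
          PowerSeries.C (C (C (p ^ (m - r))) * Hs (yR K 0 (r + 1)) (m - r)) := by
      rw [ioS_iter_mul, ioS_iter_AS, ioS_iter_yR, zero_add, add_comm k (r + 1)]
    rw [dpiS p u hM (r + 1) k _ (Fx_arg p u (r + 1) (m - r)), h2, dmS_pow_io_C]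
    exact SR_C_mul _ _ _
  rw [sum_congr rfl h1, ← mul_sum, ← map_sum, sum_P p q h hp hq]

theorem io_iter_cX (p : K) (k m : ℕ) : (io p)^[k] (cX K m) =
    cX K m + C (C (p ^ (m + 1) - 1)) * ∑ l ∈ range k, (X l : Ry K) ^ (m + 1) := by
  induction k with
  | zero =>
    show cX K m = _
    rw [range_zero, sum_empty, mul_zero, add_zero]
  | succ k ih =>
    rw [Function.iterate_succ_apply', ih, map_add (io p), map_mul (io p), io_CC, cX, io_p, map_sum,
      sum_range_succ']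
    have h1 : ∀ l ∈ range k, io p ((X l : Ry K) ^ (m + 1)) = X (l + 1) ^ (m + 1) := by
      intro l _
      rw [map_pow, io_X]
    rw [sum_congr rfl h1]
    generalize (∑ l ∈ range k, (X (l + 1) : Ry K) ^ (m + 1)) = S
    ring

/-- `d_+^k` on `A_0 p_(m+1)` -/
theorem dpi_cX (p u : K) (hM : ∀ i, Mk p u (i + 1) ≠ 0) (k m : ℕ) :
    dpi (sgS p u) k 0 (AS p u 0 * PowerSeries.C (cX K m)) = AS p u k * HS (yR K 0 k) * PowerSeries.C (cX K m +
      C (C ((p ^ (m + 1) - 1) * u ^ (m + 1))) * ∑ l ∈ range k, (X l : Ry K) ^ (m + 1)) := by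
  induction k with
  | zero =>
    show AS p u 0 * PowerSeries.C (cX K m) = _
    rw [yR_zero, HS_zero_seq, mul_one, range_zero, sum_empty, mul_zero, add_zero]
  | succ k ih =>
    have h1 : ∀ l ∈ range k, sg p u k ((X l : Ry K) ^ (m + 1)) = X l ^ (m + 1) := by
      intro l hl
      rw [map_pow, sg_X_lt p u (mem_range.1 hl)]
    have h2 : sg p u k (cX K m + C (C ((p ^ (m + 1) - 1) * u ^ (m + 1))) *
        ∑ l ∈ range k, (X l : Ry K) ^ (m + 1)) = cX K m +
        C (C ((p ^ (m + 1) - 1) * u ^ (m + 1))) * ∑ l ∈ range (k + 1), (X l : Ry K) ^ (m + 1) := by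
      rw [map_add (sg p u k), map_mul (sg p u k), sg_CC, map_sum, sum_congr rfl h1, cX, sg_p, sum_range_succ]
      generalize (∑ l ∈ range k, (X l : Ry K) ^ (m + 1)) = S
      ring
    rw [dpi, Module.End.mul_apply, ih, zero_add, sgS_mul, sgS_mul, sgS_AS p u hM, sgS_C, h2,
      Fx_yR p u 0 k k (by omega), yR_succ, HS_add, zero_add]
    exact SR_alg4 _ _ _ _

theorem dpi_cX' (p u : K) (hM : ∀ i, Mk p u (i + 1) ≠ 0) (k m : ℕ) :
    dpi (sgS p u) k 0 (AS p u 0 * PowerSeries.C (cX K m)) =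
      AS p u k * HS (yR K 0 k) * PowerSeries.C (cX K m) * PowerSeries.C (C (C (1 - u ^ (m + 1)))) +
      (ioS p)^[k] (AS p u 0 * PowerSeries.C (C (C (u ^ (m + 1))) * cX K m)) * HS (yR K 0 k) := by
  have h1 : cX K m + C (C ((p ^ (m + 1) - 1) * u ^ (m + 1))) * ∑ l ∈ range k, (X l : Ry K) ^ (m + 1) =
      cX K m * C (C (1 - u ^ (m + 1))) + (io p)^[k] (C (C (u ^ (m + 1))) * cX K m) := by
    rw [io_iter_mul, io_iter_CC, io_iter_cX, CC_mul]
    have h2 : (C (C (1 - u ^ (m + 1))) : Ry K) = 1 - C (C (u ^ (m + 1))) := by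
      rw [map_sub, map_sub, map_one, map_one]
    rw [h2]
    generalize (∑ l ∈ range k, (X l : Ry K) ^ (m + 1)) = S
    ring
  rw [dpi_cX p u hM, h1, map_add, map_mul, ioS_iter_mul, ioS_iter_AS, ioS_iter_C, zero_add]
  exact SR_alg5 _ _ _ _ _

/-- (L1) for one value of `m'` -/
theorem L1_m (p q u : K) (h : p * q = 1) (hp : ∀ k : ℕ, p ^ (k + 1) ≠ 1) (hq : ∀ k : ℕ, q ^ (k + 1) ≠ 1)
    (hM : ∀ i, Mk p u (i + 1) ≠ 0) (m k : ℕ) :
    (dmS p ^ k) (dpi (sgS p u) k 0 (AS p u 0 * PowerSeries.C (cX K m))) =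
      (dmS p ^ k) (∑ r ∈ range (m + 1), (dmS p ^ (r + 1)) (dpi (sgS p u) k (r + 1) (AS p u (r + 1) *
        PowerSeries.C (C (C (p ^ (m - r))) * Hs (yR K 0 (r + 1)) (m - r)))) *
        PowerSeries.C (C (C ((1 - q ^ (m + 1)) / (1 - q ^ (r + 1)))))) * PowerSeries.C (C (C (1 - u ^ (m + 1)))) +
      (AS p u 0 * GG p k) * PowerSeries.C (C (C (u ^ (m + 1))) * cX K m) := by
  rw [sum_T p q u h hp hq hM, dpi_cX' p u hM, map_add, dmS_pow_io_mul]
  have h1 : (dmS p ^ k) (AS p u k * HS (yR K 0 k) * PowerSeries.C (cX K m) *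
      PowerSeries.C (C (C (1 - u ^ (m + 1))))) = (dmS p ^ k) (AS p u k * HS (yR K 0 k) *
      PowerSeries.C (cX K m)) * PowerSeries.C (C (C (1 - u ^ (m + 1)))) := by
    rw [← smulS, ← smulS, map_smul]
  rw [h1]
  exact congrArg _ (SR_alg6 _ _ _)

end Pool.VD.CV
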