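import Pool.Agent.VD.Defs

/-!
# The sequences `h_n[A]`
-/

set_option autoImplicit false

namespace Pool.VD

open Finset

variable {R : Type} [CommRing R] [Algebra ℚ R]

theorem Hs_zero (a : ℕ → R) : Hs a 0 = 1 := by
  rw [Hs]

theorem Hs_rec (a : ℕ → R) (n : ℕ) :
    ((n : R) + 1) * Hs a (n + 1) = ∑ k ∈ range (n + 1), a k * Hs a (n - k) := by
  rw [Hs, ← Fin.sum_univ_eq_sum_range (fun k => a k * Hs a (n - k))]
  have h : ((n : R) + 1) = algebraMap ℚ R (n + 1) := by simp
  rw [h, ← Algebra.smul_def, smul_smul, mul_inv_cancel₀ (by positivity), one_smul]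

theorem Hs_one (a : ℕ → R) : Hs a 1 = a 0 := by
  have h := Hs_rec a 0
  simpa [Hs_zero] using h

theorem nat_mul_cancel {x y : R} (n : ℕ) (h : ((n : R) + 1) * x = ((n : R) + 1) * y) : x = y := by
  have h1 : ((n : R) + 1) = algebraMap ℚ R (n + 1) := by simp
  rw [h1, ← Algebra.smul_def, ← Algebra.smul_def] at h
  have h2 := congrArg (fun z => ((n + 1 : ℚ)⁻¹) • z) h
  simp only [smul_smul] at h2
  rwa [inv_mul_cancel₀ (by positivity), one_smul, one_smul] at h2

theorem Hs_unique {a : ℕ → R} {f : ℕ → R} (h0 : f 0 = 1)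
    (h : ∀ n : ℕ, ((n : R) + 1) * f (n + 1) = ∑ k ∈ range (n + 1), a k * f (n - k)) (n : ℕ) :
    Hs a n = f n := by
  induction n using Nat.strong_induction_on with
  | _ n ih =>
    cases n with
    | zero => rw [Hs_zero, h0]
    | succ n =>
      apply nat_mul_cancel n
      rw [Hs_rec, h]
      refine sum_congr rfl fun k hk => ?_
      rw [ih (n - k) (by omega)]

/-- the generating series -/
noncomputable def HS (a : ℕ → R) : PowerSeries R := PowerSeries.mk (Hs a)

theorem coeff_HS (a : ℕ → R) (n : ℕ) : PowerSeries.coeff n (HS a) = Hs a n := by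
  simp [HS]

/-- `H' = A H` with `A = ∑ a k X ^ k`. -/
theorem HS_deriv (a : ℕ → R) :
    PowerSeries.derivative R (HS a) = PowerSeries.mk a * HS a := by
  ext n
  rw [PowerSeries.coeff_derivative, coeff_HS,
    PowerSeries.coeff_mul, Finset.Nat.sum_antidiagonal_eq_sum_range_succ_mk, mul_comm, Hs_rec]
  refine sum_congr rfl fun k _ => ?_
  simp [coeff_HS]

theorem HS_unique {a : ℕ → R} {F : PowerSeries R} (h0 : PowerSeries.coeff 0 F = 1)
    (h : PowerSeries.derivative R F = PowerSeries.mk a * F) : HS a = F := by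
  ext n
  rw [coeff_HS]
  refine Hs_unique (f := fun n => PowerSeries.coeff n F) h0 (fun (n : ℕ) => ?_) n
  have h1 := congrArg (PowerSeries.coeff n) h
  rw [PowerSeries.coeff_derivative, PowerSeries.coeff_mul,
    Finset.Nat.sum_antidiagonal_eq_sum_range_succ_mk, mul_comm] at h1
  rw [h1]
  refine sum_congr rfl fun k _ => ?_
  simp

theorem HS_add (a b : ℕ → R) : HS (a + b) = HS a * HS b := by
  apply HS_unique
  · simp [PowerSeries.coeff_mul, coeff_HS, Hs_zero]
  · rw [Derivation.leibniz, HS_deriv, HS_deriv]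
    have h : PowerSeries.mk (a + b) = PowerSeries.mk a + PowerSeries.mk b := by
      ext n; simp
    rw [h]
    simp only [smul_eq_mul]
    ring

theorem HS_zero_seq : HS (0 : ℕ → R) = 1 := by
  apply HS_unique
  · simp
  · have h : PowerSeries.mk (0 : ℕ → R) = 0 := by
      ext n; simp
    rw [h, zero_mul]
    exact Derivation.map_one_eq_zero _

theorem HS_neg_mul (a : ℕ → R) : HS (-a) * HS a = 1 := by
  rw [← HS_add, neg_add_cancel, HS_zero_seq]

theorem HS_mul_neg (a : ℕ → R) : HS a * HS (-a) = 1 := by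
  rw [mul_comm, HS_neg_mul]

theorem Hs_add (a b : ℕ → R) (n : ℕ) :
    Hs (a + b) n = ∑ x ∈ antidiagonal n, Hs a x.1 * Hs b x.2 := by
  rw [← coeff_HS, HS_add, PowerSeries.coeff_mul]
  simp [coeff_HS]

theorem Hs_add' (a b : ℕ → R) (n : ℕ) :
    Hs (a + b) n = ∑ k ∈ range (n + 1), Hs a k * Hs b (n - k) := by
  rw [Hs_add, Finset.Nat.sum_antidiagonal_eq_sum_range_succ_mk]

/-- `∑_(i+j=n) h_i[-A] h_j[A] = δ_(n,0)` -/
theorem Hs_neg_conv (a : ℕ → R) (n : ℕ) :
    ∑ k ∈ range (n + 1), Hs (-a) k * Hs a (n - k) = if n = 0 then 1 else 0 := by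
  rw [← Hs_add', neg_add_cancel, ← coeff_HS, HS_zero_seq, PowerSeries.coeff_one]

theorem Hs_map {S : Type} [CommRing S] [Algebra ℚ S] (φ : R →+* S) (a : ℕ → R) (n : ℕ) :
    φ (Hs a n) = Hs (fun k => φ (a k)) n := by
  symm
  refine Hs_unique (f := fun n => φ (Hs a n)) (by simp [Hs_zero]) (fun (n : ℕ) => ?_) n
  have h := congrArg φ (Hs_rec a n)
  simpa [map_sum] using h

/-- `h_n[cA] = c^n h_n[A]` -/
theorem Hs_scale (c : R) (a : ℕ → R) (n : ℕ) :
    Hs (fun k => c ^ (k + 1) * a k) n = c ^ n * Hs a n := by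
  refine Hs_unique (f := fun n => c ^ n * Hs a n) (by simp [Hs_zero]) (fun (n : ℕ) => ?_) n
  have h := Hs_rec a n
  calc ((n : R) + 1) * (c ^ (n + 1) * Hs a (n + 1))
      = c ^ (n + 1) * (((n : R) + 1) * Hs a (n + 1)) := by ring
    _ = _ := by
      rw [h, mul_sum]
      refine sum_congr rfl fun k hk => ?_
      have hk' : k ≤ n := by simpa [Nat.lt_succ_iff] using hk
      have : c ^ (n + 1) = c ^ (k + 1) * c ^ (n - k) := by
        rw [← pow_add]; congr 1; omega
      rw [this]; ring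

theorem Hs_geom (c : R) (n : ℕ) : Hs (fun k => c ^ (k + 1)) n = c ^ n := by
  refine Hs_unique (f := fun n => c ^ n) (by simp) (fun (n : ℕ) => ?_) n
  have : ∀ k ∈ range (n + 1), c ^ (k + 1) * c ^ (n - k) = c ^ (n + 1) := by
    intro k hk
    have hk' : k ≤ n := by simpa [Nat.lt_succ_iff] using hk
    rw [← pow_add]; congr 1; omega
  rw [sum_congr rfl this]
  simp

theorem HS_geom_mul (c : R) :
    HS (fun k => c ^ (k + 1)) * (1 - PowerSeries.C c * PowerSeries.X) = 1 := by
  ext n
  rw [mul_sub, mul_one, ← mul_assoc, map_sub, coeff_HS, Hs_geom]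
  cases n with
  | zero => simp
  | succ n =>
    rw [PowerSeries.coeff_succ_mul_X, mul_comm, PowerSeries.coeff_C_mul, coeff_HS, Hs_geom]
    simp [PowerSeries.coeff_one]
    ring

theorem HS_neg_geom (c : R) :
    HS (fun k => -c ^ (k + 1)) = 1 - PowerSeries.C c * PowerSeries.X := by
  have h1 := HS_geom_mul c
  have h2 := HS_neg_mul (fun k : ℕ => c ^ (k + 1))
  have h3 : (-fun k : ℕ => c ^ (k + 1)) = fun k => -c ^ (k + 1) := by
    ext k; rfl
  rw [h3] at h2
  calc HS (fun k => -c ^ (k + 1)) = HS (fun k => -c ^ (k + 1)) * (HS (fun k => c ^ (k + 1)) *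
        (1 - PowerSeries.C c * PowerSeries.X)) := by rw [h1, mul_one]
    _ = _ := by rw [← mul_assoc, h2, one_mul]

theorem Hs_neg_geom (c : R) (n : ℕ) :
    Hs (fun k => -c ^ (k + 1)) n = if n = 0 then 1 else if n = 1 then -c else 0 := by
  rw [← coeff_HS, HS_neg_geom]
  match n with
  | 0 => simp
  | 1 => simp [PowerSeries.coeff_one]
  | n + 2 => simp [PowerSeries.coeff_one]

/-- `h_n[1] = 1` -/
theorem Hs_const_one (n : ℕ) : Hs (fun _ => (1 : R)) n = 1 := by
  have h := Hs_geom (1 : R) n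
  simpa using h

/-- `h_n[-1]` -/
theorem Hs_const_neg_one (n : ℕ) :
    Hs (fun _ => (-1 : R)) n = if n = 0 then 1 else if n = 1 then -1 else 0 := by
  have h := Hs_neg_geom (1 : R) n
  simpa using h

/-- `h_n[1-c] = 1-c` for `n ≥ 1` -/
theorem Hs_one_sub_geom (c : R) (n : ℕ) :
    Hs (fun k => 1 - c ^ (k + 1)) n = if n = 0 then 1 else 1 - c := by
  have h : (fun k : ℕ => 1 - c ^ (k + 1)) = (fun _ => (1 : R)) + fun k => -c ^ (k + 1) := by
    ext k; simp [sub_eq_add_neg]
  rw [← coeff_HS, h, HS_add, HS_neg_geom, mul_sub, mul_one, ← mul_assoc, map_sub, coeff_HS,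
    Hs_const_one]
  cases n with
  | zero => simp
  | succ n =>
    rw [PowerSeries.coeff_succ_mul_X, mul_comm, PowerSeries.coeff_C_mul, coeff_HS, Hs_const_one]
    simp

/-- `h_n[M] = M/(1-qt) (1 - (qt)^n)` for `n ≥ 1` -/
theorem Hs_Mk {K : Type} [Field K] [CharZero K] (q t : K) (hqt : q * t ≠ 1) (n : ℕ) :
    Hs (fun i => Mk q t (i + 1)) n =
      (if n = 0 then 1 else 0) + Mk q t 1 / (1 - q * t) * (1 - (q * t) ^ n) := by
  have hd : (1 - q * t) ≠ 0 := sub_ne_zero.2 (Ne.symm hqt)
  -- the series F with these coefficients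
  set c : K := Mk q t 1 / (1 - q * t) with hc
  have hcM : c * (1 - q * t) = Mk q t 1 := by rw [hc]; field_simp
  have hsplit : (fun i => Mk q t (i + 1)) = ((fun _ => (1 : K)) + fun i => (q * t) ^ (i + 1)) +
      ((fun i => -q ^ (i + 1)) + fun i => -t ^ (i + 1)) := by
    ext i
    simp only [Mk, Pi.add_apply]
    ring
  have e1 : HS (fun _ : ℕ => (1 : K)) * (1 - PowerSeries.X) = 1 := by
    have h := HS_geom_mul (1 : K)
    simpa using h
  have e2 := HS_geom_mul (q * t)
  have e3 := HS_neg_geom q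
  have e4 := HS_neg_geom t
  set A := HS (fun _ : ℕ => (1 : K)) with hA
  set B := HS (fun i : ℕ => (q * t) ^ (i + 1)) with hB
  have hH : HS (fun i => Mk q t (i + 1)) = A * B * ((1 - PowerSeries.C q * PowerSeries.X) *
      (1 - PowerSeries.C t * PowerSeries.X)) := by
    rw [hsplit, HS_add, HS_add, HS_add, e3, e4]
  have hCc : (PowerSeries.C c : PowerSeries K) * (1 - PowerSeries.C q * PowerSeries.C t) =
      (1 - PowerSeries.C q) * (1 - PowerSeries.C t) := by
    have h := congrArg (PowerSeries.C (R := K)) hcM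
    simpa [Mk] using h
  have key : HS (fun i => Mk q t (i + 1)) = 1 + PowerSeries.C c * (A - B) := by
    have hA' : A - B = A * B * ((1 - PowerSeries.C (q * t) * PowerSeries.X) - (1 - PowerSeries.X)) := by
      calc A - B = A * (B * (1 - PowerSeries.C (q * t) * PowerSeries.X)) -
            B * (A * (1 - PowerSeries.X)) := by rw [e1, e2, mul_one, mul_one]
        _ = _ := by ring
    have h1' : (1 : PowerSeries K) = A * B * ((1 - PowerSeries.C (q * t) * PowerSeries.X) *
        (1 - PowerSeries.X)) := by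
      calc (1 : PowerSeries K) = (A * (1 - PowerSeries.X)) *
            (B * (1 - PowerSeries.C (q * t) * PowerSeries.X)) := by rw [e1, e2, mul_one]
        _ = _ := by ring
    rw [hH, hA']
    have h2 : A * B * ((1 - PowerSeries.C q * PowerSeries.X) *
      (1 - PowerSeries.C t * PowerSeries.X)) = A * B * ((1 - PowerSeries.C (q * t) * PowerSeries.X) *
        (1 - PowerSeries.X)) + A * B * (((1 - PowerSeries.C q) * (1 - PowerSeries.C t)) *
          PowerSeries.X) := by
      rw [map_mul]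
      ring
    rw [h2, ← h1', ← hCc, map_mul]
    ring
  rw [← coeff_HS, key, map_add, PowerSeries.coeff_C_mul, map_sub, hA, hB, coeff_HS, coeff_HS,
    Hs_geom, Hs_const_one, PowerSeries.coeff_one]

end Pool.VD
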