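import Pool.Agent.VD.StCG
import Pool.Agent.VD.M_HS

/-! # Block C, module Eal (helper17) -/

set_option autoImplicit false
set_option linter.unusedSectionVars false

namespace Pool.VD

open MvPolynomial Finset

theorem pEal : StEal := by
  intro K _ _ q t hq ht l
  have hM : ∀ i : ℕ, Mk q t (i + 1) ≠ 0 := fun i =>
    mul_ne_zero (sub_ne_zero.2 (hq (i + 1) (by omega)).symm) (sub_ne_zero.2 (ht (i + 1) (by omega)).symm)
  have e1 : (fun i => (C t : Lam K) ^ (i + 1) * -(C (Mk q t (i + 1))⁻¹ * X i : Lam K)) =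
      (fun i => -(C (Mk q t (i + 1))⁻¹ * X i : Lam K)) +
        fun i => (C (1 - q ^ (i + 1))⁻¹ * X i : Lam K) := by
    funext i
    rw [Pi.add_apply]
    have h1 : t ^ (i + 1) * -(Mk q t (i + 1))⁻¹ = -(Mk q t (i + 1))⁻¹ + (1 - q ^ (i + 1))⁻¹ := by
      have h2 : (1 - q ^ (i + 1)) ≠ 0 := sub_ne_zero.2 (hq (i + 1) (by omega)).symm
      have h3 : (1 - t ^ (i + 1)) ≠ 0 := sub_ne_zero.2 (ht (i + 1) (by omega)).symm
      rw [Mk]
      field_simp
      ring
    have h2 : (C t : Lam K) ^ (i + 1) * -(C (Mk q t (i + 1))⁻¹ * X i : Lam K) =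
        C (t ^ (i + 1) * -(Mk q t (i + 1))⁻¹) * X i := by
      simp only [map_mul, map_neg, map_pow]; ring
    rw [h2, h1, map_add, map_neg]
    ring
  have e2 := Hs_scale (C t : Lam K) (fun i => -(C (Mk q t (i + 1))⁻¹ * X i : Lam K)) l
  rw [e1, Hs_add] at e2
  have e3 : C (t ^ l) * Est q t l = (-1) ^ l * ((C t : Lam K) ^ l *
      Hs (fun i => -(C (Mk q t (i + 1))⁻¹ * X i : Lam K)) l) := by
    rw [Est, map_pow]; ring
  rw [e3, ← e2, mul_sum]
  refine sum_congr rfl fun p hp => ?_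
  have hp' : p.1 + p.2 = l := mem_antidiagonal.1 hp
  rw [Est, al, ← hp', pow_add]
  ring

end Pool.VD
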