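import Pool.Agent.VD.StCG

/-!
# Block C: transfer of the level recursion, uniqueness (helper17)
-/

set_option autoImplicit false
set_option linter.unusedSectionVars false

namespace Pool.VD

open Finset

namespace TrL

variable {K : Type} [Field K] {U U' : Type} [AddCommGroup U] [Module K U] [AddCommGroup U'] [Module K U']
  {dm : Module.End K U} {dp : ℕ → Module.End K U} {dm' : Module.End K U'} {dp' : ℕ → Module.End K U'}
  {N : ℕ → U →ₗ[K] U'}

theorem pw (h1 : ∀ k x, N k (dm x) = dm' (N (k + 1) x)) (m k : ℕ) (x : U) :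
    N k ((dm ^ m) x) = (dm' ^ m) (N (k + m) x) := by
  induction m generalizing k x with
  | zero => simp
  | succ m ih =>
    rw [pow_succ', pow_succ', Module.End.mul_apply, Module.End.mul_apply, h1, ih (k + 1) x]
    have : k + 1 + m = k + (m + 1) := by omega
    rw [this]

theorem di (h2 : ∀ k x, N (k + 1) (dp k x) = dp' k (N k x)) (m k : ℕ) (x : U) :
    N (k + m) (dpi dp m k x) = dpi dp' m k (N k x) := by
  induction m with
  | zero => simp [dpi]
  | succ m ih =>
    show N (k + m + 1) (dp (k + m) (dpi dp m k x)) = dp' (k + m) (dpi dp' m k (N k x))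
    rw [h2, ih]

theorem cck (h1 : ∀ k x, N k (dm x) = dm' (N (k + 1) x)) (h2 : ∀ k x, N (k + 1) (dp k x) = dp' k (N k x))
    (s : ℕ) (x : U) : N (s + 1) (CCk dm dp s x) = CCk dm' dp' s (N (s + 1) x) := by
  show N (s + 1) (dm (dp (s + 1) x) - dp s (dm x)) = dm' (dp' (s + 1) (N (s + 1) x)) - dp' s (dm' (N (s + 1) x))
  rw [map_sub, h1, h2, h2, h1]

theorem wwt (h1 : ∀ k x, N k (dm x) = dm' (N (k + 1) x)) (h2 : ∀ k x, N (k + 1) (dp k x) = dp' k (N k x))
    (c : K) (b s : ℕ) (x : U) : N (s + 1) (ww c dm dp b s x) = ww c dm' dp' b s (N (s + b) x) := by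
  cases b with
  | zero => exact h2 s x
  | succ b =>
    show N (s + 1) (c • CCk dm dp s ((dm ^ b) x)) = c • CCk dm' dp' s ((dm' ^ b) (N (s + (b + 1)) x))
    rw [map_smul, cck h1 h2, pw h1]
    have : s + 1 + b = s + (b + 1) := by omega
    rw [this]

theorem aat (h1 : ∀ k x, N k (dm x) = dm' (N (k + 1) x)) (h2 : ∀ k x, N (k + 1) (dp k x) = dp' k (N k x))
    (c : K) (r k m : ℕ) (x : U) : N (m + r) (AA c dm dp r k m x) = AA c dm' dp' r k m (N (m + k) x) := by
  induction r generalizing k m x with
  | zero =>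
    by_cases hk : k = 0
    · subst hk
      simp [AA]
    · simp [AA, hk]
  | succ r ih =>
    simp only [AA, LinearMap.sum_apply, Module.End.mul_apply, map_sum]
    refine sum_congr rfl fun b hb => ?_
    have hb' : b ≤ k := by simpa [Nat.lt_succ_iff] using hb
    have e1 : m + (r + 1) = m + 1 + r := by omega
    have e2 : m + 1 + (k - b) = m + k - b + 1 := by omega
    have e3 : m + k - b + b = m + k := by omega
    rw [e1, ih, e2, wwt h1 h2, e3]

end TrL

theorem pTrL : StTrL := by
  intro K _ U U' _ _ _ _ dm dp dm' dp' N h1 h2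
  refine ⟨TrL.pw h1, TrL.di h2, fun q t κ r a n => ?_⟩
  simp only [Lrec, map_smul, map_sum]
  congr 1
  refine sum_congr rfl fun m _ => ?_
  congr 1
  refine sum_congr rfl fun k _ => ?_
  rw [TrL.pw h1, add_comm r m, TrL.aat h1 h2, add_comm m k, TrL.di h2]

theorem pUniq : StUniq := by
  intro K _ U _ _ q t dm dp κ κ' ht h h' h00 h0n
  -- level 0 words empty, no cars
  have hA : ∀ a, κ 0 a 0 = κ' 0 a 0 := by
    intro a
    induction a using Nat.strong_induction_on with
    | _ a ih =>
      cases a with
      | zero => exact h00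
      | succ a =>
        have e1 := h 0 (a + 1) 0
        have e2 := h' 0 (a + 1) 0
        simp only [Lrec, pow_zero, one_smul] at e1 e2
        rw [sum_range_succ'] at e1 e2
        have e3 : ∀ m ∈ range (a + 1),
            (t ^ (a + 1 - (m + 1)) * (-1) ^ (m + 1) / qfac q (m + 1)) •
              ∑ k ∈ range (0 + 1), (dm ^ (m + 1)) (AA (q - 1)⁻¹ dm dp 0 k (m + 1)
                (dpi dp (m + 1) k (κ k (a + 1 - (m + 1)) (0 - k)))) =
            (t ^ (a + 1 - (m + 1)) * (-1) ^ (m + 1) / qfac q (m + 1)) •
              ∑ k ∈ range (0 + 1), (dm ^ (m + 1)) (AA (q - 1)⁻¹ dm dp 0 k (m + 1)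
                (dpi dp (m + 1) k (κ' k (a + 1 - (m + 1)) (0 - k)))) := by
          intro m hm
          congr 1
          refine sum_congr rfl fun k hk => ?_
          have hk0 : k = 0 := by simpa using hk
          subst hk0
          rw [ih (a + 1 - (m + 1)) (by omega)]
        rw [sum_congr rfl e3] at e1
        have e4 : ∀ x : U, (t ^ (a + 1 - 0) * (-1) ^ 0 / qfac q 0) •
            ∑ k ∈ range (0 + 1), (dm ^ 0) (AA (q - 1)⁻¹ dm dp 0 k 0 (dpi dp 0 k x)) = t ^ (a + 1) • x := by
          intro x
          simp [AA, dpi, qfac]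
        have e5 : ∀ c : ℕ → ℕ → ℕ → U, (t ^ (a + 1 - 0) * (-1) ^ 0 / qfac q 0) •
            ∑ k ∈ range (0 + 1), (dm ^ 0) (AA (q - 1)⁻¹ dm dp 0 k 0 (dpi dp 0 k (c k (a + 1 - 0) (0 - k)))) =
            t ^ (a + 1) • c 0 (a + 1) 0 := by
          intro c
          rw [← e4 (c 0 (a + 1) 0)]
          congr 1
        rw [e5] at e1 e2
        have e6 : (1 - t ^ (a + 1)) • (κ 0 (a + 1) 0 - κ' 0 (a + 1) 0) = 0 := by
          rw [sub_smul, one_smul, smul_sub]
          have e8 := congrArg₂ (fun x y => x - y) e1 e2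
          simp only [add_sub_add_left_eq_sub] at e8
          exact sub_eq_zero.2 e8
        rcases smul_eq_zero.1 e6 with e7 | e7
        · exact absurd (sub_eq_zero.1 e7).symm (ht a)
        · exact sub_eq_zero.1 e7
  have hB : ∀ n r a, κ r a n = κ' r a n := by
    intro n
    induction n using Nat.strong_induction_on with
    | _ n ih =>
      intro r a
      rw [h r a n, h' r a n]
      simp only [Lrec]
      congr 1
      refine sum_congr rfl fun m _ => ?_
      congr 1
      refine sum_congr rfl fun k hk => ?_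
      have hk' : k ≤ n := by simpa [Nat.lt_succ_iff] using hk
      have e1 : κ k (a - m) (n - k) = κ' k (a - m) (n - k) := by
        cases k with
        | zero =>
          cases n with
          | zero => exact hA _
          | succ n => exact h0n _ _
        | succ k => exact ih (n - (k + 1)) (by omega) _ _
      rw [e1]
  exact fun r a n => hB n r a

end Pool.VD

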