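import Pool.Agent.VD.CM

/-!
# MP_cf06d4_co, block CM (Carlsson - Mellit side): statements

Every `StX : Prop` is one module (file `Pool/Agent/VD/M_X.lean`, theorem `pX (dependencies) : StX`); the docstring is
a complete proof.  Conventions: `Pool/Agent/VD/CM.lean` (`y_0` = top variable, spectators `y_j`, `j ≥ k`).
All statements were checked numerically on random elements.  `u = y_(j+1)` (lower), `v = y_j` (upper).
-/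

set_option autoImplicit false

namespace Pool.VD.CM

open MvPolynomial Finset

/-! ## A. the operators on `Ry K` -/

/-- StC1.  Identities between algebra homomorphisms: `MvPolynomial.algHom_ext` twice (on the generators `C (X i)` and `X j`;
`aevalTower_C`, `aevalTower_X`, `aeval_X`) or `induction_on`. -/
def StC1 : Prop := ∀ (K : Type) [Field K] [CharZero K] (q t : K),
  (∀ G, th q (io q G) = Polynomial.C G) ∧ th q (X 0) = Polynomial.X ∧ (∀ j, th q (X (j + 1)) = Polynomial.C (X j)) ∧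
  (∀ k G, sg q t (k + 1) (io q G) = io q (sg q t k G)) ∧
  (∀ j G, io q (sw K j G) = sw K (j + 1) (io q G)) ∧ (∀ G, sw K 0 (io q (io q G)) = io q (io q G)) ∧
  (∀ k j G, j + 1 < k → sg q t k (sw K j G) = sw K j (sg q t k G)) ∧
  (∀ k G, sw K k (sg q t (k + 1) (sg q t k G)) = sg q t (k + 1) (sg q t k G)) ∧
  (∀ j G, sw K j (sw K j G) = G) ∧
  (∀ j, io q (X j) = X (j + 1)) ∧ (∀ k j, sg q t k (X j) = if j < k then X j else X (j + 1))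

/-- StC2.  The characterisation of `dmi`: `Polynomial.lsum` is `Ry K`-linear, `th (io G) = C G`, `th (X 0 ^ a) = X ^ a`,
`X (j+1) = io (X j)`.  Last item: `dmi (io G) = -ε_1 G = p_1 G` (`Ep K 1 = -X 0`). -/
def StC2 : Prop := ∀ (K : Type) [Field K] [CharZero K] (q : K),
  (∀ G F, dmi q (io q G * F) = G * dmi q F) ∧ (∀ a, dmi q (X 0 ^ a : Ry K) = -C (Ep K (a + 1))) ∧
  (∀ j F, dmi q (X (j + 1) * F) = X j * dmi q F) ∧ (∀ G, dmi q (io q G) = C (X 0) * G)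

/-- StC3.  `Ry K` is spanned by the `io G * y_0^a`; and by the `io (io G) * (y_1^b y_0^a)`.  The additive subgroup generated by the
`io G * y_0^a` is closed under multiplication and contains `y_0`, `y_(j+1) = io (y_j)`, the constants `C (C c) = io (C (C c))` and
`C (X i) = io (C (X i)) - (q^(i+1)-1) y_0^(i+1)`; `MvPolynomial.induction_on` twice. -/
def StC3 : Prop := ∀ (K : Type) [Field K] [CharZero K] (q : K) (S : AddSubgroup (Ry K)),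
  ((∀ (G : Ry K) (a : ℕ), io q G * X 0 ^ a ∈ S) → ∀ F, F ∈ S) ∧
  ((∀ (G : Ry K) (a b : ℕ), io q (io q G) * (X 1 ^ b * X 0 ^ a) ∈ S) → ∀ F, F ∈ S)

/-- StC4.  Basic facts on `T_j = Th q j`, from `dd_spec` (all by cancelling `X j - X (j+1)`, `Xj_ne`; `Ry K` is a domain):
(1) the formula `(v-u) T F = (q-1) u F + (v - q u) s F`;  (2) linearity over symmetric elements;  (3) `T G = G` for symmetric `G`;
(4) `(T+q)F` is symmetric: apply `s` to (1): `(v-u)(T F + q F) = (v - q u) s F + (q v - u) F`;  (5) quadratic relation, from (3), (4):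
`T (T F + q F) = T F + q F`;  (6) `T y_j = y_(j+1) (T + q - 1)`;  (7) `T y_(j+1) = y_j T - (q-1) y_(j+1)`;  (8) `T y_i = y_i T`, `i ≠ j, j+1`;
(9) `T` and `Thi` are inverse to each other;  (10) `T F - F = (q u - v) dd F`, `dd F` symmetric. -/
def StC4 : Prop := ∀ (K : Type) [Field K] [CharZero K] (q : K) (j : ℕ) (F : Ry K),
  ((X j - X (j + 1)) * Th q j F = C (C (q - 1)) * X (j + 1) * F + (X j - C (C q) * X (j + 1)) * sw K j F) ∧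
  (∀ G : Ry K, sw K j G = G → Th q j (G * F) = G * Th q j F) ∧
  (sw K j F = F → Th q j F = F) ∧
  (sw K j (Th q j F + q • F) = Th q j F + q • F) ∧
  (Th q j (Th q j F) = (1 - q) • Th q j F + q • F) ∧
  (Th q j (X j * F) = X (j + 1) * (Th q j F + (q - 1) • F)) ∧
  (Th q j (X (j + 1) * F) = X j * Th q j F - (q - 1) • (X (j + 1) * F)) ∧
  (∀ i, i ≠ j → i ≠ j + 1 → Th q j (X i * F) = X i * Th q j F) ∧
  (q ≠ 0 → Thi q j (Th q j F) = F ∧ Th q j (Thi q j F) = F) ∧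
  (Th q j F - F = (C (C q) * X (j + 1) - X j) * dd j F ∧ sw K j (dd j F) = dd j F)

/-- StC5.  Braid relation and far commutation.  In the fraction field of `Ry K` (or after multiplication with the
denominators) `T_j = a_j + b_j s_j` with `a_j = (q-1) u/(v-u)`, `b_j = (v - q u)/(v-u)`; the braid relation is an identity between the
coefficients of the six permutations of `F`; far: the factors commute. -/
def StC5 : Prop := ∀ (K : Type) [Field K] [CharZero K] (q : K) (F : Ry K),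
  (∀ j, Th q j (Th q (j + 1) (Th q j F)) = Th q (j + 1) (Th q j (Th q (j + 1) F))) ∧
  (∀ i j, i + 2 ≤ j → Th q i (Th q j F) = Th q j (Th q i F))

/-- StC6.  Intertwining: an algebra homomorphism `g` with `g s_j = s_i g`, `g y_j = y_i`, `g y_(j+1) = y_(i+1)` satisfies `g T_j = T_i g`
(multiply by `y_i - y_(i+1)`).  (1), (2) `g = io`, `sg`;  (3), (4) `sg sg` and `io io` are symmetric (StC1), StC4 (3);
(5) `dmi T_(j+1) = T_j dmi`: StC3: for `F = io G * y_0^a`, `T_(j+1) F = io (T_j G) * y_0^a` (StC4 (2) with `y_0^a` symmetric in `y_(j+1)`,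
`y_(j+2)`) and StC2. -/
def StC6 : Prop := ∀ (K : Type) [Field K] [CharZero K] (q t : K) (F : Ry K),
  (∀ j, Th q (j + 1) (io q F) = io q (Th q j F)) ∧
  (∀ k j, j + 1 < k → sg q t k (Th q j F) = Th q j (sg q t k F)) ∧
  (∀ k, Th q k (sg q t (k + 1) (sg q t k F)) = sg q t (k + 1) (sg q t k F)) ∧
  (Th q 0 (io q (io q F)) = io q (io q F)) ∧
  (∀ j, dmi q (Th q (j + 1) F) = Th q j (dmi q F))

/-- StEps.  The shifts of `ε_n = Ep K n`.  `StHsMap`, `StHsAdd`, `StHsSc` (with `c = X 0`, resp. `X k`), `StHsGeo`: `ε_n[(q-1) y] = ka q n y^n`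
(`Hs (fun i => 1 - q^(i+1)) = ka q`), `ε_n[(1-q) y] = kb q n y^n` (`Hs (fun i => q^(i+1) - 1) = kb q`, StHsGeo with `b = q⁻¹`, `c = q`);
in (3) `X = (X + (q-1) y_0) - (q-1) y_0`.  (The four dependencies are helper39's statements in `StM.lean`.) -/
def StEps : Prop := ∀ (K : Type) [Field K] [CharZero K] (q t : K), q ≠ 0 → ∀ n : ℕ,
  (io q (C (Ep K n)) = ∑ p ∈ antidiagonal n, C (C (ka q p.1)) * X 0 ^ p.1 * C (Ep K p.2)) ∧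
  (∀ k, sg q t k (C (Ep K n)) = ∑ p ∈ antidiagonal n, C (C (ka q p.1 * t ^ p.1)) * X k ^ p.1 * C (Ep K p.2)) ∧
  (C (Ep K n) = ∑ p ∈ antidiagonal n, C (C (kb q p.1)) * X 0 ^ p.1 * io q (C (Ep K p.2))) ∧
  (((n : K) + 1) • (C (Ep K (n + 1)) : Ry K) = -∑ p ∈ antidiagonal n, C (X p.1) * C (Ep K p.2))

/-- StC7.  `d_-^2 T = d_-^2`.  By StC4 (10) it suffices that `dmi (dmi ((q y_1 - y_0) S)) = 0` for symmetric `S`, `S = (S + s S)/2`; by StC3 (2)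
(for the subgroup `{F : dmi (dmi ((q y_1 - y_0)(F + s F))) = 0}`) and StC2 one may take `F = y_1^b y_0^a`.  StEps (3), StC2:
`dmi (dmi (y_1^b y_0^a)) = Φ(a+1, b+1)`, `Φ(m,n) := ∑_(i+l=m) kb_i ε_l ε_(n+i)`.  `kb_0 = 1`, `kb_1 - q kb_0 = -1`, `kb_(i+1) = q kb_i` (`i ≥ 1`) give
`Φ(m,n) - q Φ(m-1,n+1) = ε_m ε_n - ε_(m-1) ε_(n+1)`, which is antisymmetric under `(m,n) → (n+1,m-1)`:
`Φ(m,n) + Φ(n+1,m-1) = q (Φ(m-1,n+1) + Φ(n,m))`; this is the claim for `m = a+2`, `n = b+1`. -/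
def StC7 : Prop := ∀ (K : Type) [Field K] [CharZero K] (q : K), q ≠ 0 → ∀ F : Ry K,
  dmi q (dmi q (Th q 0 F)) = dmi q (dmi q F)

/-- StC8.  `io d_- - d_- T_0 io = (q-1) y_0`.  StC3 (1), StC2, StC6: for `F = io G * y_0^a`, `T_0 (io F) = io (io G) * T_0 (y_1^a)`, so one may take `G = 1`:
`T_0 (y_1^a) = y_0^a - (q-1) ∑_(i<a) y_1^(i+1) y_0^(a-1-i)` (induction on `a`, StC4 (7)), so
`io (-ε_(a+1)) + ε_(a+1) - (q-1) ∑_(i<a) y_0^(i+1) ε_(a-i) = (q-1) y_0^(a+1)` by StEps (1). -/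
def StC8 : Prop := ∀ (K : Type) [Field K] [CharZero K] (q : K), q ≠ 0 → ∀ F : Ry K,
  io q (dmi q F) - dmi q (Th q 0 (io q F)) = (q - 1) • (X 0 * F)

/-- StC9.  `η = [d_+, d_-] = (q-1) T_(k-1) ... T_0 y_0` on `V_(k+1)`, and `= (q-1) q^k y_k T_(k-1)⁻¹ ... T_0⁻¹`-form: `y_k TU F = q^(-k) TD y_0 ..`.
(1) `dmi (TD (k+1) (io F)) = TD k (dmi (T_0 (io F)))` (`TD (k+1) = T_k ... T_1 T_0`, StC6 (5), induction on `k`), then StC8.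
(2) `TD k (y_0 (TU k F)) = q^k y_k F` (induction on `k`, StC4: `T_j y_j T_j = q y_(j+1)`, i.e. `T_j (y_j T_j F) = y_(j+1) (T_j T_j F + (q-1) T_j F) = q y_(j+1) F`). -/
def StC9 : Prop := ∀ (K : Type) [Field K] [CharZero K] (q : K), q ≠ 0 → ∀ (k : ℕ) (F : Ry K),
  et q k F = (q - 1) • TD q k (X 0 * F) ∧ TD q k (X 0 * TU q k F) = q ^ k • (X k * F)

/-- StC10.  Relation (Sa) for `d_+^*`.  Both sides vanish for `F = (T_0 - 1) G`: right `(T_0+q)(T_0-1) = 0`, left StC7 and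
`sg (k+2) T_0 = T_0 sg (k+2)` (StC6).  For `F = (T_0+q)G` (symmetric, StC4 (4)) `T_0 F + q F = (1+q) F`.  As
`(1+q) G = (T_0+q) G - (T_0-1) G` it suffices to prove `(1+q) d σ d F = q d d σ F + σ d d F` for symmetric `F`, `F = (F + s F)/2`; by StC3 (2), StC2, StC1 one
may take `F = y_1^b y_0^a + y_1^a y_0^b`.  Let `x_n = C ε_n`, `x~_n = sg k x_n`, `β = t y_k`, `c_n = ∑_(i≤n) β^(n-i) x_i`, so (StEps (2))
`x_n = c_n - β c_(n-1)`, `x~_n = c_n - q β c_(n-1)`.  With `m = a+1`, `n = b+1` (StEps (3)): `d d σ (y_1^b y_0^a) = ∑_i kb_i x_(m-i) x_(n+i)`,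
`σ d d (..) = ∑_i kb_i x~_(m-i) x~_(n+i)`, `d σ d (..) = ∑_i kb_i x~_(m-i) x_(n+i)`.  Let
`w(m,n) = (1+q) x~_m x_n - q x_m x_n - x~_m x~_n = β (q-1) (c_m c_(n-1) - q c_(m-1) c_n)`, `u(m,n) = β (q-1) c_m c_(n-1)`: `w(m,n) = u(m,n) - q u(m-1,n+1)`
and `∑_i kb_i w(m-i,n+i) = u(m,n) - u(m-1,n+1) = β (q-1) (c_m c_(n-1) - c_(m-1) c_n)`, antisymmetric in `(m,n)`.  (`q ≠ -1` is needed to
divide by `1+q`.) -/
def StC10 : Prop := ∀ (K : Type) [Field K] [CharZero K] (q t : K), q ≠ 0 → q + 1 ≠ 0 → ∀ (k : ℕ) (F : Ry K),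
  q • dmi q (dmi q (sg q t (k + 2) F)) + sg q t k (dmi q (dmi q F)) =
    dmi q (sg q t (k + 1) (dmi q (Th q 0 F + q • F)))

/-- StC11.  Relation (Sb) for `d_+^*`.  StC3 (1), StC2, StC1: `F = io G * y_0^a`; `σ σ G` is symmetric in `y_k`, `y_(k+1)`, so one may take `G = 1`
(StC4 (2)).  Then (StEps (2)) the claim is `(q + T_k) ε_n[X + (q-1) t y_k] = ε_n[X + (q-1) t (y_k + y_(k+1))] + q ε_n[X]`, `n = a + 1`
(here `σ_(k+1) σ_k` puts both variables), i.e. for each `l ≥ 1`: `(q + T_k) y_k^l`-identity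
`q y_(k+1)^l + T_k(y_(k+1)^l) = y_k^l + y_(k+1)^l + (1-q) ∑_(0<i<l) y_(k+1)^i y_k^(l-i)` with `T_k (y_(k+1)^l) = y_k^l - (q-1) ∑_(i<l) y_(k+1)^(i+1) y_k^(l-1-i)`
(StC4 (7)); note that `sg (k+1)` adds `y_(k+1)` (the new bottom variable), so it is `y_(k+1)` which appears in `d σ`. -/
def StC11 : Prop := ∀ (K : Type) [Field K] [CharZero K] (q t : K), q ≠ 0 → ∀ (k : ℕ) (F : Ry K),
  q • dmi q (sg q t (k + 2) (sg q t (k + 1) F)) + sg q t (k + 1) (sg q t k (dmi q F)) =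
    Th q k (sg q t (k + 1) (dmi q (sg q t (k + 1) F))) + q • sg q t (k + 1) (dmi q (sg q t (k + 1) F))

/-- StC12.  (1) `ζ io = -(1-q) t y_k σ` on `V_k`: `ζ (io F) = σ (d io F) - d (io (σ F)) = σ(p_1) σ(F) - p_1 σ(F)`, `σ p_1 = p_1 + (q-1) t y_k` (StC1, StC2).
(2) `d_+ σ = T_k σ d_+`: `dpl (k+1) (sg k F) = T_k TD k (io (sg k F)) = T_k TD k (sg (k+1) (io F)) = T_k (sg (k+1) (TD k (io F)))` (StC1, StC6 (2)).
(3) spectators: `ζ (y_i F) = y_i ζ F` for `i ≥ k+1`. (StC1, StC2.) -/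
def StC12 : Prop := ∀ (K : Type) [Field K] [CharZero K] (q t : K) (k : ℕ) (F : Ry K),
  (ze q t k (io q F) = ((q - 1) * t) • (X k * sg q t k F)) ∧
  (dpl q (k + 1) (sg q t k F) = Th q k (sg q t (k + 1) (dpl q k F))) ∧
  (∀ i, k + 1 ≤ i → ze q t k (X i * F) = X i * ze q t k F)

/-- StC13.  `(V, d_-, d_+^*, T⁻¹)` is an `A_(1/q)`-module.  StC4, StC5 (for the inverses), StC6, StC7, StC10, StC11 (multiply by `q`; `q (T⁻¹ + 1/q) = T + q`). -/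
def StC13 : Prop := ∀ (K : Type) [Field K] [CharZero K] (q t : K), q ≠ 0 → q + 1 ≠ 0 →
  IsAq (U := fun _ => Ry K) q⁻¹ (fun _ => dmi q) (fun k => (sg q t k).toLinearMap) (fun _ j => Thi q j)

/-! ## B. abstract `A_q`-modules -/

/-- StA1.  The inverses `Ti` (range `j + 1 < k`): inverse to `T`; commutation with `Dm`, `Dp`; `Dm Dm Ti_0 = Dm Dm`; `Ti_k Dp Dp = Dp Dp`; braid and far. -/
def StA1 : Prop := ∀ (K : Type) [Field K] (q : K), q ≠ 0 →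
  ∀ (U : ℕ → Type) [∀ k, AddCommGroup (U k)] [∀ k, Module K (U k)] (Dm : ∀ k, U (k + 1) →ₗ[K] U k)
    (Dp : ∀ k, U k →ₗ[K] U (k + 1)) (T : ∀ k, ℕ → (U k →ₗ[K] U k)), IsAq q Dm Dp T →
  (∀ k j f, j + 1 < k → T k j (Ti q T k j f) = f ∧ Ti q T k j (T k j f) = f) ∧
  (∀ k j f, j + 1 < k → Dm k (Ti q T (k + 1) (j + 1) f) = Ti q T k j (Dm k f)) ∧
  (∀ k j f, j + 1 < k → Dp k (Ti q T k j f) = Ti q T (k + 1) j (Dp k f)) ∧
  (∀ k f, Dm k (Dm (k + 1) (Ti q T (k + 2) 0 f)) = Dm k (Dm (k + 1) f)) ∧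
  (∀ k f, Ti q T (k + 2) k (Dp (k + 1) (Dp k f)) = Dp (k + 1) (Dp k f)) ∧
  (∀ k j f, j + 2 < k → Ti q T k j (Ti q T k (j + 1) (T k j f)) = T k (j + 1) (Ti q T k j (Ti q T k (j + 1) f))) ∧
  (∀ k i j f, i + 1 < k → j + 1 < k → (i + 2 ≤ j ∨ j + 2 ≤ i) → Ti q T k i (T k j f) = T k j (Ti q T k i f))

/-- StA2.  `Qi k m = T_0⁻¹ ... T_(m-1)⁻¹` (`m < k`): (1) `Q_m T_j = T_(j+1) Q_m` for `j + 1 < m`;  (2) `Q_m T_j = T_j Q_m` for `m + 1 ≤ j`;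
(3) `T_0 Q_(m+1)` goes through `Dm`: `Dm (T_0 Q_(m+1) f) = Q_m (Dm f)` (`T_0 Q_(m+1) = T_1⁻¹ ... T_m⁻¹`: induction on `m`);  (4) `Dp Q_m = Q_m Dp`;
(5) `T_0 Q_(m+1) Q_(m+1) = Q_(m+1) Q_m`: by (1) for the inverses `Q_(m+1) Q_m = (T_1⁻¹ ... T_m⁻¹) Q_(m+1)` and `(T_1⁻¹ ... T_m⁻¹) = T_0 Q_(m+1)`. -/
def StA2 : Prop := ∀ (K : Type) [Field K] (q : K), q ≠ 0 →
  ∀ (U : ℕ → Type) [∀ k, AddCommGroup (U k)] [∀ k, Module K (U k)] (Dm : ∀ k, U (k + 1) →ₗ[K] U k)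
    (Dp : ∀ k, U k →ₗ[K] U (k + 1)) (T : ∀ k, ℕ → (U k →ₗ[K] U k)), IsAq q Dm Dp T →
  (∀ k m j f, m < k → j + 1 < m → Qi q T k m (T k j f) = T k (j + 1) (Qi q T k m f)) ∧
  (∀ k m j f, j + 1 < k → m + 1 ≤ j → Qi q T k m (T k j f) = T k j (Qi q T k m f)) ∧
  (∀ k m f, m < k → Dm k (T (k + 1) 0 (Qi q T (k + 1) (m + 1) f)) = Qi q T k m (Dm k f)) ∧
  (∀ k m f, m < k → Dp k (Qi q T k m f) = Qi q T (k + 1) m (Dp k f)) ∧
  (∀ k m f, m + 1 < k → T k 0 (Qi q T k (m + 1) (Qi q T k (m + 1) f)) = Qi q T k (m + 1) (Qi q T k m f))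

/-- StA3.  `Io = D_+'`: (1) `Io T_j = T_(j+1) Io` (`j + 1 < k`; StA2 (1));  (2) `T_0 Io Io = Io Io` (StA2 (4),(5): `Io_(k+1) Io_k = Q_(k+1) Q_k Dp Dp`, and
`Q_(k+1) Dp Dp = Q_k Dp Dp` by StA1);  (3) `Io Dm - Dm T_0 Io = (q-1) y_0` on `U (k+1)` (StA2 (3): `Dm T_0 Io = Q_k Dm Dp`). -/
def StA3 : Prop := ∀ (K : Type) [Field K] (q : K), q ≠ 0 → q ≠ 1 →
  ∀ (U : ℕ → Type) [∀ k, AddCommGroup (U k)] [∀ k, Module K (U k)] (Dm : ∀ k, U (k + 1) →ₗ[K] U k)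
    (Dp : ∀ k, U k →ₗ[K] U (k + 1)) (T : ∀ k, ℕ → (U k →ₗ[K] U k)), IsAq q Dm Dp T →
  (∀ k j f, j + 1 < k → Io q Dp T k (T k j f) = T (k + 1) (j + 1) (Io q Dp T k f)) ∧
  (∀ k f, T (k + 2) 0 (Io q Dp T (k + 1) (Io q Dp T k f)) = Io q Dp T (k + 1) (Io q Dp T k f)) ∧
  (∀ k f, Io q Dp T k (Dm k f) - Dm (k + 1) (T (k + 2) 0 (Io q Dp T (k + 1) f)) =
    (q - 1) • Yo q Dm Dp T k 0 f)

/-- StA4.  `y` and `T` on `U (k+1)` (`i, j ≤ k` in range).  (1) `T_i y_0 = y_0 T_i` for `i ≥ 1`: StA3 (3), (1) and `Dm T_(i+1) = T_i Dm`, far commutation with `T_0`.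
(2) `T_i y_j = y_j T_i` for `i ≠ j`, `i + 1 ≠ j`: induction on `j` with `y_(j+1) = q⁻¹ T_j y_j T_j`: for `i ≥ j + 2` and `i + 2 ≤ j + 1`.. : `i > j+1`: far;
`i + 1 < j`: far and induction; `i = j - 1` for `y_(j+1) = q⁻² T_j T_(j-1) y_(j-1) T_(j-1) T_j`: braid twice and (2) for `y_(j-1)`, `T_j`.
(3) `T_j y_j = y_(j+1) (T_j + q - 1)` (quadratic relation: `T_j + q - 1 = q T_j⁻¹`);  (4) `T_j y_(j+1) = y_j T_j - (q-1) y_(j+1)`. -/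
def StA4 : Prop := ∀ (K : Type) [Field K] (q : K), q ≠ 0 → q ≠ 1 →
  ∀ (U : ℕ → Type) [∀ k, AddCommGroup (U k)] [∀ k, Module K (U k)] (Dm : ∀ k, U (k + 1) →ₗ[K] U k)
    (Dp : ∀ k, U k →ₗ[K] U (k + 1)) (T : ∀ k, ℕ → (U k →ₗ[K] U k)), IsAq q Dm Dp T →
  (∀ k i j f, i + 1 < k + 1 → j < k + 1 → i ≠ j → i + 1 ≠ j →
    T (k + 1) i (Yo q Dm Dp T k j f) = Yo q Dm Dp T k j (T (k + 1) i f)) ∧
  (∀ k j f, j + 1 < k + 1 →
    T (k + 1) j (Yo q Dm Dp T k j f) = Yo q Dm Dp T k (j + 1) (T (k + 1) j f + (q - 1) • f)) ∧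
  (∀ k j f, j + 1 < k + 1 →
    T (k + 1) j (Yo q Dm Dp T k (j + 1) f) = Yo q Dm Dp T k j (T (k + 1) j f) - (q - 1) • Yo q Dm Dp T k (j + 1) f)

/-- StA5.  The commutator `C = Dm Dp - Dp Dm` on `U (k+1)`: (1) `C T_(j+1) = T_j C`;  (2) from `sa`: `q C Dm = Dm C T_0` on `U (k+2)`;
(3) from `sb`: `T_k C Dp = q Dp C` on `U (k+1)` (`k` is the bottom pair of `U (k+2)`);  (4) `T_k C² = C² T_0` on `U (k+2)`:
`T_k C (Dm Dp) = q⁻¹ T_k Dm C T_0 Dp = q⁻¹ Dm T_(k+1) C Dp T_0 = Dm Dp C T_0`, `T_k C (Dp Dm) = q Dp C Dm = Dp Dm C T_0`;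
(5) `(q-1) y_0 = -Q_k C`. -/
def StA5 : Prop := ∀ (K : Type) [Field K] (q : K), q ≠ 0 → q ≠ 1 →
  ∀ (U : ℕ → Type) [∀ k, AddCommGroup (U k)] [∀ k, Module K (U k)] (Dm : ∀ k, U (k + 1) →ₗ[K] U k)
    (Dp : ∀ k, U k →ₗ[K] U (k + 1)) (T : ∀ k, ℕ → (U k →ₗ[K] U k)), IsAq q Dm Dp T →
  ∀ C : ∀ k, U (k + 1) →ₗ[K] U (k + 1), (∀ k f, C k f = Dm (k + 1) (Dp (k + 1) f) - Dp k (Dm k f)) →
  (∀ k j f, j + 2 < k + 1 → C k (T (k + 1) (j + 1) f) = T (k + 1) j (C k f)) ∧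
  (∀ k f, q • C k (Dm (k + 1) f) = Dm (k + 1) (C (k + 1) (T (k + 2) 0 f))) ∧
  (∀ k f, T (k + 2) k (C (k + 1) (Dp (k + 1) f)) = q • Dp (k + 1) (C k f)) ∧
  (∀ k f, T (k + 2) k (C (k + 1) (C (k + 1) f)) = C (k + 1) (C (k + 1) (T (k + 2) 0 f))) ∧
  (∀ k f, (q - 1) • Yo q Dm Dp T k 0 f = -Qi q T (k + 1) k (C k f))

/-- StA6.  (1) `Dm y_(j+1) = y_j Dm` on `U (k+2)`, `j ≤ k`;  (2) `Io y_j = y_(j+1) Io` on `U (k+1)`, `j ≤ k`;  (3) the `y_j` commute.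
(1) `j = 0`: `q Dm y_1 = Dm T_0 y_0 T_0 = -(q-1)⁻¹ Dm T_0 Q_(k+1) C T_0 = -(q-1)⁻¹ Q_k Dm C T_0 = -(q-1)⁻¹ q Q_k C Dm = q y_0 Dm` (StA2 (3), StA5 (2)); then
`y_(j+2) = q⁻¹ T_(j+1) y_(j+1) T_(j+1)`, `Dm T_(j+1) = T_j Dm`.
(2) `j = 0`: `y_1 Io = q⁻¹ T_0 y_0 T_0 Io`, `T_0 Io = (T_1⁻¹..T_(k)⁻¹) Dp` on `U (k+1)`; `C (T_1⁻¹..T_k⁻¹) = (T_0⁻¹..T_(k-1)⁻¹) C`, `C Dp = q T_k⁻¹ Dp C`: so
`(q-1) y_0 T_0 Io = -q Q_(k+1) Q_(k+1) Dp C` and `(q-1) y_1 Io = -T_0 Q_(k+1) Q_(k+1) Dp C = -Q_(k+1) Q_k Dp C = -Q_(k+1) Dp Q_k C = (q-1) Io y_0` (StA2 (5), (4)).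
(3) `y_0 y_1 = y_1 y_0`: `c = (q-1)⁻²`: `y_0 T_0 y_0 = c Q C T_0 Q C = c Q Q' C²` with `Q = Q_(k+1)`, `Q' = Q_k` on `U (k+2)` (`C (T_1⁻¹..T_k⁻¹) = Q' C`), so
`y_0 T_0 y_0 T_0 = c Q Q' C² T_0 = c Q Q' T_k C²` (StA5 (4)) and `T_0 y_0 T_0 y_0 = c T_0 Q Q' C²`; `Q Q' T_k = (T_1⁻¹..T_k⁻¹) Q' = T_0 Q Q'`.
General `y_i y_j`: `y_0 y_(j+1)` by induction on `j` (`y_(j+2) = q⁻¹ T_(j+1) y_(j+1) T_(j+1)`, `T_(j+1)` commutes with `y_0`), then induction on `i`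
(`y_(i+1) = q⁻¹ T_i y_i T_i` and `y_j`, `j > i+1`, commutes with `T_i`, StA4). -/
def StA6 : Prop := ∀ (K : Type) [Field K] (q : K), q ≠ 0 → q ≠ 1 →
  ∀ (U : ℕ → Type) [∀ k, AddCommGroup (U k)] [∀ k, Module K (U k)] (Dm : ∀ k, U (k + 1) →ₗ[K] U k)
    (Dp : ∀ k, U k →ₗ[K] U (k + 1)) (T : ∀ k, ℕ → (U k →ₗ[K] U k)), IsAq q Dm Dp T →
  (∀ k j f, j < k + 1 → Dm (k + 1) (Yo q Dm Dp T (k + 1) (j + 1) f) = Yo q Dm Dp T k j (Dm (k + 1) f)) ∧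
  (∀ k j f, j < k + 1 → Io q Dp T (k + 1) (Yo q Dm Dp T k j f) = Yo q Dm Dp T (k + 1) (j + 1) (Io q Dp T (k + 1) f)) ∧
  (∀ k i j f, i < k + 1 → j < k + 1 →
    Yo q Dm Dp T k i (Yo q Dm Dp T k j f) = Yo q Dm Dp T k j (Yo q Dm Dp T k i f))

/-- StA7.  `E_r` commutes with `y_j` (`j ≤ k`, on `U (k+1)`) and with `T_j`, and `E_r E_s = E_s E_r`; `Io E_r = ∑ ka_l y_0^l E_(r-l) Io`.
(1), (2): StA6, StA3, StA4.  (3) `E_(a+1) E_(b+1) = Dm y_0^a Io Dm y_0^b Io = Dm y_0^a (Dm T_0 Io + (q-1) y_0) y_0^b Io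
= Dm Dm (y_1^a T_0 y_1^b) Io Io + (q-1) Dm y_0^(a+b+1) Io` (`u = y_1`, `v = y_0`).  `T_0 y_1^b = y_0^b T_0 - (q-1) ∑_(i<b) y_1^(i+1) y_0^(b-1-i)` (StA4 (3'), induction), and
`T_0 Io Io = Io Io`: first term `= Dm Dm P_(ab) Io Io`, `P_(ab) = y_1^a y_0^b - (q-1) y_1^(a+1) h_(b-1)(y_0,y_1)`.  For `a > b` (or in general)
`P_(ab) - P_(ba) = (y_1^a y_0^b - y_1^b y_0^a)(q y_1 - y_0)/(y_1 - y_0)` is minus the polynomial `(T_0 - 1)(y_1^a y_0^b)`, and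
`Dm Dm ((T_0 - 1) f(y) Io Io) = 0` for every polynomial `f` (`dm2`, `T_0 Io Io = Io Io`, StA4).
(4) `Io E_(n+1) = -Io Dm y_0^n Io = -(Dm T_0 Io + (q-1) y_0) y_0^n Io = -Dm T_0 y_1^n Io Io - (q-1) y_0^(n+1) Io` and
`Dm T_0 y_1^n Io Io = Dm (y_0^n - (q-1) ∑_(i<n) y_1^(i+1) y_0^(n-1-i)) Io Io = -E_(n+1) Io + (q-1) ∑_(i<n) y_0^(i+1) E_(n-i) Io`. -/
def StA7 : Prop := ∀ (K : Type) [Field K] (q : K), q ≠ 0 → q ≠ 1 →
  ∀ (U : ℕ → Type) [∀ k, AddCommGroup (U k)] [∀ k, Module K (U k)] (Dm : ∀ k, U (k + 1) →ₗ[K] U k)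
    (Dp : ∀ k, U k →ₗ[K] U (k + 1)) (T : ∀ k, ℕ → (U k →ₗ[K] U k)), IsAq q Dm Dp T →
  (∀ k r j f, j < k + 1 →
    Eo q Dm Dp T (k + 1) r (Yo q Dm Dp T k j f) = Yo q Dm Dp T k j (Eo q Dm Dp T (k + 1) r f)) ∧
  (∀ k r j f, j + 1 < k → Eo q Dm Dp T k r (T k j f) = T k j (Eo q Dm Dp T k r f)) ∧
  (∀ k r s f, Eo q Dm Dp T k r (Eo q Dm Dp T k s f) = Eo q Dm Dp T k s (Eo q Dm Dp T k r f)) ∧
  (∀ k r f, Io q Dp T k (Eo q Dm Dp T k r f) =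
    ∑ p ∈ antidiagonal r, ka q p.1 • ((Yo q Dm Dp T k 0) ^ p.1) (Eo q Dm Dp T (k + 1) p.2 (Io q Dp T k f)))

/-- StA8.  Functional calculus with commuting operators: `Ψ (C (X i)) = P i`, `Ψ (X j) = Y j`.  `Algebra.adjoin K` of a commuting set is
commutative (`Algebra.adjoinCommRingOfComm`); `aevalTower (aeval P) Y` into it, then the inclusion. -/
def StA8 : Prop := ∀ (K : Type) [Field K] (W : Type) [AddCommGroup W] [Module K W] (P Y : ℕ → Module.End K W),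
  (∀ i j, P i * P j = P j * P i) → (∀ i j, P i * Y j = Y j * P i) → (∀ i j, Y i * Y j = Y j * Y i) →
  ∃ Ψ : Ry K →ₐ[K] Module.End K W, (∀ i, Ψ (C (X i)) = P i) ∧ ∀ j, Ψ (X j) = Y j

/-- StA9.  Power sums from `ε`: for commuting operators `E r` with `E 0 = 1` there are operators `P i` in the algebra they generate with
Newton's recursion `(n+1) E (n+1) = -∑_(i≤n) P i E (n-i)`; `P n := -((n+1) E (n+1) + ∑_(i<n) P i E (n-i))`.  Everything that commutes with all `E r`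
commutes with all `P i`. -/
def StA9 : Prop := ∀ (K : Type) [Field K] [CharZero K] (W : Type) [AddCommGroup W] [Module K W] (E : ℕ → Module.End K W),
  E 0 = 1 → (∀ i j, E i * E j = E j * E i) →
  ∃ P : ℕ → Module.End K W, (∀ n : ℕ, ((n : K) + 1) • E (n + 1) = -∑ p ∈ antidiagonal n, P p.1 * E p.2) ∧
    (∀ A : Module.End K W, (∀ r, A * E r = E r * A) → ∀ i, A * P i = P i * A)

/-- StPsi.  The operators `Ψ k : Ry K →ₐ End (U k)`: `Ψ k (C ε_r) = E_r`, `Ψ k (y_j) = yU k j` (StA7, StA6 (3), StA9, StA8; `Ψ (C ε_r) = E_r` by induction on `r` from the two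
Newton recursions, StEps (4)), with (1) `Io (Ψ k F f) = Ψ (k+1) (io F) (Io f)`;  (2) `T_j (Ψ k F f) = Ψ k (s_j F) (T_j f) + Ψ k ((q-1) y_(j+1) dd_j F) f`, `j + 1 < k`.
(1) the set of such `F` is a subalgebra containing `y_j` (StA6 (2); for `j ≥ k` both sides are 0) and `C p_i`: by Newton's recursion: from StA7 (4), StEps (1) one has
`Io E_r = Ψ(io ε_r) Io`; apply `io` to `(n+1) ε_(n+1) = -∑ p_i ε_(n-i)` (StEps (4)) and `Ψ`, compare with `Io` of the operator recursion, induction on `n`.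
(2) the set of such `F` is a subalgebra (`dd (F G) = dd F * G + s F * dd G`) containing `y_j` (StA4) and `C p_i` (StA7 (2): `T_j` commutes with `E_r`, so with `P i`;
`s`, `dd` fix resp. kill `C p_i`). -/
def StPsi : Prop := ∀ (K : Type) [Field K] [CharZero K] (q : K), q ≠ 0 → q ≠ 1 →
  ∀ (U : ℕ → Type) [∀ k, AddCommGroup (U k)] [∀ k, Module K (U k)] (Dm : ∀ k, U (k + 1) →ₗ[K] U k)
    (Dp : ∀ k, U k →ₗ[K] U (k + 1)) (T : ∀ k, ℕ → (U k →ₗ[K] U k)), IsAq q Dm Dp T →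
  ∃ Ψ : ∀ k, Ry K →ₐ[K] Module.End K (U k),
    (∀ k r, Ψ k (C (Ep K r)) = Eo q Dm Dp T k r) ∧ (∀ k j, Ψ k (X j) = yU q Dm Dp T k j) ∧
    (∀ k F f, Io q Dp T k (Ψ k F f) = Ψ (k + 1) (io q F) (Io q Dp T k f)) ∧
    (∀ k j F f, j + 1 < k → T k j (Ψ k F f) =
      Ψ k (sw K j F) (T k j f) + Ψ k (C (C (q - 1)) * X (j + 1) * dd j F) f)

/-- StPhi.  UNIVERSAL PROPERTY of `(V, d_-, d_+, T)`.  `u_0 := u0`, `u_(k+1) := Io u_k`; `T_j u_k = u_k` for `j + 1 < k` (StA3 (1), (2), induction on `k`), so `Dp u_k = u_(k+1)`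
(`Dp = T_(k-1) ... T_0 Io`).  `Φ k F := Ψ k F u_k`.  `Φ (y_j F) = yU j (Φ F)`, `Φ (io F) = Io (Φ F)` (StPsi (1)), `Φ (T_j F) = T_j Φ F` (StPsi (2) and `T_j u_k = u_k`),
hence `Φ (dpl k F) = Dp (Φ F)` (`TD`).  `Φ (dmi F) = Dm (Φ F)`: StC3 (1), `F = io G * y_0^a`: `Φ (dmi F) = -Φ (ε_(a+1) G) = -E_(a+1) Φ G = Dm (y_0^a (Io (Φ G)))`. -/
def StPhi : Prop := ∀ (K : Type) [Field K] [CharZero K] (q : K), q ≠ 0 → q ≠ 1 →
  ∀ (U : ℕ → Type) [∀ k, AddCommGroup (U k)] [∀ k, Module K (U k)] (Dm : ∀ k, U (k + 1) →ₗ[K] U k)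
    (Dp : ∀ k, U k →ₗ[K] U (k + 1)) (T : ∀ k, ℕ → (U k →ₗ[K] U k)), IsAq q Dm Dp T → ∀ u0 : U 0,
  ∃ Φ : ∀ k, Ry K →ₗ[K] U k, Φ 0 1 = u0 ∧
    (∀ k F, Φ k (dmi q F) = Dm k (Φ (k + 1) F)) ∧
    (∀ k F, Φ (k + 1) (dpl q k F) = Dp k (Φ k F)) ∧
    (∀ k j F, j + 1 < k → Φ k (Th q j F) = T k j (Φ k F)) ∧
    (∀ k j F, Φ k (X j * F) = yU q Dm Dp T k j (Φ k F)) ∧
    (∀ k r F, Φ k (C (Ep K r) * F) = Eo q Dm Dp T k r (Φ k F)) ∧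
    (∀ k F, Φ (k + 1) (io q F) = Io q Dp T k (Φ k F))

/-! ## C. the operator `N` -/

/-- StN0.  Existence of `N : (V, 1/q, 1/t) → (V, q, t)`: StPhi for the parameter `q⁻¹` and the module StC13 (`Ti q⁻¹ (Thi q) = Th q`, so `Qi = TU`, `Io = ios`,
`Yo k j = zo q t k j`), `u0 = 1`. -/
def StN0 : Prop := ∀ (K : Type) [Field K] [CharZero K] (q t : K), q ≠ 0 → q ≠ 1 → q + 1 ≠ 0 →
  ∃ N : ℕ → (Ry K →ₗ[K] Ry K), (∀ k, N k 1 = 1) ∧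
    (∀ k F, N k (dmi q⁻¹ F) = dmi q (N (k + 1) F)) ∧
    (∀ k F, N (k + 1) (dpl q⁻¹ k F) = sg q t k (N k F)) ∧
    (∀ k j F, j + 1 < k → N k (Th q⁻¹ j F) = Thi q j (N k F)) ∧
    (∀ k j (F : Ry K), k ≤ j → N k (X j * F) = 0) ∧
    (∀ k j (F : Ry K), j < k + 1 → N (k + 1) (X j * F) = zo q t k j (N (k + 1) F))

/-- StZ.  Relations of the `z_j` (`zo q t k j` on `V_(k+1)`, `j ≤ k`).  (1), (2), (3) `T⁻¹`-relations and (4) `d_- z_(j+1) = z_j d_-`: StA4, StA6 for StC13 (identify `Yo` and `zo`), in terms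
of `S_j := Thi q j`, parameter `1/q`.  (5) `d_+ z_j = z_j d_+` (`j ≤ k`): `j = 0`: `d_+ T_j = T_j d_+` (`j+1 < k+1`), and `T_k ζ_(k+1) d_+ = d_+ ζ_k` [expand `ζ`; StC12 (2), `T_k d_- = d_- T_(k+1)`; the
difference is `-T_k σ η + η σ = 0` by StC9 (1), StC6 (2)].  (6) `z_k d_+ = -t q^(k+1) y_k σ` on `V_k → V_(k+1)`: `z_k = (q^k/(q⁻¹-1)) ζ T_0⁻¹ ... T_(k-1)⁻¹` (definition; `TU k` cancels) and StC12 (1).
(7) spectators `y_i`, `i ≥ k+1`: `z_j (y_i F) = y_i z_j F` (StC12 (3)).  (8) `ζ = q^(-k) (q⁻¹-1) z_k TD k` (same as in (6)). -/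
def StZ : Prop := ∀ (K : Type) [Field K] [CharZero K] (q t : K), q ≠ 0 → q ≠ 1 → q + 1 ≠ 0 → ∀ (k : ℕ) (F : Ry K),
  (∀ i j, i < k → j ≤ k → i ≠ j → i + 1 ≠ j → Thi q i (zo q t k j F) = zo q t k j (Thi q i F)) ∧
  (∀ j, j < k → Thi q j (zo q t k j F) = zo q t k (j + 1) (Thi q j F + (q⁻¹ - 1) • F)) ∧
  (∀ j, j < k → Thi q j (zo q t k (j + 1) F) = zo q t k j (Thi q j F) - (q⁻¹ - 1) • zo q t k (j + 1) F) ∧
  (∀ j, j ≤ k → dmi q (zo q t (k + 1) (j + 1) F) = zo q t k j (dmi q F)) ∧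
  (∀ j, j ≤ k → dpl q (k + 1) (zo q t k j F) = zo q t (k + 1) j (dpl q (k + 1) F)) ∧
  (zo q t k k (dpl q k F) = (-(t * q ^ (k + 1))) • (X k * sg q t k F)) ∧
  (∀ i j, j ≤ k → k + 1 ≤ i → zo q t k j (X i * F) = X i * zo q t k j F) ∧
  (ze q t k F = ((q⁻¹ - 1) * (q ^ k)⁻¹) • zo q t k k (TD q k F))

/-- StGen.  Generation: a family of subspaces `W k` with `1 ∈ W 0`, closed under `d_-`, `d_+`, `T_j⁻¹` (`j + 1 < k`) and multiplication by the spectators `y_j`, `j ≥ k`, is everything.  It is closed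
under `T_j = q T_j⁻¹ + 1 - q`, under `io = T_0⁻¹ ... T_(k-1)⁻¹ d_+`, so under `y_0` on `W (k+1)` (StC8), `y_(j+1) = q⁻¹ T_j y_j T_j` (StC4) for `j < k`; and under multiplication by `C ε_r`:
`-ε_(r+1) F = d_- (y_0^r io F)` (StC2).  `1 ∈ W k` (`1 = d_+^k 1`).  By Newton (StEps (4)) also under `C p_i`: induction on the polynomial. -/
def StGen : Prop := ∀ (K : Type) [Field K] [CharZero K] (q : K), q ≠ 0 → q ≠ 1 →
  ∀ W : ℕ → Submodule K (Ry K), (1 : Ry K) ∈ W 0 → (∀ k F, F ∈ W (k + 1) → dmi q F ∈ W k) →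
    (∀ k F, F ∈ W k → dpl q k F ∈ W (k + 1)) → (∀ k j F, j + 1 < k → F ∈ W k → Thi q j F ∈ W k) →
    (∀ k j F, k ≤ j → F ∈ W k → X j * F ∈ W k) → ∀ k F, F ∈ W k

/-- StLemB.  `N σ(1/q,1/t) = d_+ N` (helper7's argument).  Bars: parameters `q⁻¹`, `t⁻¹`.  `W k := {F : N σ̄ F = d_+ N F and (k ≥ 1) N z̄_j F = y_j N F for j < k}`; StGen (for `q⁻¹`).
`1`: `N 1 = 1`.  `F ∈ W k ⇒ T̄_j⁻¹ F ∈ W k`: `N T̄⁻¹ = T N`, StC6 (2), StC12-type commutation `d_+ T_j = T_j d_+` (`j+1 < k`: `TD` and braid), and the affine relations StZ (1)-(3) for the bars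
against StC4 (6)-(8).  `d̄_+ F ∈ W (k+1)`: `N σ̄ d̄_+ F = N T̄_k⁻¹ d̄_+ σ̄ F = T_k σ N σ̄ F = T_k σ d_+ N F = d_+ σ N F = d_+ N d̄_+ F` (StC12 (2));
`N z̄_k d̄_+ F = c̄ N (y_k σ̄ F) = c̄ z_k N σ̄ F = c̄ z_k d_+ N F = c̄ c y_k σ N F = y_k N d̄_+ F`, `c = -t q^(k+1)` (StZ (6)); `j < k`: `N z̄_j d̄_+ F = N d̄_+ z̄_j F = σ N z̄_j F = σ y_j N F = y_j N d̄_+ F`
(StZ (5)).  `d̄_- F ∈ W k` for `F ∈ W (k+1)`: `N ζ̄ F = η N F` (StZ (8), StC9: `η = (q-1) q^k y_k (TU k)⁻¹`, `N` turns `TD̄` into the product of the `T_j⁻¹`) so `N σ̄ d̄_- F = N d̄_- σ̄ F + η N F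
= d_- d_+ N F + (d_+ d_- - d_- d_+) N F = d_+ N d̄_- F`; and StZ (4).  Spectators: both sides 0 (StZ (7)). -/
def StLemB : Prop := ∀ (K : Type) [Field K] [CharZero K] (q t : K), q ≠ 0 → t ≠ 0 → q ≠ 1 → q + 1 ≠ 0 →
  ∀ N : ℕ → (Ry K →ₗ[K] Ry K), (∀ k, N k 1 = 1) →
    (∀ k F, N k (dmi q⁻¹ F) = dmi q (N (k + 1) F)) →
    (∀ k F, N (k + 1) (dpl q⁻¹ k F) = sg q t k (N k F)) →
    (∀ k j F, j + 1 < k → N k (Th q⁻¹ j F) = Thi q j (N k F)) →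
    (∀ k j (F : Ry K), k ≤ j → N k (X j * F) = 0) →
    (∀ k j (F : Ry K), j < k + 1 → N (k + 1) (X j * F) = zo q t k j (N (k + 1) F)) →
    ∀ k F, N (k + 1) (sg q⁻¹ t⁻¹ k F) = dpl q k (N k F)

/-! ## D. `N` on `Lam` -/

/-- constant coefficient in the `y`'s -/
noncomputable def cc (K : Type) [Field K] : Ry K →ₐ[K] Lam K := aevalTower (AlgHom.id K (Lam K)) (fun _ => 0)

/-- StSup.  Supports.  `Vk k = supported (Lam K) {j | j < k}`.  `io`, `sg`: `MvPolynomial.supported` is the adjoin of the variables / `mem_supported`, images of the generators;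
`sw`: same; `dd j F` (`j + 1 < k`): divide: let `π` be the algebra hom `y_i ↦ y_i` (`i < k`), `↦ 0` (`i ≥ k`); `π F = F`, `π s_j = s_j π`, so `π (dd F) = dd F` (`dd_unique`) and the image of `π` is `Vk k`.
`dmi`: `th` maps `Vk (k+1)` to polynomials with coefficients in `Vk k`.  Last item: `F ∈ Vk 0 ⇒ F = C (cc F)`. -/
def StSup : Prop := ∀ (K : Type) [Field K] [CharZero K] (q t : K) (k : ℕ) (F : Ry K),
  (F ∈ supported (Lam K) {j : ℕ | j < k} → io q F ∈ supported (Lam K) {j : ℕ | j < k + 1}) ∧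
  (F ∈ supported (Lam K) {j : ℕ | j < k} → sg q t k F ∈ supported (Lam K) {j : ℕ | j < k + 1}) ∧
  (F ∈ supported (Lam K) {j : ℕ | j < k + 1} → dmi q F ∈ supported (Lam K) {j : ℕ | j < k}) ∧
  (∀ j, j + 1 < k → F ∈ supported (Lam K) {j : ℕ | j < k} → Th q j F ∈ supported (Lam K) {j : ℕ | j < k}) ∧
  (F ∈ supported (Lam K) {j : ℕ | j < k} → dpl q k F ∈ supported (Lam K) {j : ℕ | j < k + 1}) ∧
  (F ∈ supported (Lam K) {j : ℕ | j < 0} → F = C (cc K F))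

/-- StNSup.  `N k F ∈ Vk k`: StGen for `q⁻¹` and `W k = {F : N k F ∈ Vk k}` (StSup). -/
def StNSup : Prop := ∀ (K : Type) [Field K] [CharZero K] (q t : K), q ≠ 0 → q ≠ 1 → q + 1 ≠ 0 →
  ∀ N : ℕ → (Ry K →ₗ[K] Ry K), (∀ k, N k 1 = 1) →
    (∀ k F, N k (dmi q⁻¹ F) = dmi q (N (k + 1) F)) →
    (∀ k F, N (k + 1) (dpl q⁻¹ k F) = sg q t k (N k F)) →
    (∀ k j F, j + 1 < k → N k (Th q⁻¹ j F) = Thi q j (N k F)) →
    (∀ k j (F : Ry K), k ≤ j → N k (X j * F) = 0) →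
    ∀ k F, N k F ∈ supported (Lam K) {j : ℕ | j < k}

/-- StD1.  `d_- d_+^* f = -D_1 f` for `f ∈ Lam`: `th (sg 0 (C f))` is `Tr m f` with `m i = Mk q t (i+1)` (`(q^i-1) t^i - (q^i-1) = (1-q^i)(1-t^i)`). -/
def StD1 : Prop := ∀ (K : Type) [Field K] [CharZero K] (q t : K) (f : Lam K),
  dmi q (sg q t 0 (C f)) = -C (Dk q t 1 f)

/-- StL.  `N` on `Lam`.  `NL f := cc (N 0 (C f))`, `N 0 (C f) = C (NL f)` (StNSup, StSup).  `NL 1 = 1`; `C (X 0 * f) = d̄_- d̄_+ (C f)` (StC2), so `NL (X 0 * f) = cc (d_- σ_0 C (NL f)) = -D_1 (NL f)` (StD1);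
`C (D̄_1 f) = -d̄_- σ̄_0 (C f)`, so `NL (D̄_1 f) = -cc (d_- N σ̄_0 C f) = -cc (d_- d_+ N_0 C f) = -X 0 * NL f` (StLemB's conclusion = hypothesis `sgb`). -/
def StL : Prop := ∀ (K : Type) [Field K] [CharZero K] (q t : K), q ≠ 0 → q ≠ 1 → q + 1 ≠ 0 →
  ∀ N : ℕ → (Ry K →ₗ[K] Ry K), (∀ k, N k 1 = 1) →
    (∀ k F, N k (dmi q⁻¹ F) = dmi q (N (k + 1) F)) →
    (∀ k F, N (k + 1) (dpl q⁻¹ k F) = sg q t k (N k F)) →
    (∀ k F, N (k + 1) (sg q⁻¹ t⁻¹ k F) = dpl q k (N k F)) →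
    (∀ k F, N k F ∈ supported (Lam K) {j : ℕ | j < k}) →
    ∃ NL : Lam K →ₗ[K] Lam K, (∀ f, N 0 (C f) = C (NL f)) ∧ NL 1 = 1 ∧ (∀ f, NL (X 0 * f) = -Dk q t 1 (NL f)) ∧
      ∀ f, NL (Dk q⁻¹ t⁻¹ 1 f) = -(X 0 * NL f)

end Pool.VD.CM
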