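import Pool.Agent.VD.StM2
import Pool.Agent.VD.StCM

/-!
# MP_cf06d4_co, block CM: the interface theorem
-/

set_option autoImplicit false

namespace Pool.VD.CM

open MvPolynomial Finset

/-- StCMN.  INTERFACE of block CM.  StN0, StLemB, StNSup, StL; `NL ∘ ω` is `IsNabla` (StNN of block M), so it is `nab` (StNabU), and `NL f = nab (ω f)` (`ω ω = 1`, StOm).
`Gq q t` gives `q ≠ 0`, `t ≠ 0`, `q ≠ 1`, `q + 1 ≠ 0` (StGqF; `q^2 ≠ 1`), `Mk q t 1 ≠ 0`. -/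
def StCMN : Prop := ∀ (K : Type) [Field K] [CharZero K] (q t : K), Gq q t →
  ∃ N : ℕ → (Ry K →ₗ[K] Ry K), (∀ k, N k 1 = 1) ∧
    (∀ k F, N k (dmi q⁻¹ F) = dmi q (N (k + 1) F)) ∧
    (∀ k F, N (k + 1) (sg q⁻¹ t⁻¹ k F) = dpl q k (N k F)) ∧
    (∀ k F, N (k + 1) (dpl q⁻¹ k F) = sg q t k (N k F)) ∧
    (∀ k j F, j + 1 < k → N k (Th q⁻¹ j F) = Thi q j (N k F)) ∧
    (∀ k j (F : Ry K), k ≤ j → N k (X j * F) = 0) ∧
    (∀ k j (F : Ry K), j < k + 1 → N (k + 1) (X j * F) = zo q t k j (N (k + 1) F)) ∧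
    (∀ k F, N k F ∈ supported (Lam K) {j : ℕ | j < k}) ∧
    ∀ nab : Lam K →ₗ[K] Lam K, IsNabla q t nab → ∀ f : Lam K, N 0 (C f) = C (nab (om K f))

end Pool.VD.CM
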