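import Pool.Agent.VD.StCG
import Pool.Agent.VD.StCM2
import Pool.Agent.VD.M_HS
import Pool.Agent.VD.M_TrL
import Pool.Agent.VD.M_Eal

/-!
# Block C: the final assembly (helper17)
-/

set_option autoImplicit false
set_option linter.unusedSectionVars false

namespace Pool.VD

open MvPolynomial Finset

/-- The V half (helper44), in the form used here: a solution of the level recursion on the source side, its closing
and the level `-1` step. -/
def StVH : Prop := ∀ (K : Type) [Field K] [CharZero K] (q t : K), q ≠ 0 → t ≠ 0 → (∀ n : ℕ, 1 ≤ n → q ^ n ≠ 1) →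
  (∀ n : ℕ, 1 ≤ n → t ^ n ≠ 1) → ∃ kV : ℕ → ℕ → ℕ → CM.Ry K,
    (∀ r a n, kV r a n = Lrec q t (CM.dmi q⁻¹ : Module.End K (CM.Ry K))
      (fun k => (CM.sg q⁻¹ t⁻¹ k).toLinearMap) kV r a n) ∧
    kV 0 0 0 = 1 ∧ (∀ a n, kV 0 a (n + 1) = 0) ∧
    (∀ m a, 1 ≤ m → ∑ r ∈ Icc 1 m, (qn q m / qn q r) •
      ((CM.dmi q⁻¹ : Module.End K (CM.Ry K)) ^ r) (kV r a (m - r)) =
        C (C ((-(q * t)⁻¹) ^ a) * Hst q⁻¹ t⁻¹ a * X (m - 1))) ∧
    (∀ m a, 1 ≤ m → (1 - t ^ m) • ∑ p ∈ antidiagonal a, (t ^ p.2 * (-1) ^ p.1 / qfac q p.1) •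
        ∑ r ∈ Icc 1 m, (qn q m / qn q r) • ((CM.dmi q⁻¹ : Module.End K (CM.Ry K)) ^ (r + p.1))
          (dpi (fun k => (CM.sg q⁻¹ t⁻¹ k).toLinearMap) p.1 r (kV r p.2 (m - r))) =
      (C (C ((-(q * t)⁻¹) ^ a) * Hst q⁻¹ t⁻¹ a * X (m - 1)) : CM.Ry K) -
        t ^ m • ∑ p ∈ antidiagonal a, (t ^ p.2 * (-1) ^ p.1 / qfac q p.1) •
          ((CM.dmi q⁻¹ : Module.End K (CM.Ry K)) ^ p.1)
            (dpi (fun k => (CM.sg q⁻¹ t⁻¹ k).toLinearMap) p.1 0
              (C (C ((-(q * t)⁻¹) ^ p.2) * Hst q⁻¹ t⁻¹ p.2 * X (m - 1)))))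

namespace CFin

variable {K : Type} [Field K] [CharZero K]

theorem om_X (i : ℕ) : om K (X i) = C ((-1) ^ i) * X i := by
  rw [om, scal, aeval_X]

theorem om_gam (q t : K) (hq0 : q ≠ 0) (ht0 : t ≠ 0) (hq : ∀ n : ℕ, 1 ≤ n → q ^ n ≠ 1)
    (ht : ∀ n : ℕ, 1 ≤ n → t ^ n ≠ 1) (a m : ℕ) (hm : 1 ≤ m) :
    om K (C ((-(q * t)⁻¹) ^ a) * Hst q⁻¹ t⁻¹ a * X (m - 1)) = (-1) ^ a * (Est q t a * omp K m) := by
  have e1 : om K (Hst q⁻¹ t⁻¹ a) = Hs (fun i => om K (C (Mk q⁻¹ t⁻¹ (i + 1))⁻¹ * X i : Lam K)) a :=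
    Hs_map ((om K : Lam K →ₐ[K] Lam K) : Lam K →+* Lam K) _ a
  have e2 : (fun i => om K (C (Mk q⁻¹ t⁻¹ (i + 1))⁻¹ * X i : Lam K)) =
      fun i => (C (-(q * t)) : Lam K) ^ (i + 1) * -(C (Mk q t (i + 1))⁻¹ * X i : Lam K) := by
    funext i
    rw [map_mul, om_X]
    have h0 : om K (C (Mk q⁻¹ t⁻¹ (i + 1))⁻¹) = C (Mk q⁻¹ t⁻¹ (i + 1))⁻¹ := by
      exact AlgHom.commutes _ _
    rw [h0]
    have h1 : (Mk q⁻¹ t⁻¹ (i + 1))⁻¹ * (-1) ^ i = (-(q * t)) ^ (i + 1) * -(Mk q t (i + 1))⁻¹ := by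
      have h2 : (1 - q ^ (i + 1)) ≠ 0 := sub_ne_zero.2 (hq (i + 1) (by omega)).symm
      have h3 : (1 - t ^ (i + 1)) ≠ 0 := sub_ne_zero.2 (ht (i + 1) (by omega)).symm
      have h4 : q ^ (i + 1) ≠ 0 := pow_ne_zero _ hq0
      have h5 : t ^ (i + 1) ≠ 0 := pow_ne_zero _ ht0
      have h6 : Mk q⁻¹ t⁻¹ (i + 1) = Mk q t (i + 1) / (q ^ (i + 1) * t ^ (i + 1)) := by
        rw [Mk, Mk, inv_pow, inv_pow]
        field_simp
        ring
      have h7 : Mk q t (i + 1) ≠ 0 := mul_ne_zero h2 h3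
      rw [h6, neg_pow (q * t) (i + 1), mul_pow, pow_succ (-1 : K) i, inv_div]
      field_simp
    calc (C (Mk q⁻¹ t⁻¹ (i + 1))⁻¹ : Lam K) * (C ((-1) ^ i) * X i)
        = C ((Mk q⁻¹ t⁻¹ (i + 1))⁻¹ * (-1) ^ i) * X i := by rw [map_mul]; ring
      _ = (C (-(q * t)) : Lam K) ^ (i + 1) * -(C (Mk q t (i + 1))⁻¹ * X i : Lam K) := by
          rw [h1]; simp only [map_mul, map_neg, map_pow]; ring
  have e3 : om K (C ((-(q * t)⁻¹) ^ a)) = C ((-(q * t)⁻¹) ^ a) := AlgHom.commutes _ _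
  rw [map_mul, map_mul, e1, e2, Hs_scale, e3, om_X, Est, omp]
  have e4 : (C ((-(q * t)⁻¹) ^ a) : Lam K) * (C (-(q * t)) : Lam K) ^ a = 1 := by
    rw [← map_pow, ← map_mul, ← mul_pow]
    have : -(q * t)⁻¹ * -(q * t) = 1 := by
      field_simp
    rw [this, one_pow, map_one]
  have e5 : ((-1 : Lam K) ^ a) * (-1) ^ a = 1 := by
    rw [← mul_pow]; simp
  have e6 : (C ((-1 : K) ^ (m - 1)) : Lam K) = (-1) ^ (m - 1) := by
    rw [map_pow, map_neg, map_one]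
  rw [e6]
  linear_combination (Hs (fun i => -(C (Mk q t (i + 1))⁻¹ * X i : Lam K)) a * ((-1) ^ (m - 1) * X (m - 1))) * e4 -
    (Hs (fun i => -(C (Mk q t (i + 1))⁻¹ * X i : Lam K)) a * ((-1) ^ (m - 1) * X (m - 1))) * e5

/-- the final computation with sequences -/
theorem seq_final {A : Type} [CommRing A] (E g et al' : ℕ → A) (tt T : A) (a : ℕ)
    (hE : ∀ l, tt ^ l * E l = ∑ p ∈ antidiagonal l, E p.1 * ((-1) ^ p.2 * al' p.2))
    (he : ∀ j, (1 - T) * et j = g j - T * ∑ p ∈ antidiagonal j, (tt ^ p.2 * (-1) ^ p.1) * (al' p.1 * g p.2)) :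
    (1 - T) * ∑ p ∈ antidiagonal a, E p.1 * et p.2 =
      (1 - T * tt ^ a) * ∑ p ∈ antidiagonal a, E p.1 * g p.2 := by
  have h1 : (1 - T) * ∑ p ∈ antidiagonal a, E p.1 * et p.2 =
      ∑ p ∈ antidiagonal a, E p.1 * g p.2 -
        T * ∑ p ∈ antidiagonal a, E p.1 * ∑ p' ∈ antidiagonal p.2,
          ((-1) ^ p'.1 * al' p'.1) * (tt ^ p'.2 * g p'.2) := by
    rw [mul_sum, mul_sum, ← sum_sub_distrib]
    refine sum_congr rfl fun p _ => ?_
    have h2 : ∑ p' ∈ antidiagonal p.2, ((-1) ^ p'.1 * al' p'.1) * (tt ^ p'.2 * g p'.2) =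
        ∑ p' ∈ antidiagonal p.2, (tt ^ p'.2 * (-1) ^ p'.1) * (al' p'.1 * g p'.2) :=
      sum_congr rfl fun p' _ => by ring
    rw [h2]
    linear_combination E p.1 * he p.2
  have h3 : ∑ p ∈ antidiagonal a, E p.1 * ∑ p' ∈ antidiagonal p.2,
      ((-1) ^ p'.1 * al' p'.1) * (tt ^ p'.2 * g p'.2) = tt ^ a * ∑ p ∈ antidiagonal a, E p.1 * g p.2 := by
    have h4 : PowerSeries.coeff a (PowerSeries.mk E * (PowerSeries.mk (fun n => (-1) ^ n * al' n) *
        PowerSeries.mk (fun n => tt ^ n * g n))) = ∑ p ∈ antidiagonal a, E p.1 * ∑ p' ∈ antidiagonal p.2,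
      ((-1) ^ p'.1 * al' p'.1) * (tt ^ p'.2 * g p'.2) := by
      rw [PowerSeries.coeff_mul]
      refine sum_congr rfl fun p _ => ?_
      rw [PowerSeries.coeff_mul, PowerSeries.coeff_mk]
      congr 1
      refine sum_congr rfl fun p' _ => ?_
      rw [PowerSeries.coeff_mk, PowerSeries.coeff_mk]
    rw [← h4, ← mul_assoc, PowerSeries.coeff_mul, mul_sum]
    refine sum_congr rfl fun p hp => ?_
    have hp' : p.1 + p.2 = a := mem_antidiagonal.1 hp
    have h5 : PowerSeries.coeff p.1 (PowerSeries.mk E * PowerSeries.mk (fun n => (-1) ^ n * al' n)) =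
        tt ^ p.1 * E p.1 := by
      rw [PowerSeries.coeff_mul, hE]
      refine sum_congr rfl fun p' _ => ?_
      rw [PowerSeries.coeff_mk, PowerSeries.coeff_mk]
    rw [h5, PowerSeries.coeff_mk, ← hp', pow_add]
    ring
  rw [h1, h3]
  ring

end CFin

open CFin

theorem pC (hCMN : CM.StCMN) (hV : StVH) (hEv : StEv) (hL : StWLink) (hHH : StHH) (hG : StClG) (hH : StClH)
    (K : Type) [Field K] [CharZero K] (q t : K) (hgen : Gq q t) (hq0 : q ≠ 0) (ht0 : t ≠ 0)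
    (hq : ∀ n : ℕ, 1 ≤ n → q ^ n ≠ 1) (ht : ∀ n : ℕ, 1 ≤ n → t ^ n ≠ 1) : StC K q t := by
  intro nab hnab m k N hm
  obtain ⟨Nn, hN1, hNdm, hNsg, _, _, _, _, _, hNnab⟩ := hCMN K q t hgen
  obtain ⟨kV, hVrec, hV00, hV0, hVP, hVS⟩ := hV K q t hq0 ht0 hq ht
  have hq1 : q ≠ 1 := by simpa using hq 1 le_rfl
  obtain ⟨ev, hevS, hevdm, hevdp, hev0⟩ := hEv K q N hq0 hq1
  obtain ⟨hLrec, hL0, hL1⟩ := hL K q t N hq ht
  -- the composite map
  let M : ℕ → (CM.Ry K →ₗ[K] WF K N) := fun k => (ev k) ∘ₗ (Nn k)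
  have hM1 : ∀ k x, M k ((CM.dmi q⁻¹ : Module.End K (CM.Ry K)) x) = WDm K N (M (k + 1) x) := by
    intro k x
    show ev k (Nn k (CM.dmi q⁻¹ x)) = WDm K N (ev (k + 1) (Nn (k + 1) x))
    rw [hNdm, hevdm]
  have hM2 : ∀ k x, M (k + 1) ((fun k => (CM.sg q⁻¹ t⁻¹ k).toLinearMap : ℕ → Module.End K (CM.Ry K)) k x) =
      (fun _ => WDp q N : ℕ → Module.End K (WF K N)) k (M k x) := by
    intro k x
    show ev (k + 1) (Nn (k + 1) (CM.sg q⁻¹ t⁻¹ k x)) = WDp q N (ev k (Nn k x))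
    rw [hNsg, hevdp]
  obtain ⟨tr1, tr2, tr3⟩ := pTrL K (CM.Ry K) (WF K N) (CM.dmi q⁻¹) (fun k => (CM.sg q⁻¹ t⁻¹ k).toLinearMap)
    (WDm K N) (fun _ => WDp q N) M hM1 hM2
  have hSup0 : ∀ f g : WF K N, Sup K N 0 f → Sup K N 0 g → f [] = g [] → f = g := by
    intro f g hf hg h
    funext w
    by_cases hw : VW N 0 w
    · have : w = [] := List.length_eq_zero_iff.1 hw.1
      rw [this, h]
    · rw [hf w hw, hg w hw]
  have hkcS : Sup K N 0 (kc q t N 0 0 0) := by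
    intro w hw
    simp only [kc, if_neg hw]
  have key : ∀ r a n, kc q t N r a n = M r (kV r a n) := by
    refine pUniq K (WF K N) q t (WDm K N) (fun _ => WDp q N) (kc q t N) (fun r a n => M r (kV r a n))
      (fun a => ht (a + 1) (by omega)) hLrec (fun r a n => ?_) ?_ (fun a n => ?_)
    · show M r (kV r a n) = _
      conv_lhs => rw [hVrec r a n]
      exact tr3 q t kV r a n
    · refine hSup0 _ _ hkcS (hevS 0 _) ?_
      rw [hL0]
      show 1 = ev 0 (Nn 0 (kV 0 0 0)) []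
      rw [hV00, hN1 0]
      have h0 : (C (1 : Lam K) : CM.Ry K) = 1 := map_one C
      have h1 := hev0 1
      rw [h0, map_one (evN K N)] at h1
      exact h1.symm
    · rw [hL1 a n]
      show 0 = M 0 (kV 0 a (n + 1))
      rw [hV0, map_zero]
  have hdpi : ∀ (s k : ℕ), dpi (fun _ => WDp q N) s k = (WDp q N) ^ s := by
    intro s k
    induction s with
    | zero => rfl
    | succ s ih =>
      show WDp q N * dpi (fun _ => WDp q N) s k = (WDp q N) ^ (s + 1)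
      rw [ih, pow_succ']
  -- the values g_j and eta_j
  let gam : ℕ → CM.Ry K := fun a => C (C ((-(q * t)⁻¹) ^ a) * Hst q⁻¹ t⁻¹ a * X (m - 1))
  let g : ℕ → MvPolynomial (Fin N) K := fun a => evN K N (nab ((-1) ^ a * (Est q t a * omp K m)))
  have hMgam : ∀ a, M 0 (gam a) [] = g a := by
    intro a
    show ev 0 (Nn 0 (C (C ((-(q * t)⁻¹) ^ a) * Hst q⁻¹ t⁻¹ a * X (m - 1)))) [] = _
    rw [hNnab nab hnab, hev0, om_gam q t hq0 ht0 hq ht a m hm]
  have hg : ∀ a, ∑ r ∈ Icc 1 m, (qn q m / qn q r) • (((WDm K N) ^ r) (kc q t N r a (m - r)) []) = g a := by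
    intro a
    have h1 := congrArg (fun x => M 0 x []) (hVP m a hm)
    simp only [map_sum, map_smul, Finset.sum_apply, Pi.smul_apply] at h1
    rw [hMgam a] at h1
    rw [← h1]
    refine sum_congr rfl fun r _ => ?_
    rw [tr1 r 0, zero_add, key r a (m - r)]
  let et : ℕ → MvPolynomial (Fin N) K := fun a => ∑ p ∈ antidiagonal a,
    (t ^ p.2 * (-1) ^ p.1 / qfac q p.1) • ∑ r ∈ Icc 1 m, (qn q m / qn q r) •
      (((WDm K N) ^ (r + p.1)) (((WDp q N) ^ p.1) (kc q t N r p.2 (m - r))) [])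
  have hqf : ∀ s, qfac q s ≠ 0 := by
    intro s
    exact Finset.prod_ne_zero_iff.2 fun i _ => sub_ne_zero.2 (hq (i + 1) (by omega)).symm
  have het : ∀ a, (1 - C (t ^ m)) * et a = g a - C (t ^ m) * ∑ p ∈ antidiagonal a,
      (C t ^ p.2 * (-1) ^ p.1) * (evN K N (al q p.1) * g p.2) := by
    intro a
    have h1 := congrArg (fun x => M 0 x []) (hVS m a hm)
    simp only [map_sub, map_sum, map_smul, Pi.sub_apply, Finset.sum_apply, Pi.smul_apply] at h1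
    have h2 : ∀ p ∈ antidiagonal a, (t ^ p.2 * (-1) ^ p.1 / qfac q p.1) • ∑ r ∈ Icc 1 m, (qn q m / qn q r) •
        M 0 (((CM.dmi q⁻¹ : Module.End K (CM.Ry K)) ^ (r + p.1))
          (dpi (fun k => (CM.sg q⁻¹ t⁻¹ k).toLinearMap) p.1 r (kV r p.2 (m - r)))) [] =
        (t ^ p.2 * (-1) ^ p.1 / qfac q p.1) • ∑ r ∈ Icc 1 m, (qn q m / qn q r) •
      (((WDm K N) ^ (r + p.1)) (((WDp q N) ^ p.1) (kc q t N r p.2 (m - r))) []) := by
      intro p _
      congr 1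
      refine sum_congr rfl fun r _ => ?_
      rw [tr1, zero_add, tr2, hdpi, key r p.2 (m - r)]
    rw [sum_congr rfl h2] at h1
    have h3 : ∀ p ∈ antidiagonal a, (t ^ p.2 * (-1) ^ p.1 / qfac q p.1) •
        M 0 (((CM.dmi q⁻¹ : Module.End K (CM.Ry K)) ^ p.1)
            (dpi (fun k => (CM.sg q⁻¹ t⁻¹ k).toLinearMap) p.1 0
              (C (C ((-(q * t)⁻¹) ^ p.2) * Hst q⁻¹ t⁻¹ p.2 * X (m - 1))))) [] =
        (C t ^ p.2 * (-1) ^ p.1) * (evN K N (al q p.1) * g p.2) := by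
      intro p _
      have h4 := tr2 p.1 0 (gam p.2)
      rw [hdpi] at h4
      rw [tr1, h4, hHH K q N p.1 hq, hMgam, smul_smul, div_mul_cancel₀ _ (hqf p.1),
        MvPolynomial.smul_eq_C_mul, map_mul, map_pow, map_pow, map_neg, map_one]
    rw [sum_congr rfl h3] at h1
    have h5 : M 0 (C (C ((-(q * t)⁻¹) ^ a) * Hst q⁻¹ t⁻¹ a * X (m - 1))) [] = g a := hMgam a
    rw [h5] at h1
    rw [MvPolynomial.smul_eq_C_mul, MvPolynomial.smul_eq_C_mul, map_sub, map_one] at h1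
    exact h1
  have hE : ∀ l, (C t : MvPolynomial (Fin N) K) ^ l * evN K N (Est q t l) =
      ∑ p ∈ antidiagonal l, evN K N (Est q t p.1) * ((-1) ^ p.2 * evN K N (al q p.2)) := by
    intro l
    have h1 := congrArg (evN K N) (pEal K q t hq ht l)
    rw [map_mul, map_sum] at h1
    have h2 : evN K N (C (t ^ l)) = (C t : MvPolynomial (Fin N) K) ^ l := by
      rw [← map_pow]
      exact AlgHom.commutes _ _
    rw [h2] at h1
    rw [h1]
    refine sum_congr rfl fun p _ => ?_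
    rw [map_mul, map_mul, map_pow, map_neg, map_one]
  have hfin := seq_final (fun l => evN K N (Est q t l)) g et (fun n => evN K N (al q n)) (C t) (C (t ^ m)) k hE het
  -- the left side
  have hG' := hG K q t hq ht N m k hm
  have hH' := hH K q t hq ht N m k hm
  simp only [hg] at hG'
  have hH'' : ∑ L ∈ DyW m N, C (qn q m / qn q (c0 L)) * (wU q t N L * (A1 q t N L).coeff k) =
    ∑ p ∈ antidiagonal k, evN K N (Est q t p.1) * et p.2 := hH'
  have hF : ∑ L ∈ DyW m N, C (qn q m / qn q (c0 L)) * (wU q t N L * ((A0 q t N L).coeff k +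
      C (t ^ m) * ((A1 q t N L).coeff k - C (t ^ k) * (A0 q t N L).coeff k))) =
      (1 - C (t ^ m) * C (t ^ k)) * (∑ p ∈ antidiagonal k, evN K N (Est q t p.1) * g p.2) +
        C (t ^ m) * ∑ p ∈ antidiagonal k, evN K N (Est q t p.1) * et p.2 := by
    rw [← hG', ← hH'', mul_sum, mul_sum, ← sum_add_distrib]
    refine sum_congr rfl fun L _ => ?_
    ring
  have hR : evN K N (∑ p ∈ antidiagonal k, (-1 : K) ^ p.2 • (Est q t p.1 * nab (Est q t p.2 * omp K m))) =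
      ∑ p ∈ antidiagonal k, evN K N (Est q t p.1) * g p.2 := by
    rw [map_sum]
    refine sum_congr rfl fun p _ => ?_
    show _ = evN K N (Est q t p.1) * evN K N (nab ((-1) ^ p.2 * (Est q t p.2 * omp K m)))
    have h1 : ((-1 : Lam K) ^ p.2 * (Est q t p.2 * omp K m)) = (-1 : K) ^ p.2 • (Est q t p.2 * omp K m) := by
      rw [MvPolynomial.smul_eq_C_mul, map_pow, map_neg, map_one]
    rw [h1, map_smul, map_smul, map_smul, map_mul, mul_smul_comm]
  rw [hF, hR]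
  have htm : (1 - t ^ m) ≠ 0 := sub_ne_zero.2 (ht m hm).symm
  have ht1 : (1 - t) ≠ 0 := by
    have := ht 1 le_rfl
    rw [pow_one] at this
    exact sub_ne_zero.2 this.symm
  have hqn : ∀ n, qn t n = (1 - t ^ n) / (1 - t) := by
    intro n
    rw [eq_div_iff ht1]
    exact geom_sum_mul_neg t n
  have hratio : (1 - t ^ m) * (qn t (m + k) / qn t m) = 1 - t ^ (m + k) := by
    rw [hqn, hqn]
    field_simp
  have hC : (1 - C (t ^ m) : MvPolynomial (Fin N) K) ≠ 0 := by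
    rw [← map_one C, ← map_sub]
    exact (MvPolynomial.C_injective _ _).ne_iff' (map_zero _) |>.2 htm
  refine mul_left_cancel₀ hC ?_
  have h6 : (1 - C (t ^ m) : MvPolynomial (Fin N) K) * C (qn t (m + k) / qn t m) = 1 - C (t ^ m) * C t ^ k := by
    have e := congrArg (C : K → MvPolynomial (Fin N) K) hratio
    rw [map_mul, map_sub, map_sub, map_one, pow_add, map_mul, map_pow C t k] at e
    exact e
  have h7 : (C (t ^ k) : MvPolynomial (Fin N) K) = C t ^ k := map_pow C t k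
  rw [h7]
  linear_combination (C (t ^ m) : MvPolynomial (Fin N) K) * hfin -
    (∑ p ∈ antidiagonal k, evN K N (Est q t p.1) * g p.2) * h6

end Pool.VD
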