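import Pool.Agent.VD.CV6
import Pool.Agent.VD.M_C

/-!
# MP_cf06d4_co, block C, V half (helper44), part 7: (P) and (L1) for elements, the V half `StVH`
-/

set_option autoImplicit false
set_option linter.unusedSectionVars false

namespace Pool.VD.CV

open MvPolynomial Finset Pool.VD.CM

variable {K : Type} [Field K] [CharZero K]

/-- the argument of the tail -/
noncomputable def tA (p u : K) (r f : ℕ) : SR K :=
  AS p u r * PowerSeries.C (C (C (p ^ f)) * Hs (yR K 0 r) f)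

theorem kW_tA (p u : K) (r j f : ℕ) : kW p u r j f = PowerSeries.coeff j (tA p u r f) := kW_coeff p u r j f

theorem ops2 (p u : K) (k r n j : ℕ) (F : SR K) :
    (dmi p ^ n) (dpi (sgL p u) k r (PowerSeries.coeff j F)) =
      PowerSeries.coeff j ((dmS p ^ n) (dpi (sgS p u) k r F)) := by
  have h1 : (dmS p ^ n) (dpi (sgS p u) k r F) = LS (dmi p ^ n * dpi (sgL p u) k r) F := by
    rw [LS_mul, LS_pow, LS_dpi]
    rfl
  rw [h1, coeff_LS]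
  rfl

theorem gam_coeff (p u : K) (j m : ℕ) : (C (Hst p u j) * cX K m : Ry K) =
    PowerSeries.coeff j (AS p u 0 * PowerSeries.C (cX K m)) := by
  rw [PowerSeries.coeff_mul_C, coeff_AS_zero]

theorem Ry_alg1 (c S d T e : Ry K) : c * (S * d + T * e) = d * (c * S) + e * (c * T) := by ring

theorem Ry_alg2 (c d e f : Ry K) : c * e * (d * f) = c * d * (f * e) := by ring

/-- (P) -/
theorem P_elt (p q u : K) (h : p * q = 1) (hp : ∀ k : ℕ, p ^ (k + 1) ≠ 1) (hq : ∀ k : ℕ, q ^ (k + 1) ≠ 1)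
    (hu : ∀ k : ℕ, u ^ (k + 1) ≠ 1) (m j : ℕ) :
    ∑ r ∈ range (m + 1), C (C ((1 - q ^ (m + 1)) / (1 - q ^ (r + 1)))) *
      (dmi p ^ (r + 1)) (kW p u (r + 1) j (m - r)) = C (Hst p u j) * cX K m := by
  have hM := Mk_ne' p u hp hu
  have h1 := congrArg (PowerSeries.coeff j) (sum_T p q u h hp hq hM m 0)
  rw [yR_zero, HS_zero_seq, mul_one, ← gam_coeff, map_sum] at h1
  rw [← h1]
  refine sum_congr rfl fun r _ => ?_
  rw [kW_tA, PowerSeries.coeff_mul_C, ← ops2, tA]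
  exact mul_comm _ _

/-- (L1) -/
theorem L1_elt (p q u : K) (h : p * q = 1) (hp : ∀ k : ℕ, p ^ (k + 1) ≠ 1) (hq : ∀ k : ℕ, q ^ (k + 1) ≠ 1)
    (hu : ∀ k : ℕ, u ^ (k + 1) ≠ 1) (m j : ℕ) :
    ∑ k ∈ range (j + 1), C (C (q ^ k / qfac q k)) *
        (dmi p ^ k) (dpi (sgL p u) k 0 (C (Hst p u (j - k)) * cX K m)) =
      C (C (1 - u ^ (m + 1))) * ∑ k ∈ range (j + 1), C (C (q ^ k / qfac q k)) *
        ∑ r ∈ range (m + 1), C (C ((1 - q ^ (m + 1)) / (1 - q ^ (r + 1)))) *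
          (dmi p ^ (r + 1 + k)) (dpi (sgL p u) k (r + 1) (kW p u (r + 1) (j - k) (m - r))) +
      C (C (u ^ (m + 1 + j))) * (C (Hst p u j) * cX K m) := by
  have hM := Mk_ne' p u hp hu
  have h1 : ∀ k ∈ range (j + 1), C (C (q ^ k / qfac q k)) *
        (dmi p ^ k) (dpi (sgL p u) k 0 (C (Hst p u (j - k)) * cX K m)) =
      C (C (1 - u ^ (m + 1))) * (C (C (q ^ k / qfac q k)) *
        ∑ r ∈ range (m + 1), C (C ((1 - q ^ (m + 1)) / (1 - q ^ (r + 1)))) *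
          (dmi p ^ (r + 1 + k)) (dpi (sgL p u) k (r + 1) (kW p u (r + 1) (j - k) (m - r)))) +
      (C (C (u ^ (m + 1))) * cX K m) * (C (C (q ^ k / qfac q k)) *
        PowerSeries.coeff (j - k) ((AS p u 0 * HS (yR K 0 0)) * GG p k)) := by
    intro k _
    have h2 : PowerSeries.coeff (j - k) ((dmS p ^ k) (∑ r ∈ range (m + 1), (dmS p ^ (r + 1))
        (dpi (sgS p u) k (r + 1) (AS p u (r + 1) *
        PowerSeries.C (C (C (p ^ (m - r))) * Hs (yR K 0 (r + 1)) (m - r)))) *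
        PowerSeries.C (C (C ((1 - q ^ (m + 1)) / (1 - q ^ (r + 1))))))) =
        ∑ r ∈ range (m + 1), C (C ((1 - q ^ (m + 1)) / (1 - q ^ (r + 1)))) *
          (dmi p ^ (r + 1 + k)) (dpi (sgL p u) k (r + 1) (kW p u (r + 1) (j - k) (m - r))) := by
      rw [map_sum, map_sum]
      refine sum_congr rfl fun r _ => ?_
      rw [← smulS, map_smul, cs_smul, smulK, add_comm (r + 1) k, kW_tA, ops2, pow_add (dmS p) k (r + 1), Module.End.mul_apply]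
      rfl
    have h3 : PowerSeries.coeff (j - k) ((dmS p ^ k) (dpi (sgS p u) k 0 (AS p u 0 * PowerSeries.C (cX K m)))) =
        (∑ r ∈ range (m + 1), C (C ((1 - q ^ (m + 1)) / (1 - q ^ (r + 1)))) *
          (dmi p ^ (r + 1 + k)) (dpi (sgL p u) k (r + 1) (kW p u (r + 1) (j - k) (m - r)))) *
          C (C (1 - u ^ (m + 1))) +
        PowerSeries.coeff (j - k) (AS p u 0 * GG p k) * (C (C (u ^ (m + 1))) * cX K m) := by
      rw [L1_m p q u h hp hq hM, map_add, PowerSeries.coeff_mul_C, PowerSeries.coeff_mul_C, h2]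
    rw [gam_coeff, ops2, h3, yR_zero, HS_zero_seq, mul_one (AS p u 0)]
    exact Ry_alg1 _ _ _ _ _
  rw [sum_congr rfl h1, sum_add_distrib, ← mul_sum, ← mul_sum, tail p q h hq hp, B_key p u hp hu,
    coeff_AS_zero]
  have h4 : (C (C (u ^ (m + 1 + j))) : Ry K) = C (C (u ^ (m + 1))) * C (C (u ^ j)) := by
    rw [pow_add, CC_mul]
  rw [h4]
  exact congrArg _ (Ry_alg2 _ _ _ _)

theorem sum_Icc1 {M : Type} [AddCommMonoid M] (f : ℕ → M) (m : ℕ) :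
    ∑ r ∈ Icc 1 (m + 1), f r = ∑ r ∈ range (m + 1), f (r + 1) := by
  have h := Finset.sum_Ico_add' f 0 (m + 1) 1
  rw [range_eq_Ico, h]
  rfl

theorem qn_div (q : K) (hq : ∀ k : ℕ, q ^ (k + 1) ≠ 1) (m r : ℕ) :
    qn q (m + 1) / qn q (r + 1) = (1 - q ^ (m + 1)) / (1 - q ^ (r + 1)) := by
  have h1 : ∀ n, (1 - q) * qn q n = 1 - q ^ n := by
    intro n
    rw [qn]
    exact mul_neg_geom_sum q n
  have h2 : (1 - q) ≠ 0 := by
    have := hq 0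
    rw [zero_add, pow_one] at this
    exact sub_ne_zero.2 (Ne.symm this)
  rw [← h1, ← h1, mul_div_mul_left _ _ h2]

theorem scal_key (p q u t : K) (h : p * q = 1) (hut : u * t = 1) (a k : ℕ) (hk : k ≤ a) :
    t ^ (a - k) * (-1) ^ k / qfac q k * (-(p * u)) ^ (a - k) = (-p) ^ a * (q ^ k / qfac q k) := by
  have e1 : a = (a - k) + k := by omega
  have e2 : (-p) ^ a = (-p) ^ (a - k) * (-p) ^ k := by rw [← pow_add, ← e1]
  have e3 : t ^ (a - k) * (-(p * u)) ^ (a - k) = (-p) ^ (a - k) := by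
    rw [← mul_pow]
    congr 1
    linear_combination (-p) * hut
  have e4 : (-p) ^ k * q ^ k = (-1) ^ k := by
    rw [← mul_pow, neg_mul, h]
  calc t ^ (a - k) * (-1) ^ k / qfac q k * (-(p * u)) ^ (a - k)
      = (t ^ (a - k) * (-(p * u)) ^ (a - k)) * (-1) ^ k / qfac q k := by ring
    _ = (-p) ^ (a - k) * ((-p) ^ k * q ^ k) / qfac q k := by rw [e3, e4]
    _ = (-p) ^ a * (q ^ k / qfac q k) := by rw [e2]; ring

theorem ops_CC (p u c : K) (k r n : ℕ) (x : Ry K) :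
    (dmi p ^ n) (dpi (sgL p u) k r (C (C c) * x)) = C (C c) * (dmi p ^ n) (dpi (sgL p u) k r x) := by
  rw [L_CC_mul, dmi_pow_CC_mul]

/-- the algebra of the last step -/
theorem fin_alg (p u t : K) (hut : u * t = 1) (m a : ℕ) (S A G : Ry K)
    (hA : A = C (C (1 - u ^ (m + 1))) * S + C (C (u ^ (m + 1 + a))) * G) :
    C (C (1 - t ^ (m + 1))) * (C (C ((-p) ^ a)) * S) =
      C (C ((-(p * u)) ^ a)) * G - C (C (t ^ (m + 1))) * (C (C ((-p) ^ a)) * A) := by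
  have h1 : (C (C (t ^ (m + 1))) * C (C (1 - u ^ (m + 1))) : Ry K) = C (C (t ^ (m + 1))) - 1 := by
    rw [← CC_mul]
    have : t ^ (m + 1) * (1 - u ^ (m + 1)) = t ^ (m + 1) - 1 := by
      rw [mul_sub, mul_one, ← mul_pow, mul_comm t u, hut, one_pow]
    rw [this, map_sub, map_sub, map_one, map_one]
  have h2 : (C (C (t ^ (m + 1))) * C (C (u ^ (m + 1 + a))) : Ry K) = C (C (u ^ a)) := by
    rw [← CC_mul, pow_add u (m + 1) a, ← mul_assoc, ← mul_pow, mul_comm t u, hut, one_pow, one_mul]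
  have h3 : (C (C ((-p) ^ a)) * C (C (u ^ a)) : Ry K) = C (C ((-(p * u)) ^ a)) := by
    rw [← CC_mul, ← mul_pow, neg_mul]
  have h4 : (C (C (1 - t ^ (m + 1))) : Ry K) = 1 - C (C (t ^ (m + 1))) := by
    rw [map_sub, map_sub, map_one, map_one]
  rw [hA, ← h3, h4]
  linear_combination (C (C ((-p) ^ a)) * S) * h1 + (C (C ((-p) ^ a)) * G) * h2

theorem pVH : StVH := by
  intro K _ _ q t hq0 ht0 hq1 ht1
  have hq : ∀ k : ℕ, q ^ (k + 1) ≠ 1 := fun k => hq1 (k + 1) (by omega)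
  have ht : ∀ k : ℕ, t ^ (k + 1) ≠ 1 := fun k => ht1 (k + 1) (by omega)
  have h : q⁻¹ * q = 1 := inv_mul_cancel₀ hq0
  have hut : t⁻¹ * t = 1 := inv_mul_cancel₀ ht0
  have hp : ∀ k : ℕ, q⁻¹ ^ (k + 1) ≠ 1 := by
    intro k h1
    rw [inv_pow, inv_eq_one] at h1
    exact hq k h1
  have hu : ∀ k : ℕ, t⁻¹ ^ (k + 1) ≠ 1 := by
    intro k h1
    rw [inv_pow, inv_eq_one] at h1
    exact ht k h1
  have hpu : -(q * t)⁻¹ = -(q⁻¹ * t⁻¹) := by rw [mul_inv]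
  refine ⟨kV q⁻¹ t⁻¹, fun r a n => (rec_V q⁻¹ q t⁻¹ t h hut hp hq hu r a n).symm, ?_,
    fun a n => kV_zero_succ _ _ a n, ?_, ?_⟩
  · rw [kV_zero_zero, pow_zero, map_one, one_mul, Hst, Hs_zero, map_one]
  · intro m a hm
    obtain ⟨m, rfl⟩ : ∃ m', m = m' + 1 := ⟨m - 1, by omega⟩
    rw [sum_Icc1, hpu]
    have h1 := P_elt q⁻¹ q t⁻¹ h hp hq hu m a
    have h2 : ∀ r ∈ range (m + 1), (qn q (m + 1) / qn q (r + 1)) •
        ((CM.dmi q⁻¹ : Module.End K (CM.Ry K)) ^ (r + 1)) (kV q⁻¹ t⁻¹ (r + 1) a (m + 1 - (r + 1))) =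
        C (C ((-(q⁻¹ * t⁻¹)) ^ a)) * (C (C ((1 - q ^ (m + 1)) / (1 - q ^ (r + 1)))) *
          (dmi q⁻¹ ^ (r + 1)) (kW q⁻¹ t⁻¹ (r + 1) a (m - r))) := by
      intro r hr
      have hr' := mem_range.1 hr
      have e1 : m + 1 - (r + 1) = m - r := by omega
      rw [qn_div q hq, e1, kV, dmi_pow_CC_mul, smulK]
      exact mul_left_comm _ _ _
    rw [sum_congr rfl h2, ← mul_sum, h1]
    have e2 : m + 1 - 1 = m := by omega
    rw [e2, map_mul C (C ((-(q⁻¹ * t⁻¹)) ^ a) * Hst q⁻¹ t⁻¹ a), map_mul C (C ((-(q⁻¹ * t⁻¹)) ^ a)), cX]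
    exact (mul_assoc _ _ _).symm
  · intro m a hm
    obtain ⟨m, rfl⟩ : ∃ m', m = m' + 1 := ⟨m - 1, by omega⟩
    have e2 : m + 1 - 1 = m := by omega
    have hA := L1_elt q⁻¹ q t⁻¹ h hp hq hu m a
    rw [Finset.Nat.sum_antidiagonal_eq_sum_range_succ_mk, Finset.Nat.sum_antidiagonal_eq_sum_range_succ_mk, hpu, e2]
    have h1 : ∀ k ∈ range a.succ, (t ^ (a - k) * (-1) ^ k / qfac q k) •
        ∑ r ∈ Icc 1 (m + 1), (qn q (m + 1) / qn q r) • ((CM.dmi q⁻¹ : Module.End K (CM.Ry K)) ^ (r + k))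
          (dpi (fun k => (CM.sg q⁻¹ t⁻¹ k).toLinearMap) k r (kV q⁻¹ t⁻¹ r (a - k) (m + 1 - r))) =
        C (C ((-q⁻¹) ^ a)) * (C (C (q ^ k / qfac q k)) *
          ∑ r ∈ range (m + 1), C (C ((1 - q ^ (m + 1)) / (1 - q ^ (r + 1)))) *
          (dmi q⁻¹ ^ (r + 1 + k)) (dpi (sgL q⁻¹ t⁻¹) k (r + 1) (kW q⁻¹ t⁻¹ (r + 1) (a - k) (m - r)))) := by
      intro k hk
      have hk' := mem_range.1 hk
      rw [sum_Icc1]
      have h2 : ∀ r ∈ range (m + 1), (qn q (m + 1) / qn q (r + 1)) •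
          ((CM.dmi q⁻¹ : Module.End K (CM.Ry K)) ^ (r + 1 + k))
          (dpi (fun k => (CM.sg q⁻¹ t⁻¹ k).toLinearMap) k (r + 1)
            (kV q⁻¹ t⁻¹ (r + 1) (a - k) (m + 1 - (r + 1)))) =
          C (C ((-(q⁻¹ * t⁻¹)) ^ (a - k))) * (C (C ((1 - q ^ (m + 1)) / (1 - q ^ (r + 1)))) *
          (dmi q⁻¹ ^ (r + 1 + k)) (dpi (sgL q⁻¹ t⁻¹) k (r + 1) (kW q⁻¹ t⁻¹ (r + 1) (a - k) (m - r)))) := by
        intro r hr
        have hr' := mem_range.1 hr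
        have e1 : m + 1 - (r + 1) = m - r := by omega
        have h3 := ops_CC q⁻¹ t⁻¹ ((-(q⁻¹ * t⁻¹)) ^ (a - k)) k (r + 1) (r + 1 + k)
          (kW q⁻¹ t⁻¹ (r + 1) (a - k) (m - r))
        have h4 : (dmi q⁻¹ ^ (r + 1 + k)) (dpi (sgL q⁻¹ t⁻¹) k (r + 1)
            (kV q⁻¹ t⁻¹ (r + 1) (a - k) (m - r))) = _ := h3
        rw [qn_div q hq, e1, smulK]
        refine Eq.trans (congrArg _ h4) ?_
        exact mul_left_comm _ _ _
      rw [sum_congr rfl h2, ← mul_sum, smulK, ← mul_assoc, ← CC_mul,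
        scal_key q⁻¹ q t⁻¹ t h hut a k (by omega), CC_mul, mul_assoc]
    have h5 : ∀ k ∈ range a.succ, (t ^ (a - k) * (-1) ^ k / qfac q k) •
        ((CM.dmi q⁻¹ : Module.End K (CM.Ry K)) ^ k)
            (dpi (fun k => (CM.sg q⁻¹ t⁻¹ k).toLinearMap) k 0
              (C (C ((-(q⁻¹ * t⁻¹)) ^ (a - k)) * Hst q⁻¹ t⁻¹ (a - k) * X m))) =
        C (C ((-q⁻¹) ^ a)) * (C (C (q ^ k / qfac q k)) *
          (dmi q⁻¹ ^ k) (dpi (sgL q⁻¹ t⁻¹) k 0 (C (Hst q⁻¹ t⁻¹ (a - k)) * cX K m))) := by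
      intro k hk
      have hk' := mem_range.1 hk
      have h6 : (C (C ((-(q⁻¹ * t⁻¹)) ^ (a - k)) * Hst q⁻¹ t⁻¹ (a - k) * X m) : Ry K) =
          C (C ((-(q⁻¹ * t⁻¹)) ^ (a - k))) * (C (Hst q⁻¹ t⁻¹ (a - k)) * cX K m) := by
        rw [mul_assoc, map_mul C (C ((-(q⁻¹ * t⁻¹)) ^ (a - k))), map_mul C (Hst q⁻¹ t⁻¹ (a - k)), cX]
      have h7 := ops_CC q⁻¹ t⁻¹ ((-(q⁻¹ * t⁻¹)) ^ (a - k)) k 0 k (C (Hst q⁻¹ t⁻¹ (a - k)) * cX K m)
      rw [h6, smulK]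
      refine Eq.trans (congrArg _ h7) ?_
      rw [← mul_assoc, ← CC_mul, scal_key q⁻¹ q t⁻¹ t h hut a k (by omega), CC_mul, mul_assoc]
    rw [sum_congr rfl h1, sum_congr rfl h5, ← mul_sum, ← mul_sum, smulK, smulK]
    have h8 : (C (C ((-(q⁻¹ * t⁻¹)) ^ a) * Hst q⁻¹ t⁻¹ a * X m) : Ry K) =
        C (C ((-(q⁻¹ * t⁻¹)) ^ a)) * (C (Hst q⁻¹ t⁻¹ a) * cX K m) := by
      rw [mul_assoc, map_mul C (C ((-(q⁻¹ * t⁻¹)) ^ a)), map_mul C (Hst q⁻¹ t⁻¹ a), cX]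
    rw [h8]
    exact fin_alg q⁻¹ t⁻¹ t hut m a _ _ _ hA

end Pool.VD.CV
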