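import Pool.Agent.VD.Comb

/-!
# MP_cf06d4_co, group V: statements of the modules of the collapse lemma (helper13)
-/

set_option autoImplicit false

namespace Pool.VD

open Finset

/-- decorated words: a letter is `(car, decorated?)` -/
abbrev DCar : Type := Car × Bool

/-- legal decorated words after the car `p`: an undecorated car satisfies the column condition, a decorated
car is a contractible valley (strictly below its predecessor); the last car has level `≥ 0` -/
def LegD : Car → List DCar → Prop
  | p, [] => 0 ≤ p.1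
  | p, (u, false) :: L => Hi p (dn u) ∧ LegD u L
  | p, (u, true) :: L => Hi p u ∧ LegD u L

/-- number of decorated letters -/
def ndec (L : List DCar) : ℕ := L.countP (fun d => d.2)

/-- alphabet of decorated words -/
def AD2 (A : Finset Car) : Finset DCar := A ×ˢ (Finset.univ : Finset Bool)

section generic

variable {A : Type} [CommRing A]

/-- weight of a decorated word; `h` = undecorated cars standing before (the nearest one first) -/
def wtD (φ γ : Car → List Car → A) : List Car → List DCar → A
  | _, [] => 1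
  | h, (u, false) :: L => φ u h * wtD φ γ (u :: h) L
  | h, (u, true) :: L => γ u h * wtD φ γ h L

/-- weight of an undecorated word -/
def wtP (φ : Car → List Car → A) : List Car → List Car → A
  | _, [] => 1
  | h, u :: L => φ u h * wtP φ (u :: h) L

/-- product over the gaps: in the gap between `p` and `u` any set of cars strictly between `dn u` and `p`
can be decorated; `z = Polynomial.X` -/
noncomputable def GP (S : Finset Car) (γ : Car → List Car → A) : Car → List Car → List Car → Polynomial A
  | p, h, [] => ∏ c ∈ S.filter (fun c => Hi p c ∧ Hi c (-1, 0)), (1 + Polynomial.C (γ c h) * Polynomial.X)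
  | p, h, u :: L =>
      (∏ c ∈ S.filter (fun c => Hi p c ∧ Hi c (dn u)), (1 + Polynomial.C (γ c h) * Polynomial.X)) *
        GP S γ u (u :: h) L

end generic

open Classical in
/-- COL_A: sum over decorated words = sum over undecorated words of the coefficient of the gap product. -/
def StCA : Prop :=
  ∀ (A : Type) (_ : CommRing A) (S : Finset Car) (φ γ : Car → List Car → A) (m k : ℕ) (p : Car)
    (h : List Car),
    ∑ L ∈ (Wd (AD2 S) (m + k)).filter (fun L => LegD p L ∧ ndec L = k), wtD φ γ h L =
      ∑ L ∈ (Wd S m).filter (fun L => Leg p L), wtP φ h L * (GP S γ p h L).coeff k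

/-- COL_B: regrouping of the gap product by cars. -/
def StCB : Prop :=
  ∀ (A : Type) (_ : CommRing A) (S : Finset Car) (ψ : Car → ℕ → A) (p : Car) (h L : List Car), Leg p L →
    GP S (fun c h => ψ c (cnt h c)) p h L =
      ∏ c ∈ S, ∏ j ∈ Ico (cnt h c + if Hi p c then 0 else 1) (cnt h c + cnt L c + if 0 ≤ c.1 then 1 else 0),
        (1 + Polynomial.C (ψ c j) * Polynomial.X)

variable {K : Type} [Field K] [CharZero K]

/-- weight of an undecorated car: `t^level q^(attackers + [level < 0]) x_label` -/
noncomputable def phU (q t : K) (N : ℕ) (u : Car) (h : List Car) : MvPolynomial (Fin N) K :=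
  MvPolynomial.C (t ^ u.1 * q ^ (cnt h u + if u.1 < 0 then 1 else 0)) * yv K N u.2

/-- weight of a decorated car: `t^level q^(attackers + [level < 0] - 1) x_label` -/
noncomputable def gaD (q t : K) (N : ℕ) (c : Car) (h : List Car) : MvPolynomial (Fin N) K :=
  MvPolynomial.C (t ^ c.1 * q ^ ((cnt h c : ℤ) - if 0 ≤ c.1 then 1 else 0)) * yv K N c.2

/-- alphabet: levels `-s, …, B`, labels `0, …, N-1` -/
noncomputable def Als (s B N : ℕ) : Finset Car := Finset.Icc (-(s : ℤ)) (B : ℤ) ×ˢ Finset.range N

/-- `- min` of `0` and the levels of all letters -/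
def botD (L : List DCar) : ℕ := (L.map (fun c => (-c.1.1).toNat)).foldr max 0

open Classical in
/-- COL_D: the literal sum in terms of decorated words. -/
def StCD (q t : K) : Prop :=
  t ≠ 0 → q ≠ 0 → ∀ n k N s : ℕ, 1 ≤ n → n ≤ s → FF q t n k N =
    ∑ L ∈ (Wd (AD2 (Als s n N)) n).filter (fun L => LegD (0, N) L ∧ ndec L = k),
      MvPolynomial.C (t ^ (n * botD L)) * wtD (phU q t N) (gaD q t N) [] L

open Classical in
/-- COL_E: decomposition by the shift. -/
def StCE : Prop :=
  ∀ (A : Type) (_ : CommRing A) (f : List DCar → A) (θ : A) (n k N B s : ℕ), 1 ≤ n →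
    ∑ L ∈ (Wd (AD2 (Als s B N)) n).filter (fun L => LegD (0, N) L ∧ ndec L = k), θ ^ (n * botD L) * f L =
      ∑ L ∈ (Wd (AD2 (Als 0 B N)) n).filter (fun L => LegD (0, N) L ∧ ndec L = k), f L +
      ∑ i ∈ range s, θ ^ (n * (i + 1)) *
        (∑ L ∈ (Wd (AD2 (Als (i + 1) B N)) n).filter (fun L => LegD (0, N) L ∧ ndec L = k), f L -
          ∑ L ∈ (Wd (AD2 (Als i B N)) n).filter (fun L => LegD (0, N) L ∧ ndec L = k), f L)

/-- COL_F: for a fixed undecorated legal word `L` (levels in `[-m, m]`), with `s' = bot L`: the coefficient of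
the product over the alphabet with levels `≥ -i`. -/
noncomputable def EE (q t : K) (N i B k : ℕ) (L : List Car) : MvPolynomial (Fin N) K :=
  (∏ c ∈ Als i B N, ∏ j ∈ range (cnt L c),
    (1 + Polynomial.C (MvPolynomial.C (t ^ c.1 * q ^ j) * yv K N c.2) * Polynomial.X)).coeff k

def StCF (q t : K) : Prop :=
  t ≠ 0 → ∀ (N B m k : ℕ) (L : List Car), L.length = m → (∀ c ∈ L, -(m : ℤ) ≤ c.1 ∧ c.1 ≤ (m : ℤ)) →
    m ≤ B →
    EE q t N (bot L) B k L = MvPolynomial.C ((t ^ (k * bot L))⁻¹) * (A0 q t N L).coeff k ∧
    (∀ i : ℕ, bot L + 1 ≤ i →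
      EE q t N i B k L = MvPolynomial.C ((t ^ (k * (bot L + 1)))⁻¹) * (A1 q t N L).coeff k)

/-- COL_G: weight of an undecorated word. -/
def StCG (q t : K) : Prop :=
  t ≠ 0 → ∀ (N : ℕ) (L : List Car),
    MvPolynomial.C (t ^ (L.length * bot L)) * wtP (phU q t N) [] L = wU q t N L

/-- COL_0 -/
def StCZ (q t : K) : Prop := ∀ n k N : ℕ, 1 ≤ n → n ≤ k → FF q t n k N = 0

end Pool.VD
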