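import Pool.Agent.VD.Defs

/-!
# MP_cf06d4_co, group V: the combinatorial side

* literal definitions of the problem: decorated labelled square paths, contractible valleys, shift, area,
  dinv, the generating function `FF q t n k N` in `N` variables, and the evaluation `evN`;
* the word model used by the blocks C and S: words of cars `(level, label)`.
-/

set_option autoImplicit false

namespace Pool.VD

open MvPolynomial Finset

/-! ### literal definitions

A square path of size `n` (from `(0,0)` to `(n,n)`, unit north and east steps, last step east) is given by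
the numbers `x i` of east steps before the `i`-th north step, `i = 0, …, n-1`: a weakly increasing
sequence of numbers in `{0, …, n-1}`. -/

/-- the area word: the `i`-th north step begins at `(x i, i)`, that is on the line `y = x + (i - x i)` -/
def lev {n : ℕ} (x : Fin n → Fin n) (i : Fin n) : ℤ := ((i : ℕ) : ℤ) - ((x i : ℕ) : ℤ)

/-- the shift `s = |min a_i|` -/
noncomputable def sh {n : ℕ} (x : Fin n → Fin n) : ℕ := (⨅ i, lev x i).natAbs

/-- the area `∑ (a_i + s)` -/
noncomputable def area {n : ℕ} (x : Fin n → Fin n) : ℕ := (∑ i, (lev x i + (sh x : ℤ))).toNat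

/-- labels strictly increase upward within every column (two north steps are in the same column iff they
have the same number of east steps before them) -/
def IsLab {n N : ℕ} (x : Fin n → Fin n) (w : Fin n → Fin N) : Prop :=
  ∀ i j : Fin n, i < j → x i = x j → w i < w j

/-- the north step `i` is a contractible valley -/
def CV {n N : ℕ} (x : Fin n → Fin n) (w : Fin n → Fin N) (i : Fin n) : Prop :=
  ((i : ℕ) = 0 ∧ lev x i < 0) ∨
    ∃ j : Fin n, (j : ℕ) + 1 = (i : ℕ) ∧ (lev x i < lev x j ∨ (lev x i = lev x j ∧ w j < w i))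

open Classical in
/-- the set `V_(n,k)` of labelled square paths of size `n` with `k` decorated contractible valleys, labels
in `{1, …, N}` (here `Fin N`) -/
noncomputable def VP (n N k : ℕ) : Finset ((Fin n → Fin n) × (Fin n → Fin N) × Finset (Fin n)) :=
  univ.filter fun P =>
    Monotone P.1 ∧ IsLab P.1 P.2.1 ∧ (∀ i ∈ P.2.2, CV P.1 P.2.1 i) ∧ P.2.2.card = k

open Classical in
/-- the set `A(P)` -/
noncomputable def AP {n N : ℕ} (x : Fin n → Fin n) (w : Fin n → Fin N) (D : Finset (Fin n)) :
    Finset (Fin n × Fin n) :=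
  univ.filter fun p => p.1 < p.2 ∧ p.1 ∉ D ∧
    ((lev x p.2 = lev x p.1 ∧ w p.1 < w p.2) ∨ (lev x p.2 = lev x p.1 - 1 ∧ w p.2 < w p.1))

open Classical in
/-- `dinv(P) = #A(P) + #{i : a_i < 0} - k` -/
noncomputable def dinv {n N : ℕ} (x : Fin n → Fin n) (w : Fin n → Fin N) (D : Finset (Fin n)) : ℤ :=
  ((AP x w D).card : ℤ) + ((univ.filter fun i => lev x i < 0).card : ℤ) - (D.card : ℤ)

variable {K : Type} [Field K] [CharZero K]

/-- `F_(n,k)` in the `N` variables `x_1, …, x_N` -/
noncomputable def FF (q t : K) (n k N : ℕ) : MvPolynomial (Fin N) K :=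
  ∑ P ∈ VP n N k, C (t ^ area P.1 * q ^ dinv P.1 P.2.1 P.2.2) * ∏ i, X (P.2.1 i)

/-- a symmetric function as a polynomial in `N` variables: `p_j ↦ x_1^j + … + x_N^j` -/
noncomputable def evN (K : Type) [Field K] (N : ℕ) : Lam K →ₐ[K] MvPolynomial (Fin N) K :=
  aeval (fun j => ∑ i : Fin N, (X i : MvPolynomial (Fin N) K) ^ (j + 1))

/-- The theorem (Q1): for every number `N` of variables. (`[n-k]_q = 0` for `k ≥ n`.) -/
def StQ1 (q t : K) : Prop :=
  ∀ (n k N : ℕ), 1 ≤ n → ∀ D : Lam K →ₗ[K] Lam K, IsDelta q t n (n - k) D →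
    FF q t n k N = C (qn q (n - k) / qn q n) * evN K N (D (omp K n))

/-! ### words of cars -/

/-- a car: (level, label); real labels are `0, …, N-1` -/
abbrev Car : Type := ℤ × ℕ

/-- `p` is above `c` in the total order (level, then smaller labels are higher) -/
def Hi (p c : Car) : Prop := c.1 < p.1 ∨ (c.1 = p.1 ∧ p.2 < c.2)

instance (p c : Car) : Decidable (Hi p c) := by unfold Hi; infer_instance

/-- one level down -/
def dn (u : Car) : Car := (u.1 - 1, u.2)

/-- `p` (standing to the left of `c`) attacks `c`; equivalent to `Hi p c ∧ Hi c (dn p)` -/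
def att (p c : Car) : Prop := (c.1 = p.1 ∧ p.2 < c.2) ∨ (c.1 = p.1 - 1 ∧ c.2 < p.2)

instance (p c : Car) : Decidable (att p c) := by unfold att; infer_instance

/-- the undecorated word `L` may stand after the car `p`, and it ends on a level `≥ 0`; the column
condition for two consecutive cars `p, u` is `a_u ≤ a_p + 1`, and `w_p < w_u` if `a_u = a_p + 1` -/
def Leg : Car → List Car → Prop
  | p, [] => 0 ≤ p.1
  | p, u :: L => Hi p (dn u) ∧ Leg u L

/-- number of pairs (earlier car, later car) with an attack -/
def inv : List Car → ℕ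
  | [] => 0
  | c :: L => L.countP (fun d => decide (att c d)) + inv L

/-- number of cars of `L` attacking `c` (if `c` stands to the right of `L`) -/
def cnt (L : List Car) (c : Car) : ℕ := L.countP (fun d => decide (att d c))

/-- `- min` of `0` and the levels of `L` -/
def bot (L : List Car) : ℕ := (L.map (fun c => (-c.1).toNat)).foldr max 0

/-- words of length `n` over a finite alphabet -/
def Wd {α : Type} (A : Finset α) : ℕ → Finset (List α)
  | 0 => {[]}
  | n + 1 => (A ×ˢ Wd A n).map
      ⟨fun p => p.1 :: p.2, fun p p' h => by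
        simp only [List.cons.injEq] at h; exact Prod.ext h.1 h.2⟩

/-- alphabet: levels `-B, …, B`, labels `0, …, N-1` -/
noncomputable def Al (B N : ℕ) : Finset Car := Finset.Icc (-(B : ℤ)) (B : ℤ) ×ˢ Finset.range N

open Classical in
/-- undecorated labelled square words of size `m` (last step east), labels `0, …, N-1`: the first car has
level `≤ 0` (it follows the virtual car `(0, N)`), the last car has level `≥ 0` -/
noncomputable def SqW (m N : ℕ) : Finset (List Car) :=
  (Wd (Al m N) m).filter fun L => Leg (0, N) L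

open Classical in
/-- undecorated labelled Dyck words of size `m`: square words with all levels `≥ 0` -/
noncomputable def DyW (m N : ℕ) : Finset (List Car) :=
  (SqW m N).filter fun L => ∀ c ∈ L, 0 ≤ c.1

/-- the variable of a label -/
noncomputable def yv (K : Type) [Field K] (N v : ℕ) : MvPolynomial (Fin N) K :=
  if h : v < N then X ⟨v, h⟩ else 0

/-- `t^area q^dinv x^P` of an undecorated word -/
noncomputable def wU (q t : K) (N : ℕ) (L : List Car) : MvPolynomial (Fin N) K :=
  C (t ^ ((L.map (fun c => (c.1 + (bot L : ℤ)).toNat)).sum) *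
      q ^ (inv L + L.countP (fun c => decide (c.1 < 0)))) *
    (L.map (fun c => yv K N c.2)).prod

/-- the factor `∏_(j < n) (1 + z t^b q^j x_v) = (-z t^b x_v ; q)_n`, a polynomial in `z` -/
noncomputable def poch (q t : K) (N b v n : ℕ) : Polynomial (MvPolynomial (Fin N) K) :=
  ∏ j ∈ range n, (1 + Polynomial.C (C (t ^ b * q ^ j) * yv K N v) * Polynomial.X)

/-- `A0(z) = ∏_(b ≥ 0, v) (-z t^b x_v ; q)_(C_(b,v))`, `b` = level above the lowest level of `L`
(high levels contribute factors 1, so the range is only a sufficiently large one) -/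
noncomputable def A0 (q t : K) (N : ℕ) (L : List Car) : Polynomial (MvPolynomial (Fin N) K) :=
  ∏ b ∈ range (2 * L.length + 2), ∏ v ∈ range N, poch q t N b v (cnt L ((b : ℤ) - bot L, v))

/-- `A1(tz) = ∏_(b ≥ -1, v) (-z t^(b+1) x_v ; q)_(C_(b,v))` -/
noncomputable def A1 (q t : K) (N : ℕ) (L : List Car) : Polynomial (MvPolynomial (Fin N) K) :=
  ∏ b ∈ range (2 * L.length + 3), ∏ v ∈ range N, poch q t N b v (cnt L ((b : ℤ) - 1 - bot L, v))

/-- COLLAPSE LEMMA (square paths). -/
def StCol (q t : K) : Prop :=
  ∀ m k N : ℕ, 1 ≤ m → FF q t (m + k) k N =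
    ∑ L ∈ SqW m N, wU q t N L * ((A0 q t N L).coeff k +
      C (t ^ m) * ((A1 q t N L).coeff k - C (t ^ k) * (A0 q t N L).coeff k))

/-- `F_(n,k) = 0` for `k ≥ n ≥ 1` -/
def StCol0 (q t : K) : Prop := ∀ n k N : ℕ, 1 ≤ n → n ≤ k → FF q t n k N = 0

end Pool.VD
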