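import Pool.Agent.VD.StS

/-!
# MP_cf06d4_co, group V, block C, words half (helper23): definitions and statements

The generating functions `KW d a` of Dyck words with prescribed word `a` of level-0 labels (with the tail of free
cars: `PhiW`), the level recursion `StWRec`, and its operator form `StWOp`.
Power series in `z` over `R = MvPolynomial (Fin N) K`; labels are natural numbers `< N` (variable `yv K N v`).
-/

set_option autoImplicit false

namespace Pool.VD

open MvPolynomial Finset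

/-- number of entries of `l` larger than `c` -/
def gtc (l : List ℕ) (c : ℕ) : ℕ := l.countP (fun d => decide (c < d))

/-- number of pairs (earlier, later) of entries with earlier `<` later -/
def inl : List ℕ → ℕ
  | [] => 0
  | c :: l => gtc l c + inl l

/-- `#{(i,j) : l_i < m_j}` -/
def crs (l m : List ℕ) : ℕ := (l.map (gtc m)).sum

/-- labels of the cars of level 0, in order -/
def lab0 (L : List Car) : List ℕ := (L.filter (fun c => decide (c.1 = 0))).map Prod.snd

/-- the cars of level `≠ 0`, lowered by one level -/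
def hil (L : List Car) : List Car := (L.filter (fun c => decide (c.1 ≠ 0))).map dn

/-- one level up -/
def up (u : Car) : Car := (u.1 + 1, u.2)

/-- sum over the splittings `v = g_1 ++ … ++ g_r` (`r` the length of `a`), with `g_i = []` or
`head g_i > a_i`, of `q^(#{(c in g_j, a_i) : j < i, a_i < c})` -/
def GamW {A : Type} [CommRing A] (q : A) : List ℕ → List ℕ → A
  | [], v => if v = [] then 1 else 0
  | c :: a, v => ∑ i ∈ range (v.length + 1),
      (if i = 0 ∨ c < v.headD 0 then q ^ crs a (v.take i) * GamW q a (v.drop i) else 0)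

/-- all shuffles of the level-0 word `a` with the word `H` raised by one level -/
def Sh : List ℕ → List Car → Finset (List Car)
  | [], H => {H.map up}
  | c :: a, [] => (Sh a []).map ⟨fun L => ((0, c) : Car) :: L, fun _ _ h => by simpa using h⟩
  | c :: a, h :: H =>
      (Sh a (h :: H)).map ⟨fun L => ((0, c) : Car) :: L, fun _ _ h => by simpa using h⟩ ∪
        (Sh (c :: a) H).map ⟨fun L => up h :: L, fun _ _ h => by simpa using h⟩
termination_by a H => (a.length, H.length)

variable {K : Type} [Field K] [CharZero K]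

/-- `(q;q)_n` -/
def qpo (q : K) (n : ℕ) : K := ∏ i ∈ range n, (1 - q ^ (i + 1))

/-- `∏ x_c` over a list of labels -/
noncomputable def xl (K : Type) [Field K] (N : ℕ) (l : List ℕ) : MvPolynomial (Fin N) K :=
  (l.map (yv K N)).prod

/-- `Einv(z) = ∑ (-z)^n h_n[X/M]` in `N` variables -/
noncomputable def Einv (q t : K) (N : ℕ) : PowerSeries (MvPolynomial (Fin N) K) :=
  PowerSeries.mk fun n => (-1) ^ n * evN K N (Hst q t n)

/-- the tail factor of a word (Dyck word) -/
noncomputable def PhiW (q t : K) (N : ℕ) (L : List Car) : PowerSeries (MvPolynomial (Fin N) K) :=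
  (A0 q t N L : PowerSeries (MvPolynomial (Fin N) K)) * Einv q t N

/-- `t^(sum of levels) q^(inv L) ∏_(cars of level ≠ 0) x` -/
noncomputable def wK (q t : K) (N : ℕ) (L : List Car) : MvPolynomial (Fin N) K :=
  C (t ^ ((L.map (fun c => c.1.toNat)).sum) * q ^ inv L) * xl K N ((hil L).map Prod.snd)

open Classical in
/-- the generating function of the Dyck words with level-0 word `a` and `d` cars of positive level -/
noncomputable def KW (q t : K) (N d : ℕ) (a : List ℕ) : PowerSeries (MvPolynomial (Fin N) K) :=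
  ∑ L ∈ (DyW (a.length + d) N).filter (fun L => lab0 L = a), PowerSeries.C (wK q t N L) * PhiW q t N L

/-- words of length `m` in the labels `0, …, N-1` -/
def Ws (N m : ℕ) : Finset (List ℕ) := Wd (range N) m

/-- the level-0 tail between the level-0 word `a` and the level-1 word `v` -/
noncomputable def T0 (q : K) (N : ℕ) (a v : List ℕ) : PowerSeries (MvPolynomial (Fin N) K) :=
  PowerSeries.mk fun m => C ((-1) ^ m / qpo q m) *
    ∑ τ ∈ Ws N m, C (q ^ (inl τ + crs a τ + crs τ v)) * xl K N τ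

/-- `φ(y) = ∑ y^n z^n / (q;q)_n` -/
noncomputable def phiS (q : K) {A : Type} [CommRing A] [Algebra K A] (y : A) : PowerSeries A :=
  PowerSeries.mk fun n => (qpo q n)⁻¹ • y ^ n

/-- MODULE WMEM: membership in `DyW`. -/
def StWMem : Prop :=
  ∀ (m N : ℕ) (L : List Car), L ∈ DyW m N ↔
    L.length = m ∧ (∀ c ∈ L, 0 ≤ c.1 ∧ c.2 < N) ∧ Leg (0, N) L

/-- MODULE WSH: the shuffle lemma.
Proof: membership `L ∈ Sh a H ↔ lab0 L = a ∧ hil L = H` (levels of `H` `≥ 0`) is a separate statement.  With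
`S(p;a;H) = ∑_(L ∈ Sh a H) wt q p L` and `G0 a v = ∑_(i ≤ |v|) q^(crs a (take i v)) GamW a (drop i v)` prove together, by
induction on `a`, `H`:  `S((0,c);a;H) = q^(inl a) wt (0,N) H * (if v ≠ [] ∧ c < head v then G0 a v else GamW a v)` and
`S(up h0;a;H) = q^(inl a) wt h0 H * G0 a v`, `v = lab0 H`, `0 ≤ h0.1`. -/
def StWSh : Prop :=
  ∀ (A : Type) [CommRing A] (q : A) (N : ℕ) (a : List ℕ) (H : List Car),
    (∀ c ∈ H, 0 ≤ c.1 ∧ c.2 < N) →
      ∑ L ∈ Sh a H, wt q (0, N) L = q ^ inl a * wt q (0, N) H * GamW q a (lab0 H)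

/-- MODULE WSH: membership -/
def StWShM : Prop :=
  ∀ (a : List ℕ) (H L : List Car), (∀ c ∈ H, 0 ≤ c.1) → (L ∈ Sh a H ↔ lab0 L = a ∧ hil L = H)

/-- MODULE WPHI: factorisation of the tail factor -/
def StWPhi (q t : K) : Prop :=
  (∀ n : ℕ, 1 ≤ n → q ^ n ≠ 1) → (∀ n : ℕ, 1 ≤ n → t ^ n ≠ 1) → ∀ (N m : ℕ) (L : List Car), L ∈ DyW m N →
    PhiW q t N L = (∏ c ∈ range N, phiS q (-(C (q ^ (gtc (lab0 (hil L)) c + crs (lab0 L) [c])) * yv K N c))) *
      PowerSeries.rescale (C t : MvPolynomial (Fin N) K) (PhiW q t N (hil L))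

/-- MODULE WTAIL: `∑_(τ ∈ [N]^m) q^(inl τ) ∏ y_(τ_j) = (q;q)_m [z^m] ∏_c φ(y_c)`. -/
def StWTail (q : K) : Prop :=
  (∀ n : ℕ, 1 ≤ n → q ^ n ≠ 1) → ∀ (A : Type) [CommRing A] [Algebra K A] (N m : ℕ) (y : ℕ → A),
    ∑ τ ∈ Ws N m, q ^ inl τ • (τ.map y).prod = qpo q m • PowerSeries.coeff m (∏ c ∈ range N, phiS q (y c))

/-- MODULE WREC: THE LEVEL RECURSION. -/
def StWRec (q t : K) : Prop :=
  (∀ n : ℕ, 1 ≤ n → q ^ n ≠ 1) → (∀ n : ℕ, 1 ≤ n → t ^ n ≠ 1) → ∀ (N d : ℕ) (a : List ℕ), (∀ c ∈ a, c < N) →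
    KW q t N d a = ∑ k ∈ range (d + 1), ∑ v ∈ Ws N k,
      PowerSeries.C (C (t ^ d * q ^ inl a * GamW q a v) * xl K N v) * T0 q N a v *
        PowerSeries.rescale (C t : MvPolynomial (Fin N) K) (KW q t N (d - k) v)

/-- MODULE WREC: the start. -/
def StWStart (q t : K) : Prop :=
  ∀ N : ℕ, KW q t N 0 [] = Einv q t N ∧ ∀ d : ℕ, KW q t N (d + 1) [] = 0

/-! ### operators on functions of words (reading order) -/

section ops

variable (q : K) (N : ℕ)

/-- functions of words -/
abbrev WF (K : Type) [Field K] (N : ℕ) : Type := List ℕ → MvPolynomial (Fin N) K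

/-- forget the last active car -/
noncomputable def DmW (f : WF K N) : WF K N := fun l => ∑ c ∈ range N, yv K N c * f (l ++ [c])

/-- a new first car -/
noncomputable def DpW (f : WF K N) : WF K N
  | [] => 0
  | c :: l => C (q ^ gtc l c) * f l

/-- `w_0 = D_+`, `w_b = (q-1)^(-1) [D_-, D_+] D_-^(b-1)` -/
noncomputable def wbW (b : ℕ) (f : WF K N) : WF K N :=
  match b with
  | 0 => DpW q N f
  | b + 1 => fun l => C ((q - 1)⁻¹) *
      (DmW N (DpW q N ((DmW N)^[b] f)) l - DpW q N (DmW N ((DmW N)^[b] f)) l)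

/-- `∑_(b_1 + … + b_r = k) w_(b_1) … w_(b_r)` -/
noncomputable def WWW : ℕ → ℕ → WF K N → WF K N
  | 0, k, f => if k = 0 then f else 0
  | r + 1, k, f => ∑ b ∈ range (k + 1), wbW q N b (WWW r (k - b) f)

end ops

/-- MODULE WOP: value of the composite operator. -/
def StWOpV (q : K) : Prop :=
  q ≠ 1 → ∀ (N k m : ℕ) (g : WF K N) (a τ : List ℕ), τ.length = m →
    WWW q N a.length k ((DpW q N)^[m] g) (a ++ τ) =
      C (q ^ (inl a + crs a τ)) * ∑ v ∈ Ws N k, xl K N v * C (GamW q a v * q ^ (inl τ + crs τ v)) * g v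

/-- MODULE WOP: the level recursion in operator form, coefficient of `z^j`. -/
def StWOp (q t : K) : Prop :=
  (∀ n : ℕ, 1 ≤ n → q ^ n ≠ 1) → (∀ n : ℕ, 1 ≤ n → t ^ n ≠ 1) → ∀ (N d j : ℕ) (a : List ℕ), (∀ c ∈ a, c < N) →
    PowerSeries.coeff j (KW q t N d a) = ∑ k ∈ range (d + 1), ∑ m ∈ range (j + 1),
      C ((-1) ^ m / qpo q m * t ^ (j - m + d)) *
        (DmW N)^[m] (WWW q N a.length k ((DpW q N)^[m]
          (fun v => PowerSeries.coeff (j - m) (KW q t N (d - k) v)))) a

end Pool.VD
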