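import Pool.Agent.VD.DefC
import Pool.Agent.VD.StCW
import Pool.Agent.VD.CM

/-!
# MP_cf06d4_co, group V, block C: linear operators on functions of words (helper17)

* reading order (`WDm`, `WDp`): the word is read from left to right, `D_-` forgets the last letter, `D_+` adds a
  first letter (helper23's `DmW`, `DpW`, with values 0 on words with labels `≥ N`);
* the words family for `IsAq` (block CM): functions of words in TOP FIRST order (reversed), supported on the
  words of length `k` with labels `< N`.
-/

set_option autoImplicit false
set_option linter.unusedSectionVars false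

namespace Pool.VD

open MvPolynomial Finset

variable {K : Type} [Field K] [CharZero K]

/-! ### reading order -/

/-- `(D_- f)(w) = ∑_a x_a f(w a)` -/
noncomputable def WDm (K : Type) [Field K] (N : ℕ) : Module.End K (WF K N) where
  toFun f w := ∑ a ∈ range N, yv K N a * f (w ++ [a])
  map_add' f g := by
    funext w; simp only [Pi.add_apply, mul_add, Finset.sum_add_distrib]
  map_smul' c f := by
    funext w; simp only [Pi.smul_apply, RingHom.id_apply, Finset.smul_sum, mul_smul_comm]

/-- `(D_+ f)(a w) = q^#(i : w_i > a) f(w)` for `a < N`, `0` otherwise -/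
noncomputable def WDp (q : K) (N : ℕ) : Module.End K (WF K N) where
  toFun f w := match w with
    | [] => 0
    | a :: w => if a < N then C (q ^ gtc w a) * f w else 0
  map_add' f g := by
    funext w; cases w with
    | nil => simp only [Pi.add_apply, add_zero]
    | cons a w =>
      by_cases h : a < N
      · simp only [Pi.add_apply, if_pos h, mul_add]
      · simp only [Pi.add_apply, if_neg h, add_zero]
  map_smul' c f := by
    funext w; cases w with
    | nil => simp only [Pi.smul_apply, smul_zero]
    | cons a w =>
      by_cases h : a < N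
      · simp only [Pi.smul_apply, RingHom.id_apply, if_pos h, mul_smul_comm]
      · simp only [Pi.smul_apply, RingHom.id_apply, if_neg h, smul_zero]

/-- valid words: labels `< N` and length `r` -/
def VW (N r : ℕ) (w : List ℕ) : Prop := w.length = r ∧ ∀ x ∈ w, x < N

/-- `f` vanishes outside of the valid words of length `r` -/
def Sup (K : Type) [Field K] (N r : ℕ) (f : WF K N) : Prop := ∀ w, ¬ VW N r w → f w = 0

open Classical in
/-- the coefficient of `z^a` in `KW` as a function supported on the valid words of length `r` -/
noncomputable def kc (q t : K) (N r a n : ℕ) : WF K N := fun w =>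
  if VW N r w then PowerSeries.coeff a (KW q t N n w) else 0

/-! ### the words family, top first order -/

/-- functions supported on the valid words of length `k` -/
def FS (K : Type) [Field K] (N k : ℕ) : Submodule K (WF K N) where
  carrier := {f | Sup K N k f}
  add_mem' := fun {f g} hf hg w hw => by
    show f w + g w = 0
    rw [hf w hw, hg w hw, add_zero]
  zero_mem' := fun w _ => rfl
  smul_mem' := fun c f hf w hw => by
    show c • f w = 0
    rw [hf w hw, smul_zero]

/-- `(d f)(w) = ∑_a x_a f(a :: w)` -/
noncomputable def dmF (K : Type) [Field K] (N : ℕ) : WF K N →ₗ[K] WF K N where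
  toFun f w := ∑ a ∈ range N, yv K N a * f (a :: w)
  map_add' f g := by
    funext w; simp only [Pi.add_apply, mul_add, Finset.sum_add_distrib]
  map_smul' c f := by
    funext w; simp only [Pi.smul_apply, RingHom.id_apply, Finset.smul_sum, mul_smul_comm]

/-- `(d f)(w ++ [a]) = q^#(i : w_i > a) f(w)` for `a < N` -/
noncomputable def dpF (q : K) (N : ℕ) : WF K N →ₗ[K] WF K N where
  toFun f w := if w ≠ [] ∧ w.getLastD 0 < N then C (q ^ gtc w.dropLast (w.getLastD 0)) * f w.dropLast else 0
  map_add' f g := by
    funext w
    by_cases h : w ≠ [] ∧ w.getLastD 0 < N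
    · simp only [Pi.add_apply, if_pos h, mul_add]
    · simp only [Pi.add_apply, if_neg h, add_zero]
  map_smul' c f := by
    funext w
    by_cases h : w ≠ [] ∧ w.getLastD 0 < N
    · simp only [Pi.smul_apply, RingHom.id_apply, if_pos h, mul_smul_comm]
    · simp only [Pi.smul_apply, RingHom.id_apply, if_neg h, smul_zero]

/-- `T` on the first two letters `b :: a :: u` (`b` is the upper one) -/
noncomputable def TF0 (q : K) (N : ℕ) : WF K N →ₗ[K] WF K N where
  toFun f w := match w with
    | b :: a :: u => if a < b then q • f (a :: b :: u)
        else if b < a then f (a :: b :: u) + (1 - q) • f (b :: a :: u) else f (b :: a :: u)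
    | _ => 0
  map_add' f g := by
    funext w
    rcases w with _ | ⟨b, _ | ⟨a, u⟩⟩
    · simp
    · simp
    · simp only [Pi.add_apply]
      split_ifs
      · rw [smul_add]
      · rw [smul_add]; ring
      · rfl
  map_smul' c f := by
    funext w
    rcases w with _ | ⟨b, _ | ⟨a, u⟩⟩
    · simp
    · simp
    · simp only [Pi.smul_apply, RingHom.id_apply]
      split_ifs
      · rw [smul_comm]
      · rw [smul_add, smul_comm]
      · rfl

/-- `T_j` on the letters number `j`, `j+1` -/
noncomputable def TF (q : K) (N : ℕ) : ℕ → (WF K N →ₗ[K] WF K N)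
  | 0 => TF0 q N
  | j + 1 =>
    { toFun := fun f w => match w with
        | [] => 0
        | c :: w => TF q N j (fun w' => f (c :: w')) w
      map_add' := fun f g => by
        funext w
        rcases w with _ | ⟨c, w⟩
        · simp
        · show TF q N j ((fun w' => f (c :: w')) + fun w' => g (c :: w')) w = _
          rw [map_add]; rfl
      map_smul' := fun r f => by
        funext w
        rcases w with _ | ⟨c, w⟩
        · simp
        · show TF q N j (r • fun w' => f (c :: w')) w = _
          rw [map_smul]; rfl }

theorem sup_dmF (N k : ℕ) (f : WF K N) (hf : Sup K N (k + 1) f) : Sup K N k (dmF K N f) := by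
  intro w hw
  show ∑ a ∈ range N, yv K N a * f (a :: w) = 0
  refine Finset.sum_eq_zero fun a ha => ?_
  rw [hf (a :: w) (fun h => hw ?_), mul_zero]
  refine ⟨by have := h.1; simpa using this, fun x hx => h.2 x (List.mem_cons_of_mem _ hx)⟩

theorem sup_dpF (q : K) (N k : ℕ) (f : WF K N) (hf : Sup K N k f) : Sup K N (k + 1) (dpF q N f) := by
  intro w hw
  show (if w ≠ [] ∧ w.getLastD 0 < N then C (q ^ gtc w.dropLast (w.getLastD 0)) * f w.dropLast else 0) = 0
  by_cases h : w ≠ [] ∧ w.getLastD 0 < N
  · rw [if_pos h, hf w.dropLast (fun h1 => hw ?_), mul_zero]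
    have h2 : w = w.dropLast ++ [w.getLastD 0] := by
      obtain ⟨h3, _⟩ := h
      conv_lhs => rw [← List.dropLast_append_getLast h3]
      rw [List.getLastD_eq_getLast?, List.getLast?_eq_getLast_of_ne_nil h3]
      rfl
    refine ⟨?_, fun x hx => ?_⟩
    · rw [h2, List.length_append, h1.1]; rfl
    · rw [h2, List.mem_append] at hx
      rcases hx with hx | hx
      · exact h1.2 x hx
      · rw [List.mem_singleton] at hx
        rw [hx]; exact h.2
  · rw [if_neg h]

theorem sup_TF (q : K) (N k j : ℕ) (f : WF K N) (hf : Sup K N k f) : Sup K N k (TF q N j f) := by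
  induction j generalizing k f with
  | zero =>
    intro w hw
    rcases w with _ | ⟨b, _ | ⟨a, u⟩⟩
    · rfl
    · rfl
    · have h1 : ¬ VW N k (a :: b :: u) := fun h => hw ⟨h.1, fun x hx => h.2 x (by
        simp only [List.mem_cons] at hx ⊢; tauto)⟩
      show (if a < b then q • f (a :: b :: u)
        else if b < a then f (a :: b :: u) + (1 - q) • f (b :: a :: u) else f (b :: a :: u)) = 0
      rw [hf _ hw, hf _ h1]
      simp
  | succ j ih =>
    intro w hw
    rcases w with _ | ⟨c, w⟩
    · rfl
    · show TF q N j (fun w' => f (c :: w')) w = 0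
      rcases k with _ | k
      · have h0 : (fun w' => f (c :: w')) = (0 : WF K N) := by
          funext w'
          exact hf _ (fun h => by simpa using h.1)
        rw [h0, map_zero]; rfl
      · by_cases hc : c < N
        · refine ih k (fun w' => f (c :: w')) (fun w' hw' => hf _ (fun h => hw' ?_)) w (fun h => hw ?_)
          · exact ⟨by simpa using h.1, fun x hx => h.2 x (List.mem_cons_of_mem _ hx)⟩
          · refine ⟨by simp [h.1], fun x hx => ?_⟩
            rcases List.mem_cons.1 hx with hx | hx
            · rw [hx]; exact hc
            · exact h.2 x hx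
        · have h0 : (fun w' => f (c :: w')) = (0 : WF K N) := by
            funext w'
            exact hf _ (fun h => hc (h.2 c List.mem_cons_self))
          rw [h0, map_zero]; rfl

/-- the words family: `D_-` -/
noncomputable def uDm (K : Type) [Field K] [CharZero K] (N k : ℕ) : FS K N (k + 1) →ₗ[K] FS K N k :=
  (dmF K N).restrict (fun f hf => sup_dmF N k f hf)

/-- the words family: `D_+` -/
noncomputable def uDp (q : K) (N k : ℕ) : FS K N k →ₗ[K] FS K N (k + 1) :=
  (dpF q N).restrict (fun f hf => sup_dpF q N k f hf)

/-- the words family: `T_j` -/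
noncomputable def uT (q : K) (N k j : ℕ) : FS K N k →ₗ[K] FS K N k :=
  (TF q N j).restrict (fun f hf => sup_TF q N k j f hf)

end Pool.VD
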