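import Pool.Agent.VD.StCM
import Pool.Agent.VD.CM_D

/-!
# Block CM: module C11
-/

set_option autoImplicit false
set_option linter.unusedSectionVars false

namespace Pool.VD.CM

open MvPolynomial Finset

section generic

variable {K : Type} [Field K] [CharZero K] {A : Type} [CommRing A] (φ : K →+* A)

/-- `Q_l` -/
def C11_Q (q : K) (x y : A) (l : ℕ) : A :=
  ∑ j ∈ range (l + 1), φ (ka q j * ka q (l - j)) * x ^ j * y ^ (l - j)

theorem C11_Q0 (q : K) (x y : A) : C11_Q φ q x y 0 = 1 := by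
  simp [C11_Q, ka]

theorem C11_Q1 (q : K) (x y : A) : C11_Q φ q x y 1 = φ (1 - q) * (x + y) := by
  simp [C11_Q, ka, sum_range_succ]
  ring

theorem C11_Qs (q : K) (x y : A) (m : ℕ) : C11_Q φ q x y (m + 1) = φ (1 - q) * y ^ (m + 1) +
    ∑ j ∈ range (m + 1), φ ((1 - q) * ka q (m - j)) * x ^ (j + 1) * y ^ (m - j) := by
  rw [C11_Q, sum_range_succ', add_comm]
  congr 1
  · simp [ka]
  · refine sum_congr rfl fun j _ => ?_
    rw [show m + 1 - (j + 1) = m - j by omega]
    rfl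

theorem C11_Qrec (q : K) (x y : A) (l : ℕ) : C11_Q φ q x y (l + 2) = x * C11_Q φ q x y (l + 1) +
    φ (1 - q) * y ^ (l + 2) - φ (q * (1 - q)) * (x * y ^ (l + 1)) := by
  have h1 : ∑ j ∈ range (l + 1 + 1), φ ((1 - q) * ka q (l + 1 - j)) * x ^ (j + 1) *
      y ^ (l + 1 - j) = x * (∑ j ∈ range (l + 1), φ ((1 - q) * ka q (l - j)) *
        x ^ (j + 1) * y ^ (l - j)) + φ ((1 - q) * (1 - q)) * x * y ^ (l + 1) := by
    rw [sum_range_succ', mul_sum]
    congr 1
    · refine sum_congr rfl fun j _ => ?_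
      rw [show l + 1 - (j + 1) = l - j by omega]
      ring
    · rw [Nat.sub_zero, zero_add, pow_one]
      rfl
  rw [C11_Qs φ q x y (l + 1), h1, C11_Qs φ q x y l]
  simp only [map_mul, map_sub, map_one]
  ring

theorem C11_key0 (q : K) (x y : A) (P : ℕ → A) (h0 : P 0 = 1)
    (hrec : ∀ m, P (m + 1) = x * P m - φ (q - 1) * y ^ (m + 1)) (l : ℕ) :
    φ (1 - q) * (P (l + 1) + φ q * y ^ (l + 1)) = C11_Q φ q x y (l + 1) := by
  induction l with
  | zero =>
    rw [hrec 0, h0, C11_Q1]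
    simp only [map_sub, map_one]
    ring
  | succ l ih =>
    rw [C11_Qrec, ← ih, hrec (l + 1)]
    simp only [map_mul, map_sub, map_one]
    ring

variable [Algebra ℚ A]

/-- `ε_j[(q-1) t y] = ka_j t^j y^j` -/
theorem C11_B (q t : K) (v : A) (j : ℕ) :
    Hs (fun i => (φ t * v) ^ (i + 1) * φ (1 - q ^ (i + 1))) j =
      φ (ka q j * t ^ j) * v ^ j := by
  rw [Hs_scale]
  have h3 : Hs (fun k => φ (1 - q ^ (k + 1))) j = φ (ka q j) := by
    rw [← Hs_map φ (fun k => 1 - q ^ (k + 1)) j, Hs_one_sub_geom]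
    cases j with
    | zero => simp [ka]
    | succ j => simp [ka]
  rw [h3]
  simp only [map_mul, map_pow, mul_pow]
  ring

theorem C11_sum (q t : K) (x y : A) (e : ℕ → A) (n : ℕ) :
    Hs (((fun i => (φ t * x) ^ (i + 1) * φ (1 - q ^ (i + 1))) +
        (fun i => (φ t * y) ^ (i + 1) * φ (1 - q ^ (i + 1)))) + e) n =
    ∑ l ∈ range (n + 1), φ (t ^ l) * C11_Q φ q x y l * Hs e (n - l) := by
  rw [Hs_add']
  refine sum_congr rfl fun l _ => ?_
  rw [Hs_add', C11_Q, mul_sum]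
  congr 1
  refine sum_congr rfl fun j hj => ?_
  have hj' : j ≤ l := by simpa [Nat.lt_succ_iff] using hj
  rw [C11_B, C11_B]
  have h7 : t ^ l = t ^ j * t ^ (l - j) := by
    rw [← pow_add]; congr 1; omega
  rw [h7]
  simp only [map_mul]
  ring

/-- the final summation -/
theorem C11_fin (q t : K) (x y : A) (P : ℕ → A) (h0 : P 0 = 1)
    (hrec : ∀ m, P (m + 1) = x * P m - φ (q - 1) * y ^ (m + 1)) (E : ℕ → A) (n : ℕ) :
    φ q * E n + ∑ l ∈ range (n + 1), φ (t ^ l) * C11_Q φ q x y l * E (n - l) =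
      ∑ l ∈ range (n + 1), φ (ka q l * t ^ l) * E (n - l) * P l +
        φ q * ∑ l ∈ range (n + 1), φ (ka q l * t ^ l) * E (n - l) * y ^ l := by
  rw [mul_sum, ← sum_add_distrib, sum_range_succ', sum_range_succ' _ n]
  have h1 : ∀ l ∈ range n, φ (t ^ (l + 1)) * C11_Q φ q x y (l + 1) * E (n - (l + 1)) =
      φ (ka q (l + 1) * t ^ (l + 1)) * E (n - (l + 1)) * P (l + 1) +
        φ q * (φ (ka q (l + 1) * t ^ (l + 1)) * E (n - (l + 1)) * y ^ (l + 1)) := by
    intro l _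
    rw [← C11_key0 φ q x y P h0 hrec l]
    simp only [map_mul, ka]
    ring
  rw [sum_congr rfl h1, C11_Q0, h0]
  simp only [ka, pow_zero, map_one, mul_one, one_mul, Nat.sub_zero]
  ring

end generic

section spec

variable {K : Type} [Field K] [CharZero K]

/-- the embedding `K → Ry K` -/
noncomputable def c2 (K : Type) [Field K] : K →+* Ry K := (C : Lam K →+* Ry K).comp (C : K →+* Lam K)

theorem c2_apply (c : K) : c2 K c = C (C c) := rfl

theorem C11_sgsg (q t : K) (k n : ℕ) : sg q t (k + 1) (sg q t k (C (Ep K n))) =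
    ∑ l ∈ range (n + 1), c2 K (t ^ l) * C11_Q (c2 K) q (X k) (X (k + 1)) l * C (Ep K (n - l)) := by
  have g1 : ∀ m, (C (Ep K m) : Ry K) = Hs (fun i => C (-X i : Lam K)) m := fun m =>
    Hs_map (C : Lam K →+* Ry K) (fun i => (-X i : Lam K)) m
  have g2 : sg q t k (Hs (fun i => (C (-X i : Lam K) : Ry K)) n) =
      Hs (fun i => sg q t k (C (-X i : Lam K))) n :=
    Hs_map ((sg q t k : Ry K →ₐ[K] Ry K) : Ry K →+* Ry K) (fun i => (C (-X i : Lam K) : Ry K)) n
  have g3 : sg q t (k + 1) (Hs (fun i => sg q t k (C (-X i : Lam K))) n) =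
      Hs (fun i => sg q t (k + 1) (sg q t k (C (-X i : Lam K)))) n :=
    Hs_map ((sg q t (k + 1) : Ry K →ₐ[K] Ry K) : Ry K →+* Ry K)
      (fun i => sg q t k (C (-X i : Lam K))) n
  have h2 : (fun i => sg q t (k + 1) (sg q t k (C (-X i : Lam K)))) =
      ((fun i => (c2 K t * X k) ^ (i + 1) * c2 K (1 - q ^ (i + 1))) +
        (fun i => (c2 K t * X (k + 1)) ^ (i + 1) * c2 K (1 - q ^ (i + 1)))) +
        fun i => C (-X i : Lam K) := by
    funext i
    rw [Pi.add_apply, Pi.add_apply, C_neg', map_neg, map_neg, sg_p, map_add, map_mul, map_pow,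
      sg_CC, sg_X_lt q t (Nat.lt_succ_self k), sg_p, ← c2_apply]
    generalize (C (X i : Lam K) : Ry K) = a
    generalize (X k : Ry K) = x
    generalize (X (k + 1) : Ry K) = y
    simp only [map_sub, map_one, map_mul, map_pow, mul_pow]
    ring
  rw [g1 n, g2, g3, h2, C11_sum (c2 K) q t (X k) (X (k + 1))]
  refine sum_congr rfl fun l _ => ?_
  rw [← g1]

theorem C11_T (hC4 : StC4) (q : K) (k : ℕ) : Th q k (1 : Ry K) = 1 ∧
    (∀ m : ℕ, Th q k (X (k + 1) ^ (m + 1)) =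
      X k * Th q k (X (k + 1) ^ m) - c2 K (q - 1) * X (k + 1) ^ (m + 1)) ∧
    ∀ (c : Lam K) (H : Ry K), Th q k (C c * H) = C c * Th q k H := by
  refine ⟨(hC4 K q k 1).2.2.1 (map_one _), fun m => ?_, fun c H => ?_⟩
  · have h := (hC4 K q k (X (k + 1) ^ m)).2.2.2.2.2.2.1
    rw [smulK] at h
    rw [pow_succ', h]
    rfl
  · exact (hC4 K q k H).2.1 (C c) (by simp [sw])

theorem C11_one (hC4 : StC4) (q t : K) (k n : ℕ) :
    c2 K q * (C (Ep K n) : Ry K) + sg q t (k + 1) (sg q t k (C (Ep K n))) =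
      Th q k (sg q t (k + 1) (C (Ep K n))) + c2 K q * sg q t (k + 1) (C (Ep K n)) := by
  obtain ⟨hT1, hTr, hTC⟩ := C11_T hC4 q k
  have h := C11_fin (c2 K) q t (X k : Ry K) (X (k + 1)) (fun m => Th q k (X (k + 1) ^ m))
    (by show Th q k (X (k + 1) ^ 0) = 1; rw [pow_zero, hT1]) hTr (fun m => C (Ep K m)) n
  have h1 : sg q t (k + 1) (C (Ep K n)) = ∑ l ∈ range (n + 1),
      c2 K (ka q l * t ^ l) * C (Ep K (n - l)) * X (k + 1) ^ l := by
    rw [sg_Ep]
    refine sum_congr rfl fun l _ => ?_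
    rw [map_mul C, c2_apply]
  have h2 : Th q k (sg q t (k + 1) (C (Ep K n))) = ∑ l ∈ range (n + 1),
      c2 K (ka q l * t ^ l) * C (Ep K (n - l)) * Th q k (X (k + 1) ^ l) := by
    rw [h1, map_sum]
    refine sum_congr rfl fun l _ => ?_
    rw [mul_assoc, c2_apply, hTC, hTC, mul_assoc]
  rw [h2, h1, C11_sgsg]
  exact h

theorem C11_main (hC1 : StC1) (hC4 : StC4) (q t : K) (k : ℕ) (F : Ry K) :
    c2 K q * dmi q (sg q t (k + 2) (sg q t (k + 1) F)) + sg q t (k + 1) (sg q t k (dmi q F)) =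
      Th q k (sg q t (k + 1) (dmi q (sg q t (k + 1) F))) +
        c2 K q * sg q t (k + 1) (dmi q (sg q t (k + 1) F)) := by
  obtain ⟨-, -, -, hsi, -, -, -, hsym, -, hioX, hsX⟩ := hC1 K q t
  refine io_induction q (P := fun F => c2 K q * dmi q (sg q t (k + 2) (sg q t (k + 1) F)) +
    sg q t (k + 1) (sg q t k (dmi q F)) =
      Th q k (sg q t (k + 1) (dmi q (sg q t (k + 1) F))) +
        c2 K q * sg q t (k + 1) (dmi q (sg q t (k + 1) F))) ?_ ?_ ?_ F
  · simp only [map_zero, mul_zero, add_zero]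
  · intro F G hF hG
    simp only [map_add, mul_add]
    linear_combination hF + hG
  · intro G a
    have e1 : sg q t (k + 1) (io q G * X 0 ^ a) = io q (sg q t k G) * X 0 ^ a := by
      rw [map_mul, map_pow, hsi, hsX, if_pos (Nat.succ_pos k)]
    have e2 : sg q t (k + 2) (io q (sg q t k G) * X 0 ^ a) =
        io q (sg q t (k + 1) (sg q t k G)) * X 0 ^ a := by
      rw [map_mul, map_pow, hsi, hsX, if_pos (Nat.succ_pos _)]
    have hSs : sw K k (sg q t (k + 1) (sg q t k G)) = sg q t (k + 1) (sg q t k G) := hsym k G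
    have h0 := C11_one hC4 q t k (a + 1)
    rw [e1, e2, dmi_io_pow, dmi_io_pow, dmi_io_pow]
    rw [map_neg, map_mul, map_neg, map_neg, map_mul, map_mul, map_neg,
      (hC4 K q k _).2.1 _ hSs]
    generalize sg q t (k + 1) (sg q t k G) = S at *
    linear_combination (-S) * h0

theorem pC11 (hC1 : StC1) (hC4 : StC4) : StC11 := by
  intro K _ _ q t _ k F
  have h := C11_main hC1 hC4 q t k F
  rw [smulK, smulK]
  exact h

end spec

end Pool.VD.CM
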