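import Pool.Agent.VD.StCM

/-!
# Block CM: module C12
-/

set_option autoImplicit false
set_option linter.unusedSectionVars false

namespace Pool.VD.CM

open MvPolynomial Finset

theorem pC12 (hC1 : StC1) (hC2 : StC2) (hC6 : StC6) : StC12 := by
  intro K _ _ q t k F
  obtain ⟨-, -, -, hsi, -, -, -, -, -, hioX, hsX⟩ := hC1 K q t
  obtain ⟨hdm, -, hdX, hd1⟩ := hC2 K q
  refine ⟨?_, ?_, ?_⟩
  · show sg q t k (dmi q (io q F)) - dmi q (sg q t (k + 1) (io q F)) = _
    rw [hd1, hsi, hd1, map_mul, smulK]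
    have h1 : sg q t k (C (X 0)) = C (X 0) + C (C ((q - 1) * t)) * X k := by
      simp [sg]
    rw [h1]
    ring
  · show (TD q (k + 1)) (io q (sg q t k F)) = Th q k (sg q t (k + 1) (TD q k (io q F)))
    have h : ∀ (m : ℕ) (G : Ry K), m ≤ k → TD q m (sg q t (k + 1) G) = sg q t (k + 1) (TD q m G) := by
      intro m
      induction m with
      | zero => intro G _; rfl
      | succ m ih =>
        intro G hm
        show Th q m (TD q m (sg q t (k + 1) G)) = sg q t (k + 1) (Th q m (TD q m G))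
        rw [ih G (by omega), (hC6 K q t _).2.1 (k + 1) m (by omega)]
    show Th q k (TD q k (io q (sg q t k F))) = _
    rw [← hsi, h k _ le_rfl]
  · intro i hi
    obtain ⟨j, rfl⟩ : ∃ j, i = j + 1 := ⟨i - 1, by omega⟩
    have hze : ∀ G : Ry K, ze q t k G = sg q t k (dmi q G) - dmi q (sg q t (k + 1) G) := fun G => rfl
    rw [hze (X (j + 1) * F), hze F, hdX, map_mul, map_mul, hsX, hsX, if_neg (by omega), if_neg (by omega), hdX]
    ring

end Pool.VD.CM
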