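import Pool.Agent.VD.StCM

/-!
# MP_cf06d4_co, block CM, module C13: the starred module (helper94)
-/

set_option autoImplicit false

namespace Pool.VD.CM

open MvPolynomial Finset

namespace C13

variable {K : Type} [Field K]

theorem thi_apply (q : K) (j : ℕ) (F : Ry K) :
    Thi q j F = q⁻¹ • (Th q j F + (q - 1) • F) := rfl

end C13

theorem pC13 (hC4 : StC4) (hC5 : StC5) (hC6 : StC6) (hC7 : StC7) (hC10 : StC10) (hC11 : StC11) :
    StC13 := by
  intro K _ _ q t hq hq1
  have e : (q⁻¹ : K) * q = 1 := inv_mul_cancel₀ hq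
  have hquad : ∀ (j : ℕ) (F : Ry K), Th q j (Th q j F) = (1 - q) • Th q j F + q • F :=
    fun j F => (hC4 K q j F).2.2.2.2.1
  have hinv : ∀ (j : ℕ) (F : Ry K), Thi q j (Th q j F) = F ∧ Th q j (Thi q j F) = F :=
    fun j F => (hC4 K q j F).2.2.2.2.2.2.2.2.1 hq
  have hn : ∀ G : Ry K, q⁻¹ • (G + (q - 1) • G) = G := by
    intro G
    have : G + (q - 1) • G = q • G := by rw [sub_smul, one_smul]; abel
    rw [this, smul_smul, e, one_smul]
  have hm : ∀ G H : Ry K, G + (q - 1) • H + H = G + q • H := by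
    intro G H
    rw [sub_smul, one_smul]; abel
  refine { quad := ?_, braid := ?_, far := ?_, dmT := ?_, dpT := ?_, dm2 := ?_, dp2 := ?_,
           sa := ?_, sb := ?_ }
  · intro k j f _
    show Thi q j (Thi q j f) = (1 - q⁻¹) • Thi q j f + q⁻¹ • f
    have h : Thi q j (Thi q j f) = q⁻¹ • (f + (q - 1) • Thi q j f) := by
      rw [C13.thi_apply q j (Thi q j f), (hinv j f).2]
    rw [h, smul_add, smul_smul, mul_sub, e, mul_one]
    abel
  · intro k j f _
    show Thi q j (Thi q (j + 1) (Thi q j f)) = Thi q (j + 1) (Thi q j (Thi q (j + 1) f))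
    have h1 : Th q j (Th q (j + 1) (Th q j (Thi q j (Thi q (j + 1) (Thi q j f))))) = f := by
      rw [(hinv j _).2, (hinv (j + 1) _).2, (hinv j _).2]
    rw [(hC5 K q _).1 j] at h1
    generalize Thi q j (Thi q (j + 1) (Thi q j f)) = g at h1 ⊢
    rw [← h1, (hinv (j + 1) _).1, (hinv j _).1, (hinv (j + 1) _).1]
  · intro k i j f _ hij
    show Thi q i (Thi q j f) = Thi q j (Thi q i f)
    have h1 : Th q i (Th q j (Thi q i (Thi q j f))) = f := by
      rw [(hC5 K q _).2 i j hij, (hinv i _).2, (hinv j _).2]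
    have h2 : Th q j (Thi q i (Thi q j f)) = Thi q i f := by
      rw [← (hinv i (Th q j (Thi q i (Thi q j f)))).1, h1]
    rw [← (hinv j (Thi q i (Thi q j f))).1, h2]
  · intro k j f _
    show dmi q (Thi q (j + 1) f) = Thi q j (dmi q f)
    rw [C13.thi_apply, C13.thi_apply, map_smul, map_add, map_smul, (hC6 K q t f).2.2.2.2 j]
  · intro k j f hj
    show (sg q t k).toLinearMap (Thi q j f) = Thi q j ((sg q t k).toLinearMap f)
    rw [C13.thi_apply, C13.thi_apply, map_smul, map_add, map_smul, AlgHom.toLinearMap_apply,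
      AlgHom.toLinearMap_apply, (hC6 K q t f).2.1 k j hj]
  · intro k f
    show dmi q (dmi q (Thi q 0 f)) = dmi q (dmi q f)
    rw [C13.thi_apply]
    simp only [map_smul, map_add]
    rw [hC7 K q hq f, hn]
  · intro k f
    show Thi q k (sg q t (k + 1) (sg q t k f)) = sg q t (k + 1) (sg q t k f)
    rw [C13.thi_apply, (hC6 K q t f).2.2.1 k, hn]
  · intro k f
    show dmi q (dmi q (sg q t (k + 2) f)) + q⁻¹ • sg q t k (dmi q (dmi q f)) =
      dmi q (sg q t (k + 1) (dmi q (Thi q 0 f + q⁻¹ • f)))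
    rw [C13.thi_apply, ← smul_add, hm, map_smul, map_smul, map_smul, ← hC10 K q t hq hq1 k f,
      smul_add, smul_smul, e, one_smul]
  · intro k f
    show dmi q (sg q t (k + 2) (sg q t (k + 1) f)) + q⁻¹ • sg q t (k + 1) (sg q t k (dmi q f)) =
      Thi q k (sg q t (k + 1) (dmi q (sg q t (k + 1) f))) + q⁻¹ • sg q t (k + 1) (dmi q (sg q t (k + 1) f))
    rw [C13.thi_apply, ← smul_add, hm, ← hC11 K q t hq k f, smul_add, smul_smul, e, one_smul]

end Pool.VD.CM
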