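import Pool.Agent.VD.StCM2

/-!
# MP_cf06d4_co, block CM: the interface theorem
-/

set_option autoImplicit false

namespace Pool.VD.CM

open MvPolynomial Finset

theorem pCMN (hN0 : StN0) (hLemB : StLemB) (hNSup : StNSup) (hL : StL) (hNN : StNN) (hNabU : StNabU) (hOm : StOm)
    (hGqF : StGqF) : StCMN := by
  intro K _ _ q t hG
  obtain ⟨hq, ht, _, hqk, _, hMk, _, _, _⟩ := hGqF K q t hG
  have hq1 : q ≠ 1 := by have := hqk 0; simpa using this
  have hq2 : q + 1 ≠ 0 := by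
    intro h
    have h1 : q ^ (1 + 1) = 1 := by
      have : q = -1 := by linear_combination h
      rw [this]; norm_num
    exact hqk 1 h1
  obtain ⟨N, n1, n2, n3, n4, n5, n6⟩ := hN0 K q t hq hq1 hq2
  have hsgb := hLemB K q t hq ht hq1 hq2 N n1 n2 n3 n4 n5 n6
  have hsup := hNSup K q t hq hq1 hq2 N n1 n2 n3 n4 n5
  refine ⟨N, n1, n2, hsgb, n3, n4, n5, n6, hsup, ?_⟩
  obtain ⟨NL, l1, l2, l3, l4⟩ := hL K q t hq hq1 hq2 N n1 n2 n3 hsgb hsup
  intro nab hnab f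
  have h1 := hNabU K q t (hMk 0) _ nab (hNN K q t hG NL l2 l3 l4) hnab
  have h2 : nab (om K f) = NL (om K (om K f)) := by rw [← h1]; rfl
  rw [l1, h2, (hOm K q t 0 f).2.1]

end Pool.VD.CM
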