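import Pool.Agent.VD.StCM

/-!
# MP_cf06d4_co, block CM, module LemB: `N σ(1/q,1/t) = d_+ N` (helper7)
-/

set_option autoImplicit false

namespace Pool.VD.CM

open MvPolynomial Finset

namespace LemB

variable {K : Type} [Field K]

theorem thi_apply (q : K) (j : ℕ) (F : Ry K) :
    Thi q j F = q⁻¹ • (Th q j F + (q - 1) • F) := rfl

theorem TD_succ (q : K) (m : ℕ) (F : Ry K) : TD q (m + 1) F = Th q m (TD q m F) := rfl

theorem TU_succ (q : K) (m : ℕ) (F : Ry K) : TU q (m + 1) F = TU q m (Th q m F) := rfl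

variable [CharZero K]

theorem TD_far (hC5 : StC5) (q : K) : ∀ (m i : ℕ) (F : Ry K), m + 1 ≤ i →
    TD q m (Th q i F) = Th q i (TD q m F) := by
  intro m
  induction m with
  | zero => intro i F _; rfl
  | succ m ih =>
    intro i F hi
    rw [TD_succ, ih i F (by omega), (hC5 K q (TD q m F)).2 m i (by omega), TD_succ]

theorem TD_comm (hC5 : StC5) (q : K) : ∀ (k j : ℕ) (F : Ry K), j + 1 < k →
    TD q k (Th q (j + 1) F) = Th q j (TD q k F) := by
  intro k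
  induction k with
  | zero => intro j F hj; omega
  | succ k ih =>
    intro j F hj
    rcases Nat.lt_or_ge (j + 1) k with h | h
    · rw [TD_succ, ih j F h, ← (hC5 K q (TD q k F)).2 j k (by omega), TD_succ]
    · obtain rfl : k = j + 1 := by omega
      rw [TD_succ, TD_succ, TD_far hC5 q j (j + 1) F le_rfl, TD_succ, TD_succ,
        ← (hC5 K q (TD q j F)).1 j]

theorem dpl_comm (hC5 : StC5) (hC6 : StC6) (q : K) (k j : ℕ) (F : Ry K) (hj : j + 1 < k) :
    dpl q k (Th q j F) = Th q j (dpl q k F) := by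
  have h1 : dpl q k (Th q j F) = TD q k (io q (Th q j F)) := rfl
  have h2 : dpl q k F = TD q k (io q F) := rfl
  rw [h1, h2, ← (hC6 K q q F).1 j, TD_comm hC5 q k j _ hj]

/-- the subspaces on which the claim holds -/
noncomputable def W (q t : K) (N : ℕ → (Ry K →ₗ[K] Ry K)) (k : ℕ) : Submodule K (Ry K) where
  carrier := {F | N (k + 1) (sg q⁻¹ t⁻¹ k F) = dpl q k (N k F) ∧
    ∀ i, k = i + 1 → ∀ j ≤ i, N (i + 1) (zo q⁻¹ t⁻¹ i j F) = X j * N (i + 1) F}
  add_mem' := by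
    rintro a b ⟨ha, ha'⟩ ⟨hb, hb'⟩
    refine ⟨?_, fun i hi j hj => ?_⟩
    · rw [map_add, map_add, map_add, map_add, ha, hb]
    · rw [map_add, map_add, map_add, ha' i hi j hj, hb' i hi j hj, mul_add]
  zero_mem' := by
    refine ⟨?_, fun i hi j hj => ?_⟩
    · rw [map_zero, map_zero, map_zero, map_zero]
    · rw [map_zero, map_zero, mul_zero]
  smul_mem' := by
    rintro c a ⟨ha, ha'⟩
    refine ⟨?_, fun i hi j hj => ?_⟩
    · rw [map_smul, map_smul, map_smul, map_smul, ha]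
    · rw [map_smul, map_smul, map_smul, ha' i hi j hj, mul_smul_comm]

theorem mem_W (q t : K) (N : ℕ → (Ry K →ₗ[K] Ry K)) (k : ℕ) (F : Ry K) :
    F ∈ W q t N k ↔ (N (k + 1) (sg q⁻¹ t⁻¹ k F) = dpl q k (N k F) ∧
    ∀ i, k = i + 1 → ∀ j ≤ i, N (i + 1) (zo q⁻¹ t⁻¹ i j F) = X j * N (i + 1) F) := Iff.rfl

end LemB

open LemB in
theorem pLemB (hC1 : StC1) (hC2 : StC2) (hC4 : StC4) (hC5 : StC5) (hC6 : StC6) (hC9 : StC9)
    (hC12 : StC12) (hZ : StZ) (hGen : StGen) : StLemB := by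
  intro K _ _ q t hq ht hq1 hq2 N hN1 hNm hNp hNT hNX hNz
  have hi0 : (q⁻¹ : K) ≠ 0 := inv_ne_zero hq
  have hi1 : (q⁻¹ : K) ≠ 1 := fun h => hq1 (inv_eq_one.1 h)
  have hi2 : (q⁻¹ : K) + 1 ≠ 0 := by
    intro h
    apply hq2
    have h1 : q * (q⁻¹ + 1) = 0 := by rw [h, mul_zero]
    rw [mul_add, mul_inv_cancel₀ hq, mul_one] at h1
    rw [add_comm]
    exact h1
  -- `N` and the inverse operators
  have hNTi : ∀ k j (F : Ry K), j + 1 < k → N k (Thi q⁻¹ j F) = Th q j (N k F) := by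
    intro k j F hj
    rw [thi_apply, map_smul, map_add, map_smul, hNT k j F hj, thi_apply, inv_inv]
    have h1 : q * q⁻¹ = 1 := mul_inv_cancel₀ hq
    rw [smul_add, smul_smul, smul_smul, h1, one_smul, mul_sub, h1, mul_one, add_assoc, ← add_smul]
    rw [show q - 1 + (1 - q) = (0 : K) by ring, zero_smul, add_zero]
  have hsgX : ∀ k j, (sg q⁻¹ t⁻¹ k (X j : Ry K)) = if j < k then X j else X (j + 1) :=
    (hC1 K q⁻¹ t⁻¹).2.2.2.2.2.2.2.2.2.2
  have hsgX' : ∀ k j, (sg q t k (X j : Ry K)) = if j < k then X j else X (j + 1) :=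
    (hC1 K q t).2.2.2.2.2.2.2.2.2.2
  have hsgThi : ∀ k j (F : Ry K), j + 1 < k →
      sg q⁻¹ t⁻¹ k (Thi q⁻¹ j F) = Thi q⁻¹ j (sg q⁻¹ t⁻¹ k F) := by
    intro k j F hj
    rw [thi_apply, map_smul, map_add, map_smul, (hC6 K q⁻¹ t⁻¹ F).2.1 k j hj, thi_apply]
  -- closure under `T⁻¹`
  have g3 : ∀ k j (F : Ry K), j + 1 < k → F ∈ W q t N k → Thi q⁻¹ j F ∈ W q t N k := by
    intro k j F hj hF
    rw [mem_W] at hF ⊢
    obtain ⟨h1, h2⟩ := hF
    refine ⟨?_, ?_⟩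
    · rw [hsgThi k j F hj, hNTi (k + 1) j _ (by omega), h1, hNTi k j F hj,
        dpl_comm hC5 hC6 q k j _ hj]
    · intro i hi l hl
      subst hi
      have hji : j < i := by omega
      obtain ⟨z1, z2, z3, -⟩ := hZ K q⁻¹ t⁻¹ hi0 hi1 hi2 i F
      have z2 := z2 j hji
      have z3 := z3 j hji
      rw [inv_inv] at z2 z3
      have hc4 := hC4 K q j (N (i + 1) F)
      obtain ⟨-, -, -, -, -, c6, c7, c8, -⟩ := hc4
      rw [hNTi (i + 1) j F hj]
      by_cases e1 : l = j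
      · subst e1
        have h3 : zo q⁻¹ t⁻¹ i l (Thi q⁻¹ l F) =
            Thi q⁻¹ l (zo q⁻¹ t⁻¹ i (l + 1) F) + (q - 1) • zo q⁻¹ t⁻¹ i (l + 1) F := by
          rw [z3, sub_add_cancel]
        rw [h3, map_add, map_smul, hNTi (i + 1) l _ hj, h2 i rfl (l + 1) (by omega), c7,
          sub_add_cancel]
      · by_cases e2 : l = j + 1
        · subst e2
          have h3 : zo q⁻¹ t⁻¹ i (j + 1) (Thi q⁻¹ j F) =
              Thi q⁻¹ j (zo q⁻¹ t⁻¹ i j F) - (q - 1) • zo q⁻¹ t⁻¹ i (j + 1) F := by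
            rw [z2, map_add, map_smul, add_sub_cancel_right]
          rw [h3, map_sub, map_smul, hNTi (i + 1) j _ hj, h2 i rfl j (by omega),
            h2 i rfl (j + 1) (by omega), c6, mul_add, mul_smul_comm, add_sub_cancel_right]
        · rw [← z1 j l hji hl (Ne.symm e1) (fun h => e2 h.symm), hNTi (i + 1) j _ hj,
            h2 i rfl l hl, c8 l e1 e2]
  have g3' : ∀ k j (F : Ry K), j + 1 < k → F ∈ W q t N k → Th q⁻¹ j F ∈ W q t N k := by
    intro k j F hj hF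
    have h1 : Th q⁻¹ j F = q⁻¹ • Thi q⁻¹ j F - (q⁻¹ - 1) • F := by
      rw [thi_apply, inv_inv, smul_smul, inv_mul_cancel₀ hq, one_smul, add_sub_cancel_right]
    rw [h1]
    exact Submodule.sub_mem _ (Submodule.smul_mem _ _ (g3 k j F hj hF)) (Submodule.smul_mem _ _ hF)
  have gTD : ∀ k m (F : Ry K), m < k → F ∈ W q t N k → TD q⁻¹ m F ∈ W q t N k ∧
      TU q m (N k (TD q⁻¹ m F)) = N k F := by
    intro k m
    induction m with
    | zero => intro F _ hF; exact ⟨hF, rfl⟩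
    | succ m ih =>
      intro F hm hF
      obtain ⟨h1, h2⟩ := ih F (by omega) hF
      refine ⟨?_, ?_⟩
      · rw [TD_succ]
        exact g3' k m _ hm h1
      · rw [TD_succ, TU_succ, hNT k m _ hm, ((hC4 K q m (N k (TD q⁻¹ m F))).2.2.2.2.2.2.2.2.1 hq).2,
          h2]
  have key : ∀ k (F : Ry K), F ∈ W q t N k := by
    refine hGen K q⁻¹ hi0 hi1 (W q t N) ?_ ?_ ?_ (fun k j F hj hF => g3 k j F hj hF) ?_
    · -- `1 ∈ W 0`
      rw [mem_W]
      refine ⟨?_, fun i hi => by omega⟩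
      rw [map_one, hN1, hN1]
      show (1 : Ry K) = TD q 0 (io q 1)
      rw [map_one]
      rfl
    · -- `d_-`
      intro k F hF
      obtain ⟨hW1, hW2⟩ := (mem_W q t N (k + 1) F).1 hF
      rw [mem_W]
      refine ⟨?_, ?_⟩
      · obtain ⟨hT1, hT2⟩ := gTD (k + 1) k F (Nat.lt_succ_self k) hF
        have hze : ze q⁻¹ t⁻¹ k F = sg q⁻¹ t⁻¹ k (dmi q⁻¹ F) - dmi q⁻¹ (sg q⁻¹ t⁻¹ (k + 1) F) := rfl
        have het : et q k (N (k + 1) F) = dpl q k (dmi q (N (k + 1) F)) -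
            dmi q (dpl q (k + 1) (N (k + 1) F)) := rfl
        have h1 : N (k + 1) (ze q⁻¹ t⁻¹ k F) = et q k (N (k + 1) F) := by
          rw [(hZ K q⁻¹ t⁻¹ hi0 hi1 hi2 k F).2.2.2.2.2.2.2, map_smul,
            ((mem_W q t N (k + 1) _).1 hT1).2 k rfl k le_rfl, (hC9 K q hq k _).1, ← hT2,
            (hC9 K q hq k _).2, smul_smul, inv_inv, inv_pow, inv_inv]
        have h2 : sg q⁻¹ t⁻¹ k (dmi q⁻¹ F) =
            ze q⁻¹ t⁻¹ k F + dmi q⁻¹ (sg q⁻¹ t⁻¹ (k + 1) F) := by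
          rw [hze, sub_add_cancel]
        rw [h2, map_add, h1, hNm (k + 1), hW1, het, hNm, sub_add_cancel]
      · intro i hi j hj
        subst hi
        rw [← (hZ K q⁻¹ t⁻¹ hi0 hi1 hi2 i F).2.2.2.1 j hj, hNm, hW2 (i + 1) rfl (j + 1) (by omega),
          (hC2 K q).2.2.1, hNm]
    · -- `d_+`
      intro k F hF
      obtain ⟨hW1, hW2⟩ := (mem_W q t N k F).1 hF
      rw [mem_W]
      refine ⟨?_, ?_⟩
      · have h1 : sg q⁻¹ t⁻¹ (k + 1) (dpl q⁻¹ k F) =
            Thi q⁻¹ k (dpl q⁻¹ (k + 1) (sg q⁻¹ t⁻¹ k F)) := by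
          rw [(hC12 K q⁻¹ t⁻¹ k F).2.1]
          exact (((hC4 K q⁻¹ k _).2.2.2.2.2.2.2.2.1 hi0).1).symm
        rw [h1, hNTi (k + 1 + 1) k _ (Nat.lt_succ_self _), hNp (k + 1), hW1,
          ← (hC12 K q t k (N k F)).2.1, hNp]
      · intro i hi j hj
        obtain rfl : i = k := by omega
        rcases Nat.lt_or_ge j i with h | h
        · obtain ⟨m, rfl⟩ : ∃ m, i = m + 1 := ⟨i - 1, by omega⟩
          rw [← (hZ K q⁻¹ t⁻¹ hi0 hi1 hi2 m F).2.2.2.2.1 j (by omega), hNp,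
            hW2 m rfl j (by omega), map_mul, hsgX', if_pos h, hNp]
        · obtain rfl : j = i := by omega
          rw [(hZ K q⁻¹ t⁻¹ hi0 hi1 hi2 j F).2.2.2.2.2.1, map_smul, hNz j j _ (Nat.lt_succ_self j),
            hW1, (hZ K q t hq hq1 hq2 j (N j F)).2.2.2.2.2.1, smul_smul, hNp]
          have h3 : -(t⁻¹ * q⁻¹ ^ (j + 1)) * -(t * q ^ (j + 1)) = 1 := by
            rw [neg_mul_neg, inv_pow]
            field_simp
          rw [h3, one_smul]
    · -- spectators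
      intro k j F hj hF
      rw [mem_W]
      refine ⟨?_, ?_⟩
      · rw [map_mul, hsgX, if_neg (by omega), hNX (k + 1) (j + 1) _ (by omega), hNX k j F hj,
          map_zero]
      · intro i hi l hl
        subst hi
        rw [(hZ K q⁻¹ t⁻¹ hi0 hi1 hi2 i F).2.2.2.2.2.2.1 j l hl hj, hNX (i + 1) j _ hj,
          hNX (i + 1) j F hj, mul_zero]
  intro k F
  exact ((mem_W q t N k F).1 (key k F)).1

end Pool.VD.CM
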