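import Pool.Agent.VD.StCM

/-!
# MP_cf06d4_co, block CM, module N0: existence of the operator `N`
-/

set_option autoImplicit false

namespace Pool.VD.CM

open MvPolynomial Finset

namespace MN0

section
variable {K : Type} [Field K]

private theorem Th_one (q : K) (j : ℕ) : Th q j (1 : Ry K) = 1 := by
  have h : dd j (1 : Ry K) = 0 := dd_unique j 1 0 (by rw [map_one, sub_self, mul_zero])
  show sw K j 1 + C (C (q - 1)) * X (j + 1) * dd j 1 = 1
  rw [h, map_one, mul_zero, add_zero]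

private theorem TD_one (q : K) (k : ℕ) : TD q k (1 : Ry K) = 1 := by
  induction k with
  | zero => rfl
  | succ k ih =>
    show Th q k (TD q k 1) = 1
    rw [ih, Th_one]

private theorem dpl_one (q : K) (k : ℕ) : dpl q k (1 : Ry K) = 1 := by
  show TD q k (io q 1) = 1
  rw [map_one, TD_one]

private theorem Ti_eq (q : K) (hq : q ≠ 0) (n m : ℕ) :
    Ti (U := fun _ => Ry K) q⁻¹ (fun _ j => Thi q j) n m = Th q m := by
  show (q⁻¹)⁻¹ • (q⁻¹ • (Th q m + (q - 1) • (LinearMap.id : Ry K →ₗ[K] Ry K)) +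
    (q⁻¹ - 1) • (LinearMap.id : Ry K →ₗ[K] Ry K)) = Th q m
  rw [inv_inv, smul_add, smul_smul, mul_inv_cancel₀ hq, one_smul, smul_smul, mul_sub,
    mul_inv_cancel₀ hq, mul_one, add_assoc, ← add_smul]
  rw [show q - 1 + (1 - q) = 0 by ring, zero_smul, add_zero]

private theorem Qi_eq (q : K) (hq : q ≠ 0) (n m : ℕ) :
    Qi (U := fun _ => Ry K) q⁻¹ (fun _ j => Thi q j) n m = TU q m := by
  induction m with
  | zero => rfl
  | succ m ih =>
    show Qi (U := fun _ => Ry K) q⁻¹ (fun _ j => Thi q j) n m ∘ₗ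
      Ti (U := fun _ => Ry K) q⁻¹ (fun _ j => Thi q j) n m = TU q m ∘ₗ Th q m
    rw [ih, Ti_eq q hq]

private theorem Yo_eq [CharZero K] (q t : K) (hq : q ≠ 0) (k j : ℕ) :
    Yo (U := fun _ => Ry K) q⁻¹ (fun _ => dmi q) (fun k => (sg q t k).toLinearMap)
      (fun _ j => Thi q j) k j = zo q t k j := by
  induction j with
  | zero =>
    show (q⁻¹ - 1)⁻¹ • (Qi (U := fun _ => Ry K) q⁻¹ (fun _ j => Thi q j) (k + 1) k ∘ₗ
      ((sg q t k).toLinearMap ∘ₗ dmi q - dmi q ∘ₗ (sg q t (k + 1)).toLinearMap)) = _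
    rw [Qi_eq q hq]
    rfl
  | succ j ih =>
    show (q⁻¹)⁻¹ • (Thi q j ∘ₗ Yo (U := fun _ => Ry K) q⁻¹ (fun _ => dmi q)
      (fun k => (sg q t k).toLinearMap) (fun _ j => Thi q j) k j ∘ₗ Thi q j) = _
    rw [ih, inv_inv]
    rfl

end

end MN0

open MN0 in
theorem pN0 (hPhi : StPhi) (hC13 : StC13) : StN0 := by
  intro K _ _ q t hq hq1 hq2
  have hA := hC13 K q t hq hq2
  obtain ⟨Φ, h0, h1, h2, h3, h4, -, -⟩ := hPhi K q⁻¹ (inv_ne_zero hq)
    (fun h => hq1 (inv_eq_one.1 h)) (fun _ => Ry K) (fun _ => dmi q)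
    (fun k => (sg q t k).toLinearMap) (fun _ j => Thi q j) hA 1
  refine ⟨Φ, ?_, h1, h2, h3, ?_, ?_⟩
  · intro k
    induction k with
    | zero => exact h0
    | succ k ih =>
      have e := h2 k 1
      rw [dpl_one, ih] at e
      rw [e]
      exact map_one (sg q t k)
  · intro k j F hkj
    rw [h4 k j F]
    cases k with
    | zero => rfl
    | succ k =>
      show (if j < k + 1 then _ else (0 : Ry K →ₗ[K] Ry K)) _ = 0
      rw [if_neg (not_lt.2 hkj)]
      rfl
  · intro k j F hj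
    rw [h4 (k + 1) j F]
    show (if j < k + 1 then Yo (U := fun _ => Ry K) q⁻¹ (fun _ => dmi q)
      (fun k => (sg q t k).toLinearMap) (fun _ j => Thi q j) k j
      else (0 : Ry K →ₗ[K] Ry K)) _ = _
    rw [if_pos hj, Yo_eq q t hq]

end Pool.VD.CM
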