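import Pool.Agent.VD.StCM

/-!
# MP_cf06d4_co, block CM, module Z: relations of the operators `z_j`
-/

set_option autoImplicit false

namespace Pool.VD.CM

open MvPolynomial Finset

namespace CMZ

variable {K : Type} [Field K]

theorem thi_apply (q : K) (j : ℕ) (F : Ry K) : Thi q j F = q⁻¹ • (Th q j F + (q - 1) • F) := rfl

theorem ti_eq (q : K) (hq : q ≠ 0) (k j : ℕ) :
    Ti (U := fun _ => Ry K) q⁻¹ (fun _ j => Thi q j) k j = Th q j := by
  apply LinearMap.ext
  intro F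
  have h : Ti (U := fun _ => Ry K) q⁻¹ (fun _ j => Thi q j) k j F =
      (q⁻¹)⁻¹ • (q⁻¹ • (Th q j F + (q - 1) • F) + (q⁻¹ - 1) • F) := rfl
  rw [h, inv_inv, smul_add, smul_smul, mul_inv_cancel₀ hq, one_smul, smul_smul, add_assoc, ← add_smul]
  have h2 : q - 1 + q * (q⁻¹ - 1) = 0 := by
    field_simp
    ring
  rw [h2, zero_smul, add_zero]

theorem qi_eq (q : K) (hq : q ≠ 0) (k m : ℕ) :
    Qi (U := fun _ => Ry K) q⁻¹ (fun _ j => Thi q j) k m = TU q m := by
  induction m with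
  | zero => rfl
  | succ m ih =>
    have h : Qi (U := fun _ => Ry K) q⁻¹ (fun _ j => Thi q j) k (m + 1) =
        Qi (U := fun _ => Ry K) q⁻¹ (fun _ j => Thi q j) k m ∘ₗ
          Ti (U := fun _ => Ry K) q⁻¹ (fun _ j => Thi q j) k m := rfl
    rw [h, ih, ti_eq q hq]
    rfl

variable [CharZero K]

/-! ### inverses of `T_j` -/

theorem th_inj (hC4 : StC4) (q : K) (hq : q ≠ 0) (j : ℕ) {F G : Ry K} (h : Th q j F = Th q j G) : F = G := by
  have h1 := ((hC4 K q j F).2.2.2.2.2.2.2.2.1 hq).1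
  have h2 := ((hC4 K q j G).2.2.2.2.2.2.2.2.1 hq).1
  rw [← h1, ← h2, h]

theorem thi_th (hC4 : StC4) (q : K) (hq : q ≠ 0) (j : ℕ) (F : Ry K) : Thi q j (Th q j F) = F :=
  ((hC4 K q j F).2.2.2.2.2.2.2.2.1 hq).1

theorem th_thi (hC4 : StC4) (q : K) (hq : q ≠ 0) (j : ℕ) (F : Ry K) : Th q j (Thi q j F) = F :=
  ((hC4 K q j F).2.2.2.2.2.2.2.2.1 hq).2

theorem tu_inj (hC4 : StC4) (q : K) (hq : q ≠ 0) (m : ℕ) {F G : Ry K} (h : TU q m F = TU q m G) : F = G := by
  induction m generalizing F G with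
  | zero => exact h
  | succ m ih => exact th_inj hC4 q hq m (ih h)

/-! ### identification of the abstract operators -/

theorem yo_eq (q t : K) (hq : q ≠ 0) (k j : ℕ) :
    Yo (U := fun _ => Ry K) q⁻¹ (fun _ => dmi q) (fun k => (sg q t k).toLinearMap) (fun _ j => Thi q j) k j =
      zo q t k j := by
  induction j with
  | zero =>
    have h : Yo (U := fun _ => Ry K) q⁻¹ (fun _ => dmi q) (fun k => (sg q t k).toLinearMap)
        (fun _ j => Thi q j) k 0 = (q⁻¹ - 1)⁻¹ •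
          (Qi (U := fun _ => Ry K) q⁻¹ (fun _ j => Thi q j) (k + 1) k ∘ₗ ze q t k) := rfl
    rw [h, qi_eq q hq]
    rfl
  | succ j ih =>
    have h : Yo (U := fun _ => Ry K) q⁻¹ (fun _ => dmi q) (fun k => (sg q t k).toLinearMap)
        (fun _ j => Thi q j) k (j + 1) = (q⁻¹)⁻¹ • (Thi q j ∘ₗ
          Yo (U := fun _ => Ry K) q⁻¹ (fun _ => dmi q) (fun k => (sg q t k).toLinearMap)
            (fun _ j => Thi q j) k j ∘ₗ Thi q j) := rfl
    rw [h, ih, inv_inv]
    rfl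

/-! ### `TD` -/

theorem td_far (hC5 : StC5) (q : K) (m j : ℕ) (hj : m + 1 ≤ j) (F : Ry K) :
    TD q m (Th q j F) = Th q j (TD q m F) := by
  induction m with
  | zero => rfl
  | succ m ih =>
    have h : ∀ G : Ry K, TD q (m + 1) G = Th q m (TD q m G) := fun G => rfl
    rw [h, h, ih (by omega)]
    exact (hC5 K q (TD q m F)).2 m j (by omega)

theorem td_shift (hC5 : StC5) (q : K) (m j : ℕ) (hj : j + 1 < m) (F : Ry K) :
    TD q m (Th q (j + 1) F) = Th q j (TD q m F) := by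
  induction m with
  | zero => omega
  | succ m ih =>
    have h : ∀ (m : ℕ) (G : Ry K), TD q (m + 1) G = Th q m (TD q m G) := fun m G => rfl
    by_cases hm : j + 1 < m
    · rw [h, h, ih hm]
      exact ((hC5 K q (TD q m F)).2 j m (by omega)).symm
    · have hm2 : m = j + 1 := by omega
      subst hm2
      rw [h, h, h, h, td_far hC5 q j (j + 1) le_rfl]
      exact ((hC5 K q (TD q j F)).1 j).symm

theorem sg_td (hC6 : StC6) (q t : K) (k m : ℕ) (hm : m ≤ k) (F : Ry K) :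
    sg q t (k + 1) (TD q m F) = TD q m (sg q t (k + 1) F) := by
  induction m with
  | zero => rfl
  | succ m ih =>
    have h : ∀ G : Ry K, TD q (m + 1) G = Th q m (TD q m G) := fun G => rfl
    rw [h, h, ← ih (by omega)]
    exact (hC6 K q t (TD q m F)).2.1 (k + 1) m (by omega)

theorem dpl_th (hC5 : StC5) (hC6 : StC6) (q : K) (k j : ℕ) (hj : j + 1 < k) (F : Ry K) :
    dpl q k (Th q j F) = Th q j (dpl q k F) := by
  have h : ∀ G : Ry K, dpl q k G = TD q k (io q G) := fun G => rfl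
  rw [h, h, ← (hC6 K q q F).1 j, td_shift hC5 q k j hj]

theorem dpl_thi (hC5 : StC5) (hC6 : StC6) (q : K) (k j : ℕ) (hj : j + 1 < k) (F : Ry K) :
    dpl q k (Thi q j F) = Thi q j (dpl q k F) := by
  rw [thi_apply, thi_apply, map_smul, map_add, map_smul, dpl_th hC5 hC6 q k j hj]

theorem dpl_tu (hC5 : StC5) (hC6 : StC6) (q : K) (k m : ℕ) (hm : m < k) (F : Ry K) :
    dpl q k (TU q m F) = TU q m (dpl q k F) := by
  induction m generalizing F with
  | zero => rfl
  | succ m ih =>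
    have h : ∀ G : Ry K, TU q (m + 1) G = TU q m (Th q m G) := fun G => rfl
    rw [h, h, ih (by omega), dpl_th hC5 hC6 q k m (by omega)]

/-! ### `ζ` and `d_+` -/

theorem ze_apply (q t : K) (k : ℕ) (F : Ry K) :
    ze q t k F = sg q t k (dmi q F) - dmi q (sg q t (k + 1) F) := rfl

theorem et_apply (q : K) (k : ℕ) (F : Ry K) :
    et q k F = dpl q k (dmi q F) - dmi q (dpl q (k + 1) F) := rfl

theorem et_sg (hC1 : StC1) (hC6 : StC6) (hC9 : StC9) (q t : K) (hq : q ≠ 0) (k : ℕ) (F : Ry K) :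
    et q (k + 1) (sg q t (k + 1) F) = Th q k (sg q t (k + 1) (et q k F)) := by
  have hX : sg q t (k + 1) (X 0 : Ry K) = X 0 := by
    have := (hC1 K q t).2.2.2.2.2.2.2.2.2.2 (k + 1) 0
    rw [this, if_pos (Nat.succ_pos k)]
  have h : ∀ G : Ry K, TD q (k + 1) G = Th q k (TD q k G) := fun G => rfl
  have hs : ∀ (c : K) (G : Ry K), sg q t (k + 1) (c • G) = c • sg q t (k + 1) G := fun c G => map_smul _ _ _
  have hm : sg q t (k + 1) (X 0 * F) = X 0 * sg q t (k + 1) F := by rw [map_mul, hX]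
  rw [(hC9 K q hq (k + 1) (sg q t (k + 1) F)).1, (hC9 K q hq k F).1, hs, map_smul, h,
    sg_td hC6 q t k k le_rfl, hm]

theorem ze_dpl (hC1 : StC1) (hC6 : StC6) (hC9 : StC9) (hC12 : StC12) (q t : K) (hq : q ≠ 0) (k : ℕ) (F : Ry K) :
    Th q k (ze q t (k + 1) (dpl q (k + 1) F)) = dpl q (k + 1) (ze q t k F) := by
  have e1 : dpl q (k + 1) (sg q t k (dmi q F)) = Th q k (sg q t (k + 1) (dpl q k (dmi q F))) :=
    (hC12 K q t k (dmi q F)).2.1
  have e2 : dpl q (k + 2) (sg q t (k + 1) F) = Th q (k + 1) (sg q t (k + 2) (dpl q (k + 1) F)) :=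
    (hC12 K q t (k + 1) F).2.1
  have e3 : dmi q (Th q (k + 1) (sg q t (k + 2) (dpl q (k + 1) F))) =
      Th q k (dmi q (sg q t (k + 2) (dpl q (k + 1) F))) :=
    (hC6 K q t (sg q t (k + 2) (dpl q (k + 1) F))).2.2.2.2 k
  have e4 := et_sg hC1 hC6 hC9 q t hq k F
  have e5 := et_apply q k F
  have e6 := et_apply q (k + 1) (sg q t (k + 1) F)
  have e7 : dmi q (dpl q (k + 1) F) = dpl q k (dmi q F) - et q k F := by rw [e5]; abel
  have e8 : dpl q (k + 1) (dmi q (sg q t (k + 1) F)) = et q (k + 1) (sg q t (k + 1) F) +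
      Th q k (dmi q (sg q t (k + 2) (dpl q (k + 1) F))) := by
    rw [← e3, ← e2, e6]; abel
  have e9 : dpl q (k + 1) (ze q t k F) =
      dpl q (k + 1) (sg q t k (dmi q F)) - dpl q (k + 1) (dmi q (sg q t (k + 1) F)) := by
    rw [ze_apply, map_sub]
  have e10 : Th q k (ze q t (k + 1) (dpl q (k + 1) F)) =
      (Th q k (sg q t (k + 1) (dpl q k (dmi q F))) - Th q k (sg q t (k + 1) (et q k F))) -
        Th q k (dmi q (sg q t (k + 2) (dpl q (k + 1) F))) := by
    rw [ze_apply, e7, map_sub, map_sub, map_sub]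
  rw [e9, e10, e1, e8, e4]
  abel

/-! ### `z_j` and `d_+` -/

theorem zo_zero (q t : K) (k : ℕ) (F : Ry K) : zo q t k 0 F = (q⁻¹ - 1)⁻¹ • TU q k (ze q t k F) := rfl

theorem zo_succ (q t : K) (k j : ℕ) (F : Ry K) :
    zo q t k (j + 1) F = q • Thi q j (zo q t k j (Thi q j F)) := rfl

theorem zo_dpl (hC1 : StC1) (hC5 : StC5) (hC6 : StC6) (hC9 : StC9) (hC12 : StC12) (q t : K) (hq : q ≠ 0) (k j : ℕ)
    (hj : j ≤ k) (F : Ry K) :
    dpl q (k + 1) (zo q t k j F) = zo q t (k + 1) j (dpl q (k + 1) F) := by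
  induction j generalizing F with
  | zero =>
    have h : ∀ G : Ry K, TU q (k + 1) G = TU q k (Th q k G) := fun G => rfl
    rw [zo_zero, zo_zero, map_smul, dpl_tu hC5 hC6 q (k + 1) k (Nat.lt_succ_self k), h,
      ze_dpl hC1 hC6 hC9 hC12 q t hq]
  | succ j ih =>
    rw [zo_succ, zo_succ, map_smul, dpl_thi hC5 hC6 q (k + 1) j (by omega), ih (by omega),
      dpl_thi hC5 hC6 q (k + 1) j (by omega)]

/-! ### `z_k` and `ζ` -/

theorem tu_zo_td (hC4 : StC4) (q t : K) (hq : q ≠ 0) (k j : ℕ) (F : Ry K) :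
    TU q j (zo q t k j (TD q j F)) = q ^ j • zo q t k 0 F := by
  induction j with
  | zero =>
    rw [pow_zero, one_smul]
    rfl
  | succ j ih =>
    have h1 : ∀ G : Ry K, TU q (j + 1) G = TU q j (Th q j G) := fun G => rfl
    have h2 : ∀ G : Ry K, TD q (j + 1) G = Th q j (TD q j G) := fun G => rfl
    rw [zo_succ, h1, h2, thi_th hC4 q hq, map_smul, th_thi hC4 q hq, map_smul, ih, smul_smul, pow_succ,
      mul_comm]

theorem zo_td (hC4 : StC4) (q t : K) (hq : q ≠ 0) (k : ℕ) (F : Ry K) :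
    zo q t k k (TD q k F) = (q ^ k * (q⁻¹ - 1)⁻¹) • ze q t k F := by
  apply tu_inj hC4 q hq k
  rw [tu_zo_td hC4 q t hq, zo_zero, map_smul, smul_smul]

/-! ### spectators -/

theorem th_X (hC4 : StC4) (q : K) (i j : ℕ) (hij : j + 1 < i) (F : Ry K) :
    Th q j (X i * F) = X i * Th q j F :=
  (hC4 K q j F).2.2.2.2.2.2.2.1 i (by omega) (by omega)

theorem thi_X (hC4 : StC4) (q : K) (i j : ℕ) (hij : j + 1 < i) (F : Ry K) :
    Thi q j (X i * F) = X i * Thi q j F := by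
  rw [thi_apply, thi_apply, th_X hC4 q i j hij, mul_smul_comm, mul_add, mul_smul_comm]

theorem tu_X (hC4 : StC4) (q : K) (i m : ℕ) (him : m < i) (F : Ry K) :
    TU q m (X i * F) = X i * TU q m F := by
  induction m generalizing F with
  | zero => rfl
  | succ m ih =>
    have h : ∀ G : Ry K, TU q (m + 1) G = TU q m (Th q m G) := fun G => rfl
    rw [h, h, th_X hC4 q i m (by omega), ih (by omega)]

theorem zo_X (hC4 : StC4) (hC12 : StC12) (q t : K) (k i j : ℕ) (hj : j ≤ k) (hi : k + 1 ≤ i) (F : Ry K) :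
    zo q t k j (X i * F) = X i * zo q t k j F := by
  induction j generalizing F with
  | zero =>
    rw [zo_zero, zo_zero, (hC12 K q t k F).2.2 i hi, tu_X hC4 q i k (by omega), mul_smul_comm]
  | succ j ih =>
    rw [zo_succ, zo_succ, thi_X hC4 q i j (by omega), ih (by omega), thi_X hC4 q i j (by omega), mul_smul_comm]

end CMZ

open CMZ in
theorem pZ (hA4 : StA4) (hA6 : StA6) (hC1 : StC1) (hC4 : StC4) (hC5 : StC5) (hC6 : StC6) (hC9 : StC9)
    (hC12 : StC12) (hC13 : StC13) : StZ := by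
  intro K _ _ q t hq0 hq1 hq2 k F
  have hi0 : q⁻¹ ≠ 0 := inv_ne_zero hq0
  have hi1 : q⁻¹ ≠ 1 := fun h => hq1 (inv_eq_one.mp h)
  have M := hC13 K q t hq0 hq2
  have A4 := hA4 K q⁻¹ hi0 hi1 (fun _ => Ry K) (fun _ => dmi q) (fun k => (sg q t k).toLinearMap)
    (fun _ j => Thi q j) M
  have A6 := hA6 K q⁻¹ hi0 hi1 (fun _ => Ry K) (fun _ => dmi q) (fun k => (sg q t k).toLinearMap)
    (fun _ j => Thi q j) M
  have hd : q⁻¹ - 1 ≠ 0 := sub_ne_zero.mpr hi1
  refine ⟨?_, ?_, ?_, ?_, ?_, ?_, ?_, ?_⟩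
  · intro i j hik hjk hij hij2
    have h := A4.1 k i j F (by omega) (by omega) hij hij2
    rw [yo_eq q t hq0] at h
    exact h
  · intro j hj
    have h := A4.2.1 k j F (by omega)
    rw [yo_eq q t hq0, yo_eq q t hq0] at h
    exact h
  · intro j hj
    have h := A4.2.2 k j F (by omega)
    rw [yo_eq q t hq0, yo_eq q t hq0] at h
    exact h
  · intro j hj
    have h := A6.1 k j F (by omega)
    rw [yo_eq q t hq0, yo_eq q t hq0] at h
    exact h
  · intro j hj
    exact zo_dpl hC1 hC5 hC6 hC9 hC12 q t hq0 k j hj F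
  · have h : dpl q k F = TD q k (io q F) := rfl
    rw [h, zo_td hC4 q t hq0, (hC12 K q t k F).1, smul_smul]
    congr 1
    have h1 : q⁻¹ - 1 = -(q⁻¹ * (q - 1)) := by
      field_simp
      ring
    have h2 : q - 1 ≠ 0 := sub_ne_zero.mpr hq1
    rw [h1, inv_neg, mul_inv, inv_inv, pow_succ]
    field_simp
  · intro i j hj hi
    exact zo_X hC4 hC12 q t k i j hj hi F
  · rw [zo_td hC4 q t hq0, smul_smul]
    have h : (q⁻¹ - 1) * (q ^ k)⁻¹ * (q ^ k * (q⁻¹ - 1)⁻¹) = 1 := by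
      have hk : q ^ k ≠ 0 := pow_ne_zero k hq0
      rw [mul_assoc, ← mul_assoc (q ^ k)⁻¹, inv_mul_cancel₀ hk, one_mul, mul_inv_cancel₀ hd]
    rw [h, one_smul]

end Pool.VD.CM
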