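import Pool.Agent.VD.FinCM1
import Pool.Agent.VD.M_CMC11
import Pool.Agent.VD.M_CMC12
import Pool.Agent.VD.M_CMC13
import Pool.Agent.VD.M_CMN0
import Pool.Agent.VD.M_CMZ
import Pool.Agent.VD.M_CMLemB
import Pool.Agent.VD.M_CMCMN

/-!
# MP_cf06d4_co, block CM, assembly: `qCMN : StCMN`, without hypotheses
-/

set_option autoImplicit false

namespace Pool.VD.CM

theorem qC11 : StC11 := pC11 qC1 qC4
theorem qC12 : StC12 := pC12 qC1 qC2 qC6
theorem qC13 : StC13 := pC13 qC4 qC5 qC6 qC7 qC10 qC11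
theorem qN0 : StN0 := pN0 qPhi qC13
theorem qZ : StZ := pZ qA4 qA6 qC1 qC4 qC5 qC6 qC9 qC12 qC13
theorem qLemB : StLemB := pLemB qC1 qC2 qC4 qC5 qC6 qC9 qC12 qZ qGen
theorem qCMN : StCMN := pCMN qN0 qLemB qNSup qL qNN' qNabU' pOm pGqF

end Pool.VD.CM
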