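import Pool.Agent.VD.FinC0
import Pool.Agent.VD.FinCM

/-! # Block C, unconditional (helper17) -/

set_option autoImplicit false

namespace Pool.VD

theorem qC (K : Type) [Field K] [CharZero K] (q t : K) (hg : Gq q t) : StC K q t := qC0 CM.qCMN K q t hg

end Pool.VD

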