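import Pool.Agent.VD.Defs

/-!
# MP_cf06d4_co, block M (Macdonald side): statements

Every `StX : Prop` below is one module (file `Pool/Agent/VD/M_X.lean`, theorem `pX (dependencies) : StX`); the docstring
is a complete proof.  Mathematics: lead's note MP_cf06d4-lead-macdonald.md, helper19's MP_cf06d4-helper19-MAC.md.
-/

set_option autoImplicit false

namespace Pool.VD

open MvPolynomial Finset

variable {K : Type} [Field K] [CharZero K]

/-! ## A. the coefficients `Hs` of `Exp` -/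

/-- StHsR.  The defining recursion in sum-over-range form. -/
def StHsR : Prop := ∀ (R : Type) [CommRing R] [Algebra ℚ R] (a : ℕ → R),
  Hs a 0 = 1 ∧ ∀ n : ℕ, Hs a (n + 1) = ((n + 1 : ℚ)⁻¹) • ∑ i ∈ range (n + 1), a i * Hs a (n - i)

/-- StHsAdd.  `Exp[A+B] = Exp[A] Exp[B]`.  Strong induction on `n`: let `A n` be the right side.  `(n+1) A (n+1) =
∑_(i+j=n+1) (i + j) Hs a i * Hs b j`, and `i Hs a i = ∑_(k<i) a k Hs a (i-1-k)` (StHsR); reorder: `= ∑_(k≤n) (a k + b k) A (n-k)`. -/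
def StHsAdd : Prop := ∀ (R : Type) [CommRing R] [Algebra ℚ R] (a b : ℕ → R) (n : ℕ),
  Hs (fun i => a i + b i) n = ∑ p ∈ antidiagonal n, Hs a p.1 * Hs b p.2

/-- StHsMap.  Naturality.  Strong induction; `φ (r • x) = r • φ x` for rational `r` (`map_rat_smul` / `RingHom.toRatAlgHom`). -/
def StHsMap : Prop := ∀ (R S : Type) [CommRing R] [Algebra ℚ R] [CommRing S] [Algebra ℚ S] (φ : R →+* S)
  (a : ℕ → R) (n : ℕ), φ (Hs a n) = Hs (fun i => φ (a i)) n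

/-- StHsSc.  Scaling: strong induction. -/
def StHsSc : Prop := ∀ (R : Type) [CommRing R] [Algebra ℚ R] (c : R) (a : ℕ → R) (n : ℕ),
  Hs (fun i => c ^ (i + 1) * a i) n = c ^ n * Hs a n

/-- StHsGeo.  `Hs (fun i => c^(i+1)) n = c^n` (`Exp[cz] = 1/(1-cz)`, induction), `Hs (fun i => -c^(i+1))` is
`1, -c, 0, 0, ...` (from StHsAdd: the product with the first is `Hs 0 = 1, 0, 0, ...`; or direct induction), and
`Exp[(1-b)cz] = (1 - bcz)/(1-cz)`: value `(1-b) c^(n+1)` at `n+1` (StHsAdd with `c^(i+1)` and `-(bc)^(i+1)`). -/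
def StHsGeo : Prop := ∀ (R : Type) [CommRing R] [Algebra ℚ R] (b c : R) (n : ℕ),
  Hs (fun i => c ^ (i + 1)) n = c ^ n ∧
  Hs (fun i => -c ^ (i + 1)) n = (if n = 0 then 1 else if n = 1 then -c else 0) ∧
  Hs (fun i => (1 - b ^ (i + 1)) * c ^ (i + 1)) (n + 1) = (1 - b) * c ^ (n + 1) ∧
  Hs (fun _ => (0 : R)) (n + 1) = 0

/-- StHsHom.  If `a i` is homogeneous of degree `i+1` then `Hs a n` is homogeneous of degree `n` (strong induction);
in particular `Hn`, `Ep`, `En`, `Hst`, `Est`. -/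
def StHsHom : Prop := ∀ (K : Type) [Field K] [CharZero K] (a : ℕ → Lam K), (∀ i, IsH (i + 1) (a i)) →
  ∀ n, IsH n (Hs a n)

/-! ## B. the operators -/

/-- StTrHs.  `Hs a n [X + Aw]`, when `Tr m (a i) = a i + s i w^(i+1)` (`s i ∈ K`): StHsMap for `Tr m`, StHsAdd and StHsSc in
`Lam K[w]` (with `c = w`), StHsMap for `K → Lam K[w]`. -/
def StTrHs : Prop := ∀ (K : Type) [Field K] [CharZero K] (m s : ℕ → K) (a : ℕ → Lam K),
  (∀ i, Tr m (a i) = Polynomial.C (a i) +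
    Polynomial.C (C (s i) : Lam K) * (Polynomial.X : Polynomial (Lam K)) ^ (i + 1)) →
  ∀ n, Tr m (Hs a n) = ∑ p ∈ antidiagonal n,
    Polynomial.C (Hs a p.1 * C (Hs s p.2)) * (Polynomial.X : Polynomial (Lam K)) ^ p.2

/-- StVo1.  `Vo m a k 1 = Hs a k` (`Tr m 1 = 1`); and if `Tr m g = ∑_(j<N) C (g_j) w^j` then
`Vo m a k (g f) = ∑_(j<N) g_j Vo m a (k+j) f` (`Lf s (C c * w^j * P) = c * Lf (s (· + j)) P`). -/
def StVo1 : Prop := ∀ (K : Type) [Field K] [CharZero K] (m : ℕ → K) (a : ℕ → Lam K) (k : ℕ),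
  Vo m a k 1 = Hs a k ∧
  ∀ (N : ℕ) (c : ℕ → Lam K) (g f : Lam K),
    Tr m g = ∑ j ∈ range N, Polynomial.C (c j) * (Polynomial.X : Polynomial (Lam K)) ^ j →
    Vo m a k (g * f) = ∑ j ∈ range N, c j * Vo m a (k + j) f

/-- StDX.  `[D_k, p_(i+1)] = M_(i+1) D_(k+i+1)` and the analogous formula for every `Vo` (StVo1 with `g = X i`),
`D_k 1 = (-1)^k e_k`, `D*_0 1 = 1`. -/
def StDX : Prop := ∀ (K : Type) [Field K] [CharZero K] (m : ℕ → K) (a : ℕ → Lam K) (k i : ℕ) (f : Lam K) (q t : K),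
  Vo m a k (X i * f) = X i * Vo m a k f + m i • Vo m a (k + i + 1) f ∧
  Dk q t k (X i * f) = X i * Dk q t k f + Mk q t (i + 1) • Dk q t (k + i + 1) f ∧
  Dk q t k 1 = Ep K k ∧ Ds q t (1 : Lam K) = 1

/-- StVoHom.  `Dk` raises the degree by `k`, `Ds` keeps it: for monomials by induction with StDX, StHsHom. -/
def StVoHom : Prop := ∀ (K : Type) [Field K] [CharZero K] (q t : K) (k n : ℕ) (f : Lam K), IsH n f →
  IsH (n + k) (Dk q t k f) ∧ IsH n (Ds q t f)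

/-- StDD.  `[D_0, D*_0] = 0` and `[D*_0, D_1] = M~ e_1` (`e_1 = X 0`).  helper19's note (R2) / helper88's (C): let `F_ij` be the
coefficients of `f[X + M u - M~ v]`; `D*_0 D_a f = ∑_ij F_ij ∑_(n≥0) κ_n ε_(a+i-n) h_(j+n)`, `κ_n = h_n[M~]`,
`D_a D*_0 f = ∑_ij F_ij ∑_(n≥0) κ'_n ε_(a+i+n) h_(j-n)`, `κ'_n = h_n[M]`; for `n ≥ 1` (StHsGeo, partial fractions)
`κ_n = c ((qt)^(-n) - 1)`, `κ'_n = c (1 - (qt)^n)`, `c = M/(1-qt)`.  The difference is
`c ∑_ij F_ij ( (qt)^j h_N[(1/(qt) - 1) X] - δ_(N,0) )`, `N = a+i+j`, and `∑_(i+j=N') F_ij (qt)^j = δ_(N',0) f` because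
`M~_k (qt)^k = M_k`.  So it is `c (h_a[(1/(qt)-1)X] - δ_(a,0)) f`.  (Or: both sides satisfy the same commutator with `X i`.) -/
def StDD : Prop := ∀ (K : Type) [Field K] [CharZero K] (q t : K), q ≠ 0 → t ≠ 0 → q * t ≠ 1 →
  ∀ f : Lam K, Ds q t (Dk q t 0 f) = Dk q t 0 (Ds q t f) ∧
    Ds q t (Dk q t 1 f) = Dk q t 1 (Ds q t f) + Mk q⁻¹ t⁻¹ 1 • (X 0 * f)

/-- StDEst.  `D_a e*_(n+1) = e*_(n+1) D_a + e*_n D_(a+1)` (`M_k ≠ 0` for `k ≥ 1`).  `Tr (Est n) = Est n + Est (n-1) w`: StTrHs with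
`s i = -1`, and `Hs (fun _ => -1) = 1, -1, 0, ...` (StHsGeo, `c = 1`); then StVo1. -/
def StDEst : Prop := ∀ (K : Type) [Field K] [CharZero K] (q t : K), (∀ k, Mk q t (k + 1) ≠ 0) →
  ∀ (a n : ℕ) (f : Lam K), Dk q t a (Est q t (n + 1) * f) =
    Est q t (n + 1) * Dk q t a f + Est q t n * Dk q t (a + 1) f

/-- `G_u = Exp[-(1-u)X/M]` in degree `n`, i.e. `(-1)^n e_n[(1-u)X/M]` -/
noncomputable def Gu (q t u : K) (n : ℕ) : Lam K :=
  Hs (fun i => -(C ((1 - u ^ (i + 1)) * (Mk q t (i + 1))⁻¹) * X i : Lam K)) n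

/-- StGu.  `(D_0 - 1) G_u = (e_1 + u D_1) G_u`.  `Tr` of the alphabet: `s i = -(1 - u^(i+1))`, `κ_j := Hs s j` is
`1, (u-1), u(u-1), u^2(u-1), ...` (`(1-w)/(1-uw)`, StHsAdd + StHsGeo).  StTrHs, StVo1 (on 1): `D_a G_n = ∑_(i+j=n) G_i κ_j ε_(j+a)`,
`ε = Ep`.  In degree `n+1`: left side `∑_(i+j=n+1, j≥1) G_i κ_j ε_j`; right side `-ε_1 G_n + u ∑_(i+j=n) G_i κ_j ε_(j+1)`; use
`u κ_j = κ_(j+1)` for `j ≥ 1`, `κ_1 = u - 1`, `ε_1 = -X 0`.  Also: `G_u 0 = 1`; `Gu 0 n = (-1)^n Est n`;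
`(-1)^n Gu u n = ∑_(i+j=n) (-u)^i Hst i * Est j` (StHsAdd, StHsSc). -/
def StGu : Prop := ∀ (K : Type) [Field K] [CharZero K] (q t u : K), (∀ k, Mk q t (k + 1) ≠ 0) → ∀ n : ℕ,
  Dk q t 0 (Gu q t u (n + 1)) - Gu q t u (n + 1) = X 0 * Gu q t u n + u • Dk q t 1 (Gu q t u n) ∧
  Gu q t u 0 = 1 ∧ Gu q t 0 n = (-1) ^ n * Est q t n ∧
  (-1) ^ n * Gu q t u n = ∑ p ∈ antidiagonal n, (-u) ^ p.1 • (Hst q t p.1 * Est q t p.2)

/-! ## C. parameters and partitions -/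

/-- generic parameters -/
def Gq (q t : K) : Prop := AlgebraicIndependent ℚ ![q, t]

/-- StGqF.  Elementary consequences of algebraic independence; the last two: `aeval ![q,t]` is injective on
`MvPolynomial (Fin 2) ℚ` (multiply by powers of `q`, `t` if needed). -/
def StGqF : Prop := ∀ (K : Type) [Field K] [CharZero K] (q t : K), Gq q t →
  q ≠ 0 ∧ t ≠ 0 ∧ q * t ≠ 1 ∧ (∀ k, q ^ (k + 1) ≠ 1) ∧ (∀ k, t ^ (k + 1) ≠ 1) ∧ (∀ k, Mk q t (k + 1) ≠ 0) ∧
  Mk q⁻¹ t⁻¹ 1 ≠ 0 ∧ Gq t q ∧ ∀ c : ℕ × ℕ, c ≠ (0, 0) → xc q t c ≠ 1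

/-- a measure for dominance -/
def dm (lam : YoungDiagram) : ℕ :=
  ∑ k ∈ range (lam.card + 1), (lam.card - ∑ i ∈ range k, lam.rowLen i)

/-- StDom.  Order facts.  `Dom` is reflexive, transitive; `Dom lam ν`, `ν ≠ lam` give `dm ν < dm lam` (all prefix sums up to
`k = card` determine the diagram: rows with index `≥ card` are empty).  -/
def StDom : Prop := (∀ lam, Dom lam lam) ∧ (∀ a b c, Dom a b → Dom b c → Dom a c) ∧
  (∀ lam ν, Dom lam ν → ν ≠ lam → dm ν < dm lam)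

/-- StDomT.  `Dom μ ν` and `Dom μ' ν'` (transposes) give `ν = μ`.  Otherwise let `i` be the first row with `ν_i ≠ μ_i`; by `Dom`,
`ν_i > μ_i =: c`.  Cells in columns `≥ c`: `∑_(j<c) μ'_j ≤ ∑_(j<c) ν'_j` (`Dom μ' ν'` at `k = c`) and equal cards give: `ν` has at most
as many cells in columns `≥ c` as `μ`; but `μ` has `∑_(r<i) (μ_r - c)` of them (rows `r ≥ i` have `μ_r ≤ c`), and `ν` has at least
`∑_(r<i) (ν_r - c) + (ν_i - c)`, which is bigger. -/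
def StDomT : Prop := ∀ μ ν : YoungDiagram, Dom μ ν → Dom μ.transpose ν.transpose → ν = μ

/-- StB.  (1) `B_μ` determines `μ` (algebraic independence: it is the sum of the distinct monomials `q^j t^i`).
(2) transposition.  (3) `cm` by rows: `(1-q) ∑_(j<r) q^j = 1 - q^r`. -/
def StB : Prop := ∀ (K : Type) [Field K] [CharZero K] (q t : K),
  (Gq q t → ∀ μ ν, Bm q t μ = Bm q t ν → μ = ν) ∧ (∀ μ, Bm t q μ.transpose = Bm q t μ) ∧
  (∀ μ, cm t q μ.transpose = cm q t μ) ∧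
  ∀ μ : YoungDiagram, cm q t μ = 1 + ∑ i ∈ range (μ.colLen 0), (1 - t) * t ^ i * (q ^ μ.rowLen i - 1)

/-- StPB.  If `f f~ = 1` for `f = B_μ - B_ν`, `f~ = f(1/q,1/t)`, and `|μ| = |ν| + 1` then `μ = ν + one cell`.  `f = ∑_c φ(c) x_c`,
`φ = 1_μ - 1_ν`; multiply `f f~ = 1` by `(qt)^N`, `N` large: `∑_(c,c') φ(c) φ(c') q^(N+c.2-c'.2) t^(N+c.1-c'.1) = (qt)^N`; by
algebraic independence compare the coefficient of `(qt)^N`: `∑_c φ(c)^2 = 1`, i.e. the symmetric difference of `μ` and `ν`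
has one element; by `|μ| = |ν| + 1` it is in `μ`. -/
def StPB : Prop := ∀ (K : Type) [Field K] [CharZero K] (q t : K), Gq q t → ∀ μ ν : YoungDiagram,
  (Bm q t μ - Bm q t ν) * (Bm q⁻¹ t⁻¹ μ - Bm q⁻¹ t⁻¹ ν) = 1 → μ.card = ν.card + 1 →
  ∃ c ∉ ν.cells, μ.cells = insert c ν.cells

/-! ## D. triangularity of `D_0` and `D*_0` -/

/-- `p_(i+1)[X/(1-q)]` -/
noncomputable def gq (q : K) : ℕ → Lam K := fun i => C ((1 - q ^ (i + 1))⁻¹) * X i

/-- the pairs `a < b` -/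
def prs (l : ℕ) : Finset (Fin l × Fin l) := univ.filter (fun p => p.1 < p.2)

/-- Vandermonde `∏_(a<b) (u_a - u_b)` -/
noncomputable def Vd (K : Type) [Field K] (l : ℕ) : MvPolynomial (Fin l) K := ∏ p ∈ prs l, (X p.1 - X p.2)

/-- `V ∏_(k≠i) (u_i - b u_k)/(u_i - u_k)` -/
noncomputable def Nd (l : ℕ) (b : K) (i : Fin l) : MvPolynomial (Fin l) K :=
  ∏ p ∈ prs l, (if p.2 = i then C b * X p.1 - X p.2 else if p.1 = i then X p.1 - C b * X p.2
    else X p.1 - X p.2)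

/-- the coefficient of `w^J` in `∏_i (1 - b u_i w)/(1 - u_i w)` -/
noncomputable def QJ (l : ℕ) (b : K) (J : ℕ) : MvPolynomial (Fin l) K :=
  PowerSeries.coeff J (∏ i : Fin l, PowerSeries.mk (fun n => C (if n = 0 then (1 : K) else 1 - b) * X i ^ n))

/-- the staircase `(l-1, ..., 1, 0)` -/
noncomputable def dl (l : ℕ) : Fin l →₀ ℕ := Finsupp.equivFunOnFinite.symm (fun i => l - 1 - (i : ℕ))

/-- the `Lam K`-linear functional `u^β ↦ ∏_i h_(γ_i - β_i)[A]` (coefficient of `u^γ` in `P(u) ∏_i Exp[u_i A]`) -/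
noncomputable def Gam (a : ℕ → Lam K) {l : ℕ} (γ : Fin l → ℕ) : MvPolynomial (Fin l) (Lam K) →ₗ[Lam K] Lam K :=
  (MvPolynomial.basisMonomials (Fin l) (Lam K)).constr (Lam K)
    (fun β => ∏ i, HZ a ((γ i : ℤ) - (β i : ℤ)))

/-- StLag.  `V Q_J = (1-b) ∑_i N_i u_i^J` for `J ≥ 1` (partial fractions).  In the fraction field `F` of `K[u]` let
`A_i = ∏_(k≠i) (u_i - b u_k)/(u_i - u_k)`, so `N_i = V A_i` (count signs: pairs `p.2 = i` contribute `-(u_i - b u_k)`, and the same pairs of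
`V` contribute `-(u_i - u_k)`).  Polynomial identity in `w` over `F`:
`∏_i (1 - b u_i w) = ∏_i (1 - u_i w) + (1-b) ∑_i A_i u_i w ∏_(k≠i) (1 - u_k w)`: degree `≤ l`, and equality at the `l+1` points `0`,
`1/u_i`.  As power series multiply by `∏ (1 - u_i w)^(-1)`: `∑_J Q_J w^J = 1 + (1-b) ∑_i A_i ∑_(J≥1) u_i^J w^J`
(`(1 - u w) * PowerSeries.mk (..) = 1 - b u w`). -/
def StLag : Prop := ∀ (K : Type) [Field K] [CharZero K] (l : ℕ) (b : K) (J : ℕ), 1 ≤ J →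
  Vd K l * QJ l b J = C (1 - b) * ∑ i : Fin l, Nd l b i * X i ^ J

/-- StTour.  The exponents of a product over all pairs `a < b` of `x u_a - y u_b` are majorised by the staircase, which
occurs with coefficient `∏ x`.  Induction over the finset of pairs: for a set `s` of pairs let `δ_s = ∑_(p∈s) e_(p.1)`.  Claim: every
exponent `β` of `∏_(p∈s)` has prefix sums `≤` those of `δ_s` and the same total, and the coefficient at `δ_s` is `∏_(p∈s) x p`.
Multiply by `x u_a - y u_b`, `a < b`: `β + e_a`, `β + e_b` are majorised by `δ_s + e_a`; and `β + e_b = δ_s + e_a` is impossible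
(the prefix sum of `β` just after `a` would be too big).  Finally `δ_(prs l) = dl l`. -/
def StTour : Prop := ∀ (K : Type) [Field K] [CharZero K] (l : ℕ) (x y : Fin l × Fin l → K),
  coeff (dl l) (∏ p ∈ prs l, (C (x p) * X p.1 - C (y p) * X p.2 : MvPolynomial (Fin l) K)) = ∏ p ∈ prs l, x p ∧
  ∀ β : Fin l →₀ ℕ,
    coeff β (∏ p ∈ prs l, (C (x p) * X p.1 - C (y p) * X p.2 : MvPolynomial (Fin l) K)) ≠ 0 →
    (∀ k : ℕ, ∑ i ∈ univ.filter (fun i : Fin l => (i : ℕ) < k), β i ≤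
      ∑ i ∈ univ.filter (fun i : Fin l => (i : ℕ) < k), (l - 1 - (i : ℕ))) ∧
    ∑ i, β i = ∑ i : Fin l, (l - 1 - (i : ℕ))

/-- StJT.  Jacobi - Trudi as a coefficient of the Vandermonde product: `Vd = ∑_σ sgn σ ∏_i u_i^(l-1-σ i)`
(`Matrix.det_vandermonde` with the columns reversed, or induction), and the determinant is
`∑_σ sgn σ ∏_i h_(lam_i - i + σ i)`, `lam_i - i + σ i = (lam_i + (l-1-i)) - (l-1-σ i)`. -/
def StJT : Prop := ∀ (K : Type) [Field K] [CharZero K] (a : ℕ → Lam K) (lam : YoungDiagram),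
  JT a lam = Gam a (fun i : Fin (lam.colLen 0) => lam.rowLen (i : ℕ) + (lam.colLen 0 - 1 - (i : ℕ)))
    (MvPolynomial.map C (Vd K (lam.colLen 0)))

/-- StVoG.  Action of a vertex operator on a product of `h`'s.  StTrHs and StHsGeo: `Tr m (Hs a n) = ∑_(i+j=n) C (Hs a i * C (τ_j c^j)) w^j`
with `τ_0 = 1`, `τ_j = 1 - b`.  The coefficient of `w^J` in `Tr m (∏_i Hs a (γ i))` is `∑_(β : |β| = J) ∏_i τ_(β_i) c^J Hs a (γ_i - β_i)`
(`β_i ≤ γ_i`), i.e. `Gam a γ` of `c^J Q_J` (`PowerSeries.coeff_prod`: `Q_J = ∑_(|β|=J) ∏ τ_(β_i) u_i^(β_i)`); apply `Lf`. -/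
def StVoG : Prop := ∀ (K : Type) [Field K] [CharZero K] (m : ℕ → K) (s a : ℕ → Lam K) (b c : K),
  (∀ i, Tr m (a i) = Polynomial.C (a i) +
    Polynomial.C (C ((1 - b ^ (i + 1)) * c ^ (i + 1)) : Lam K) * (Polynomial.X : Polynomial (Lam K)) ^ (i + 1)) →
  ∀ (l : ℕ) (γ : Fin l → ℕ) (N : ℕ), ∑ i, γ i < N →
    Vo m s 0 (∏ i, Hs a (γ i)) =
      Gam a γ (∑ J ∈ range N, MvPolynomial.map C (QJ l b J) * C (C (c ^ J) * Hs s J))

/-- StComp.  A composition which dominates `lam` is `lam` or gives a bigger diagram: sort it (decreasing) to `ν`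
(`YoungDiagram.ofRowLens`, drop zeros; `Hs a 0 = 1`); prefix sums of the sorted sequence are `≥` those of `α`; if `ν = lam` then all
prefix sums of `α` are equal to those of `lam`. -/
def StComp : Prop := ∀ (K : Type) [Field K] [CharZero K] (a : ℕ → Lam K) (lam : YoungDiagram)
  (α : Fin (lam.colLen 0) → ℕ),
  (∀ k ≤ lam.colLen 0, ∑ i ∈ range k, lam.rowLen i ≤
    ∑ i ∈ univ.filter (fun i : Fin (lam.colLen 0) => (i : ℕ) < k), α i) →
  ∑ i, α i = lam.card →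
  (∀ i, α i = lam.rowLen (i : ℕ)) ∨ ∃ ν, Dom lam ν ∧ ν ≠ lam ∧ ∏ i, Hs a (α i) = hP a ν

/-- the span of the `h_ν[A]`, `ν ≥ lam`, resp. `ν > lam` -/
noncomputable def Uge (a : ℕ → Lam K) (lam : YoungDiagram) : Submodule K (Lam K) :=
  Submodule.span K {f : Lam K | ∃ ν, Dom lam ν ∧ f = hP a ν}
noncomputable def Ugt (a : ℕ → Lam K) (lam : YoungDiagram) : Submodule K (Lam K) :=
  Submodule.span K {f : Lam K | ∃ ν, Dom lam ν ∧ ν ≠ lam ∧ f = hP a ν}

/-- StJTm.  `s_lam[A] = h_lam[A] + (higher)`.  StJT, StTour (`x = y = 1`), StComp for `α = γ - β`,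
`γ_i = lam_i + l-1-i` (terms with some `γ_i < β_i` vanish; prefix sums of `γ - β` are `≥` those of `lam`; `∑ lam_i = card`);
`α = lam` iff `β = dl l`. -/
def StJTm : Prop := ∀ (K : Type) [Field K] [CharZero K] (a : ℕ → Lam K) (lam : YoungDiagram),
  JT a lam - hP a lam ∈ Ugt a lam

/-- StTriG.  Triangularity of a vertex operator.  `γ_i = lam_i + l-1-i`, `P_N := ∑_(J<N) map C (Q_J) * C (c^J Hs s J)`, `N` large.
(1) For every polynomial `P` over `K`: `Vo (Gam a γ (map C P)) = Gam a γ (map C P * P_N)`: for `P = u^β`, `β ≤ γ`, use StVoG at `γ - β`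
and `Gam a (γ-β) Q = Gam a γ (u^β Q)`; if not `β ≤ γ` both sides are 0.  (2) `V P_N = V + ∑_(1≤J<N) (1-b) ∑_i N_i u_i^J c^J Hs s J`
(StLag, `Q_0 = 1`).  (3) `Gam a γ (u^β ∑_(1≤J<N) u_i^J c^J Hs s J) = (d^(γ_i-β_i) - 1) ∏_k HZ a (γ_k - β_k)` by the second hypothesis
(`γ_i < β_i`: both sides 0).  (4) So `Vo (JT a lam) = JT a lam + (1-b) ∑_i ∑_β coeff_β(N_i) (d^(γ_i-β_i) - 1) ∏_k HZ a (γ_k-β_k)` (StJT); by
StTour for `N_i` (coefficient `b^i` at `dl l`) and StComp the term `β = dl l` gives `h_lam`, all others are in `Ugt`; StJTm. -/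
def StTriG : Prop := ∀ (K : Type) [Field K] [CharZero K] (m : ℕ → K) (s a : ℕ → Lam K) (b c d : K),
  (∀ i, Tr m (a i) = Polynomial.C (a i) +
    Polynomial.C (C ((1 - b ^ (i + 1)) * c ^ (i + 1)) : Lam K) * (Polynomial.X : Polynomial (Lam K)) ^ (i + 1)) →
  (∀ n, ∑ p ∈ antidiagonal n, C (c ^ p.1) * Hs s p.1 * Hs a p.2 = C (d ^ n) * Hs a n) →
  ∀ lam : YoungDiagram, Vo m s 0 (JT a lam) -
    (1 + ∑ i ∈ range (lam.colLen 0), (1 - b) * b ^ i * (d ^ lam.rowLen i - 1)) • hP a lam ∈ Ugt a lam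

/-- StSpan.  `span {JT a ν : ν ≥ lam} = span {h_ν : ν ≥ lam}` (StJTm, induction on `dm`, StDom). -/
def StSpan : Prop := ∀ (K : Type) [Field K] [CharZero K] (a : ℕ → Lam K) (lam : YoungDiagram),
  Submodule.span K {f : Lam K | ∃ ν, Dom lam ν ∧ f = JT a ν} = Uge a lam

/-- StTriD.  `D_0 h_lam[X/(1-q)] = cm q t lam h_lam + (higher)`, `D*_0 h_lam[X/(1-q)] = cm q⁻¹ t⁻¹ lam h_lam + (higher)`.
StTriG with `a = gq q` and (`m`, `s`, `b`, `c`, `d`) `= (Mk q t, -X, t, 1, q)` resp. `(-Mk q⁻¹ t⁻¹, X, t⁻¹, q⁻¹, q⁻¹)` [second hypothesis: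
StHsAdd, StHsSc: `-p_k + p_k/(1-q^k) = q^k p_k/(1-q^k)`, `q^(-k) p_k + p_k/(1-q^k) = q^(-k) p_k/(1-q^k)`], StB (3).  Then replace `JT` by `h`:
induction on `dm`: the operator maps `Ugt` to itself (StSpan / StJTm). -/
def StTriD : Prop := ∀ (K : Type) [Field K] [CharZero K] (q t : K), Gq q t → ∀ lam : YoungDiagram,
  Dk q t 0 (hP (gq q) lam) - cm q t lam • hP (gq q) lam ∈ Ugt (gq q) lam ∧
  Ds q t (hP (gq q) lam) - cm q⁻¹ t⁻¹ lam • hP (gq q) lam ∈ Ugt (gq q) lam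

/-- StHPB.  The `h_lam[X/(1-q)]` are a basis.  (1) the algebra map `G : X n ↦ Hs (gq q) (n+1)` is bijective: inverse
`F : X n ↦ (1-q^(n+1)) P_n`, `P_n := (n+1) X n - ∑_(i<n) P_i X (n-1-i)` (Newton); `G P_n = gq q n`, and
`F (Hs (gq q) (n+1)) = Hs P (n+1) = X n` (StHsMap, Newton, induction).  (2) `lam ↦ (n ↦ number of rows of length n+1)` is a bijection
`YoungDiagram ≃ (ℕ →₀ ℕ)` (`YoungDiagram.equivListRowLens` or directly), and `G` maps the monomial to `hP (gq q) lam`. -/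
def StHPB : Prop := ∀ (K : Type) [Field K] [CharZero K] (q : K), (∀ k, q ^ (k + 1) ≠ 1) →
  ∃ B : Module.Basis YoungDiagram K (Lam K), ∀ lam, B lam = hP (gq q) lam

/-- StEigA.  Abstract linear algebra: commuting triangular operators, the first with distinct diagonal entries.
Strong induction on `dm lam` (StDom): there is `v lam` with `v lam - h lam ∈ span {h ν : ν > lam} = span {v ν : ν > lam}` and
`D (v lam) = c lam • v lam`: write `D (h lam) - c lam • h lam = ∑ a_ν v_ν` and put `v lam = h lam - ∑ a_ν/(c_ν - c_lam) v_ν`.  `D' (v lam)` is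
in `c' lam • v lam + span {v ν : ν > lam}` and an eigenvector of `D` for `c lam`, so the extra terms vanish.  `v` is a basis:
unitriangular. -/
def StEigA : Prop := ∀ (K : Type) [Field K] (V : Type) [AddCommGroup V] [Module K V]
  (h : Module.Basis YoungDiagram K V) (D D' : V →ₗ[K] V) (c c' : YoungDiagram → K), Function.Injective c →
  (∀ v, D (D' v) = D' (D v)) →
  (∀ lam, D (h lam) - c lam • h lam ∈ Submodule.span K {f : V | ∃ ν, Dom lam ν ∧ ν ≠ lam ∧ f = h ν}) →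
  (∀ lam, D' (h lam) - c' lam • h lam ∈ Submodule.span K {f : V | ∃ ν, Dom lam ν ∧ ν ≠ lam ∧ f = h ν}) →
  ∃ b : Module.Basis YoungDiagram K V, (∀ lam, D (b lam) = c lam • b lam) ∧
    (∀ lam, D' (b lam) = c' lam • b lam) ∧
    ∀ lam, Submodule.span K {f : V | ∃ ν, Dom lam ν ∧ f = b ν} =
      Submodule.span K {f : V | ∃ ν, Dom lam ν ∧ f = h ν}

/-! ## E. the eigenbasis and the Macdonald polynomials -/

/-- an eigenbasis of `D_0`, `D*_0` -/
structure EB (q t : K) (b : Module.Basis YoungDiagram K (Lam K)) : Prop where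
  d0 : ∀ μ, Dk q t 0 (b μ) = cm q t μ • b μ
  ds : ∀ μ, Ds q t (b μ) = cm q⁻¹ t⁻¹ μ • b μ
  hom : ∀ μ, IsH μ.card (b μ)
  sp : ∀ μ, Submodule.span K {f : Lam K | ∃ lam, Dom μ lam ∧ f = b lam} = Uge (gq q) μ

/-- StEig.  StEigA for the basis StHPB, with StTriD, StDD, StGqF, StB (1) (`cm` is injective because `M ≠ 0`); `hom`: `b μ` is in the
span of `hP (gq q) ν`, `ν.card = μ.card`, homogeneous by StHsHom. -/
def StEig : Prop := ∀ (K : Type) [Field K] [CharZero K] (q t : K), Gq q t →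
  ∃ b : Module.Basis YoungDiagram K (Lam K), EB q t b

/-- StMac.  The Macdonald polynomials are the eigenvectors.  `scal (1-q^(i+1))` is an automorphism, its inverse maps
`schur lam` to `JT (gq q) lam` (StHsMap, `RingHom.map_det`); so `ax1` says `H ∈ span {JT (gq q) lam : lam ≥ μ} = Uge (gq q) μ
= span {b lam : lam ≥ μ}` (StSpan).  `ax2` says `H ∈ span {b' lam : lam ≥ μ'}`, `b'` from StEig for `(t,q)`; `Dk t q = Dk q t`
(`Mk` is symmetric), `b' lam` has eigenvalue `cm t q lam = cm q t lam'` (StB), so it is a multiple of `b lam'` (the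
eigenvalues `cm q t` are distinct).  A vector in both spans is a combination of `b ν` with `Dom μ ν` and `Dom μ' ν'`: `ν = μ`
(StDomT). -/
def StMac : Prop := ∀ (K : Type) [Field K] [CharZero K] (q t : K), Gq q t →
  ∀ b : Module.Basis YoungDiagram K (Lam K), EB q t b → ∀ (μ : YoungDiagram) (H : Lam K),
    IsMac q t μ H ↔ ∃ a : K, a ≠ 0 ∧ H = a • b μ

/-- StPie.  Pieri support.  Let `d` be the coefficient of `b μ` in `e_1 b ν`.  `M D_1 = [D_0, e_1]` (StDX): the coefficient of `b μ` in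
`D_1 b ν` is `-(B_μ - B_ν) d`.  `[D*_0, D_1] = M~ e_1` (StDD): `(-M~ (B~_μ - B~_ν)) (-(B_μ - B_ν) d) = M~ d`.  If `d ≠ 0`: StPB, with
`μ.card = ν.card + 1` by homogeneity. -/
def StPie : Prop := ∀ (K : Type) [Field K] [CharZero K] (q t : K), Gq q t →
  ∀ b : Module.Basis YoungDiagram K (Lam K), EB q t b → ∀ μ ν : YoungDiagram,
    (b.repr (Dk q t 1 (b ν)) μ = -(Bm q t μ - Bm q t ν) * b.repr (X 0 * b ν) μ) ∧
    (b.repr (X 0 * b ν) μ ≠ 0 → ∃ c ∉ ν.cells, μ.cells = insert c ν.cells)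

/-! ## F. nabla, Pi, Delta_u and the main identities -/

/-- the diagonal operator `b μ ↦ φ μ b μ` -/
noncomputable def dg (b : Module.Basis YoungDiagram K (Lam K)) (φ : YoungDiagram → K) : Lam K →ₗ[K] Lam K :=
  b.constr K (fun μ => φ μ • b μ)

/-- `T_μ = ∏ x_c` -/
def Tm (q t : K) (μ : YoungDiagram) : K := ∏ c ∈ μ.cells, xc q t c
/-- `∏_(c ≠ (0,0)) (1 - x_c)` -/
def Pm (q t : K) (μ : YoungDiagram) : K := ∏ c ∈ μ.cells.erase (0, 0), (1 - xc q t c)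
/-- `∏ (1 - u x_c)` -/
def Um (q t u : K) (μ : YoungDiagram) : K := ∏ c ∈ μ.cells, (1 - u * xc q t c)

/-- StE1.  Commutation with `e_1` (check on the basis, StPie; `x_c = B_μ - B_ν`):
nabla is `IsNabla`; `Delta_u e_1 = (e_1 + u D_1) Delta_u`; `Pi e_1 = (e_1 + D_1) Pi` on positive degree and `Pi e_1 = e_1`. -/
def StE1 : Prop := ∀ (K : Type) [Field K] [CharZero K] (q t : K), Gq q t →
  ∀ b : Module.Basis YoungDiagram K (Lam K), EB q t b → IsNabla q t (dg b (Tm q t)) ∧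
    (∀ u f, dg b (Um q t u) (X 0 * f) = X 0 * dg b (Um q t u) f + u • Dk q t 1 (dg b (Um q t u) f)) ∧
    (∀ n f, 1 ≤ n → IsH n f → dg b (Pm q t) (X 0 * f) = X 0 * dg b (Pm q t) f + Dk q t 1 (dg b (Pm q t) f)) ∧
    dg b (Pm q t) (X 0) = X 0

/-- StCyc.  Cyclicity: a subspace containing 1 and stable under `e_1 = X 0` and `D_0` is everything (`M ≠ 0`).  It is stable under
`D_1 = [D_0,e_1]/M`, `D_(k+1) = [D_k,e_1]/M` (StDX), so under all `D_k`.  Induct on the degree `n`; for `k = n, n-1, .., 1`: `e_k Lam_(n-k) ⊆ S`: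
`D_k g = ε_k g + ∑_(j≥1) g_j ε_(k+j)` with `g_j` of degree `deg g - j` (coefficients of `Tr g`).  And `Lam_n = ∑_(k≥1) e_k Lam_(n-k)`
(`p_k` is a polynomial in the `e`'s with zero constant term). -/
def StCyc : Prop := ∀ (K : Type) [Field K] [CharZero K] (q t : K), Mk q t 1 ≠ 0 →
  ∀ S : Submodule K (Lam K), 1 ∈ S → (∀ f ∈ S, X 0 * f ∈ S) → (∀ f ∈ S, Dk q t 0 f ∈ S) → S = ⊤

/-- StNabU.  `IsNabla` determines the operator (StCyc for `{f : N f = N' f}`). -/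
def StNabU : Prop := ∀ (K : Type) [Field K] [CharZero K] (q t : K), Mk q t 1 ≠ 0 →
  ∀ N N' : Lam K →ₗ[K] Lam K, IsNabla q t N → IsNabla q t N' → N = N'

/-- StU.  An operator of positive degree commuting with `D_0` is 0 (`L (b μ)` is an eigenvector with eigenvalue `cm μ`, so a
multiple of `b μ`, but of degree `> μ.card`). -/
def StU : Prop := ∀ (K : Type) [Field K] [CharZero K] (q t : K), Gq q t →
  ∀ b : Module.Basis YoungDiagram K (Lam K), EB q t b → ∀ (L : Lam K →ₗ[K] Lam K) (k : ℕ), 1 ≤ k →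
    (∀ n f, 1 ≤ n → IsH n f → IsH (n + k) (L f)) → (∀ n f, 1 ≤ n → IsH n f → L (Dk q t 0 f) = Dk q t 0 (L f)) →
    ∀ n f, 1 ≤ n → IsH n f → L f = 0

/-- StM4.  `Delta_u` of `Exp[-X/M]` is `Exp[-(1-u)X/M]`.  Induction on `n`: by StGu (`u := 0`) and StE1 both `Y n = Delta_u (Gu 0 n)` and
`Y n = Gu u n` satisfy `(D_0 - 1) Y (n+1) = (e_1 + u D_1) Y n`, and `D_0 - 1` is injective in degree `n+1` (`M B_μ ≠ 0`). -/
def StM4 : Prop := ∀ (K : Type) [Field K] [CharZero K] (q t u : K), Gq q t →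
  ∀ b : Module.Basis YoungDiagram K (Lam K), EB q t b → ∀ n, dg b (Um q t u) (Gu q t 0 n) = Gu q t u n

/-- StM4c.  Coefficients of `(-u)^m` in StM4 (`Um u μ = ∑_m (-u)^m eB m μ`; `K` is infinite): `Delta_(e_m) e*_n = h*_m e*_(n-m)`;
`m = n`: `eB n μ = Tm μ`, `nabla e*_n = h*_n`. -/
def StM4c : Prop := ∀ (K : Type) [Field K] [CharZero K] (q t : K), Gq q t →
  ∀ b : Module.Basis YoungDiagram K (Lam K), EB q t b → ∀ m k : ℕ,
    dg b (eB q t m) (Est q t (m + k)) = Hst q t m * Est q t k ∧ dg b (Tm q t) (Est q t m) = Hst q t m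

/-- StM5.  `Pi e*_n = omega p_n / M_n`.  Let `L n := (M_n)⁻¹ X (n-1)` (`n ≥ 1`); by StDX `D_a (X i) = X i ε_a + M_(i+1) ε_(i+1+a)`, so
`(D_0 - 1) L n = ε_n` and `(e_1 + D_1) L n = ε_(n+1)`: `(D_0 - 1) L (n+1) = (e_1 + D_1) L n` for `n ≥ 1`, `L 1 = M⁻¹ X 0`.
`Y n := -Pi (Gu 0 n)` satisfies the same (StGu with `u = 0`, StE1), `Y 1 = -Pi (-M⁻¹ X 0) = M⁻¹ X 0` (`Gu 0 1 = -X 0/M`).  `D_0 - 1` is injective in
positive degree.  So `Pi (Gu 0 n) = -L n`, `Gu 0 n = (-1)^n Est n`. -/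
def StM5 : Prop := ∀ (K : Type) [Field K] [CharZero K] (q t : K), Gq q t →
  ∀ b : Module.Basis YoungDiagram K (Lam K), EB q t b → ∀ n, 1 ≤ n →
    Mk q t n • dg b (Pm q t) (Est q t n) = omp K n

/-- StTh.  The Theta formula (five-term relation at `v = 1`), for `f` of positive degree, `N` = nabla:
`Pi (e*_k N f) = ∑_(i+j=k) (-1)^j e*_i N (e*_j Pi f)`.  Let `A_k f`, `B_k f` be the two sides.  With StDEst and `D_1 N = -N e_1` (IsNabla):
`D_0 A_k f = A_k D_0 f - A_(k-1) (e_1 f)`, and with `Pi (e_1 f) = (e_1 + D_1) Pi f` (StE1) `D_0 B_k f = B_k D_0 f - B_(k-1) (e_1 f)`.  `A_0 = B_0` (diagonal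
operators commute); induction on `k`: `A_k - B_k` commutes with `D_0` on positive degree and raises the degree by `k`: StU. -/
def StTh : Prop := ∀ (K : Type) [Field K] [CharZero K] (q t : K), Gq q t →
  ∀ b : Module.Basis YoungDiagram K (Lam K), EB q t b → ∀ (k n : ℕ) (f : Lam K), 1 ≤ n → IsH n f →
    dg b (Pm q t) (Est q t k * dg b (Tm q t) f) =
      ∑ p ∈ antidiagonal k, (-1 : K) ^ p.2 • (Est q t p.1 * dg b (Tm q t) (Est q t p.2 * dg b (Pm q t) f))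

/-- StMF.  RESULT OF BLOCK M.  `n = m + k`.  `omp n = M_n Pi e*_n` (StM5); `D` and `Pi` commute on degree `n` (StMac: `D = dg (eB m)`
there); `D e*_n = h*_m e*_k = e*_k N e*_m` (StM4c); StTh for `f = e*_m`; StM5 for `m`; `N` is `dg (Tm)` (StNabU, StE1).  Factor:
`[m]_q/[n]_q M_n/M_m = [n]_t/[m]_t`. -/
def StMF : Prop := ∀ (K : Type) [Field K] [CharZero K] (q t : K), Gq q t → ∀ (m k : ℕ), 1 ≤ m →
  ∀ D N : Lam K →ₗ[K] Lam K, IsDelta q t (m + k) m D → IsNabla q t N →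
    (qn q m / qn q (m + k)) • D (omp K (m + k)) = (qn t (m + k) / qn t m) •
      ∑ p ∈ antidiagonal k, (-1 : K) ^ p.2 • (Est q t p.1 * N (Est q t p.2 * omp K m))

/-- StMX.  Existence: Macdonald polynomials, the operator Delta, nabla (StEig, StMac, `dg`, StE1). -/
def StMX : Prop := ∀ (K : Type) [Field K] [CharZero K] (q t : K), Gq q t →
  (∀ μ, ∃ H, IsMac q t μ H) ∧ (∀ n m, ∃ D : Lam K →ₗ[K] Lam K, IsDelta q t n m D) ∧
  ∃ N : Lam K →ₗ[K] Lam K, IsNabla q t N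

end Pool.VD
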