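import Pool.Agent.VD.StCG
import Pool.Agent.VD.StM

/-!
# MP_cf06d4_co: Q1 from the results of the blocks
-/

set_option autoImplicit false

namespace Pool.VD

open MvPolynomial Finset

/-- Q1 from block M (`StMF`, `StMX`), block S (`StFDy`), the collapse lemma (`StCol0`) and block C (`StC`) -/
theorem FinQ_Q1 (hMF : StMF) (hMX : StMX) (K : Type) [Field K] [CharZero K] (q t : K) (hg : Gq q t)
    (hFDy : StFDy q t) (h0 : StCol0 q t) (hC : StC K q t) : StQ1 q t := by
  intro n k N hn D hD
  rcases Nat.lt_or_ge k n with hk | hk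
  · obtain ⟨m, rfl⟩ : ∃ m, n = m + k := ⟨n - k, by omega⟩
    have hm : 1 ≤ m := by omega
    rw [Nat.add_sub_cancel] at hD ⊢
    obtain ⟨nab, hnab⟩ := (hMX K q t hg).2.2
    have h1 := hMF K q t hg m k hm D nab hD hnab
    have h2 := congrArg (evN K N) h1
    rw [MvPolynomial.smul_eq_C_mul, MvPolynomial.smul_eq_C_mul, map_mul, map_mul] at h2
    have hc : ∀ c : K, evN K N (C c) = C c := fun c => by
      have := (evN K N).commutes c
      rwa [MvPolynomial.algebraMap_eq] at this
    rw [hc, hc] at h2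
    rw [h2, hFDy m k N hm, hC nab hnab m k N hm]
  · rw [h0 n k N hn hk, Nat.sub_eq_zero_of_le hk]
    simp [qn]

end Pool.VD
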