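import Pool.Agent.VD.FinM
import Pool.Agent.VD.FinQ
import Pool.Agent.VD.BlockS
import Pool.Agent.VD.FinC

/-!
# MP_cf06d4_co: the theorem Q1
-/

set_option autoImplicit false

namespace Pool.VD

open MvPolynomial Finset

/-- Q1 -/
theorem qQ1 (K : Type) [Field K] [CharZero K] (q t : K) (hg : Gq q t) : StQ1 q t := by
  obtain ⟨hq0, ht0, -, hq, -⟩ := pGqF K q t hg
  refine FinQ_Q1 qMF qMX K q t hg (blockS q t hq0 ht0 ?_) (col0 q t) (qC K q t hg)
  intro j hj h0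
  obtain ⟨k, rfl⟩ : ∃ k, j = k + 1 := ⟨j - 1, by omega⟩
  apply hq k
  have h := geom_sum_mul q (k + 1)
  rw [show (∑ i ∈ range (k + 1), q ^ i) = 0 from h0, zero_mul] at h
  exact (sub_eq_zero.1 h.symm)

end Pool.VD
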