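import Pool.Agent.VD.M_DK

/-!
# The commutators `[D_a, D*_b]`
-/

set_option autoImplicit false
set_option linter.unusedSectionVars false

namespace Pool.VD

open MvPolynomial Finset

variable {K : Type} [Field K] [CharZero K]

/-- `D*_k` -/
noncomputable def Dsk (q t : K) (k : ℕ) : Lam K →ₗ[K] Lam K :=
  Vo (fun i => -Mk q⁻¹ t⁻¹ (i + 1)) (fun i => (X i : Lam K)) k

theorem Dsk_zero (q t : K) : Dsk q t 0 = Ds q t := rfl

theorem Dsk_one (q t : K) (k : ℕ) : Dsk q t k 1 = Hn K k := Vo_one _ _ _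

theorem Dsk_X_mul (q t : K) (k i : ℕ) (f : Lam K) :
    Dsk q t k (X i * f) = X i * Dsk q t k f - C (Mk q⁻¹ t⁻¹ (i + 1)) * Dsk q t (k + (i + 1)) f := by
  rw [Dsk, Vo_X_mul, map_neg, neg_mul, sub_eq_add_neg, Dsk]

theorem Hc_one (n : ℕ) : Hc (fun _ => (1 : K)) n = Hn K n := by
  simp [Hc, Hn]

theorem Hc_neg_one (n : ℕ) : Hc (fun _ => (-1 : K)) n = Ep K n := by
  simp [Hc, Ep]

/-- `D_a h_b` -/
theorem Dk_Hn (q t : K) (a b : ℕ) : Dk q t a (Hn K b) = ∑ j ∈ range (b + 1),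
    C (Hs (fun i => Mk q t (i + 1)) j) * Hn K (b - j) * Ep K (a + j) := by
  have h := Vo_Hc_mul (fun i => Mk q t (i + 1)) (fun i => -(X i : Lam K)) (fun _ => (1 : K)) a b 1
  simp only [Hc_one, one_mul, mul_one, Vo_one] at h
  exact h

/-- `D*_b (-1)^a e_a` -/
theorem Dsk_Ep (q t : K) (a b : ℕ) : Dsk q t b (Ep K a) = ∑ j ∈ range (a + 1),
    C (Hs (fun i => Mk q⁻¹ t⁻¹ (i + 1)) j) * Ep K (a - j) * Hn K (b + j) := by
  have h := Vo_Hc_mul (fun i => -Mk q⁻¹ t⁻¹ (i + 1)) (fun i => (X i : Lam K))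
    (fun _ => (-1 : K)) b a 1
  simp only [Hc_neg_one, mul_one, Vo_one, neg_mul, one_mul, neg_neg] at h
  exact h

/-- `h_n[(1-qt)X]` -/
noncomputable def Wn (q t : K) (n : ℕ) : Lam K := Hc (fun i => 1 - (q * t) ^ (i + 1)) n

theorem Wn_eq (q t : K) (n : ℕ) : Wn q t n = ∑ i ∈ range (n + 1),
    C ((q * t) ^ i) * (Ep K i * Hn K (n - i)) := by
  have h : (fun i => (C (1 - (q * t) ^ (i + 1)) * X i : Lam K)) =
      (fun i => (C (q * t)) ^ (i + 1) * (-(X i : Lam K))) + fun i => (X i : Lam K) := by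
    funext i
    simp only [map_sub, map_one, map_pow, Pi.add_apply]
    ring
  rw [Wn, Hc, h, Hs_add']
  refine sum_congr rfl fun i _ => ?_
  rw [Hs_scale, map_pow, mul_assoc]
  rfl

theorem Ep_Hn_conv (n : ℕ) : ∑ i ∈ range (n + 1), Ep K i * Hn K (n - i) =
    if n = 0 then 1 else 0 := by
  have h := Hs_neg_conv (fun i => (X i : Lam K)) n
  exact h

theorem Mk_inv {q t : K} (hq : q ≠ 0) (ht : t ≠ 0) (m : ℕ) :
    Mk q⁻¹ t⁻¹ m = Mk q t m * ((q * t) ^ m)⁻¹ := by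
  have h1 : q ^ m ≠ 0 := pow_ne_zero _ hq
  have h2 : t ^ m ≠ 0 := pow_ne_zero _ ht
  rw [Mk, Mk, mul_pow, inv_pow, inv_pow]
  field_simp
  ring

/-- the function by which `[D_a, D*_b]` multiplies -/
noncomputable def gab (q t : K) (a b : ℕ) : Lam K :=
  C (Mk q t 1 / (1 - q * t)) * ((if a + b = 0 then 1 else 0) -
    C (((q * t) ^ a)⁻¹) * Wn q t (a + b))

theorem DD_base {q t : K} (hq : q ≠ 0) (ht : t ≠ 0) (hqt : q * t ≠ 1) (a b : ℕ) :
    Dk q t a (Hn K b) - Dsk q t b (Ep K a) = gab q t a b := by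
  have hw : q * t ≠ 0 := mul_ne_zero hq ht
  have hqt' : q⁻¹ * t⁻¹ ≠ 1 := by
    intro h
    apply hqt
    rw [← mul_inv] at h
    exact inv_eq_one.1 h
  have hd : (1 - q * t) ≠ 0 := sub_ne_zero.2 (Ne.symm hqt)
  set c : K := Mk q t 1 / (1 - q * t) with hc
  have hc' : Mk q⁻¹ t⁻¹ 1 / (1 - q⁻¹ * t⁻¹) = -c := by
    rw [hc, Mk_inv hq ht, pow_one, ← mul_inv]
    have hd' : (1 - (q * t)⁻¹) ≠ 0 := by
      intro h
      apply hqt
      have := sub_eq_zero.1 h
      exact inv_eq_one.1 this.symm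
    have hd'' : q * t - 1 ≠ 0 := sub_ne_zero.2 hqt
    field_simp
    ring
  set F : ℕ → Lam K := fun i => Ep K i * Hn K (a + b - i) with hF
  set φ : ℕ → Lam K := fun i => (1 - C (((q * t) ^ a)⁻¹ * (q * t) ^ i)) * F i with hφ
  have hφa : φ a = 0 := by
    simp only [hφ]
    rw [inv_mul_cancel₀ (pow_ne_zero _ hw), map_one, sub_self, zero_mul]
  have e1 : Dk q t a (Hn K b) = F a + C c * ∑ j ∈ range (b + 1), φ (a + j) := by
    rw [Dk_Hn, mul_sum]
    have h0 : F a = ∑ j ∈ range (b + 1), (if j = 0 then F a else 0) := by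
      rw [sum_ite_eq' (range (b + 1)) 0 (fun _ => F a)]
      simp
    rw [h0, ← sum_add_distrib]
    refine sum_congr rfl fun j hj => ?_
    have hj' : j ≤ b := by simpa [Nat.lt_succ_iff] using hj
    have h1 : F (a + j) = Ep K (a + j) * Hn K (b - j) := by
      simp only [hF]
      congr 2
      omega
    have h2 : ((q * t) ^ a)⁻¹ * (q * t) ^ (a + j) = (q * t) ^ j := by
      rw [pow_add, ← mul_assoc, inv_mul_cancel₀ (pow_ne_zero _ hw), one_mul]
    rw [Hs_Mk q t hqt]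
    simp only [hφ]
    rw [h1, h2]
    split_ifs with h
    · subst h
      simp only [hF, add_zero, map_add, map_one, map_mul, map_sub, Nat.sub_zero, pow_zero]
      rw [show a + b - a = b by omega]
      ring
    · simp only [zero_add, map_mul, map_sub, map_one]
      ring
  have e2 : Dsk q t b (Ep K a) = F a - C c * ∑ j ∈ range (a + 1), φ (a - j) := by
    rw [Dsk_Ep, mul_sum]
    have h0 : F a = ∑ j ∈ range (a + 1), (if j = 0 then F a else 0) := by
      rw [sum_ite_eq' (range (a + 1)) 0 (fun _ => F a)]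
      simp
    rw [h0, ← sum_sub_distrib]
    refine sum_congr rfl fun j hj => ?_
    have hj' : j ≤ a := by simpa [Nat.lt_succ_iff] using hj
    have h1 : F (a - j) = Ep K (a - j) * Hn K (b + j) := by
      simp only [hF]
      congr 2
      omega
    have h2 : ((q * t) ^ a)⁻¹ * (q * t) ^ (a - j) = (q⁻¹ * t⁻¹) ^ j := by
      rw [← mul_inv, inv_pow]
      have h3 : (q * t) ^ a = (q * t) ^ j * (q * t) ^ (a - j) := by
        rw [← pow_add]; congr 1; omega
      rw [h3, mul_inv, mul_assoc, inv_mul_cancel₀ (pow_ne_zero _ hw), mul_one]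
    rw [Hs_Mk q⁻¹ t⁻¹ hqt', hc']
    simp only [hφ]
    rw [h1, h2]
    split_ifs with h
    · subst h
      simp only [hF, add_zero, map_add, map_one, map_mul, map_sub, Nat.sub_zero, pow_zero]
      rw [show a + b - a = b by omega]
      ring
    · simp only [zero_add, map_mul, map_sub, map_one, map_neg, zero_sub]
      ring
  have e3 : ∑ j ∈ range (a + 1), φ (a - j) = ∑ i ∈ range a, φ i := by
    have h := sum_range_reflect φ (a + 1)
    rw [show a + 1 - 1 = a from rfl] at h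
    rw [h, sum_range_succ, hφa, add_zero]
  have e4 : ∑ i ∈ range a, φ i + ∑ j ∈ range (b + 1), φ (a + j) =
      ∑ i ∈ range (a + b + 1), φ i := by
    rw [add_assoc a b 1, sum_range_add φ a (b + 1)]
  rw [e1, e2, e3]
  have e5 : F a + C c * ∑ j ∈ range (b + 1), φ (a + j) - (F a - C c * ∑ i ∈ range a, φ i) =
      C c * ∑ i ∈ range (a + b + 1), φ i := by
    rw [← e4]; ring
  rw [e5, gab, ← hc]
  congr 1
  rw [← Ep_Hn_conv (K := K) (a + b), Wn_eq, mul_sum, ← sum_sub_distrib]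
  refine sum_congr rfl fun i _ => ?_
  simp only [hφ, hF, map_mul]
  ring

theorem gab_rel {q t : K} (hq : q ≠ 0) (ht : t ≠ 0) (a b m : ℕ) :
    C (Mk q⁻¹ t⁻¹ (m + 1)) * gab q t a (b + (m + 1)) =
      C (Mk q t (m + 1)) * gab q t (a + (m + 1)) b := by
  have hw : q * t ≠ 0 := mul_ne_zero hq ht
  have h1 : a + (b + (m + 1)) ≠ 0 := by omega
  have h2 : a + (m + 1) + b = a + (b + (m + 1)) := by omega
  rw [gab, gab, h2, if_neg h1, Mk_inv hq ht, pow_add (q * t) a (m + 1), mul_inv]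
  simp only [map_mul]
  ring

/-- `[D_a, D*_b]` is the multiplication by `M/(1-qt) (δ_(a+b,0) - (qt)^(-a) h_(a+b)[(1-qt)X])`. -/
theorem DD {q t : K} (hq : q ≠ 0) (ht : t ≠ 0) (hqt : q * t ≠ 1) (f : Lam K) : ∀ a b : ℕ,
    Dk q t a (Dsk q t b f) - Dsk q t b (Dk q t a f) = gab q t a b * f := by
  induction f using MvPolynomial.induction_on with
  | C c =>
    intro a b
    have h := DD_base hq ht hqt a b
    have h1 : (C c : Lam K) = c • 1 := by rw [MvPolynomial.smul_eq_C_mul, mul_one]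
    rw [h1, map_smul, map_smul, map_smul, map_smul, Dk_one, Dsk_one, ← smul_sub, h,
      mul_smul_comm, mul_one]
  | add f g hf hg =>
    intro a b
    rw [map_add, map_add, map_add, map_add, mul_add, ← hf a b, ← hg a b]
    ring
  | mul_X f i hf =>
    intro a b
    rw [mul_comm f (X i), Dsk_X_mul, Dk_X_mul, map_sub, map_add, Dk_X_mul, Dsk_X_mul, Dk,
      Vo_C_mul, ← Dk, Dsk, Vo_C_mul, ← Dsk]
    have h1 := hf a b
    have h2 := hf a (b + (i + 1))
    have h3 := hf (a + (i + 1)) b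
    have h4 := gab_rel hq ht a b i
    linear_combination (X i) * h1 - C (Mk q⁻¹ t⁻¹ (i + 1)) * h2 + C (Mk q t (i + 1)) * h3 -
      f * h4

/-- `[D_0, D*_0] = 0` -/
theorem D0_Ds {q t : K} (hq : q ≠ 0) (ht : t ≠ 0) (hqt : q * t ≠ 1) (f : Lam K) :
    Dk q t 0 (Ds q t f) = Ds q t (Dk q t 0 f) := by
  have h := DD hq ht hqt f 0 0
  rw [Dsk_zero] at h
  have h1 : gab q t 0 0 = 0 := by
    rw [gab, Wn, Hc_zero]
    simp
  rw [h1, zero_mul] at h
  exact sub_eq_zero.1 h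

/-- `[D*_0, D_1] = M~ e_1` -/
theorem Ds_D1 {q t : K} (hq : q ≠ 0) (ht : t ≠ 0) (hqt : q * t ≠ 1) (f : Lam K) :
    Ds q t (Dk q t 1 f) = Dk q t 1 (Ds q t f) + C (Mk q⁻¹ t⁻¹ 1) * (X 0 * f) := by
  have h := DD hq ht hqt f 1 0
  rw [Dsk_zero] at h
  have hd : (1 - q * t) ≠ 0 := sub_ne_zero.2 (Ne.symm hqt)
  have hw : q * t ≠ 0 := mul_ne_zero hq ht
  have h1 : gab q t 1 0 = -(C (Mk q⁻¹ t⁻¹ 1) * X 0) := by
    rw [gab, Wn, Hc, Hs_one, Mk_inv hq ht, if_neg (by norm_num), zero_sub, mul_neg, ← mul_assoc,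
      ← mul_assoc, ← map_mul, ← map_mul]
    congr 3
    rw [pow_one]
    field_simp
  rw [h1] at h
  linear_combination -h

/-- `D*_0 p_(i+1) = p_(i+1) D*_0 - M~_(i+1) D*_(i+1)` -/
theorem Ds_X_mul (q t : K) (i : ℕ) (f : Lam K) :
    Ds q t (X i * f) = X i * Ds q t f - C (Mk q⁻¹ t⁻¹ (i + 1)) * Dsk q t (i + 1) f := by
  have h := Dsk_X_mul q t 0 i f
  rwa [zero_add] at h

end Pool.VD
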