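import Pool.Agent.VD.StM
import Pool.Agent.VD.M_DD

/-!
# Block M, part A: the statements on `Hs` and on the vertex operators (wrappers of `M_HS`, `M_DK`, `M_DD`)
-/

set_option autoImplicit false
set_option linter.unusedSectionVars false

namespace Pool.VD

open MvPolynomial Finset

theorem pHsR : StHsR := by
  intro R _ _ a
  refine ⟨Hs_zero a, fun n => ?_⟩
  rw [Hs, ← Fin.sum_univ_eq_sum_range (fun k => a k * Hs a (n - k))]

theorem pHsAdd : StHsAdd := by
  intro R _ _ a b n
  exact Hs_add a b n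

theorem pHsMap : StHsMap := by
  intro R S _ _ _ _ φ a n
  exact Hs_map φ a n

theorem pHsSc : StHsSc := by
  intro R _ _ c a n
  exact Hs_scale c a n

theorem pHsGeo : StHsGeo := by
  intro R _ _ b c n
  refine ⟨Hs_geom c n, Hs_neg_geom c n, ?_, ?_⟩
  · have h := Hs_scale c (fun i => 1 - b ^ (i + 1)) (n + 1)
    rw [Hs_one_sub_geom, if_neg (Nat.succ_ne_zero n)] at h
    rw [mul_comm (1 - b), ← h]
    congr 1
    funext i
    ring
  · have h := HS_zero_seq (R := R)
    have h1 := congrArg (PowerSeries.coeff (n + 1)) h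
    rw [coeff_HS, PowerSeries.coeff_one, if_neg (Nat.succ_ne_zero n)] at h1
    exact h1

theorem pHsHom : StHsHom := by
  intro K _ _ a ha n
  induction n using Nat.strong_induction_on with
  | _ n ih =>
    cases n with
    | zero =>
      rw [Hs_zero]
      exact isWeightedHomogeneous_one K _
    | succ n =>
      rw [(pHsR (Lam K) a).2 n]
      have h1 : IsH (n + 1) (∑ i ∈ range (n + 1), a i * Hs a (n - i)) := by
        refine Submodule.sum_mem (weightedHomogeneousSubmodule K (fun i : ℕ => i + 1) (n + 1))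
          fun i hi => ?_
        have hi' : i ≤ n := by simpa [Nat.lt_succ_iff] using hi
        have h2 := (ha i).mul (ih (n - i) (by omega))
        have h3 : i + 1 + (n - i) = n + 1 := by omega
        rw [h3] at h2
        exact h2
      have h4 : ((n + 1 : ℚ)⁻¹) • (∑ i ∈ range (n + 1), a i * Hs a (n - i)) =
          (((n + 1 : ℚ)⁻¹ : ℚ) : K) • (∑ i ∈ range (n + 1), a i * Hs a (n - i)) := by
        rw [Algebra.smul_def, MvPolynomial.smul_eq_C_mul]
        congr 1
      rw [h4]
      exact Submodule.smul_mem (weightedHomogeneousSubmodule K (fun i : ℕ => i + 1) (n + 1)) _ h1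

theorem pTrHs : StTrHs := by
  intro K _ _ m s a ha n
  have h1 : Tr m (Hs a n) = Hs (fun k => Tr m (a k)) n :=
    Hs_map ((Tr m : Lam K →ₐ[K] Polynomial (Lam K)) : Lam K →+* Polynomial (Lam K)) a n
  have h2 : (fun k => Tr m (a k)) = (fun k => Polynomial.C (a k)) +
      (fun k => (Polynomial.X : Polynomial (Lam K)) ^ (k + 1) *
        Polynomial.C (C (s k) : Lam K)) := by
    funext k
    rw [ha, Pi.add_apply]
    ring
  rw [h1, h2, Hs_add]
  refine sum_congr rfl fun p _ => ?_
  rw [Hs_scale]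
  have h3 : Hs (fun k => Polynomial.C (C (s k) : Lam K)) p.2 =
      Polynomial.C (C (Hs s p.2) : Lam K) := by
    have := Hs_map ((Polynomial.C : Lam K →+* Polynomial (Lam K)).comp (C : K →+* Lam K)) s p.2
    exact this.symm
  have h4 : Hs (fun k => Polynomial.C (a k)) p.1 = Polynomial.C (Hs a p.1) :=
    (Hs_map (Polynomial.C : Lam K →+* Polynomial (Lam K)) _ _).symm
  rw [h3, h4, map_mul]
  ring

theorem pVo1 : StVo1 := by
  intro K _ _ m a k
  refine ⟨Vo_one m a k, fun N c g f hg => ?_⟩
  exact Vo_mul_of m a k (range N) c (fun j => j) hg f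

theorem pDX : StDX := by
  intro K _ _ m a k i f q t
  refine ⟨?_, ?_, Dk_one q t k, Ds_one q t⟩
  · rw [Vo_X_mul, MvPolynomial.smul_eq_C_mul, add_assoc]
  · rw [Dk_X_mul, MvPolynomial.smul_eq_C_mul, add_assoc]

theorem pDD : StDD := by
  intro K _ _ q t hq ht hqt f
  refine ⟨(D0_Ds hq ht hqt f).symm, ?_⟩
  rw [Ds_D1 hq ht hqt f, MvPolynomial.smul_eq_C_mul]

theorem pDEst : StDEst := by
  intro K _ _ q t hM a n f
  exact Dk_Est_mul hM a n f

end Pool.VD
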