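import Pool.Agent.VD.StM

/-!
# Block M, module B: the biexponents `B_μ`
-/

set_option autoImplicit false

namespace Pool.VD

open MvPolynomial Finset

private noncomputable def B_ex (c : ℕ × ℕ) : Fin 2 →₀ ℕ := Finsupp.single 0 c.2 + Finsupp.single 1 c.1

private theorem B_ex_inj : Function.Injective B_ex := by
  intro a b h
  have h0 := DFunLike.congr_fun h 0
  have h1 := DFunLike.congr_fun h 1
  simp [B_ex] at h0 h1
  exact Prod.ext h1 h0

theorem B_rows {K : Type} [Field K] (q t : K) (μ : YoungDiagram) :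
    Bm q t μ = ∑ i ∈ range (μ.colLen 0), ∑ j ∈ range (μ.rowLen i), q ^ j * t ^ i := by
  rw [Finset.sum_sigma', Bm]
  refine Finset.sum_nbij' (fun c => (⟨c.1, c.2⟩ : Σ _ : ℕ, ℕ)) (fun s => (s.1, s.2)) ?_ ?_ ?_ ?_ ?_
  · intro c hc
    have hc' : (c.1, c.2) ∈ μ := (YoungDiagram.mem_cells _).1 hc
    have h0 : (c.1, 0) ∈ μ := μ.up_left_mem le_rfl (Nat.zero_le _) hc'
    rw [mem_sigma, mem_range, mem_range]
    exact ⟨YoungDiagram.mem_iff_lt_colLen.1 h0, YoungDiagram.mem_iff_lt_rowLen.1 hc'⟩
  · intro s hs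
    rw [mem_sigma, mem_range, mem_range] at hs
    exact (YoungDiagram.mem_cells _).2 (YoungDiagram.mem_iff_lt_rowLen.2 hs.2)
  · intro c _; rfl
  · intro s _; rfl
  · intro c _; rfl

theorem B_transpose {K : Type} [Field K] (q t : K) (μ : YoungDiagram) :
    Bm t q μ.transpose = Bm q t μ := by
  rw [Bm, Bm]
  refine Finset.sum_nbij' Prod.swap Prod.swap ?_ ?_ ?_ ?_ ?_
  · intro c hc
    exact (YoungDiagram.mem_cells _).2 (YoungDiagram.mem_transpose.1 ((YoungDiagram.mem_cells _).1 hc))
  · intro c hc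
    refine (YoungDiagram.mem_cells _).2 (YoungDiagram.mem_transpose.2 ?_)
    rw [Prod.swap_swap]
    exact (YoungDiagram.mem_cells _).1 hc
  · intro c _; exact Prod.swap_swap c
  · intro c _; exact Prod.swap_swap c
  · intro c _
    simp only [xc, Prod.fst_swap, Prod.snd_swap]
    ring

theorem pB : StB := by
  intro K _ _ q t
  refine ⟨?_, fun μ => B_transpose q t μ, ?_, ?_⟩
  · intro hG μ ν h
    have hinj : Function.Injective (aeval ![q, t] : MvPolynomial (Fin 2) ℚ →ₐ[ℚ] K) := hG
    have hP : ∀ μ : YoungDiagram, aeval ![q, t] (∑ c ∈ μ.cells, monomial (B_ex c) (1 : ℚ)) = Bm q t μ := by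
      intro μ
      rw [map_sum, Bm]
      refine sum_congr rfl fun c _ => ?_
      rw [aeval_monomial, map_one, one_mul, B_ex, Finsupp.prod_add_index', Finsupp.prod_single_index,
        Finsupp.prod_single_index]
      · simp [xc]
      · simp
      · simp
      · intro a; simp
      · intro a b1 b2; rw [pow_add]
    have heq := hinj ((hP μ).trans (h.trans (hP ν).symm))
    have hc : ∀ (μ : YoungDiagram) (c : ℕ × ℕ),
        coeff (B_ex c) (∑ c ∈ μ.cells, monomial (B_ex c) (1 : ℚ)) = if c ∈ μ.cells then 1 else 0 := by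
      intro μ c
      rw [coeff_sum]
      simp only [coeff_monomial]
      rw [show (∑ x ∈ μ.cells, if B_ex x = B_ex c then (1 : ℚ) else 0) =
        ∑ x ∈ μ.cells, if x = c then (1 : ℚ) else 0 from
        sum_congr rfl fun x _ => by simp only [B_ex_inj.eq_iff]]
      rw [Finset.sum_ite_eq']
    ext c
    have h1 := hc μ c
    have h2 := hc ν c
    rw [heq, h2] at h1
    by_cases a : c ∈ μ.cells <;> by_cases b : c ∈ ν.cells <;> simp [a, b] at h1 ⊢
  · intro μ
    rw [cm, cm, B_transpose]
    simp only [Mk]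
    ring
  · intro μ
    rw [cm, B_rows, Finset.mul_sum, sub_eq_add_neg, ← Finset.sum_neg_distrib]
    congr 1
    refine sum_congr rfl fun i _ => ?_
    rw [← Finset.sum_mul]
    have h := geom_sum_mul q (μ.rowLen i)
    simp only [Mk, pow_one]
    linear_combination (-(1 - t) * t ^ i) * (-h)

end Pool.VD
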