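import Pool.Agent.VD.StCM

/-!
# MP_cf06d4_co, block CM, module A2: the operators `Qi`
-/

set_option autoImplicit false

namespace Pool.VD.CM

theorem pA2 (hA1 : StA1) : StA2 := by
  intro K _ q hq U _ _ Dm Dp T hT
  obtain ⟨a1, a2, a3, -, -, a6, a7⟩ := hA1 K q hq U Dm Dp T hT
  have e0 : ∀ k f, Qi q T k 0 f = f := fun _ _ => rfl
  have e1 : ∀ k m f, Qi q T k (m + 1) f = Qi q T k m (Ti q T k m f) := fun _ _ _ => rfl
  have p2 : ∀ k m j f, j + 1 < k → m + 1 ≤ j → Qi q T k m (T k j f) = T k j (Qi q T k m f) := by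
    intro k m
    induction m with
    | zero => intro j f _ _; rfl
    | succ m ih =>
      intro j f h1 h2
      rw [e1, e1, a7 k m j f (by omega) h1 (Or.inl (by omega)), ih j _ h1 (by omega)]
  have p1 : ∀ k m j f, m < k → j + 1 < m → Qi q T k m (T k j f) = T k (j + 1) (Qi q T k m f) := by
    intro k m
    induction m with
    | zero => intro j f _ h; omega
    | succ m ih =>
      intro j f h1 h2
      by_cases h3 : j + 1 < m
      · rw [e1, e1, a7 k m j f (by omega) (by omega) (Or.inr (by omega)), ih j _ (by omega) h3]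
      · obtain rfl : m = j + 1 := by omega
        rw [e1, e1, e1, e1, a6 k j f (by omega), p2 k j (j + 1) _ (by omega) le_rfl]
  have p1' : ∀ k m j f, m < k → j + 1 < m →
      Qi q T k m (Ti q T k j f) = Ti q T k (j + 1) (Qi q T k m f) := by
    intro k m j f h1 h2
    have h := p1 k m j (Ti q T k j f) h1 h2
    rw [(a1 k j f (by omega)).1] at h
    rw [h, (a1 k (j + 1) _ (by omega)).2]
  have p3 : ∀ k m f, m < k →
      Dm k (T (k + 1) 0 (Qi q T (k + 1) (m + 1) f)) = Qi q T k m (Dm k f) := by
    intro k m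
    induction m with
    | zero =>
      intro f h
      rw [e1, e0, e0, (a1 (k + 1) 0 f (by omega)).1]
    | succ m ih =>
      intro f h
      rw [e1 (k + 1) (m + 1), ih _ (by omega), a2 k m f (by omega), ← e1]
  have p4 : ∀ k m f, m < k → Dp k (Qi q T k m f) = Qi q T (k + 1) m (Dp k f) := by
    intro k m
    induction m with
    | zero => intro f _; rfl
    | succ m ih =>
      intro f h
      rw [e1, ih _ (by omega), a3 k m f (by omega), ← e1]
  have p5 : ∀ k m, m + 1 < k → ∀ l, l ≤ m → ∀ f,
      T k 0 (Qi q T k (l + 1) (Qi q T k (m + 1) f)) = Qi q T k (m + 1) (Qi q T k l f) := by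
    intro k m hm l
    induction l with
    | zero =>
      intro _ f
      rw [e1, e0, e0, (a1 k 0 _ (by omega)).1]
    | succ l ih =>
      intro hl f
      rw [e1 k (l + 1), ← p1' k (m + 1) l f hm (by omega), ih (by omega), ← e1]
  exact ⟨p1, p2, p3, p4, fun k m f h => p5 k m h m le_rfl f⟩

end Pool.VD.CM
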