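import Pool.Agent.VD.StCM

/-!
# MP_cf06d4_co, block CM, module A3

The operators `Io`: commutation with `T`, symmetry of `Io Io`, and the formula for `y_0`.
-/

set_option autoImplicit false

namespace Pool.VD.CM

theorem pA3 (hA1 : StA1) (hA2 : StA2) : StA3 := by
  intro K _ q hq hq1 U _ _ Dm Dp T hT
  obtain ⟨-, -, -, -, a5, -, -⟩ := hA1 K q hq U Dm Dp T hT
  obtain ⟨b1, -, b3, b4, b5⟩ := hA2 K q hq U Dm Dp T hT
  have hIo : ∀ k f, Io q Dp T k f = Qi q T (k + 1) k (Dp k f) := fun k f => rfl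
  refine ⟨?_, ?_, ?_⟩
  · intro k j f hj
    rw [hIo, hIo, hT.dpT k j f hj]
    exact b1 (k + 1) k j (Dp k f) (Nat.lt_succ_self k) hj
  · intro k f
    rw [hIo, hIo, b4 (k + 1) k (Dp k f) (Nat.lt_succ_self k)]
    have h1 : Qi q T (k + 2) (k + 1) (Dp (k + 1) (Dp k f)) = Qi q T (k + 2) k (Dp (k + 1) (Dp k f)) := by
      have h0 : Qi q T (k + 2) (k + 1) (Dp (k + 1) (Dp k f)) =
          Qi q T (k + 2) k (Ti q T (k + 2) k (Dp (k + 1) (Dp k f))) := rfl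
      rw [h0, a5 k f]
    have h2 := b5 (k + 2) k (Dp (k + 1) (Dp k f)) (Nat.lt_succ_self (k + 1))
    rw [h1] at h2
    exact h2
  · intro k f
    rw [hIo, hIo, b3 (k + 1) k (Dp (k + 1) f) (Nat.lt_succ_self k), ← map_sub]
    have h3 : Yo q Dm Dp T k 0 f =
        (q - 1)⁻¹ • Qi q T (k + 1) k (Dp k (Dm k f) - Dm (k + 1) (Dp (k + 1) f)) := rfl
    rw [h3, smul_smul, mul_inv_cancel₀ (sub_ne_zero.mpr hq1), one_smul]

end Pool.VD.CM
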