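import Pool.Agent.VD.StCM

/-!
# MP_cf06d4_co, block CM, module A4: relations between the `y_j` and the `T_i`
-/

set_option autoImplicit false

namespace Pool.VD.CM

theorem pA4 (hA3 : StA3) : StA4 := by
  intro K _ q hq hq1 U _ _ Dm Dp T h
  obtain ⟨c1, -, c3⟩ := hA3 K q hq hq1 U Dm Dp T h
  have hY : ∀ k j (f : U (k + 1)), Yo q Dm Dp T k (j + 1) f =
      q⁻¹ • T (k + 1) j (Yo q Dm Dp T k j (T (k + 1) j f)) := fun k j f => rfl
  have hfar : ∀ k i j (f : U k), i + 1 < k → j + 1 < k → (i + 2 ≤ j ∨ j + 2 ≤ i) →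
      T k i (T k j f) = T k j (T k i f) := by
    intro k i j f hi hj hij
    rcases hij with hij | hij
    · exact h.far k i j f hj hij
    · exact (h.far k j i f hi hij).symm
  have h0 : ∀ k i (f : U (k + 1)), i + 2 < k + 1 →
      T (k + 1) (i + 1) (Yo q Dm Dp T k 0 f) = Yo q Dm Dp T k 0 (T (k + 1) (i + 1) f) := by
    intro k i f hi
    have hc : (q - 1) • T (k + 1) (i + 1) (Yo q Dm Dp T k 0 f) =
        (q - 1) • Yo q Dm Dp T k 0 (T (k + 1) (i + 1) f) := by
      rw [← map_smul, ← c3 k f, ← c3 k (T (k + 1) (i + 1) f), map_sub,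
        ← c1 k i _ (by omega), ← h.dmT k i _ (by omega), ← h.dmT (k + 1) (i + 1) _ (by omega),
        hfar (k + 2) (i + 1 + 1) 0 _ (by omega) (by omega) (Or.inr (by omega)),
        ← c1 (k + 1) (i + 1) _ (by omega)]
    exact smul_right_injective _ (sub_ne_zero.mpr hq1) hc
  have hP : ∀ k j i (f : U (k + 1)), i + 1 < k + 1 → j < k + 1 → i ≠ j → i + 1 ≠ j →
      T (k + 1) i (Yo q Dm Dp T k j f) = Yo q Dm Dp T k j (T (k + 1) i f) := by
    intro k j
    induction j using Nat.strong_induction_on with
    | _ j ih =>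
      intro i f hi hj hij hij2
      rcases j with _ | j
      · rcases i with _ | i
        · exact absurd rfl hij
        · exact h0 k i f hi
      · by_cases hc : i + 1 = j
        · subst hc
          rw [hY, hY, hY, hY, map_smul, map_smul, map_smul,
            h.braid (k + 1) i _ (by omega), ih i (by omega) (i + 1) _ (by omega) (by omega) (by omega) (by omega),
            ← h.braid (k + 1) i _ (by omega), map_smul]
        · have hji : j + 2 ≤ i ∨ i + 2 ≤ j := by omega
          rw [hY, hY, map_smul, hfar (k + 1) i j _ (by omega) (by omega) hji.symm,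
            ih j (by omega) i _ (by omega) (by omega) (by omega) (by omega),
            hfar (k + 1) i j _ (by omega) (by omega) hji.symm]
  refine ⟨fun k i j f => hP k j i f, ?_, ?_⟩
  · intro k j f hj
    have e : T (k + 1) j (T (k + 1) j f + (q - 1) • f) = q • f := by
      rw [map_add, map_smul, h.quad (k + 1) j f hj]
      module
    rw [hY, e, map_smul, map_smul, smul_smul, inv_mul_cancel₀ hq, one_smul]
  · intro k j f hj
    rw [hY, map_smul, h.quad (k + 1) j _ hj, smul_add, smul_smul q⁻¹ q, inv_mul_cancel₀ hq, one_smul]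
    module

end Pool.VD.CM
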