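import Pool.Agent.VD.StCM

/-!
# MP_cf06d4_co, block CM, module A5: the commutator `C = Dm Dp - Dp Dm`
-/

set_option autoImplicit false

namespace Pool.VD.CM

namespace MA5

variable {K : Type} [Field K] {q : K} {U : ℕ → Type} [∀ k, AddCommGroup (U k)]
  [∀ k, Module K (U k)] {Dm : ∀ k, U (k + 1) →ₗ[K] U k} {Dp : ∀ k, U k →ₗ[K] U (k + 1)}
  {T : ∀ k, ℕ → (U k →ₗ[K] U k)} {C : ∀ k, U (k + 1) →ₗ[K] U (k + 1)}

private theorem c1 (h : IsAq q Dm Dp T)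
    (hC : ∀ k f, C k f = Dm (k + 1) (Dp (k + 1) f) - Dp k (Dm k f)) (k j : ℕ) (f : U (k + 1))
    (hj : j + 2 < k + 1) : C k (T (k + 1) (j + 1) f) = T (k + 1) j (C k f) := by
  rw [hC, hC, h.dpT (k + 1) (j + 1) f hj, h.dmT (k + 1) j _ (by omega), h.dmT k j f (by omega),
    h.dpT k j _ (by omega), map_sub]

private theorem c2 (h : IsAq q Dm Dp T)
    (hC : ∀ k f, C k f = Dm (k + 1) (Dp (k + 1) f) - Dp k (Dm k f)) (k : ℕ) (f : U (k + 2)) :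
    q • C k (Dm (k + 1) f) = Dm (k + 1) (C (k + 1) (T (k + 2) 0 f)) := by
  have h1 := h.sa k f
  have h2 : Dm (k + 1) (Dm (k + 2) (Dp (k + 2) (T (k + 2) 0 f))) =
      Dm (k + 1) (Dm (k + 2) (Dp (k + 2) f)) := by
    rw [h.dpT (k + 2) 0 f (by omega)]
    exact h.dm2 (k + 1) _
  rw [map_add, map_smul, map_add, map_smul, map_add, map_smul] at h1
  rw [hC k, hC (k + 1), map_sub, h2, smul_sub, eq_sub_iff_add_eq]
  rw [← sub_eq_iff_eq_add] at h1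
  rw [← h1]
  abel

private theorem c3 (h : IsAq q Dm Dp T)
    (hC : ∀ k f, C k f = Dm (k + 1) (Dp (k + 1) f) - Dp k (Dm k f)) (k : ℕ) (f : U (k + 1)) :
    T (k + 2) k (C (k + 1) (Dp (k + 1) f)) = q • Dp (k + 1) (C k f) := by
  have h1 := h.sb k f
  have h2 : T (k + 2) k (Dm (k + 2) (Dp (k + 2) (Dp (k + 1) f))) =
      Dm (k + 2) (Dp (k + 2) (Dp (k + 1) f)) := by
    rw [← h.dmT (k + 2) k _ (by omega), h.dp2 (k + 1) f]
  rw [hC k, hC (k + 1), map_sub, h2, map_sub, smul_sub, sub_eq_sub_iff_add_eq_add, h1]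
  abel

private theorem c4 (hq : q ≠ 0) (h : IsAq q Dm Dp T)
    (hC : ∀ k f, C k f = Dm (k + 1) (Dp (k + 1) f) - Dp k (Dm k f)) (k : ℕ) (f : U (k + 2)) :
    T (k + 2) k (C (k + 1) (C (k + 1) f)) = C (k + 1) (C (k + 1) (T (k + 2) 0 f)) := by
  have h1 : T (k + 2) k (C (k + 1) (Dm (k + 2) (Dp (k + 2) f))) =
      Dm (k + 2) (Dp (k + 2) (C (k + 1) (T (k + 2) 0 f))) := by
    have e1 := c2 h hC (k + 1) (Dp (k + 2) f)
    rw [← h.dpT (k + 2) 0 f (by omega)] at e1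
    have e2 : C (k + 1) (Dm (k + 2) (Dp (k + 2) f)) =
        q⁻¹ • Dm (k + 2) (C (k + 2) (Dp (k + 2) (T (k + 2) 0 f))) := by
      rw [← e1, smul_smul, inv_mul_cancel₀ hq, one_smul]
    rw [e2, map_smul, ← h.dmT (k + 2) k _ (by omega), c3 h hC (k + 1), map_smul, smul_smul,
      inv_mul_cancel₀ hq, one_smul]
  have h2 : T (k + 2) k (C (k + 1) (Dp (k + 1) (Dm (k + 1) f))) =
      Dp (k + 1) (Dm (k + 1) (C (k + 1) (T (k + 2) 0 f))) := by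
    rw [c3 h hC k, ← map_smul, c2 h hC k]
  rw [hC (k + 1) f, map_sub, map_sub, h1, h2]
  exact (hC (k + 1) _).symm

end MA5

open MA5 in
theorem pA5 : StA5 := by
  intro K _ q hq hq1 U _ _ Dm Dp T h C hC
  refine ⟨c1 h hC, c2 h hC, c3 h hC, c4 hq h hC, fun k f => ?_⟩
  have hq1' : q - 1 ≠ 0 := sub_ne_zero.2 hq1
  show (q - 1) • ((q - 1)⁻¹ • Qi q T (k + 1) k (Dp k (Dm k f) - Dm (k + 1) (Dp (k + 1) f))) = _
  rw [smul_smul, mul_inv_cancel₀ hq1', one_smul, hC, ← map_neg, neg_sub]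

end Pool.VD.CM
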