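import Pool.Agent.VD.StCM

/-!
# MP_cf06d4_co, block CM, module A6: `Dm y_(j+1) = y_j Dm`, `Io y_j = y_(j+1) Io`, the `y_j` commute
-/

set_option autoImplicit false

namespace Pool.VD.CM

open MvPolynomial Finset

namespace A6

variable {K : Type} [Field K] {q : K} {U : ℕ → Type} [∀ k, AddCommGroup (U k)] [∀ k, Module K (U k)]
  {Dm : ∀ k, U (k + 1) →ₗ[K] U k} {Dp : ∀ k, U k →ₗ[K] U (k + 1)} {T : ∀ k, ℕ → (U k →ₗ[K] U k)}

theorem Yo_succ (k j : ℕ) (f : U (k + 1)) : Yo q Dm Dp T k (j + 1) f =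
    q⁻¹ • T (k + 1) j (Yo q Dm Dp T k j (T (k + 1) j f)) := rfl

theorem Qi_succ (k m : ℕ) (f : U k) : Qi q T k (m + 1) f = Qi q T k m (Ti q T k m f) := rfl

theorem Qi_zero (k : ℕ) (f : U k) : Qi q T k 0 f = f := rfl

theorem Io_apply (k : ℕ) (f : U k) : Io q Dp T k f = Qi q T (k + 1) k (Dp k f) := rfl

end A6

open A6 in
theorem pA6 (hA1 : StA1) (hA2 : StA2) (hA3 : StA3) (hA4 : StA4) (hA5 : StA5) : StA6 := by
  intro K _ q hq hq1 U _ _ Dm Dp T hT
  have hqm : q - 1 ≠ 0 := sub_ne_zero.mpr hq1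
  obtain ⟨t1, t2, t3, t4, t5, t6, t7⟩ := hA1 K q hq U Dm Dp T hT
  obtain ⟨a1, a2, a3, a4, a5⟩ := hA2 K q hq U Dm Dp T hT
  obtain ⟨b1, b2, b3⟩ := hA3 K q hq hq1 U Dm Dp T hT
  obtain ⟨d1, d2, d3⟩ := hA4 K q hq hq1 U Dm Dp T hT
  let C : ∀ k, U (k + 1) →ₗ[K] U (k + 1) := fun k => Dm (k + 1) ∘ₗ Dp (k + 1) - Dp k ∘ₗ Dm k
  obtain ⟨c1, c2, c3, c4, c5⟩ := hA5 K q hq hq1 U Dm Dp T hT C (fun k f => rfl)
  -- C and the inverses
  have cTi : ∀ k j (f : U (k + 1)), j + 2 < k + 1 → C k (Ti q T (k + 1) (j + 1) f) = Ti q T (k + 1) j (C k f) := by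
    intro k j f hj
    have h : C k (T (k + 1) (j + 1) (Ti q T (k + 1) (j + 1) f)) = T (k + 1) j (C k (Ti q T (k + 1) (j + 1) f)) :=
      c1 k j _ hj
    rw [(t1 (k + 1) (j + 1) f (by omega)).1] at h
    rw [h, (t1 (k + 1) j _ (by omega)).2]
  have cQ : ∀ k m (g : U (k + 2)), m < k + 1 →
      C (k + 1) (T (k + 2) 0 (Qi q T (k + 2) (m + 1) g)) = Qi q T (k + 2) m (C (k + 1) g) := by
    intro k m
    induction m with
    | zero =>
      intro g _
      rw [Qi_succ, Qi_zero, Qi_zero, (t1 (k + 2) 0 g (by omega)).1]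
    | succ m ih =>
      intro g hm
      rw [Qi_succ, ih _ (by omega), cTi (k + 1) m g (by omega), ← Qi_succ]
  have p1 : ∀ k j (f : U (k + 2)), j < k + 1 →
      Dm (k + 1) (Yo q Dm Dp T (k + 1) (j + 1) f) = Yo q Dm Dp T k j (Dm (k + 1) f) := by
    intro k j
    induction j with
    | zero =>
      intro f _
      have h1 : (q - 1) • Dm (k + 1) (T (k + 2) 0 (Yo q Dm Dp T (k + 1) 0 (T (k + 2) 0 f))) =
          (q - 1) • (q • Yo q Dm Dp T k 0 (Dm (k + 1) f)) := by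
        rw [← map_smul, ← map_smul, c5 (k + 1), map_neg, map_neg, a3 (k + 1) k _ (by omega), ← c2 k f, map_smul,
          smul_comm (q - 1) q, c5 k, smul_neg]
      have h2 := smul_right_injective _ hqm h1

      rw [Yo_succ, map_smul, h2, smul_smul, inv_mul_cancel₀ hq, one_smul]
    | succ j ih =>
      intro f hj
      rw [Yo_succ, map_smul, hT.dmT (k + 1) j _ (by omega), ih _ (by omega), hT.dmT (k + 1) j _ (by omega), ← Yo_succ]
  have p2 : ∀ k j (f : U (k + 1)), j < k + 1 →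
      Io q Dp T (k + 1) (Yo q Dm Dp T k j f) = Yo q Dm Dp T (k + 1) (j + 1) (Io q Dp T (k + 1) f) := by
    intro k j
    induction j with
    | zero =>
      intro f _
      have hC : C (k + 1) (Dp (k + 1) f) = q • Ti q T (k + 2) k (Dp (k + 1) (C k f)) := by
        rw [← map_smul, ← c3 k f, (t1 (k + 2) k _ (by omega)).2]
      have h1 : (q - 1) • (q • Yo q Dm Dp T (k + 1) 1 (Io q Dp T (k + 1) f)) =
          (q - 1) • (q • Io q Dp T (k + 1) (Yo q Dm Dp T k 0 f)) := by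
        have e1 : q • Yo q Dm Dp T (k + 1) 1 (Io q Dp T (k + 1) f) =
            T (k + 2) 0 (Yo q Dm Dp T (k + 1) 0 (T (k + 2) 0 (Io q Dp T (k + 1) f))) := by
          rw [Yo_succ, smul_smul, mul_inv_cancel₀ hq, one_smul]
        rw [e1, ← map_smul, c5 (k + 1), Io_apply, cQ k k _ (by omega), hC, map_smul, map_smul, ← Qi_succ, map_neg,
          map_smul, a5 (k + 2) k _ (by omega), ← a4 (k + 1) k _ (by omega), smul_comm (q - 1) q, ← map_smul (Io q Dp T (k + 1)),
          c5 k, map_neg, smul_neg, Io_apply]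
      have h2 := smul_right_injective _ hqm h1
      have h3 := smul_right_injective _ hq h2
      exact h3.symm
    | succ j ih =>
      intro f hj
      rw [Yo_succ, map_smul, b1 (k + 1) j _ (by omega), ih _ (by omega), b1 (k + 1) j _ (by omega), ← Yo_succ]
  refine ⟨p1, p2, ?_⟩
  -- commutation
  have e01 : ∀ k (f : U (k + 2)), Yo q Dm Dp T (k + 1) 0 (Yo q Dm Dp T (k + 1) 1 f) =
      Yo q Dm Dp T (k + 1) 1 (Yo q Dm Dp T (k + 1) 0 f) := by
    intro k f
    have hQ : ∀ g : U (k + 2), Qi q T (k + 2) (k + 1) (Qi q T (k + 2) k (T (k + 2) k g)) =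
        T (k + 2) 0 (Qi q T (k + 2) (k + 1) (Qi q T (k + 2) k g)) := by
      intro g
      have h := a5 (k + 2) k (T (k + 2) k g) (by omega)
      rw [← h, Qi_succ k.succ.succ k (T (k + 2) k g), (t1 (k + 2) k g (by omega)).2]
    have hY : ∀ g : U (k + 2), (q - 1) • ((q - 1) • Yo q Dm Dp T (k + 1) 0 (T (k + 2) 0 (Yo q Dm Dp T (k + 1) 0 g))) =
        Qi q T (k + 2) (k + 1) (Qi q T (k + 2) k (C (k + 1) (C (k + 1) g))) := by
      intro g
      rw [c5 (k + 1), smul_neg, ← map_smul, ← map_smul, ← map_smul, c5 (k + 1) g, map_neg, map_neg, map_neg, neg_neg,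
        cQ k k _ (by omega)]
    rw [Yo_succ, Yo_succ, map_smul]
    congr 1
    have h1 : (q - 1) • ((q - 1) • Yo q Dm Dp T (k + 1) 0 (T (k + 2) 0 (Yo q Dm Dp T (k + 1) 0 (T (k + 2) 0 f)))) =
        (q - 1) • ((q - 1) • T (k + 2) 0 (Yo q Dm Dp T (k + 1) 0 (T (k + 2) 0 (Yo q Dm Dp T (k + 1) 0 f)))) := by
      rw [hY, ← c4 k f, hQ, ← hY, map_smul, map_smul]
    exact smul_right_injective _ hqm (smul_right_injective _ hqm h1)
  have e0 : ∀ k j (f : U (k + 1)), j + 1 < k + 1 → Yo q Dm Dp T k 0 (Yo q Dm Dp T k (j + 1) f) =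
      Yo q Dm Dp T k (j + 1) (Yo q Dm Dp T k 0 f) := by
    intro k j
    induction j with
    | zero =>
      intro f hk
      obtain ⟨k', rfl⟩ : ∃ k', k = k' + 1 := ⟨k - 1, by omega⟩
      exact e01 k' f
    | succ j ih =>
      intro f hj
      rw [Yo_succ k (j + 1), map_smul, ← d1 k (j + 1) 0 _ (by omega) (by omega) (by omega) (by omega), ih _ (by omega),
        ← d1 k (j + 1) 0 _ (by omega) (by omega) (by omega) (by omega), ← Yo_succ]
  have eij : ∀ k i j (f : U (k + 1)), i < j → j < k + 1 → Yo q Dm Dp T k i (Yo q Dm Dp T k j f) =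
      Yo q Dm Dp T k j (Yo q Dm Dp T k i f) := by
    intro k i
    induction i with
    | zero =>
      intro j f hj hk
      obtain ⟨j', rfl⟩ : ∃ j', j = j' + 1 := ⟨j - 1, by omega⟩
      exact e0 k j' f hk
    | succ i ih =>
      intro j f hij hj
      rw [Yo_succ k i, d1 k i j _ (by omega) (by omega) (by omega) (by omega), ih j _ (by omega) hj,
        d1 k i j _ (by omega) (by omega) (by omega) (by omega), ← map_smul, ← Yo_succ]
  intro k i j f hi hj
  rcases lt_trichotomy i j with h | h | h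
  · exact eij k i j f h hj
  · rw [h]
  · exact (eij k j i f h hi).symm

end Pool.VD.CM
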