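import Pool.Agent.VD.StCM

/-!
# MP_cf06d4_co, block CM, module A7: the operators `E_r`
-/

set_option autoImplicit false

namespace Pool.VD.CM

open MvPolynomial Finset

namespace A7

variable {K : Type} [Field K] {q : K} {U : ℕ → Type} [∀ k, AddCommGroup (U k)] [∀ k, Module K (U k)]
  {Dm : ∀ k, U (k + 1) →ₗ[K] U k} {Dp : ∀ k, U k →ₗ[K] U (k + 1)} {T : ∀ k, ℕ → (U k →ₗ[K] U k)}

theorem Eo_succ (k r : ℕ) (f : U k) : Eo q Dm Dp T k (r + 1) f =
    -(Dm k (((Yo q Dm Dp T k 0) ^ r) (Io q Dp T k f))) := rfl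

/-- powers and intertwining -/
theorem pow_comm {V W : Type} [AddCommGroup V] [Module K V] [AddCommGroup W] [Module K W]
    (A : V →ₗ[K] V) (B : W →ₗ[K] W) (L : V →ₗ[K] W) (h : ∀ f, L (A f) = B (L f)) (n : ℕ) (f : V) :
    L ((A ^ n) f) = (B ^ n) (L f) := by
  induction n with
  | zero => simp
  | succ n ih => rw [pow_succ', pow_succ', Module.End.mul_apply, Module.End.mul_apply, h, ih]

end A7

open A7 in
theorem pA7 (hA3 : StA3) (hA4 : StA4) (hA6 : StA6) : StA7 := by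
  intro K _ q hq hq1 U _ _ Dm Dp T hT
  obtain ⟨b1, b2, b3⟩ := hA3 K q hq hq1 U Dm Dp T hT
  obtain ⟨d1, d2, d3⟩ := hA4 K q hq hq1 U Dm Dp T hT
  obtain ⟨p1, p2, p3⟩ := hA6 K q hq hq1 U Dm Dp T hT
  have ioDm : ∀ k f, Io q Dp T k (Dm k f) = Dm (k + 1) (T (k + 2) 0 (Io q Dp T (k + 1) f)) +
      (q - 1) • Yo q Dm Dp T k 0 f := by
    intro k f; rw [← b3 k f]; abel
  -- powers
  have dmP : ∀ k n f, Dm (k + 1) (((Yo q Dm Dp T (k + 1) 1) ^ n) f) = ((Yo q Dm Dp T k 0) ^ n) (Dm (k + 1) f) :=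
    fun k n f => pow_comm _ _ (Dm (k + 1)) (fun g => p1 k 0 g (by omega)) n f
  have ioP : ∀ k n f, Io q Dp T (k + 1) (((Yo q Dm Dp T k 0) ^ n) f) =
      ((Yo q Dm Dp T (k + 1) 1) ^ n) (Io q Dp T (k + 1) f) :=
    fun k n f => pow_comm _ _ (Io q Dp T (k + 1)) (fun g => p2 k 0 g (by omega)) n f
  -- the two variables on U (k+2)
  have cYY : ∀ k n (f : U (k + 2)), Yo q Dm Dp T (k + 1) 0 (((Yo q Dm Dp T (k + 1) 1) ^ n) f) =
      ((Yo q Dm Dp T (k + 1) 1) ^ n) (Yo q Dm Dp T (k + 1) 0 f) :=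
    fun k n f => pow_comm _ _ (Yo q Dm Dp T (k + 1) 0) (fun g => p3 (k + 1) 0 1 g (by omega) (by omega)) n f
  have cYY' : ∀ k n m (f : U (k + 2)), ((Yo q Dm Dp T (k + 1) 0) ^ m) (((Yo q Dm Dp T (k + 1) 1) ^ n) f) =
      ((Yo q Dm Dp T (k + 1) 1) ^ n) (((Yo q Dm Dp T (k + 1) 0) ^ m) f) :=
    fun k n m f => pow_comm _ _ ((Yo q Dm Dp T (k + 1) 0) ^ m) (fun g => (pow_comm _ _ (Yo q Dm Dp T (k + 1) 1)
      (fun g => p3 (k + 1) 1 0 g (by omega) (by omega)) m g).symm) n f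
  have tY1 : ∀ k (f : U (k + 2)), T (k + 2) 0 (Yo q Dm Dp T (k + 1) 1 f) =
      Yo q Dm Dp T (k + 1) 0 (T (k + 2) 0 f) - (q - 1) • Yo q Dm Dp T (k + 1) 1 f :=
    fun k f => d3 (k + 1) 0 f (by omega)
  have tYY : ∀ k (f : U (k + 2)), T (k + 2) 0 (Yo q Dm Dp T (k + 1) 0 (Yo q Dm Dp T (k + 1) 1 f)) =
      Yo q Dm Dp T (k + 1) 0 (Yo q Dm Dp T (k + 1) 1 (T (k + 2) 0 f)) := by
    intro k f
    rw [d2 (k + 1) 0 _ (by omega), tY1, sub_add_cancel, p3 (k + 1) 1 0 _ (by omega) (by omega)]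
  have tYYP : ∀ k b (f : U (k + 2)), T (k + 2) 0 (((Yo q Dm Dp T (k + 1) 0) ^ b) (((Yo q Dm Dp T (k + 1) 1) ^ b) f)) =
      ((Yo q Dm Dp T (k + 1) 0) ^ b) (((Yo q Dm Dp T (k + 1) 1) ^ b) (T (k + 2) 0 f)) := by
    intro k b
    induction b with
    | zero => intro f; simp
    | succ b ih =>
      intro f
      have e : ∀ g, ((Yo q Dm Dp T (k + 1) 0) ^ (b + 1)) (((Yo q Dm Dp T (k + 1) 1) ^ (b + 1)) g) =
          Yo q Dm Dp T (k + 1) 0 (Yo q Dm Dp T (k + 1) 1 (((Yo q Dm Dp T (k + 1) 0) ^ b)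
            (((Yo q Dm Dp T (k + 1) 1) ^ b) g))) := by
        intro g
        rw [pow_succ' (Yo q Dm Dp T (k + 1) 0), pow_succ' (Yo q Dm Dp T (k + 1) 1), Module.End.mul_apply,
          Module.End.mul_apply]
        congr 1
        exact (pow_comm _ _ (Yo q Dm Dp T (k + 1) 1) (fun g => p3 (k + 1) 1 0 g (by omega) (by omega)) b _).symm
      rw [e, tYY, ih, ← e]
  -- Lemma X
  have lX : ∀ k (w : U (k + 2)), T (k + 2) 0 w = w → ∀ n b,
      T (k + 2) 0 (((Yo q Dm Dp T (k + 1) 1) ^ (b + n)) w) =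
      ((Yo q Dm Dp T (k + 1) 1) ^ n) (T (k + 2) 0 (((Yo q Dm Dp T (k + 1) 1) ^ b) w)) +
      ((Yo q Dm Dp T (k + 1) 0) ^ b) (T (k + 2) 0 (((Yo q Dm Dp T (k + 1) 1) ^ n) w)) -
      ((Yo q Dm Dp T (k + 1) 0) ^ b) (((Yo q Dm Dp T (k + 1) 1) ^ n) w) := by
    intro k w hw n b
    induction b with
    | zero => simp [hw]
    | succ b ih =>
      have e1 : b + 1 + n = (b + n) + 1 := by omega
      rw [e1, pow_succ' (Yo q Dm Dp T (k + 1) 1) (b + n), Module.End.mul_apply, tY1, ih,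
        pow_succ' (Yo q Dm Dp T (k + 1) 1) b, Module.End.mul_apply, tY1, map_sub, map_add,
        map_sub ((Yo q Dm Dp T (k + 1) 1) ^ n), ← cYY,
        pow_succ' (Yo q Dm Dp T (k + 1) 0) b, Module.End.mul_apply, Module.End.mul_apply, map_smul]
      have e2 : ((Yo q Dm Dp T (k + 1) 1) ^ n) (Yo q Dm Dp T (k + 1) 1 (((Yo q Dm Dp T (k + 1) 1) ^ b) w)) =
          Yo q Dm Dp T (k + 1) 1 (((Yo q Dm Dp T (k + 1) 1) ^ (b + n)) w) := by
        rw [← Module.End.mul_apply, ← Module.End.mul_apply, ← Module.End.mul_apply, ← pow_succ, ← pow_add, ← pow_succ']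
        congr 2
        omega
      rw [e2]
      abel
  -- T_0 y_1^n w
  have tYn : ∀ k (w : U (k + 2)), T (k + 2) 0 w = w → ∀ n,
      T (k + 2) 0 (((Yo q Dm Dp T (k + 1) 1) ^ n) w) = ((Yo q Dm Dp T (k + 1) 0) ^ n) w -
      (q - 1) • ∑ i ∈ range n, ((Yo q Dm Dp T (k + 1) 1) ^ (i + 1)) (((Yo q Dm Dp T (k + 1) 0) ^ (n - 1 - i)) w) := by
    intro k w hw n
    induction n with
    | zero => simp [hw]
    | succ n ih =>
      rw [pow_succ' (Yo q Dm Dp T (k + 1) 1) n, Module.End.mul_apply, tY1, ih, map_sub, map_smul, map_sum,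
        sum_range_succ, pow_succ' (Yo q Dm Dp T (k + 1) 0) n, Module.End.mul_apply]
      have e : ∀ i ∈ range n, Yo q Dm Dp T (k + 1) 0 (((Yo q Dm Dp T (k + 1) 1) ^ (i + 1))
          (((Yo q Dm Dp T (k + 1) 0) ^ (n - 1 - i)) w)) =
          ((Yo q Dm Dp T (k + 1) 1) ^ (i + 1)) (((Yo q Dm Dp T (k + 1) 0) ^ (n + 1 - 1 - i)) w) := by
        intro i hi
        have hi' := mem_range.mp hi
        rw [cYY, ← Module.End.mul_apply (Yo q Dm Dp T (k + 1) 0), ← pow_succ']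
        congr 3
        omega
      rw [sum_congr rfl e]
      have e3 : n + 1 - 1 - n = 0 := by omega
      rw [e3, pow_zero, Module.End.one_apply, pow_succ' (Yo q Dm Dp T (k + 1) 1) n, Module.End.mul_apply, smul_add]
      abel
  refine ⟨?_, ?_, ?_, ?_⟩
  · intro k r j f hj
    cases r with
    | zero => rfl
    | succ r =>
      rw [Eo_succ, Eo_succ, p2 k j f hj, map_neg, ← p1 k j _ hj]
      congr 2
      exact (pow_comm _ _ (Yo q Dm Dp T (k + 1) (j + 1)) (fun g => p3 (k + 1) (j + 1) 0 g (by omega) (by omega)) r _).symm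
  · intro k r j f hj
    cases r with
    | zero => rfl
    | succ r =>
      rw [Eo_succ, Eo_succ, b1 k j f hj, map_neg, ← hT.dmT k j _ hj]
      congr 2
      exact (pow_comm _ _ (T (k + 1) (j + 1)) (fun g => d1 k (j + 1) 0 g (by omega) (by omega) (by omega) (by omega)) r _).symm
  · -- E E
    have hEE : ∀ k a b (f : U k), Eo q Dm Dp T k (a + 1) (Eo q Dm Dp T k (b + 1) f) =
        Dm k (Dm (k + 1) (((Yo q Dm Dp T (k + 1) 1) ^ a) (T (k + 2) 0 (((Yo q Dm Dp T (k + 1) 1) ^ b)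
          (Io q Dp T (k + 1) (Io q Dp T k f)))))) +
        (q - 1) • Dm k (((Yo q Dm Dp T k 0) ^ (a + b + 1)) (Io q Dp T k f)) := by
      intro k a b f
      rw [Eo_succ, Eo_succ, map_neg, map_neg, map_neg, neg_neg, ioDm, map_add, map_add, ← dmP, ioP, map_smul, map_smul]
      congr 3
      rw [← Module.End.mul_apply, ← Module.End.mul_apply, ← pow_succ, ← pow_add]
      congr 2
      omega
    have hsym : ∀ k n b (f : U k), Eo q Dm Dp T k (b + n + 1) (Eo q Dm Dp T k (b + 1) f) =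
        Eo q Dm Dp T k (b + 1) (Eo q Dm Dp T k (b + n + 1) f) := by
      intro k n b f
      rw [hEE, hEE]
      have hw := b2 k f
      set w := Io q Dp T (k + 1) (Io q Dp T k f) with hwdef
      have e1 : b + n + b + 1 = b + (b + n) + 1 := by omega
      rw [e1]
      congr 1
      rw [lX k w hw n b, map_sub ((Yo q Dm Dp T (k + 1) 1) ^ b), map_add ((Yo q Dm Dp T (k + 1) 1) ^ b),
        map_sub (Dm (k + 1)), map_add (Dm (k + 1)), map_sub (Dm k), map_add (Dm k)]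
      have e2 : ((Yo q Dm Dp T (k + 1) 1) ^ b) (((Yo q Dm Dp T (k + 1) 1) ^ n)
          (T (k + 2) 0 (((Yo q Dm Dp T (k + 1) 1) ^ b) w))) =
          ((Yo q Dm Dp T (k + 1) 1) ^ (b + n)) (T (k + 2) 0 (((Yo q Dm Dp T (k + 1) 1) ^ b) w)) := by
        rw [← Module.End.mul_apply, ← pow_add]
      have e3 : Dm k (Dm (k + 1) (((Yo q Dm Dp T (k + 1) 1) ^ b) (((Yo q Dm Dp T (k + 1) 0) ^ b)
          (T (k + 2) 0 (((Yo q Dm Dp T (k + 1) 1) ^ n) w))))) =
          Dm k (Dm (k + 1) (((Yo q Dm Dp T (k + 1) 1) ^ b) (((Yo q Dm Dp T (k + 1) 0) ^ b)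
          (((Yo q Dm Dp T (k + 1) 1) ^ n) w)))) := by
        rw [← cYY', ← cYY', ← tYYP, hT.dm2]
      rw [e2, e3]
      abel
    intro k r s f
    cases r with
    | zero => rfl
    | succ r =>
      cases s with
      | zero => rfl
      | succ s =>
        rcases le_total r s with h | h
        · obtain ⟨n, rfl⟩ := Nat.exists_eq_add_of_le h
          exact (hsym k n r f).symm
        · obtain ⟨n, rfl⟩ := Nat.exists_eq_add_of_le h
          exact hsym k n s f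
  · -- Io E
    intro k r f
    cases r with
    | zero => simp [Eo, ka]
    | succ n =>
      have hw := b2 k f
      rw [Finset.Nat.sum_antidiagonal_eq_sum_range_succ (fun i j => ka q i • ((Yo q Dm Dp T k 0) ^ i)
        (Eo q Dm Dp T (k + 1) j (Io q Dp T k f))) (n + 1), sum_range_succ', Eo_succ, map_neg, ioDm, ioP, tYn k _ hw n,
        map_sub, map_smul, map_sum]
      have e1 : ∀ i ∈ range n, Dm (k + 1) (((Yo q Dm Dp T (k + 1) 1) ^ (i + 1)) (((Yo q Dm Dp T (k + 1) 0) ^ (n - 1 - i))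
          (Io q Dp T (k + 1) (Io q Dp T k f)))) =
          -((Yo q Dm Dp T k 0) ^ (i + 1)) (Eo q Dm Dp T (k + 1) (n - i) (Io q Dp T k f)) := by
        intro i hi
        have hi' := mem_range.mp hi
        have e2 : n - i = (n - 1 - i) + 1 := by omega
        rw [dmP, e2, Eo_succ, map_neg, neg_neg]
      rw [sum_congr rfl e1, sum_neg_distrib, sum_range_succ]
      have e3 : ∀ i ∈ range n, ka q (i + 1) • ((Yo q Dm Dp T k 0) ^ (i + 1))
          (Eo q Dm Dp T (k + 1) (n + 1 - (i + 1)) (Io q Dp T k f)) =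
          (1 - q) • ((Yo q Dm Dp T k 0) ^ (i + 1)) (Eo q Dm Dp T (k + 1) (n - i) (Io q Dp T k f)) := by
        intro i hi
        have e2 : n + 1 - (i + 1) = n - i := by omega
        rw [e2]; rfl
      rw [sum_congr rfl e3, ← smul_sum]
      have e4 : n + 1 - (n + 1) = 0 := by omega
      rw [e4]
      simp only [ka, Nat.sub_zero, pow_zero, Module.End.one_apply, one_smul, Eo_succ k.succ n]
      have e5 : Eo q Dm Dp T (k + 1) 0 (Io q Dp T k f) = Io q Dp T k f := rfl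
      rw [e5, ← Module.End.mul_apply (Yo q Dm Dp T k 0), ← pow_succ']
      module

end Pool.VD.CM
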