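import Pool.Agent.VD.StCM

/-!
# MP_cf06d4_co, block CM, module A8: functional calculus with commuting operators
-/

set_option autoImplicit false

namespace Pool.VD.CM.A8

open MvPolynomial Finset

theorem aux (K : Type) [Field K] (W : Type) [AddCommGroup W] [Module K W] (P Y : ℕ → Module.End K W)
    (hPP : ∀ i j, P i * P j = P j * P i) (hPY : ∀ i j, P i * Y j = Y j * P i)
    (hYY : ∀ i j, Y i * Y j = Y j * Y i) :
    ∃ Ψ : Ry K →ₐ[K] Module.End K W, (∀ i, Ψ (C (X i)) = P i) ∧ ∀ j, Ψ (X j) = Y j := by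
  have hcomm : ∀ a ∈ (Set.range P ∪ Set.range Y), ∀ b ∈ (Set.range P ∪ Set.range Y), a * b = b * a := by
    rintro a (⟨i, rfl⟩ | ⟨i, rfl⟩) b (⟨j, rfl⟩ | ⟨j, rfl⟩)
    · exact hPP i j
    · exact hPY i j
    · exact (hPY j i).symm
    · exact hYY i j
  letI : CommRing (Algebra.adjoin K (Set.range P ∪ Set.range Y)) :=
    Algebra.adjoinCommRingOfComm K hcomm
  have hP : ∀ i, P i ∈ Algebra.adjoin K (Set.range P ∪ Set.range Y) := fun i =>
    Algebra.subset_adjoin (Or.inl ⟨i, rfl⟩)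
  have hY : ∀ i, Y i ∈ Algebra.adjoin K (Set.range P ∪ Set.range Y) := fun i =>
    Algebra.subset_adjoin (Or.inr ⟨i, rfl⟩)
  let f : Lam K →ₐ[K] (Algebra.adjoin K (Set.range P ∪ Set.range Y)) :=
    aeval (fun i => (⟨P i, hP i⟩ : Algebra.adjoin K (Set.range P ∪ Set.range Y)))
  let g : Ry K →ₐ[K] (Algebra.adjoin K (Set.range P ∪ Set.range Y)) :=
    aevalTower f (fun j => (⟨Y j, hY j⟩ : Algebra.adjoin K (Set.range P ∪ Set.range Y)))
  refine ⟨(Algebra.adjoin K (Set.range P ∪ Set.range Y)).val.comp g, ?_, ?_⟩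
  · intro i
    have h1 : g (C (X i)) = (⟨P i, hP i⟩ : Algebra.adjoin K (Set.range P ∪ Set.range Y)) := by
      show aevalTower f _ (C (X i)) = _
      rw [aevalTower_C]
      show aeval _ (X i) = _
      rw [aeval_X]
    show (Algebra.adjoin K (Set.range P ∪ Set.range Y)).val (g (C (X i))) = P i
    rw [h1]
    rfl
  · intro j
    have h1 : g (X j) = (⟨Y j, hY j⟩ : Algebra.adjoin K (Set.range P ∪ Set.range Y)) := by
      show aevalTower f _ (X j) = _
      rw [aevalTower_X]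
    show (Algebra.adjoin K (Set.range P ∪ Set.range Y)).val (g (X j)) = Y j
    rw [h1]
    rfl

end Pool.VD.CM.A8

namespace Pool.VD.CM

theorem pA8 : StA8 := fun K _ W _ _ P Y h1 h2 h3 => A8.aux K W P Y h1 h2 h3

end Pool.VD.CM
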