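import Pool.Agent.VD.StCM

set_option autoImplicit false

/-!
# Block CM, module A9: power sums from `ε`
-/

namespace Pool.VD.CM

open MvPolynomial Finset

namespace A9

section

variable {K : Type} [Field K] {W : Type} [AddCommGroup W] [Module K W]

/-- the operators `P n` -/
noncomputable def P (E : ℕ → Module.End K W) (n : ℕ) : Module.End K W :=
  -((((n : K) + 1) • E (n + 1)) + ∑ i : Fin n, P E i.1 * E (n - i.1))
termination_by n
decreasing_by exact i.2

theorem P_eq (E : ℕ → Module.End K W) (n : ℕ) :
    P E n = -((((n : K) + 1) • E (n + 1)) + ∑ i ∈ range n, P E i * E (n - i)) := by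
  rw [P, Finset.sum_range (fun i => P E i * E (n - i))]

theorem P_comm (E : ℕ → Module.End K W) (A : Module.End K W) (hA : ∀ r, A * E r = E r * A) :
    ∀ i, A * P E i = P E i * A := by
  intro i
  induction i using Nat.strong_induction_on with
  | _ n ih =>
    rw [P_eq, mul_neg, neg_mul, mul_add, add_mul, mul_smul_comm, smul_mul_assoc, hA, mul_sum,
      sum_mul]
    congr 2
    apply sum_congr rfl
    intro i hi
    rw [← mul_assoc, ih i (mem_range.1 hi), mul_assoc, hA, mul_assoc]

end

end A9

theorem pA9 : StA9 := by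
  intro K _ _ W _ _ E hE0 _
  refine ⟨A9.P E, ?_, fun A hA => A9.P_comm E A hA⟩
  intro n
  rw [Finset.Nat.sum_antidiagonal_eq_sum_range_succ (fun i j => A9.P E i * E j), sum_range_succ,
    Nat.sub_self, hE0, mul_one, neg_add_rev, A9.P_eq E n]
  abel

end Pool.VD.CM
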