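import Pool.Agent.VD.StCM
import Pool.Agent.VD.CM_D

/-!
# Block CM: modules C1, C2, C3
-/

set_option autoImplicit false
set_option linter.unusedSectionVars false

namespace Pool.VD.CM

open MvPolynomial Finset

theorem C1_sw_C {K : Type} [Field K] (j : ℕ) (a : Lam K) : sw K j (C a) = C a := by
  simp [sw]

theorem C1_sw_X {K : Type} [Field K] (j v : ℕ) : sw K j (X v) = X (Equiv.swap j (j + 1) v) := by
  simp [sw]

/-- `sw` as a `K`-algebra map -/
noncomputable def C1_swK (K : Type) [Field K] (j : ℕ) : Ry K →ₐ[K] Ry K := (sw K j).restrictScalars K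

theorem C1_swK_apply {K : Type} [Field K] (j : ℕ) (F : Ry K) : C1_swK K j F = sw K j F := rfl

theorem C1_swap_succ (j v : ℕ) : Equiv.swap (j + 1) (j + 1 + 1) (v + 1) = Equiv.swap j (j + 1) v + 1 := by
  by_cases h1 : v = j
  · subst h1; simp
  · by_cases h2 : v = j + 1
    · subst h2; simp
    · rw [Equiv.swap_apply_of_ne_of_ne h1 h2, Equiv.swap_apply_of_ne_of_ne (by omega) (by omega)]

theorem pC1 : StC1 := by
  intro K _ _ q t
  refine ⟨th_io q, th_X0 q, th_Xs q, sg_io q t, ?_, ?_, ?_, ?_, ?_, io_X q, ?_⟩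
  · intro j G
    have h : (io q).comp (C1_swK K j) = (C1_swK K (j + 1)).comp (io q) := by
      refine Ry_algHom_ext _ _ (fun i => ?_) (fun v => ?_)
      · simp only [AlgHom.comp_apply, C1_swK_apply, C1_sw_C, io_p, map_add, map_mul, map_pow,
          C1_sw_X]
        rw [Equiv.swap_apply_of_ne_of_ne (by omega) (by omega)]
      · simp only [AlgHom.comp_apply, C1_swK_apply, C1_sw_X, io_X, C1_swap_succ]
    exact AlgHom.congr_fun h G
  · intro G
    have h : ((C1_swK K 0).comp (io q)).comp (io q) = (io q).comp (io q) := by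
      refine Ry_algHom_ext _ _ (fun i => ?_) (fun v => ?_)
      · simp only [AlgHom.comp_apply, C1_swK_apply, C1_sw_C, io_p, map_add, map_mul, map_pow,
          C1_sw_X, io_X, io_CC]
        simp only [zero_add, Equiv.swap_apply_left, Equiv.swap_apply_right]
        ring
      · simp only [AlgHom.comp_apply, C1_swK_apply, C1_sw_X, io_X]
        rw [Equiv.swap_apply_of_ne_of_ne (by omega) (by omega)]
    exact AlgHom.congr_fun h G
  · intro k j G hjk
    have h : (sg q t k).comp (C1_swK K j) = (C1_swK K j).comp (sg q t k) := by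
      refine Ry_algHom_ext _ _ (fun i => ?_) (fun v => ?_)
      · simp only [AlgHom.comp_apply, C1_swK_apply, C1_sw_C, sg_p, map_add, map_mul, map_pow,
          C1_sw_X]
        rw [Equiv.swap_apply_of_ne_of_ne (by omega) (by omega)]
      · simp only [AlgHom.comp_apply, C1_swK_apply, C1_sw_X]
        by_cases hv : v < k
        · rw [sg_X_lt q t hv, C1_sw_X, sg_X_lt]
          by_cases h1 : v = j
          · rw [h1, Equiv.swap_apply_left]; omega
          · by_cases h2 : v = j + 1
            · rw [h2, Equiv.swap_apply_right]; omega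
            · rw [Equiv.swap_apply_of_ne_of_ne h1 h2]; exact hv
        · rw [Equiv.swap_apply_of_ne_of_ne (by omega) (by omega), sg_X_ge q t (not_lt.1 hv),
            C1_sw_X, Equiv.swap_apply_of_ne_of_ne (by omega) (by omega)]
    exact AlgHom.congr_fun h G
  · intro k G
    have h : ((C1_swK K k).comp (sg q t (k + 1))).comp (sg q t k) =
        (sg q t (k + 1)).comp (sg q t k) := by
      refine Ry_algHom_ext _ _ (fun i => ?_) (fun v => ?_)
      · simp only [AlgHom.comp_apply, C1_swK_apply, sg_p, map_add, map_mul, map_pow, sg_CC,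
          sg_X_lt q t (Nat.lt_succ_self k), C1_sw_C, C1_sw_X, Equiv.swap_apply_left,
          Equiv.swap_apply_right]
        ring
      · simp only [AlgHom.comp_apply, C1_swK_apply]
        by_cases hv : v < k
        · rw [sg_X_lt q t hv, sg_X_lt q t (by omega), C1_sw_X,
            Equiv.swap_apply_of_ne_of_ne (by omega) (by omega)]
        · rw [sg_X_ge q t (not_lt.1 hv), sg_X_ge q t (by omega), C1_sw_X,
            Equiv.swap_apply_of_ne_of_ne (by omega) (by omega)]
    exact AlgHom.congr_fun h G
  · intro j G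
    have h : (C1_swK K j).comp (C1_swK K j) = AlgHom.id K (Ry K) := by
      refine Ry_algHom_ext _ _ (fun i => ?_) (fun v => ?_)
      · simp only [AlgHom.comp_apply, C1_swK_apply, C1_sw_C, AlgHom.id_apply]
      · simp only [AlgHom.comp_apply, C1_swK_apply, C1_sw_X, AlgHom.id_apply,
          Equiv.swap_apply_self]
    exact AlgHom.congr_fun h G
  · intro k j
    split_ifs with h
    · exact sg_X_lt q t h
    · exact sg_X_ge q t (not_lt.1 h)

theorem pC2 : StC2 := by
  intro K _ _ q
  refine ⟨dmi_io_mul q, dmi_pow q, dmi_Xs_mul q, fun G => ?_⟩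
  have h := dmi_io_mul q G 1
  rw [mul_one, dmi_one] at h
  rw [h, Ep, Hs_one, C_neg']
  ring

theorem pC3 : StC3 := by
  intro K _ _ q S
  have key : (∀ (G : Ry K) (a : ℕ), io q G * X 0 ^ a ∈ S) → ∀ F, F ∈ S := by
    intro h F
    exact io_induction q (P := fun F => F ∈ S) S.zero_mem (fun F G hF hG => S.add_mem hF hG) h F
  refine ⟨key, fun h => key fun G a => ?_⟩
  refine io_induction q (P := fun G => io q G * X 0 ^ a ∈ S) ?_ ?_ ?_ G
  · show io q 0 * X 0 ^ a ∈ S
    rw [map_zero, zero_mul]
    exact S.zero_mem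
  · intro F G hF hG
    show io q (F + G) * X 0 ^ a ∈ S
    rw [map_add, add_mul]
    exact S.add_mem hF hG
  · intro G b
    show io q (io q G * X 0 ^ b) * X 0 ^ a ∈ S
    rw [map_mul, map_pow, io_X, mul_assoc]
    exact h G a b

end Pool.VD.CM
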