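import Pool.Agent.VD.StCM

/-!
# MP_cf06d4_co, block CM: StC4 (basic facts on `T_j`)
-/

set_option autoImplicit false

namespace Pool.VD.CM

open MvPolynomial

namespace T3

section

variable {K : Type} [Field K]

theorem sw_C (j : ℕ) (a : Lam K) : sw K j (C a) = C a := by simp [sw]

theorem sw_X (j v : ℕ) : sw K j (X v) = X (Equiv.swap j (j + 1) v) := by simp [sw]

theorem sw_X0 (j : ℕ) : sw K j (X j) = X (j + 1) := by simp [sw]

theorem sw_X1 (j : ℕ) : sw K j (X (j + 1)) = X j := by simp [sw]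

theorem sw_Xo (j v : ℕ) (h0 : v ≠ j) (h1 : v ≠ j + 1) : sw K j (X v) = X v := by
  rw [sw_X, Equiv.swap_apply_of_ne_of_ne h0 h1]

theorem sw_smul (j : ℕ) (c : K) (F : Ry K) : sw K j (c • F) = c • sw K j F := by
  rw [smulK, smulK, map_mul, sw_C]

theorem sw_sw (j : ℕ) (F : Ry K) : sw K j (sw K j F) = F := by
  have h : (sw K j).comp (sw K j) = AlgHom.id (Lam K) (Ry K) := by
    refine MvPolynomial.algHom_ext fun v => ?_
    simp [sw]
  exact congrArg (fun f => f F) h

theorem dd_sym_mul (j : ℕ) (S F : Ry K) (hS : sw K j S = S) : dd j (S * F) = S * dd j F := by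
  apply dd_unique
  rw [map_mul, hS]
  linear_combination S * dd_spec j F

theorem dd_sym (j : ℕ) (F : Ry K) (hF : sw K j F = F) : dd j F = 0 := by
  apply dd_unique
  rw [hF, sub_self, mul_zero]

theorem sw_dd (j : ℕ) (F : Ry K) : sw K j (dd j F) = dd j F := by
  symm
  apply dd_unique
  have h := congrArg (sw K j) (dd_spec j F)
  rw [map_sub, sw_sw, map_mul, map_sub, sw_X0, sw_X1] at h
  linear_combination -h

theorem Th_apply (q : K) (j : ℕ) (F : Ry K) :
    Th q j F = sw K j F + C (C (q - 1)) * X (j + 1) * dd j F := rfl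

theorem Th_key (q : K) (j : ℕ) (F : Ry K) :
    (X j - X (j + 1)) * Th q j F =
      C (C (q - 1)) * X (j + 1) * F + (X j - C (C q) * X (j + 1)) * sw K j F := by
  have h := dd_spec j F
  rw [Th_apply]
  simp only [map_sub, map_one] at *
  linear_combination (-(C (C q) - 1) * X (j + 1)) * h

theorem Th_eq {q : K} {j : ℕ} {F G : Ry K}
    (h : (X j - X (j + 1)) * G =
      C (C (q - 1)) * X (j + 1) * F + (X j - C (C q) * X (j + 1)) * sw K j F) :
    Th q j F = G :=
  mul_left_cancel₀ (Xj_ne j) ((Th_key q j F).trans h.symm)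

theorem Th_sym_mul (q : K) (j : ℕ) (S F : Ry K) (hS : sw K j S = S) :
    Th q j (S * F) = S * Th q j F := by
  rw [Th_apply, Th_apply, map_mul, hS, dd_sym_mul j S F hS]
  ring

theorem Th_sym (q : K) (j : ℕ) (F : Ry K) (hF : sw K j F = F) : Th q j F = F := by
  rw [Th_apply, hF, dd_sym j F hF, mul_zero, add_zero]

theorem Th_X0 (q : K) (j : ℕ) (F : Ry K) :
    Th q j (X j * F) = X (j + 1) * Th q j F + C (C q) * (X (j + 1) * F) - X (j + 1) * F := by
  apply Th_eq
  have h := Th_key q j F
  rw [map_mul, sw_X0]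
  simp only [map_sub, map_one] at *
  linear_combination X (j + 1) * h

theorem Th_X1 (q : K) (j : ℕ) (F : Ry K) :
    Th q j (X (j + 1) * F) = X j * Th q j F - C (C q) * (X (j + 1) * F) + X (j + 1) * F := by
  apply Th_eq
  have h := Th_key q j F
  rw [map_mul, sw_X1]
  simp only [map_sub, map_one] at *
  linear_combination X j * h

theorem Th_Xo (q : K) (j v : ℕ) (h0 : v ≠ j) (h1 : v ≠ j + 1) (F : Ry K) :
    Th q j (X v * F) = X v * Th q j F :=
  Th_sym_mul q j _ _ (sw_Xo j v h0 h1)

theorem Th_Q (q c : K) (j : ℕ) (F : Ry K) :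
    Th q j (C (C c) * F) = C (C c) * Th q j F := Th_sym_mul q j _ _ (sw_C j _)

/-- the quadratic relation -/
theorem Th_quad (q : K) (j : ℕ) (F : Ry K) :
    Th q j (Th q j F) = Th q j F - C (C q) * Th q j F + C (C q) * F := by
  induction F using MvPolynomial.induction_on with
  | C a =>
    rw [Th_sym q j _ (sw_C j a), Th_sym q j _ (sw_C j a)]
    ring
  | add F G hF hG => simp only [map_add, hF, hG]; ring
  | mul_X F v hF =>
    rw [mul_comm F (X v)]
    by_cases h0 : v = j
    · subst h0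
      simp only [Th_X0, Th_X1, map_add, map_sub, Th_Q, hF]
      ring
    · by_cases h1 : v = j + 1
      · subst h1
        simp only [Th_X0, Th_X1, map_add, map_sub, Th_Q, hF]
        ring
      · rw [Th_Xo q j v h0 h1, Th_Xo q j v h0 h1, hF]
        ring

theorem Thi_apply (q : K) (j : ℕ) (F : Ry K) :
    Thi q j F = q⁻¹ • (Th q j F + (q - 1) • F) := rfl

theorem Th_quad' (q : K) (j : ℕ) (F : Ry K) :
    Th q j (Th q j F) = (1 - q) • Th q j F + q • F := by
  rw [Th_quad, smulK, smulK, map_sub, map_sub, map_one, map_one]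
  ring

theorem Th_Thi {q : K} (hq : q ≠ 0) (j : ℕ) (F : Ry K) : Th q j (Thi q j F) = F := by
  rw [Thi_apply, map_smul, map_add, map_smul, Th_quad']
  have e : (q⁻¹ : K) * q = 1 := inv_mul_cancel₀ hq
  have h : (1 - q) • Th q j F + q • F + (q - 1) • Th q j F = q • F := by module
  rw [h, smul_smul, e, one_smul]

theorem Thi_Th {q : K} (hq : q ≠ 0) (j : ℕ) (F : Ry K) : Thi q j (Th q j F) = F := by
  rw [Thi_apply, Th_quad']
  have e : (q⁻¹ : K) * q = 1 := inv_mul_cancel₀ hq
  have h : (1 - q) • Th q j F + q • F + (q - 1) • Th q j F = q • F := by module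
  rw [h, smul_smul, e, one_smul]

end

end T3

open T3 in
theorem pC4 : StC4 := by
  intro K _ _ q j F
  refine ⟨Th_key q j F, fun G hG => Th_sym_mul q j G F hG, Th_sym q j F, ?_, Th_quad' q j F, ?_, ?_,
    fun i h0 h1 => Th_Xo q j i h0 h1 F, fun hq => ⟨Thi_Th hq j F, Th_Thi hq j F⟩, ?_, sw_dd j F⟩
  · -- symmetry of T F + q F
    apply mul_left_cancel₀ (Xj_ne (K := K) j)
    have h := Th_key q j F
    have h2 := congrArg (sw K j) h
    simp only [map_add, map_mul, map_sub, map_one, sw_X0, sw_X1, sw_sw, sw_C] at h h2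
    rw [map_add, smulK, map_mul, sw_C]
    linear_combination -h - h2
  · rw [Th_X0, smulK, map_sub, map_sub, map_one, map_one]
    ring
  · rw [Th_X1, smulK, map_sub, map_sub, map_one, map_one]
    ring
  · rw [Th_apply]
    have h := dd_spec j F
    simp only [map_sub, map_one] at *
    linear_combination -h

end Pool.VD.CM
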