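import Pool.Agent.VD.M_CMC4

/-!
# MP_cf06d4_co, block CM: StC5 (braid relation and far commutation)
-/

set_option autoImplicit false

namespace Pool.VD.CM

open MvPolynomial

namespace T3

section

variable {K : Type} [Field K]

/-- far commutation -/
theorem Th_far (q : K) (i j : ℕ) (h : i + 2 ≤ j) (F : Ry K) :
    Th q i (Th q j F) = Th q j (Th q i F) := by
  have Ti0 := Th_X0 q i
  have Ti1 := Th_X1 q i
  have Tj0 := Th_X0 q j
  have Tj1 := Th_X1 q j
  have ci := Th_Q q q i
  have cj := Th_Q q q j
  have i0 : ∀ G : Ry K, Th q i (X j * G) = X j * Th q i G :=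
    fun G => Th_Xo q i _ (by omega) (by omega) G
  have i1 : ∀ G : Ry K, Th q i (X (j + 1) * G) = X (j + 1) * Th q i G :=
    fun G => Th_Xo q i _ (by omega) (by omega) G
  have j0 : ∀ G : Ry K, Th q j (X i * G) = X i * Th q j G :=
    fun G => Th_Xo q j _ (by omega) (by omega) G
  have j1 : ∀ G : Ry K, Th q j (X (i + 1) * G) = X (i + 1) * Th q j G :=
    fun G => Th_Xo q j _ (by omega) (by omega) G
  induction F using MvPolynomial.induction_on with
  | C a => simp only [Th_sym q _ _ (sw_C _ a)]
  | add F G hF hG => simp only [map_add, hF, hG]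
  | mul_X F v hF =>
    rw [mul_comm F (X v)]
    by_cases h0 : v = i
    · subst h0
      simp only [Ti0, Ti1, j0, j1, map_add, map_sub, ci, cj, hF]
    · by_cases h1 : v = i + 1
      · subst h1
        simp only [Ti0, Ti1, j0, j1, map_add, map_sub, ci, cj, hF]
      · by_cases h2 : v = j
        · subst h2
          simp only [Tj0, Tj1, i0, i1, map_add, map_sub, ci, cj, hF]
        · by_cases h3 : v = j + 1
          · subst h3
            simp only [Tj0, Tj1, i0, i1, map_add, map_sub, ci, cj, hF]
          · have d0 : ∀ G : Ry K, Th q i (X v * G) = X v * Th q i G := fun G => Th_Xo q i _ h0 h1 G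
            have d1 : ∀ G : Ry K, Th q j (X v * G) = X v * Th q j G := fun G => Th_Xo q j _ h2 h3 G
            simp only [d0, d1, hF]

/-- braid relation -/
theorem Th_braid (q : K) (j : ℕ) (F : Ry K) :
    Th q j (Th q (j + 1) (Th q j F)) = Th q (j + 1) (Th q j (Th q (j + 1) F)) := by
  have hq0 := Th_quad q j
  have hq1 := Th_quad q (j + 1)
  have a00 := Th_X0 q j
  have a01 := Th_X1 q j
  have a10 := Th_X0 q (j + 1)
  have a11 := Th_X1 q (j + 1)
  have b0 : ∀ G : Ry K, Th q j (X (j + 1 + 1) * G) = X (j + 1 + 1) * Th q j G :=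
    fun G => Th_Xo q j _ (by omega) (by omega) G
  have b1 : ∀ G : Ry K, Th q (j + 1) (X j * G) = X j * Th q (j + 1) G :=
    fun G => Th_Xo q (j + 1) _ (by omega) (by omega) G
  have c0 := Th_Q q q j
  have c1 := Th_Q q q (j + 1)
  induction F using MvPolynomial.induction_on with
  | C a => simp only [Th_sym q _ _ (sw_C _ a)]
  | add F G hF hG => simp only [map_add, hF, hG]
  | mul_X F v hF =>
    rw [mul_comm F (X v)]
    by_cases h0 : v = j
    · subst h0
      simp only [a00, a01, a10, a11, b0, b1, map_add, map_sub, hq0, hq1, c0, c1]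
      linear_combination X (v + 1 + 1) * hF
    · by_cases h1 : v = j + 1
      · subst h1
        simp only [a00, a01, a10, a11, b0, b1, map_add, map_sub, hq0, hq1, c0, c1]
        linear_combination X (j + 1) * hF
      · by_cases h2 : v = j + 1 + 1
        · subst h2
          simp only [a00, a01, a10, a11, b0, b1, map_add, map_sub, hq0, hq1, c0, c1]
          linear_combination X j * hF
        · have d0 : ∀ G : Ry K, Th q j (X v * G) = X v * Th q j G :=
            fun G => Th_Xo q j _ h0 h1 G
          have d1 : ∀ G : Ry K, Th q (j + 1) (X v * G) = X v * Th q (j + 1) G :=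
            fun G => Th_Xo q (j + 1) _ h1 h2 G
          simp only [d0, d1, hF]

end

end T3

theorem pC5 : StC5 := by
  intro K _ _ q F
  exact ⟨fun j => T3.Th_braid q j F, fun i j h => T3.Th_far q i j h F⟩

end Pool.VD.CM
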