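import Pool.Agent.VD.M_CMC4

/-!
# MP_cf06d4_co, block CM: StC6 (intertwining of `T_j` with `io`, `sg`, `dmi`)
-/

set_option autoImplicit false

namespace Pool.VD.CM

open MvPolynomial

namespace T3

section

variable {K : Type} [Field K]

/-- intertwining with a linear map that commutes with `s_j` and multiplication by `y_j`, `y_(j+1)` -/
theorem Th_lin (q : K) (i j : ℕ) (g : Ry K →ₗ[K] Ry K)
    (hg : ∀ F, g (sw K i F) = sw K j (g F)) (h0 : ∀ F, g (X i * F) = X j * g F)
    (h1 : ∀ F, g (X (i + 1) * F) = X (j + 1) * g F)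
    (F : Ry K) : g (Th q i F) = Th q j (g F) := by
  symm
  apply Th_eq
  have h := congrArg g (Th_key q i F)
  have e1 : (X i - X (i + 1)) * Th q i F = X i * Th q i F - X (i + 1) * Th q i F := by ring
  have e2 : C (C (q - 1)) * X (i + 1) * F + (X i - C (C q) * X (i + 1)) * sw K i F =
      (q - 1) • (X (i + 1) * F) + X i * sw K i F - q • (X (i + 1) * sw K i F) := by
    rw [smulK, smulK]; ring
  rw [e1, e2, map_sub, map_sub, map_add, map_smul, map_smul, h0, h1, h1, h0, h1, hg] at h
  rw [sub_mul, h, smulK, smulK]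
  ring

end

end T3

open T3 in
theorem pC6 (hC1 : StC1) (hC2 : StC2) (hC3 : StC3) : StC6 := by
  intro K _ _ q t F
  obtain ⟨-, -, -, hsgio, hiosw, hioio, hsgsw, hsgsg, -, hioX, hsgX⟩ := hC1 K q t
  obtain ⟨hdm, -, hdmX, -⟩ := hC2 K q
  refine ⟨fun j => ?_, fun k j hj => ?_, fun k => ?_, ?_, fun j => ?_⟩
  · symm
    refine Th_lin q j (j + 1) (io q).toLinearMap (fun F => hiosw j F) (fun F => ?_) (fun F => ?_) F
    · change io q (X j * F) = _
      rw [map_mul, hioX]; rfl
    · change io q (X (j + 1) * F) = _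
      rw [map_mul, hioX]; rfl
  · refine Th_lin q j j (sg q t k).toLinearMap (fun F => hsgsw k j F hj) (fun F => ?_) (fun F => ?_) F
    · change sg q t k (X j * F) = _
      rw [map_mul, hsgX, if_pos (by omega)]; rfl
    · change sg q t k (X (j + 1) * F) = _
      rw [map_mul, hsgX, if_pos (by omega)]; rfl
  · exact Th_sym q k _ (hsgsg k F)
  · exact Th_sym q 0 _ (hioio F)
  · refine Th_lin q (j + 1) j (dmi q) (fun F => ?_) (fun F => hdmX j F) (fun F => hdmX (j + 1) F) F
    let S : AddSubgroup (Ry K) :=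
      { carrier := {F | dmi q (sw K (j + 1) F) = sw K j (dmi q F)}
        zero_mem' := by simp
        add_mem' := by
          intro a b ha hb
          simp only [Set.mem_setOf_eq] at *
          rw [map_add, map_add, map_add, map_add, ha, hb]
        neg_mem' := by
          intro a ha
          simp only [Set.mem_setOf_eq] at *
          rw [map_neg, map_neg, map_neg, map_neg, ha] }
    refine (hC3 K q S).1 (fun G a => ?_) F
    change dmi q (sw K (j + 1) (io q G * X 0 ^ a)) = sw K j (dmi q (io q G * X 0 ^ a))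
    rw [map_mul, map_pow, sw_Xo (j + 1) 0 (by omega) (by omega), ← hiosw, hdm, hdm, map_mul]
    obtain ⟨-, h2, -, -⟩ := hC2 K q
    rw [h2, map_neg, sw_C]

end Pool.VD.CM
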