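import Pool.Agent.VD.StCM
import Pool.Agent.VD.CM_D

/-!
# MP_cf06d4_co, block CM: StC7, `d_-^2 T = d_-^2`
-/

set_option autoImplicit false

namespace Pool.VD.CM

open MvPolynomial Finset

namespace C7

section
variable {K : Type} [Field K] [CharZero K]

/-- `Φ(m,n) = ∑_(i+l=m) kb_i ε_l ε_(n+i)` -/
noncomputable def Phi (q : K) (m n : ℕ) : Lam K :=
  ∑ j ∈ range (m + 1), C (kb q j) * Ep K (m - j) * Ep K (n + j)

theorem Phi_rec (q : K) (m n : ℕ) :
    Phi q (m + 1) n - C q * Phi q m (n + 1) = Ep K (m + 1) * Ep K n - Ep K m * Ep K (n + 1) := by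
  have h1 : Phi q (m + 1) n = Ep K (m + 1) * Ep K n +
      ∑ j ∈ range (m + 1), C (kb q (j + 1)) * Ep K (m - j) * Ep K (n + 1 + j) := by
    unfold Phi
    rw [sum_range_succ', add_comm]
    congr 1
    · simp [kb]
    · refine sum_congr rfl fun j _ => ?_
      rw [show m + 1 - (j + 1) = m - j by omega, show n + (j + 1) = n + 1 + j by omega]
  have h2 : ∑ j ∈ range (m + 1), C (kb q (j + 1)) * Ep K (m - j) * Ep K (n + 1 + j) -
      C q * Phi q m (n + 1) = -(Ep K m * Ep K (n + 1)) := by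
    unfold Phi
    rw [mul_sum, ← sum_sub_distrib, sum_range_succ', sum_eq_zero]
    · simp only [kb, pow_zero, mul_one, map_one, map_sub, tsub_zero, add_zero]
      ring
    · intro j _
      have h3 : kb q (j + 1 + 1) = q * kb q (j + 1) := by
        simp only [kb, pow_succ]; ring
      rw [h3, map_mul]
      ring
  rw [h1, add_sub_assoc, h2]
  ring

theorem dd_mon (q : K) (b a : ℕ) :
    dmi q (dmi q ((X 1 : Ry K) ^ b * X 0 ^ a)) = C (Phi q (a + 1) (b + 1)) := by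
  have h1 : (X 1 : Ry K) ^ b = io q (X 0 ^ b) := by rw [map_pow, io_X]
  have h2 : ((X 0 : Ry K) ^ b * -C (Ep K (a + 1))) = -(C (Ep K (a + 1)) * X 0 ^ b) := by ring
  rw [h1, dmi_io_mul, dmi_pow, h2, map_neg, dmi_Ep_pow, neg_neg, ← map_sum]
  congr 1
  unfold Phi
  refine sum_congr rfl fun j _ => ?_
  rw [show b + j + 1 = b + 1 + j by omega]

/-- the additive map `F ↦ d_-^2 ((q y_1 - y_0) (F + s F))` -/
noncomputable def LL (q : K) : Ry K →+ Ry K :=
  (dmi q).toAddMonoidHom.comp ((dmi q).toAddMonoidHom.comp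
    ((AddMonoidHom.mulLeft (C (C q) * X 1 - X 0 : Ry K)).comp
      (AddMonoidHom.id (Ry K) + (sw K 0 : Ry K →+* Ry K).toAddMonoidHom)))

theorem LL_apply (q : K) (F : Ry K) :
    LL q F = dmi q (dmi q ((C (C q) * X 1 - X 0) * (F + sw K 0 F))) := rfl

theorem LL_zero (hC1 : StC1) (hC3 : StC3) (q : K) (F : Ry K) : LL q F = 0 := by
  have h := (hC3 K q (LL q).ker).2 (fun G a b => ?_) F
  · exact h
  · rw [AddMonoidHom.mem_ker, LL_apply, map_mul (sw K 0)]
    have hs : sw K 0 (io q (io q G)) = io q (io q G) := (hC1 K q q).2.2.2.2.2.1 G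
    have hm : sw K 0 ((X 1 : Ry K) ^ b * X 0 ^ a) = X 1 ^ a * X 0 ^ b := by
      rw [map_mul, map_pow, map_pow, sw, rename_X, rename_X, zero_add, Equiv.swap_apply_left,
        Equiv.swap_apply_right, mul_comm]
    rw [hs, hm]
    have he : ((C (C q) * X 1 - X 0) * (io q (io q G) * ((X 1 : Ry K) ^ b * X 0 ^ a) +
        io q (io q G) * (X 1 ^ a * X 0 ^ b))) = io q (io q G) *
        (C (C q) * ((X 1 : Ry K) ^ (b + 1) * X 0 ^ a) + C (C q) * (X 1 ^ (a + 1) * X 0 ^ b) -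
          X 1 ^ b * X 0 ^ (a + 1) - X 1 ^ a * X 0 ^ (b + 1)) := by ring
    rw [he, dmi_io_mul, dmi_io_mul]
    have h0 : dmi q (dmi q (C (C q) * ((X 1 : Ry K) ^ (b + 1) * X 0 ^ a) +
        C (C q) * (X 1 ^ (a + 1) * X 0 ^ b) -
          X 1 ^ b * X 0 ^ (a + 1) - X 1 ^ a * X 0 ^ (b + 1))) = 0 := by
      simp only [map_sub, map_add, dmi_CC_mul, dd_mon]
      rw [← map_mul, ← map_mul, ← map_add, ← map_sub, ← map_sub]
      have e1 := Phi_rec q (a + 1) (b + 1)
      have e2 := Phi_rec q (b + 1) (a + 1)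
      have : C q * Phi q (a + 1) (b + 1 + 1) + C q * Phi q (b + 1) (a + 1 + 1) -
          Phi q (a + 1 + 1) (b + 1) - Phi q (b + 1 + 1) (a + 1) = 0 := by
        linear_combination -e1 - e2
      rw [this, map_zero]
    rw [h0, mul_zero]

end

end C7

theorem pC7 (hC1 : StC1) (hC3 : StC3) (hC4 : StC4) : StC7 := by
  intro K _ _ q _ F
  obtain ⟨h1, h2⟩ := (hC4 K q 0 F).2.2.2.2.2.2.2.2.2
  have h3 : dmi q (dmi q (Th q 0 F - F)) = 0 := by
    rw [h1, zero_add]
    have h4 := C7.LL_zero hC1 hC3 q (dd 0 F)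
    rw [C7.LL_apply, h2, ← two_mul, mul_left_comm] at h4
    have h5 : (2 : Ry K) = C (C 2) := by rw [map_ofNat, map_ofNat]
    rw [h5, dmi_CC_mul, dmi_CC_mul] at h4
    have h6 : (C (C 2) : Ry K) ≠ 0 := by rw [← h5]; exact two_ne_zero
    exact (mul_eq_zero.mp h4).resolve_left h6
  rw [map_sub, map_sub, sub_eq_zero] at h3
  exact h3

end Pool.VD.CM
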