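import Pool.Agent.VD.StCM
import Pool.Agent.VD.CM_D

/-!
# MP_cf06d4_co, block CM, module C8: `io d_- - d_- T_0 io = (q-1) y_0`
-/

set_option autoImplicit false


namespace Pool.VD.CM

open MvPolynomial Finset

namespace C8

section
variable {K : Type} [Field K] [CharZero K]

theorem Th_pow (hC4 : StC4) (q : K) (a : ℕ) : Th q 0 (X 1 ^ a : Ry K) =
    X 0 ^ a - C (C (q - 1)) * ∑ i ∈ range a, X 1 ^ (i + 1) * X 0 ^ (a - 1 - i) := by
  induction a with
  | zero =>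
    rw [range_zero, sum_empty, mul_zero, sub_zero, pow_zero, pow_zero]
    exact (hC4 K q 0 1).2.2.1 (map_one _)
  | succ a ih =>
    have h := (hC4 K q 0 (X 1 ^ a)).2.2.2.2.2.2.1
    rw [show (0 : ℕ) + 1 = 1 from rfl] at h
    rw [pow_succ', h, ih, smulK, sum_range_succ]
    have h1 : ∑ x ∈ range a, (X 1 ^ (x + 1) * X 0 ^ (a + 1 - 1 - x) : Ry K) =
        X 0 * ∑ x ∈ range a, X 1 ^ (x + 1) * X 0 ^ (a - 1 - x) := by
      rw [mul_sum]
      refine sum_congr rfl fun x hx => ?_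
      have hx' := mem_range.1 hx
      have e : a + 1 - 1 - x = a - 1 - x + 1 := by omega
      rw [e]
      ring
    rw [h1]
    have e2 : a + 1 - 1 - a = 0 := by omega
    rw [e2]
    ring

theorem dmi_Th_pow (hC4 : StC4) (q : K) (a : ℕ) : dmi q (Th q 0 (X 1 ^ a : Ry K)) =
    -C (Ep K (a + 1)) + C (C (q - 1)) * ∑ i ∈ range a, X 0 ^ (i + 1) * C (Ep K (a - i)) := by
  rw [Th_pow hC4, map_sub, dmi_pow, dmi_CC_mul, map_sum]
  have h1 : ∑ x ∈ range a, dmi q (X 1 ^ (x + 1) * X 0 ^ (a - 1 - x) : Ry K) =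
      -∑ x ∈ range a, X 0 ^ (x + 1) * C (Ep K (a - x)) := by
    rw [← sum_neg_distrib]
    refine sum_congr rfl fun x hx => ?_
    have hx' := mem_range.1 hx
    have e : (X 1 ^ (x + 1) : Ry K) = io q (X 0 ^ (x + 1)) := by
      rw [map_pow, io_X]
    rw [e, dmi_io_pow]
    have e2 : a - 1 - x + 1 = a - x := by omega
    rw [e2]
  rw [h1]
  ring

theorem Ep0 : (Ep K 0 : Lam K) = 1 := by
  unfold Ep
  exact Hs_zero _

theorem key (hC4 : StC4) (q : K) (a : ℕ) :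
    -io q (C (Ep K (a + 1))) - dmi q (Th q 0 (X 1 ^ a : Ry K)) = C (C (q - 1)) * X 0 ^ (a + 1) := by
  rw [dmi_Th_pow hC4, io_Ep, sum_range_succ']
  have h1 : ∑ k ∈ range (a + 1), (C (C (ka q (k + 1)) * Ep K (a + 1 - (k + 1))) * X 0 ^ (k + 1) : Ry K) =
      -(C (C (q - 1)) * ∑ i ∈ range a, X 0 ^ (i + 1) * C (Ep K (a - i))) -
        C (C (q - 1)) * X 0 ^ (a + 1) := by
    have h2 : ∀ k ∈ range (a + 1),
        (C (C (ka q (k + 1)) * Ep K (a + 1 - (k + 1))) * X 0 ^ (k + 1) : Ry K) =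
        -(C (C (q - 1)) * (X 0 ^ (k + 1) * C (Ep K (a - k)))) := by
      intro k _
      have e : a + 1 - (k + 1) = a - k := by omega
      have e2 : ka q (k + 1) = -(q - 1) := by
        show 1 - q = -(q - 1)
        ring
      rw [e, e2, map_neg C, map_mul C, map_neg C]
      ring
    rw [sum_congr rfl h2, sum_neg_distrib, ← mul_sum, sum_range_succ, Nat.sub_self, Ep0, map_one]
    ring
  rw [h1]
  have h3 : (C (C (ka q 0) * Ep K (a + 1 - 0)) * X 0 ^ 0 : Ry K) = C (Ep K (a + 1)) := by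
    show (C (C (1 : K) * Ep K (a + 1)) * X 0 ^ 0 : Ry K) = C (Ep K (a + 1))
    rw [map_one, one_mul, pow_zero, mul_one]
  rw [h3]
  ring

end

end C8

theorem C8.step {K : Type} [Field K] [CharZero K] (hC1 : StC1) (hC4 : StC4) (q : K) (G : Ry K)
    (a : ℕ) : io q (dmi q (io q G * X 0 ^ a)) - dmi q (Th q 0 (io q (io q G * X 0 ^ a))) =
      C (C (q - 1)) * (X 0 * (io q G * X 0 ^ a)) := by
  have hs : sw K 0 (io q (io q G)) = io q (io q G) := (hC1 K q 0).2.2.2.2.2.1 G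
  have h1 : io q (io q G * X 0 ^ a) = io q (io q G) * X 1 ^ a := by
    rw [map_mul, map_pow, io_X]
  have h2 : Th q 0 (io q (io q G) * X 1 ^ a) = io q (io q G) * Th q 0 (X 1 ^ a) :=
    (hC4 K q 0 (X 1 ^ a)).2.1 _ hs
  have h3 : io q (dmi q (io q G * X 0 ^ a)) = -(io q G * io q (C (Ep K (a + 1)))) := by
    rw [dmi_io_pow, map_neg, map_mul]
  rw [h3, h1, h2, dmi_io_mul]
  have hk := C8.key hC4 q a
  have e : -(io q G * io q (C (Ep K (a + 1)))) - io q G * dmi q (Th q 0 (X 1 ^ a)) =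
      io q G * (-io q (C (Ep K (a + 1))) - dmi q (Th q 0 (X 1 ^ a : Ry K))) := by ring
  rw [e, hk]
  ring

theorem pC8 (hC1 : StC1) (hC4 : StC4) : StC8 := by
  intro K _ _ q _ F
  rw [smulK]
  refine io_induction q (P := fun F => io q (dmi q F) - dmi q (Th q 0 (io q F)) =
    C (C (q - 1)) * (X 0 * F)) ?_ (fun F G hF hG => ?_) (fun G a => C8.step hC1 hC4 q G a) F
  · rw [map_zero, map_zero, map_zero, map_zero, sub_zero, mul_zero, mul_zero]
  · rw [map_add, map_add, map_add, map_add, map_add, add_sub_add_comm, hF, hG]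
    ring

end Pool.VD.CM
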