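import Pool.Agent.VD.StCM

/-!
# VD-CM module C9: the commutator of `d_+` and `d_-`
-/

set_option autoImplicit false

namespace Pool.VD.CM

open MvPolynomial Finset

theorem C9X.aux {K : Type} [Field K] [CharZero K] (hC6 : StC6) (q : K) (k : ℕ) (G : Ry K) :
    dmi q (TD q (k + 1) G) = TD q k (dmi q (Th q 0 G)) := by
  induction k with
  | zero => rfl
  | succ k ih =>
    have h1 : TD q (k + 1 + 1) G = Th q (k + 1) (TD q (k + 1) G) := rfl
    have h2 : TD q (k + 1) (dmi q (Th q 0 G)) = Th q k (TD q k (dmi q (Th q 0 G))) := rfl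
    rw [h1, h2, (hC6 K q 1 (TD q (k + 1) G)).2.2.2.2 k, ih]

/-- **C9.** -/
theorem pC9 (hC4 : StC4) (hC6 : StC6) (hC8 : StC8) : StC9 := by
  intro K _ _ q hq k F
  constructor
  · have h1 : et q k F = TD q k (io q (dmi q F)) - dmi q (TD q (k + 1) (io q F)) := rfl
    rw [h1, C9X.aux hC6, ← map_sub, hC8 K q hq F, map_smul]
  · induction k generalizing F with
    | zero =>
      show (X 0 * F : Ry K) = q ^ 0 • (X 0 * F)
      rw [pow_zero, one_smul]
    | succ k ih =>
      have h1 : TU q (k + 1) F = TU q k (Th q k F) := rfl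
      have h2 : TD q (k + 1) (X 0 * TU q (k + 1) F) = Th q k (TD q k (X 0 * TU q (k + 1) F)) := rfl
      have h3 := (hC4 K q k (Th q k F)).2.2.2.2.2.1
      have h4 := (hC4 K q k F).2.2.2.2.1
      rw [h2, h1, ih (Th q k F), map_smul, h3, h4, pow_succ, mul_smul]
      congr 1
      have h5 : (1 - q) • Th q k F + q • F + (q - 1) • Th q k F = q • F := by
        module
      rw [h5, mul_smul_comm]

end Pool.VD.CM
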