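import Pool.Agent.VD.StCM
import Pool.Agent.VD.CM_D

/-!
# Block CM: modules Eps, D1
-/

set_option autoImplicit false
set_option linter.unusedSectionVars false

namespace Pool.VD.CM

open MvPolynomial Finset

theorem pEps : StEps := by
  intro K _ _ q t _ n
  refine ⟨?_, fun k => ?_, ?_, ?_⟩
  · rw [io_Ep, Finset.Nat.sum_antidiagonal_eq_sum_range_succ_mk]
    refine sum_congr rfl fun j _ => ?_
    rw [map_mul]
    ring
  · rw [sg_Ep, Finset.Nat.sum_antidiagonal_eq_sum_range_succ_mk]
    refine sum_congr rfl fun j _ => ?_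
    rw [map_mul]
    ring
  · rw [Ep_io q, Finset.Nat.sum_antidiagonal_eq_sum_range_succ_mk]
    refine sum_congr rfl fun j _ => ?_
    rw [map_mul, map_mul, io_CC]
    ring
  · have h := Hs_rec (fun i => -(X i : Lam K)) n
    have h1 := congrArg (C : Lam K →+* Ry K) h
    rw [smulK, Finset.Nat.sum_antidiagonal_eq_sum_range_succ_mk]
    have h2 : (C (C ((n : K) + 1)) : Ry K) * C (Ep K (n + 1)) =
        C (((n : Lam K) + 1) * Hs (fun i => -(X i : Lam K)) (n + 1)) := by
      rw [map_mul C, Ep]
      congr 2
      simp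
    rw [h2, h, map_sum, ← sum_neg_distrib]
    refine sum_congr rfl fun j _ => ?_
    rw [neg_mul, C_neg', map_mul C]
    rfl

theorem pD1 : StD1 := by
  intro K _ _ q t f
  -- `th (sg 0 (C f)) = map C (Tr m f)`
  have h : ((th q).comp (sg q t 0)).toRingHom.comp (C : Lam K →+* Ry K) =
      (Polynomial.mapRingHom (C : Lam K →+* Ry K)).comp
        ((Tr (fun i => Mk q t (i + 1)) : Lam K →ₐ[K] Polynomial (Lam K)) :
          Lam K →+* Polynomial (Lam K)) := by
    refine MvPolynomial.ringHom_ext (fun c => ?_) (fun i => ?_)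
    · simp only [RingHom.comp_apply, RingHom.coe_coe, AlgHom.toRingHom_eq_coe, AlgHom.comp_apply,
        sg_CC, Tr_C, Polynomial.coe_mapRingHom, Polynomial.map_C]
      rw [CC_eq, AlgHom.commutes]
      rfl
    · have h3 : ∀ c : K, th q (C (C c)) = Polynomial.C (C (C c) : Ry K) := by
        intro c
        rw [CC_eq, AlgHom.commutes]
        rfl
      show th q (sg q t 0 (C (X i))) = (Tr (fun i => Mk q t (i + 1)) (X i)).map (C : Lam K →+* Ry K)
      rw [sg_p, map_add, map_mul, map_pow, h3, th_p, th_X0, Tr_X, Polynomial.map_add,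
        Polynomial.map_mul, Polynomial.map_C, Polynomial.map_pow, Polynomial.map_X, Polynomial.map_C]
      have h4 : (C (C (Mk q t (i + 1))) : Ry K) + C (C (q ^ (i + 1) - 1)) =
          C (C ((q ^ (i + 1) - 1) * t ^ (i + 1))) := by
        rw [← map_add, ← map_add]
        congr 2
        simp only [Mk]
        ring
      have h5 : Polynomial.C (C (C (Mk q t (i + 1))) : Ry K) +
          Polynomial.C (C (C (q ^ (i + 1) - 1)) : Ry K) =
            Polynomial.C (C (C ((q ^ (i + 1) - 1) * t ^ (i + 1))) : Ry K) := by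
        rw [← Polynomial.C_add, h4]
      rw [← h5]
      generalize Polynomial.C (C (C (Mk q t (i + 1))) : Ry K) = a
      generalize Polynomial.C (C (C (q ^ (i + 1) - 1)) : Ry K) = b
      ring
  have h1 : th q (sg q t 0 (C f)) =
      (Tr (fun i => Mk q t (i + 1)) f).map (C : Lam K →+* Ry K) := RingHom.congr_fun h f
  have key : ∀ P : Polynomial (Lam K),
      (P.map (C : Lam K →+* Ry K)).sum (fun a G => G * -C (Ep K (a + 1))) =
        -C (Lf (fun j => Hs (fun i => -(X i : Lam K)) (j + 1)) P) := by
    intro P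
    induction P using Polynomial.induction_on' with
    | add P Q hP hQ =>
      rw [Polynomial.map_add, Polynomial.sum_add_index _ _ _ (fun i => zero_mul _)
        (fun a b c => add_mul _ _ _), hP, hQ, map_add (Lf _), map_add C]
      ring
    | monomial n a =>
      rw [Polynomial.map_monomial, Lf_monomial, map_mul C]
      rw [Polynomial.sum_monomial_index _ (fun (a : ℕ) (G : Ry K) => G * -C (Ep K (a + 1)))
        (zero_mul _)]
      rw [← Ep]
      ring
  rw [dmi_eq, h1, key]
  rfl

end Pool.VD.CM
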