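import Pool.Agent.VD.StCM
import Pool.Agent.VD.CM_D

/-!
# Block CM, module Gen: generation
-/

set_option autoImplicit false
set_option linter.unusedSectionVars false

namespace Pool.VD.CM

open MvPolynomial Finset

namespace Gen

variable {K : Type} [Field K] [CharZero K]

/-- closure under `T_j` -/
theorem th_mem (q : K) (hq : q ≠ 0) (W : ℕ → Submodule K (Ry K))
    (hT : ∀ k j F, j + 1 < k → F ∈ W k → Thi q j F ∈ W k) (k j : ℕ) (F : Ry K) (hj : j + 1 < k)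
    (hF : F ∈ W k) : Th q j F ∈ W k := by
  have h1 : Thi q j F = q⁻¹ • (Th q j F + (q - 1) • F) := by simp [Thi]
  have h2 : Th q j F = q • Thi q j F - (q - 1) • F := by
    rw [h1, smul_smul, mul_inv_cancel₀ hq, one_smul, add_sub_cancel_right]
  rw [h2]
  exact (W k).sub_mem ((W k).smul_mem _ (hT k j F hj hF)) ((W k).smul_mem _ hF)

/-- descending through `TD` -/
theorem td_mem (h4 : StC4) (q : K) (hq : q ≠ 0) (W : ℕ → Submodule K (Ry K))
    (hT : ∀ k j F, j + 1 < k → F ∈ W k → Thi q j F ∈ W k) (k : ℕ) :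
    ∀ m, m ≤ k → ∀ G : Ry K, TD q m G ∈ W (k + 1) → G ∈ W (k + 1) := by
  intro m
  induction m with
  | zero => intro _ G h; exact h
  | succ m ih =>
    intro hm G h
    apply ih (by omega) G
    have h1 : TD q (m + 1) G = Th q m (TD q m G) := rfl
    rw [h1] at h
    have h2 := hT (k + 1) m _ (by omega) h
    obtain ⟨-, -, -, -, -, -, -, -, h9, -⟩ := h4 K q m (TD q m G)
    rwa [(h9 hq).1] at h2

theorem io_mem (h4 : StC4) (q : K) (hq : q ≠ 0) (W : ℕ → Submodule K (Ry K))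
    (hp : ∀ k F, F ∈ W k → dpl q k F ∈ W (k + 1))
    (hT : ∀ k j F, j + 1 < k → F ∈ W k → Thi q j F ∈ W k) (k : ℕ) (F : Ry K) (hF : F ∈ W k) :
    io q F ∈ W (k + 1) :=
  td_mem h4 q hq W hT k k le_rfl _ (hp k F hF)

theorem y0_mem (h4 : StC4) (h8 : StC8) (q : K) (hq : q ≠ 0) (hq1 : q ≠ 1) (W : ℕ → Submodule K (Ry K))
    (hm : ∀ k F, F ∈ W (k + 1) → dmi q F ∈ W k)
    (hp : ∀ k F, F ∈ W k → dpl q k F ∈ W (k + 1))
    (hT : ∀ k j F, j + 1 < k → F ∈ W k → Thi q j F ∈ W k) (k : ℕ) (F : Ry K) (hF : F ∈ W (k + 1)) :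
    X 0 * F ∈ W (k + 1) := by
  have h1 : (q - 1) • (X 0 * F) ∈ W (k + 1) := by
    rw [← h8 K q hq F]
    refine (W (k + 1)).sub_mem (io_mem h4 q hq W hp hT k _ (hm k F hF)) (hm (k + 1) _ ?_)
    exact th_mem q hq W hT (k + 1 + 1) 0 _ (by omega) (io_mem h4 q hq W hp hT (k + 1) F hF)
  have h2 : (X 0 * F : Ry K) = (q - 1)⁻¹ • ((q - 1) • (X 0 * F)) := by
    rw [smul_smul, inv_mul_cancel₀ (sub_ne_zero.2 hq1), one_smul]
  rw [h2]
  exact (W (k + 1)).smul_mem _ h1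

theorem y_mem (h4 : StC4) (h8 : StC8) (q : K) (hq : q ≠ 0) (hq1 : q ≠ 1) (W : ℕ → Submodule K (Ry K))
    (hm : ∀ k F, F ∈ W (k + 1) → dmi q F ∈ W k)
    (hp : ∀ k F, F ∈ W k → dpl q k F ∈ W (k + 1))
    (hT : ∀ k j F, j + 1 < k → F ∈ W k → Thi q j F ∈ W k) (k : ℕ) :
    ∀ j, j ≤ k → ∀ F : Ry K, F ∈ W (k + 1) → X j * F ∈ W (k + 1) := by
  intro j
  induction j with
  | zero => intro _ F hF; exact y0_mem h4 h8 q hq hq1 W hm hp hT k F hF
  | succ j ih =>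
    intro hj F hF
    have h1 : Th q j F ∈ W (k + 1) := th_mem q hq W hT (k + 1) j F (by omega) hF
    have h2 : X j * Th q j F ∈ W (k + 1) := ih (by omega) _ h1
    have h3 : Th q j (X j * Th q j F) ∈ W (k + 1) := th_mem q hq W hT (k + 1) j _ (by omega) h2
    obtain ⟨-, -, -, -, -, h6, -, -, -, -⟩ := h4 K q j (Th q j F)
    obtain ⟨-, -, -, -, h5, -, -, -, -, -⟩ := h4 K q j F
    have h7 : Th q j (Th q j F) + (q - 1) • Th q j F = q • F := by
      rw [h5, sub_smul, sub_smul]; abel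
    rw [h6, h7] at h3
    have h9 : (X (j + 1) * F : Ry K) = q⁻¹ • (X (j + 1) * q • F) := by
      rw [mul_smul_comm, smul_smul, inv_mul_cancel₀ hq, one_smul]
    rw [h9]
    exact (W (k + 1)).smul_mem _ h3

theorem yall_mem (h4 : StC4) (h8 : StC8) (q : K) (hq : q ≠ 0) (hq1 : q ≠ 1) (W : ℕ → Submodule K (Ry K))
    (hm : ∀ k F, F ∈ W (k + 1) → dmi q F ∈ W k)
    (hp : ∀ k F, F ∈ W k → dpl q k F ∈ W (k + 1))
    (hT : ∀ k j F, j + 1 < k → F ∈ W k → Thi q j F ∈ W k)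
    (hs : ∀ k j F, k ≤ j → F ∈ W k → X j * F ∈ W k) (k j : ℕ) (F : Ry K) (hF : F ∈ W k) :
    X j * F ∈ W k := by
  by_cases hj : k ≤ j
  · exact hs k j F hj hF
  · obtain ⟨l, rfl⟩ : ∃ l, k = l + 1 := ⟨k - 1, by omega⟩
    exact y_mem h4 h8 q hq hq1 W hm hp hT l j (by omega) F hF

theorem pow_mem' (h4 : StC4) (h8 : StC8) (q : K) (hq : q ≠ 0) (hq1 : q ≠ 1) (W : ℕ → Submodule K (Ry K))
    (hm : ∀ k F, F ∈ W (k + 1) → dmi q F ∈ W k)
    (hp : ∀ k F, F ∈ W k → dpl q k F ∈ W (k + 1))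
    (hT : ∀ k j F, j + 1 < k → F ∈ W k → Thi q j F ∈ W k)
    (hs : ∀ k j F, k ≤ j → F ∈ W k → X j * F ∈ W k) (k a : ℕ) (F : Ry K) (hF : F ∈ W k) :
    F * X 0 ^ a ∈ W k := by
  induction a with
  | zero => rwa [pow_zero, mul_one]
  | succ a ih =>
    have h : (F * X 0 ^ (a + 1) : Ry K) = X 0 * (F * X 0 ^ a) := by ring
    rw [h]
    exact yall_mem h4 h8 q hq hq1 W hm hp hT hs k 0 _ ih

theorem ep_mem (h4 : StC4) (h8 : StC8) (q : K) (hq : q ≠ 0) (hq1 : q ≠ 1) (W : ℕ → Submodule K (Ry K))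
    (hm : ∀ k F, F ∈ W (k + 1) → dmi q F ∈ W k)
    (hp : ∀ k F, F ∈ W k → dpl q k F ∈ W (k + 1))
    (hT : ∀ k j F, j + 1 < k → F ∈ W k → Thi q j F ∈ W k)
    (hs : ∀ k j F, k ≤ j → F ∈ W k → X j * F ∈ W k) (k r : ℕ) (F : Ry K) (hF : F ∈ W k) :
    C (Ep K r) * F ∈ W k := by
  cases r with
  | zero =>
    have h : Ep K 0 = 1 := Hs_zero _
    rwa [h, map_one, one_mul]
  | succ a =>
    have h1 := hm k _ (pow_mem' h4 h8 q hq hq1 W hm hp hT hs (k + 1) a _ (io_mem h4 q hq W hp hT k F hF))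
    rw [dmi_io_pow] at h1
    have h2 := (W k).neg_mem h1
    rwa [neg_neg, mul_comm] at h2

theorem p_mem (h4 : StC4) (h8 : StC8) (hE : StEps) (q : K) (hq : q ≠ 0) (hq1 : q ≠ 1)
    (W : ℕ → Submodule K (Ry K))
    (hm : ∀ k F, F ∈ W (k + 1) → dmi q F ∈ W k)
    (hp : ∀ k F, F ∈ W k → dpl q k F ∈ W (k + 1))
    (hT : ∀ k j F, j + 1 < k → F ∈ W k → Thi q j F ∈ W k)
    (hs : ∀ k j F, k ≤ j → F ∈ W k → X j * F ∈ W k) (k : ℕ) :
    ∀ n (F : Ry K), F ∈ W k → C (X n) * F ∈ W k := by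
  intro n
  induction n using Nat.strong_induction_on with
  | _ n ih =>
    intro F hF
    obtain ⟨-, -, -, hN⟩ := hE K q 1 hq n
    have h0 : Ep K 0 = 1 := Hs_zero _
    have h1 : (∑ p ∈ antidiagonal n, C (X p.1) * C (Ep K p.2) : Ry K) =
        C (X n) + ∑ p ∈ (antidiagonal n).erase (n, 0), C (X p.1) * C (Ep K p.2) := by
      rw [← Finset.add_sum_erase (antidiagonal n) _ (HasAntidiagonal.mem_antidiagonal.2 (Nat.add_zero n) : (n, 0) ∈ antidiagonal n)]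
      rw [h0, map_one, mul_one]
    rw [h1] at hN
    have h2 : (C (X n) * F : Ry K) = -(((n : K) + 1) • (C (Ep K (n + 1)) * F)) -
        ∑ p ∈ (antidiagonal n).erase (n, 0), C (X p.1) * (C (Ep K p.2) * F) := by
      have h3 : (∑ p ∈ (antidiagonal n).erase (n, 0), C (X p.1) * (C (Ep K p.2) * F) : Ry K) =
          (∑ p ∈ (antidiagonal n).erase (n, 0), C (X p.1) * C (Ep K p.2)) * F := by
        rw [sum_mul]
        exact sum_congr rfl fun p _ => by ring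
      rw [h3, ← smul_mul_assoc, hN]
      ring
    rw [h2]
    refine (W k).sub_mem ((W k).neg_mem ((W k).smul_mem _
      (ep_mem h4 h8 q hq hq1 W hm hp hT hs k (n + 1) F hF))) ((W k).sum_mem fun p hpm => ?_)
    rw [mem_erase, HasAntidiagonal.mem_antidiagonal] at hpm
    have hlt : p.1 < n := by
      rcases Nat.lt_or_ge p.1 n with h | h
      · exact h
      · exfalso
        apply hpm.1
        have : p.1 = n ∧ p.2 = 0 := by omega
        exact Prod.ext this.1 this.2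
    exact ih p.1 hlt _ (ep_mem h4 h8 q hq hq1 W hm hp hT hs k p.2 F hF)

theorem mul_all (h4 : StC4) (h8 : StC8) (hE : StEps) (q : K) (hq : q ≠ 0) (hq1 : q ≠ 1)
    (W : ℕ → Submodule K (Ry K))
    (hm : ∀ k F, F ∈ W (k + 1) → dmi q F ∈ W k)
    (hp : ∀ k F, F ∈ W k → dpl q k F ∈ W (k + 1))
    (hT : ∀ k j F, j + 1 < k → F ∈ W k → Thi q j F ∈ W k)
    (hs : ∀ k j F, k ≤ j → F ∈ W k → X j * F ∈ W k) (k : ℕ) (F : Ry K) :
    ∀ G ∈ W k, F * G ∈ W k := by
  induction F using MvPolynomial.induction_on with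
  | C a =>
    induction a using MvPolynomial.induction_on with
    | C c =>
      intro G hG
      rw [← smulK]
      exact (W k).smul_mem _ hG
    | add a b ha hb =>
      intro G hG
      rw [map_add, add_mul]
      exact (W k).add_mem (ha G hG) (hb G hG)
    | mul_X a n ha =>
      intro G hG
      rw [map_mul, mul_assoc]
      exact ha _ (p_mem h4 h8 hE q hq hq1 W hm hp hT hs k n G hG)
  | add a b ha hb =>
    intro G hG
    rw [add_mul]
    exact (W k).add_mem (ha G hG) (hb G hG)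
  | mul_X a n ha =>
    intro G hG
    rw [mul_assoc]
    exact ha _ (yall_mem h4 h8 q hq hq1 W hm hp hT hs k n G hG)

theorem td_one (h4 : StC4) (q : K) (m : ℕ) : TD q m (1 : Ry K) = 1 := by
  induction m with
  | zero => rfl
  | succ m ih =>
    have h1 : TD q (m + 1) (1 : Ry K) = Th q m (TD q m 1) := rfl
    rw [h1, ih]
    obtain ⟨-, -, h3, -, -, -, -, -, -, -⟩ := h4 K q m 1
    exact h3 (map_one _)

theorem one_mem' (h4 : StC4) (q : K) (W : ℕ → Submodule K (Ry K)) (h1 : (1 : Ry K) ∈ W 0)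
    (hp : ∀ k F, F ∈ W k → dpl q k F ∈ W (k + 1)) (k : ℕ) : (1 : Ry K) ∈ W k := by
  induction k with
  | zero => exact h1
  | succ k ih =>
    have h := hp k 1 ih
    have h2 : dpl q k (1 : Ry K) = TD q k (io q 1) := rfl
    rwa [h2, map_one, td_one h4] at h

end Gen

theorem pGen (hC4 : StC4) (hC8 : StC8) (hEps : StEps) : StGen := by
  intro K _ _ q hq hq1 W h1 hm hp hT hs k F
  have h := Gen.mul_all hC4 hC8 hEps q hq hq1 W hm hp hT hs k F 1 (Gen.one_mem' hC4 q W h1 hp k)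
  rwa [mul_one] at h

end Pool.VD.CM
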