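import Pool.Agent.VD.StCM

/-!
# MP_cf06d4_co, block CM, module L: `N` on `Lam`.
-/

set_option autoImplicit false

namespace Pool.VD.CM

open MvPolynomial Finset

namespace ModL

theorem dpl_zero {K : Type} [Field K] [CharZero K] (q : K) (G : Ry K) : dpl q 0 G = io q G := rfl

end ModL

/-- MODULE L. -/
theorem pL (hC2 : StC2) (hSup : StSup) (hD1 : StD1) : StL := by
  intro K _ _ q t _ _ _ N h1 hdm hdp hsgb hsup
  set NL : Lam K →ₗ[K] Lam K := (cc K).toLinearMap ∘ₗ N 0 ∘ₗ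
    ((Algebra.linearMap (Lam K) (Ry K)).restrictScalars K) with hNL
  have hNL' : ∀ f, NL f = cc K (N 0 (C f)) := fun f => rfl
  have hC : ∀ f, N 0 (C f) = C (NL f) := by
    intro f
    rw [hNL']
    exact (hSup K q t 0 (N 0 (C f))).2.2.2.2.2 (hsup 0 (C f))
  have hinj : Function.Injective (C : Lam K → Ry K) := C_injective ℕ (Lam K)
  refine ⟨NL, hC, ?_, ?_, ?_⟩
  · have : N 0 (C 1) = 1 := by rw [map_one]; exact h1 0
    rw [hNL', this, map_one]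
  · intro f
    apply hinj
    rw [← hC (X 0 * f), map_neg, ← hD1 K q t (NL f)]
    have e1 : (C (X 0 * f) : Ry K) = dmi q⁻¹ (dpl q⁻¹ 0 (C f)) := by
      rw [ModL.dpl_zero, (hC2 K q⁻¹).2.2.2 (C f), map_mul]
    rw [e1, hdm 0, hdp 0, hC f]
  · intro f
    apply hinj
    have e1 : (C (Dk q⁻¹ t⁻¹ 1 f) : Ry K) = -dmi q⁻¹ (sg q⁻¹ t⁻¹ 0 (C f)) := by
      rw [hD1 K q⁻¹ t⁻¹ f, neg_neg]
    rw [← hC (Dk q⁻¹ t⁻¹ 1 f), e1, map_neg, hdm 0, hsgb 0, hC f, ModL.dpl_zero,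
      (hC2 K q).2.2.2 (C (NL f)), map_neg, map_mul]

end Pool.VD.CM
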