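import Pool.Agent.VD.StCM

/-!
# MP_cf06d4_co, block CM, module NSup: supports of the operator `N` (helper94)
-/

set_option autoImplicit false

namespace Pool.VD.CM

open MvPolynomial Finset

namespace NSup

variable {K : Type} [Field K]

/-- the subspace `Vk k` over `K` -/
noncomputable def Vk (K : Type) [Field K] (k : ℕ) : Submodule K (Ry K) :=
  (Subalgebra.toSubmodule (supported (Lam K) {j : ℕ | j < k})).restrictScalars K

theorem mem_Vk (k : ℕ) (F : Ry K) : F ∈ Vk K k ↔ F ∈ supported (Lam K) {j : ℕ | j < k} := Iff.rfl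

theorem thi_apply (q : K) (j : ℕ) (F : Ry K) :
    Thi q j F = q⁻¹ • (Th q j F + (q - 1) • F) := rfl

theorem thi_mem (q : K) (k j : ℕ) (F : Ry K) (hT : Th q j F ∈ Vk K k) (hF : F ∈ Vk K k) :
    Thi q j F ∈ Vk K k := by
  rw [thi_apply]
  exact Submodule.smul_mem _ _ (Submodule.add_mem _ hT (Submodule.smul_mem _ _ hF))

end NSup

open NSup in
theorem pNSup (hSup : StSup) (hGen : StGen) : StNSup := by
  intro K _ _ q t hq hq1 _ N hN1 hNm hNp hNT hNX k F
  have hqi0 : (q⁻¹ : K) ≠ 0 := inv_ne_zero hq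
  have hqi1 : (q⁻¹ : K) ≠ 1 := fun h => hq1 (inv_eq_one.1 h)
  have key := hGen K q⁻¹ hqi0 hqi1 (fun k => (Vk K k).comap (N k))
    (by
      show N 0 1 ∈ Vk K 0
      rw [hN1]
      exact (mem_Vk 0 _).2 (one_mem _))
    (by
      intro k F hF
      show N k (dmi q⁻¹ F) ∈ Vk K k
      rw [hNm]
      exact (hSup K q t k _).2.2.1 hF)
    (by
      intro k F hF
      show N (k + 1) (dpl q⁻¹ k F) ∈ Vk K (k + 1)
      rw [hNp]
      exact (hSup K q t k _).2.1 hF)
    (by
      intro k j F hj hF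
      show N k (Thi q⁻¹ j F) ∈ Vk K k
      rw [thi_apply, map_smul, map_add, map_smul, hNT k j F hj]
      exact Submodule.smul_mem _ _ (Submodule.add_mem _
        (thi_mem q k j _ ((hSup K q t k _).2.2.2.1 j hj hF) hF) (Submodule.smul_mem _ _ hF)))
    (by
      intro k j F hkj _
      show N k (X j * F) ∈ Vk K k
      rw [hNX k j F hkj]
      exact Submodule.zero_mem _)
  exact key k F

end Pool.VD.CM
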