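import Pool.Agent.VD.StCM

/-!
# MP_cf06d4_co, block CM: the universal property, `StPhi`
-/

set_option autoImplicit false

namespace Pool.VD.CM

open MvPolynomial Finset

namespace PhiAux

section
variable {K : Type} [Field K] {U : ℕ → Type} [∀ k, AddCommGroup (U k)] [∀ k, Module K (U k)]

/-- the vectors `u_k` -/
noncomputable def uu (q : K) (Dp : ∀ k, U k →ₗ[K] U (k + 1)) (T : ∀ k, ℕ → (U k →ₗ[K] U k)) (u0 : U 0) :
    ∀ k, U k
  | 0 => u0
  | k + 1 => Io q Dp T k (uu q Dp T u0 k)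

/-- `T_(m-1) ... T_0` on `U k` -/
noncomputable def DU (T : ∀ k, ℕ → (U k →ₗ[K] U k)) (k : ℕ) : ℕ → (U k →ₗ[K] U k)
  | 0 => LinearMap.id
  | m + 1 => T k m ∘ₗ DU T k m

theorem T_uu (hA3 : StA3) (q : K) (hq : q ≠ 0) (hq1 : q ≠ 1) (Dm : ∀ k, U (k + 1) →ₗ[K] U k)
    (Dp : ∀ k, U k →ₗ[K] U (k + 1)) (T : ∀ k, ℕ → (U k →ₗ[K] U k)) (h : IsAq q Dm Dp T) (u0 : U 0) :
    ∀ k j, j + 1 < k → T k j (uu q Dp T u0 k) = uu q Dp T u0 k := by
  obtain ⟨h1, h2, -⟩ := hA3 K q hq hq1 U Dm Dp T h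
  intro k
  induction k with
  | zero => intro j hj; omega
  | succ k ih =>
    intro j hj
    cases j with
    | zero =>
      cases k with
      | zero => omega
      | succ k => exact h2 k (uu q Dp T u0 k)
    | succ j =>
      show T (k + 1) (j + 1) (Io q Dp T k (uu q Dp T u0 k)) = Io q Dp T k (uu q Dp T u0 k)
      rw [← h1 k j _ (by omega), ih j (by omega)]

theorem DU_Qi (hA1 : StA1) (q : K) (hq : q ≠ 0) (Dm : ∀ k, U (k + 1) →ₗ[K] U k)
    (Dp : ∀ k, U k →ₗ[K] U (k + 1)) (T : ∀ k, ℕ → (U k →ₗ[K] U k)) (h : IsAq q Dm Dp T) (k : ℕ) :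
    ∀ m, m ≤ k → ∀ g : U (k + 1), DU T (k + 1) m (Qi q T (k + 1) m g) = g := by
  obtain ⟨h1, -⟩ := hA1 K q hq U Dm Dp T h
  intro m
  induction m with
  | zero => intro _ g; rfl
  | succ m ih =>
    intro hm g
    show T (k + 1) m (DU T (k + 1) m (Qi q T (k + 1) m (Ti q T (k + 1) m g))) = g
    rw [ih (by omega)]
    exact (h1 (k + 1) m g (by omega)).1

end

end PhiAux

open PhiAux in
theorem pPhi (hA1 : StA1) (hA3 : StA3) (hPsi : StPsi) (hC2 : StC2) (hC3 : StC3) : StPhi := by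
  intro K _ _ q hq hq1 U _ _ Dm Dp T h u0
  obtain ⟨Ψ, hE, hY, hIo, hT⟩ := hPsi K q hq hq1 U Dm Dp T h
  obtain ⟨c1, c2, -, -⟩ := hC2 K q
  let u : ∀ k, U k := uu q Dp T u0
  let Φ : ∀ k, Ry K →ₗ[K] U k := fun k => (LinearMap.applyₗ (u k)).comp (Ψ k).toLinearMap
  have hΦ : ∀ k F, Φ k F = Ψ k F (u k) := fun k F => rfl
  have hmul : ∀ k F G, Φ k (F * G) = Ψ k F (Φ k G) := by
    intro k F G
    rw [hΦ, hΦ, map_mul]
    rfl
  have hio : ∀ k F, Φ (k + 1) (io q F) = Io q Dp T k (Φ k F) := by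
    intro k F
    rw [hΦ, hΦ, hIo]
    rfl
  have hTh : ∀ k j F, j + 1 < k → Φ k (Th q j F) = T k j (Φ k F) := by
    intro k j F hj
    have e : Th q j F = sw K j F + C (C (q - 1)) * X (j + 1) * dd j F := rfl
    rw [hΦ k F, hT k j F (u k) hj, T_uu hA3 q hq hq1 Dm Dp T h u0 k j hj, e, map_add, hΦ, hΦ]
  have hTD : ∀ k m, m ≤ k → ∀ F, Φ (k + 1) (TD q m F) = DU T (k + 1) m (Φ (k + 1) F) := by
    intro k m
    induction m with
    | zero => intro _ F; rfl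
    | succ m ih =>
      intro hm F
      show Φ (k + 1) (Th q m (TD q m F)) = T (k + 1) m (DU T (k + 1) m (Φ (k + 1) F))
      rw [hTh _ _ _ (by omega), ih (by omega)]
  refine ⟨Φ, ?_, ?_, ?_, hTh, ?_, ?_, hio⟩
  · rw [hΦ, map_one]
    rfl
  · intro k
    have key : ∀ F, F ∈ (LinearMap.ker ((Φ k).comp (dmi q) - (Dm k).comp (Φ (k + 1)))).toAddSubgroup := by
      refine (hC3 K q _).1 ?_
      intro G a
      show (Φ k (dmi q (io q G * X 0 ^ a)) - Dm k (Φ (k + 1) (io q G * X 0 ^ a))) = 0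
      have e1 : Φ k (dmi q (io q G * X 0 ^ a)) =
          Dm k (((Yo q Dm Dp T k 0) ^ a) (Io q Dp T k (Φ k G))) := by
        have e0 : G * -C (Ep K (a + 1)) = -(C (Ep K (a + 1)) * G) := by ring
        rw [c1, c2, e0, map_neg, hmul, hE]
        show -(-(Dm k (((Yo q Dm Dp T k 0) ^ a) (Io q Dp T k (Φ k G))))) = _
        rw [neg_neg]
      have e2 : Φ (k + 1) (io q G * X 0 ^ a) = ((Yo q Dm Dp T k 0) ^ a) (Io q Dp T k (Φ k G)) := by
        have e3 : yU q Dm Dp T (k + 1) 0 = Yo q Dm Dp T k 0 := by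
          rw [yU, if_pos (Nat.succ_pos k)]
        rw [mul_comm, hmul, map_pow, hY, hio, e3]
      rw [e1, e2, sub_self]
    intro F
    have h1 : (Φ k (dmi q F) - Dm k (Φ (k + 1) F)) = 0 := key F
    exact sub_eq_zero.1 h1
  · intro k F
    show Φ (k + 1) (TD q k (io q F)) = Dp k (Φ k F)
    rw [hTD k k le_rfl, hio]
    exact DU_Qi hA1 q hq Dm Dp T h k k le_rfl _
  · intro k j F
    rw [hmul, hY]
  · intro k r F
    rw [hmul, hE]

end Pool.VD.CM
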