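import Pool.Agent.VD.StCM
import Pool.Agent.VD.CM_D

/-!
# MP_cf06d4_co, block CM, module Psi
-/

set_option autoImplicit false
set_option linter.unusedSectionVars false

namespace Pool.VD.CM.PsiAux

open MvPolynomial Finset Pool.VD.CM

section
variable {K : Type} [Field K]

/-- induction on `Ry K` -/
theorem Ry_ind {P : Ry K → Prop} (hc : ∀ c : K, P (C (C c))) (hp : ∀ i, P (C (X i)))
    (hy : ∀ j, P (X j)) (hadd : ∀ F G, P F → P G → P (F + G)) (hmul : ∀ F G, P F → P G → P (F * G))
    (F : Ry K) : P F := by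
  induction F using MvPolynomial.induction_on with
  | C a =>
    induction a using MvPolynomial.induction_on with
    | C c => exact hc c
    | add p r h1 h2 => rw [map_add]; exact hadd _ _ h1 h2
    | mul_X p n h => rw [map_mul]; exact hmul _ _ h (hp n)
  | add p r h1 h2 => exact hadd _ _ h1 h2
  | mul_X p n h => exact hmul _ _ h (hy n)

theorem sw_CC (j : ℕ) (c : K) : sw K j (C (C c)) = C (C c) := by
  simp [sw]

theorem sw_C (j : ℕ) (a : Lam K) : sw K j (C a) = C a := by
  simp [sw]

theorem sw_X (j n : ℕ) : sw K j (X n) = X (Equiv.swap j (j + 1) n) := by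
  simp [sw]

theorem dd_C (j : ℕ) (a : Lam K) : dd j (C a : Ry K) = 0 := by
  apply dd_unique
  rw [sw_C]; ring

theorem dd_add (j : ℕ) (F G : Ry K) : dd j (F + G) = dd j F + dd j G := by
  apply dd_unique
  rw [map_add]
  linear_combination dd_spec j F + dd_spec j G

theorem dd_mul (j : ℕ) (F G : Ry K) : dd j (F * G) = dd j F * G + sw K j F * dd j G := by
  apply dd_unique
  rw [map_mul]
  linear_combination G * dd_spec j F + sw K j F * dd_spec j G

end

section
variable {K : Type} [Field K] {U : ℕ → Type} [∀ k, AddCommGroup (U k)] [∀ k, Module K (U k)]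

theorem yU_lt (q : K) (Dm : ∀ k, U (k + 1) →ₗ[K] U k) (Dp : ∀ k, U k →ₗ[K] U (k + 1))
    (T : ∀ k, ℕ → (U k →ₗ[K] U k)) {k j : ℕ} (h : j < k + 1) :
    yU q Dm Dp T (k + 1) j = Yo q Dm Dp T k j := if_pos h

theorem yU_ge (q : K) (Dm : ∀ k, U (k + 1) →ₗ[K] U k) (Dp : ∀ k, U k →ₗ[K] U (k + 1))
    (T : ∀ k, ℕ → (U k →ₗ[K] U k)) {k j : ℕ} (h : ¬ j < k + 1) :
    yU q Dm Dp T (k + 1) j = 0 := if_neg h

theorem yU_zero (q : K) (Dm : ∀ k, U (k + 1) →ₗ[K] U k) (Dp : ∀ k, U k →ₗ[K] U (k + 1))
    (T : ∀ k, ℕ → (U k →ₗ[K] U k)) (j : ℕ) :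
    yU q Dm Dp T 0 j = 0 := rfl

end

end Pool.VD.CM.PsiAux

namespace Pool.VD.CM

open MvPolynomial Finset PsiAux

theorem pPsi (hA4 : StA4) (hA6 : StA6) (hA7 : StA7) (hA8 : StA8) (hA9 : StA9)
    (hEps : StEps) : StPsi := by
  intro K _ _ q hq hq1 U _ _ Dm Dp T hI
  obtain ⟨a71, a72, a73, a74⟩ := hA7 K q hq hq1 U Dm Dp T hI
  obtain ⟨a61, a62, a63⟩ := hA6 K q hq hq1 U Dm Dp T hI
  obtain ⟨a41, a42, a43⟩ := hA4 K q hq hq1 U Dm Dp T hI
  have hE0 : ∀ k, Eo q Dm Dp T k 0 = (1 : Module.End K (U k)) := fun k => rfl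
  have hEE : ∀ k i j, (Eo q Dm Dp T k i : Module.End K (U k)) * Eo q Dm Dp T k j =
      Eo q Dm Dp T k j * Eo q Dm Dp T k i := by
    intro k i j
    refine LinearMap.ext fun f => ?_
    exact a73 k i j f
  have h9 : ∀ k, ∃ P : ℕ → Module.End K (U k),
      (∀ n : ℕ, ((n : K) + 1) • (Eo q Dm Dp T k (n + 1) : Module.End K (U k)) =
        -∑ p ∈ antidiagonal n, P p.1 * Eo q Dm Dp T k p.2) ∧
      (∀ A : Module.End K (U k), (∀ r, A * Eo q Dm Dp T k r = Eo q Dm Dp T k r * A) →
        ∀ i, A * P i = P i * A) := fun k => hA9 K (U k) (Eo q Dm Dp T k) (hE0 k) (hEE k)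
  choose P hP1 hP2 using h9
  have hEP : ∀ k r i, (Eo q Dm Dp T k r : Module.End K (U k)) * P k i = P k i * Eo q Dm Dp T k r :=
    fun k r i => hP2 k _ (fun s => hEE k r s) i
  have hPP : ∀ k i j, P k i * P k j = P k j * P k i :=
    fun k i j => hP2 k (P k i) (fun r => (hEP k r i).symm) j
  have hYE : ∀ k j r, (yU q Dm Dp T k j : Module.End K (U k)) * Eo q Dm Dp T k r =
      Eo q Dm Dp T k r * yU q Dm Dp T k j := by
    intro k j r
    cases k with
    | zero => simp [yU]
    | succ k =>
      by_cases hj : j < k + 1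
      · rw [yU_lt q Dm Dp T hj]
        refine LinearMap.ext fun f => ?_
        exact (a71 k r j f hj).symm
      · rw [yU_ge q Dm Dp T hj, zero_mul, mul_zero]
  have hYP : ∀ k i j, P k i * yU q Dm Dp T k j = yU q Dm Dp T k j * P k i :=
    fun k i j => (hP2 k (yU q Dm Dp T k j) (fun r => hYE k j r) i).symm
  have hYY : ∀ k i j, (yU q Dm Dp T k i : Module.End K (U k)) * yU q Dm Dp T k j =
      yU q Dm Dp T k j * yU q Dm Dp T k i := by
    intro k i j
    cases k with
    | zero => simp [yU]
    | succ k =>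
      by_cases hi : i < k + 1
      · by_cases hj : j < k + 1
        · rw [yU_lt q Dm Dp T hj, yU_lt q Dm Dp T hi]
          refine LinearMap.ext fun f => ?_
          exact a63 k i j f hi hj
        · rw [yU_ge q Dm Dp T hj, zero_mul, mul_zero]
      · rw [yU_ge q Dm Dp T hi, zero_mul, mul_zero]
  have h8 : ∀ k, ∃ Ψ : Ry K →ₐ[K] Module.End K (U k), (∀ i, Ψ (C (X i)) = P k i) ∧
      ∀ j, Ψ (X j) = yU q Dm Dp T k j := fun k =>
    hA8 K (U k) (P k) (yU q Dm Dp T k) (hPP k) (fun i j => hYP k i j) (hYY k)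
  choose Ψ hΨp hΨy using h8
  have hΨc : ∀ k (c : K), Ψ k (C (C c)) = algebraMap K (Module.End K (U k)) c := by
    intro k c
    rw [CC_eq, AlgHom.commutes]
  have hΨs : ∀ k (c : K) (F : Ry K), Ψ k (c • F) = c • Ψ k F := fun k c F => map_smul (Ψ k) c F
  have hNewt := fun n => (hEps K q 1 hq n).2.2.2
  have hne : ∀ n : ℕ, ((n : K) + 1) ≠ 0 := fun n => by exact_mod_cast Nat.succ_ne_zero n
  -- `Ψ ε_r = E_r`
  have hΨE : ∀ k r, Ψ k (C (Ep K r)) = Eo q Dm Dp T k r := by
    intro k r
    induction r using Nat.strong_induction_on with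
    | _ r ih =>
      cases r with
      | zero =>
        have : (Ep K 0 : Lam K) = 1 := by simp [Ep, Hs]
        rw [this, map_one, map_one, hE0]
      | succ n =>
        have h1 := congrArg (Ψ k) (hNewt n)
        rw [hΨs, map_neg, map_sum] at h1
        have h2 : ∑ p ∈ antidiagonal n, Ψ k (C (X p.1) * C (Ep K p.2)) =
            ∑ p ∈ antidiagonal n, P k p.1 * Eo q Dm Dp T k p.2 := by
          refine sum_congr rfl fun p hp => ?_
          have hp' : p.2 < n + 1 := by
            have := mem_antidiagonal.1 hp; omega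
          rw [map_mul, hΨp, ih p.2 hp']
        rw [h2, ← hP1 k n] at h1
        have h3 : (((n : K) + 1)⁻¹ * ((n : K) + 1)) = 1 := inv_mul_cancel₀ (hne n)
        have h4 := congrArg (fun A : Module.End K (U k) => ((n : K) + 1)⁻¹ • A) h1
        simp only [smul_smul, h3, one_smul] at h4
        exact h4
  -- `Io (E_r f) = Ψ (io ε_r) (Io f)`
  have hIE : ∀ k r f, Io q Dp T k (Eo q Dm Dp T k r f) =
      Ψ (k + 1) (io q (C (Ep K r))) (Io q Dp T k f) := by
    intro k r f
    rw [a74 k r f, (hEps K q 1 hq r).1, map_sum, LinearMap.sum_apply]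
    refine sum_congr rfl fun p _ => ?_
    rw [map_mul, map_mul, map_pow, hΨc, hΨy, hΨE]
    have h0 : yU q Dm Dp T (k + 1) 0 = Yo q Dm Dp T k 0 := yU_lt q Dm Dp T (Nat.succ_pos k)
    rw [h0]
    simp [Module.algebraMap_end_apply]
  -- (1)
  have hIP : ∀ k n f, Io q Dp T k (P k n f) = Ψ (k + 1) (io q (C (X n))) (Io q Dp T k f) := by
    intro k n
    induction n using Nat.strong_induction_on with
    | _ n ih =>
      intro f
      have e1 := congrArg (fun A : Module.End K (U k) => Io q Dp T k (A f)) (hP1 k n)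
      have e2 := congrArg (fun F : Ry K => Ψ (k + 1) (io q F) (Io q Dp T k f)) (hNewt n)
      simp only [LinearMap.smul_apply, map_smul, LinearMap.neg_apply, map_neg, LinearMap.sum_apply,
        map_sum] at e1 e2
      rw [← hIE k (n + 1) f, e1] at e2
      have e3 := neg_injective e2
      rw [← sum_erase_add _ _ (show (n, 0) ∈ antidiagonal n by simp),
        ← sum_erase_add (antidiagonal n) _ (show (n, 0) ∈ antidiagonal n by simp)] at e3
      have e4 : ∑ p ∈ (antidiagonal n).erase (n, 0),
          Io q Dp T k ((P k p.1 * Eo q Dm Dp T k p.2 : Module.End K (U k)) f) =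
          ∑ p ∈ (antidiagonal n).erase (n, 0),
          (Ψ (k + 1) (io q (C (X p.1) * C (Ep K p.2)))) (Io q Dp T k f) := by
        refine sum_congr rfl fun p hp => ?_
        have hp1 := mem_antidiagonal.1 (mem_of_mem_erase hp)
        have hp2 : p ≠ (n, 0) := ne_of_mem_erase hp
        have hlt : p.1 < n := by
          rcases Nat.lt_or_ge p.1 n with h | h
          · exact h
          · exact absurd (Prod.ext (by omega) (by omega)) hp2
        rw [Module.End.mul_apply, ih p.1 hlt, hIE, map_mul, map_mul, Module.End.mul_apply]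
      rw [e4] at e3
      have e5 := add_left_cancel e3
      simp only [hE0, mul_one] at e5
      have h0 : (Ep K 0 : Lam K) = 1 := by simp [Ep, Hs]
      rw [h0, map_one, mul_one] at e5
      exact e5
  have hIy : ∀ k j f, Io q Dp T k (yU q Dm Dp T k j f) = Ψ (k + 1) (io q (X j)) (Io q Dp T k f) := by
    intro k j f
    rw [io_X, hΨy]
    cases k with
    | zero =>
      have h2 : yU q Dm Dp T (0 + 1) (j + 1) = 0 := yU_ge q Dm Dp T (by omega)
      rw [h2, yU_zero, LinearMap.zero_apply, LinearMap.zero_apply, map_zero]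
    | succ k =>
      by_cases hj : j < k + 1
      · have h1 : yU q Dm Dp T (k + 1) j = Yo q Dm Dp T k j := yU_lt q Dm Dp T hj
        have h2 : yU q Dm Dp T (k + 1 + 1) (j + 1) = Yo q Dm Dp T (k + 1) (j + 1) :=
          yU_lt q Dm Dp T (by omega)
        rw [h1, h2]
        exact a62 k j f hj
      · have h1 : yU q Dm Dp T (k + 1) j = 0 := yU_ge q Dm Dp T hj
        have h2 : yU q Dm Dp T (k + 1 + 1) (j + 1) = 0 := yU_ge q Dm Dp T (by omega)
        rw [h1, h2]
        simp
  refine ⟨Ψ, hΨE, hΨy, ?_, ?_⟩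
  · intro k F
    refine Ry_ind (P := fun F => ∀ f, Io q Dp T k (Ψ k F f) = Ψ (k + 1) (io q F) (Io q Dp T k f))
      ?_ ?_ ?_ ?_ ?_ F
    · intro c f
      rw [io_CC, hΨc, hΨc, Module.algebraMap_end_apply, Module.algebraMap_end_apply, map_smul]
    · intro i f
      rw [hΨp, hIP]
    · intro j f
      rw [hΨy, hIy]
    · intro F G h1 h2 f
      rw [map_add, map_add, map_add, LinearMap.add_apply, LinearMap.add_apply, map_add, h1, h2]
    · intro F G h1 h2 f
      rw [map_mul, map_mul, map_mul, Module.End.mul_apply, Module.End.mul_apply, h1, h2]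
  · intro k j F f hj
    have hTP : ∀ i f, T k j (P k i f) = P k i (T k j f) := by
      intro i f
      have := hP2 k (T k j) (fun r => LinearMap.ext fun g => (a72 k r j g hj).symm) i
      exact LinearMap.congr_fun this f
    have key : ∀ F : Ry K, ∀ f, T k j (Ψ k F f) =
        Ψ k (sw K j F) (T k j f) + Ψ k (C (C (q - 1)) * X (j + 1) * dd j F) f := by
      intro F
      refine Ry_ind (P := fun F => ∀ f, T k j (Ψ k F f) =
        Ψ k (sw K j F) (T k j f) + Ψ k (C (C (q - 1)) * X (j + 1) * dd j F) f) ?_ ?_ ?_ ?_ ?_ F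
      · intro c f
        rw [sw_C, dd_C, mul_zero, map_zero, LinearMap.zero_apply, add_zero, hΨc,
          Module.algebraMap_end_apply, Module.algebraMap_end_apply, map_smul]
      · intro i f
        rw [sw_C, dd_C, mul_zero, map_zero, LinearMap.zero_apply, add_zero, hΨp, hTP]
      · intro n f
        obtain ⟨k, rfl⟩ : ∃ k', k = k' + 1 := ⟨k - 1, by omega⟩
        have hyo : ∀ i, i < k + 1 → yU q Dm Dp T (k + 1) i = Yo q Dm Dp T k i := by
          intro i hi; exact yU_lt q Dm Dp T hi
        rw [sw_X]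
        by_cases h1 : n = j
        · subst h1
          have hd : dd n (X n : Ry K) = 1 := by
            apply dd_unique
            rw [sw_X, Equiv.swap_apply_left]; ring
          rw [Equiv.swap_apply_left, hd, mul_one, map_mul, hΨc, hΨy, hΨy, hyo n (by omega),
            hyo (n + 1) (by omega), Module.End.mul_apply, Module.algebraMap_end_apply,
            a42 k n f hj, map_add, map_smul]
        · by_cases h2 : n = j + 1
          · subst h2
            have hd : dd j (X (j + 1) : Ry K) = -1 := by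
              apply dd_unique
              rw [sw_X, Equiv.swap_apply_right]; ring
            have e : C (C (q - 1)) * X (j + 1) * (-1 : Ry K) = -(C (C (q - 1)) * X (j + 1)) := by
              ring
            rw [Equiv.swap_apply_right, hd, e, map_neg, map_mul, hΨc, hΨy, hΨy,
              hyo j (by omega), hyo (j + 1) (by omega), LinearMap.neg_apply, Module.End.mul_apply,
              Module.algebraMap_end_apply, a43 k j f hj, sub_eq_add_neg]
          · have hd : dd j (X n : Ry K) = 0 := by
              apply dd_unique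
              rw [sw_X, Equiv.swap_apply_of_ne_of_ne h1 h2]; ring
            rw [Equiv.swap_apply_of_ne_of_ne h1 h2, hd, mul_zero, map_zero, LinearMap.zero_apply,
              add_zero, hΨy]
            by_cases h3 : n < k + 1
            · rw [hyo n h3]
              exact a41 k j n f hj h3 (fun h => h1 h.symm) (fun h => h2 h.symm)
            · have h0 : yU q Dm Dp T (k + 1) n = 0 := yU_ge q Dm Dp T h3
              rw [h0]; simp
      · intro F G h1 h2 f
        rw [map_add, LinearMap.add_apply, map_add, h1, h2, map_add, dd_add, mul_add, map_add, map_add,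
          LinearMap.add_apply, LinearMap.add_apply]
        abel
      · intro F G h1 h2 f
        rw [map_mul, Module.End.mul_apply, h1, h2, dd_mul, map_mul (sw K j)]
        have e1 : C (C (q - 1)) * X (j + 1) * (dd j F * G + sw K j F * dd j G) =
            C (C (q - 1)) * X (j + 1) * dd j F * G +
              sw K j F * (C (C (q - 1)) * X (j + 1) * dd j G) := by ring
        rw [e1]
        simp only [map_add, map_mul, Module.End.mul_apply, LinearMap.add_apply]
        abel
    exact key F f

end Pool.VD.CM
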