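import Pool.Agent.VD.StCM
import Pool.Agent.VD.CM_D

/-!
# Block CM, module Sup: supports
-/

set_option autoImplicit false
set_option linter.unusedSectionVars false

namespace Pool.VD.CM

open MvPolynomial Finset

namespace Sup

variable {K : Type} [Field K] [CharZero K]

/-- the subalgebra of the polynomials in `y_0, ..., y_(k-1)` -/
noncomputable abbrev V (K : Type) [Field K] (k : ℕ) : Subalgebra (Lam K) (Ry K) := supported (Lam K) {j : ℕ | j < k}

theorem X_mem {k j : ℕ} (h : j < k) : (X j : Ry K) ∈ V K k := by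
  apply Algebra.subset_adjoin
  exact ⟨j, h, rfl⟩

theorem C_mem (k : ℕ) (a : Lam K) : (C a : Ry K) ∈ V K k := (V K k).algebraMap_mem a

/-- induction on the elements of `V k` -/
theorem V_induction {k : ℕ} {P : Ry K → Prop} (hX : ∀ j, j < k → P (X j)) (hC : ∀ c : K, P (C (C c)))
    (hp : ∀ i, P (C (X i))) (hadd : ∀ F G, P F → P G → P (F + G)) (hmul : ∀ F G, P F → P G → P (F * G))
    (F : Ry K) (hF : F ∈ V K k) : P F := by
  have hF' : F ∈ Algebra.adjoin (Lam K) ((X : ℕ → Ry K) '' {j : ℕ | j < k}) := hF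
  refine Algebra.adjoin_induction (p := fun F _ => P F) ?_ ?_ ?_ ?_ hF'
  · rintro _ ⟨j, hj, rfl⟩
    exact hX j hj
  · intro a
    rw [algebraMap_eq]
    induction a using MvPolynomial.induction_on with
    | C c => exact hC c
    | add a b ha hb => rw [map_add]; exact hadd _ _ ha hb
    | mul_X a n ha => rw [map_mul]; exact hmul _ _ ha (hp n)
  · intro x y _ _ hx hy
    exact hadd _ _ hx hy
  · intro x y _ _ hx hy
    exact hmul _ _ hx hy

theorem io_mem (q : K) (k : ℕ) (F : Ry K) (hF : F ∈ V K k) : io q F ∈ V K (k + 1) := by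
  refine V_induction (k := k) (P := fun F => io q F ∈ V K (k + 1)) ?_ ?_ ?_ ?_ ?_ F hF
  · intro j hj
    rw [io_X]
    exact X_mem (by omega)
  · intro c
    rw [io_CC]
    exact C_mem _ _
  · intro i
    rw [io_p]
    exact (V K (k + 1)).add_mem (C_mem _ _) ((V K (k + 1)).mul_mem (C_mem _ _)
      ((V K (k + 1)).pow_mem (X_mem (by omega)) _))
  · intro F G h1 h2
    rw [map_add]
    exact (V K (k + 1)).add_mem h1 h2
  · intro F G h1 h2
    rw [map_mul]
    exact (V K (k + 1)).mul_mem h1 h2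

theorem sg_mem (q t : K) (k : ℕ) (F : Ry K) (hF : F ∈ V K k) : sg q t k F ∈ V K (k + 1) := by
  refine V_induction (k := k) (P := fun F => sg q t k F ∈ V K (k + 1)) ?_ ?_ ?_ ?_ ?_ F hF
  · intro j hj
    rw [sg_X_lt q t hj]
    exact X_mem (by omega)
  · intro c
    rw [sg_CC]
    exact C_mem _ _
  · intro i
    rw [sg_p]
    exact (V K (k + 1)).add_mem (C_mem _ _) ((V K (k + 1)).mul_mem (C_mem _ _)
      ((V K (k + 1)).pow_mem (X_mem (by omega)) _))
  · intro F G h1 h2
    rw [map_add]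
    exact (V K (k + 1)).add_mem h1 h2
  · intro F G h1 h2
    rw [map_mul]
    exact (V K (k + 1)).mul_mem h1 h2

theorem th_CC (q : K) (c : K) : th q (C (C c)) = Polynomial.C (C (C c) : Ry K) := by
  have h2 : (C (C c) : Ry K) = algebraMap K (Ry K) c := rfl
  rw [h2, AlgHom.commutes]
  rfl

theorem coeffC_mem (k : ℕ) (G : Ry K) (hG : G ∈ V K k) (a : ℕ) :
    (Polynomial.C G : Polynomial (Ry K)).coeff a ∈ V K k := by
  rw [Polynomial.coeff_C]
  by_cases ha : a = 0
  · rwa [if_pos ha]
  · rw [if_neg ha]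
    exact (V K k).zero_mem

theorem coeffX_mem (k : ℕ) (n a : ℕ) :
    ((Polynomial.X : Polynomial (Ry K)) ^ n).coeff a ∈ V K k := by
  rw [Polynomial.coeff_X_pow]
  by_cases ha : a = n
  · rw [if_pos ha]
    exact (V K k).one_mem
  · rw [if_neg ha]
    exact (V K k).zero_mem

theorem coeffmul_mem (k : ℕ) (P Q : Polynomial (Ry K)) (hP : ∀ a, P.coeff a ∈ V K k)
    (hQ : ∀ a, Q.coeff a ∈ V K k) (a : ℕ) : (P * Q).coeff a ∈ V K k := by
  rw [Polynomial.coeff_mul]
  exact (V K k).sum_mem fun p _ => (V K k).mul_mem (hP _) (hQ _)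

theorem th_mem (q : K) (k : ℕ) (F : Ry K) (hF : F ∈ V K (k + 1)) :
    ∀ a, (th q F).coeff a ∈ V K k := by
  refine V_induction (k := k + 1) (P := fun F => ∀ a, (th q F).coeff a ∈ V K k) ?_ ?_ ?_ ?_ ?_ F hF
  · intro j hj a
    cases j with
    | zero =>
      rw [th_X0, ← pow_one (Polynomial.X : Polynomial (Ry K))]
      exact coeffX_mem k 1 a
    | succ j =>
      rw [th_Xs]
      exact coeffC_mem k _ (X_mem (by omega)) a
  · intro c a
    rw [th_CC]
    exact coeffC_mem k _ (C_mem _ _) a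
  · intro i a
    rw [th_p, Polynomial.coeff_sub]
    exact (V K k).sub_mem (coeffC_mem k _ (C_mem _ _) a)
      (coeffmul_mem k _ _ (coeffC_mem k _ (C_mem _ _)) (coeffX_mem k (i + 1)) a)
  · intro F G h1 h2 a
    rw [map_add, Polynomial.coeff_add]
    exact (V K k).add_mem (h1 a) (h2 a)
  · intro F G h1 h2 a
    rw [map_mul]
    exact coeffmul_mem k _ _ h1 h2 a

theorem dmi_mem (q : K) (k : ℕ) (F : Ry K) (hF : F ∈ V K (k + 1)) : dmi q F ∈ V K k := by
  rw [dmi_eq, Polynomial.sum_def]
  exact (V K k).sum_mem fun a _ => (V K k).mul_mem (th_mem q k F hF a) ((V K k).neg_mem (C_mem _ _))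

/-- the projection onto `V k` -/
noncomputable def pr (K : Type) [Field K] (k : ℕ) : Ry K →ₐ[Lam K] Ry K :=
  aeval (fun i => if i < k then (X i : Ry K) else 0)

theorem pr_mem (k : ℕ) (F : Ry K) : pr K k F ∈ V K k := by
  induction F using MvPolynomial.induction_on with
  | C a =>
    have h : pr K k (C a) = C a := AlgHom.commutes _ _
    rw [h]
    exact C_mem _ _
  | add a b ha hb => rw [map_add]; exact (V K k).add_mem ha hb
  | mul_X a n ha =>
    rw [map_mul]
    refine (V K k).mul_mem ha ?_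
    rw [pr, aeval_X]
    by_cases hn : n < k
    · rw [if_pos hn]; exact X_mem hn
    · rw [if_neg hn]; exact (V K k).zero_mem

theorem pr_self (k : ℕ) (F : Ry K) (hF : F ∈ V K k) : pr K k F = F := by
  refine V_induction (k := k) (P := fun F => pr K k F = F) ?_ ?_ ?_ ?_ ?_ F hF
  · intro j hj
    rw [pr, aeval_X, if_pos hj]
  · intro c
    exact AlgHom.commutes _ _
  · intro i
    exact AlgHom.commutes _ _
  · intro F G h1 h2
    rw [map_add, h1, h2]
  · intro F G h1 h2
    rw [map_mul, h1, h2]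

theorem pr_sw (k j : ℕ) (hj : j + 1 < k) (F : Ry K) : pr K k (sw K j F) = sw K j (pr K k F) := by
  have h : (pr K k).comp (sw K j) = (sw K j).comp (pr K k) := by
    refine MvPolynomial.algHom_ext fun n => ?_
    simp only [AlgHom.comp_apply]
    rw [pr, aeval_X, sw, rename_X, aeval_X]
    by_cases h1 : n = j
    · subst h1
      rw [Equiv.swap_apply_left, if_pos hj, if_pos (by omega : n < k), rename_X, Equiv.swap_apply_left]
    · by_cases h2 : n = j + 1
      · subst h2
        rw [Equiv.swap_apply_right, if_pos hj, if_pos (by omega : j < k), rename_X,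
          Equiv.swap_apply_right]
      · rw [Equiv.swap_apply_of_ne_of_ne h1 h2]
        by_cases h3 : n < k
        · rw [if_pos h3, rename_X, Equiv.swap_apply_of_ne_of_ne h1 h2]
        · rw [if_neg h3, map_zero]
  exact AlgHom.congr_fun h F

theorem sw_mem (k j : ℕ) (hj : j + 1 < k) (F : Ry K) (hF : F ∈ V K k) : sw K j F ∈ V K k := by
  rw [← pr_self k F hF, ← pr_sw k j hj]
  exact pr_mem _ _

theorem dd_mem (k j : ℕ) (hj : j + 1 < k) (F : Ry K) (hF : F ∈ V K k) : dd j F ∈ V K k := by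
  have h : dd j F = pr K k (dd j F) := by
    apply dd_unique
    have h1 := congrArg (pr K k) (dd_spec j F)
    rw [map_sub, map_mul, pr_sw k j hj, pr_self k F hF, map_sub, pr_self k (X j) (X_mem (by omega)),
      pr_self k (X (j + 1)) (X_mem hj)] at h1
    exact h1
  rw [h]
  exact pr_mem _ _

theorem Th_mem (q : K) (k j : ℕ) (hj : j + 1 < k) (F : Ry K) (hF : F ∈ V K k) : Th q j F ∈ V K k := by
  have h : Th q j F = sw K j F + C (C (q - 1)) * X (j + 1) * dd j F := rfl
  rw [h]
  exact (V K k).add_mem (sw_mem k j hj F hF) ((V K k).mul_mem ((V K k).mul_mem (C_mem _ _) (X_mem hj))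
    (dd_mem k j hj F hF))

theorem TD_mem (q : K) (k : ℕ) (F : Ry K) (hF : F ∈ V K (k + 1)) :
    ∀ m, m ≤ k → TD q m F ∈ V K (k + 1) := by
  intro m
  induction m with
  | zero => intro _; exact hF
  | succ m ih =>
    intro hm
    have h : TD q (m + 1) F = Th q m (TD q m F) := rfl
    rw [h]
    exact Th_mem q (k + 1) m (by omega) _ (ih (by omega))

theorem cc_C (F : Ry K) (hF : F ∈ V K 0) : F = C (cc K F) := by
  refine V_induction (k := 0) (P := fun F => F = C (cc K F)) ?_ ?_ ?_ ?_ ?_ F hF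
  · intro j hj
    exact absurd hj (Nat.not_lt_zero j)
  · intro c
    rw [cc, aevalTower_C, AlgHom.id_apply]
  · intro i
    rw [cc, aevalTower_C, AlgHom.id_apply]
  · intro F G h1 h2
    rw [map_add, map_add, ← h1, ← h2]
  · intro F G h1 h2
    rw [map_mul, map_mul, ← h1, ← h2]

end Sup

theorem pSup : StSup := by
  intro K _ _ q t k F
  exact ⟨Sup.io_mem q k F, Sup.sg_mem q t k F, Sup.dmi_mem q k F, fun j hj hF => Sup.Th_mem q k j hj F hF,
    fun hF => Sup.TD_mem q k _ (Sup.io_mem q k F hF) k le_rfl, Sup.cc_C F⟩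

end Pool.VD.CM
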