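import Pool.Agent.VD.StM
import Pool.Agent.VD.M_DD

/-!
# MP_cf06d4_co, block M, part 2: the operator `D*_1` and the characterisation of nabla used by block CM
-/

set_option autoImplicit false

namespace Pool.VD

open MvPolynomial Finset

variable {K : Type} [Field K] [CharZero K]

/-! `Dsk q t k` (`D*_k`, definition in `M_DD.lean`): `D*_k f = f[X - M~/z] Exp[zX] |_(z^k)`, `M~ = (1-1/q)(1-1/t)`,
`Dsk q t k = Vo (fun i => -Mk q⁻¹ t⁻¹ (i + 1)) (fun i => X i) k`; `Ds q t = Dsk q t 0` by `rfl` -/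

/-- `ω`, `p_(i+1) ↦ (-1)^i p_(i+1)` -/
noncomputable def om (K : Type) [Field K] [CharZero K] : Lam K →ₐ[K] Lam K := scal (fun i => (-1 : K) ^ i)

/-- StPieS.  The coefficient of `b μ` in `D*_1 b ν` is `(1/x_c) d`, `d` the coefficient of `b μ` in `e_1 b ν`, `μ = ν + c`:
`-M~ D*_1 = [D*_0, e_1]` (StDX, the general formula for `Vo`, `i = 0`), so it is `(B~_μ - B~_ν) d` (`cm q⁻¹ t⁻¹ μ = 1 - M~ B~_μ`);
StPie gives the support, `B~_μ - B~_ν = x_c⁻¹`. -/
def StPieS : Prop := ∀ (K : Type) [Field K] [CharZero K] (q t : K), Gq q t →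
  ∀ b : Module.Basis YoungDiagram K (Lam K), EB q t b → ∀ μ ν : YoungDiagram,
    b.repr (Dsk q t 1 (b ν)) μ = (Bm q⁻¹ t⁻¹ μ - Bm q⁻¹ t⁻¹ ν) * b.repr (X 0 * b ν) μ ∧
    ∀ c ∉ ν.cells, μ.cells = insert c ν.cells →
      b.repr (Dsk q t 1 (b ν)) μ = (xc q t c)⁻¹ * b.repr (X 0 * b ν) μ

/-- StE1S.  `nabla D*_1 = e_1 nabla`: on the basis, StPieS: both sides have the coefficient `T_ν d` (`T_μ = T_ν x_c`). -/
def StE1S : Prop := ∀ (K : Type) [Field K] [CharZero K] (q t : K), Gq q t →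
  ∀ b : Module.Basis YoungDiagram K (Lam K), EB q t b → ∀ f,
    dg b (Tm q t) (Dsk q t 1 f) = X 0 * dg b (Tm q t) f

/-- StCycV.  Cyclicity, general form: `a = ε X` with `ε = 1` or `-1`, `m 0 ≠ 0`: a subspace containing 1 and stable under `e_1 = X 0`
and `V_1 := Vo m a 1` is everything.  `[V_k, X 0] = m_0 V_(k+1)` (StDX), so it is stable under all `V_k`, `k ≥ 1`.  Put `g_k := Hs a k` (`h_k` or
`(-1)^k e_k`; `V_k 1 = g_k`).  Induction on the degree `n`: for `k = n, n-1, .., 1` and `f` homogeneous of degree `n - k`: `g_k f ∈ S`: `f ∈ S` by induction,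
`V_k f = g_k f + ∑_(j≥1) f_j g_(k+j)` with `f_j` of degree `n - k - j` (the coefficients of `Tr m f`), the other terms are in `S` by the downward
induction.  Every homogeneous `F` of degree `n ≥ 1` is a combination of `g_k f`, `k ≥ 1`: for monomials `X i * f'`, and by the
Newton recursion (definition of `Hs`) `a i = (i+1) g_(i+1) - ∑_(j<i) a j * g_(i-j)`.
StCyc follows: `M D_1 = [D_0, X 0]`. -/
def StCycV : Prop := ∀ (K : Type) [Field K] [CharZero K] (m : ℕ → K) (ε : K), ε = 1 ∨ ε = -1 → m 0 ≠ 0 →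
  ∀ S : Submodule K (Lam K), 1 ∈ S → (∀ f ∈ S, X 0 * f ∈ S) →
    (∀ f ∈ S, Vo m (fun i => C ε * X i) 1 f ∈ S) → S = ⊤

/-- StOm.  `ω D_k(1/q,1/t) = (-1)^k D*_k ω`, `ω ω = 1`, `ω h_n = e_n`, `ω e*_n = h_n[(-1)^(..)..]`: `Tr`, `Lf` and `scal`: both sides satisfy the same commutation rule with `X i`
(StDX: `V_k (X i f) = X i V_k f + m_i V_(k+i+1) f`, for all `k` together) and agree on `f = 1` (`Hs (-X_i)` under `ω` is
`Hs (fun i => (-1)^(i+1) X i) = (-1)^k Hs X`, StHsSc with `c = -1`, StHsMap).  Induction on `f` (`MvPolynomial.induction_on`). -/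
def StOm : Prop := ∀ (K : Type) [Field K] [CharZero K] (q t : K) (k : ℕ) (f : Lam K),
  om K (Dk q⁻¹ t⁻¹ k f) = (-1 : K) ^ k • Dsk q t k (om K f) ∧ om K (om K f) = f ∧
  om K (Hn K k) = En K k ∧ om K (En K k) = Hn K k

/-- StNN.  RESULT OF BLOCK M for block CM: the operator `N` of block CM on `V_0` gives nabla as `N ∘ ω`.  `N' := N ∘ ω` satisfies `N' 1 = 1`,
`N' e_1 = -D_1 N'`, `N' D*_1 = e_1 N'` (StOm, `k = 1`).  So does `dg b Tm` (StEig, StE1, StE1S); they agree on a subspace containing 1,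
stable under `e_1` and `D*_1`: StCycV (`Dsk q t 1 = Vo (-M~) X 1`), so `N' = dg b Tm`, which is `IsNabla` (StE1). -/
def StNN : Prop := ∀ (K : Type) [Field K] [CharZero K] (q t : K), Gq q t →
  ∀ N : Lam K →ₗ[K] Lam K, N 1 = 1 → (∀ f, N (X 0 * f) = -Dk q t 1 (N f)) →
    (∀ f, N (Dk q⁻¹ t⁻¹ 1 f) = -(X 0 * N f)) → IsNabla q t (N ∘ₗ (om K).toLinearMap)

end Pool.VD
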