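import Pool.Agent.VD.M_A
import Pool.Agent.VD.StM2

/-!
# MODULE Cyc
-/

set_option autoImplicit false
set_option linter.unusedSectionVars false

namespace Pool.VD

open MvPolynomial Finset

theorem pCyc (hCycV : StCycV) : StCyc := by
  intro K _ _ q t hM S h1 hX hD
  refine hCycV K (fun i => Mk q t (i + 1)) (-1) (Or.inr rfl) (by simpa using hM) S h1 hX ?_
  intro f hf
  have ha : (fun i => (C (-1 : K) * X i : Lam K)) = fun i => -(X i : Lam K) := by
    funext i
    simp
  rw [ha]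
  show Dk q t 1 f ∈ S
  have h := Dk_e1_mul q t 0 f
  rw [zero_add] at h
  have h2 : Dk q t 1 f = (Mk q t 1)⁻¹ • (Dk q t 0 (X 0 * f) - X 0 * Dk q t 0 f) := by
    rw [h, add_sub_cancel_left, ← MvPolynomial.smul_eq_C_mul, smul_smul, inv_mul_cancel₀ hM,
      one_smul]
  rw [h2]
  exact S.smul_mem _ (S.sub_mem (hD _ (hX _ hf)) (hX _ (hD _ hf)))

end Pool.VD
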