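import Pool.Agent.VD.StM2

/-!
# MP_cf06d4_co, block M: module CycV (cyclicity, general form)
-/

set_option autoImplicit false
set_option linter.unusedSectionVars false

namespace Pool.VD

open MvPolynomial Finset

/-- weighted degree of a monomial -/
private noncomputable def CycV_wt : (ℕ →₀ ℕ) →+ ℕ := Finsupp.weight (fun i : ℕ => i + 1)

private theorem CycV_wt_single (i : ℕ) : CycV_wt (Finsupp.single i 1) = i + 1 := by
  simp [CycV_wt, Finsupp.weight_single]

/-- every exponent is zero or has a unit vector below it -/
private theorem CycV_dec (s : ℕ →₀ ℕ) : s = 0 ∨ ∃ s' i, s = s' + Finsupp.single i 1 := by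
  by_cases h : s = 0
  · exact Or.inl h
  · right
    obtain ⟨i, hi⟩ := Finsupp.ne_iff.mp h
    refine ⟨s - Finsupp.single i 1, i, ?_⟩
    have hle : Finsupp.single i 1 ≤ s := by
      rw [Finsupp.single_le_iff]
      simp at hi
      omega
    exact (tsub_add_cancel_of_le hle).symm

section
variable {K : Type} [Field K] [CharZero K]

/-- span of the products `Hs a l * monomial`, `k ≤ l`, total degree `n` -/
private noncomputable def CycV_T (a : ℕ → Lam K) (n k : ℕ) : Submodule K (Lam K) :=
  Submodule.span K {F : Lam K | ∃ (l : ℕ) (s : ℕ →₀ ℕ), k ≤ l ∧ l + CycV_wt s = n ∧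
    F = Hs a l * monomial s (1 : K)}

private theorem CycV_T_mem (a : ℕ → Lam K) {n k l : ℕ} (s : ℕ →₀ ℕ) (h1 : k ≤ l)
    (h2 : l + CycV_wt s = n) : Hs a l * monomial s (1 : K) ∈ CycV_T a n k :=
  Submodule.subset_span ⟨l, s, h1, h2, rfl⟩

private theorem CycV_T_mono (a : ℕ → Lam K) (n : ℕ) {k k' : ℕ} (h : k ≤ k') :
    CycV_T a n k' ≤ CycV_T a n k := by
  apply Submodule.span_le.mpr
  rintro F ⟨l, s, h1, h2, rfl⟩
  exact CycV_T_mem a s (h.trans h1) h2

private theorem CycV_mon (s : ℕ →₀ ℕ) (i : ℕ) :
    (monomial (s + Finsupp.single i 1) (1 : K) : Lam K) = X i * monomial s (1 : K) := by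
  rw [X, monomial_mul, one_mul, add_comm]

private theorem CycV_T_mul (a : ℕ → Lam K) (n k i : ℕ) (F : Lam K) (hF : F ∈ CycV_T a n k) :
    X i * F ∈ CycV_T a (n + (i + 1)) k := by
  induction hF using Submodule.span_induction with
  | mem F hF =>
    obtain ⟨l, s, h1, h2, rfl⟩ := hF
    have : X i * (Hs a l * monomial s (1 : K)) =
        Hs a l * monomial (s + Finsupp.single i 1) (1 : K) := by
      rw [CycV_mon]; ring
    rw [this]
    apply CycV_T_mem a _ h1
    rw [map_add, CycV_wt_single]; omega
  | zero => simp
  | add x y _ _ hx hy => rw [mul_add]; exact Submodule.add_mem _ hx hy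
  | smul c x _ hx => rw [mul_smul_comm]; exact Submodule.smul_mem _ _ hx

/-- expansion of `Vo m a k` on monomials -/
private theorem CycV_exp (hDX : StDX) (hVo1 : StVo1) (m : ℕ → K) (a : ℕ → Lam K) :
    ∀ (N : ℕ) (s : ℕ →₀ ℕ), CycV_wt s = N → ∀ k : ℕ,
      Vo m a k (monomial s (1 : K)) - Hs a k * monomial s (1 : K) ∈ CycV_T a (N + k) (k + 1) := by
  intro N
  induction N using Nat.strong_induction_on with
  | _ N ih =>
    intro s hs k
    rcases CycV_dec s with h0 | ⟨s', i, h0⟩
    · subst h0
      have h1 : (monomial (0 : ℕ →₀ ℕ) (1 : K) : Lam K) = 1 := by simp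
      rw [h1, (hVo1 K m a k).1, mul_one, sub_self]
      exact Submodule.zero_mem _
    · subst h0
      rw [map_add, CycV_wt_single] at hs
      have ih1 := ih (CycV_wt s') (by omega) s' rfl k
      have ih2 := ih (CycV_wt s') (by omega) s' rfl (k + i + 1)
      have hx := (hDX K m a k i (monomial s' (1 : K)) 0 0).1
      rw [CycV_mon, hx]
      have e : X i * Vo m a k (monomial s' (1 : K)) + m i • Vo m a (k + i + 1) (monomial s' (1 : K)) -
          Hs a k * (X i * monomial s' (1 : K)) =
          X i * (Vo m a k (monomial s' (1 : K)) - Hs a k * monomial s' (1 : K)) +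
          m i • ((Vo m a (k + i + 1) (monomial s' (1 : K)) -
            Hs a (k + i + 1) * monomial s' (1 : K)) + Hs a (k + i + 1) * monomial s' (1 : K)) := by
        rw [sub_add_cancel]; ring
      rw [e]
      apply Submodule.add_mem
      · have := CycV_T_mul a _ _ i _ ih1
        rwa [show CycV_wt s' + k + (i + 1) = N + k by omega] at this
      · apply Submodule.smul_mem
        apply Submodule.add_mem
        · rw [show CycV_wt s' + (k + i + 1) = N + k by omega] at ih2
          exact CycV_T_mono a _ (by omega) ih2
        · exact CycV_T_mem a _ (by omega) (by omega)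

end

theorem pCycV (hDX : StDX) (hVo1 : StVo1) (hHsR : StHsR) : StCycV := by
  intro K _ _ m ε hε hm S h1 hX hV
  have hε0 : ε ≠ 0 := by rcases hε with h | h <;> rw [h] <;> simp
  set a : ℕ → Lam K := fun i => C ε * X i with ha
  -- stability under all the operators
  have hk : ∀ k : ℕ, ∀ f ∈ S, Vo m a (k + 1) f ∈ S := by
    intro k
    induction k with
    | zero => exact hV
    | succ k ih =>
      intro f hf
      have hx := (hDX K m a (k + 1) 0 f 0 0).1
      have e : Vo m a (k + 1 + 1) f =
          (m 0)⁻¹ • (Vo m a (k + 1) (X 0 * f) - X 0 * Vo m a (k + 1) f) := by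
        rw [hx, add_sub_cancel_left, smul_smul, inv_mul_cancel₀ hm, one_smul]
      rw [e]
      exact Submodule.smul_mem _ _ (Submodule.sub_mem _ (ih _ (hX f hf)) (hX _ (ih f hf)))
  -- monomials
  have main : ∀ (n : ℕ) (s : ℕ →₀ ℕ), CycV_wt s = n → (monomial s (1 : K) : Lam K) ∈ S := by
    intro n
    induction n using Nat.strong_induction_on with
    | _ n ih =>
      intro s hs
      have hT : ∀ d k : ℕ, 1 ≤ k → n < k + d → CycV_T a n k ≤ S := by
        intro d
        induction d with
        | zero =>
          intro k h1k hk2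
          apply Submodule.span_le.mpr
          rintro F ⟨l, s', hl, hs', rfl⟩
          omega
        | succ d ihd =>
          intro k h1k hk2
          have hup := ihd (k + 1) (by omega) (by omega)
          apply Submodule.span_le.mpr
          rintro F ⟨l, s', hl, hs', rfl⟩
          rcases Nat.eq_or_lt_of_le hl with hl | hl
          · subst hl
            have m1 := ih (CycV_wt s') (by omega) s' rfl
            obtain ⟨k', rfl⟩ : ∃ k', k = k' + 1 := ⟨k - 1, by omega⟩
            have m2 := hk k' _ m1
            have m3 := CycV_exp hDX hVo1 m a (CycV_wt s') s' rfl (k' + 1)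
            rw [show CycV_wt s' + (k' + 1) = n by omega] at m3
            have m4 := Submodule.sub_mem _ m2 (hup m3)
            rwa [sub_sub_cancel] at m4
          · exact hup (CycV_T_mem a s' hl hs')
      have hT1 : CycV_T a n 1 ≤ S := hT n 1 le_rfl (by omega)
      rcases CycV_dec s with h0 | ⟨s', i, h0⟩
      · subst h0
        simpa using h1
      · subst h0
        rw [map_add, CycV_wt_single] at hs
        rw [CycV_mon]
        have hr := (hHsR (Lam K) a).2 i
        have hr2 : ((i + 1 : ℚ)) • Hs a (i + 1) = ∑ j ∈ range (i + 1), a j * Hs a (i - j) := by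
          rw [hr, smul_smul, mul_inv_cancel₀ (by positivity), one_smul]
        rw [sum_range_succ, Nat.sub_self, (hHsR (Lam K) a).1, mul_one] at hr2
        have hai : a i = ((i + 1 : ℚ)) • Hs a (i + 1) - ∑ j ∈ range i, a j * Hs a (i - j) := by
          rw [hr2]; ring
        have hin : a i * monomial s' (1 : K) ∈ S := by
          apply hT1
          rw [hai, sub_mul, sum_mul]
          apply Submodule.sub_mem
          · have e : ((i + 1 : ℚ)) • Hs a (i + 1) * monomial s' (1 : K) =
                ((i + 1 : K)) • (Hs a (i + 1) * monomial s' (1 : K)) := by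
              rw [smul_mul_assoc]
              have : ((i + 1 : ℚ)) = ((i + 1 : ℕ) : ℚ) := by push_cast; ring
              rw [this, Nat.cast_smul_eq_nsmul]
              have : ((i : K) + 1) = ((i + 1 : ℕ) : K) := by push_cast; ring
              rw [this, Nat.cast_smul_eq_nsmul]
            rw [e]
            exact Submodule.smul_mem _ _ (CycV_T_mem a _ (by omega) (by omega))
          · apply Submodule.sum_mem
            intro j hj
            rw [mem_range] at hj
            have e : a j * Hs a (i - j) * monomial s' (1 : K) =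
                ε • (Hs a (i - j) * monomial (s' + Finsupp.single j 1) (1 : K)) := by
              rw [CycV_mon, ha, smul_eq_C_mul]; ring
            rw [e]
            apply Submodule.smul_mem
            apply CycV_T_mem a _ (by omega)
            rw [map_add, CycV_wt_single]; omega
        have e : X i * monomial s' (1 : K) = ε⁻¹ • (a i * monomial s' (1 : K)) := by
          rw [ha, smul_eq_C_mul]
          simp only
          rw [← mul_assoc, ← mul_assoc, ← C_mul, inv_mul_cancel₀ hε0, C_1, one_mul]
        rw [e]
        exact Submodule.smul_mem _ _ hin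
  rw [Submodule.eq_top_iff']
  intro f
  rw [← f.support_sum_monomial_coeff]
  apply Submodule.sum_mem
  intro s _
  have e : (monomial s (coeff s f) : Lam K) = coeff s f • monomial s (1 : K) := by
    rw [smul_monomial, smul_eq_mul, mul_one]
  rw [e]
  exact Submodule.smul_mem _ _ (main _ s rfl)

end Pool.VD
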