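import Pool.Agent.VD.StM

/-!
# Block M, module Dom: dominance order
-/

set_option autoImplicit false

namespace Pool.VD

open Finset

theorem Dom_row0 (μ : YoungDiagram) (i : ℕ) (h : μ.card ≤ i) : μ.rowLen i = 0 := by
  by_contra hc
  have hsub : (range (i + 1)).image (fun r => (r, 0)) ⊆ μ.cells := by
    intro x hx
    obtain ⟨r, hr, rfl⟩ := mem_image.1 hx
    have h1 : (i, 0) ∈ μ := YoungDiagram.mem_iff_lt_rowLen.mpr (Nat.pos_of_ne_zero hc)
    exact (YoungDiagram.mem_cells _).2 (μ.up_left_mem (by have := mem_range.1 hr; omega) le_rfl h1)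
  have h2 := card_le_card hsub
  rw [card_image_of_injective _ (fun a b hab => (Prod.mk.inj hab).1), card_range] at h2
  have h3 : μ.cells.card = μ.card := rfl
  omega

theorem Dom_sum (μ : YoungDiagram) (N : ℕ) (hN : μ.card ≤ N) :
    ∑ r ∈ range N, μ.rowLen r = μ.card := by
  have h := Finset.card_eq_sum_card_fiberwise (f := Prod.fst) (s := μ.cells)
    (t := range N) (fun c hc => by
      have hc' : c ∈ μ := by simpa using hc
      have h1 := YoungDiagram.mem_iff_lt_rowLen.1 (show (c.1, c.2) ∈ μ from hc')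
      simp only [coe_range, Set.mem_Iio]
      by_contra h2
      rw [Dom_row0 μ c.1 (by omega)] at h1
      omega)
  rw [YoungDiagram.card, h]
  refine Finset.sum_congr rfl fun i _ => ?_
  rw [YoungDiagram.rowLen_eq_card, YoungDiagram.row]

theorem Dom_pre_le (μ : YoungDiagram) (k : ℕ) : ∑ r ∈ range k, μ.rowLen r ≤ μ.card := by
  rw [← Dom_sum μ (max k μ.card) (le_max_right _ _)]
  exact sum_le_sum_of_subset (range_mono (le_max_left _ _))

theorem pDom : StDom := by
  refine ⟨fun lam => ⟨rfl, fun _ => le_rfl⟩, fun a b c h1 h2 =>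
    ⟨h1.1.trans h2.1, fun k => (h1.2 k).trans (h2.2 k)⟩, fun lam ν h hne => ?_⟩
  rw [dm, dm, ← h.1]
  refine sum_lt_sum (fun k _ => Nat.sub_le_sub_left (h.2 k) _) ?_
  by_contra hcon
  push Not at hcon
  apply hne
  have heq : ∀ k, k ≤ lam.card → ∑ i ∈ range k, lam.rowLen i = ∑ i ∈ range k, ν.rowLen i := by
    intro k hk
    have h1 := hcon k (mem_range.2 (by omega))
    have h2 := h.2 k
    have h3 := Dom_pre_le lam k
    have h4 := Dom_pre_le ν k
    rw [← h.1] at h4
    omega
  have hrow : ∀ i, ν.rowLen i = lam.rowLen i := by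
    intro i
    by_cases hi : i < lam.card
    · have h1 := heq i hi.le
      have h2 := heq (i + 1) hi
      rw [sum_range_succ, sum_range_succ] at h2
      omega
    · rw [Dom_row0 lam i (by omega), Dom_row0 ν i (by rw [← h.1]; omega)]
  ext ⟨i, j⟩
  rw [YoungDiagram.mem_cells, YoungDiagram.mem_cells, YoungDiagram.mem_iff_lt_rowLen,
    YoungDiagram.mem_iff_lt_rowLen, hrow]

end Pool.VD
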