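import Pool.Agent.VD.StM

/-!
# MP_cf06d4_co, group V, module E1
-/

set_option autoImplicit false

namespace Pool.VD

open MvPolynomial Finset

private theorem E1_dg {K : Type} [Field K] [CharZero K] (b : Module.Basis YoungDiagram K (Lam K))
    (φ : YoungDiagram → K) (ν : YoungDiagram) : dg b φ (b ν) = φ ν • b ν := by
  unfold dg
  exact b.constr_basis K _ ν

private theorem E1_repr {K : Type} [Field K] [CharZero K] (b : Module.Basis YoungDiagram K (Lam K))
    (φ : YoungDiagram → K) (f : Lam K) (μ : YoungDiagram) :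
    b.repr (dg b φ f) μ = φ μ * b.repr f μ := by
  have h : (Finsupp.lapply μ ∘ₗ b.repr.toLinearMap) ∘ₗ dg b φ =
      φ μ • (Finsupp.lapply μ ∘ₗ b.repr.toLinearMap) := by
    refine b.ext fun ν => ?_
    simp only [LinearMap.comp_apply, LinearMap.smul_apply, E1_dg, LinearEquiv.coe_coe, map_smul,
      Finsupp.lapply_apply, Module.Basis.repr_self, smul_eq_mul]
    by_cases hv : ν = μ
    · subst hv; simp
    · simp [hv]
  have := congrArg (fun L => L f) h
  simpa using this

private theorem E1_hom {K : Type} [Field K] [CharZero K] (q t : K)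
    (b : Module.Basis YoungDiagram K (Lam K)) (hb : EB q t b) (n : ℕ) (f : Lam K) (hf : IsH n f)
    (ν : YoungDiagram) (hν : b.repr f ν ≠ 0) : ν.card = n := by
  by_contra hne
  have h : (Finsupp.lapply ν ∘ₗ b.repr.toLinearMap) ∘ₗ
      (weightedHomogeneousComponent (R := K) (fun i : ℕ => i + 1) n) = 0 := by
    refine b.ext fun κ => ?_
    have hκ : IsWeightedHomogeneous (fun i : ℕ => i + 1) (b κ) κ.card := hb.hom κ
    by_cases hc : κ.card = n
    · have h1 : weightedHomogeneousComponent (fun i : ℕ => i + 1) n (b κ) = b κ := by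
        rw [← hc]; exact hκ.weightedHomogeneousComponent_same
      have h2 : κ ≠ ν := by rintro rfl; exact hne hc
      simp only [LinearMap.comp_apply, h1]
      simp [h2]
    · have h1 : weightedHomogeneousComponent (fun i : ℕ => i + 1) n (b κ) = 0 :=
        hκ.weightedHomogeneousComponent_ne n (Ne.symm hc)
      simp only [LinearMap.comp_apply, h1]
      simp
  have h2 := congrArg (fun L => L f) h
  have h3 : weightedHomogeneousComponent (fun i : ℕ => i + 1) n f = f :=
    IsWeightedHomogeneous.weightedHomogeneousComponent_same hf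
  simp only [LinearMap.comp_apply, h3] at h2
  exact hν (by simpa using h2)

private theorem E1_span {K : Type} [Field K] [CharZero K] (q t : K)
    (b : Module.Basis YoungDiagram K (Lam K)) (hb : EB q t b) (n : ℕ) (f : Lam K) (hf : IsH n f) :
    f ∈ Submodule.span K (b '' {ν | ν.card = n}) := by
  rw [Module.Basis.mem_span_image]
  intro ν hν
  exact E1_hom q t b hb n f hf ν (by simpa using hν)

private theorem E1_gen (hPie : StPie) {K : Type} [Field K] [CharZero K] (q t : K) (hq : Gq q t)
    (b : Module.Basis YoungDiagram K (Lam K)) (hb : EB q t b) (φ : YoungDiagram → K) (a u : K)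
    (ν : YoungDiagram)
    (hφ : ∀ (μ : YoungDiagram) (c : ℕ × ℕ), c ∉ ν.cells → μ.cells = insert c ν.cells →
      φ μ = φ ν * (a + u * xc q t c)) :
    dg b φ (X 0 * b ν) = φ ν • (a • (X 0 * b ν) - u • Dk q t 1 (b ν)) := by
  refine b.ext_elem fun μ => ?_
  obtain ⟨h1, h2⟩ := hPie K q t hq b hb μ ν
  rw [E1_repr]
  simp only [map_smul, map_sub, Finsupp.smul_apply, Finsupp.sub_apply, smul_eq_mul, h1]
  by_cases h0 : b.repr (X 0 * b ν) μ = 0
  · rw [h0]; ring
  · obtain ⟨c, hc, hcc⟩ := h2 h0
    have hB : Bm q t μ - Bm q t ν = xc q t c := by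
      unfold Bm; rw [hcc, Finset.sum_insert hc]; ring
    rw [hB, hφ μ c hc hcc]; ring

theorem pE1 (hPie : StPie) : StE1 := by
  intro K _ _ q t hq b hb
  have h1mem : (1 : Lam K) ∈ Submodule.span K (b '' {ν | ν.card = 0}) :=
    E1_span q t b hb 0 1 (isWeightedHomogeneous_one K _)
  refine ⟨⟨?_, ?_, ?_⟩, ?_, ?_, ?_⟩
  · -- N 1 = 1
    have h : Set.EqOn (dg b (Tm q t)) (LinearMap.id : Lam K →ₗ[K] Lam K) (b '' {ν | ν.card = 0}) := by
      rintro _ ⟨ν, hν, rfl⟩
      have hc : ν.cells = ∅ := Finset.card_eq_zero.mp hν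
      rw [E1_dg]
      simp [Tm, hc]
    exact LinearMap.eqOn_span h h1mem
  · -- commutes with D_0
    have h : dg b (Tm q t) ∘ₗ Dk q t 0 = Dk q t 0 ∘ₗ dg b (Tm q t) := by
      refine b.ext fun ν => ?_
      simp only [LinearMap.comp_apply, hb.d0, E1_dg, map_smul]
      rw [smul_comm]
    intro f
    exact congrArg (fun L => L f) h
  · -- e_1
    have h : dg b (Tm q t) ∘ₗ mulL (X 0) = -(Dk q t 1 ∘ₗ dg b (Tm q t)) := by
      refine b.ext fun ν => ?_
      have := E1_gen hPie q t hq b hb (Tm q t) 0 1 ν (by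
        intro μ c hc hcc
        unfold Tm; rw [hcc, Finset.prod_insert hc]; ring)
      simp only [LinearMap.comp_apply, LinearMap.neg_apply, E1_dg, map_smul, mulL,
        LinearMap.mulLeft_apply]
      rw [this]; simp
    intro f
    exact congrArg (fun L => L f) h
  · intro u f
    have h : dg b (Um q t u) ∘ₗ mulL (X 0) =
        mulL (X 0) ∘ₗ dg b (Um q t u) + u • (Dk q t 1 ∘ₗ dg b (Um q t u)) := by
      refine b.ext fun ν => ?_
      have := E1_gen hPie q t hq b hb (Um q t u) 1 (-u) ν (by
        intro μ c hc hcc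
        unfold Um; rw [hcc, Finset.prod_insert hc]; ring)
      simp only [LinearMap.comp_apply, LinearMap.add_apply, LinearMap.smul_apply, E1_dg, map_smul,
        mulL, LinearMap.mulLeft_apply]
      rw [this, one_smul, neg_smul, sub_neg_eq_add, smul_add, smul_comm u]
    exact congrArg (fun L => L f) h
  · intro n f hn hf
    have h : Set.EqOn (dg b (Pm q t) ∘ₗ mulL (X 0))
        (mulL (X 0) ∘ₗ dg b (Pm q t) + (Dk q t 1 ∘ₗ dg b (Pm q t)) : Lam K →ₗ[K] Lam K)
        (b '' {ν | ν.card = n}) := by
      rintro _ ⟨ν, hν, rfl⟩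
      have hν' : ν.card = n := hν
      have hne : (0, 0) ∈ ν.cells := by
        have h0 : ν.cells.Nonempty := by
          rw [← Finset.card_pos]
          change 0 < ν.card
          omega
        obtain ⟨c, hc⟩ := h0
        exact ν.isLowerSet (show ((0 : ℕ), (0 : ℕ)) ≤ c from ⟨Nat.zero_le _, Nat.zero_le _⟩) hc
      have := E1_gen hPie q t hq b hb (Pm q t) 1 (-1) ν (by
        intro μ c hc hcc
        have hc0 : c ≠ (0, 0) := by rintro rfl; exact hc hne
        unfold Pm
        rw [hcc, Finset.erase_insert_of_ne hc0,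
          Finset.prod_insert (fun h => hc (Finset.mem_of_mem_erase h))]; ring)
      simp only [LinearMap.comp_apply, LinearMap.add_apply, E1_dg, map_smul,
        mulL, LinearMap.mulLeft_apply]
      rw [this, one_smul, neg_smul, sub_neg_eq_add, smul_add, one_smul]
    exact LinearMap.eqOn_span h (E1_span q t b hb n f hf)
  · have h : Set.EqOn (dg b (Pm q t) ∘ₗ mulL (X 0)) (mulL (X 0) : Lam K →ₗ[K] Lam K)
        (b '' {ν | ν.card = 0}) := by
      rintro _ ⟨ν, hν, rfl⟩
      have hc0 : ν.cells = ∅ := Finset.card_eq_zero.mp hν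
      refine b.ext_elem fun μ => ?_
      obtain ⟨-, h2⟩ := hPie K q t hq b hb μ ν
      simp only [LinearMap.comp_apply, mulL, LinearMap.mulLeft_apply]
      rw [E1_repr]
      by_cases h0 : b.repr (X 0 * b ν) μ = 0
      · rw [h0, mul_zero]
      · obtain ⟨c, hc, hcc⟩ := h2 h0
        have hcm : c ∈ μ.cells := by rw [hcc]; exact Finset.mem_insert_self _ _
        have h00 : ((0 : ℕ), (0 : ℕ)) ∈ μ.cells :=
          μ.isLowerSet (show ((0 : ℕ), (0 : ℕ)) ≤ c from ⟨Nat.zero_le _, Nat.zero_le _⟩) hcm
        have hc1 : (0, 0) = c := by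
          rw [hcc, hc0] at h00; simpa using h00
        have hP : Pm q t μ = 1 := by
          unfold Pm; rw [hcc, hc0, ← hc1]; simp
        rw [hP, one_mul]
    have := LinearMap.eqOn_span h h1mem
    simpa [mulL] using this

end Pool.VD
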