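import Pool.Agent.VD.StM2

/-!
# Module E1S (group V): `nabla D*_1 = e_1 nabla`
-/

set_option autoImplicit false

namespace Pool.VD

open MvPolynomial Finset

private theorem E1S_repr {K : Type} [Field K] [CharZero K] (b : Module.Basis YoungDiagram K (Lam K))
    (φ : YoungDiagram → K) (f : Lam K) (μ : YoungDiagram) :
    b.repr (dg b φ f) μ = φ μ * b.repr f μ := by
  have h : (Finsupp.lapply μ : (YoungDiagram →₀ K) →ₗ[K] K) ∘ₗ b.repr.toLinearMap ∘ₗ dg b φ =
      φ μ • ((Finsupp.lapply μ : (YoungDiagram →₀ K) →ₗ[K] K) ∘ₗ b.repr.toLinearMap) := by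
    apply b.ext
    intro ν
    simp only [LinearMap.comp_apply, LinearEquiv.coe_coe, Finsupp.lapply_apply, LinearMap.smul_apply,
      dg, Module.Basis.constr_basis, map_smul, Finsupp.smul_apply, smul_eq_mul, Module.Basis.repr_self]
    rcases eq_or_ne ν μ with rfl | h
    · rfl
    · rw [Finsupp.single_eq_of_ne' h]; simp
  have := LinearMap.congr_fun h f
  simpa only [LinearMap.comp_apply, LinearEquiv.coe_coe, Finsupp.lapply_apply, LinearMap.smul_apply,
    smul_eq_mul] using this

/-- Module E1S. -/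
theorem pE1S (hPieS : StPieS) (hPie : StPie) (hGqF : StGqF) : StE1S := by
  intro K _ _ q t hG b hb f
  obtain ⟨hq, ht, -⟩ := hGqF K q t hG
  have h : dg b (Tm q t) ∘ₗ Dsk q t 1 = mulL (X 0) ∘ₗ dg b (Tm q t) := by
    apply b.ext
    intro ν
    apply b.repr.injective
    ext μ
    have e2 : (mulL (X 0 : Lam K) ∘ₗ dg b (Tm q t)) (b ν) = Tm q t ν • (X 0 * b ν) := by
      simp only [LinearMap.comp_apply, dg, Module.Basis.constr_basis, mulL, LinearMap.mulLeft_apply,
        mul_smul_comm]
    rw [e2, LinearMap.comp_apply, E1S_repr, map_smul, Finsupp.smul_apply, smul_eq_mul]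
    obtain ⟨h1, h2⟩ := hPieS K q t hG b hb μ ν
    by_cases hd : b.repr (X 0 * b ν) μ = 0
    · rw [h1, hd]; simp
    · obtain ⟨c, hc, hμ⟩ := (hPie K q t hG b hb μ ν).2 hd
      rw [h2 c hc hμ]
      have hx : xc q t c ≠ 0 := mul_ne_zero (pow_ne_zero _ hq) (pow_ne_zero _ ht)
      have hT : Tm q t μ = xc q t c * Tm q t ν := by
        unfold Tm
        rw [hμ, Finset.prod_insert hc]
      rw [hT]
      field_simp
  exact LinearMap.congr_fun h f

end Pool.VD
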