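import Pool.Agent.VD.StM

/-!
# MP_cf06d4_co, block M, module Eig: the common eigenbasis of `D_0` and `D*_0`
-/

set_option autoImplicit false

namespace Pool.VD

open MvPolynomial Finset

variable {K : Type} [Field K] [CharZero K]

private lemma Eig_card (lam : YoungDiagram) :
    ∑ i ∈ range (lam.colLen 0), lam.rowLen i = lam.card := by
  have h := Finset.card_eq_sum_card_fiberwise (f := Prod.fst) (s := lam.cells)
    (t := range (lam.colLen 0)) (fun c hc => by
      have hc' : c ∈ lam := by simpa using hc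
      have h0 : (c.1, 0) ∈ lam := lam.up_left_mem le_rfl (Nat.zero_le _) hc'
      simpa using YoungDiagram.mem_iff_lt_colLen.1 h0)
  rw [YoungDiagram.card, h]
  refine Finset.sum_congr rfl fun i _ => ?_
  rw [YoungDiagram.rowLen_eq_card, YoungDiagram.row]

private lemma Eig_gq (q : K) (i : ℕ) : IsH (i + 1) (gq q i) := by
  have h1 : IsWeightedHomogeneous (fun i : ℕ => i + 1) (C ((1 - q ^ (i + 1))⁻¹) : Lam K) 0 :=
    isWeightedHomogeneous_C _ _
  have h2 : IsWeightedHomogeneous (fun i : ℕ => i + 1) (X i : Lam K) (i + 1) :=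
    isWeightedHomogeneous_X K _ i
  have h3 := h1.mul h2
  rw [zero_add] at h3
  exact h3

private lemma Eig_hP (hHom : StHsHom) (q : K) (lam : YoungDiagram) : IsH lam.card (hP (gq q) lam) := by
  have h := IsWeightedHomogeneous.prod (R := K) (w := fun i : ℕ => i + 1) (range (lam.colLen 0))
    (fun i => Hs (gq q) (lam.rowLen i)) (fun i => lam.rowLen i)
    (fun i _ => hHom K (gq q) (fun i => Eig_gq q i) (lam.rowLen i))
  rw [Eig_card] at h
  exact h

theorem pEig (hHPB : StHPB) (hEigA : StEigA) (hTriD : StTriD) (hDD : StDD) (hGqF : StGqF) (hB : StB)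
    (hHsHom : StHsHom) : StEig := by
  intro K _ _ q t hq
  obtain ⟨hq0, ht0, hqt, hqk, htk, hMk, hM', hsw, hxc⟩ := hGqF K q t hq
  obtain ⟨B, hBB⟩ := hHPB K q hqk
  have hM1 : Mk q t 1 ≠ 0 := hMk 0
  have hinj : Function.Injective (cm q t) := by
    intro μ ν h
    apply (hB K q t).1 hq
    simp only [cm] at h
    have h1 : Mk q t 1 * Bm q t μ = Mk q t 1 * Bm q t ν := by linear_combination -h
    exact mul_left_cancel₀ hM1 h1
  have hspan : ∀ lam : YoungDiagram,
      Submodule.span K {f : Lam K | ∃ ν, Dom lam ν ∧ ν ≠ lam ∧ f = B ν} = Ugt (gq q) lam := by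
    intro lam
    simp only [hBB]
    rfl
  obtain ⟨b, hb1, hb2, hb3⟩ := hEigA K (Lam K) B (Dk q t 0) (Ds q t) (cm q t) (cm q⁻¹ t⁻¹) hinj
    (fun v => ((hDD K q t hq0 ht0 hqt v).1).symm)
    (fun lam => by rw [hspan, hBB]; exact (hTriD K q t hq lam).1)
    (fun lam => by rw [hspan, hBB]; exact (hTriD K q t hq lam).2)
  have hsp : ∀ μ, Submodule.span K {f : Lam K | ∃ lam, Dom μ lam ∧ f = b lam} = Uge (gq q) μ := by
    intro μ
    rw [hb3]
    simp only [hBB]
    rfl
  refine ⟨b, hb1, hb2, fun μ => ?_, hsp⟩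
  have h1 : b μ ∈ Uge (gq q) μ := by
    rw [← hsp]
    exact Submodule.subset_span ⟨μ, ⟨rfl, fun _ => le_rfl⟩, rfl⟩
  have h2 : Uge (gq q) μ ≤ weightedHomogeneousSubmodule K (fun i : ℕ => i + 1) μ.card := by
    refine Submodule.span_le.2 ?_
    rintro f ⟨ν, hν, rfl⟩
    have h3 := Eig_hP hHsHom q ν
    rw [← hν.1] at h3
    exact h3
  exact h2 h1

end Pool.VD
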