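import Pool.Agent.VD.StM

/-!
# MP_cf06d4_co, module EigA: commuting triangular operators have a common eigenbasis
-/

set_option autoImplicit false

namespace Pool.VD

open Finset

section

variable {K : Type} [Field K] {V : Type} [AddCommGroup V] [Module K V]

/-- the span of the `h ν`, `ν > lam` -/
private def EigA_U (h : YoungDiagram → V) (lam : YoungDiagram) : Submodule K V :=
  Submodule.span K {f : V | ∃ ν, Dom lam ν ∧ ν ≠ lam ∧ f = h ν}

private theorem EigA_lt (hDom : StDom) {lam ν ρ : YoungDiagram} (h1 : Dom lam ν) (h2 : ν ≠ lam)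
    (h3 : Dom ν ρ) (h4 : ρ ≠ ν) : Dom lam ρ ∧ ρ ≠ lam := by
  refine ⟨hDom.2.1 _ _ _ h1 h3, ?_⟩
  intro h5
  have h6 := hDom.2.2 lam ν h1 h2
  have h7 := hDom.2.2 ν ρ h3 h4
  rw [h5] at h7
  omega

private theorem EigA_mono (hDom : StDom) (h : YoungDiagram → V) {lam ν : YoungDiagram}
    (h1 : Dom lam ν) (h2 : ν ≠ lam) : (EigA_U h ν : Submodule K V) ≤ EigA_U h lam := by
  apply Submodule.span_mono
  rintro f ⟨ρ, h3, h4, rfl⟩
  obtain ⟨h5, h6⟩ := EigA_lt hDom h1 h2 h3 h4
  exact ⟨ρ, h5, h6, rfl⟩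

private theorem EigA_map (hDom : StDom) (h : YoungDiagram → V) (D : V →ₗ[K] V)
    (c : YoungDiagram → K) (hD : ∀ lam, D (h lam) - c lam • h lam ∈ (EigA_U h lam : Submodule K V))
    (lam : YoungDiagram) : ∀ u ∈ (EigA_U h lam : Submodule K V), D u ∈ (EigA_U h lam : Submodule K V) := by
  intro u hu
  refine Submodule.span_induction ?_ ?_ ?_ ?_ hu
  · rintro f ⟨ν, h1, h2, rfl⟩
    have h3 := EigA_mono (K := K) hDom h h1 h2 (hD ν)
    have h4 : h ν ∈ (EigA_U h lam : Submodule K V) := Submodule.subset_span ⟨ν, h1, h2, rfl⟩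
    have h5 := Submodule.add_mem _ h3 (Submodule.smul_mem _ (c ν) h4)
    rw [sub_add_cancel] at h5
    exact h5
  · rw [map_zero]
    exact Submodule.zero_mem _
  · intro x y _ _ hx hy
    rw [map_add]
    exact Submodule.add_mem _ hx hy
  · intro a x _ hx
    rw [map_smul]
    exact Submodule.smul_mem _ _ hx

private theorem EigA_surj (hDom : StDom) (h : YoungDiagram → V) (D : V →ₗ[K] V)
    (c : YoungDiagram → K) (hD : ∀ lam, D (h lam) - c lam • h lam ∈ (EigA_U h lam : Submodule K V))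
    (γ : K) : ∀ (n : ℕ) (lam : YoungDiagram), dm lam = n → (∀ ν, Dom lam ν → ν ≠ lam → c ν ≠ γ) →
    ∀ u ∈ (EigA_U h lam : Submodule K V), ∃ w ∈ (EigA_U h lam : Submodule K V), D w - γ • w = u := by
  intro n
  induction n using Nat.strong_induction_on with
  | _ n ih =>
    intro lam hn hγ u hu
    refine Submodule.span_induction ?_ ?_ ?_ ?_ hu
    · rintro f ⟨ν, h1, h2, rfl⟩
      have h3 := hDom.2.2 lam ν h1 h2
      obtain ⟨w, hw1, hw2⟩ := ih (dm ν) (by omega) ν rfl
        (fun ρ h4 h5 => hγ ρ (EigA_lt hDom h1 h2 h4 h5).1 (EigA_lt hDom h1 h2 h4 h5).2) _ (hD ν)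
      have hne : c ν - γ ≠ 0 := sub_ne_zero.2 (hγ ν h1 h2)
      have h4 : h ν ∈ (EigA_U h lam : Submodule K V) := Submodule.subset_span ⟨ν, h1, h2, rfl⟩
      refine ⟨(c ν - γ)⁻¹ • (h ν - w), Submodule.smul_mem _ _
        (Submodule.sub_mem _ h4 (EigA_mono (K := K) hDom h h1 h2 hw1)), ?_⟩
      have h5 : D (h ν - w) - γ • (h ν - w) = (c ν - γ) • h ν := by
        rw [map_sub, smul_sub, sub_smul]
        have h6 : D w = D (h ν) - c ν • h ν + γ • w := by
          rw [← hw2]
          abel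
        rw [h6]
        abel
      rw [map_smul, smul_comm γ, ← smul_sub, h5, smul_smul, inv_mul_cancel₀ hne, one_smul]
    · exact ⟨0, Submodule.zero_mem _, by rw [map_zero, smul_zero, sub_zero]⟩
    · rintro x y _ _ ⟨w1, h1, h2⟩ ⟨w2, h3, h4⟩
      refine ⟨w1 + w2, Submodule.add_mem _ h1 h3, ?_⟩
      rw [← h2, ← h4, map_add, smul_add]
      abel
    · rintro a x _ ⟨w, h1, h2⟩
      refine ⟨a • w, Submodule.smul_mem _ _ h1, ?_⟩
      rw [← h2, map_smul, smul_sub, smul_comm γ]

private theorem EigA_inj (hDom : StDom) (h : Module.Basis YoungDiagram K V) (D : V →ₗ[K] V)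
    (c : YoungDiagram → K) (hD : ∀ lam, D (h lam) - c lam • h lam ∈ (EigA_U h lam : Submodule K V))
    (γ : K) (lam : YoungDiagram) (hγ : ∀ ν, Dom lam ν → ν ≠ lam → c ν ≠ γ) (x : V)
    (hx : x ∈ (EigA_U h lam : Submodule K V)) (hDx : D x = γ • x) : x = 0 := by
  classical
  by_contra hne
  -- the support of x
  have hsup : ∀ ν ∈ (h.repr x).support, Dom lam ν ∧ ν ≠ lam := by
    have hset : {f : V | ∃ ν, Dom lam ν ∧ ν ≠ lam ∧ f = h ν} = h '' {ν | Dom lam ν ∧ ν ≠ lam} := by
      ext f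
      constructor
      · rintro ⟨ν, h1, h2, rfl⟩
        exact ⟨ν, ⟨h1, h2⟩, rfl⟩
      · rintro ⟨ν, ⟨h1, h2⟩, rfl⟩
        exact ⟨ν, h1, h2, rfl⟩
    unfold EigA_U at hx
    rw [hset, h.mem_span_image] at hx
    intro ν hν
    exact hx hν
  have hnes : (h.repr x).support.Nonempty := by
    rw [Finsupp.support_nonempty_iff]
    intro h0
    exact hne (h.repr.map_eq_zero_iff.1 h0)
  obtain ⟨ν, hν, hmax⟩ := Finset.exists_max_image (h.repr x).support dm hnes
  obtain ⟨h1, h2⟩ := hsup ν hν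
  -- coefficient of h ν in D (h ρ)
  have hcoef : ∀ ρ ∈ (h.repr x).support, h.repr (D (h ρ)) ν = if ρ = ν then c ν else 0 := by
    intro ρ hρ
    have h3 := hD ρ
    have h4 : h.repr (D (h ρ) - c ρ • h ρ) ν = 0 := by
      have hset : {f : V | ∃ τ, Dom ρ τ ∧ τ ≠ ρ ∧ f = h τ} = h '' {τ | Dom ρ τ ∧ τ ≠ ρ} := by
        ext f
        constructor
        · rintro ⟨τ, h1, h2, rfl⟩
          exact ⟨τ, ⟨h1, h2⟩, rfl⟩
        · rintro ⟨τ, ⟨h1, h2⟩, rfl⟩
          exact ⟨τ, h1, h2, rfl⟩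
      unfold EigA_U at h3
      rw [hset, h.mem_span_image] at h3
      by_contra h5
      have h6 : ν ∈ (h.repr (D (h ρ) - c ρ • h ρ)).support := Finsupp.mem_support_iff.2 h5
      obtain ⟨h7, h8⟩ := h3 h6
      have h9 := hDom.2.2 ρ ν h7 h8
      have h10 := hmax ρ hρ
      omega
    rw [map_sub, Finsupp.sub_apply, map_smul, Finsupp.smul_apply, h.repr_self] at h4
    rw [sub_eq_zero.1 h4]
    by_cases h5 : ρ = ν
    · rw [if_pos h5, h5, Finsupp.single_eq_same, smul_eq_mul, mul_one]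
    · rw [if_neg h5, Finsupp.single_eq_of_ne (Ne.symm h5), smul_zero]
  have hsum : x = ∑ ρ ∈ (h.repr x).support, h.repr x ρ • h ρ := by
    have := h.linearCombination_repr x
    rw [Finsupp.linearCombination_apply, Finsupp.sum] at this
    exact this.symm
  have h11 : h.repr (D x) ν = c ν * h.repr x ν := by
    conv_lhs => rw [hsum]
    rw [map_sum, map_sum, Finsupp.finsetSum_apply]
    rw [Finset.sum_eq_single ν]
    · rw [map_smul, map_smul, Finsupp.smul_apply, hcoef ν hν, if_pos rfl, smul_eq_mul, mul_comm]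
    · intro ρ hρ hne
      rw [map_smul, map_smul, Finsupp.smul_apply, hcoef ρ hρ, if_neg hne, smul_zero]
    · intro hn
      exact absurd hν hn
  rw [hDx, map_smul, Finsupp.smul_apply, smul_eq_mul] at h11
  have h12 : h.repr x ν ≠ 0 := Finsupp.mem_support_iff.1 hν
  exact hγ ν h1 h2 (mul_right_cancel₀ h12 h11.symm)

end

theorem pEigA (hDom : StDom) : StEigA := by
  classical
  intro K _ V _ _ h D D' c c' hc hcomm hD hD'
  have hDU : ∀ lam, D (h lam) - c lam • h lam ∈ (EigA_U h lam : Submodule K V) := hD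
  have hDU' : ∀ lam, D' (h lam) - c' lam • h lam ∈ (EigA_U h lam : Submodule K V) := hD'
  have hcne : ∀ lam ν, Dom lam ν → ν ≠ lam → c ν ≠ c lam := fun lam ν _ h2 h3 => h2 (hc h3)
  have hex : ∀ lam, ∃ v : V, v - h lam ∈ (EigA_U h lam : Submodule K V) ∧ D v = c lam • v := by
    intro lam
    obtain ⟨w, hw1, hw2⟩ := EigA_surj hDom h D c hDU (c lam) (dm lam) lam rfl (hcne lam) _ (hDU lam)
    refine ⟨h lam - w, ?_, ?_⟩
    · rw [sub_sub_cancel_left]
      exact Submodule.neg_mem _ hw1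
    · have h6 : D w = D (h lam) - c lam • h lam + c lam • w := by
        rw [← hw2]
        abel
      rw [map_sub, smul_sub, h6]
      abel
  choose v hv1 hv2 using hex
  have hv0 : ∀ lam, v lam ≠ 0 := by
    intro lam h0
    have h1 := hv1 lam
    rw [h0, zero_sub] at h1
    have h2 : h lam ∈ (EigA_U h lam : Submodule K V) := by
      have := Submodule.neg_mem _ h1
      rwa [neg_neg] at this
    have hset : {f : V | ∃ τ, Dom lam τ ∧ τ ≠ lam ∧ f = h τ} = h '' {τ | Dom lam τ ∧ τ ≠ lam} := by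
      ext f
      constructor
      · rintro ⟨τ, h1, h2, rfl⟩
        exact ⟨τ, ⟨h1, h2⟩, rfl⟩
      · rintro ⟨τ, ⟨h1, h2⟩, rfl⟩
        exact ⟨τ, h1, h2, rfl⟩
    unfold EigA_U at h2
    rw [hset, h.mem_span_image, h.repr_self] at h2
    have h3 : lam ∈ (Finsupp.single lam (1 : K)).support := by
      rw [Finsupp.mem_support_iff, Finsupp.single_eq_same]
      exact one_ne_zero
    exact (h2 h3).2 rfl
  -- D' eigenvectors
  have hv3 : ∀ lam, D' (v lam) = c' lam • v lam := by
    intro lam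
    have h1 : D' (v lam) - c' lam • v lam ∈ (EigA_U h lam : Submodule K V) := by
      have h2 := EigA_map hDom h D' c' hDU' lam _ (hv1 lam)
      have h3 := Submodule.smul_mem _ (c' lam) (hv1 lam)
      have h4 := Submodule.add_mem _ (Submodule.sub_mem _ h2 h3) (hDU' lam)
      have h5 : D' (v lam) - c' lam • v lam =
          D' (v lam - h lam) - c' lam • (v lam - h lam) + (D' (h lam) - c' lam • h lam) := by
        rw [map_sub, smul_sub]
        abel
      rw [h5]
      exact h4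
    have h2 : D (D' (v lam) - c' lam • v lam) = c lam • (D' (v lam) - c' lam • v lam) := by
      rw [map_sub, hcomm, hv2, map_smul, map_smul, hv2, smul_sub, smul_comm (c' lam)]
    exact sub_eq_zero.1 (EigA_inj hDom h D c hDU (c lam) lam (hcne lam) _ h1 h2)
  -- spans
  have hspan1 : ∀ lam, Submodule.span K {f : V | ∃ ν, Dom lam ν ∧ f = v ν} ≤
      Submodule.span K {f : V | ∃ ν, Dom lam ν ∧ f = h ν} := by
    intro lam
    rw [Submodule.span_le]
    rintro f ⟨ν, h1, rfl⟩
    have h2 : (EigA_U h ν : Submodule K V) ≤ Submodule.span K {f : V | ∃ ν, Dom lam ν ∧ f = h ν} := by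
      apply Submodule.span_mono
      rintro f ⟨ρ, h3, _, rfl⟩
      exact ⟨ρ, hDom.2.1 _ _ _ h1 h3, rfl⟩
    have h3 := h2 (hv1 ν)
    have h4 : h ν ∈ Submodule.span K {f : V | ∃ ν, Dom lam ν ∧ f = h ν} :=
      Submodule.subset_span ⟨ν, h1, rfl⟩
    have h5 := Submodule.add_mem _ h3 h4
    rw [sub_add_cancel] at h5
    exact h5
  have hmem : ∀ (n : ℕ) (lam : YoungDiagram), dm lam = n →
      h lam ∈ Submodule.span K {f : V | ∃ ν, Dom lam ν ∧ f = v ν} := by
    intro n
    induction n using Nat.strong_induction_on with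
    | _ n ih =>
      intro lam hn
      have h1 : (EigA_U h lam : Submodule K V) ≤
          Submodule.span K {f : V | ∃ ν, Dom lam ν ∧ f = v ν} := by
        unfold EigA_U
        rw [Submodule.span_le]
        rintro f ⟨ν, h2, h3, rfl⟩
        have h4 := hDom.2.2 lam ν h2 h3
        have h5 := ih (dm ν) (by omega) ν rfl
        have h6 : Submodule.span K {f : V | ∃ ρ, Dom ν ρ ∧ f = v ρ} ≤
            Submodule.span K {f : V | ∃ ν, Dom lam ν ∧ f = v ν} := by
          apply Submodule.span_mono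
          rintro f ⟨ρ, h7, rfl⟩
          exact ⟨ρ, hDom.2.1 _ _ _ h2 h7, rfl⟩
        exact h6 h5
      have h2 : v lam ∈ Submodule.span K {f : V | ∃ ν, Dom lam ν ∧ f = v ν} :=
        Submodule.subset_span ⟨lam, hDom.1 lam, rfl⟩
      have h3 := Submodule.sub_mem _ h2 (h1 (hv1 lam))
      rw [sub_sub_cancel] at h3
      exact h3
  have hspan2 : ∀ lam, Submodule.span K {f : V | ∃ ν, Dom lam ν ∧ f = h ν} ≤
      Submodule.span K {f : V | ∃ ν, Dom lam ν ∧ f = v ν} := by
    intro lam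
    rw [Submodule.span_le]
    rintro f ⟨ν, h1, rfl⟩
    have h6 : Submodule.span K {f : V | ∃ ρ, Dom ν ρ ∧ f = v ρ} ≤
        Submodule.span K {f : V | ∃ ν, Dom lam ν ∧ f = v ν} := by
      apply Submodule.span_mono
      rintro f ⟨ρ, h7, rfl⟩
      exact ⟨ρ, hDom.2.1 _ _ _ h1 h7, rfl⟩
    exact h6 (hmem (dm ν) ν rfl)
  -- the basis
  have hli : LinearIndependent K v := by
    apply Module.End.eigenvectors_linearIndependent' D c hc v
    intro lam
    rw [Module.End.hasEigenvector_iff]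
    exact ⟨Module.End.mem_eigenspace_iff.2 (hv2 lam), hv0 lam⟩
  have hsp : ⊤ ≤ Submodule.span K (Set.range v) := by
    rw [← h.span_eq, Submodule.span_le]
    rintro f ⟨lam, rfl⟩
    have h1 : Submodule.span K {f : V | ∃ ν, Dom lam ν ∧ f = v ν} ≤ Submodule.span K (Set.range v) := by
      apply Submodule.span_mono
      rintro f ⟨ν, _, rfl⟩
      exact ⟨ν, rfl⟩
    exact h1 (hmem (dm lam) lam rfl)
  refine ⟨Module.Basis.mk hli hsp, ?_, ?_, ?_⟩
  · intro lam
    rw [Module.Basis.mk_apply]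
    exact hv2 lam
  · intro lam
    rw [Module.Basis.mk_apply]
    exact hv3 lam
  · intro lam
    have h1 : {f : V | ∃ ν, Dom lam ν ∧ f = (Module.Basis.mk hli hsp) ν} =
        {f : V | ∃ ν, Dom lam ν ∧ f = v ν} := by
      ext f
      constructor
      · rintro ⟨ν, h2, h3⟩
        exact ⟨ν, h2, by rw [h3, Module.Basis.mk_apply]⟩
      · rintro ⟨ν, h2, h3⟩
        exact ⟨ν, h2, by rw [h3, Module.Basis.mk_apply]⟩
    rw [h1]
    exact le_antisymm (hspan1 lam) (hspan2 lam)

end Pool.VD
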