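import Pool.Agent.VD.StM

/-!
# VD module GqF: elementary consequences of algebraic independence
-/

set_option autoImplicit false

namespace Pool.VD

open MvPolynomial Finset

/-- monomials in algebraically independent elements are different -/
theorem GqF_mono {K : Type} [Field K] [CharZero K] {q t : K} (h : Gq q t) {a b c d : ℕ}
    (he : q ^ a * t ^ b = q ^ c * t ^ d) : a = c ∧ b = d := by
  have hi : Function.Injective (aeval ![q, t] : MvPolynomial (Fin 2) ℚ →ₐ[ℚ] K) := h
  have h1 : (aeval ![q, t] : MvPolynomial (Fin 2) ℚ →ₐ[ℚ] K) (X 0 ^ a * X 1 ^ b) =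
      (aeval ![q, t] : MvPolynomial (Fin 2) ℚ →ₐ[ℚ] K) (X 0 ^ c * X 1 ^ d) := by
    simpa using he
  have h2 := hi h1
  constructor
  · have e : ∀ m n : ℕ, (X 0 ^ m * X 1 ^ n : MvPolynomial (Fin 2) ℚ) =
        monomial (Finsupp.single 0 m + Finsupp.single 1 n) 1 := by
      intro m n
      rw [X_pow_eq_monomial, X_pow_eq_monomial, monomial_mul, one_mul]
    rw [e, e] at h2
    have h4 := (monomial_left_injective (one_ne_zero : (1 : ℚ) ≠ 0)) h2
    simpa using DFunLike.congr_fun h4 (0 : Fin 2)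
  · have e : ∀ m n : ℕ, (X 0 ^ m * X 1 ^ n : MvPolynomial (Fin 2) ℚ) =
        monomial (Finsupp.single 0 m + Finsupp.single 1 n) 1 := by
      intro m n
      rw [X_pow_eq_monomial, X_pow_eq_monomial, monomial_mul, one_mul]
    rw [e, e] at h2
    have h4 := (monomial_left_injective (one_ne_zero : (1 : ℚ) ≠ 0)) h2
    simpa using DFunLike.congr_fun h4 (1 : Fin 2)

theorem GqF_swap {K : Type} [Field K] [CharZero K] {q t : K} (h : Gq q t) : Gq t q := by
  have h1 := AlgebraicIndependent.comp h (fun i : Fin 2 => ![1, 0] i)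
    (by intro i j hij; fin_cases i <;> fin_cases j <;> simp_all)
  have h2 : (![q, t] ∘ fun i : Fin 2 => ![1, 0] i) = ![t, q] := by
    funext i
    fin_cases i <;> rfl
  rw [h2] at h1
  exact h1

/-- **GqF.** -/
theorem pGqF : StGqF := by
  intro K _ _ q t h
  have hq : q ≠ 0 := by
    intro h0
    have := GqF_mono h (a := 1) (b := 0) (c := 2) (d := 0) (by rw [h0]; simp)
    omega
  have ht : t ≠ 0 := by
    intro h0
    have := GqF_mono h (a := 0) (b := 1) (c := 0) (d := 2) (by rw [h0]; simp)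
    omega
  have hqk : ∀ k, q ^ (k + 1) ≠ 1 := by
    intro k hk
    have := GqF_mono h (a := k + 1) (b := 0) (c := 0) (d := 0) (by simpa using hk)
    omega
  have htk : ∀ k, t ^ (k + 1) ≠ 1 := by
    intro k hk
    have := GqF_mono h (a := 0) (b := k + 1) (c := 0) (d := 0) (by simpa using hk)
    omega
  refine ⟨hq, ht, ?_, hqk, htk, ?_, ?_, GqF_swap h, ?_⟩
  · intro h1
    have := GqF_mono h (a := 1) (b := 1) (c := 0) (d := 0) (by simpa using h1)
    omega
  · intro k
    unfold Mk
    exact mul_ne_zero (sub_ne_zero.2 (Ne.symm (hqk k))) (sub_ne_zero.2 (Ne.symm (htk k)))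
  · unfold Mk
    have h1 := hqk 0
    have h2 := htk 0
    simp only [zero_add, pow_one] at h1 h2 ⊢
    refine mul_ne_zero (sub_ne_zero.2 ?_) (sub_ne_zero.2 ?_)
    · intro h3
      exact h1 (inv_eq_one.1 h3.symm)
    · intro h3
      exact h2 (inv_eq_one.1 h3.symm)
  · rintro ⟨i, j⟩ hc h1
    unfold xc at h1
    have := GqF_mono h (a := j) (b := i) (c := 0) (d := 0) (by simpa using h1)
    apply hc
    rw [Prod.mk.injEq]
    omega

end Pool.VD
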