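import Pool.Agent.VD.StM

/-!
# MP_cf06d4_co, block M, module HPB: the `h_lam[X/(1-q)]` are a basis
-/

set_option autoImplicit false

namespace Pool.VD

open MvPolynomial Finset

/-- the inverse Newton polynomials: `P_n = (n+1) X_n - ∑_(i<n) P_i X_(n-1-i)` -/
private noncomputable def HPB_P (K : Type) [Field K] : ℕ → Lam K
  | n => ((n : Lam K) + 1) * X n - ∑ i : Fin n, HPB_P K i * X (n - 1 - i)
termination_by n => n
decreasing_by exact i.2

private theorem HPB_P_eq (K : Type) [Field K] (n : ℕ) :
    HPB_P K n = ((n : Lam K) + 1) * X n - ∑ i ∈ range n, HPB_P K i * X (n - 1 - i) := by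
  rw [HPB_P, Finset.sum_range]

private theorem HPB_HsP (K : Type) [Field K] [CharZero K] (hHsR : StHsR) (n : ℕ) :
    Hs (HPB_P K) (n + 1) = (X n : Lam K) := by
  induction n using Nat.strong_induction_on with
  | _ n ih =>
    rw [(hHsR (Lam K) (HPB_P K)).2 n, Finset.sum_range_succ, Nat.sub_self, (hHsR (Lam K) (HPB_P K)).1,
      mul_one]
    have h1 : ∑ i ∈ range n, HPB_P K i * Hs (HPB_P K) (n - i) =
        ∑ i ∈ range n, HPB_P K i * X (n - 1 - i) := by
      refine Finset.sum_congr rfl fun i hi => ?_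
      rw [Finset.mem_range] at hi
      have h2 : n - i = (n - 1 - i) + 1 := by omega
      rw [h2, ih (n - 1 - i) (by omega)]
    rw [h1, HPB_P_eq K n]
    have h3 : ∑ i ∈ range n, HPB_P K i * X (n - 1 - i) +
        (((n : Lam K) + 1) * X n - ∑ i ∈ range n, HPB_P K i * X (n - 1 - i)) =
        ((n + 1 : ℚ)) • (X n : Lam K) := by
      rw [Algebra.smul_def]
      simp
    rw [h3, smul_smul, inv_mul_cancel₀ (by positivity), one_smul]

private theorem HPB_surj (K : Type) [Field K] [CharZero K] (hHsR : StHsR) (c : ℕ → K)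
    (i : ℕ) :
    (C (c i) * X i : Lam K) ∈
      (aeval (fun n => Hs (fun i => (C (c i) * X i : Lam K)) (n + 1)) : Lam K →ₐ[K] Lam K).range := by
  induction i using Nat.strong_induction_on with
  | _ n ih =>
    have hH : ∀ m, Hs (fun i => (C (c i) * X i : Lam K)) m ∈
        (aeval (fun n => Hs (fun i => (C (c i) * X i : Lam K)) (n + 1)) :
          Lam K →ₐ[K] Lam K).range := by
      intro m
      cases m with
      | zero => rw [(hHsR (Lam K) _).1]; exact one_mem _
      | succ m => exact ⟨X m, by simp⟩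
    have h := (hHsR (Lam K) (fun i => (C (c i) * X i : Lam K))).2 n
    rw [Finset.sum_range_succ, Nat.sub_self, (hHsR (Lam K) _).1, mul_one] at h
    have h2 : (C (c n) * X n : Lam K) = C ((n : K) + 1) * Hs (fun i => (C (c i) * X i : Lam K)) (n + 1)
        - ∑ i ∈ range n, (C (c i) * X i : Lam K) * Hs (fun i => (C (c i) * X i : Lam K)) (n - i) := by
      rw [h, Algebra.smul_def, ← mul_assoc]
      have h3 : (C ((n : K) + 1) : Lam K) * (algebraMap ℚ (Lam K)) ((n + 1 : ℚ)⁻¹) = 1 := by
        have h4 : (C ((n : K) + 1) : Lam K) = algebraMap ℚ (Lam K) (n + 1 : ℚ) := by simp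
        rw [h4, ← map_mul, mul_inv_cancel₀ (by positivity), map_one]
      rw [h3, one_mul]
      ring
    rw [h2]
    refine sub_mem (mul_mem ?_ (hH _)) (sum_mem fun i hi => mul_mem (ih i (Finset.mem_range.1 hi)) (hH _))
    exact ⟨C ((n : K) + 1), by simp⟩

private theorem HPB_bij (K : Type) [Field K] [CharZero K] (hHsR : StHsR) (hHsMap : StHsMap) (c : ℕ → K)
    (hc : ∀ i, c i ≠ 0) :
    Function.Bijective
      (aeval (fun n => Hs (fun i => (C (c i) * X i : Lam K)) (n + 1)) : Lam K →ₐ[K] Lam K) := by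
  constructor
  · have hF : Function.LeftInverse
        (aeval (fun n => C (c n)⁻¹ * HPB_P K n) : Lam K →ₐ[K] Lam K)
        (aeval (fun n => Hs (fun i => (C (c i) * X i : Lam K)) (n + 1)) : Lam K →ₐ[K] Lam K) := by
      intro f
      have h1 : ((aeval (fun n => C (c n)⁻¹ * HPB_P K n) : Lam K →ₐ[K] Lam K).comp
          (aeval (fun n => Hs (fun i => (C (c i) * X i : Lam K)) (n + 1)) : Lam K →ₐ[K] Lam K)) =
          AlgHom.id K (Lam K) := by
        apply MvPolynomial.algHom_ext
        intro n
        rw [AlgHom.comp_apply, aeval_X, AlgHom.id_apply]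
        have h2 := hHsMap (Lam K) (Lam K)
          ((aeval (fun n => C (c n)⁻¹ * HPB_P K n) : Lam K →ₐ[K] Lam K) : Lam K →+* Lam K)
          (fun i => (C (c i) * X i : Lam K)) (n + 1)
        rw [RingHom.coe_coe] at h2
        rw [h2]
        have h3 : (fun i => (aeval (fun n => C (c n)⁻¹ * HPB_P K n) : Lam K →ₐ[K] Lam K)
            (C (c i) * X i : Lam K)) = HPB_P K := by
          funext i
          rw [map_mul, aeval_X, aeval_C, algebraMap_eq, ← mul_assoc, ← C_mul, mul_inv_cancel₀ (hc i),
            C_1, one_mul]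
        rw [h3, HPB_HsP K hHsR n]
      exact DFunLike.congr_fun h1 f
    exact hF.injective
  · intro f
    have h1 : (⊤ : Subalgebra K (Lam K)) ≤
        (aeval (fun n => Hs (fun i => (C (c i) * X i : Lam K)) (n + 1)) : Lam K →ₐ[K] Lam K).range := by
      rw [← MvPolynomial.adjoin_range_X, Algebra.adjoin_le_iff]
      rintro _ ⟨i, rfl⟩
      have h2 := HPB_surj K hHsR c i
      have h3 : (X i : Lam K) = C (c i)⁻¹ * (C (c i) * X i) := by
        rw [← mul_assoc, ← C_mul, inv_mul_cancel₀ (hc i), C_1, one_mul]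
      rw [h3]
      exact mul_mem ⟨C (c i)⁻¹, by simp [algebraMap_eq]⟩ h2
    exact h1 (Algebra.mem_top (x := f))

/-- the multiset of `row length - 1` as a finitely supported function -/
private noncomputable def HPB_e (lam : YoungDiagram) : ℕ →₀ ℕ :=
  Multiset.toFinsupp ((lam.rowLens : Multiset ℕ).map (fun x => x - 1))

private theorem HPB_e_bij : Function.Bijective HPB_e := by
  constructor
  · intro lam mu h
    have h1 : ((lam.rowLens : Multiset ℕ).map (fun x => x - 1)) =
        ((mu.rowLens : Multiset ℕ).map (fun x => x - 1)) := Multiset.toFinsupp.injective h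
    have h2 : ∀ nu : YoungDiagram, (((nu.rowLens : Multiset ℕ).map (fun x => x - 1)).map
        (fun x => x + 1)) = (nu.rowLens : Multiset ℕ) := by
      intro nu
      rw [Multiset.map_map]
      conv_rhs => rw [← Multiset.map_id (nu.rowLens : Multiset ℕ)]
      refine Multiset.map_congr rfl fun x hx => ?_
      have h3 := nu.pos_of_mem_rowLens x (by simpa using hx)
      simp only [Function.comp, id]
      omega
    have h3 : (lam.rowLens : Multiset ℕ) = (mu.rowLens : Multiset ℕ) := by
      rw [← h2 lam, ← h2 mu, h1]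
    have h4 : lam.rowLens = mu.rowLens :=
      (Multiset.coe_eq_coe.1 h3).eq_of_pairwise' lam.rowLens_sorted.pairwise mu.rowLens_sorted.pairwise
    have h5 := lam.ofRowLens_to_rowLens_eq_self
    have h6 := mu.ofRowLens_to_rowLens_eq_self
    rw [← h5, ← h6]
    congr 1
  · intro m
    have hs : ((((Finsupp.toMultiset m).map (fun x => x + 1)).sort (· ≥ ·)).SortedGE) :=
      (Multiset.pairwise_sort _ _).sortedGE
    have hpos : ∀ x ∈ (((Finsupp.toMultiset m).map (fun x => x + 1)).sort (· ≥ ·)), 0 < x := by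
      intro x hx
      rw [Multiset.mem_sort, Multiset.mem_map] at hx
      obtain ⟨y, -, rfl⟩ := hx
      omega
    refine ⟨YoungDiagram.ofRowLens _ hs, ?_⟩
    unfold HPB_e
    rw [YoungDiagram.rowLens_ofRowLens_eq_self hpos, Multiset.sort_eq, Multiset.map_map]
    have h1 : ((fun x => x - 1) ∘ (fun x : ℕ => x + 1)) = id := by
      funext x; simp
    rw [h1, Multiset.map_id]
    exact Finsupp.toMultiset_toFinsupp m

private theorem HPB_prod {K : Type} [Field K] (f : ℕ → Lam K) (s : Multiset ℕ) :
    (Multiset.toFinsupp s).prod (fun i k => f i ^ k) = (s.map f).prod := by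
  induction s using Multiset.induction_on with
  | empty => simp
  | cons a s ih =>
    rw [← Multiset.singleton_add, map_add, Multiset.toFinsupp_singleton,
      Finsupp.prod_add_index' (by simp) (by intros; rw [pow_add]), Finsupp.prod_single_index (by simp),
      ih, pow_one, Multiset.map_add, Multiset.map_singleton, Multiset.prod_add, Multiset.prod_singleton]

theorem pHPB (hHsR : StHsR) (hHsMap : StHsMap) : StHPB := by
  intro K _ _ q hq
  have hc : ∀ i : ℕ, (1 - q ^ (i + 1))⁻¹ ≠ 0 := fun i => inv_ne_zero (sub_ne_zero.2 (hq i).symm)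
  have hb := HPB_bij K hHsR hHsMap (fun i => (1 - q ^ (i + 1))⁻¹) hc
  let G : Lam K ≃ₐ[K] Lam K := AlgEquiv.ofBijective
    (aeval (fun n => Hs (fun i => (C ((1 - q ^ (i + 1))⁻¹) * X i : Lam K)) (n + 1)) :
      Lam K →ₐ[K] Lam K) hb
  let e : YoungDiagram ≃ (ℕ →₀ ℕ) := Equiv.ofBijective HPB_e HPB_e_bij
  refine ⟨((MvPolynomial.basisMonomials ℕ K).map G.toLinearEquiv).reindex e.symm, fun lam => ?_⟩
  rw [Module.Basis.reindex_apply, Equiv.symm_symm, Module.Basis.map_apply,
    MvPolynomial.coe_basisMonomials]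
  have h1 : G.toLinearEquiv (monomial (e lam) (1 : K)) =
      (aeval (fun n => Hs (fun i => (C ((1 - q ^ (i + 1))⁻¹) * X i : Lam K)) (n + 1)) :
      Lam K →ₐ[K] Lam K) (monomial (HPB_e lam) (1 : K)) := rfl
  rw [h1, aeval_monomial, map_one, one_mul, HPB_e, HPB_prod, Multiset.map_map, hP]
  have h2 : (∏ i ∈ range (lam.colLen 0), Hs (gq q) (lam.rowLen i)) =
      (((List.range (lam.colLen 0) : Multiset ℕ).map (fun i => Hs (gq q) (lam.rowLen i))).prod) := rfl
  have h3 : (lam.rowLens : Multiset ℕ) = (List.range (lam.colLen 0) : Multiset ℕ).map lam.rowLen := rfl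
  rw [h2, h3, Multiset.map_map]
  congr 1
  refine Multiset.map_congr rfl fun i hi => ?_
  have h4 : 0 < lam.rowLen i := by
    refine lam.pos_of_mem_rowLens _ ?_
    rw [YoungDiagram.rowLens, List.mem_map]
    exact ⟨i, by simpa using hi, rfl⟩
  simp only [Function.comp]
  rw [Nat.sub_add_cancel h4]
  rfl

end Pool.VD
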