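import Pool.Agent.VD.StM

/-!
# MP_cf06d4_co, block M: module JT

Jacobi - Trudi as a coefficient of the Vandermonde product.
-/

set_option autoImplicit false

namespace Pool.VD

open MvPolynomial Finset

/-- the Vandermonde product as a sum over permutations -/
theorem JT_vd (K : Type) [Field K] (l : ℕ) :
    Vd K l = ∑ σ : Equiv.Perm (Fin l), ((Equiv.Perm.sign σ : ℤ) : MvPolynomial (Fin l) K) *
      ∏ i, (X i : MvPolynomial (Fin l) K) ^ (l - 1 - (σ i : ℕ)) := by
  have h1 : (Matrix.vandermonde (fun i : Fin l => (X (Fin.rev i) : MvPolynomial (Fin l) K))).det =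
      Vd K l := by
    rw [Matrix.det_vandermonde]
    unfold Vd prs
    rw [Finset.prod_sigma']
    refine Finset.prod_bij' (fun x _ => (Fin.rev x.2, Fin.rev x.1))
      (fun p _ => ⟨Fin.rev p.2, Fin.rev p.1⟩) ?_ ?_ ?_ ?_ ?_
    · intro x hx
      rw [Finset.mem_sigma, Finset.mem_Ioi] at hx
      rw [Finset.mem_filter]
      exact ⟨Finset.mem_univ _, Fin.rev_lt_rev.2 hx.2⟩
    · intro p hp
      rw [Finset.mem_filter] at hp
      rw [Finset.mem_sigma, Finset.mem_Ioi]
      exact ⟨Finset.mem_univ _, Fin.rev_lt_rev.2 hp.2⟩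
    · intro x _
      simp
    · intro p _
      simp
    · intro x _
      rfl
  have h2 : (Matrix.vandermonde (fun i : Fin l => (X (Fin.rev i) : MvPolynomial (Fin l) K))).det =
      (Matrix.of fun j i : Fin l => (X i : MvPolynomial (Fin l) K) ^ ((Fin.rev j : Fin l) : ℕ)).det := by
    rw [← Matrix.det_transpose (Matrix.of _), ← Matrix.det_submatrix_equiv_self Fin.revPerm
      (Matrix.vandermonde (fun i : Fin l => (X (Fin.rev i) : MvPolynomial (Fin l) K)))]
    congr 1
    ext1 i j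
    simp [Matrix.vandermonde]
  rw [← h1, h2, Matrix.det_apply']
  refine Finset.sum_congr rfl fun σ _ => ?_
  congr 1
  refine Finset.prod_congr rfl fun i _ => ?_
  show (X i : MvPolynomial (Fin l) K) ^ ((Fin.rev (σ i) : Fin l) : ℕ) = _
  congr 1
  rw [Fin.val_rev]
  omega

theorem JT_mono {K : Type} [Field K] [CharZero K] (a : ℕ → Lam K) {l : ℕ} (γ e : Fin l → ℕ) :
    Gam a γ (∏ i, (X i : MvPolynomial (Fin l) (Lam K)) ^ e i) =
      ∏ i, HZ a ((γ i : ℤ) - (e i : ℤ)) := by
  have h : (∏ i, (X i : MvPolynomial (Fin l) (Lam K)) ^ e i) =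
      MvPolynomial.basisMonomials (Fin l) (Lam K) (Finsupp.equivFunOnFinite.symm e) := by
    rw [MvPolynomial.coe_basisMonomials]
    show _ = MvPolynomial.monomial (Finsupp.equivFunOnFinite.symm e) 1
    rw [MvPolynomial.monomial_eq, map_one, one_mul,
      Finsupp.prod_fintype _ _ (fun i => pow_zero _)]
    rfl
  rw [h]
  unfold Gam
  rw [Module.Basis.constr_basis]
  rfl

theorem JT_gen {K : Type} [Field K] [CharZero K] (a : ℕ → Lam K) (l : ℕ) (r : ℕ → ℕ) :
    Matrix.det (Matrix.of fun i j : Fin l =>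
      HZ a ((r (i : ℕ) : ℤ) - ((i : ℕ) : ℤ) + ((j : ℕ) : ℤ))) =
    Gam a (fun i : Fin l => r (i : ℕ) + (l - 1 - (i : ℕ))) (MvPolynomial.map C (Vd K l)) := by
  rw [JT_vd, map_sum, map_sum, ← Matrix.det_transpose, Matrix.det_apply']
  refine Finset.sum_congr rfl fun σ _ => ?_
  rw [map_mul, map_intCast, map_prod]
  simp only [map_pow, MvPolynomial.map_X]
  rw [← zsmul_eq_mul, ← zsmul_eq_mul, map_zsmul, JT_mono]
  congr 1
  refine Finset.prod_congr rfl fun i _ => ?_
  show HZ a ((r (i : ℕ) : ℤ) - ((i : ℕ) : ℤ) + (((σ i : Fin l) : ℕ) : ℤ)) = _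
  congr 1
  have h1 : (i : ℕ) < l := i.2
  have h2 : ((σ i : Fin l) : ℕ) < l := (σ i).2
  push_cast
  omega

theorem pJT : StJT := by
  intro K _ _ a lam
  exact JT_gen a (lam.colLen 0) (fun i => lam.rowLen i)

end Pool.VD
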