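import Pool.Agent.VD.StM

/-!
# MP_cf06d4_co, block M, module JTm: `s_lam[A] = h_lam[A] + (higher)`
-/

set_option autoImplicit false

namespace Pool.VD

open MvPolynomial Finset

variable {K : Type} [Field K] [CharZero K]

/-- the functional `Gam` on a polynomial over `K` -/
lemma JTm_Gam (a : ℕ → Lam K) {l : ℕ} (γ : Fin l → ℕ) (P : MvPolynomial (Fin l) K) :
    Gam a γ (MvPolynomial.map C P) =
      ∑ β ∈ P.support, coeff β P • ∏ i, HZ a ((γ i : ℤ) - (β i : ℤ)) := by
  have h1 : ∀ (β : Fin l →₀ ℕ) (c : Lam K), Gam a γ (monomial β c) =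
      c * ∏ i, HZ a ((γ i : ℤ) - (β i : ℤ)) := by
    intro β c
    have h2 : (monomial β c : MvPolynomial (Fin l) (Lam K)) =
        c • MvPolynomial.basisMonomials (Fin l) (Lam K) β := by
      rw [coe_basisMonomials, smul_monomial, smul_eq_mul, mul_one]
    rw [h2, map_smul, Gam, Module.Basis.constr_basis, smul_eq_mul]
  conv_lhs => rw [P.as_sum]
  rw [map_sum, map_sum]
  refine Finset.sum_congr rfl fun β _ => ?_
  rw [map_monomial, h1, C_mul']

lemma JTm_sum_filter {l k : ℕ} (hk : k ≤ l) (f : ℕ → ℕ) :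
    ∑ i ∈ univ.filter (fun i : Fin l => (i : ℕ) < k), f (i : ℕ) = ∑ i ∈ range k, f i := by
  rw [Finset.sum_filter, Fin.sum_univ_eq_sum_range (fun i => if i < k then f i else 0) l,
    ← Finset.sum_filter]
  refine Finset.sum_congr ?_ fun _ _ => rfl
  ext i
  simp only [Finset.mem_filter, Finset.mem_range]
  omega

lemma JTm_card (lam : YoungDiagram) :
    ∑ i ∈ range (lam.colLen 0), lam.rowLen i = lam.card := by
  have h := Finset.card_eq_sum_card_fiberwise (f := Prod.fst) (s := lam.cells)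
    (t := range (lam.colLen 0)) (fun c hc => by
      have hc' : c ∈ lam := by simpa using hc
      have h0 : (c.1, 0) ∈ lam := lam.up_left_mem le_rfl (Nat.zero_le _) hc'
      simpa using YoungDiagram.mem_iff_lt_colLen.1 h0)
  rw [YoungDiagram.card, h]
  refine Finset.sum_congr rfl fun i _ => ?_
  rw [YoungDiagram.rowLen_eq_card, YoungDiagram.row]

theorem pJTm (hJT : StJT) (hTour : StTour) (hComp : StComp) : StJTm := by
  intro K _ _ a lam
  set l := lam.colLen 0 with hl
  set γ : Fin l → ℕ := fun i => lam.rowLen (i : ℕ) + (l - 1 - (i : ℕ)) with hγ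
  obtain ⟨hT1, hT2⟩ := hTour K l (fun _ => 1) (fun _ => 1)
  have hV : (∏ p ∈ prs l, (C ((fun _ : Fin l × Fin l => (1 : K)) p) * X p.1 -
      C ((fun _ : Fin l × Fin l => (1 : K)) p) * X p.2 : MvPolynomial (Fin l) K)) = Vd K l := by
    rw [Vd]
    refine Finset.prod_congr rfl fun p _ => ?_
    simp only [map_one, one_mul]
  rw [hV] at hT1 hT2
  have hT1' : coeff (dl l) (Vd K l) = 1 := by simpa using hT1
  have hmem : dl l ∈ (Vd K l).support := by
    rw [mem_support_iff, hT1']; exact one_ne_zero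
  have hdl : ∏ i : Fin l, HZ a ((γ i : ℤ) - ((dl l) i : ℤ)) = hP a lam := by
    rw [hP, ← Fin.prod_univ_eq_prod_range (fun i => Hs a (lam.rowLen i)) (lam.colLen 0)]
    refine Finset.prod_congr rfl fun i _ => ?_
    have h1 : ((γ i : ℤ) - ((dl l) i : ℤ)) = (lam.rowLen (i : ℕ) : ℤ) := by
      have : (dl l) i = l - 1 - (i : ℕ) := rfl
      rw [this, hγ]; push_cast; ring
    rw [h1, HZ, if_pos (Int.natCast_nonneg _), Int.toNat_natCast]
  rw [hJT K a lam, JTm_Gam a γ (Vd K l), ← Finset.add_sum_erase _ _ hmem, hdl, hT1', one_smul,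
    add_sub_cancel_left]
  refine Submodule.sum_mem _ fun β hβ => ?_
  rw [Finset.mem_erase, mem_support_iff] at hβ
  obtain ⟨hne, hc⟩ := hβ
  refine Submodule.smul_mem _ _ ?_
  obtain ⟨hpre, htot⟩ := hT2 β hc
  by_cases hle : ∀ i, β i ≤ γ i
  · set α : Fin l → ℕ := fun i => γ i - β i with hα
    have hprod : ∏ i, HZ a ((γ i : ℤ) - (β i : ℤ)) = ∏ i, Hs a (α i) := by
      refine Finset.prod_congr rfl fun i _ => ?_
      have h1 : ((γ i : ℤ) - (β i : ℤ)) = (α i : ℤ) := by
        rw [hα]; simp only; rw [Nat.cast_sub (hle i)]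
      rw [h1, HZ, if_pos (Int.natCast_nonneg _), Int.toNat_natCast]
    have hab : ∀ i, α i + β i = lam.rowLen (i : ℕ) + (l - 1 - (i : ℕ)) := by
      intro i
      have h1 := hle i
      have h2 : γ i = lam.rowLen (i : ℕ) + (l - 1 - (i : ℕ)) := rfl
      have h3 : α i = γ i - β i := rfl
      omega
    have hsum : ∀ s : Finset (Fin l), ∑ i ∈ s, α i + ∑ i ∈ s, β i =
        ∑ i ∈ s, lam.rowLen (i : ℕ) + ∑ i ∈ s, (l - 1 - (i : ℕ)) := by
      intro s
      rw [← Finset.sum_add_distrib, ← Finset.sum_add_distrib]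
      exact Finset.sum_congr rfl fun i _ => hab i
    rw [hprod]
    have hp1 : ∀ k ≤ l, ∑ i ∈ range k, lam.rowLen i ≤
        ∑ i ∈ univ.filter (fun i : Fin l => (i : ℕ) < k), α i := by
      intro k hk
      have h1 := hpre k
      have h2 := hsum (univ.filter (fun i : Fin l => (i : ℕ) < k))
      have h3 := JTm_sum_filter hk (fun i => lam.rowLen i)
      rw [← h3]
      omega
    have hp2 : ∑ i, α i = lam.card := by
      have h1 := hsum univ
      have h2 := Fin.sum_univ_eq_sum_range (fun i => lam.rowLen i) l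
      have h3 := JTm_card lam
      rw [← hl] at h3
      omega
    rcases hComp K a lam α hp1 hp2 with h | ⟨ν, h1, h2, h3⟩
    · exfalso
      apply hne
      ext i
      have h1 := h i
      have h2 := hab i
      have h3 : (dl l) i = l - 1 - (i : ℕ) := rfl
      rw [h3]
      omega
    · exact Submodule.subset_span ⟨ν, h1, h2, h3⟩
  · push Not at hle
    obtain ⟨i, hi⟩ := hle
    have h0 : ∏ i, HZ a ((γ i : ℤ) - (β i : ℤ)) = 0 := by
      refine Finset.prod_eq_zero (Finset.mem_univ i) ?_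
      rw [HZ, if_neg (by omega)]
    rw [h0]
    exact Submodule.zero_mem _

end Pool.VD
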