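import Pool.Agent.VD.StM

/-!
# Group V, block M: module Lag (decomposition into simple fractions)
-/

set_option autoImplicit false

namespace Pool.VD

open Finset

/-- the polynomial identity `∏ (1 - b u_i w) = ∏ (1 - u_i w) + (1-b) ∑ A_i u_i w ∏_(k≠i) (1 - u_k w)` -/
private theorem Lag_poly {F : Type} [Field F] (l : ℕ) (b : F) (x : Fin l → F)
    (hx : Function.Injective x) (h0 : ∀ i, x i ≠ 0) :
    ∏ i, (1 - Polynomial.C (b * x i) * Polynomial.X) =
      ∏ i, (1 - Polynomial.C (x i) * Polynomial.X) +
        ∑ i, Polynomial.C ((1 - b) * (∏ k ∈ univ.erase i, (x i - b * x k) / (x i - x k)) * x i) *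
          Polynomial.X * ∏ k ∈ univ.erase i, (1 - Polynomial.C (x k) * Polynomial.X) := by
  classical
  set s : Finset F := insert 0 (univ.image fun i => (x i)⁻¹) with hs
  have hlin : ∀ c : F, (1 - Polynomial.C c * Polynomial.X : Polynomial F).natDegree ≤ 1 := by
    intro c
    refine (Polynomial.natDegree_sub_le _ _).trans (max_le (by simp) ?_)
    exact (Polynomial.natDegree_C_mul_le _ _).trans Polynomial.natDegree_X_le
  have hcard : s.card = l + 1 := by
    rw [hs, card_insert_of_notMem, card_image_of_injective _ (fun i j h => hx (inv_injective h)),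
      card_univ, Fintype.card_fin]
    intro h
    obtain ⟨i, -, hi⟩ := mem_image.mp h
    exact inv_ne_zero (h0 i) hi
  have hprod : ∀ (t : Finset (Fin l)) (c : Fin l → F),
      (∏ i ∈ t, (1 - Polynomial.C (c i) * Polynomial.X : Polynomial F)).natDegree ≤ t.card := by
    intro t c
    refine (Polynomial.natDegree_prod_le _ _).trans ?_
    refine (sum_le_card_nsmul t _ 1 fun i _ => hlin _).trans ?_
    simp
  refine Polynomial.eq_of_natDegree_lt_card_of_eval_eq' _ _ s ?_ ?_
  · intro y hy
    rw [hs, mem_insert] at hy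
    rcases hy with rfl | hy
    · simp [Polynomial.eval_prod, Polynomial.eval_finsetSum]
    · obtain ⟨j, -, rfl⟩ := mem_image.mp hy
      have hj := h0 j
      simp only [Polynomial.eval_prod, Polynomial.eval_add, Polynomial.eval_finsetSum,
        Polynomial.eval_sub, Polynomial.eval_mul, Polynomial.eval_C, Polynomial.eval_X,
        Polynomial.eval_one]
      have h1 : ∏ i, (1 - x i * (x j)⁻¹) = 0 :=
        prod_eq_zero (mem_univ j) (by rw [mul_inv_cancel₀ hj, sub_self])
      rw [h1, zero_add, sum_eq_single j]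
      · rw [← mul_prod_erase univ _ (mem_univ j)]
        have h2 : (∏ k ∈ univ.erase j, (x j - b * x k) / (x j - x k)) *
            ∏ k ∈ univ.erase j, (1 - x k * (x j)⁻¹) = ∏ k ∈ univ.erase j, (1 - b * x k * (x j)⁻¹) := by
          rw [← prod_mul_distrib]
          refine prod_congr rfl fun k hk => ?_
          have hkj : x j - x k ≠ 0 := sub_ne_zero.mpr fun h => (mem_erase.mp hk).1 (hx h).symm
          field_simp
        rw [← h2]
        have h3 : b * x j * (x j)⁻¹ = b := by field_simp
        rw [h3]
        have h4 : x j * (x j)⁻¹ = 1 := mul_inv_cancel₀ hj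
        linear_combination (-(1 - b)) * (∏ k ∈ univ.erase j, (x j - b * x k) / (x j - x k)) *
          (∏ k ∈ univ.erase j, (1 - x k * (x j)⁻¹)) * h4
      · intro i _ hij
        have : ∏ k ∈ univ.erase i, (1 - x k * (x j)⁻¹) = 0 :=
          prod_eq_zero (mem_erase.mpr ⟨fun h => hij h.symm, mem_univ j⟩)
            (by rw [mul_inv_cancel₀ hj, sub_self])
        rw [this, mul_zero]
      · intro h; exact absurd (mem_univ j) h
  · rw [hcard]
    refine Nat.lt_succ_of_le (max_le ((hprod _ _).trans (by simp)) ?_)
    refine (Polynomial.natDegree_add_le _ _).trans (max_le ((hprod _ _).trans (by simp)) ?_)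
    refine Polynomial.natDegree_sum_le_of_forall_le _ _ fun i _ => ?_
    refine (Polynomial.natDegree_mul_le).trans ?_
    have h5 := hprod (univ.erase i) x
    rw [card_erase_of_mem (mem_univ i), card_univ, Fintype.card_fin] at h5
    have h6 : (Polynomial.C ((1 - b) * (∏ k ∈ univ.erase i, (x i - b * x k) / (x i - x k)) * x i) *
        Polynomial.X : Polynomial F).natDegree ≤ 1 :=
      (Polynomial.natDegree_C_mul_le _ _).trans Polynomial.natDegree_X_le
    have h7 : 1 ≤ l := Nat.one_le_iff_ne_zero.mpr fun h => by subst h; exact i.elim0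
    omega

private theorem Lag_g {F : Type} [Field F] (c : F) :
    PowerSeries.mk (fun n => if n = 0 then (0 : F) else c ^ n) *
      (1 - PowerSeries.C c * PowerSeries.X) = PowerSeries.C c * PowerSeries.X := by
  ext n
  rw [mul_sub, mul_one, map_sub, ← mul_assoc, mul_comm _ (PowerSeries.C c), mul_assoc,
    PowerSeries.coeff_C_mul, PowerSeries.coeff_C_mul, PowerSeries.coeff_X]
  cases n with
  | zero => simp
  | succ n =>
    rw [PowerSeries.coeff_succ_mul_X, PowerSeries.coeff_mk, PowerSeries.coeff_mk]
    cases n with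
    | zero => simp
    | succ n => simp [pow_succ]; ring

private theorem Lag_f {F : Type} [Field F] (b c : F) :
    PowerSeries.mk (fun n => (if n = 0 then (1 : F) else 1 - b) * c ^ n) *
      (1 - PowerSeries.C c * PowerSeries.X) = 1 - PowerSeries.C (b * c) * PowerSeries.X := by
  have h1 : PowerSeries.mk (fun n => (if n = 0 then (1 : F) else 1 - b) * c ^ n) =
      1 + PowerSeries.C (1 - b) * PowerSeries.mk (fun n => if n = 0 then (0 : F) else c ^ n) := by
    ext n
    rw [map_add, PowerSeries.coeff_C_mul, PowerSeries.coeff_mk, PowerSeries.coeff_mk,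
      PowerSeries.coeff_one]
    by_cases hn : n = 0 <;> simp [hn]
  rw [h1, add_mul, one_mul, mul_assoc, Lag_g, map_mul, map_sub, map_one]
  ring

private theorem Lag_ps {F : Type} [Field F] (l : ℕ) (b : F) (x : Fin l → F)
    (hx : Function.Injective x) (h0 : ∀ i, x i ≠ 0) :
    ∏ i, PowerSeries.mk (fun n => (if n = 0 then (1 : F) else 1 - b) * x i ^ n) =
      1 + ∑ i, PowerSeries.C ((1 - b) * ∏ k ∈ univ.erase i, (x i - b * x k) / (x i - x k)) *
        PowerSeries.mk (fun n => if n = 0 then (0 : F) else x i ^ n) := by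
  classical
  have hne : ∏ i, (1 - PowerSeries.C (x i) * PowerSeries.X : PowerSeries F) ≠ 0 := by
    refine prod_ne_zero_iff.mpr fun i _ h => ?_
    have := congrArg (PowerSeries.coeff 0) h
    simp at this
  refine mul_right_cancel₀ hne ?_
  rw [← prod_mul_distrib, prod_congr rfl fun i _ => Lag_f b (x i)]
  have hp := congrArg (Polynomial.coeToPowerSeries.ringHom) (Lag_poly l b x hx h0)
  rw [map_prod, map_add, map_prod, map_sum] at hp
  have e1 : ∀ c : F, Polynomial.coeToPowerSeries.ringHom (1 - Polynomial.C c * Polynomial.X) =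
      (1 - PowerSeries.C c * PowerSeries.X : PowerSeries F) := by
    intro c
    rw [map_sub, map_one, map_mul, Polynomial.coeToPowerSeries.ringHom_apply,
      Polynomial.coeToPowerSeries.ringHom_apply, Polynomial.coe_C, Polynomial.coe_X]
  rw [prod_congr rfl fun i _ => e1 (b * x i), prod_congr rfl fun i _ => e1 (x i)] at hp
  rw [hp, add_mul, one_mul, sum_mul]
  congr 1
  refine sum_congr rfl fun i _ => ?_
  rw [map_mul, map_mul, map_prod, prod_congr rfl fun k _ => e1 (x k),
    Polynomial.coeToPowerSeries.ringHom_apply, Polynomial.coeToPowerSeries.ringHom_apply,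
    Polynomial.coe_C, Polynomial.coe_X,
    ← mul_prod_erase univ (fun i => (1 - PowerSeries.C (x i) * PowerSeries.X : PowerSeries F))
      (mem_univ i), map_mul PowerSeries.C _ (x i)]
  generalize (PowerSeries.C ((1 - b) * ∏ k ∈ univ.erase i, (x i - b * x k) / (x i - x k)) :
    PowerSeries F) = A
  generalize (∏ k ∈ univ.erase i, (1 - PowerSeries.C (x k) * PowerSeries.X) : PowerSeries F) = P
  have hg := Lag_g (x i)
  calc A * PowerSeries.C (x i) * PowerSeries.X * P = A * (PowerSeries.C (x i) * PowerSeries.X) * P := by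
        rw [mul_assoc A]
    _ = A * (PowerSeries.mk (fun n => if n = 0 then (0 : F) else x i ^ n) *
      (1 - PowerSeries.C (x i) * PowerSeries.X)) * P := by rw [hg]
    _ = _ := by rw [← mul_assoc, mul_assoc _ _ P]

private theorem Lag_N {K : Type} [Field K] (l : ℕ) (b : K) (x : Fin l → K)
    (hx : Function.Injective x) (i : Fin l) : MvPolynomial.eval x (Nd l b i) =
      MvPolynomial.eval x (Vd K l) * ∏ k ∈ univ.erase i, (x i - b * x k) / (x i - x k) := by
  classical
  set R : Fin l → K := fun k => (x i - b * x k) / (x i - x k) with hR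
  set rr : Fin l × Fin l → K := fun p => if p.2 = i then R p.1 else if p.1 = i then R p.2 else 1
    with hrr
  have h1 : ∏ k ∈ univ.erase i, (x i - b * x k) / (x i - x k) = ∏ p ∈ prs l, rr p := by
    have h2 : ∏ p ∈ prs l, rr p = ∏ p ∈ (prs l).filter (fun p => p.2 = i ∨ p.1 = i), rr p := by
      refine (prod_subset (filter_subset _ _) fun p hp hn => ?_).symm
      have h3 : ¬ (p.2 = i ∨ p.1 = i) := fun h => hn (mem_filter.mpr ⟨hp, h⟩)
      rw [not_or] at h3
      simp only [hrr, if_neg h3.1, if_neg h3.2]
    rw [h2]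
    refine prod_nbij' (fun k => if k < i then (k, i) else (i, k))
      (fun p => if p.2 = i then p.1 else p.2) ?_ ?_ ?_ ?_ ?_
    · intro k hk
      have hki : k ≠ i := (mem_erase.mp hk).1
      by_cases h : k < i
      · simp [prs, h]
      · have h' : i < k := lt_of_le_of_ne (not_lt.mp h) hki.symm
        simp [prs, h, h']
    · intro p hp
      obtain ⟨hp1, hp2⟩ := mem_filter.mp hp
      have hlt : p.1 < p.2 := (mem_filter.mp hp1).2
      by_cases h : p.2 = i
      · simp only [if_pos h]
        exact mem_erase.mpr ⟨by rw [← h]; exact ne_of_lt hlt, mem_univ _⟩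
      · simp only [if_neg h]
        exact mem_erase.mpr ⟨h, mem_univ _⟩
    · intro k hk
      have hki : k ≠ i := (mem_erase.mp hk).1
      by_cases h : k < i <;> simp [h, hki]
    · intro p hp
      obtain ⟨hp1, hp2⟩ := mem_filter.mp hp
      have hlt : p.1 < p.2 := (mem_filter.mp hp1).2
      by_cases h : p.2 = i
      · have h3 : p.1 < i := h ▸ hlt
        simp only [if_pos h, if_pos h3]
        exact Prod.ext rfl h.symm
      · have h4 : p.1 = i := hp2.resolve_left h
        have h5 : ¬ p.2 < i := fun h6 => absurd (h4 ▸ hlt) (not_lt.mpr (le_of_lt h6))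
        simp only [if_neg h, if_neg h5]
        exact Prod.ext h4.symm rfl
    · intro k hk
      have hki : k ≠ i := (mem_erase.mp hk).1
      by_cases h : k < i
      · simp [hrr, hR, h]
      · simp [hrr, hR, h, hki]
  rw [h1, Nd, Vd, map_prod, map_prod, ← prod_mul_distrib]
  refine prod_congr rfl fun p hp => ?_
  have hlt : p.1 < p.2 := (mem_filter.mp hp).2
  by_cases h : p.2 = i
  · have hne : x i - x p.1 ≠ 0 := sub_ne_zero.mpr fun h' => by
      have := hx h'
      rw [← h] at this
      exact (ne_of_lt hlt) this.symm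
    have e : rr p = R p.1 := if_pos h
    rw [e, if_pos h, map_sub, map_sub, map_mul, MvPolynomial.eval_C, MvPolynomial.eval_X,
      MvPolynomial.eval_X, h, hR]
    field_simp
    ring
  · by_cases h' : p.1 = i
    · have hne : x i - x p.2 ≠ 0 := sub_ne_zero.mpr fun h'' => h (hx h'').symm
      have e : rr p = R p.2 := by rw [hrr]; exact (if_neg h).trans (if_pos h')
      rw [e, if_neg h, if_pos h', map_sub, map_sub, map_mul, MvPolynomial.eval_C,
        MvPolynomial.eval_X, MvPolynomial.eval_X, h', hR]
      field_simp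
    · have e : rr p = 1 := by rw [hrr]; exact (if_neg h).trans (if_neg h')
      rw [e, if_neg h, if_neg h', mul_one]

theorem pLag : StLag := by
  intro K _ _ l b J hJ
  classical
  have hcoef : ∀ x : Fin l → K, MvPolynomial.eval x (QJ l b J) = PowerSeries.coeff J
      (∏ i, PowerSeries.mk (fun n => (if n = 0 then (1 : K) else 1 - b) * x i ^ n)) := by
    intro x
    rw [QJ, ← PowerSeries.coeff_map, map_prod]
    congr 1
    refine prod_congr rfl fun i _ => ?_
    ext n
    rw [PowerSeries.coeff_map, PowerSeries.coeff_mk, PowerSeries.coeff_mk, map_mul, map_pow,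
      MvPolynomial.eval_C, MvPolynomial.eval_X]
  have hN : ∀ x : Fin l → K, Function.Injective x → ∀ i, MvPolynomial.eval x (Nd l b i) =
      MvPolynomial.eval x (Vd K l) * ∏ k ∈ univ.erase i, (x i - b * x k) / (x i - x k) := by
    intro x hx i
    exact Lag_N l b x hx i
  have hmain : ∀ x : Fin l → K, Function.Injective x → (∀ i, x i ≠ 0) →
      MvPolynomial.eval x (Vd K l * QJ l b J) =
        MvPolynomial.eval x (MvPolynomial.C (1 - b) * ∑ i : Fin l, Nd l b i * MvPolynomial.X i ^ J) := by
    intro x hx h0
    rw [map_mul, hcoef, Lag_ps l b x hx h0, map_add, map_sum, PowerSeries.coeff_one,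
      if_neg (by omega : ¬ J = 0), zero_add, map_mul, map_sum, MvPolynomial.eval_C, mul_sum, mul_sum]
    refine sum_congr rfl fun i _ => ?_
    rw [PowerSeries.coeff_C_mul, PowerSeries.coeff_mk, if_neg (by omega : ¬ J = 0), map_mul, map_pow,
      MvPolynomial.eval_X, hN x hx]
    ring
  have hV : Vd K l ≠ 0 := by
    rw [Vd, prod_ne_zero_iff]
    intro p hp h
    have h1 : p.1 ≠ p.2 := ne_of_lt (mem_filter.mp hp).2
    exact h1 (MvPolynomial.X_injective (sub_eq_zero.mp h))
  have hP : (∏ i : Fin l, MvPolynomial.X i : MvPolynomial (Fin l) K) ≠ 0 :=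
    prod_ne_zero_iff.mpr fun i _ => MvPolynomial.X_ne_zero i
  refine mul_left_cancel₀ (mul_ne_zero hV hP) (MvPolynomial.funext fun x => ?_)
  rw [map_mul, map_mul _ _ (MvPolynomial.C (1 - b) * _)]
  by_cases hx : Function.Injective x ∧ ∀ i, x i ≠ 0
  · rw [hmain x hx.1 hx.2]
  · have hz : MvPolynomial.eval x (Vd K l * ∏ i : Fin l, MvPolynomial.X i) = 0 := by
      rw [map_mul]
      rcases not_and_or.mp hx with h | h
      · obtain ⟨i, j, hij, hne⟩ := Function.not_injective_iff.mp h
        have h1 : MvPolynomial.eval x (Vd K l) = 0 := by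
          rw [Vd, map_prod]
          rcases lt_or_gt_of_ne hne with hlt | hlt
          · exact prod_eq_zero (i := (i, j)) (mem_filter.mpr ⟨mem_univ _, hlt⟩)
              (by rw [map_sub, MvPolynomial.eval_X, MvPolynomial.eval_X]; exact sub_eq_zero.mpr hij)
          · exact prod_eq_zero (i := (j, i)) (mem_filter.mpr ⟨mem_univ _, hlt⟩)
              (by rw [map_sub, MvPolynomial.eval_X, MvPolynomial.eval_X]; exact sub_eq_zero.mpr hij.symm)
        rw [h1, zero_mul]
      · obtain ⟨i, hi⟩ := not_forall.mp h
        rw [not_not] at hi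
        have h1 : MvPolynomial.eval x (∏ i : Fin l, MvPolynomial.X i) = 0 := by
          rw [map_prod]
          exact prod_eq_zero (mem_univ i) (by rw [MvPolynomial.eval_X, hi])
        rw [h1, mul_zero]
    rw [hz, zero_mul, zero_mul]

end Pool.VD
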