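import Pool.Agent.VD.StM2

/-!
# MP_cf06d4_co, block M, module NN: the interface with block CM
-/

set_option autoImplicit false

namespace Pool.VD

open MvPolynomial Finset

theorem pNN (hOm : StOm) (hEig : StEig) (hE1 : StE1) (hE1S : StE1S) (hCycV : StCycV)
    (hGqF : StGqF) : StNN := by
  intro K _ _ q t hqt N h1 h2 h3
  obtain ⟨b, hb⟩ := hEig K q t hqt
  have hN := (hE1 K q t hqt b hb).1
  have hS := hE1S K q t hqt b hb
  have hX : om K (X 0) = X 0 := by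
    rw [om, scal, aeval_X, pow_zero, C_1, one_mul]
  -- the properties of the composition
  have a1 : (N ∘ₗ (om K).toLinearMap) 1 = 1 := by
    show N (om K 1) = 1
    rw [map_one, h1]
  have a2 : ∀ f, (N ∘ₗ (om K).toLinearMap) (X 0 * f) =
      -Dk q t 1 ((N ∘ₗ (om K).toLinearMap) f) := by
    intro f
    show N (om K (X 0 * f)) = -Dk q t 1 (N (om K f))
    rw [map_mul, hX, h2]
  have a3 : ∀ f, (N ∘ₗ (om K).toLinearMap) (Dsk q t 1 f) =
      X 0 * (N ∘ₗ (om K).toLinearMap) f := by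
    intro f
    show N (om K (Dsk q t 1 f)) = X 0 * N (om K f)
    have e1 := (hOm K q t 1 (om K f)).1
    rw [(hOm K q t 1 f).2.1, pow_one, neg_one_smul] at e1
    have e2 := (hOm K q t 1 (Dk q⁻¹ t⁻¹ 1 (om K f))).2.1
    rw [e1, map_neg] at e2
    have e3 : om K (Dsk q t 1 f) = -Dk q⁻¹ t⁻¹ 1 (om K f) := by
      rw [← e2, neg_neg]
    rw [e3, map_neg, h3, neg_neg]
  -- the operators agree
  have hm : (fun i => -Mk q⁻¹ t⁻¹ (i + 1) : ℕ → K) 0 ≠ 0 := by
    show -Mk q⁻¹ t⁻¹ (0 + 1) ≠ 0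
    exact neg_ne_zero.2 (hGqF K q t hqt).2.2.2.2.2.2.1
  have hC : (fun i => C (1 : K) * X i : ℕ → Lam K) = fun i => (X i : Lam K) := by
    funext i
    rw [C_1, one_mul]
  have htop := hCycV K (fun i => -Mk q⁻¹ t⁻¹ (i + 1)) 1 (Or.inl rfl) hm
    (LinearMap.eqLocus (N ∘ₗ (om K).toLinearMap) (dg b (Tm q t))) ?_ ?_ ?_
  · have e : N ∘ₗ (om K).toLinearMap = dg b (Tm q t) := LinearMap.eqLocus_eq_top.1 htop
    rw [e]
    exact hN
  · rw [LinearMap.mem_eqLocus, a1, hN.one]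
  · intro f hf
    rw [LinearMap.mem_eqLocus] at hf ⊢
    rw [a2, hN.e1, hf]
  · intro f hf
    rw [LinearMap.mem_eqLocus] at hf ⊢
    rw [hC]
    show (N ∘ₗ (om K).toLinearMap) (Dsk q t 1 f) = dg b (Tm q t) (Dsk q t 1 f)
    rw [a3, hS, hf]

end Pool.VD
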