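import Pool.Agent.VD.StM

/-!
# MP_cf06d4_co, block M, module NabU: the axioms `IsNabla` determine the operator
-/

set_option autoImplicit false

namespace Pool.VD

open MvPolynomial Finset

theorem pNabU (hCyc : StCyc) : StNabU := by
  intro K _ _ q t hM N N' hN hN'
  have h : LinearMap.eqLocus N N' = ⊤ := by
    refine hCyc K q t hM _ ?_ ?_ ?_
    · rw [LinearMap.mem_eqLocus, hN.one, hN'.one]
    · intro f hf
      rw [LinearMap.mem_eqLocus] at hf ⊢
      rw [hN.e1, hN'.e1, hf]
    · intro f hf
      rw [LinearMap.mem_eqLocus] at hf ⊢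
      rw [hN.d0, hN'.d0, hf]
  exact LinearMap.eqLocus_eq_top.1 h

end Pool.VD
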