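import Pool.Agent.VD.StM2
import Pool.Agent.VD.M_A

/-!
# Block M, module Om: `ω D_k(1/q,1/t) ω = (-1)^k D*_k`
-/

set_option autoImplicit false
set_option linter.unusedSectionVars false

namespace Pool.VD

open MvPolynomial Finset

variable {K : Type} [Field K] [CharZero K]

theorem Om_X (i : ℕ) : om K (X i) = C ((-1 : K) ^ i) * X i := by
  simp [om, scal]

theorem Om_C (c : K) : om K (C c) = C c := by
  have h := (om K).commutes c
  rwa [MvPolynomial.algebraMap_eq] at h

theorem Om_om (f : Lam K) : om K (om K f) = f := by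
  induction f using MvPolynomial.induction_on with
  | C c => rw [Om_C, Om_C]
  | add f g hf hg => rw [map_add, map_add, hf, hg]
  | mul_X f i hf =>
    rw [map_mul, map_mul, hf, Om_X, map_mul, Om_C, Om_X, ← mul_assoc (C _) (C _), ← C_mul, ← mul_pow]
    simp

theorem Om_Hs (a : ℕ → Lam K) (n : ℕ) : om K (Hs a n) = Hs (fun i => om K (a i)) n :=
  Hs_map ((om K : Lam K →ₐ[K] Lam K) : Lam K →+* Lam K) a n

theorem Om_Ep (k : ℕ) : om K (Ep K k) = (-1) ^ k * Hn K k := by
  rw [Ep, Om_Hs, Hn, ← Hs_scale]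
  congr 1
  funext i
  rw [map_neg, Om_X, map_pow, map_neg, map_one]
  ring

theorem Om_Hn (k : ℕ) : om K (Hn K k) = En K k := by
  have h : (om K) ((-1) ^ k * Hn K k) = Ep K k := by rw [← Om_Ep, Om_om]
  rw [map_mul, map_pow, map_neg, map_one] at h
  rw [En, ← h, ← mul_assoc, ← mul_pow]
  simp


theorem Om_Dsk_C_mul (q t : K) (k : ℕ) (c : K) (f : Lam K) :
    Dsk q t k (C c * f) = C c * Dsk q t k f := Vo_C_mul _ _ _ _ _


theorem Om_Dk (q t : K) (f : Lam K) : ∀ k : ℕ,
    om K (Dk q⁻¹ t⁻¹ k f) = (-1) ^ k * Dsk q t k (om K f) := by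
  induction f using MvPolynomial.induction_on with
  | C c =>
    intro k
    have h : (C c : Lam K) = C c * 1 := by rw [mul_one]
    have h1 : Dk q⁻¹ t⁻¹ k (C c) = C c * Ep K k := by
      conv_lhs => rw [h]
      rw [Dk, Vo_C_mul]
      change C c * Dk q⁻¹ t⁻¹ k 1 = _
      rw [Dk_one]
    have h2 : Dsk q t k (om K (C c)) = C c * Hn K k := by
      rw [Om_C]
      conv_lhs => rw [h]
      rw [Om_Dsk_C_mul, Dsk_one]
    rw [h1, h2, map_mul, Om_C, Om_Ep]
    ring
  | add f g hf hg =>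
    intro k
    rw [map_add, map_add, hf, hg, map_add, map_add]
    ring
  | mul_X f i hf =>
    intro k
    have h2 : Dsk q t k (C ((-1 : K) ^ i) * X i * om K f) = C ((-1 : K) ^ i) * (X i * Dsk q t k (om K f) -
        C (Mk q⁻¹ t⁻¹ (i + 1)) * Dsk q t (k + (i + 1)) (om K f)) := by
      rw [mul_assoc, Om_Dsk_C_mul, Dsk_X_mul]
    rw [mul_comm f, Dk_X_mul, map_add, map_mul, map_mul, map_mul, hf, hf, Om_C, Om_X, h2, map_pow, map_neg,
      map_one]
    ring

theorem pOm : StOm := by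
  intro K _ _ q t k f
  refine ⟨?_, Om_om f, Om_Hn k, ?_⟩
  · rw [Om_Dk, MvPolynomial.smul_eq_C_mul, map_pow, map_neg, map_one]
  · rw [← Om_Hn, Om_om]

end Pool.VD
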