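import Pool.Agent.VD.StM

/-!
# MP_cf06d4_co, group V, module PB
-/

set_option autoImplicit false

namespace Pool.VD

open MvPolynomial Finset

/-- the exponent `(a, b)` -/
private noncomputable def PB_ex (a b : ℕ) : Fin 2 →₀ ℕ := Finsupp.single 0 a + Finsupp.single 1 b

private theorem PB_ex_inj {a b a' b' : ℕ} (h : PB_ex a b = PB_ex a' b') : a = a' ∧ b = b' := by
  have h0 := DFunLike.congr_fun h 0
  have h1 := DFunLike.congr_fun h 1
  simp [PB_ex] at h0 h1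
  exact ⟨h0, h1⟩

private theorem PB_mon (r : ℚ) (a b : ℕ) :
    (C r * (X 0 ^ a * X 1 ^ b) : MvPolynomial (Fin 2) ℚ) = monomial (PB_ex a b) r := by
  rw [X_pow_eq_monomial, X_pow_eq_monomial, monomial_mul, C_mul_monomial, one_mul, mul_one]
  rfl

private noncomputable def PB_phi (μ ν : YoungDiagram) (c : ℕ × ℕ) : ℚ :=
  (if c ∈ μ.cells then 1 else 0) - (if c ∈ ν.cells then 1 else 0)

private theorem PB_sum {K : Type} [Field K] [CharZero K] (μ ν : YoungDiagram) (g : ℕ × ℕ → K) :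
    ∑ c ∈ μ.cells, g c - ∑ c ∈ ν.cells, g c =
      ∑ c ∈ μ.cells ∪ ν.cells, (algebraMap ℚ K (PB_phi μ ν c)) * g c := by
  have h1 : ∑ c ∈ μ.cells, g c =
      ∑ c ∈ μ.cells ∪ ν.cells, (if c ∈ μ.cells then g c else 0) := by
    rw [← Finset.sum_filter]
    congr 1
    ext c
    simp only [mem_filter, mem_union]
    tauto
  have h2 : ∑ c ∈ ν.cells, g c =
      ∑ c ∈ μ.cells ∪ ν.cells, (if c ∈ ν.cells then g c else 0) := by
    rw [← Finset.sum_filter]
    congr 1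
    ext c
    simp only [mem_filter, mem_union]
    tauto
  rw [h1, h2, ← Finset.sum_sub_distrib]
  refine Finset.sum_congr rfl fun c _ => ?_
  unfold PB_phi
  by_cases a : c ∈ μ.cells <;> by_cases b : c ∈ ν.cells <;> simp [a, b]

theorem pPB : StPB := by
  intro K _ _ q t hG μ ν hf hcard
  classical
  have hq : q ≠ 0 := by
    have := hG.ne_zero 0
    simpa using this
  have ht : t ≠ 0 := by
    have := hG.ne_zero 1
    simpa using this
  set S := μ.cells ∪ ν.cells with hS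
  set φ := PB_phi μ ν with hφ
  -- a bound
  obtain ⟨N, hN⟩ : ∃ N : ℕ, ∀ c ∈ S, c.1 ≤ N ∧ c.2 ≤ N := by
    refine ⟨∑ c ∈ S, (c.1 + c.2), fun c hc => ?_⟩
    have := Finset.single_le_sum (f := fun c : ℕ × ℕ => c.1 + c.2) (fun _ _ => Nat.zero_le _) hc
    omega
  have e1 : Bm q t μ - Bm q t ν = ∑ c ∈ S, algebraMap ℚ K (φ c) * (q ^ c.2 * t ^ c.1) := by
    unfold Bm
    exact PB_sum μ ν (fun c => xc q t c)
  have e2 : (Bm q⁻¹ t⁻¹ μ - Bm q⁻¹ t⁻¹ ν) * (q ^ N * t ^ N) =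
      ∑ c ∈ S, algebraMap ℚ K (φ c) * (q ^ (N - c.2) * t ^ (N - c.1)) := by
    have e3 : Bm q⁻¹ t⁻¹ μ - Bm q⁻¹ t⁻¹ ν =
        ∑ c ∈ S, algebraMap ℚ K (φ c) * (q⁻¹ ^ c.2 * t⁻¹ ^ c.1) := by
      unfold Bm
      exact PB_sum μ ν (fun c => xc q⁻¹ t⁻¹ c)
    rw [e3, Finset.sum_mul]
    refine Finset.sum_congr rfl fun c hc => ?_
    obtain ⟨h1, h2⟩ := hN c hc
    have k1 : q⁻¹ ^ c.2 * q ^ N = q ^ (N - c.2) := by
      rw [inv_pow, pow_sub₀ q hq h2, mul_comm]
    have k2 : t⁻¹ ^ c.1 * t ^ N = t ^ (N - c.1) := by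
      rw [inv_pow, pow_sub₀ t ht h1, mul_comm]
    rw [← k1, ← k2]
    ring
  let P1 : MvPolynomial (Fin 2) ℚ := ∑ c ∈ S, C (φ c) * (X 0 ^ c.2 * X 1 ^ c.1)
  let P2 : MvPolynomial (Fin 2) ℚ := ∑ c ∈ S, C (φ c) * (X 0 ^ (N - c.2) * X 1 ^ (N - c.1))
  let P : MvPolynomial (Fin 2) ℚ := P1 * P2 - C 1 * (X 0 ^ N * X 1 ^ N)
  have hP : P = 0 := by
    apply (algebraicIndependent_iff.1 hG) P
    have a1 : aeval ![q, t] P1 = Bm q t μ - Bm q t ν := by
      rw [e1]
      simp [P1, map_sum]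
    have a2 : aeval ![q, t] P2 = (Bm q⁻¹ t⁻¹ μ - Bm q⁻¹ t⁻¹ ν) * (q ^ N * t ^ N) := by
      rw [e2]
      simp [P2, map_sum]
    have a3 : aeval ![q, t] P = aeval ![q, t] P1 * aeval ![q, t] P2 - q ^ N * t ^ N := by
      simp [P]
    rw [a3, a1, a2, ← mul_assoc, hf, one_mul, sub_self]
  have hc : coeff (PB_ex N N) P = 0 := by rw [hP, coeff_zero]
  have hc2 : coeff (PB_ex N N) P = ∑ c ∈ S, φ c * φ c - 1 := by
    have b1 : P = ∑ c ∈ S, ∑ c' ∈ S,
        monomial (PB_ex (c.2 + (N - c'.2)) (c.1 + (N - c'.1))) (φ c * φ c') -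
          monomial (PB_ex N N) 1 := by
      show P1 * P2 - C 1 * (X 0 ^ N * X 1 ^ N) = _
      rw [PB_mon]
      congr 1
      show (∑ c ∈ S, C (φ c) * (X 0 ^ c.2 * X 1 ^ c.1)) *
        (∑ c ∈ S, C (φ c) * (X 0 ^ (N - c.2) * X 1 ^ (N - c.1))) = _
      rw [Finset.sum_mul_sum]
      refine Finset.sum_congr rfl fun c _ => Finset.sum_congr rfl fun c' _ => ?_
      rw [← PB_mon, C_mul, pow_add, pow_add]
      ring
    rw [b1, coeff_sub, coeff_monomial, if_pos rfl, coeff_sum]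
    congr 1
    refine Finset.sum_congr rfl fun c hc => ?_
    rw [coeff_sum, Finset.sum_eq_single c]
    · obtain ⟨h1, h2⟩ := hN c hc
      rw [coeff_monomial, if_pos]
      congr 1 <;> omega
    · intro c' hc' hne
      rw [coeff_monomial, if_neg]
      intro h
      obtain ⟨h1, h2⟩ := hN c' hc'
      obtain ⟨k1, k2⟩ := PB_ex_inj h
      apply hne
      ext <;> omega
    · intro h
      exact absurd hc h
  rw [hc2] at hc
  -- the symmetric difference
  have hsq : ∀ c, φ c * φ c = if (c ∈ μ.cells ↔ c ∈ ν.cells) then 0 else 1 := by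
    intro c
    rw [hφ]
    unfold PB_phi
    by_cases a : c ∈ μ.cells <;> by_cases b : c ∈ ν.cells <;> simp [a, b]
  have hD : ((S.filter (fun c => ¬ (c ∈ μ.cells ↔ c ∈ ν.cells))).card : ℚ) = 1 := by
    have : ∑ c ∈ S, φ c * φ c = ∑ c ∈ S, if ¬ (c ∈ μ.cells ↔ c ∈ ν.cells) then (1 : ℚ) else 0 := by
      refine Finset.sum_congr rfl fun c _ => ?_
      rw [hsq c]
      by_cases h : (c ∈ μ.cells ↔ c ∈ ν.cells) <;> simp [h]
    rw [this, Finset.sum_boole] at hc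
    linarith
  have hD' : (S.filter (fun c => ¬ (c ∈ μ.cells ↔ c ∈ ν.cells))).card = 1 := by exact_mod_cast hD
  obtain ⟨d, hd⟩ := Finset.card_eq_one.1 hD'
  have hdm : ∀ c, c ≠ d → (c ∈ μ.cells ↔ c ∈ ν.cells) := by
    intro c hcd
    by_contra h
    have : c ∈ S.filter (fun c => ¬ (c ∈ μ.cells ↔ c ∈ ν.cells)) := by
      rw [mem_filter]
      refine ⟨?_, h⟩
      rw [hS, mem_union]
      tauto
    rw [hd, mem_singleton] at this
    exact hcd this
  have hdd : ¬ (d ∈ μ.cells ↔ d ∈ ν.cells) := by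
    have : d ∈ S.filter (fun c => ¬ (c ∈ μ.cells ↔ c ∈ ν.cells)) := by
      rw [hd]
      exact mem_singleton_self d
    exact (mem_filter.1 this).2
  have hcard' : μ.cells.card = ν.cells.card + 1 := hcard
  by_cases hμ : d ∈ μ.cells
  · have hν : d ∉ ν.cells := fun h => hdd ⟨fun _ => h, fun _ => hμ⟩
    refine ⟨d, hν, ?_⟩
    ext c
    rw [mem_insert]
    by_cases h : c = d
    · subst h
      simp [hμ]
    · rw [hdm c h]
      simp [h]
  · exfalso
    have hν : d ∈ ν.cells := by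
      by_contra h
      exact hdd ⟨fun h' => absurd h' hμ, fun h' => absurd h' h⟩
    have : μ.cells ⊆ ν.cells := by
      intro c hc
      by_cases h : c = d
      · subst h
        exact hν
      · exact (hdm c h).1 hc
    have := Finset.card_le_card this
    omega

end Pool.VD
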