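import Pool.Agent.VD.StM

/-!
# MP_cf06d4_co, group V, module Pie
-/

set_option autoImplicit false

namespace Pool.VD

open MvPolynomial Finset

private theorem Pie_diag {K V : Type} [Field K] [AddCommGroup V] [Module K V]
    (b : Module.Basis YoungDiagram K V) (D : V →ₗ[K] V) (c : YoungDiagram → K)
    (h : ∀ μ, D (b μ) = c μ • b μ) (f : V) (μ : YoungDiagram) :
    b.repr (D f) μ = c μ * b.repr f μ := by
  classical
  have key : (b.coord μ).comp D = (c μ) • b.coord μ := by
    refine b.ext fun ν => ?_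
    simp only [LinearMap.comp_apply, LinearMap.smul_apply, Module.Basis.coord_apply, h, map_smul,
      Module.Basis.repr_self, smul_eq_mul]
    by_cases e : ν = μ
    · rw [e]
    · rw [Finsupp.single_eq_of_ne (Ne.symm e)]
      simp
  have := LinearMap.congr_fun key f
  simpa [LinearMap.comp_apply, Module.Basis.coord_apply] using this

private theorem Pie_deg {K : Type} [Field K] [CharZero K]
    (b : Module.Basis YoungDiagram K (Lam K)) (hb : ∀ μ, IsH μ.card (b μ)) (f : Lam K) (n : ℕ)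
    (hf : IsH n f) (μ : YoungDiagram) (hne : b.repr f μ ≠ 0) : μ.card = n := by
  classical
  have key : (b.coord μ).comp (weightedHomogeneousComponent (fun i : ℕ => i + 1) μ.card) =
      b.coord μ := by
    refine b.ext fun ν => ?_
    simp only [LinearMap.comp_apply, Module.Basis.coord_apply]
    by_cases e : ν.card = μ.card
    · rw [← e, (hb ν).weightedHomogeneousComponent_same]
    · rw [(hb ν).weightedHomogeneousComponent_ne _ (Ne.symm e), map_zero,
        Module.Basis.repr_self, Finsupp.single_eq_of_ne]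
      · rfl
      · rintro rfl
        exact e rfl
  by_contra hcon
  have h1 := LinearMap.congr_fun key f
  simp only [LinearMap.comp_apply, Module.Basis.coord_apply] at h1
  rw [IsWeightedHomogeneous.weightedHomogeneousComponent_ne _ hf hcon, map_zero] at h1
  exact hne h1.symm

theorem pPie (hDX : StDX) (hDD : StDD) (hPB : StPB) (hGqF : StGqF) : StPie := by
  intro K _ _ q t hG b hb μ ν
  obtain ⟨hq, ht, hqt, -, -, hM, hMt, -, -⟩ := hGqF K q t hG
  have hM1 : Mk q t 1 ≠ 0 := hM 0
  have hX := (hDX K (fun _ => 0) (fun _ => 0) 0 0 (b ν) q t).2.1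
  simp only [Nat.zero_add, Nat.add_zero] at hX
  have hDD' := (hDD K q t hq ht hqt (b ν)).2
  have e1 := congrArg (fun g => b.repr g μ) hX
  have e2 := congrArg (fun g => b.repr g μ) hDD'
  simp only [map_add, map_smul, Finsupp.add_apply, Finsupp.smul_apply, smul_eq_mul] at e1 e2
  rw [Pie_diag b (Dk q t 0) _ hb.d0, hb.d0 ν, mul_smul_comm, map_smul, Finsupp.smul_apply,
    smul_eq_mul] at e1
  rw [Pie_diag b (Ds q t) _ hb.ds, hb.ds ν, map_smul, map_smul, Finsupp.smul_apply,
    smul_eq_mul] at e2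
  have r1 : b.repr (Dk q t 1 (b ν)) μ =
      -(Bm q t μ - Bm q t ν) * b.repr (X 0 * b ν) μ := by
    apply mul_left_cancel₀ hM1
    have : Mk q t 1 * b.repr (Dk q t 1 (b ν)) μ =
        cm q t μ * b.repr (X 0 * b ν) μ - cm q t ν * b.repr (X 0 * b ν) μ := by
      rw [e1]
      ring
    rw [this]
    unfold cm
    ring
  refine ⟨r1, fun hd => ?_⟩
  refine hPB K q t hG μ ν ?_ ?_
  · rw [r1] at e2
    have h3 : Mk q⁻¹ t⁻¹ 1 * b.repr (X 0 * b ν) μ *
        ((Bm q t μ - Bm q t ν) * (Bm q⁻¹ t⁻¹ μ - Bm q⁻¹ t⁻¹ ν)) =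
        Mk q⁻¹ t⁻¹ 1 * b.repr (X 0 * b ν) μ * 1 := by
      have h4 : cm q⁻¹ t⁻¹ μ * (-(Bm q t μ - Bm q t ν) * b.repr (X 0 * b ν) μ) -
          cm q⁻¹ t⁻¹ ν * (-(Bm q t μ - Bm q t ν) * b.repr (X 0 * b ν) μ) =
          Mk q⁻¹ t⁻¹ 1 * b.repr (X 0 * b ν) μ := by
        rw [e2]
        ring
      unfold cm at h4
      linear_combination h4
    exact mul_left_cancel₀ (mul_ne_zero hMt hd) h3
  · refine Pie_deg b hb.hom (X 0 * b ν) (ν.card + 1) ?_ μ hd
    have h1 : IsH 1 (X 0 : Lam K) := isWeightedHomogeneous_X _ _ 0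
    have h2 := IsWeightedHomogeneous.mul h1 (hb.hom ν)
    rw [add_comm] at h2
    exact h2

end Pool.VD
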