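import Pool.Agent.VD.StM2
import Pool.Agent.VD.M_A

/-!
# Block M, module PieS: the coefficients of `D*_1` on the eigenbasis
-/

set_option autoImplicit false
set_option linter.unusedSectionVars false

namespace Pool.VD

open MvPolynomial Finset

variable {K : Type} [Field K] [CharZero K]

/-- `M~ D*_1 = e_1 D*_0 - D*_0 e_1` -/
theorem PieS_Ds1 (q t : K) (f : Lam K) :
    Mk q⁻¹ t⁻¹ 1 • Dsk q t 1 f = X 0 * Ds q t f - Ds q t (X 0 * f) := by
  have h := Dsk_X_mul q t 0 0 f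
  rw [Dsk_zero] at h
  rw [h, MvPolynomial.smul_eq_C_mul]
  simp only [zero_add]
  ring

/-- the coordinates of `D*_0 g` -/
theorem PieS_repr (q t : K) (b : Module.Basis YoungDiagram K (Lam K)) (hb : EB q t b) (g : Lam K)
    (μ : YoungDiagram) : b.repr (Ds q t g) μ = cm q⁻¹ t⁻¹ μ * b.repr g μ := by
  have h : (Finsupp.lapply μ ∘ₗ (b.repr : Lam K →ₗ[K] YoungDiagram →₀ K) ∘ₗ Ds q t) =
      cm q⁻¹ t⁻¹ μ • (Finsupp.lapply μ ∘ₗ (b.repr : Lam K →ₗ[K] YoungDiagram →₀ K)) := by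
    refine b.ext fun ν => ?_
    simp only [LinearMap.comp_apply, LinearMap.smul_apply, hb.ds, map_smul, LinearEquiv.coe_coe,
      Module.Basis.repr_self, Finsupp.lapply_apply, smul_eq_mul]
    by_cases hν : ν = μ
    · subst hν; rfl
    · rw [Finsupp.single_eq_of_ne (Ne.symm hν)]; simp
  have h2 := LinearMap.congr_fun h g
  simpa using h2

theorem pPieS (hGqF : StGqF) : StPieS := by
  intro K _ _ q t hg b hb μ ν
  obtain ⟨hq0, ht0, hqt, hqk, htk, hMk, hM', hsw, hxc⟩ := hGqF K q t hg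
  have key : b.repr (Dsk q t 1 (b ν)) μ =
      (Bm q⁻¹ t⁻¹ μ - Bm q⁻¹ t⁻¹ ν) * b.repr (X 0 * b ν) μ := by
    have h1 := congrArg (fun g => b.repr g μ) (PieS_Ds1 q t (b ν))
    simp only [map_smul, map_sub, Finsupp.smul_apply, Finsupp.sub_apply, smul_eq_mul, hb.ds,
      mul_smul_comm, PieS_repr q t b hb] at h1
    apply mul_left_cancel₀ hM'
    rw [h1]
    simp only [cm]
    ring
  refine ⟨key, fun c hc hμ => ?_⟩
  have hd : Bm q⁻¹ t⁻¹ μ - Bm q⁻¹ t⁻¹ ν = (xc q t c)⁻¹ := by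
    rw [Bm, Bm, hμ, Finset.sum_insert hc]
    simp only [xc]
    rw [mul_inv, inv_pow, inv_pow]
    ring
  rw [key, hd]

end Pool.VD
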