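import Pool.Agent.VD.StM

/-!
# MP_cf06d4_co, group V, module Span
-/

set_option autoImplicit false

namespace Pool.VD

open MvPolynomial Finset

private theorem Span_key (hJTm : StJTm) (hDom : StDom) {K : Type} [Field K] [CharZero K]
    (a : ℕ → Lam K) : ∀ (n : ℕ) (ν : YoungDiagram), dm ν = n →
    hP a ν ∈ Submodule.span K {f : Lam K | ∃ κ, Dom ν κ ∧ f = JT a κ} := by
  obtain ⟨hrefl, htrans, hdm⟩ := hDom
  intro n
  induction n using Nat.strong_induction_on with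
  | _ n ih =>
    intro ν hν
    have h1 : JT a ν - hP a ν ∈ Submodule.span K {f : Lam K | ∃ κ, Dom ν κ ∧ f = JT a κ} := by
      refine (Submodule.span_le.mpr ?_) (hJTm K a ν)
      rintro f ⟨κ, hκ, hne, rfl⟩
      have hlt : dm κ < n := hν ▸ hdm ν κ hκ hne
      refine (Submodule.span_mono ?_) (ih (dm κ) hlt κ rfl)
      rintro g ⟨κ', hκ', rfl⟩
      exact ⟨κ', htrans _ _ _ hκ hκ', rfl⟩
    have h2 : JT a ν ∈ Submodule.span K {f : Lam K | ∃ κ, Dom ν κ ∧ f = JT a κ} :=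
      Submodule.subset_span ⟨ν, hrefl ν, rfl⟩
    have h3 := Submodule.sub_mem _ h2 h1
    rwa [sub_sub_cancel] at h3

theorem pSpan (hJTm : StJTm) (hDom : StDom) : StSpan := by
  intro K _ _ a lam
  have hDom' := hDom
  obtain ⟨hrefl, htrans, hdm⟩ := hDom'
  apply le_antisymm
  · refine Submodule.span_le.mpr ?_
    rintro f ⟨ν, hν, rfl⟩
    have h1 : hP a ν ∈ Uge a lam := Submodule.subset_span ⟨ν, hν, rfl⟩
    have h2 : JT a ν - hP a ν ∈ Uge a lam := by
      refine (Submodule.span_mono ?_) (hJTm K a ν)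
      rintro g ⟨κ, hκ, _, rfl⟩
      exact ⟨κ, htrans _ _ _ hν hκ, rfl⟩
    have h3 := Submodule.add_mem _ h2 h1
    rwa [sub_add_cancel] at h3
  · refine Submodule.span_le.mpr ?_
    rintro f ⟨ν, hν, rfl⟩
    refine (Submodule.span_mono ?_) (Span_key hJTm hDom a (dm ν) ν rfl)
    rintro g ⟨κ, hκ, rfl⟩
    exact ⟨κ, htrans _ _ _ hν hκ, rfl⟩

end Pool.VD
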