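import Pool.Agent.VD.StM

/-!
# Block M, module Tour: exponents of a product over pairs
-/

set_option autoImplicit false

namespace Pool.VD

open MvPolynomial Finset

section
variable {K : Type} [Field K] {l : ℕ}

private def Tour_pre (k : ℕ) (β : Fin l →₀ ℕ) : ℕ := ∑ i ∈ univ.filter (fun i : Fin l => (i : ℕ) < k), β i

private theorem Tour_pre_add (k : ℕ) (β γ : Fin l →₀ ℕ) :
    Tour_pre k (β + γ) = Tour_pre k β + Tour_pre k γ := by
  simp [Tour_pre, sum_add_distrib]

private theorem Tour_pre_single (k : ℕ) (a : Fin l) :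
    Tour_pre k (Finsupp.single a 1) = if (a : ℕ) < k then 1 else 0 := by
  rw [Tour_pre, Finset.sum_filter]
  rw [Finset.sum_eq_single a]
  · simp
  · intro b _ hb
    rw [Finsupp.single_eq_of_ne hb, ite_self]
  · intro h; exact absurd (mem_univ a) h

private noncomputable def Tour_del (s : Finset (Fin l × Fin l)) : Fin l →₀ ℕ :=
  ∑ p ∈ s, Finsupp.single p.1 1

private theorem Tour_coeff (a : Fin l) (β : Fin l →₀ ℕ) (G : MvPolynomial (Fin l) K)
    (h : coeff β (G * X a) ≠ 0) : ∃ β', β = β' + Finsupp.single a 1 ∧ coeff β' G ≠ 0 := by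
  rw [coeff_mul_X'] at h
  by_cases ha : a ∈ β.support
  · rw [if_pos ha] at h
    refine ⟨β - Finsupp.single a 1, ?_, h⟩
    ext i
    have h1 : β a ≠ 0 := Finsupp.mem_support_iff.1 ha
    rw [Finsupp.add_apply, Finsupp.tsub_apply]
    by_cases hi : i = a
    · subst hi; rw [Finsupp.single_eq_same]; omega
    · rw [Finsupp.single_eq_of_ne hi]; omega
  · rw [if_neg ha] at h; exact absurd rfl h

private theorem Tour_main (x y : Fin l × Fin l → K) (s : Finset (Fin l × Fin l)) :
    (∀ p ∈ s, p.1 < p.2) →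
    coeff (Tour_del s) (∏ p ∈ s, (C (x p) * X p.1 - C (y p) * X p.2 : MvPolynomial (Fin l) K)) =
      ∏ p ∈ s, x p ∧
    ∀ β : Fin l →₀ ℕ,
      coeff β (∏ p ∈ s, (C (x p) * X p.1 - C (y p) * X p.2 : MvPolynomial (Fin l) K)) ≠ 0 →
      (∀ k : ℕ, Tour_pre k β ≤ Tour_pre k (Tour_del s)) ∧ Tour_pre l β = Tour_pre l (Tour_del s) := by
  classical
  induction s using Finset.induction_on with
  | empty =>
    intro _
    refine ⟨by simp [Tour_del], fun β hβ => ?_⟩
    rw [prod_empty, coeff_one] at hβ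
    have h0 : β = 0 := by
      by_contra h
      rw [if_neg (Ne.symm h)] at hβ
      exact hβ rfl
    subst h0
    simp [Tour_del]
  | insert p s hp ih =>
    intro hlt
    obtain ⟨ih1, ih2⟩ := ih fun r hr => hlt r (mem_insert_of_mem hr)
    have hp12 : p.1 < p.2 := hlt p (mem_insert_self p s)
    have hp12' : (p.1 : ℕ) < (p.2 : ℕ) := hp12
    set G : MvPolynomial (Fin l) K := ∏ p ∈ s, (C (x p) * X p.1 - C (y p) * X p.2) with hG
    have hdel : Tour_del (insert p s) = Tour_del s + Finsupp.single p.1 1 := by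
      rw [Tour_del, sum_insert hp, add_comm]; rfl
    have hF : ∏ p ∈ insert p s, (C (x p) * X p.1 - C (y p) * X p.2 : MvPolynomial (Fin l) K) =
        C (x p) * (G * X p.1) - C (y p) * (G * X p.2) := by
      rw [prod_insert hp, ← hG]; ring
    rw [hF, hdel, prod_insert hp]
    constructor
    · rw [coeff_sub, coeff_C_mul, coeff_C_mul, coeff_mul_X, ih1]
      have h0 : coeff (Tour_del s + Finsupp.single p.1 1) (G * X p.2) = 0 := by
        by_contra hne
        obtain ⟨β', hβ', hc⟩ := Tour_coeff p.2 _ G hne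
        have h1 := (ih2 β' hc).1 (p.1 + 1)
        have h2 := congrArg (Tour_pre ((p.1 : ℕ) + 1)) hβ'
        rw [Tour_pre_add, Tour_pre_add, Tour_pre_single, Tour_pre_single, if_pos (by omega),
          if_neg (by omega)] at h2
        omega
      rw [h0, mul_zero, sub_zero]
    · intro β hβ
      rw [coeff_sub, coeff_C_mul, coeff_C_mul] at hβ
      by_cases h1 : coeff β (G * X p.1) = 0
      · have h2 : coeff β (G * X p.2) ≠ 0 := by
          intro h3; rw [h1, h3] at hβ; simp at hβ
        obtain ⟨β', rfl, hc⟩ := Tour_coeff p.2 _ G h2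
        obtain ⟨h3, h4⟩ := ih2 β' hc
        refine ⟨fun k => ?_, ?_⟩
        · have h5 := h3 k
          rw [Tour_pre_add, Tour_pre_add, Tour_pre_single, Tour_pre_single]
          split_ifs <;> omega
        · have := p.1.2
          have := p.2.2
          rw [Tour_pre_add, Tour_pre_add, Tour_pre_single, Tour_pre_single, if_pos (by omega),
            if_pos (by omega), h4]
      · obtain ⟨β', rfl, hc⟩ := Tour_coeff p.1 _ G h1
        obtain ⟨h3, h4⟩ := ih2 β' hc
        refine ⟨fun k => ?_, ?_⟩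
        · have h5 := h3 k
          rw [Tour_pre_add, Tour_pre_add]
          omega
        · rw [Tour_pre_add, Tour_pre_add, h4]

private theorem Tour_dl : Tour_del (prs l) = dl l := by
  ext i
  rw [Tour_del, Finsupp.finsetSum_apply]
  have h1 : ∀ p : Fin l × Fin l, (Finsupp.single p.1 1 : Fin l →₀ ℕ) i = if p.1 = i then 1 else 0 := by
    intro p
    rw [Finsupp.single_apply]
  simp only [h1]
  rw [Finset.sum_boole, prs, Finset.filter_filter]
  have h2 : (univ.filter fun p : Fin l × Fin l => p.1 < p.2 ∧ p.1 = i) =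
      (Finset.Ioi i).map ⟨fun j => (i, j), fun a b h => (Prod.mk.inj h).2⟩ := by
    ext ⟨a, b⟩
    rw [mem_filter, mem_map]
    constructor
    · rintro ⟨-, h, hi⟩
      have hi' : a = i := hi
      subst hi'
      exact ⟨b, mem_Ioi.2 h, rfl⟩
    · rintro ⟨j, h, hj⟩
      have hj' : (i, j) = (a, b) := hj
      obtain ⟨h1, h2⟩ := Prod.mk.inj hj'
      subst h1; subst h2
      exact ⟨mem_univ _, mem_Ioi.1 h, rfl⟩
  rw [h2, card_map, Fin.card_Ioi]
  rfl

end

theorem pTour : StTour := by
  intro K _ _ l x y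
  have h := Tour_main x y (prs l) (fun p hp => (mem_filter.1 hp).2)
  rw [Tour_dl] at h
  refine ⟨h.1, fun β hβ => ?_⟩
  obtain ⟨h1, h2⟩ := h.2 β hβ
  refine ⟨fun k => h1 k, ?_⟩
  have hl : ∀ γ : Fin l →₀ ℕ, Tour_pre l γ = ∑ i, γ i := by
    intro γ
    rw [Tour_pre, Finset.filter_true_of_mem (fun i _ => i.2)]
  rw [hl, hl] at h2
  exact h2

end Pool.VD
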