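import Pool.Agent.VD.M_A

/-!
# MODULE TriD
-/

set_option autoImplicit false
set_option linter.unusedSectionVars false

namespace Pool.VD

open MvPolynomial Finset

variable {K : Type} [Field K] [CharZero K]

theorem TriD_Uge_le {a : ℕ → Lam K} {lam ν : YoungDiagram} (hDom : StDom) (h : Dom lam ν)
    (hne : ν ≠ lam) : Uge a ν ≤ Ugt a lam := by
  refine Submodule.span_le.2 ?_
  rintro f ⟨ρ, hρ, rfl⟩
  refine Submodule.subset_span ⟨ρ, hDom.2.1 _ _ _ h hρ, ?_, rfl⟩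
  rintro rfl
  have h1 := hDom.2.2 _ _ h hne
  have h2 := hDom.2.2 _ _ hρ (Ne.symm hne)
  omega

theorem TriD_Ugt_le {a : ℕ → Lam K} (lam : YoungDiagram) : Ugt a lam ≤ Uge a lam := by
  refine Submodule.span_mono ?_
  rintro f ⟨ρ, hρ, -, rfl⟩
  exact ⟨ρ, hρ, rfl⟩

theorem TriD_mem (hDom : StDom) (a : ℕ → Lam K) (lam : YoungDiagram) : hP a lam ∈ Uge a lam :=
  Submodule.subset_span ⟨lam, hDom.1 lam, rfl⟩

theorem TriD_gen (hDom : StDom) (hSpan : StSpan) (hJTm : StJTm) (a : ℕ → Lam K)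
    (V : Lam K →ₗ[K] Lam K) (c : YoungDiagram → K)
    (h : ∀ lam, V (JT a lam) - c lam • hP a lam ∈ Ugt a lam) (lam : YoungDiagram) :
    V (hP a lam) - c lam • hP a lam ∈ Ugt a lam := by
  have h1 : ∀ ν, V (JT a ν) ∈ Uge a ν := by
    intro ν
    have h2 := (Uge a ν).add_mem (TriD_Ugt_le ν (h ν))
      ((Uge a ν).smul_mem (c ν) (TriD_mem hDom a ν))
    rwa [sub_add_cancel] at h2
  have hge : ∀ ν, Uge a ν ≤ (Uge a ν).comap V := by
    intro ν
    conv_lhs => rw [← hSpan K a ν]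
    refine Submodule.span_le.2 ?_
    rintro f ⟨ρ, hρ, rfl⟩
    show V (JT a ρ) ∈ Uge a ν
    by_cases hne : ρ = ν
    · rw [hne]; exact h1 ν
    · exact TriD_Ugt_le ν (TriD_Uge_le hDom hρ hne (h1 ρ))
  have hgt : Ugt a lam ≤ (Ugt a lam).comap V := by
    refine Submodule.span_le.2 ?_
    rintro f ⟨ρ, hρ, hne, rfl⟩
    show V (hP a ρ) ∈ Ugt a lam
    exact TriD_Uge_le hDom hρ hne (hge ρ (TriD_mem hDom a ρ))
  have h3 : V (JT a lam - hP a lam) ∈ Ugt a lam := hgt (hJTm K a lam)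
  have h4 := (Ugt a lam).sub_mem (h lam) h3
  rw [map_sub] at h4
  have h5 : V (hP a lam) - c lam • hP a lam =
      V (JT a lam) - c lam • hP a lam - (V (JT a lam) - V (hP a lam)) := by abel
  rw [h5]
  exact h4

theorem TriD_Tr (m : ℕ → K) {q : K} (hq : ∀ k : ℕ, q ^ (k + 1) ≠ 1) (s : ℕ → K)
    (hs : ∀ i, m i = (1 - q ^ (i + 1)) * s i) (i : ℕ) :
    Tr m (gq q i) = Polynomial.C (gq q i) +
      Polynomial.C (C (s i) : Lam K) * (Polynomial.X : Polynomial (Lam K)) ^ (i + 1) := by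
  have hne : (1 - q ^ (i + 1)) ≠ 0 := sub_ne_zero.2 (Ne.symm (hq i))
  rw [gq, map_mul, Tr_X, Tr_C, mul_add, ← map_mul, ← mul_assoc, ← map_mul, ← map_mul, hs i,
    ← mul_assoc, inv_mul_cancel₀ hne, one_mul]

theorem pTriD (hTriG : StTriG) (hSpan : StSpan) (hJTm : StJTm) (hDom : StDom) (hB : StB)
    (hGqF : StGqF) : StTriD := by
  intro K _ _ q t hq lam
  obtain ⟨hq0, ht0, hqt, hq1, -⟩ := hGqF K q t hq
  constructor
  · refine TriD_gen hDom hSpan hJTm (gq q) (Dk q t 0) (cm q t) (fun lam => ?_) lam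
    have h := hTriG K (fun i => Mk q t (i + 1)) (fun i => -(X i : Lam K)) (gq q) t 1 q
      (fun i => TriD_Tr _ hq1 (fun i => (1 - t ^ (i + 1)) * 1 ^ (i + 1))
        (fun i => by simp [Mk]) i) (fun n => ?_) lam
    · rw [(hB K q t).2.2.2 lam]
      exact h
    · have h1 : (fun i => (C q : Lam K) ^ (i + 1) * gq q i) = (fun i => -(X i : Lam K)) + gq q := by
        funext i
        have hne : (1 - q ^ (i + 1)) ≠ 0 := sub_ne_zero.2 (Ne.symm (hq1 i))
        rw [Pi.add_apply, gq]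
        have h2 : (C (q ^ (i + 1)) : Lam K) * C ((1 - q ^ (i + 1))⁻¹) =
            -1 + C ((1 - q ^ (i + 1))⁻¹) := by
          rw [← map_mul, ← map_one (C : K →+* Lam K), ← map_neg, ← map_add]
          congr 1
          field_simp
          ring
        rw [← map_pow, ← mul_assoc, h2]
        ring
      have h3 := Hs_scale (C q : Lam K) (gq q) n
      rw [h1, Hs_add] at h3
      rw [map_pow, ← h3]
      refine sum_congr rfl fun p _ => ?_
      simp
  · refine TriD_gen hDom hSpan hJTm (gq q) (Ds q t) (cm q⁻¹ t⁻¹) (fun lam => ?_) lam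
    have h := hTriG K (fun i => -Mk q⁻¹ t⁻¹ (i + 1)) (fun i => (X i : Lam K)) (gq q) t⁻¹ q⁻¹ q⁻¹
      (fun i => TriD_Tr _ hq1 (fun i => (1 - t⁻¹ ^ (i + 1)) * q⁻¹ ^ (i + 1))
        (fun i => ?_) i) (fun n => ?_) lam
    · rw [(hB K q⁻¹ t⁻¹).2.2.2 lam]
      exact h
    · have h4 : q ^ (i + 1) ≠ 0 := pow_ne_zero _ hq0
      simp only [Mk, inv_pow]
      field_simp
      ring
    · have h1 : (fun i => (C q⁻¹ : Lam K) ^ (i + 1) * gq q i) =
          (fun i => (C q⁻¹ : Lam K) ^ (i + 1) * X i) + gq q := by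
        funext i
        have hne : (1 - q ^ (i + 1)) ≠ 0 := sub_ne_zero.2 (Ne.symm (hq1 i))
        have h4 : q ^ (i + 1) ≠ 0 := pow_ne_zero _ hq0
        rw [Pi.add_apply, gq]
        have h2 : (C (q⁻¹ ^ (i + 1)) : Lam K) * C ((1 - q ^ (i + 1))⁻¹) =
            C (q⁻¹ ^ (i + 1)) + C ((1 - q ^ (i + 1))⁻¹) := by
          rw [← map_mul, ← map_add]
          congr 1
          rw [inv_pow]
          field_simp
          ring
        rw [← map_pow, ← mul_assoc, h2]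
        ring
      have h3 := Hs_scale (C q⁻¹ : Lam K) (gq q) n
      rw [h1, Hs_add] at h3
      rw [map_pow, ← h3]
      refine sum_congr rfl fun p _ => ?_
      rw [Hs_scale, map_pow]

end Pool.VD
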