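import Pool.Agent.VD.StM

/-!
# MP_cf06d4_co, block M: module TriG (helper9)

Triangularity of a vertex operator on the Jacobi - Trudi determinants.
-/

set_option autoImplicit false

namespace Pool.VD

open MvPolynomial Finset

variable {K : Type} [Field K] [CharZero K]

private theorem TriG_Gam_mono (a : ℕ → Lam K) {l : ℕ} (γ : Fin l → ℕ) (β : Fin l →₀ ℕ) (r : Lam K) :
    Gam a γ (monomial β r) = r * ∏ i, HZ a ((γ i : ℤ) - (β i : ℤ)) := by
  have h : (monomial β r : MvPolynomial (Fin l) (Lam K)) = r • monomial β 1 := by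
    rw [smul_monomial, smul_eq_mul, mul_one]
  rw [h, map_smul, smul_eq_mul]
  congr 1
  unfold Gam
  have h2 := (MvPolynomial.basisMonomials (Fin l) (Lam K)).constr_basis (Lam K)
    (fun β : Fin l →₀ ℕ => ∏ i, HZ a ((γ i : ℤ) - (β i : ℤ))) β
  rw [MvPolynomial.coe_basisMonomials] at h2
  exact h2

private theorem TriG_HZ_nat (a : ℕ → Lam K) (g b : ℕ) :
    HZ a ((g : ℤ) - (b : ℤ)) = if b ≤ g then Hs a (g - b) else 0 := by
  unfold HZ
  by_cases h : b ≤ g
  · rw [if_pos h, if_pos (by omega)]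
    congr 1
    omega
  · rw [if_neg h, if_neg (by omega)]

private theorem TriG_HZ_zero (a : ℕ → Lam K) {l : ℕ} (γ : Fin l → ℕ) (β : Fin l →₀ ℕ)
    (h : ¬ ∀ i, β i ≤ γ i) : ∏ i, HZ a ((γ i : ℤ) - (β i : ℤ)) = 0 := by
  push Not at h
  obtain ⟨i, hi⟩ := h
  apply Finset.prod_eq_zero (Finset.mem_univ i)
  rw [TriG_HZ_nat, if_neg (by omega)]

private theorem TriG_HZ_pos (a : ℕ → Lam K) {l : ℕ} (γ : Fin l → ℕ) (β : Fin l →₀ ℕ)
    (h : ∀ i, β i ≤ γ i) : ∏ i, HZ a ((γ i : ℤ) - (β i : ℤ)) = ∏ i, Hs a (γ i - β i) := by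
  apply Finset.prod_congr rfl
  intro i _
  rw [TriG_HZ_nat, if_pos (h i)]

/-- shift -/
private theorem TriG_shift (a : ℕ → Lam K) {l : ℕ} (γ : Fin l → ℕ) (β : Fin l →₀ ℕ)
    (h : ∀ i, β i ≤ γ i) (Q : MvPolynomial (Fin l) (Lam K)) :
    Gam a γ (monomial β 1 * Q) = Gam a (fun i => γ i - β i) Q := by
  induction Q using MvPolynomial.induction_on' with
  | monomial β' r =>
    rw [monomial_mul, one_mul, TriG_Gam_mono, TriG_Gam_mono]
    congr 1
    apply Finset.prod_congr rfl
    intro i _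
    congr 1
    have := h i
    rw [Finsupp.add_apply]
    push_cast [Nat.cast_sub this]
    ring
  | add p q hp hq => rw [mul_add, map_add, map_add, hp, hq]

private theorem TriG_shift0 (a : ℕ → Lam K) {l : ℕ} (γ : Fin l → ℕ) (β : Fin l →₀ ℕ)
    (h : ¬ ∀ i, β i ≤ γ i) (Q : MvPolynomial (Fin l) (Lam K)) :
    Gam a γ (monomial β 1 * Q) = 0 := by
  induction Q using MvPolynomial.induction_on' with
  | monomial β' r =>
    rw [monomial_mul, one_mul, TriG_Gam_mono, TriG_HZ_zero, mul_zero]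
    intro h2
    apply h
    intro i
    have := h2 i
    rw [Finsupp.add_apply] at this
    omega
  | add p q hp hq => rw [mul_add, map_add, hp, hq, add_zero]

/-- `P_N` -/
private noncomputable def TriG_PN (s : ℕ → Lam K) (l : ℕ) (b c : K) (N : ℕ) :
    MvPolynomial (Fin l) (Lam K) :=
  ∑ J ∈ range N, MvPolynomial.map C (QJ l b J) * C (C (c ^ J) * Hs s J)

/-- step (1) -/
private theorem TriG_step1 (hVoG : StVoG) (m : ℕ → K) (s a : ℕ → Lam K) (b c : K)
    (h1 : ∀ i, Tr m (a i) = Polynomial.C (a i) +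
      Polynomial.C (C ((1 - b ^ (i + 1)) * c ^ (i + 1)) : Lam K) *
        (Polynomial.X : Polynomial (Lam K)) ^ (i + 1))
    {l : ℕ} (γ : Fin l → ℕ) (N : ℕ) (hN : ∑ i, γ i < N) (P : MvPolynomial (Fin l) K) :
    Vo m s 0 (Gam a γ (MvPolynomial.map C P)) =
      Gam a γ (MvPolynomial.map C P * TriG_PN s l b c N) := by
  induction P using MvPolynomial.induction_on' with
  | monomial β r =>
    have e1 : (MvPolynomial.map C (monomial β r) : MvPolynomial (Fin l) (Lam K)) =
        (C r : Lam K) • monomial β 1 := by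
      rw [map_monomial, smul_monomial, smul_eq_mul, mul_one]
    rw [e1, smul_mul_assoc, (Gam a γ).map_smul, (Gam a γ).map_smul, smul_eq_mul, smul_eq_mul]
    have e2 : ∀ x : Lam K, (C r : Lam K) * x = r • x := fun x => by rw [MvPolynomial.smul_eq_C_mul]
    rw [e2, e2, (Vo m s 0).map_smul]
    congr 1
    by_cases h : ∀ i, β i ≤ γ i
    · rw [TriG_shift a γ β h, TriG_Gam_mono, one_mul, TriG_HZ_pos a γ β h]
      refine hVoG K m s a b c h1 l (fun i => γ i - β i) N ?_
      refine lt_of_le_of_lt (Finset.sum_le_sum (fun i _ => ?_)) hN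
      exact Nat.sub_le _ _
    · rw [TriG_shift0 a γ β h, TriG_Gam_mono, one_mul, TriG_HZ_zero a γ β h, map_zero]
  | add p q hp hq => rw [map_add, map_add, map_add, hp, hq, add_mul, map_add]

/-- step (3) -/
private theorem TriG_step3 (s a : ℕ → Lam K) (c d : K)
    (h2 : ∀ n, ∑ p ∈ antidiagonal n, C (c ^ p.1) * Hs s p.1 * Hs a p.2 = C (d ^ n) * Hs a n)
    {l : ℕ} (γ : Fin l → ℕ) (N : ℕ) (hN : ∑ i, γ i < N) (i : Fin l) (β : Fin l →₀ ℕ) :
    Gam a γ (monomial β 1 * ∑ J ∈ Ico 1 N, (X i ^ J * C (C (c ^ J) * Hs s J))) =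
      C (d ^ (γ i - β i) - 1) * ∏ k, HZ a ((γ k : ℤ) - (β k : ℤ)) := by
  by_cases h : ∀ i, β i ≤ γ i
  · have e1 : ∀ J : ℕ, Gam a γ (monomial β 1 * (X i ^ J * C (C (c ^ J) * Hs s J))) =
        (∏ k ∈ univ.erase i, Hs a (γ k - β k)) *
          (C (c ^ J) * Hs s J * (if J ≤ γ i - β i then Hs a (γ i - β i - J) else 0)) := by
      intro J
      have e2 : (monomial β 1 * (X i ^ J * C (C (c ^ J) * Hs s J)) : MvPolynomial (Fin l) (Lam K)) =
          monomial (β + Finsupp.single i J) (C (c ^ J) * Hs s J) := by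
        rw [X_pow_eq_monomial, ← mul_assoc, monomial_mul, mul_one, mul_comm, C_mul_monomial, mul_one]
      rw [e2, TriG_Gam_mono, ← Finset.mul_prod_erase univ _ (Finset.mem_univ i)]
      have e3 : ∏ x ∈ univ.erase i, HZ a ((γ x : ℤ) - ((β + Finsupp.single i J) x : ℤ)) =
          ∏ k ∈ univ.erase i, Hs a (γ k - β k) := by
        apply Finset.prod_congr rfl
        intro k hk
        have hk' : k ≠ i := (Finset.mem_erase.mp hk).1
        rw [Finsupp.add_apply, Finsupp.single_eq_of_ne hk', add_zero,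
          TriG_HZ_nat, if_pos (h k)]
      rw [e3, Finsupp.add_apply, Finsupp.single_eq_same, TriG_HZ_nat]
      have hi := h i
      by_cases hJ : J ≤ γ i - β i
      · rw [if_pos hJ, if_pos (by omega)]
        have : γ i - (β i + J) = γ i - β i - J := by omega
        rw [this]
        ring
      · rw [if_neg hJ, if_neg (by omega)]
        ring
    rw [Finset.mul_sum, map_sum, Finset.sum_congr rfl (fun J _ => e1 J), ← Finset.mul_sum]
    rw [TriG_HZ_pos a γ β h, ← Finset.mul_prod_erase univ _ (Finset.mem_univ i)]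
    have hNi : γ i - β i < N := by
      have : γ i ≤ ∑ i, γ i := Finset.single_le_sum (fun _ _ => Nat.zero_le _) (Finset.mem_univ i)
      omega
    set n := γ i - β i with hn
    have e4 : ∑ J ∈ Ico 1 N, (C (c ^ J) * Hs s J * (if J ≤ n then Hs a (n - J) else 0)) =
        (C (d ^ n) * Hs a n - Hs a n : Lam K) := by
      have e5 : ∑ J ∈ range N, (C (c ^ J) * Hs s J * (if J ≤ n then Hs a (n - J) else 0)) =
          (C (d ^ n) * Hs a n : Lam K) := by
        rw [← h2 n, Finset.Nat.sum_antidiagonal_eq_sum_range_succ_mk]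
        symm
        apply Finset.sum_subset_zero_on_sdiff
        · intro J hJ
          rw [Finset.mem_range] at hJ ⊢
          omega
        · intro J hJ
          rw [Finset.mem_sdiff, Finset.mem_range, Finset.mem_range] at hJ
          rw [if_neg (by omega), mul_zero]
        · intro J hJ
          rw [Finset.mem_range] at hJ
          rw [if_pos (by omega)]
      have e6 : (1 : ℕ) ≤ N := by omega
      rw [← e5, Finset.range_eq_Ico, ← Finset.sum_Ico_consecutive _ (Nat.zero_le 1) e6]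
      have h0 : Hs s 0 = 1 := by rw [Hs]
      simp [h0]
    rw [e4]
    have e7 : (C (d ^ n - 1) : Lam K) = C (d ^ n) - 1 := by rw [map_sub, map_one]
    rw [e7]
    ring
  · rw [TriG_shift0 a γ β h, TriG_HZ_zero a γ β h, mul_zero]

omit [CharZero K] in
/-- `Q_0 = 1` -/
private theorem TriG_Q0 (l : ℕ) (b : K) : QJ l b 0 = 1 := by
  unfold QJ
  rw [PowerSeries.coeff_zero_eq_constantCoeff, map_prod]
  apply Finset.prod_eq_one
  intro i _
  rw [← PowerSeries.coeff_zero_eq_constantCoeff_apply, PowerSeries.coeff_mk]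
  simp

/-- step (2) -/
private theorem TriG_step2 (hLag : StLag) (s : ℕ → Lam K) (l : ℕ) (b c : K) (N : ℕ) (hN : 1 ≤ N) :
    (MvPolynomial.map C (Vd K l) * TriG_PN s l b c N : MvPolynomial (Fin l) (Lam K)) =
      MvPolynomial.map C (Vd K l) + C (C (1 - b)) *
        ∑ i : Fin l, (MvPolynomial.map C (Nd l b i) *
          ∑ J ∈ Ico 1 N, (X i ^ J * C (C (c ^ J) * Hs s J))) := by
  unfold TriG_PN
  have h0 : Hs s 0 = 1 := by rw [Hs]
  rw [Finset.range_eq_Ico, ← Finset.sum_Ico_consecutive _ (Nat.zero_le 1) hN, mul_add]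
  congr 1
  · simp [TriG_Q0, h0]
  · rw [Finset.mul_sum, Finset.mul_sum]
    simp_rw [Finset.mul_sum]
    rw [Finset.sum_comm]
    apply Finset.sum_congr rfl
    intro J hJ
    rw [Finset.mem_Ico] at hJ
    have e1 := congrArg (MvPolynomial.map (C : K →+* Lam K)) (hLag K l b J hJ.1)
    rw [map_mul, map_mul, map_sum, map_C] at e1
    rw [← mul_assoc, e1, mul_assoc, Finset.sum_mul, Finset.mul_sum]
    apply Finset.sum_congr rfl
    intro i _
    rw [map_mul, map_pow, map_X]
    ring

/-- expansion of a product with a polynomial over `K` -/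
private theorem TriG_expand (a : ℕ → Lam K) {l : ℕ} (γ : Fin l → ℕ) (P : MvPolynomial (Fin l) K)
    (S : MvPolynomial (Fin l) (Lam K)) :
    Gam a γ (MvPolynomial.map C P * S) = ∑ β ∈ P.support, coeff β P • Gam a γ (monomial β 1 * S) := by
  have e0 : (MvPolynomial.map C P : MvPolynomial (Fin l) (Lam K)) =
      ∑ β ∈ P.support, (C (coeff β P) : Lam K) • monomial β 1 := by
    conv_lhs => rw [P.as_sum, map_sum]
    apply Finset.sum_congr rfl
    intro β _
    rw [map_monomial, smul_monomial, smul_eq_mul, mul_one]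
  rw [e0, Finset.sum_mul, map_sum]
  apply Finset.sum_congr rfl
  intro β _
  rw [smul_mul_assoc, (Gam a γ).map_smul, smul_eq_mul, MvPolynomial.smul_eq_C_mul]

private theorem TriG_card (μ : YoungDiagram) : μ.card = ∑ i ∈ range (μ.colLen 0), μ.rowLen i := by
  have h : ∀ c ∈ μ.cells, c.1 ∈ range (μ.colLen 0) := by
    intro c hc
    rw [Finset.mem_range, ← YoungDiagram.mem_iff_lt_colLen]
    exact μ.up_left_mem le_rfl (Nat.zero_le _) ((YoungDiagram.mem_cells c).mp hc)
  rw [YoungDiagram.card, Finset.card_eq_sum_card_fiberwise h]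
  apply Finset.sum_congr rfl
  intro i _
  rw [YoungDiagram.rowLen_eq_card]
  rfl

private theorem TriG_sumfilter (l k : ℕ) (hk : k ≤ l) (g : ℕ → ℕ) :
    ∑ i ∈ univ.filter (fun i : Fin l => (i : ℕ) < k), g i = ∑ i ∈ range k, g i := by
  rw [Finset.sum_filter, Fin.sum_univ_eq_sum_range (fun i => if i < k then g i else 0) l,
    ← Finset.sum_filter]
  apply Finset.sum_congr _ (fun _ _ => rfl)
  ext i
  rw [Finset.mem_filter, Finset.mem_range, Finset.mem_range]
  omega

/-- the terms other than the staircase are in `Ugt` -/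
private theorem TriG_term (hTour : StTour) (hComp : StComp) (a : ℕ → Lam K) (lam : YoungDiagram)
    (γ : Fin (lam.colLen 0) → ℕ)
    (hγ : ∀ i, γ i = lam.rowLen (i : ℕ) + (lam.colLen 0 - 1 - (i : ℕ)))
    (x y : Fin (lam.colLen 0) × Fin (lam.colLen 0) → K) (β : Fin (lam.colLen 0) →₀ ℕ)
    (hβ : coeff β (∏ p ∈ prs (lam.colLen 0), (C (x p) * X p.1 - C (y p) * X p.2 :
      MvPolynomial (Fin (lam.colLen 0)) K)) ≠ 0) (hne : β ≠ dl (lam.colLen 0)) :
    ∏ i : Fin (lam.colLen 0), HZ a ((γ i : ℤ) - (β i : ℤ)) ∈ Ugt a lam := by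
  by_cases h : ∀ i, β i ≤ γ i
  · rw [TriG_HZ_pos a γ β h]
    obtain ⟨-, hT⟩ := hTour K (lam.colLen 0) x y
    obtain ⟨hT1, hT2⟩ := hT β hβ
    have hsub : ∀ s : Finset (Fin (lam.colLen 0)),
        ∑ i ∈ s, (γ i - β i) + ∑ i ∈ s, β i = ∑ i ∈ s, γ i := by
      intro s
      rw [← Finset.sum_add_distrib]
      apply Finset.sum_congr rfl
      intro i _
      exact Nat.sub_add_cancel (h i)
    have hγs : ∀ s : Finset (Fin (lam.colLen 0)), ∑ i ∈ s, γ i = ∑ i ∈ s, lam.rowLen (i : ℕ) +
        ∑ i ∈ s, (lam.colLen 0 - 1 - (i : ℕ)) := by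
      intro s
      rw [← Finset.sum_add_distrib]
      exact Finset.sum_congr rfl (fun i _ => hγ i)
    have hc := hComp K a lam (fun i => γ i - β i) (by
      intro k hk
      rw [← TriG_sumfilter (lam.colLen 0) k hk (fun i => lam.rowLen i)]
      have h1 := hsub (univ.filter (fun i : Fin (lam.colLen 0) => (i : ℕ) < k))
      have h2 := hγs (univ.filter (fun i : Fin (lam.colLen 0) => (i : ℕ) < k))
      have h3 := hT1 k
      omega) (by
      have h1 := hsub univ
      have h2 := hγs univ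
      have h4 : ∑ i : Fin (lam.colLen 0), lam.rowLen (i : ℕ) = lam.card := by
        rw [TriG_card, Fin.sum_univ_eq_sum_range (fun i => lam.rowLen i) (lam.colLen 0)]
      omega)
    rcases hc with hc | ⟨ν, hν1, hν2, hν3⟩
    · exfalso
      apply hne
      ext i
      have h1 := hc i
      have h2 := h i
      have h5 := hγ i
      have h3 : dl (lam.colLen 0) i = lam.colLen 0 - 1 - (i : ℕ) := rfl
      rw [h3]
      omega
    · rw [hν3]
      exact Submodule.subset_span ⟨ν, hν1, hν2, rfl⟩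
  · rw [TriG_HZ_zero a γ β h]
    exact Submodule.zero_mem _

omit [CharZero K] in
/-- the number of pairs `(a, i)` with `a < i` -/
private theorem TriG_prod (l : ℕ) (b : K) (i : Fin l) :
    ∏ p ∈ prs l, (if p.2 = i then b else 1) = b ^ (i : ℕ) := by
  rw [Finset.prod_ite, Finset.prod_const_one, mul_one, Finset.prod_const]
  congr 1
  have h : (prs l).filter (fun p => p.2 = i) = (Finset.Iio i).map ⟨fun a => (a, i), fun a c h => by
      simpa using h⟩ := by
    ext ⟨x, y⟩
    simp only [prs, Finset.mem_filter, Finset.mem_univ, true_and, Finset.mem_map, Finset.mem_Iio,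
      Function.Embedding.coeFn_mk, Prod.mk.injEq]
    constructor
    · rintro ⟨h1, rfl⟩
      exact ⟨x, h1, rfl, rfl⟩
    · rintro ⟨z, h1, rfl, rfl⟩
      exact ⟨h1, rfl⟩
  rw [h, Finset.card_map, Fin.card_Iio]

/-- StTriG -/
theorem pTriG (hLag : StLag) (hTour : StTour) (hJT : StJT) (hVoG : StVoG) (hComp : StComp)
    (hJTm : StJTm) : StTriG := by
  intro K _ _ m s a b c d h1 h2 lam
  set l := lam.colLen 0 with hl
  set γ : Fin l → ℕ := fun i => lam.rowLen (i : ℕ) + (l - 1 - (i : ℕ)) with hγ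
  set N := ∑ i, γ i + 1 with hN
  have hN1 : ∑ i, γ i < N := Nat.lt_succ_self _
  set S : Fin l → MvPolynomial (Fin l) (Lam K) :=
    fun i => ∑ J ∈ Ico 1 N, (X i ^ J * C (C (c ^ J) * Hs s J)) with hS
  have hJ : JT a lam = Gam a γ (MvPolynomial.map C (Vd K l)) := hJT K a lam
  have hVo : Vo m s 0 (JT a lam) = JT a lam + (1 - b) • ∑ i : Fin l,
      Gam a γ (MvPolynomial.map C (Nd l b i) * S i) := by
    rw [hJ, TriG_step1 hVoG m s a b c h1 γ N hN1, TriG_step2 hLag s l b c N (by omega), map_add]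
    congr 1
    have e2 : (C (C (1 - b)) : MvPolynomial (Fin l) (Lam K)) *
        ∑ i : Fin l, (MvPolynomial.map C (Nd l b i) * S i) =
        (C (1 - b) : Lam K) • ∑ i : Fin l, (MvPolynomial.map C (Nd l b i) * S i) := by
      rw [MvPolynomial.smul_eq_C_mul]
    rw [e2, (Gam a γ).map_smul, smul_eq_mul, map_sum, ← MvPolynomial.smul_eq_C_mul]
  have hkey : ∀ i : Fin l, Gam a γ (MvPolynomial.map C (Nd l b i) * S i) -
      (b ^ (i : ℕ) * (d ^ lam.rowLen (i : ℕ) - 1)) • hP a lam ∈ Ugt a lam := by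
    intro i
    set x : Fin l × Fin l → K := fun p => if p.2 = i then b else 1 with hx
    set y : Fin l × Fin l → K := fun p => if p.2 = i then 1 else if p.1 = i then b else 1 with hy
    have hNd : Nd l b i = ∏ p ∈ prs l, (C (x p) * X p.1 - C (y p) * X p.2) := by
      unfold Nd
      apply Finset.prod_congr rfl
      intro p _
      simp only [hx, hy]
      split_ifs <;> simp
    have hdl : coeff (dl l) (Nd l b i) = b ^ (i : ℕ) := by
      rw [hNd, (hTour K l x y).1]
      exact TriG_prod l b i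
    set F : (Fin l →₀ ℕ) → Lam K := fun β => coeff β (Nd l b i) •
      (C (d ^ (γ i - β i) - 1) * ∏ k, HZ a ((γ k : ℤ) - (β k : ℤ))) with hF
    have hsum : Gam a γ (MvPolynomial.map C (Nd l b i) * S i) = ∑ β ∈ (Nd l b i).support, F β := by
      rw [TriG_expand]
      apply Finset.sum_congr rfl
      intro β _
      simp only [hF, hS]
      rw [TriG_step3 s a c d h2 γ N hN1 i β]
    have hsum2 : ∑ β ∈ (Nd l b i).support, F β = ∑ β ∈ insert (dl l) (Nd l b i).support, F β := by
      apply Finset.sum_subset (Finset.subset_insert _ _)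
      intro β _ h3
      simp only [hF]
      rw [MvPolynomial.notMem_support_iff.mp h3, zero_smul]
    have hFdl : F (dl l) = (b ^ (i : ℕ) * (d ^ lam.rowLen (i : ℕ) - 1)) • hP a lam := by
      have e3 : ∀ k : Fin l, dl l k = l - 1 - (k : ℕ) := fun k => rfl
      have e4 : ∀ k : Fin l, γ k - dl l k = lam.rowLen (k : ℕ) := by
        intro k
        rw [e3]
        simp only [hγ]
        omega
      have e5 : ∏ k, HZ a ((γ k : ℤ) - (dl l k : ℤ)) = hP a lam := by
        rw [TriG_HZ_pos a γ (dl l) (by intro k; rw [e3]; simp only [hγ]; omega)]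
        unfold hP
        rw [← hl, ← Fin.prod_univ_eq_prod_range (fun i => Hs a (lam.rowLen i)) l]
        apply Finset.prod_congr rfl
        intro k _
        rw [e4]
      simp only [hF]
      rw [hdl, e5, e4, ← MvPolynomial.smul_eq_C_mul, smul_smul]
    rw [hsum, hsum2, ← Finset.add_sum_erase _ _ (Finset.mem_insert_self _ _), hFdl,
      add_sub_cancel_left]
    apply Submodule.sum_mem
    intro β hβ
    rw [Finset.mem_erase, Finset.mem_insert] at hβ
    obtain ⟨hβ1, hβ2⟩ := hβ
    have hβ3 : β ∈ (Nd l b i).support := by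
      rcases hβ2 with h | h
      · exact absurd h hβ1
      · exact h
    simp only [hF]
    rw [← MvPolynomial.smul_eq_C_mul]
    apply Submodule.smul_mem
    apply Submodule.smul_mem
    rw [MvPolynomial.mem_support_iff, hNd] at hβ3
    exact TriG_term hTour hComp a lam γ (fun _ => rfl) x y β hβ3 hβ1
  have hfin : Vo m s 0 (JT a lam) -
      (1 + ∑ i ∈ range l, (1 - b) * b ^ i * (d ^ lam.rowLen i - 1)) • hP a lam =
      (JT a lam - hP a lam) + (1 - b) • ∑ i : Fin l,
        (Gam a γ (MvPolynomial.map C (Nd l b i) * S i) -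
          (b ^ (i : ℕ) * (d ^ lam.rowLen (i : ℕ) - 1)) • hP a lam) := by
    rw [hVo, Finset.sum_sub_distrib, ← Finset.sum_smul,
      Fin.sum_univ_eq_sum_range (fun i => b ^ i * (d ^ lam.rowLen i - 1)) l, smul_sub, smul_smul,
      add_smul, one_smul, Finset.mul_sum]
    simp_rw [mul_assoc]
    abel
  rw [hfin]
  exact Submodule.add_mem _ (hJTm K a lam) (Submodule.smul_mem _ _
    (Submodule.sum_mem _ (fun i _ => hkey i)))

end Pool.VD
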