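import Pool.Agent.VD.StM

/-!
# MP_cf06d4_co, block M, module VoG: action of a vertex operator on a product of `h`'s
-/

set_option autoImplicit false

namespace Pool.VD

open MvPolynomial Finset

variable {K : Type} [Field K] [CharZero K]

/-- `τ_0 = 1`, `τ_j = 1 - b` -/
private def VoG_tau (b : K) (n : ℕ) : K := if n = 0 then 1 else 1 - b

private theorem VoG_Lf (s : ℕ → Lam K) (x : Lam K) (j : ℕ) :
    Lf s (Polynomial.C x * (Polynomial.X : Polynomial (Lam K)) ^ j) = x * s j := by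
  rw [Polynomial.C_mul_X_pow_eq_monomial, Lf, Polynomial.lsum_apply,
    Polynomial.sum_monomial_index]
  · rfl
  · exact map_zero _

private theorem VoG_Gam (a : ℕ → Lam K) {l : ℕ} (γ : Fin l → ℕ) (β : Fin l →₀ ℕ) (x : Lam K) :
    Gam a γ (monomial β x) = x * ∏ i, HZ a ((γ i : ℤ) - (β i : ℤ)) := by
  have h : (monomial β x : MvPolynomial (Fin l) (Lam K)) =
      x • (basisMonomials (Fin l) (Lam K)) β := by
    rw [coe_basisMonomials, smul_monomial, smul_eq_mul, mul_one]
  rw [h, map_smul, Gam, Module.Basis.constr_basis, smul_eq_mul]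

private theorem VoG_QJ (l : ℕ) (b : K) (J : ℕ) :
    QJ l b J = ∑ β ∈ finsuppAntidiag univ J, monomial β (∏ i, VoG_tau b (β i)) := by
  rw [QJ, PowerSeries.coeff_prod]
  refine sum_congr rfl fun β _ => ?_
  simp only [PowerSeries.coeff_mk]
  rw [prod_mul_distrib, ← map_prod, monomial_eq, Finsupp.prod_fintype _ _ (fun i => pow_zero _)]
  rfl

private theorem VoG_Hs (hHsGeo : StHsGeo) (b c : K) (j : ℕ) :
    Hs (fun i => (1 - b ^ (i + 1)) * c ^ (i + 1)) j = VoG_tau b j * c ^ j := by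
  cases j with
  | zero => rw [Hs, VoG_tau, if_pos rfl, pow_zero, mul_one]
  | succ n =>
    rw [(hHsGeo K b c n).2.2.1, VoG_tau, if_neg (Nat.succ_ne_zero n)]

private theorem VoG_anti {M : Type} [AddCommMonoid M] (F : ℕ → ℕ → M) (n : ℕ) :
    ∑ p ∈ antidiagonal n, F p.1 p.2 = ∑ j ∈ range (n + 1), F (n - j) j := by
  rw [← Finset.Nat.sum_antidiagonal_swap]
  exact Finset.Nat.sum_antidiagonal_eq_sum_range_succ (fun i j => F j i) n

private theorem VoG_Tr (hHsGeo : StHsGeo) (hTrHs : StTrHs) (m : ℕ → K) (a : ℕ → Lam K) (b c : K)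
    (h : ∀ i, Tr m (a i) = Polynomial.C (a i) +
      Polynomial.C (C ((1 - b ^ (i + 1)) * c ^ (i + 1)) : Lam K) *
        (Polynomial.X : Polynomial (Lam K)) ^ (i + 1)) (n : ℕ) :
    Tr m (Hs a n) = ∑ j ∈ range (n + 1), Polynomial.C (Hs a (n - j) * C (VoG_tau b j * c ^ j)) *
      (Polynomial.X : Polynomial (Lam K)) ^ j := by
  rw [hTrHs K m (fun i => (1 - b ^ (i + 1)) * c ^ (i + 1)) a h n]
  rw [VoG_anti (fun i j => Polynomial.C (Hs a i *
    C (Hs (fun i => (1 - b ^ (i + 1)) * c ^ (i + 1)) j)) *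
      (Polynomial.X : Polynomial (Lam K)) ^ j) n]
  refine sum_congr rfl fun j _ => ?_
  rw [VoG_Hs hHsGeo]

private theorem VoG_left (hHsGeo : StHsGeo) (hTrHs : StTrHs) (m : ℕ → K) (s a : ℕ → Lam K)
    (b c : K)
    (h : ∀ i, Tr m (a i) = Polynomial.C (a i) +
      Polynomial.C (C ((1 - b ^ (i + 1)) * c ^ (i + 1)) : Lam K) *
        (Polynomial.X : Polynomial (Lam K)) ^ (i + 1)) (l : ℕ) (γ : Fin l → ℕ) :
    Vo m s 0 (∏ i, Hs a (γ i)) = ∑ β ∈ Fintype.piFinset (fun i => range (γ i + 1)),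
      (∏ i, (Hs a (γ i - β i) * C (VoG_tau b (β i) * c ^ β i))) * Hs s (∑ i, β i) := by
  show Lf (fun j => Hs s (j + 0)) (Tr m (∏ i, Hs a (γ i))) = _
  rw [map_prod]
  simp only [VoG_Tr hHsGeo hTrHs m a b c h]
  rw [prod_univ_sum, map_sum]
  refine sum_congr rfl fun β _ => ?_
  rw [prod_mul_distrib, ← map_prod, prod_pow_eq_pow_sum, VoG_Lf, add_zero]

private theorem VoG_right (s a : ℕ → Lam K) (b c : K) (l : ℕ) (γ : Fin l → ℕ) (J : ℕ) :
    Gam a γ (MvPolynomial.map C (QJ l b J) * C (C (c ^ J) * Hs s J)) =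
      ∑ β ∈ finsuppAntidiag univ J, (C (∏ i, VoG_tau b (β i)) * (C (c ^ J) * Hs s J)) *
        ∏ i, HZ a ((γ i : ℤ) - (β i : ℤ)) := by
  rw [VoG_QJ, map_sum, sum_mul, map_sum]
  refine sum_congr rfl fun β _ => ?_
  rw [map_monomial, mul_comm (monomial β _), C_mul_monomial, VoG_Gam]
  ring

theorem pVoG (hHsGeo : StHsGeo) (hTrHs : StTrHs) : StVoG := by
  intro K _ _ m s a b c h l γ N hN
  rw [VoG_left hHsGeo hTrHs m s a b c h l γ, map_sum]
  simp only [VoG_right]
  rw [← sum_fiberwise_of_maps_to (g := fun β : Fin l → ℕ => ∑ i, β i) (t := range N)]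
  · refine sum_congr rfl fun J _ => ?_
    refine sum_of_injOn (fun β => Finsupp.equivFunOnFinite.symm β) ?_ ?_ ?_ ?_
    · exact fun x _ y _ hxy => Finsupp.equivFunOnFinite.symm.injective hxy
    · intro β hβ
      rw [mem_coe, mem_filter] at hβ
      rw [mem_coe, mem_finsuppAntidiag]
      exact ⟨hβ.2, subset_univ _⟩
    · intro β hβ hβ'
      rw [mem_finsuppAntidiag] at hβ
      have hex : ∃ i, γ i < β i := by
        by_contra hcon
        push Not at hcon
        apply hβ'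
        refine ⟨β, ?_, Finsupp.equivFunOnFinite.symm_apply_apply β⟩
        rw [mem_coe, mem_filter, Fintype.mem_piFinset]
        exact ⟨fun i => mem_range.2 (Nat.lt_succ_of_le (hcon i)), hβ.1⟩
      obtain ⟨i, hi⟩ := hex
      have h0 : HZ a ((γ i : ℤ) - (β i : ℤ)) = 0 := by
        rw [HZ, if_neg]
        omega
      exact mul_eq_zero_of_right _ (prod_eq_zero (mem_univ i) h0)
    · intro β hβ
      rw [mem_filter, Fintype.mem_piFinset] at hβ
      obtain ⟨h1, h2⟩ := hβ
      have h3 : ∀ i, HZ a ((γ i : ℤ) - ((Finsupp.equivFunOnFinite.symm β) i : ℤ)) =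
          Hs a (γ i - β i) := by
        intro i
        have h4 := mem_range.1 (h1 i)
        rw [HZ]
        have h5 : ((Finsupp.equivFunOnFinite.symm β) i : ℤ) = (β i : ℤ) := rfl
        rw [h5, if_pos (by omega)]
        congr 1
        omega
      simp only [h3]
      rw [prod_mul_distrib]
      have h6 : ∏ i, (C (VoG_tau b (β i) * c ^ β i) : Lam K) =
          C (∏ i, VoG_tau b (β i)) * C (c ^ J) := by
        rw [← map_prod, prod_mul_distrib, prod_pow_eq_pow_sum, h2, C_mul]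
      rw [h6, h2]
      show _ = C (∏ i, VoG_tau b (β i)) * (C (c ^ J) * Hs s J) * _
      ring
  · intro β hβ
    rw [Fintype.mem_piFinset] at hβ
    refine mem_range.2 (lt_of_le_of_lt ?_ hN)
    exact sum_le_sum fun i _ => Nat.lt_succ_iff.1 (mem_range.1 (hβ i))

end Pool.VD
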