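import Pool.Agent.VD.M_CMA1
import Pool.Agent.VD.M_CMA2
import Pool.Agent.VD.M_CMA3
import Pool.Agent.VD.M_CMA4
import Pool.Agent.VD.M_CMA5
import Pool.Agent.VD.M_CMA6
import Pool.Agent.VD.M_CMA7
import Pool.Agent.VD.M_CMA8
import Pool.Agent.VD.M_CMA9
import Pool.Agent.VD.M_CMC1
import Pool.Agent.VD.M_CMC4
import Pool.Agent.VD.M_CMC5
import Pool.Agent.VD.M_CMC6
import Pool.Agent.VD.M_CMC7
import Pool.Agent.VD.M_CMC8
import Pool.Agent.VD.M_CMC9
import Pool.Agent.VD.M_CMC10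
import Pool.Agent.VD.M_CMEps
import Pool.Agent.VD.M_CMPsi
import Pool.Agent.VD.M_CMPhi
import Pool.Agent.VD.M_CMGen
import Pool.Agent.VD.M_CMSup
import Pool.Agent.VD.M_CMNSup
import Pool.Agent.VD.M_CML
import Pool.Agent.VD.M_A
import Pool.Agent.VD.M_B
import Pool.Agent.VD.M_Dom
import Pool.Agent.VD.M_GqF
import Pool.Agent.VD.M_Om
import Pool.Agent.VD.M_Lag
import Pool.Agent.VD.M_Tour
import Pool.Agent.VD.M_JT
import Pool.Agent.VD.M_VoG
import Pool.Agent.VD.M_Comp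
import Pool.Agent.VD.M_JTm
import Pool.Agent.VD.M_TriG
import Pool.Agent.VD.M_Span
import Pool.Agent.VD.M_TriD
import Pool.Agent.VD.M_HPB
import Pool.Agent.VD.M_EigA
import Pool.Agent.VD.M_Eig
import Pool.Agent.VD.M_PB
import Pool.Agent.VD.M_Pie
import Pool.Agent.VD.M_PieS
import Pool.Agent.VD.M_E1
import Pool.Agent.VD.M_E1S
import Pool.Agent.VD.M_CycV
import Pool.Agent.VD.M_Cyc
import Pool.Agent.VD.M_NN
import Pool.Agent.VD.M_NabU

/-!
# MP_cf06d4_co, block CM, assembly, part 1: the statements which do not need C11 and C12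
-/

set_option autoImplicit false

namespace Pool.VD.CM

theorem qA1 : StA1 := pA1
theorem qA2 : StA2 := pA2 qA1
theorem qA3 : StA3 := pA3 qA1 qA2
theorem qA4 : StA4 := pA4 qA3
theorem qA5 : StA5 := pA5
theorem qA6 : StA6 := pA6 qA1 qA2 qA3 qA4 qA5
theorem qA7 : StA7 := pA7 qA3 qA4 qA6
theorem qA8 : StA8 := pA8
theorem qA9 : StA9 := pA9
theorem qEps : StEps := pEps
theorem qD1 : StD1 := pD1
theorem qC1 : StC1 := pC1
theorem qC2 : StC2 := pC2
theorem qC3 : StC3 := pC3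
theorem qC4 : StC4 := pC4
theorem qC5 : StC5 := pC5
theorem qC6 : StC6 := pC6 qC1 qC2 qC3
theorem qC7 : StC7 := pC7 qC1 qC3 qC4
theorem qC8 : StC8 := pC8 qC1 qC4
theorem qC9 : StC9 := pC9 qC4 qC6 qC8
theorem qC10 : StC10 := pC10 qC1 qC3 qC4 qC6 qC7
theorem qPsi : StPsi := pPsi qA4 qA6 qA7 qA8 qA9 qEps
theorem qPhi : StPhi := pPhi qA1 qA3 qPsi qC2 qC3
theorem qGen : StGen := pGen qC4 qC8 qEps
theorem qSup : StSup := pSup
theorem qNSup : StNSup := pNSup qSup qGen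
theorem qL : StL := pL qC2 qSup qD1

theorem qCycV' : StCycV := pCycV pDX pVo1 pHsR
theorem qNabU' : StNabU := pNabU (pCyc qCycV')
theorem qVoG' : StVoG := pVoG pHsGeo pTrHs
theorem qJTm' : StJTm := pJTm pJT pTour pComp
theorem qTriG' : StTriG := pTriG pLag pTour pJT qVoG' pComp qJTm'
theorem qSpan' : StSpan := pSpan qJTm' pDom
theorem qTriD' : StTriD := pTriD qTriG' qSpan' qJTm' pDom pB pGqF
theorem qHPB' : StHPB := pHPB pHsR pHsMap
theorem qEigA' : StEigA := pEigA pDom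
theorem qEig' : StEig := pEig qHPB' qEigA' qTriD' pDD pGqF pB pHsHom
theorem qPie' : StPie := pPie pDX pDD pPB pGqF
theorem qPieS' : StPieS := pPieS pGqF
theorem qE1' : StE1 := pE1 qPie'
theorem qE1S' : StE1S := pE1S qPieS' qPie' pGqF
theorem qNN' : StNN := pNN pOm qEig' qE1' qE1S' qCycV' pGqF

end Pool.VD.CM
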