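import Pool.Agent.VD.M_ClL

/-!
# MP_cf06d4_co, group V, block C: StClG (helper13)
-/

set_option autoImplicit false

namespace Pool.VD

open MvPolynomial Finset

open Cl M_WSH M_WMEM M_WPHA M_WREC in
theorem pClG : StClG := by
  intro K _ _ q t _ _ N m a hm
  rw [group q t N m hm]
  have h1 : ∀ r ∈ Icc 1 m, ∀ w ∈ Ws N r,
      ∑ L ∈ (DyW m N).filter (fun L => lab0 L = w), wK q t N L * (A0 q t N L).coeff a =
      ∑ p ∈ antidiagonal a, evN K N (Est q t p.1) * kc q t N r p.2 (m - r) w := by
    intro r hr w hw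
    rw [mem_Icc] at hr
    have h2 : ∀ L ∈ (DyW m N).filter (fun L => lab0 L = w), wK q t N L * (A0 q t N L).coeff a =
        ∑ p ∈ antidiagonal a, evN K N (Est q t p.1) * (wK q t N L * PowerSeries.coeff p.2 (PhiW q t N L)) := by
      intro L _
      rw [A0_coeff, mul_sum]
      refine sum_congr rfl fun p _ => ?_
      ring
    rw [sum_congr rfl h2, sum_comm]
    refine sum_congr rfl fun p _ => ?_
    rw [← mul_sum, KW_coeff q t N m r w hw hr.2]
  have h3 : ∀ r ∈ Icc 1 m, (qn q m / qn q r) • ∑ w ∈ Ws N r, xl K N w *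
      ∑ L ∈ (DyW m N).filter (fun L => lab0 L = w), wK q t N L * (A0 q t N L).coeff a =
      ∑ p ∈ antidiagonal a, evN K N (Est q t p.1) *
        ((qn q m / qn q r) • (((WDm K N) ^ r) (kc q t N r p.2 (m - r)) [])) := by
    intro r hr
    have h4 : ∑ w ∈ Ws N r, xl K N w *
      ∑ L ∈ (DyW m N).filter (fun L => lab0 L = w), wK q t N L * (A0 q t N L).coeff a =
      ∑ p ∈ antidiagonal a, evN K N (Est q t p.1) * (((WDm K N) ^ r) (kc q t N r p.2 (m - r)) []) := by
      rw [sum_congr rfl fun w hw => by rw [h1 r hr w hw]]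
      simp_rw [mul_sum]
      rw [sum_comm]
      refine sum_congr rfl fun p _ => ?_
      rw [WDm_pow, mul_sum]
      refine sum_congr rfl fun w _ => ?_
      rw [List.nil_append]
      ring
    rw [h4, smul_sum]
    refine sum_congr rfl fun p _ => ?_
    rw [mul_smul_comm]
  rw [sum_congr rfl h3, sum_comm]
  refine sum_congr rfl fun p _ => ?_
  rw [mul_sum]

end Pool.VD
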