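import Pool.Agent.VD.M_WSH
import Pool.Agent.VD.M_A

/-!
# MP_cf06d4_co, group V, block C, words half: factorisation of the tail factor (helper23)
-/

set_option autoImplicit false

namespace Pool.VD

open MvPolynomial Finset

namespace M_WPHI

open M_WSH M_WMEM

variable {K : Type} [Field K] [CharZero K]

/-! ### the series `phiS` -/

theorem qpo_ne (q : K) (hq : ∀ n : ℕ, 1 ≤ n → q ^ n ≠ 1) (n : ℕ) : qpo q n ≠ 0 := by
  rw [qpo, prod_ne_zero_iff]
  intro i _
  exact sub_ne_zero.2 (hq (i + 1) (by omega)).symm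

theorem phi_step (q : K) (hq : ∀ n : ℕ, 1 ≤ n → q ^ n ≠ 1) {A : Type} [CommRing A] [Algebra K A] (y : A) :
    (1 - PowerSeries.C y * PowerSeries.X) * phiS q y = phiS q (q • y) := by
  ext n
  rw [sub_mul, one_mul, map_sub, mul_assoc, PowerSeries.coeff_C_mul]
  cases n with
  | zero =>
    simp [phiS, PowerSeries.coeff_zero_X_mul]
  | succ n =>
    rw [PowerSeries.coeff_succ_X_mul]
    simp only [phiS, PowerSeries.coeff_mk]
    have h1 := qpo_ne q hq n
    have h2 := qpo_ne q hq (n + 1)
    have h3 : qpo q (n + 1) = qpo q n * (1 - q ^ (n + 1)) := by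
      rw [qpo, prod_range_succ, ← qpo]
    have h4 : (1 : K) - q ^ (n + 1) ≠ 0 := sub_ne_zero.2 (hq (n + 1) (by omega)).symm
    rw [mul_smul_comm, smul_pow, smul_smul, ← pow_succ', ← sub_smul]
    congr 1
    rw [h3]
    field_simp
    ring

theorem poch_phi (q t : K) (hq : ∀ n : ℕ, 1 ≤ n → q ^ n ≠ 1) (N c n : ℕ) :
    (poch q t N 0 c n : PowerSeries (MvPolynomial (Fin N) K)) * phiS q (-yv K N c) =
      phiS q (-(C (q ^ n) * yv K N c)) := by
  induction n with
  | zero => simp [poch]
  | succ n ih =>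
    have e : (poch q t N 0 c (n + 1) : PowerSeries (MvPolynomial (Fin N) K)) =
        (poch q t N 0 c n : PowerSeries (MvPolynomial (Fin N) K)) *
          (1 - PowerSeries.C (-(C (q ^ n) * yv K N c)) * PowerSeries.X) := by
      rw [poch, prod_range_succ, ← poch, Polynomial.coe_mul]
      congr 1
      simp
    rw [e, mul_assoc, mul_comm (1 - _) (phiS q (-yv K N c)), ← mul_assoc, ih, mul_comm, phi_step q hq]
    congr 1
    rw [smul_eq_C_mul, pow_succ]
    simp only [map_mul, map_pow]
    ring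

/-! ### the series `Einv` -/

/-- `1/(q;q)_n = h_n[1/(1-q)]` -/
theorem hs_q (q : K) (hq : ∀ n : ℕ, 1 ≤ n → q ^ n ≠ 1) (n : ℕ) :
    Hs (fun i => (1 - q ^ (i + 1))⁻¹) n = (qpo q n)⁻¹ := by
  have hrec : ∀ n, Hs (fun i => (1 - q ^ (i + 1))⁻¹) n =
      ∑ j ∈ range (n + 1), q ^ j * Hs (fun i => (1 - q ^ (i + 1))⁻¹) j := by
    intro n
    have e : (fun i : ℕ => (1 - q ^ (i + 1))⁻¹) =
        fun i => (1 : K) ^ (i + 1) + q ^ (i + 1) * (1 - q ^ (i + 1))⁻¹ := by
      funext i
      have : (1 : K) - q ^ (i + 1) ≠ 0 := sub_ne_zero.2 (hq (i + 1) (by omega)).symm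
      field_simp
      ring
    conv_lhs => rw [e]
    rw [pHsAdd, Nat.sum_antidiagonal_eq_sum_range_succ_mk, ← sum_range_reflect]
    refine sum_congr rfl fun j hj => ?_
    rw [mem_range] at hj
    have e1 : n + 1 - 1 - j = n - j := by omega
    have e2 : n - (n - j) = j := by omega
    rw [e1]
    simp only [e2]
    rw [(pHsGeo K 0 1 (n - j)).1, pHsSc, one_pow, one_mul]
  induction n with
  | zero => simp [Hs, qpo]
  | succ n ih =>
    have h1 := hrec (n + 1)
    rw [sum_range_succ, ← hrec n, ih] at h1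
    have h3 : qpo q (n + 1) = qpo q n * (1 - q ^ (n + 1)) := by
      rw [qpo, prod_range_succ, ← qpo]
    have h4 : (1 : K) - q ^ (n + 1) ≠ 0 := sub_ne_zero.2 (hq (n + 1) (by omega)).symm
    have h5 := qpo_ne q hq n
    generalize Hs (fun i => (1 - q ^ (i + 1))⁻¹) (n + 1) = x at h1 ⊢
    rw [h3, mul_inv, ← div_eq_mul_inv, eq_div_iff h4]
    linear_combination h1

theorem hs_phi (q : K) (hq : ∀ n : ℕ, 1 ≤ n → q ^ n ≠ 1) (N n : ℕ) (y : MvPolynomial (Fin N) K) :
    Hs (fun i => C (1 - q ^ (i + 1))⁻¹ * y ^ (i + 1)) n = (qpo q n)⁻¹ • y ^ n := by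
  have e : (fun i => C (1 - q ^ (i + 1))⁻¹ * y ^ (i + 1)) =
      fun i => y ^ (i + 1) * (C (1 - q ^ (i + 1))⁻¹ : MvPolynomial (Fin N) K) := by
    funext i; ring
  rw [e, pHsSc]
  have := pHsMap K (MvPolynomial (Fin N) K) (C : K →+* MvPolynomial (Fin N) K)
    (fun i => (1 - q ^ (i + 1))⁻¹) n
  rw [← this, hs_q q hq, smul_eq_C_mul, mul_comm]

/-- `∑ (-z)^n Hs a n` -/
noncomputable def SS (N : ℕ) (a : ℕ → MvPolynomial (Fin N) K) : PowerSeries (MvPolynomial (Fin N) K) :=
  PowerSeries.mk fun n => (-1) ^ n * Hs a n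

theorem SS_add (N : ℕ) (a b : ℕ → MvPolynomial (Fin N) K) : SS N (fun i => a i + b i) = SS N a * SS N b := by
  ext1 n
  rw [PowerSeries.coeff_mul, SS, PowerSeries.coeff_mk, pHsAdd, mul_sum]
  refine sum_congr rfl fun p hp => ?_
  rw [Finset.HasAntidiagonal.mem_antidiagonal] at hp
  rw [SS, SS, PowerSeries.coeff_mk, PowerSeries.coeff_mk, ← hp, pow_add]
  ring

theorem SS_zero (N : ℕ) : SS N (fun _ => (0 : MvPolynomial (Fin N) K)) = 1 := by
  ext1 n
  rw [SS, PowerSeries.coeff_mk, PowerSeries.coeff_one]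
  cases n with
  | zero => simp [Hs]
  | succ n => rw [(pHsGeo (MvPolynomial (Fin N) K) 0 0 n).2.2.2]; simp

theorem SS_sum (N m : ℕ) (a : ℕ → ℕ → MvPolynomial (Fin N) K) :
    SS N (fun i => ∑ c ∈ range m, a c i) = ∏ c ∈ range m, SS N (a c) := by
  induction m with
  | zero => simp only [range_zero, sum_empty, prod_empty]; exact SS_zero N
  | succ m ih =>
    rw [prod_range_succ, ← ih, ← SS_add]
    congr 1
    funext i
    rw [sum_range_succ]

theorem SS_scale (N : ℕ) (r : MvPolynomial (Fin N) K) (a : ℕ → MvPolynomial (Fin N) K) :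
    SS N (fun i => r ^ (i + 1) * a i) = PowerSeries.rescale r (SS N a) := by
  ext1 n
  rw [PowerSeries.coeff_rescale, SS, SS, PowerSeries.coeff_mk, PowerSeries.coeff_mk, pHsSc]
  ring

theorem SS_phi (q : K) (hq : ∀ n : ℕ, 1 ≤ n → q ^ n ≠ 1) (N : ℕ) (y : MvPolynomial (Fin N) K) :
    SS N (fun i => C (1 - q ^ (i + 1))⁻¹ * y ^ (i + 1)) = phiS q (-y) := by
  ext1 n
  rw [SS, PowerSeries.coeff_mk, hs_phi q hq, phiS, PowerSeries.coeff_mk, neg_pow y n, mul_smul_comm]

theorem psum_range (N j : ℕ) :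
    ∑ i : Fin N, (X i : MvPolynomial (Fin N) K) ^ (j + 1) = ∑ c ∈ range N, yv K N c ^ (j + 1) := by
  rw [Finset.sum_range]
  refine sum_congr rfl fun i _ => ?_
  simp [yv]

theorem Einv_SS (q t : K) (N : ℕ) :
    Einv q t N = SS N (fun i => C (Mk q t (i + 1))⁻¹ * ∑ c ∈ range N, yv K N c ^ (i + 1)) := by
  ext1 n
  rw [Einv, SS, PowerSeries.coeff_mk, PowerSeries.coeff_mk]
  congr 1
  have := pHsMap (Lam K) (MvPolynomial (Fin N) K) (evN K N : Lam K →+* MvPolynomial (Fin N) K)
    (fun i => (C (Mk q t (i + 1))⁻¹ * X i : Lam K)) n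
  rw [Hst]
  refine this.trans ?_
  congr 1
  funext i
  have h1 : (evN K N : Lam K →+* MvPolynomial (Fin N) K) (C (Mk q t (i + 1))⁻¹ * X i : Lam K) =
      evN K N (C (Mk q t (i + 1))⁻¹ * X i : Lam K) := rfl
  rw [h1, map_mul, evN, aeval_X, ← psum_range]
  congr 1
  rw [← algebraMap_eq, AlgHom.commutes, algebraMap_eq]

theorem Einv_fact (q t : K) (hq : ∀ n : ℕ, 1 ≤ n → q ^ n ≠ 1) (ht : ∀ n : ℕ, 1 ≤ n → t ^ n ≠ 1)
    (N : ℕ) :
    Einv q t N = (∏ c ∈ range N, phiS q (-yv K N c)) *
      PowerSeries.rescale (C t : MvPolynomial (Fin N) K) (Einv q t N) := by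
  have e : (fun i => C (Mk q t (i + 1))⁻¹ * ∑ c ∈ range N, yv K N c ^ (i + 1)) =
      fun i => (∑ c ∈ range N, C (1 - q ^ (i + 1))⁻¹ * yv K N c ^ (i + 1)) +
        (C t : MvPolynomial (Fin N) K) ^ (i + 1) *
          (C (Mk q t (i + 1))⁻¹ * ∑ c ∈ range N, yv K N c ^ (i + 1)) := by
    funext i
    have h1 : (1 : K) - q ^ (i + 1) ≠ 0 := sub_ne_zero.2 (hq (i + 1) (by omega)).symm
    have h2 : (1 : K) - t ^ (i + 1) ≠ 0 := sub_ne_zero.2 (ht (i + 1) (by omega)).symm
    rw [← mul_sum, ← mul_assoc, ← add_mul, ← map_pow, ← map_mul, ← map_add]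
    congr 2
    rw [Mk]
    field_simp
    ring
  rw [Einv_SS]
  conv_lhs => rw [e]
  rw [SS_add, SS_scale, SS_sum]
  congr 1
  exact prod_congr rfl fun c _ => SS_phi q hq N _

/-! ### the factor `A0` -/

theorem bot_zero (L : List Car) (hL : ∀ c ∈ L, 0 ≤ c.1) : bot L = 0 := by
  induction L with
  | nil => rfl
  | cons c L ih =>
    have h1 := ih fun d hd => hL d (by simp [hd])
    have h2 := hL c (by simp)
    simp only [bot] at h1 ⊢
    rw [List.map_cons, List.foldr_cons, h1]
    have : (-c.1).toNat = 0 := by omega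
    rw [this]; rfl

theorem cnt_zero_lev (L : List Car) (hL : ∀ c ∈ L, 0 ≤ c.1) (v : ℕ) :
    cnt L (0, v) = gtc (lab0 (hil L)) v + crs (lab0 L) [v] := by
  induction L with
  | nil => rfl
  | cons c L ih =>
    have h1 := ih fun d hd => hL d (by simp [hd])
    have h2 := hL c (by simp)
    rw [cnt, List.countP_cons, ← cnt, h1, lab0_cons, hil_cons]
    by_cases h3 : c.1 = 0
    · rw [if_pos h3, if_pos h3]
      have e : decide (att c (0, v)) = decide (c.2 < v) := by
        congr 1
        simp only [att, h3, eq_iff_iff]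
        constructor
        · rintro (h | h)
          · exact h.2
          · omega
        · intro h; exact Or.inl ⟨trivial, h⟩
      rw [e]
      simp only [crs, List.map_cons, List.sum_cons, gtc, List.countP_cons, List.countP_nil, zero_add]
      ring
    · rw [if_neg h3, if_neg h3, lab0_cons]
      by_cases h4 : c.1 = 1
      · have e : decide (att c (0, v)) = decide (v < c.2) := by
          congr 1
          simp only [att, h4, eq_iff_iff]
          constructor
          · rintro (h | h)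
            · omega
            · exact h.2
          · intro h; exact Or.inr ⟨by norm_num, h⟩
        have h5 : (dn c).1 = 0 := by show c.1 - 1 = 0; omega
        rw [if_pos h5, e]
        simp only [dn, gtc, List.countP_cons]
        ring
      · have e : ¬ att c (0, v) := by
          simp only [att]; omega
        have h5 : ¬ (dn c).1 = 0 := by show ¬ (c.1 - 1 = 0); omega
        rw [if_neg h5]
        simp [e]

theorem cnt_succ_lev (L : List Car) (hL : ∀ c ∈ L, 0 ≤ c.1) (b v : ℕ) :
    cnt L ((b : ℤ) + 1, v) = cnt (hil L) ((b : ℤ), v) := by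
  induction L with
  | nil => rfl
  | cons c L ih =>
    have h1 := ih fun d hd => hL d (by simp [hd])
    have h2 := hL c (by simp)
    rw [cnt, List.countP_cons, ← cnt, h1, hil_cons]
    by_cases h3 : c.1 = 0
    · rw [if_pos h3]
      have e : ¬ att c ((b : ℤ) + 1, v) := by
        simp only [att]; omega
      simp [e]
    · rw [if_neg h3, cnt, cnt, List.countP_cons]
      congr 2
      simp only [att, dn, eq_iff_iff, decide_eq_true_eq]
      constructor <;> rintro (⟨a, b⟩ | ⟨a, b⟩)
      · exact Or.inl ⟨by omega, b⟩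
      · exact Or.inr ⟨by omega, b⟩
      · exact Or.inl ⟨by omega, b⟩
      · exact Or.inr ⟨by omega, b⟩

theorem lev_hil : ∀ (L : List Car) (p : Car), Leg p L → 0 ≤ p.1 → (∀ c ∈ L, 0 ≤ c.1) →
    ∀ c ∈ L, c.1 ≤ p.1 + (hil L).length := by
  intro L
  induction L with
  | nil => intro p _ _ _ c hc; simp at hc
  | cons u L ih =>
    intro p h hp hL c hc
    have hu : u.1 ≤ p.1 + 1 := by
      have := h.1
      simp only [Hi, dn] at this
      omega
    have hu0 := hL u (by simp)
    have hL' : ∀ c ∈ L, 0 ≤ c.1 := fun c hc => hL c (by simp [hc])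
    rw [hil_cons]
    by_cases h0 : u.1 = 0
    · rw [if_pos h0]
      rcases List.mem_cons.1 hc with rfl | h'
      · omega
      · have := ih u h.2 hu0 hL' c h'
        omega
    · rw [if_neg h0, List.length_cons]
      rcases List.mem_cons.1 hc with rfl | h'
      · push_cast; omega
      · have := ih u h.2 hu0 hL' c h'
        push_cast; omega

/-- truncated product -/
noncomputable def AB (q t : K) (N B : ℕ) (L : List Car) : Polynomial (MvPolynomial (Fin N) K) :=
  ∏ b ∈ range B, ∏ v ∈ range N, poch q t N b v (cnt L ((b : ℤ), v))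

theorem AB_stable (q t : K) (N n : ℕ) (L : List Car) (hL : ∀ c ∈ L, c.1 < (n : ℤ)) (B : ℕ)
    (hB : n ≤ B) : AB q t N B L = AB q t N n L := by
  rw [AB, AB]
  symm
  apply prod_subset (range_subset_range.2 hB)
  intro b _ hb
  rw [mem_range, not_lt] at hb
  refine prod_eq_one fun v _ => ?_
  have : cnt L ((b : ℤ), v) = 0 := by
    rw [cnt, List.countP_eq_zero]
    intro c hc
    have := hL c hc
    simp only [att, decide_eq_true_eq]
    omega
  rw [this]; simp [poch]

theorem rescale_poch (q t : K) (N b v n : ℕ) :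
    (poch q t N (b + 1) v n : PowerSeries (MvPolynomial (Fin N) K)) =
      PowerSeries.rescale (C t : MvPolynomial (Fin N) K)
        (poch q t N b v n : PowerSeries (MvPolynomial (Fin N) K)) := by
  induction n with
  | zero => simp [poch]
  | succ n ih =>
    have e : ∀ b, (poch q t N b v (n + 1) : PowerSeries (MvPolynomial (Fin N) K)) =
        (poch q t N b v n : PowerSeries (MvPolynomial (Fin N) K)) *
          (1 + PowerSeries.C (C (t ^ b * q ^ n) * yv K N v) * PowerSeries.X) := by
      intro b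
      rw [poch, prod_range_succ, ← poch, Polynomial.coe_mul]
      congr 1
      simp
    rw [e, e, map_mul (PowerSeries.rescale (C t)), ← ih]
    congr 1
    ext1 m
    rw [PowerSeries.coeff_rescale, map_add, map_add, PowerSeries.coeff_C_mul, PowerSeries.coeff_C_mul,
      PowerSeries.coeff_one, PowerSeries.coeff_X]
    by_cases h0 : m = 0
    · subst h0; simp
    · by_cases h1 : m = 1
      · subst h1
        simp only [if_true, if_neg one_ne_zero, zero_add, mul_one, pow_one]
        rw [pow_succ]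
        simp only [map_mul, map_pow]
        ring
      · rw [if_neg h0, if_neg h1]; simp

theorem coe_prod {ι : Type} (s : Finset ι) {R : Type} [CommRing R] (f : ι → Polynomial R) :
    ((∏ i ∈ s, f i : Polynomial R) : PowerSeries R) = ∏ i ∈ s, (f i : PowerSeries R) :=
  map_prod (Polynomial.coeToPowerSeries.ringHom (R := R)) f s

theorem AB_succ (q t : K) (N B : ℕ) (L : List Car) (hL : ∀ c ∈ L, 0 ≤ c.1) :
    (AB q t N (B + 1) L : PowerSeries (MvPolynomial (Fin N) K)) =
      (∏ v ∈ range N, (poch q t N 0 v (gtc (lab0 (hil L)) v + crs (lab0 L) [v]) :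
        PowerSeries (MvPolynomial (Fin N) K))) *
      PowerSeries.rescale (C t : MvPolynomial (Fin N) K)
        (AB q t N B (hil L) : PowerSeries (MvPolynomial (Fin N) K)) := by
  rw [AB, prod_range_succ', mul_comm, Polynomial.coe_mul, coe_prod, coe_prod]
  congr 1
  · refine prod_congr rfl fun v _ => ?_
    rw [Nat.cast_zero, cnt_zero_lev L hL]
  · rw [AB, coe_prod, map_prod]
    refine prod_congr rfl fun b _ => ?_
    rw [coe_prod, coe_prod, map_prod]
    refine prod_congr rfl fun v _ => ?_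
    rw [rescale_poch]
    congr 3
    rw [← cnt_succ_lev L hL]
    push_cast; rfl

theorem pWPhi (q t : K) : StWPhi q t := by
  intro hq ht N m L hLm
  have hM := (pWMem m N L).1 hLm
  have hL : ∀ c ∈ L, 0 ≤ c.1 := fun c hc => (hM.2.1 c hc).1
  have hH : ∀ c ∈ hil L, 0 ≤ c.1 ∧ c.1 < ((hil L).length : ℤ) := by
    intro c hc
    simp only [hil, List.mem_map, List.mem_filter] at hc
    obtain ⟨e, ⟨he, he0⟩, rfl⟩ := hc
    have h1 := hL e he
    have h2 := lev_hil L (0, N) hM.2.2 (le_refl 0) hL e he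
    simp only [decide_eq_true_eq] at he0
    simp only [dn]
    refine ⟨by omega, ?_⟩
    simp only [zero_add] at h2
    simp only [hil] at h2 ⊢
    omega
  have hA : A0 q t N L = AB q t N (2 * L.length + 2) L := by
    rw [A0, AB, bot_zero L hL]
    simp
  have hA' : A0 q t N (hil L) = AB q t N (2 * (hil L).length + 2) (hil L) := by
    rw [A0, AB, bot_zero (hil L) fun c hc => (hH c hc).1]
    simp
  have hlen : (hil L).length ≤ L.length := by
    simp only [hil, List.length_map]; exact List.length_filter_le _ _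
  rw [PhiW, hA, AB_succ q t N _ L hL, Einv_fact q t hq ht, PhiW, hA',
    AB_stable q t N (hil L).length (hil L) (fun c hc => (hH c hc).2) _ (by omega),
    AB_stable q t N (hil L).length (hil L) (fun c hc => (hH c hc).2) (2 * (hil L).length + 2)
      (by omega), map_mul]
  have hprod : (∏ v ∈ range N, (poch q t N 0 v (gtc (lab0 (hil L)) v + crs (lab0 L) [v]) :
      PowerSeries (MvPolynomial (Fin N) K))) * (∏ c ∈ range N, phiS q (-yv K N c)) =
      ∏ c ∈ range N, phiS q (-(C (q ^ (gtc (lab0 (hil L)) c + crs (lab0 L) [c])) * yv K N c)) := by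
    rw [← prod_mul_distrib]
    exact prod_congr rfl fun c _ => poch_phi q t hq N c _
  rw [← hprod]
  ring

end M_WPHI

end Pool.VD
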