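import Pool.Agent.VD.StCW

/-!
# MP_cf06d4_co, group V, block C, module WTAIL (helper61)
-/

set_option autoImplicit false

namespace Pool.VD

open MvPolynomial Finset

variable {K : Type} [Field K]

private lemma qpo_succ_WT (q : K) (n : ℕ) : qpo q (n + 1) = qpo q n * (1 - q ^ (n + 1)) := by
  unfold qpo
  rw [prod_range_succ]

private lemma phi_sub_WT (q : K) (hq : ∀ n : ℕ, 1 ≤ n → q ^ n ≠ 1) {A : Type} [CommRing A] [Algebra K A]
    (y : A) : phiS q y = phiS q (q • y) + PowerSeries.C y * PowerSeries.X * phiS q y := by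
  ext n
  rw [map_add, mul_assoc, PowerSeries.coeff_C_mul]
  cases n with
  | zero =>
    rw [PowerSeries.coeff_zero_X_mul]
    simp [phiS]
  | succ n =>
    rw [PowerSeries.coeff_succ_X_mul]
    simp only [phiS, PowerSeries.coeff_mk]
    have h1 : (1 - q ^ (n + 1)) ≠ 0 := sub_ne_zero.mpr (hq (n + 1) (by omega)).symm
    have h2 : (qpo q n)⁻¹ = (qpo q (n + 1))⁻¹ * (1 - q ^ (n + 1)) := by
      rw [qpo_succ_WT, mul_inv, mul_assoc, inv_mul_cancel₀ h1, mul_one]
    rw [h2, smul_pow, mul_smul_comm, ← pow_succ', smul_smul, ← add_smul]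
    congr 1
    ring

private lemma phi_resc_WT (q : K) {A : Type} [CommRing A] [Algebra K A] (y : A) :
    phiS q (q • y) = PowerSeries.rescale (algebraMap K A q) (phiS q y) := by
  ext n
  simp only [phiS, PowerSeries.coeff_mk, PowerSeries.coeff_rescale]
  rw [smul_pow, ← map_pow, Algebra.smul_def (q ^ n), mul_smul_comm]

private lemma Ws_succ_WT {B : Type} [AddCommMonoid B] (N m : ℕ) (f : List ℕ → B) :
    ∑ τ ∈ Ws N (m + 1), f τ = ∑ c ∈ range N, ∑ τ ∈ Ws N m, f (c :: τ) := by
  unfold Ws
  rw [Wd, sum_map, sum_product]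
  rfl

private lemma gtc_cons_WT (l : List ℕ) (c d : ℕ) : gtc (d :: l) c = (if c < d then 1 else 0) + gtc l c := by
  unfold gtc
  rw [List.countP_cons]
  by_cases h : c < d
  · simp [h, add_comm]
  · simp [h]

private lemma prod_WT (q : K) {A : Type} [CommRing A] [Algebra K A] (y : ℕ → A) (c : ℕ) (l : List ℕ) :
    (l.map (fun d => if c < d then q • y d else y d)).prod = q ^ gtc l c • (l.map y).prod := by
  induction l with
  | nil => simp [gtc]
  | cons d l ih =>
    rw [List.map_cons, List.prod_cons, ih, List.map_cons, List.prod_cons, gtc_cons_WT]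
    by_cases h : c < d
    · rw [if_pos h, if_pos h, smul_mul_smul_comm, pow_add, pow_one]
    · rw [if_neg h, if_neg h, zero_add, mul_smul_comm]

/-- telescoping -/
private lemma tele_WT (q : K) (hq : ∀ n : ℕ, 1 ≤ n → q ^ n ≠ 1) {A : Type} [CommRing A] [Algebra K A]
    (N : ℕ) (y : ℕ → A) :
    ∏ c ∈ range N, phiS q (y c) = ∏ c ∈ range N, phiS q (q • y c) +
      PowerSeries.X * ∑ c ∈ range N, PowerSeries.C (y c) *
        ∏ d ∈ range N, phiS q (if c < d then q • y d else y d) := by
  induction N with
  | zero => simp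
  | succ N ih =>
    rw [prod_range_succ, prod_range_succ, sum_range_succ]
    have e1 : ∏ d ∈ range (N + 1), phiS q (if N < d then q • y d else y d) =
        (∏ d ∈ range N, phiS q (y d)) * phiS q (y N) := by
      rw [prod_range_succ, if_neg (lt_irrefl N)]
      congr 1
      apply prod_congr rfl
      intro d hd
      rw [if_neg (by rw [mem_range] at hd; omega)]
    have e2 : ∀ c ∈ range N, PowerSeries.C (y c) * ∏ d ∈ range (N + 1), phiS q (if c < d then q • y d else y d) =
        (PowerSeries.C (y c) * ∏ d ∈ range N, phiS q (if c < d then q • y d else y d)) * phiS q (q • y N) := by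
      intro c hc
      rw [mem_range] at hc
      rw [prod_range_succ, if_pos hc, mul_assoc]
    rw [sum_congr rfl e2, ← sum_mul, e1]
    have h := phi_sub_WT q hq (y N)
    set P := ∏ d ∈ range N, phiS q (y d)
    set Q := ∏ c ∈ range N, phiS q (q • y c)
    set S := ∑ c ∈ range N, PowerSeries.C (y c) * ∏ d ∈ range N, phiS q (if c < d then q • y d else y d)
    set F := phiS q (y N)
    set G := phiS q (q • y N)
    calc P * F = P * (G + PowerSeries.C (y N) * PowerSeries.X * F) := by rw [← h]
      _ = P * G + PowerSeries.X * (PowerSeries.C (y N) * (P * F)) := by ring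
      _ = (Q + PowerSeries.X * S) * G + PowerSeries.X * (PowerSeries.C (y N) * (P * F)) := by rw [← ih]
      _ = _ := by ring

/-- `∑_(τ ∈ [N]^m) q^(inl τ) ∏ y_(τ_j) = (q;q)_m [z^m] ∏_c φ(y_c)` -/
theorem pWTail [CharZero K] (q : K) : StWTail q := by
  intro hq A _ _ N m
  induction m with
  | zero =>
    intro y
    have e : Ws N 0 = {[]} := rfl
    rw [e, sum_singleton]
    have h1 : PowerSeries.coeff 0 (∏ c ∈ range N, phiS q (y c)) = 1 := by
      rw [PowerSeries.coeff_zero_eq_constantCoeff_apply, map_prod]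
      apply prod_eq_one
      intro c _
      rw [← PowerSeries.coeff_zero_eq_constantCoeff_apply]
      simp [phiS, qpo]
    rw [h1]
    simp [inl, qpo]
  | succ m ih =>
    intro y
    rw [Ws_succ_WT]
    have h1 : ∀ c ∈ range N, ∑ τ ∈ Ws N m, q ^ inl (c :: τ) • ((c :: τ).map y).prod =
        qpo q m • (y c * PowerSeries.coeff m (∏ d ∈ range N, phiS q (if c < d then q • y d else y d))) := by
      intro c _
      rw [← mul_smul_comm, ← ih (fun d => if c < d then q • y d else y d), mul_sum]
      apply sum_congr rfl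
      intro τ _
      rw [prod_WT, List.map_cons, List.prod_cons, smul_smul, mul_smul_comm]
      congr 1
      rw [← pow_add]
      congr 1
      exact add_comm _ _
    rw [sum_congr rfl h1, ← smul_sum]
    have h2 := congrArg (PowerSeries.coeff (m + 1)) (tele_WT q hq N y)
    rw [map_add, PowerSeries.coeff_succ_X_mul, map_sum] at h2
    simp only [PowerSeries.coeff_C_mul] at h2
    have h3 : PowerSeries.coeff (m + 1) (∏ c ∈ range N, phiS q (q • y c)) =
        q ^ (m + 1) • PowerSeries.coeff (m + 1) (∏ c ∈ range N, phiS q (y c)) := by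
      have : ∏ c ∈ range N, phiS q (q • y c) =
          PowerSeries.rescale (algebraMap K A q) (∏ c ∈ range N, phiS q (y c)) := by
        rw [map_prod]
        exact prod_congr rfl fun c _ => phi_resc_WT q (y c)
      rw [this, PowerSeries.coeff_rescale, ← map_pow, Algebra.smul_def]
    rw [h3] at h2
    rw [qpo_succ_WT, mul_smul]
    congr 1
    rw [sub_smul, one_smul]
    nth_rewrite 1 [h2]
    abel

end Pool.VD
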