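import Pool.Agent.VD.M_ClL
import Pool.Agent.VD.M_WPHI
import Pool.Agent.VD.M_WTAIL

/-!
# MP_cf06d4_co, group V, block C: StClH (helper13)
-/

set_option autoImplicit false

namespace Pool.VD

open MvPolynomial Finset

namespace Cl

open M_WSH M_WMEM M_WPHA M_WREC

variable {K : Type} [Field K] [CharZero K]

/-- `Einv(z) = ∏_c φ(-x_c z) Einv(tz)` -/
def EinvSt (q t : K) (N : ℕ) : Prop :=
  Einv q t N = (∏ c ∈ range N, phiS q (-(yv K N c))) *
    PowerSeries.rescale (C t : MvPolynomial (Fin N) K) (Einv q t N)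

theorem cntM (L : List Car) (hL : ∀ c ∈ L, 0 ≤ c.1) (v : ℕ) :
    cnt L (-1, v) = gtc (lab0 L) v := by
  induction L with
  | nil => simp [cnt, lab0, gtc]
  | cons x L ih =>
    have hx := hL x (by simp)
    rw [cnt_cons, ih fun c hc => hL c (by simp [hc]), lab0_cons]
    by_cases h0 : x.1 = 0
    · rw [if_pos h0, gtc_cons]
      have e2 : (att x (-1, v)) ↔ v < x.2 := by
        simp only [att, h0]; simp
      simp only [e2]
    · rw [if_neg h0]
      have e2 : ¬ (att x (-1, v)) := by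
        simp only [att]; omega
      simp only [e2, if_false, add_zero]

/-- `A1(L)(z) = (level -1 factor) * A0(L)(tz)` -/
theorem A1_split (q t : K) (N : ℕ) (L : List Car) (hL : ∀ c ∈ L, 0 ≤ c.1) :
    (A1 q t N L : PowerSeries (MvPolynomial (Fin N) K)) =
      (∏ c ∈ range N, ((poch q t N 0 c (gtc (lab0 L) c) :
        Polynomial (MvPolynomial (Fin N) K)) : PowerSeries (MvPolynomial (Fin N) K))) *
      PowerSeries.rescale (C t : MvPolynomial (Fin N) K)
        (A0 q t N L : PowerSeries (MvPolynomial (Fin N) K)) := by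
  have e1 : A1 q t N L = (∏ c ∈ range N, poch q t N 0 c (gtc (lab0 L) c)) *
      ∏ b ∈ range (2 * L.length + 2), ∏ v ∈ range N, poch q t N (b + 1) v (cnt L ((b : ℤ), v)) := by
    rw [A1, bot_zero L hL, prod_range_succ', mul_comm]
    congr 1
    · refine prod_congr rfl fun v _ => ?_
      rw [← cntM L hL]
      simp
    · refine prod_congr rfl fun b _ => prod_congr rfl fun v _ => ?_
      have e : (((b + 1 : ℕ) : ℤ) - 1 - ((0 : ℕ) : ℤ)) = (b : ℤ) := by push_cast; ring
      rw [e]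
  have e2 : A0 q t N L =
      ∏ b ∈ range (2 * L.length + 2), ∏ v ∈ range N, poch q t N b v (cnt L ((b : ℤ), v)) := by
    rw [A0, bot_zero L hL]
    simp only [Nat.cast_zero, sub_zero]
  have hp : ∀ (P Q : Polynomial (MvPolynomial (Fin N) K)), ((P * Q : Polynomial (MvPolynomial (Fin N) K)) :
      PowerSeries (MvPolynomial (Fin N) K)) = (P : PowerSeries (MvPolynomial (Fin N) K)) *
        (Q : PowerSeries (MvPolynomial (Fin N) K)) := fun P Q => Polynomial.coe_mul P Q
  have hpr : ∀ (s : Finset ℕ) (f : ℕ → Polynomial (MvPolynomial (Fin N) K)),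
      ((∏ b ∈ s, f b : Polynomial (MvPolynomial (Fin N) K)) : PowerSeries (MvPolynomial (Fin N) K)) =
        ∏ b ∈ s, (f b : PowerSeries (MvPolynomial (Fin N) K)) := fun s f =>
    map_prod (Polynomial.coeToPowerSeries.ringHom (R := MvPolynomial (Fin N) K)) f s
  rw [e1, e2, hp, hpr, hpr, hpr, map_prod]
  congr 1
  refine prod_congr rfl fun b _ => ?_
  rw [hpr, hpr, map_prod]
  exact prod_congr rfl fun v _ => poch_rescale q t N b v _

/-- `A1 = E T0([], w) Φ(tz)` -/
theorem A1_ES (q t : K) (hq : ∀ n : ℕ, 1 ≤ n → q ^ n ≠ 1) (hT : StWTail q) (N : ℕ)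
    (hE : EinvSt q t N) (L : List Car) (hL : ∀ c ∈ L, 0 ≤ c.1) :
    (A1 q t N L : PowerSeries (MvPolynomial (Fin N) K)) = ES q t N *
      (T0 q N [] (lab0 L) * PowerSeries.rescale (C t : MvPolynomial (Fin N) K) (PhiW q t N L)) := by
  have h1 : (A1 q t N L : PowerSeries (MvPolynomial (Fin N) K)) * Einv q t N =
      T0 q N [] (lab0 L) * PowerSeries.rescale (C t : MvPolynomial (Fin N) K) (PhiW q t N L) := by
    have h2 : T0 q N [] (lab0 L) = (∏ c ∈ range N, ((poch q t N 0 c (gtc (lab0 L) c) :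
        Polynomial (MvPolynomial (Fin N) K)) : PowerSeries (MvPolynomial (Fin N) K))) *
        ∏ c ∈ range N, phiS q (-(yv K N c)) := by
      rw [T0_eq q hq hT, ← prod_mul_distrib]
      refine prod_congr rfl fun c _ => ?_
      rw [poch_phi q t hq N c]
      have : crs [] [c] = 0 := rfl
      rw [this, add_zero]
    rw [h2, A1_split q t N L hL, PhiW, map_mul (PowerSeries.rescale _)]
    conv_lhs => rw [hE]
    ring
  rw [← h1, mul_left_comm, ES_mul_Einv, mul_one]

theorem A1_coeff (q t : K) (hq : ∀ n : ℕ, 1 ≤ n → q ^ n ≠ 1) (hT : StWTail q) (N : ℕ)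
    (hE : EinvSt q t N) (L : List Car) (hL : ∀ c ∈ L, 0 ≤ c.1) (a : ℕ) :
    (A1 q t N L).coeff a = ∑ p ∈ antidiagonal a, evN K N (Est q t p.1) *
      ∑ p' ∈ antidiagonal p.2, PowerSeries.coeff p'.1 (T0 q N [] (lab0 L)) *
        (C t ^ p'.2 * PowerSeries.coeff p'.2 (PhiW q t N L)) := by
  have h1 : (A1 q t N L).coeff a = PowerSeries.coeff a
      (A1 q t N L : PowerSeries (MvPolynomial (Fin N) K)) := (Polynomial.coeff_coe _ _).symm
  rw [h1, A1_ES q t hq hT N hE L hL, PowerSeries.coeff_mul]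
  refine sum_congr rfl fun p _ => ?_
  have h2 : PowerSeries.coeff p.1 (ES q t N) = evN K N (Est q t p.1) := PowerSeries.coeff_mk _ _
  rw [h2, PowerSeries.coeff_mul]
  refine congrArg _ (sum_congr rfl fun p' _ => ?_)
  rw [PowerSeries.coeff_rescale]

omit [CharZero K] in
theorem T0_coeff (q : K) (N s : ℕ) (w : List ℕ) :
    PowerSeries.coeff s (T0 q N [] w) = C ((-1) ^ s / qfac q s) *
      ∑ τ ∈ Ws N s, C (q ^ (inl τ + crs τ w)) * xl K N τ := by
  rw [T0, PowerSeries.coeff_mk]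
  congr 1

theorem pClH' (hW : ∀ (K : Type) [Field K] [CharZero K] (q : K), StWTail q)
    (hE : ∀ (K : Type) [Field K] [CharZero K] (q t : K), (∀ n : ℕ, 1 ≤ n → q ^ n ≠ 1) →
      (∀ n : ℕ, 1 ≤ n → t ^ n ≠ 1) → ∀ N, EinvSt q t N) : StClH := by
  intro K _ _ q t hq ht N m a hm
  rw [group q t N m hm]
  have h0 : ∀ w : List ℕ, ∀ L ∈ (DyW m N).filter (fun L => lab0 L = w),
      (∀ c ∈ L, 0 ≤ c.1) ∧ lab0 L = w := by
    intro w L hL
    rw [mem_filter] at hL
    exact ⟨fun c hc => (((pWMem m N L).1 hL.1).2.1 c hc).1, hL.2⟩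
  have h1 : ∀ r ∈ Icc 1 m, ∀ w ∈ Ws N r,
      ∑ L ∈ (DyW m N).filter (fun L => lab0 L = w), wK q t N L * (A1 q t N L).coeff a =
      ∑ p ∈ antidiagonal a, evN K N (Est q t p.1) * ∑ p' ∈ antidiagonal p.2,
        PowerSeries.coeff p'.1 (T0 q N [] w) * (C t ^ p'.2 * kc q t N r p'.2 (m - r) w) := by
    intro r hr w hw
    rw [mem_Icc] at hr
    have h2 : ∀ L ∈ (DyW m N).filter (fun L => lab0 L = w), wK q t N L * (A1 q t N L).coeff a =
        ∑ p ∈ antidiagonal a, evN K N (Est q t p.1) * ∑ p' ∈ antidiagonal p.2,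
          PowerSeries.coeff p'.1 (T0 q N [] w) *
            (C t ^ p'.2 * (wK q t N L * PowerSeries.coeff p'.2 (PhiW q t N L))) := by
      intro L hL
      rw [A1_coeff q t hq (hW K q) N (hE K q t hq ht N) L (h0 w L hL).1, (h0 w L hL).2, mul_sum]
      refine sum_congr rfl fun p _ => ?_
      rw [mul_left_comm, mul_sum (antidiagonal p.2) _ (wK q t N L)]
      congr 1
      refine sum_congr rfl fun p' _ => ?_
      ring
    rw [sum_congr rfl h2, sum_comm]
    refine sum_congr rfl fun p _ => ?_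
    rw [← mul_sum, sum_comm]
    congr 1
    refine sum_congr rfl fun p' _ => ?_
    rw [← mul_sum, ← mul_sum, KW_coeff q t N m r w hw hr.2]
  have h3 : ∀ r ∈ Icc 1 m, (qn q m / qn q r) • ∑ w ∈ Ws N r, xl K N w *
      ∑ L ∈ (DyW m N).filter (fun L => lab0 L = w), wK q t N L * (A1 q t N L).coeff a =
      ∑ p ∈ antidiagonal a, evN K N (Est q t p.1) * ∑ p' ∈ antidiagonal p.2,
        (t ^ p'.2 * (-1) ^ p'.1 / qfac q p'.1) • ((qn q m / qn q r) •
        (((WDm K N) ^ (r + p'.1)) (((WDp q N) ^ p'.1) (kc q t N r p'.2 (m - r))) [])) := by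
    intro r hr
    have h4 : ∑ w ∈ Ws N r, xl K N w *
      ∑ L ∈ (DyW m N).filter (fun L => lab0 L = w), wK q t N L * (A1 q t N L).coeff a =
      ∑ p ∈ antidiagonal a, evN K N (Est q t p.1) * ∑ p' ∈ antidiagonal p.2,
        (t ^ p'.2 * (-1) ^ p'.1 / qfac q p'.1) •
        (((WDm K N) ^ (r + p'.1)) (((WDp q N) ^ p'.1) (kc q t N r p'.2 (m - r))) []) := by
      rw [sum_congr rfl fun w hw => by rw [h1 r hr w hw]]
      simp_rw [mul_sum]
      rw [sum_comm]
      refine sum_congr rfl fun p _ => ?_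
      rw [sum_comm]
      refine sum_congr rfl fun p' _ => ?_
      rw [WDmp, smul_eq_C_mul, mul_sum, mul_sum]
      refine sum_congr rfl fun w _ => ?_
      rw [T0_coeff]
      have e : (C (t ^ p'.2 * (-1) ^ p'.1 / qfac q p'.1) : MvPolynomial (Fin N) K) =
          C ((-1) ^ p'.1 / qfac q p'.1) * C t ^ p'.2 := by
        rw [← map_pow, ← map_mul]
        congr 1
        ring
      rw [e]
      ring
    rw [h4, smul_sum]
    refine sum_congr rfl fun p _ => ?_
    rw [← mul_smul_comm, smul_sum]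
    congr 1
    refine sum_congr rfl fun p' _ => ?_
    rw [smul_comm]
  rw [sum_congr rfl h3, sum_comm]
  refine sum_congr rfl fun p _ => ?_
  rw [← mul_sum, sum_comm]
  congr 1
  refine sum_congr rfl fun p' _ => ?_
  rw [smul_sum]

end Cl

theorem pClH : StClH :=
  Cl.pClH' (fun K _ _ q => pWTail (K := K) q) (fun K _ _ q t hq ht N => M_WPHI.Einv_fact q t hq ht N)

end Pool.VD
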