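import Pool.Agent.VD.DefCW
import Pool.Agent.VD.StCM

/-!
# MP_cf06d4_co, group V, block C: glue (helper17)

Statements which connect the words half (helper23, `StCW.lean`), the V half (helper44, `CV.lean`) and block CM.
Every `StX : Prop` is one module (file `Pool/Agent/VD/M_X.lean`, theorem `pX`); the docstring is a complete proof.
-/

set_option autoImplicit false
set_option linter.unusedSectionVars false

namespace Pool.VD

open MvPolynomial Finset

/-- `h_n[X/(1-q)]` -/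
noncomputable def al {K : Type} [Field K] [CharZero K] (q : K) (n : ℕ) : Lam K :=
  Hs (fun i => (C (1 - q ^ (i + 1))⁻¹ * X i : Lam K)) n

/-- StWAq (helper50).  The words family (top first order) satisfies the relations of the Dyck path algebra.
All relations are checked on a valid word (outside both sides are 0, `Sup`); `x_a = yv K N a`; `gtc w d = #(i : w_i > d)`.
`quad` (`j = 0`): words `b :: a :: u`: for `a < b`: `T T f (b a) = q T f (a b) = q (f (b a) + (1-q) f (a b))`, etc.; `j+1`: recursion (`TF (j+1) f (c :: w) = TF j (f (c :: ·)) w`).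
`braid`: three letters, cases of the order; `far`: recursion.  `dmT`: by definition.
`dm2`: `∑_(a,b) x_a x_b (T_0 f)(b a w)`: for `a < b` the two words give `q f(a b) + f(a b)(1-q) + f(b a)`.
`dpT`: `gtc` does not depend on the order of the letters.  `dp2` (word `w ++ [c, d]`, `d` the lowest letter): `g(c,d) = q^(gtc w d + [c > d] + gtc w c) f w`;
`d < c`: `q g(d,c) = g(c,d)`; `c < d`: `g(d,c) + (1-q) g(c,d) = g(c,d)`, because `g(d,c) = q g(c,d)`.
`sa` at the word `w ++ [d]`, factor `q^(gtc w d)` removed; for `a < b` put `F1 = f (b :: a :: w)`, `F2 = f (a :: b :: w)`, `α = [a > d] ≤ β = [b > d]`: the left side is `(q^(α+β) + q)(F1 + F2)`, the right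
side is `q^α (q F2 + q F1) + q^β (F1 + (1-q) F2 + q F2)`; equal in the three cases; `a = b`: `(q^(2α) + q) F = q^α (1+q) F`.
`sb` at the word `w ++ [c,d]`: common factor `q^(gtc w c + gtc w d) x_a f(a :: w)`, `α = [a > d]`, `β = [a > c]`; left side `q^[c > d] (q^(α+β) + q)`; right side `(T + q) g`, `g(c,d) = q^([c > d] + β)`, `g(d,c) = q^([d > c] + α)`;
`d < c` (`α ≥ β`): `q (q^(α+β) + q) = q q^α + q q^(1+β)`; `c < d` (`β ≥ α`): `q^(α+β) + q = q^(1+α) + q^β`; `c = d`: `q^(2α) + q = (1+q) q^α`. -/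
def StWAq : Prop := ∀ (K : Type) [Field K] [CharZero K] (q : K) (N : ℕ), q ≠ 0 →
  CM.IsAq q (fun k => uDm K N k) (fun k => uDp q N k) (fun k j => uT q N k j)

/-- StEv (helper95; hypotheses `StPhi`, `StWAq`).  Evaluation of `V` on words: `ev k F w = (Φ k F) (w.reverse)`, `u0` = the function `1` on the empty word.
The first three clauses are immediate (reversal exchanges top first order and reading order).  Last clause: for `g ∈ U 0` (support `[]`), `(Eo 0 r g) [] = evN (Ep K r) * g []`: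
`Io 0 = Dp 0`, `(Dp g) [a] = g []` (`a < N`); for `h ∈ U 1`: `(Yo 0 0 h) [d] = (q-1)⁻¹ (∑_a x_a h [a] - ∑_a x_a q^[a > d] h [a]) = -∑_(d < a < N) x_a h [a]`; so
`(Yo^r (Dp g)) [d] = (-1)^r S(d+1,r) g []`, `S(d,r) = ∑_(d ≤ a_1 < … < a_r < N) ∏ x`, `S(d,r+1) = S(d+1,r+1) + x_d S(d+1,r)` for `d < N`, `S(N,r) = [r = 0]`; and `(-1)^r S(d,r) = Hs (fun i => -∑_(d ≤ a < N) x_a^(i+1)) r`
by downward induction on `d` (`Hs_add'`, `Hs_neg_geom`); `evN (Ep K r) = Hs (fun i => -∑_(a<N) x_a^(i+1)) r` (`Hs_map`).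
Then the set of `f : Lam K` with `∀ F, ev 0 (C f * F) [] = evN f * ev 0 F []` is a subalgebra containing all `Ep K r`, hence all `X i` (Newton recursion `Hs_rec`), hence everything; put `F = 1`. -/
def StEv : Prop := ∀ (K : Type) [Field K] [CharZero K] (q : K) (N : ℕ), q ≠ 0 → q ≠ 1 →
  ∃ ev : ℕ → (CM.Ry K →ₗ[K] WF K N), (∀ k F, Sup K N k (ev k F)) ∧
    (∀ k F, ev k (CM.dmi q F) = WDm K N (ev (k + 1) F)) ∧
    (∀ k F, ev (k + 1) (CM.dpl q k F) = WDp q N (ev k F)) ∧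
    ∀ f : Lam K, ev 0 (C f) [] = evN K N f

/-- StTrL (helper17).  Transfer of the recursion through a family of intertwining maps (algebra). -/
def StTrL : Prop := ∀ (K : Type) [Field K] (U U' : Type) [AddCommGroup U] [Module K U] [AddCommGroup U'] [Module K U']
  (dm : Module.End K U) (dp : ℕ → Module.End K U) (dm' : Module.End K U') (dp' : ℕ → Module.End K U')
  (N : ℕ → U →ₗ[K] U'), (∀ k x, N k (dm x) = dm' (N (k + 1) x)) → (∀ k x, N (k + 1) (dp k x) = dp' k (N k x)) →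
  (∀ m k x, N k ((dm ^ m) x) = (dm' ^ m) (N (k + m) x)) ∧
  (∀ m k x, N (k + m) (dpi dp m k x) = dpi dp' m k (N k x)) ∧
  ∀ (q t : K) (κ : ℕ → ℕ → ℕ → U) (r a n : ℕ), N r (Lrec q t dm dp κ r a n) =
    Lrec q t dm' dp' (fun r a n => N r (κ r a n)) r a n

/-- StUniq (helper17).  Uniqueness of the solution of the level recursion. -/
def StUniq : Prop := ∀ (K : Type) [Field K] (U : Type) [AddCommGroup U] [Module K U] (q t : K)
  (dm : Module.End K U) (dp : ℕ → Module.End K U) (κ κ' : ℕ → ℕ → ℕ → U),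
  (∀ a : ℕ, t ^ (a + 1) ≠ 1) → (∀ r a n, κ r a n = Lrec q t dm dp κ r a n) →
  (∀ r a n, κ' r a n = Lrec q t dm dp κ' r a n) → κ 0 0 0 = κ' 0 0 0 → (∀ a n, κ 0 a (n + 1) = κ' 0 a (n + 1)) →
  ∀ r a n, κ r a n = κ' r a n

/-- StWLink (helper17, from `StWOp`).  The level recursion of the Dyck words in the generic form. -/
def StWLink : Prop := ∀ (K : Type) [Field K] [CharZero K] (q t : K) (N : ℕ),
  (∀ n : ℕ, 1 ≤ n → q ^ n ≠ 1) → (∀ n : ℕ, 1 ≤ n → t ^ n ≠ 1) →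
  (∀ r a n, kc q t N r a n = Lrec q t (WDm K N) (fun _ => WDp q N) (kc q t N) r a n) ∧
  kc q t N 0 0 0 [] = 1 ∧ ∀ a n, kc q t N 0 a (n + 1) = 0

/-- StHH (helper61 / helper50; from `StWTail`).  `D_-^s D_+^s = (q;q)_s h_s[X/(1-q)]` on `V_0`: the left side is
`∑_(τ ∈ Ws N s) xl τ * q^(inl τ) * g []` (induction on `s`), StWTail with `y_c = x_c`, and `evN (al q s) = [z^s] ∏_c φ(x_c)`: `evN (al q s) = Hs (fun i => ∑_(a<N) (1-q^(i+1))⁻¹ x_a^(i+1)) s`,
`Hs_add'` and `Hs (fun i => (1-q^(i+1))⁻¹ x^(i+1)) n = x^n/(q;q)_n` (put `a_i` for the sequence: `a_i = x^(i+1) + q^(i+1) a_i`, so `HS a = HS (geom x) * rescale q (HS a)`; or `Hs_unique`). -/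
def StHH : Prop := ∀ (K : Type) [Field K] [CharZero K] (q : K) (N s : ℕ), (∀ n : ℕ, 1 ≤ n → q ^ n ≠ 1) →
  ∀ g : WF K N, ((WDm K N) ^ s) (((WDp q N) ^ s) g) [] = qfac q s • (evN K N (al q s) * g [])

/-- StEal (helper17).  `t^l e_l[X/M] = ∑_(i+s=l) e_i[X/M] (-1)^s h_s[X/(1-q)]`; `Hst` version as well. -/
def StEal : Prop := ∀ (K : Type) [Field K] [CharZero K] (q t : K), (∀ n : ℕ, 1 ≤ n → q ^ n ≠ 1) →
  (∀ n : ℕ, 1 ≤ n → t ^ n ≠ 1) → ∀ l : ℕ,
  C (t ^ l) * Est q t l = ∑ p ∈ antidiagonal l, Est q t p.1 * ((-1) ^ p.2 * al q p.2)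

/-- StClG (helper13).  The sum with `A0` over all Dyck words, grouped by the level 0 words.
`A0 = E * Phi`, `E = ∑ z^i evN (Est i)`, `E * Einv = 1`; the words with level 0 word `w`, `|w| = r` (`1 ≤ r ≤ m`): `c0 L = r`, `wU = xl w * wK`, so their sum is `[m]/[r] xl w (E * KW (m-r) w)`; and
`(D_-^r f) [] = ∑_(w ∈ Ws N r) xl w * f w`. -/
def StClG : Prop := ∀ (K : Type) [Field K] [CharZero K] (q t : K), (∀ n : ℕ, 1 ≤ n → q ^ n ≠ 1) →
  (∀ n : ℕ, 1 ≤ n → t ^ n ≠ 1) → ∀ (N m a : ℕ), 1 ≤ m →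
  ∑ L ∈ DyW m N, C (qn q m / qn q (c0 L)) * (wU q t N L * (A0 q t N L).coeff a) =
    ∑ p ∈ antidiagonal a, evN K N (Est q t p.1) *
      ∑ r ∈ Icc 1 m, (qn q m / qn q r) • (((WDm K N) ^ r) (kc q t N r p.2 (m - r)) [])

/-- StClH (helper13).  The same with `A1`: for a Dyck word (`bot L = 0`) `A1 L = ∏_(v<N) (-z x_v; q)_(gtc w v) * (A0 L)(tz)`, `w = lab0 L` (the factor `b = 0` of `A1` is `cnt L (-1, v) = gtc w v`; the factor
`b + 1` is the factor `b` of `A0` at `tz`), so `A1 L * Einv(z) = ∏_v φ(-q^(gtc w v) x_v) * (Phi L)(tz)` (StWPhi machinery: `Einv(z) = ∏ φ(-z x_v) Einv(tz)`, `(y;q)_n φ(y) = φ(q^n y)`), and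
`∏_v φ(-q^(gtc w v) x_v) = T0 q N [] w` (StWTail; `crs τ w = ∑_i gtc w τ_i`).  `(D_+^s f)(τ ++ w) = q^(inl τ + crs τ w) f w` for `τ ∈ Ws N s`; `(D_-^(r+s) f) [] = ∑_(τ ∈ Ws N s) ∑_(w ∈ Ws N r) xl τ xl w f (τ ++ w)`. -/
def StClH : Prop := ∀ (K : Type) [Field K] [CharZero K] (q t : K), (∀ n : ℕ, 1 ≤ n → q ^ n ≠ 1) →
  (∀ n : ℕ, 1 ≤ n → t ^ n ≠ 1) → ∀ (N m a : ℕ), 1 ≤ m →
  ∑ L ∈ DyW m N, C (qn q m / qn q (c0 L)) * (wU q t N L * (A1 q t N L).coeff a) =
    ∑ p ∈ antidiagonal a, evN K N (Est q t p.1) * ∑ p' ∈ antidiagonal p.2,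
      (t ^ p'.2 * (-1) ^ p'.1 / qfac q p'.1) • ∑ r ∈ Icc 1 m, (qn q m / qn q r) •
        (((WDm K N) ^ (r + p'.1)) (((WDp q N) ^ p'.1) (kc q t N r p'.2 (m - r))) [])

/-- StC (helper17): RESULT OF BLOCK C, in the form of the right side of `StFDy` and of `StMF`. -/
def StC (K : Type) [Field K] [CharZero K] (q t : K) : Prop :=
  ∀ nab : Lam K →ₗ[K] Lam K, IsNabla q t nab → ∀ m k N : ℕ, 1 ≤ m →
    ∑ L ∈ DyW m N, C (qn q m / qn q (c0 L)) * (wU q t N L * ((A0 q t N L).coeff k +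
      C (t ^ m) * ((A1 q t N L).coeff k - C (t ^ k) * (A0 q t N L).coeff k))) =
    C (qn t (m + k) / qn t m) * evN K N (∑ p ∈ antidiagonal k, (-1 : K) ^ p.2 •
      (Est q t p.1 * nab (Est q t p.2 * omp K m)))

end Pool.VD
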