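import Pool.Agent.VD.M_HS
import Pool.Agent.VD.StCG

/-!
# MP_cf06d4_co, group V, block C: module StEv (helper95)

Evaluation of `V` on words.
-/

set_option autoImplicit false
set_option linter.unusedSectionVars false

namespace Pool.VD.EVN

open MvPolynomial Finset

section one
variable {A : Type} [CommRing A] [Algebra ℚ A]

/-- `gg x N r a = (-1)^r e_r(x_(a+1), …, x_(N-1))` -/
def gg (x : ℕ → A) (N : ℕ) : ℕ → ℕ → A
  | 0, _ => 1
  | r + 1, a => -∑ c ∈ (range N).filter (fun c => a < c), x c * gg x N r c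

/-- `∏_(m ≤ c < N) (1 - x_c z)` -/
noncomputable def PP (x : ℕ → A) (N m : ℕ) : PowerSeries A :=
  ∏ c ∈ (range N).filter (fun c => m ≤ c), (1 - PowerSeries.C (x c) * PowerSeries.X)

theorem PP_top (x : ℕ → A) {N m : ℕ} (h : N ≤ m) : PP x N m = 1 := by
  unfold PP
  rw [Finset.filter_false_of_mem, prod_empty]
  intro c hc
  have := mem_range.1 hc
  omega

theorem PP_succ (x : ℕ → A) {N m : ℕ} (h : m < N) :
    PP x N m = (1 - PowerSeries.C (x m) * PowerSeries.X) * PP x N (m + 1) := by
  unfold PP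
  have h1 : (range N).filter (fun c => m ≤ c) = insert m ((range N).filter (fun c => m + 1 ≤ c)) := by
    ext c
    simp only [mem_filter, mem_range, mem_insert]
    omega
  rw [h1, prod_insert]
  simp

/-- telescoping -/
theorem PP_sum (x : ℕ → A) (N m : ℕ) :
    PP x N m = 1 - (∑ c ∈ (range N).filter (fun c => m ≤ c), PowerSeries.C (x c) * PP x N (c + 1)) *
      PowerSeries.X := by
  obtain ⟨d, hd⟩ : ∃ d, N ≤ m + d := ⟨N, Nat.le_add_left _ _⟩
  induction d generalizing m with
  | zero =>
    rw [PP_top x (by omega), Finset.filter_false_of_mem, sum_empty, zero_mul, sub_zero]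
    intro c hc
    have := mem_range.1 hc
    omega
  | succ d ih =>
    rcases Nat.lt_or_ge m N with hm | hm
    · have h1 : (range N).filter (fun c => m ≤ c) =
          insert m ((range N).filter (fun c => m + 1 ≤ c)) := by
        ext c
        simp only [mem_filter, mem_range, mem_insert]
        omega
      have h2 := ih (m + 1) (by omega)
      rw [PP_succ x hm, h1, sum_insert (by simp), sub_mul, one_mul]
      generalize (∑ c ∈ (range N).filter (fun c => m + 1 ≤ c), PowerSeries.C (x c) * PP x N (c + 1)) = S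
        at h2 ⊢
      linear_combination h2
    · rw [PP_top x hm, Finset.filter_false_of_mem, sum_empty, zero_mul, sub_zero]
      intro c hc
      have := mem_range.1 hc
      omega

theorem mk_gg (x : ℕ → A) (N a : ℕ) : PowerSeries.mk (fun r => gg x N r a) = PP x N (a + 1) := by
  ext r
  rw [PowerSeries.coeff_mk]
  induction r generalizing a with
  | zero =>
    rw [gg, PP_sum, map_sub, PowerSeries.coeff_zero_mul_X, sub_zero, PowerSeries.coeff_zero_one]
  | succ r ih =>
    rw [gg, PP_sum, map_sub, PowerSeries.coeff_succ_mul_X, PowerSeries.coeff_one, if_neg (by omega), zero_sub,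
      map_sum]
    congr 1
    refine sum_congr rfl fun c _ => ?_
    rw [PowerSeries.coeff_C_mul, ih]

theorem HS_neg_sum (x : ℕ → A) (N : ℕ) :
    HS (fun i => -∑ c ∈ range N, x c ^ (i + 1)) = PP x N 0 := by
  have h0 : (range N).filter (fun c => 0 ≤ c) = range N := Finset.filter_true_of_mem (by simp)
  unfold PP
  rw [h0]
  induction N with
  | zero =>
    rw [range_zero, prod_empty]
    simp only [sum_empty, neg_zero]
    exact HS_zero_seq
  | succ N ih =>
    have h1 : (fun i : ℕ => -∑ c ∈ range (N + 1), x c ^ (i + 1)) =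
        (fun i => -∑ c ∈ range N, x c ^ (i + 1)) + fun i => -x N ^ (i + 1) := by
      funext i
      rw [Pi.add_apply, sum_range_succ, neg_add]
    rw [h1, HS_add, HS_neg_geom, prod_range_succ, ih (Finset.filter_true_of_mem (by simp))]

/-- `(-1)^(r+1) e_(r+1)` -/
theorem Hs_gg (x : ℕ → A) (N r : ℕ) :
    Hs (fun i => -∑ c ∈ range N, x c ^ (i + 1)) (r + 1) = -∑ c ∈ range N, x c * gg x N r c := by
  have h0 : (range N).filter (fun c => 0 ≤ c) = range N := Finset.filter_true_of_mem (by simp)
  rw [← coeff_HS, HS_neg_sum, PP_sum, map_sub, PowerSeries.coeff_succ_mul_X, PowerSeries.coeff_one,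
    if_neg (by omega), zero_sub, map_sum, h0]
  congr 1
  refine sum_congr rfl fun c _ => ?_
  rw [PowerSeries.coeff_C_mul, ← mk_gg, PowerSeries.coeff_mk]

end one

section two
variable {K : Type} [Field K] [CharZero K]

theorem evN_X (N i : ℕ) : evN K N (X i) = ∑ c ∈ range N, yv K N c ^ (i + 1) := by
  unfold evN
  rw [aeval_X, Finset.sum_range]
  refine sum_congr rfl fun c _ => ?_
  simp [yv]

theorem evN_Ep (N r : ℕ) :
    evN K N (Ep K (r + 1)) = -∑ c ∈ range N, yv K N c * gg (yv K N) N r c := by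
  have h := Hs_map (S := MvPolynomial (Fin N) K) (evN K N : Lam K →+* MvPolynomial (Fin N) K)
    (fun i => -(X i : Lam K)) (r + 1)
  have h2 : (fun k => (evN K N : Lam K →+* MvPolynomial (Fin N) K) (-(X k : Lam K))) =
      fun i => -∑ c ∈ range N, yv K N c ^ (i + 1) := by
    funext i
    rw [map_neg]
    exact congrArg _ (evN_X N i)
  rw [h2, Hs_gg] at h
  exact h

theorem Ep_zero' : Ep K 0 = 1 := Hs_zero _

/-- Newton -/
theorem X_newton (n : ℕ) : (X n : Lam K) =
    -((((n : Lam K)) + 1) * Ep K (n + 1) + ∑ i ∈ range n, X i * Ep K (n - i)) := by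
  have h := Hs_rec (fun i => -(X i : Lam K)) n
  rw [sum_range_succ, Nat.sub_self, Hs_zero, mul_one] at h
  have h2 : ∑ i ∈ range n, -(X i : Lam K) * Hs (fun i => -(X i : Lam K)) (n - i) =
      -∑ i ∈ range n, (X i : Lam K) * Ep K (n - i) := by
    rw [← sum_neg_distrib]
    refine sum_congr rfl fun i _ => ?_
    rw [neg_mul]
    rfl
  rw [h2] at h
  have h3 : ((n : Lam K) + 1) * Ep K (n + 1) = -∑ i ∈ range n, (X i : Lam K) * Ep K (n - i) + -X n := h
  rw [h3]
  ring

/-- a linear map which intertwines the `ε_r` with their evaluations intertwines everything -/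
theorem ev_all {A : Type} [CommRing A] [Algebra K A] {V : Type} [AddCommGroup V] [Module K V] [Module A V]
    [IsScalarTower K A V] (e : Lam K →ₐ[K] A) (Φ : CM.Ry K →ₗ[K] V)
    (h : ∀ r F, Φ (C (Ep K r) * F) = e (Ep K r) • Φ F) (f : Lam K) (F : CM.Ry K) :
    Φ (C f * F) = e f • Φ F := by
  have hX : ∀ n (F : CM.Ry K), Φ (C (X n) * F) = e (X n) • Φ F := by
    intro n
    induction n using Nat.strong_induction_on with
    | _ n ih =>
      intro F
      have hn := X_newton (K := K) n
      have e1 : e (X n) = -(((n : A) + 1) * e (Ep K (n + 1)) + ∑ i ∈ range n, e (X i) * e (Ep K (n - i))) := by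
        conv_lhs => rw [hn]
        simp only [map_neg, map_add, map_mul, map_natCast, map_one, map_sum]
      have hC : (C (X n) : CM.Ry K) = -(((n : CM.Ry K) + 1) * C (Ep K (n + 1)) +
          ∑ i ∈ range n, C (X i) * C (Ep K (n - i))) := by
        conv_lhs => rw [hn]
        simp only [map_neg, map_add, map_mul, map_natCast, map_one, map_sum]
      have hs : ∑ i ∈ range n, (C (X i) : CM.Ry K) * (C (Ep K (n - i)) * F) =
          (∑ i ∈ range n, C (X i) * C (Ep K (n - i))) * F := by
        rw [sum_mul]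
        exact sum_congr rfl fun i _ => (mul_assoc _ _ _).symm
      have hk : ((n : K) + 1) • (C (Ep K (n + 1)) * F) =
          ((n : CM.Ry K) + 1) * (C (Ep K (n + 1)) * F) := by
        rw [CM.smulK]
        simp only [map_add, map_natCast, map_one]
      have e2 : (C (X n) : CM.Ry K) * F = -(((n : K) + 1) • (C (Ep K (n + 1)) * F)) -
          ∑ i ∈ range n, C (X i) * (C (Ep K (n - i)) * F) := by
        rw [hC, hs, hk]
        ring
      have e4 : ∀ i ∈ range n, Φ (C (X i) * (C (Ep K (n - i)) * F)) = (e (X i) * e (Ep K (n - i))) • Φ F := by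
        intro i hi
        rw [ih i (mem_range.1 hi), h, smul_smul]
      have e5 : (((n : A) + 1) * e (Ep K (n + 1))) • Φ F = ((n : K) + 1) • (e (Ep K (n + 1)) • Φ F) := by
        rw [mul_smul]
        have : ((n : A) + 1) = algebraMap K A ((n : K) + 1) := by
          rw [map_add, map_natCast, map_one]
        rw [this, algebraMap_smul]
      rw [e2, map_sub, map_neg, map_smul, map_sum, h, sum_congr rfl e4, ← sum_smul, ← e5, e1]
      rw [neg_smul, add_smul]
      abel
  induction f using MvPolynomial.induction_on generalizing F with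
  | C a =>
    have h1 : (C (C a) : CM.Ry K) * F = a • F := (CM.smulK a F).symm
    rw [h1, map_smul]
    have h2 : e (C a) = algebraMap K A a := by
      rw [← MvPolynomial.algebraMap_eq]
      exact e.commutes a
    rw [h2, algebraMap_smul]
  | add p r hp hr => rw [map_add, add_mul, map_add, hp, hr, map_add, add_smul]
  | mul_X p n hp => rw [C_mul, mul_assoc, hp, hX, map_mul, smul_smul]

end two

section three
variable {K : Type} [Field K] [CharZero K]

theorem dmF_app (N : ℕ) (f : WF K N) (w : List ℕ) :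
    dmF K N f w = ∑ a ∈ range N, yv K N a * f (a :: w) := rfl

theorem dpF_app (q : K) (N : ℕ) (f : WF K N) (w : List ℕ) (d : ℕ) (hd : d < N) :
    dpF q N f (w ++ [d]) = C (q ^ gtc w d) * f w := by
  show (if w ++ [d] ≠ [] ∧ (w ++ [d]).getLastD 0 < N then
    C (q ^ gtc (w ++ [d]).dropLast ((w ++ [d]).getLastD 0)) * f (w ++ [d]).dropLast else 0) = _
  have h1 : (w ++ [d]).getLastD 0 = d := by simp
  have h2 : (w ++ [d]).dropLast = w := by simp
  rw [h1, h2, if_pos ⟨by simp, hd⟩]

theorem dpF_app' (q : K) (N : ℕ) (f : WF K N) (w : List ℕ) (d : ℕ) (hd : ¬ d < N) :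
    dpF q N f (w ++ [d]) = 0 := by
  show (if w ++ [d] ≠ [] ∧ (w ++ [d]).getLastD 0 < N then
    C (q ^ gtc (w ++ [d]).dropLast ((w ++ [d]).getLastD 0)) * f (w ++ [d]).dropLast else 0) = _
  have h1 : (w ++ [d]).getLastD 0 = d := by simp
  rw [h1, if_neg fun h => hd h.2]

theorem dpF_nil (q : K) (N : ℕ) (f : WF K N) : dpF q N f [] = 0 := by
  show (if ([] : List ℕ) ≠ [] ∧ ([] : List ℕ).getLastD 0 < N then
    C (q ^ gtc ([] : List ℕ).dropLast (([] : List ℕ).getLastD 0)) * f ([] : List ℕ).dropLast else 0) = _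
  rw [if_neg fun h => h.1 rfl]

theorem uDm_val (N k : ℕ) (f : FS K N (k + 1)) : (uDm K N k f).1 = dmF K N f.1 := rfl

theorem uDp_val (q : K) (N k : ℕ) (f : FS K N k) : (uDp q N k f).1 = dpF q N f.1 := rfl

theorem Io_val (q : K) (N : ℕ) (g : FS K N 0) :
    CM.Io q (fun k => uDp q N k) (fun k j => uT q N k j) 0 g = uDp q N 0 g := rfl

theorem Yo_val (q : K) (N : ℕ) (h : FS K N 1) :
    CM.Yo q (fun k => uDm K N k) (fun k => uDp q N k) (fun k j => uT q N k j) 0 0 h =
      (q - 1)⁻¹ • (uDp q N 0 (uDm K N 0 h) - uDm K N 1 (uDp q N 1 h)) := rfl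

theorem Yo_app (q : K) (hq : q ≠ 1) (N : ℕ) (h : FS K N 1) (d : ℕ) (hd : d < N) :
    (CM.Yo q (fun k => uDm K N k) (fun k => uDp q N k) (fun k j => uT q N k j) 0 0 h).1 [d] =
      -∑ a ∈ (range N).filter (fun a => d < a), yv K N a * h.1 [a] := by
  rw [Yo_val]
  have e1 : (uDp q N 0 (uDm K N 0 h)).1 [d] = ∑ a ∈ range N, yv K N a * h.1 [a] := by
    rw [uDp_val]
    have := dpF_app q N (uDm K N 0 h).1 [] d hd
    rw [List.nil_append] at this
    rw [this, uDm_val, dmF_app]
    simp [gtc]
  have e2 : (uDm K N 1 (uDp q N 1 h)).1 [d] =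
      ∑ a ∈ range N, yv K N a * ((if d < a then C q else 1) * h.1 [a]) := by
    rw [uDm_val, dmF_app]
    refine sum_congr rfl fun a _ => ?_
    rw [uDp_val]
    have := dpF_app q N h.1 [a] d hd
    rw [List.singleton_append] at this
    rw [this]
    by_cases hda : d < a
    · simp [gtc, hda]
    · simp [gtc, hda]
  have e3 : ((q - 1)⁻¹ • (uDp q N 0 (uDm K N 0 h) - uDm K N 1 (uDp q N 1 h))).1 [d] =
      (q - 1)⁻¹ • ((uDp q N 0 (uDm K N 0 h)).1 [d] - (uDm K N 1 (uDp q N 1 h)).1 [d]) := rfl
  rw [e3, e1, e2, ← sum_sub_distrib, sum_filter, ← sum_neg_distrib, smul_sum]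
  refine sum_congr rfl fun a _ => ?_
  have hq' : (q - 1) ≠ 0 := sub_ne_zero.2 hq
  by_cases hda : d < a
  · rw [if_pos hda, if_pos hda]
    have e4 : yv K N a * h.1 [a] - yv K N a * (C q * h.1 [a]) = (q - 1) • (-(yv K N a * h.1 [a])) := by
      rw [smul_eq_C_mul, C_sub, C_1]
      ring
    rw [e4, smul_smul, inv_mul_cancel₀ hq', one_smul]
  · rw [if_neg hda, if_neg hda, one_mul, sub_self, smul_zero, neg_zero]

theorem Yo_pow (q : K) (hq : q ≠ 1) (N : ℕ) (g : FS K N 0) (r d : ℕ) (hd : d < N) :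
    (((CM.Yo q (fun k => uDm K N k) (fun k => uDp q N k) (fun k j => uT q N k j) 0 0) ^ r)
      (uDp q N 0 g)).1 [d] = gg (yv K N) N r d * g.1 [] := by
  induction r generalizing d with
  | zero =>
    rw [pow_zero, gg, one_mul, Module.End.one_apply, uDp_val]
    have := dpF_app q N g.1 [] d hd
    rw [List.nil_append] at this
    rw [this]
    simp [gtc]
  | succ r ih =>
    rw [pow_succ', Module.End.mul_apply, Yo_app q hq N _ d hd, gg, neg_mul, sum_mul]
    congr 1
    refine sum_congr rfl fun a ha => ?_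
    rw [ih a (mem_range.1 (mem_filter.1 ha).1), mul_assoc]

theorem Eo_app (q : K) (hq : q ≠ 1) (N : ℕ) (g : FS K N 0) (r : ℕ) :
    (CM.Eo q (fun k => uDm K N k) (fun k => uDp q N k) (fun k j => uT q N k j) 0 r g).1 [] =
      evN K N (Ep K r) * g.1 [] := by
  cases r with
  | zero =>
    rw [Ep_zero', map_one, one_mul]
    rfl
  | succ r =>
    have h1 : (CM.Eo q (fun k => uDm K N k) (fun k => uDp q N k) (fun k j => uT q N k j) 0 (r + 1) g).1 [] =
        -(uDm K N 0 (((CM.Yo q (fun k => uDm K N k) (fun k => uDp q N k) (fun k j => uT q N k j) 0 0) ^ r)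
          (uDp q N 0 g))).1 [] := rfl
    rw [h1, uDm_val, dmF_app, evN_Ep, neg_mul, sum_mul]
    congr 1
    refine sum_congr rfl fun a ha => ?_
    rw [Yo_pow q hq N g r a (mem_range.1 ha), mul_assoc]

/-- reversal -/
noncomputable def rv (K : Type) [Field K] (N : ℕ) : WF K N →ₗ[K] WF K N where
  toFun f w := f w.reverse
  map_add' _ _ := rfl
  map_smul' _ _ := rfl

theorem gtc_reverse (w : List ℕ) (a : ℕ) : gtc w.reverse a = gtc w a := by
  unfold gtc
  exact List.countP_reverse

end three

end Pool.VD.EVN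

namespace Pool.VD

open MvPolynomial Finset EVN

theorem pEv (hPhi : CM.StPhi) (hW : StWAq) : StEv := by
  intro K _ _ q N hq0 hq1
  obtain ⟨Φ, h1, hdm, hdp, -, -, hE, -⟩ := hPhi K q hq0 hq1 (fun k => FS K N k) (fun k => uDm K N k)
    (fun k => uDp q N k) (fun k j => uT q N k j) (hW K q N hq0)
    ⟨fun w => if w = [] then 1 else 0, fun w hw => if_neg fun h => hw (by
      subst h
      exact ⟨rfl, fun x hx => absurd hx List.not_mem_nil⟩)⟩
  refine ⟨fun k => rv K N ∘ₗ (FS K N k).subtype ∘ₗ Φ k, ?_, ?_, ?_, ?_⟩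
  · intro k F w hw
    refine (Φ k F).2 w.reverse fun h => hw ⟨?_, fun x hx => ?_⟩
    · rw [← List.length_reverse]
      exact h.1
    · exact h.2 x (List.mem_reverse.2 hx)
  · intro k F
    funext w
    show (Φ k (CM.dmi q F)).1 w.reverse = ∑ a ∈ range N, yv K N a * (Φ (k + 1) F).1 (w ++ [a]).reverse
    rw [hdm, uDm_val, dmF_app]
    refine sum_congr rfl fun a _ => ?_
    rw [List.reverse_append, List.reverse_singleton, List.singleton_append]
  · intro k F
    funext w
    cases w with
    | nil =>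
      show (Φ (k + 1) (CM.dpl q k F)).1 ([] : List ℕ).reverse = 0
      rw [hdp, uDp_val, List.reverse_nil, dpF_nil]
    | cons a w =>
      show (Φ (k + 1) (CM.dpl q k F)).1 (a :: w).reverse =
        if a < N then C (q ^ gtc w a) * (Φ k F).1 w.reverse else 0
      rw [hdp, uDp_val, List.reverse_cons]
      by_cases ha : a < N
      · rw [dpF_app q N _ _ a ha, if_pos ha, gtc_reverse]
      · rw [dpF_app' q N _ _ a ha, if_neg ha]
  · intro f
    let Ψ : CM.Ry K →ₗ[K] MvPolynomial (Fin N) K :=
      (LinearMap.proj ([] : List ℕ)) ∘ₗ (FS K N 0).subtype ∘ₗ Φ 0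
    have hΨ : ∀ r F, Ψ (C (Ep K r) * F) = evN K N (Ep K r) • Ψ F := by
      intro r F
      show (Φ 0 (C (Ep K r) * F)).1 [] = evN K N (Ep K r) * (Φ 0 F).1 []
      rw [hE]
      exact Eo_app q hq1 N (Φ 0 F) r
    have h2 := ev_all (evN K N) Ψ hΨ f 1
    rw [mul_one] at h2
    have h3 : Ψ 1 = 1 := by
      show (Φ 0 1).1 [] = 1
      rw [h1]
      simp
    rw [h3, smul_eq_mul, mul_one] at h2
    exact h2

end Pool.VD
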