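import Pool.Agent.VD.StCG
import Pool.Agent.VD.M_WTAIL
import Pool.Agent.VD.M_HS

/-!
# MP_cf06d4_co, group V, block C, module HH (helper61)
-/

set_option autoImplicit false

namespace Pool.VD

open MvPolynomial Finset

variable {K : Type} [Field K]

private lemma Ws_succ_HH {B : Type} [AddCommMonoid B] (N m : ℕ) (f : List ℕ → B) :
    ∑ τ ∈ Ws N (m + 1), f τ = ∑ c ∈ range N, ∑ τ ∈ Ws N m, f (c :: τ) := by
  unfold Ws
  rw [Wd, sum_map, sum_product]
  rfl

private lemma Ws_mem_HH (N : ℕ) : ∀ (m : ℕ) (τ : List ℕ), τ ∈ Ws N m → τ.length = m ∧ ∀ x ∈ τ, x < N := by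
  intro m
  induction m with
  | zero =>
    intro τ h
    have e : Ws N 0 = {[]} := rfl
    rw [e, mem_singleton] at h
    rw [h]
    exact ⟨rfl, fun x hx => absurd hx (by simp)⟩
  | succ m ih =>
    intro τ h
    unfold Ws at h ih
    rw [Wd, mem_map] at h
    obtain ⟨⟨c, l⟩, h1, rfl⟩ := h
    rw [mem_product] at h1
    show (c :: l).length = m + 1 ∧ ∀ x ∈ c :: l, x < N
    obtain ⟨h2, h3⟩ := ih l h1.2
    refine ⟨by rw [List.length_cons, h2], fun x hx => ?_⟩
    rcases List.mem_cons.mp hx with h | h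
    · rw [h]
      exact mem_range.mp h1.1
    · exact h3 x h

private lemma Dm_pow_HH (N b : ℕ) (f : WF K N) (l : List ℕ) :
    ((WDm K N) ^ b) f l = ∑ g ∈ Ws N b, xl K N g * f (l ++ g) := by
  induction b generalizing f l with
  | zero =>
    have e : Ws N 0 = {[]} := rfl
    rw [e, sum_singleton]
    simp [xl]
  | succ b ih =>
    rw [pow_succ', Module.End.mul_apply, Ws_succ_HH]
    show ∑ c ∈ range N, yv K N c * ((WDm K N) ^ b) f (l ++ [c]) = _
    apply sum_congr rfl
    intro c _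
    rw [ih, mul_sum]
    apply sum_congr rfl
    intro g _
    have e1 : xl K N (c :: g) = yv K N c * xl K N g := by
      unfold xl
      rw [List.map_cons, List.prod_cons]
    rw [e1, mul_assoc, List.append_assoc, List.singleton_append]

private lemma Dp_pow_HH (q : K) (N : ℕ) (g : WF K N) : ∀ (τ : List ℕ), (∀ x ∈ τ, x < N) →
    ((WDp q N) ^ τ.length) g τ = C (q ^ inl τ) * g [] := by
  intro τ
  induction τ with
  | nil =>
    intro _
    simp [inl]
  | cons c τ ih =>
    intro h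
    rw [List.length_cons, pow_succ', Module.End.mul_apply]
    show (if c < N then C (q ^ gtc τ c) * ((WDp q N) ^ τ.length) g τ else 0) = _
    rw [if_pos (h c List.mem_cons_self), ih (fun x hx => h x (List.mem_cons_of_mem _ hx)), ← mul_assoc,
      ← C_mul, ← pow_add]
    rfl

private lemma HS_phi_HH [CharZero K] (q : K) (hq : ∀ n : ℕ, 1 ≤ n → q ^ n ≠ 1) {A : Type} [CommRing A]
    [Algebra K A] [Algebra ℚ A] (y : A) :
    HS (fun i => algebraMap K A ((1 - q ^ (i + 1))⁻¹) * y ^ (i + 1)) = phiS q y := by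
  set a : ℕ → A := fun i => algebraMap K A ((1 - q ^ (i + 1))⁻¹) * y ^ (i + 1) with ha
  have h1 : a = (fun k => y ^ (k + 1)) + fun k => (algebraMap K A q) ^ (k + 1) * a k := by
    funext i
    show a i = y ^ (i + 1) + (algebraMap K A q) ^ (i + 1) * a i
    have hne : (1 - q ^ (i + 1)) ≠ 0 := sub_ne_zero.mpr (hq (i + 1) (by omega)).symm
    have h2 : (1 - q ^ (i + 1))⁻¹ = 1 + q ^ (i + 1) * (1 - q ^ (i + 1))⁻¹ := by
      field_simp
      ring
    have h3 : a i = algebraMap K A ((1 - q ^ (i + 1))⁻¹) * y ^ (i + 1) := rfl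
    calc a i = algebraMap K A ((1 - q ^ (i + 1))⁻¹) * y ^ (i + 1) := h3
      _ = algebraMap K A (1 + q ^ (i + 1) * (1 - q ^ (i + 1))⁻¹) * y ^ (i + 1) := by rw [← h2]
      _ = y ^ (i + 1) + (algebraMap K A q) ^ (i + 1) *
          (algebraMap K A ((1 - q ^ (i + 1))⁻¹) * y ^ (i + 1)) := by
        rw [map_add, map_one, map_mul, map_pow]
        ring
      _ = _ := by rw [← h3]
  have h4 : HS a = HS (fun k => y ^ (k + 1)) * HS (fun k => (algebraMap K A q) ^ (k + 1) * a k) := by
    rw [← HS_add, ← h1]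
  have h5 : HS a * (1 - PowerSeries.C y * PowerSeries.X) = HS (fun k => (algebraMap K A q) ^ (k + 1) * a k) := by
    rw [h4]
    calc _ = (HS (fun k => y ^ (k + 1)) * (1 - PowerSeries.C y * PowerSeries.X)) *
        HS (fun k => (algebraMap K A q) ^ (k + 1) * a k) := by ring
      _ = _ := by rw [HS_geom_mul, one_mul]
  have h6 : ∀ n, Hs a n = (qpo q n)⁻¹ • y ^ n := by
    intro n
    induction n with
    | zero =>
      rw [Hs_zero]
      simp [qpo]
    | succ n ih =>
      have h7 := congrArg (PowerSeries.coeff (n + 1)) h5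
      rw [mul_sub, mul_one, map_sub, coeff_HS, coeff_HS, Hs_scale, ← mul_assoc,
        PowerSeries.coeff_succ_mul_X, mul_comm (HS a), PowerSeries.coeff_C_mul, coeff_HS, ih] at h7
      have hne : (1 - q ^ (n + 1)) ≠ 0 := sub_ne_zero.mpr (hq (n + 1) (by omega)).symm
      have h8 : (1 - q ^ (n + 1)) • Hs a (n + 1) = (qpo q n)⁻¹ • y ^ (n + 1) := by
        rw [sub_smul, one_smul, Algebra.smul_def (q ^ (n + 1)), map_pow, ← h7]
        rw [mul_smul_comm, ← pow_succ']
        abel
      have h9 : Hs a (n + 1) = (1 - q ^ (n + 1))⁻¹ • ((1 - q ^ (n + 1)) • Hs a (n + 1)) := by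
        rw [smul_smul, inv_mul_cancel₀ hne, one_smul]
      rw [h9, h8, smul_smul]
      congr 1
      unfold qpo
      rw [prod_range_succ, mul_inv, mul_comm]
  ext n
  rw [coeff_HS, h6]
  simp [phiS]

private lemma HS_sum_HH {A : Type} [CommRing A] [Algebra ℚ A] (N : ℕ) (a : ℕ → ℕ → A) :
    HS (fun i => ∑ c ∈ range N, a c i) = ∏ c ∈ range N, HS (a c) := by
  induction N with
  | zero =>
    rw [prod_range_zero]
    have : (fun i => ∑ c ∈ range 0, a c i) = (0 : ℕ → A) := by
      funext i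
      simp
    rw [this, HS_zero_seq]
  | succ N ih =>
    rw [prod_range_succ, ← ih, ← HS_add]
    congr 1
    funext i
    rw [sum_range_succ]
    rfl

private lemma evN_al_HH [CharZero K] (q : K) (hq : ∀ n : ℕ, 1 ≤ n → q ^ n ≠ 1) (N s : ℕ) :
    evN K N (al q s) = PowerSeries.coeff s (∏ c ∈ range N, phiS q (yv K N c)) := by
  have h1 : evN K N (al q s) = Hs (fun i => ∑ c ∈ range N,
      algebraMap K (MvPolynomial (Fin N) K) ((1 - q ^ (i + 1))⁻¹) * (yv K N c) ^ (i + 1)) s := by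
    unfold al
    have h2 := Hs_map ((evN K N : Lam K →ₐ[K] MvPolynomial (Fin N) K) : Lam K →+* MvPolynomial (Fin N) K)
      (fun i => (C (1 - q ^ (i + 1))⁻¹ * X i : Lam K)) s
    refine Eq.trans h2 ?_
    congr 1
    funext i
    rw [← mul_sum]
    show evN K N (C (1 - q ^ (i + 1))⁻¹ * X i) = _
    rw [map_mul, ← MvPolynomial.algebraMap_eq, AlgHom.commutes]
    congr 1
    unfold evN
    rw [aeval_X, Finset.sum_range]
    apply sum_congr rfl
    intro c _
    unfold yv
    rw [dif_pos c.2]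
  rw [h1, ← coeff_HS, HS_sum_HH N (fun c i => algebraMap K (MvPolynomial (Fin N) K) ((1 - q ^ (i + 1))⁻¹) *
    (yv K N c) ^ (i + 1))]
  congr 1
  apply prod_congr rfl
  intro c _
  exact HS_phi_HH q hq (yv K N c)

/-- `D_-^s D_+^s = (q;q)_s h_s[X/(1-q)]` on `V_0` -/
theorem pHH : StHH := by
  intro K _ _ q N s hq g
  rw [Dm_pow_HH, evN_al_HH q hq]
  have h1 : ∀ τ ∈ Ws N s, xl K N τ * ((WDp q N) ^ s) g ([] ++ τ) = (q ^ inl τ • (τ.map (yv K N)).prod) * g [] := by
    intro τ hτ
    obtain ⟨h2, h3⟩ := Ws_mem_HH N s τ hτ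
    rw [List.nil_append, ← h2, Dp_pow_HH q N g τ h3, MvPolynomial.smul_eq_C_mul]
    unfold xl
    ring
  rw [sum_congr rfl h1, ← sum_mul, pWTail q hq (MvPolynomial (Fin N) K) N s (yv K N), smul_mul_assoc]
  rfl

end Pool.VD
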