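import Pool.Agent.VD.StCW

/-!
# MP_cf06d4_co, group V, block C, module WOP (helper61)
-/

set_option autoImplicit false

namespace Pool.VD

open MvPolynomial Finset

variable {K : Type} [Field K]

private lemma Ws_succ_WO {B : Type} [AddCommMonoid B] (N m : ℕ) (f : List ℕ → B) :
    ∑ τ ∈ Ws N (m + 1), f τ = ∑ c ∈ range N, ∑ τ ∈ Ws N m, f (c :: τ) := by
  unfold Ws
  rw [Wd, sum_map, sum_product]
  rfl

private lemma Ws_len_WO (N : ℕ) : ∀ (m : ℕ) (τ : List ℕ), τ ∈ Ws N m → τ.length = m := by
  intro m
  induction m with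
  | zero =>
    intro τ h
    have e : Ws N 0 = {[]} := rfl
    rw [e, mem_singleton] at h
    rw [h]
    rfl
  | succ m ih =>
    intro τ h
    unfold Ws at h ih
    rw [Wd, mem_map] at h
    obtain ⟨⟨c, l⟩, h1, rfl⟩ := h
    rw [mem_product] at h1
    show (c :: l).length = m + 1
    rw [List.length_cons, ih l h1.2]

private lemma gtc_append_WO (l m : List ℕ) (c : ℕ) : gtc (l ++ m) c = gtc l c + gtc m c := by
  unfold gtc
  rw [List.countP_append]

private lemma xl_cons_WO (N c : ℕ) (l : List ℕ) : xl K N (c :: l) = yv K N c * xl K N l := by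
  unfold xl
  rw [List.map_cons, List.prod_cons]

private lemma xl_append_WO (N : ℕ) (l m : List ℕ) : xl K N (l ++ m) = xl K N l * xl K N m := by
  unfold xl
  rw [List.map_append, List.prod_append]

private lemma crs_append_WO (a l m : List ℕ) : crs a (l ++ m) = crs a l + crs a m := by
  induction a with
  | nil => simp [crs]
  | cons c a ih =>
    have e : ∀ x : List ℕ, crs (c :: a) x = gtc x c + crs a x := by
      intro x
      unfold crs
      rw [List.map_cons, List.sum_cons]
    rw [e, e, e, ih, gtc_append_WO]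
    ring

private lemma crs_cons_WO (c : ℕ) (a l : List ℕ) : crs (c :: a) l = gtc l c + crs a l := by
  unfold crs
  rw [List.map_cons, List.sum_cons]

private lemma Dm_iter_WO (N b : ℕ) (f : WF K N) (l : List ℕ) :
    (DmW N)^[b] f l = ∑ g ∈ Ws N b, xl K N g * f (l ++ g) := by
  induction b generalizing f l with
  | zero =>
    have e : Ws N 0 = {[]} := rfl
    rw [e, sum_singleton]
    simp [xl]
  | succ b ih =>
    rw [Function.iterate_succ', Function.comp_apply, Ws_succ_WO]
    show ∑ c ∈ range N, yv K N c * (DmW N)^[b] f (l ++ [c]) = _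
    apply sum_congr rfl
    intro c _
    rw [ih, mul_sum]
    apply sum_congr rfl
    intro g _
    rw [xl_cons_WO, mul_assoc, List.append_assoc, List.singleton_append]

private lemma wb_WO (q : K) (hq : q ≠ 1) (N b : ℕ) (f : WF K N) (c : ℕ) (l : List ℕ) :
    wbW q N b f (c :: l) = C (q ^ gtc l c) *
      ∑ g ∈ Ws N b, (if b = 0 ∨ c < g.headD 0 then xl K N g * f (l ++ g) else 0) := by
  cases b with
  | zero =>
    have e : Ws N 0 = {[]} := rfl
    rw [e, sum_singleton]
    show C (q ^ gtc l c) * f l = _
    simp [xl]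
  | succ b =>
    show C ((q - 1)⁻¹) *
      (DmW N (DpW q N ((DmW N)^[b] f)) (c :: l) - DpW q N (DmW N ((DmW N)^[b] f)) (c :: l)) = _
    set h : WF K N := (DmW N)^[b] f with hh
    have e1 : DmW N (DpW q N h) (c :: l) - DpW q N (DmW N h) (c :: l) =
        C (q ^ gtc l c * (q - 1)) * ∑ e ∈ range N, (if c < e then yv K N e * h (l ++ [e]) else 0) := by
      show (∑ e ∈ range N, yv K N e * (C (q ^ gtc (l ++ [e]) c) * h (l ++ [e]))) -
        C (q ^ gtc l c) * (∑ e ∈ range N, yv K N e * h (l ++ [e])) = _
      rw [mul_sum, ← sum_sub_distrib, mul_sum]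
      apply sum_congr rfl
      intro e _
      by_cases hce : c < e
      · have e2 : gtc (l ++ [e]) c = gtc l c + 1 := by
          rw [gtc_append_WO]
          simp [gtc, hce]
        rw [if_pos hce, e2, pow_succ, C_mul, C_mul, C_sub, C_1]
        ring
      · have e2 : gtc (l ++ [e]) c = gtc l c := by
          rw [gtc_append_WO]
          simp [gtc, hce]
        rw [if_neg hce, e2]
        ring
    rw [e1, ← mul_assoc, ← C_mul]
    have e3 : (q - 1)⁻¹ * (q ^ gtc l c * (q - 1)) = q ^ gtc l c := by
      have : q - 1 ≠ 0 := sub_ne_zero.mpr hq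
      field_simp
    rw [e3, Ws_succ_WO]
    congr 1
    apply sum_congr rfl
    intro e _
    by_cases hce : c < e
    · rw [if_pos hce, hh, Dm_iter_WO, mul_sum]
      apply sum_congr rfl
      intro g _
      rw [if_pos (Or.inr (by simpa using hce)), xl_cons_WO, mul_assoc, List.append_assoc, List.singleton_append]
    · rw [if_neg hce]
      symm
      apply sum_eq_zero
      intro g _
      rw [if_neg]
      simp only [List.headD_cons]
      omega

/-- splitting a word -/
private lemma Ws_split_WO {B : Type} [AddCommMonoid B] (N : ℕ) : ∀ (k b : ℕ), b ≤ k → ∀ f : List ℕ → List ℕ → B,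
    ∑ v ∈ Ws N k, f (v.take b) (v.drop b) = ∑ g ∈ Ws N b, ∑ v ∈ Ws N (k - b), f g v := by
  intro k
  induction k with
  | zero =>
    intro b hb f
    obtain rfl : b = 0 := by omega
    have e : Ws N 0 = {[]} := rfl
    rw [e, sum_singleton, sum_singleton]
    show _ = ∑ v ∈ Ws N 0, f [] v
    rw [e, sum_singleton]
    rfl
  | succ k ih =>
    intro b hb f
    cases b with
    | zero =>
      have e : Ws N 0 = {[]} := rfl
      rw [e, sum_singleton]
      rfl
    | succ b =>
      rw [Ws_succ_WO, Ws_succ_WO]
      apply sum_congr rfl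
      intro c _
      have h := ih b (by omega) (fun g v => f (c :: g) v)
      have e1 : k + 1 - (b + 1) = k - b := by omega
      rw [e1, ← h]
      rfl

private lemma WWW_val_WO (q : K) (hq : q ≠ 1) (N : ℕ) (F : WF K N) : ∀ (a : List ℕ) (k : ℕ) (τ : List ℕ),
    WWW q N a.length k F (a ++ τ) =
      C (q ^ (inl a + crs a τ)) * ∑ v ∈ Ws N k, xl K N v * C (GamW q a v) * F (τ ++ v) := by
  intro a
  induction a with
  | nil =>
    intro k τ
    show (if k = 0 then F else 0) τ = _
    cases k with
    | zero =>
      have e : Ws N 0 = {[]} := rfl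
      rw [e, sum_singleton]
      simp [inl, crs, GamW, xl]
    | succ k =>
      rw [if_neg (by omega)]
      symm
      rw [sum_eq_zero, mul_zero]
      · rfl
      · intro v hv
        have h := Ws_len_WO N _ v hv
        have hne : v ≠ [] := by
          intro h0
          rw [h0] at h
          simp at h
        rw [GamW, if_neg hne, C_0]
        ring
  | cons c a ih =>
    intro k τ
    have e0 : WWW q N (c :: a).length k F (c :: a ++ τ) =
        ∑ b ∈ range (k + 1), wbW q N b (WWW q N a.length (k - b) F) (c :: (a ++ τ)) := by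
      show (∑ b ∈ range (k + 1), wbW q N b (WWW q N a.length (k - b) F)) (c :: (a ++ τ)) = _
      rw [Finset.sum_apply]
    rw [e0]
    have e1 : ∀ b ∈ range (k + 1), wbW q N b (WWW q N a.length (k - b) F) (c :: (a ++ τ)) =
        C (q ^ (inl (c :: a) + crs (c :: a) τ)) * ∑ v ∈ Ws N k, (if b = 0 ∨ c < v.headD 0 then
          xl K N v * C (q ^ crs a (v.take b) * GamW q a (v.drop b)) * F (τ ++ v) else 0) := by
      intro b hb
      rw [mem_range] at hb
      rw [wb_WO q hq]
      have e2 : ∑ v ∈ Ws N k, (if b = 0 ∨ c < v.headD 0 then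
          xl K N v * C (q ^ crs a (v.take b) * GamW q a (v.drop b)) * F (τ ++ v) else 0) =
          ∑ g ∈ Ws N b, ∑ u ∈ Ws N (k - b), (if b = 0 ∨ c < g.headD 0 then
          xl K N (g ++ u) * C (q ^ crs a g * GamW q a u) * F (τ ++ (g ++ u)) else 0) := by
        rw [← Ws_split_WO N k b (by omega) (fun g u => if b = 0 ∨ c < g.headD 0 then
          xl K N (g ++ u) * C (q ^ crs a g * GamW q a u) * F (τ ++ (g ++ u)) else 0)]
        apply sum_congr rfl
        intro v hv
        have hl := Ws_len_WO N _ v hv
        show _ = (if b = 0 ∨ c < (v.take b).headD 0 then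
          xl K N (v.take b ++ v.drop b) * C (q ^ crs a (v.take b) * GamW q a (v.drop b)) *
            F (τ ++ (v.take b ++ v.drop b)) else 0)
        rw [List.take_append_drop]
        have hiff : (b = 0 ∨ c < v.headD 0) ↔ (b = 0 ∨ c < (v.take b).headD 0) := by
          cases b with
          | zero => simp
          | succ b =>
            cases v with
            | nil => simp
            | cons d v => simp
        by_cases hc : b = 0 ∨ c < v.headD 0
        · rw [if_pos hc, if_pos (hiff.mp hc)]
        · rw [if_neg hc, if_neg (fun h => hc (hiff.mpr h))]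
      rw [e2, mul_sum, mul_sum]
      apply sum_congr rfl
      intro g hg
      by_cases hc : b = 0 ∨ c < g.headD 0
      · rw [if_pos hc]
        simp only [if_pos hc]
        rw [List.append_assoc, ih, mul_sum, mul_sum, mul_sum, mul_sum]
        apply sum_congr rfl
        intro u _
        rw [xl_append_WO, List.append_assoc, crs_append_WO, gtc_append_WO, crs_cons_WO]
        have e3 : inl (c :: a) = gtc a c + inl a := rfl
        rw [e3]
        simp only [C_mul, C_pow, pow_add]
        ring
      · rw [if_neg hc]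
        simp only [if_neg hc]
        rw [sum_const_zero, mul_zero, mul_zero]
    rw [sum_congr rfl e1, ← mul_sum, sum_comm]
    congr 1
    apply sum_congr rfl
    intro v hv
    have hl := Ws_len_WO N _ v hv
    rw [GamW, hl, map_sum, mul_sum, sum_mul]
    apply sum_congr rfl
    intro b _
    by_cases hc : b = 0 ∨ c < v.headD 0
    · rw [if_pos hc, if_pos hc]
    · rw [if_neg hc, if_neg hc, C_0]
      ring

private lemma Dp_iter_WO (q : K) (N : ℕ) (g : WF K N) : ∀ (τ v : List ℕ),
    (DpW q N)^[τ.length] g (τ ++ v) = C (q ^ (inl τ + crs τ v)) * g v := by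
  intro τ
  induction τ with
  | nil =>
    intro v
    simp [inl, crs]
  | cons c τ ih =>
    intro v
    rw [List.length_cons, Function.iterate_succ', Function.comp_apply]
    show C (q ^ gtc (τ ++ v) c) * (DpW q N)^[τ.length] g (τ ++ v) = _
    rw [ih, gtc_append_WO, crs_cons_WO]
    have e3 : inl (c :: τ) = gtc τ c + inl τ := rfl
    rw [e3]
    simp only [C_mul, pow_add]
    ring

/-- value of the composite operator -/
theorem pWOpV [CharZero K] (q : K) : StWOpV q := by
  intro hq N k m g a τ hτ
  rw [WWW_val_WO q hq]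
  congr 1
  apply sum_congr rfl
  intro v _
  rw [← hτ, Dp_iter_WO, C_mul]
  ring

/-- the level recursion in operator form -/
theorem pWOp [CharZero K] (q t : K) (hRec : StWRec q t) : StWOp q t := by
  intro hq ht N d j a ha
  have hq1 : q ≠ 1 := by simpa using hq 1 le_rfl
  rw [hRec hq ht N d a ha, map_sum]
  apply sum_congr rfl
  intro k _
  rw [map_sum]
  have e1 : ∀ v ∈ Ws N k, PowerSeries.coeff j (PowerSeries.C (C (t ^ d * q ^ inl a * GamW q a v) * xl K N v) *
      T0 q N a v * PowerSeries.rescale (C t : MvPolynomial (Fin N) K) (KW q t N (d - k) v)) =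
      ∑ m ∈ range (j + 1), ∑ τ ∈ Ws N m, C ((-1) ^ m / qpo q m * t ^ (j - m + d)) * (xl K N τ *
        (C (q ^ (inl a + crs a τ)) * (xl K N v * C (GamW q a v * q ^ (inl τ + crs τ v)) *
          PowerSeries.coeff (j - m) (KW q t N (d - k) v)))) := by
    intro v _
    rw [mul_assoc, PowerSeries.coeff_C_mul, PowerSeries.coeff_mul,
      Finset.Nat.sum_antidiagonal_eq_sum_range_succ
        (fun i i' => PowerSeries.coeff i (T0 q N a v) * PowerSeries.coeff i'
          (PowerSeries.rescale (C t : MvPolynomial (Fin N) K) (KW q t N (d - k) v))), mul_sum]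
    apply sum_congr rfl
    intro m _
    rw [PowerSeries.coeff_rescale]
    unfold T0
    rw [PowerSeries.coeff_mk, mul_sum, sum_mul, mul_sum]
    apply sum_congr rfl
    intro τ _
    simp only [C_mul, C_pow, pow_add]
    ring
  rw [sum_congr rfl e1, sum_comm]
  apply sum_congr rfl
  intro m _
  rw [Dm_iter_WO, sum_comm, mul_sum]
  apply sum_congr rfl
  intro τ hτ
  rw [pWOpV q hq1 N k m _ a τ (Ws_len_WO N m τ hτ), mul_sum, mul_sum, mul_sum]

end Pool.VD
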