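import Pool.Agent.VD.M_WREC
import Pool.Agent.VD.M_WPHI
import Pool.Agent.VD.M_WTAIL
import Pool.Agent.VD.M_WOP

/-!
# MP_cf06d4_co, group V, block C, words half: assembly (helper23, helper61, helper13)
-/

set_option autoImplicit false

namespace Pool.VD

variable {K : Type} [Field K] [CharZero K]

/-- the level recursion -/
theorem pWRec (q t : K) : StWRec q t := M_WREC.recOf q t (M_WPHI.pWPhi q t) (pWTail q)

/-- the level recursion in operator form -/
theorem pWOpAll (q t : K) : StWOp q t := pWOp q t (pWRec q t)

end Pool.VD
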