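import Pool.Agent.VD.StCG

/-!
# MP_cf06d4_co, group V, block C, module WAq (helper50): the words family is an `A_q`-module
-/

set_option autoImplicit false
set_option linter.unusedSectionVars false

namespace Pool.VD.WAq

open MvPolynomial Finset Pool.VD

variable {K : Type} [Field K] [CharZero K]

/-! ### evaluation rules -/

theorem dmF_apply (N : ℕ) (f : WF K N) (w : List ℕ) :
    dmF K N f w = ∑ a ∈ range N, yv K N a * f (a :: w) := rfl

theorem TF_succ (q : K) (N j : ℕ) (f : WF K N) (c : ℕ) (w : List ℕ) :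
    TF q N (j + 1) f (c :: w) = TF q N j (fun w' => f (c :: w')) w := rfl

theorem TF_zero (q : K) (N : ℕ) (f : WF K N) (b a : ℕ) (u : List ℕ) :
    TF q N 0 f (b :: a :: u) = if a < b then q • f (a :: b :: u)
        else if b < a then f (a :: b :: u) + (1 - q) • f (b :: a :: u) else f (b :: a :: u) := rfl

theorem TF_zero_gt (q : K) (N : ℕ) (f : WF K N) {b a : ℕ} (u : List ℕ) (h : a < b) :
    TF q N 0 f (b :: a :: u) = q • f (a :: b :: u) := by
  rw [TF_zero, if_pos h]

theorem TF_zero_lt (q : K) (N : ℕ) (f : WF K N) {b a : ℕ} (u : List ℕ) (h : b < a) :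
    TF q N 0 f (b :: a :: u) = f (a :: b :: u) + (1 - q) • f (b :: a :: u) := by
  rw [TF_zero, if_neg (not_lt.2 h.le), if_pos h]

theorem TF_zero_eq (q : K) (N : ℕ) (f : WF K N) (a : ℕ) (u : List ℕ) :
    TF q N 0 f (a :: a :: u) = f (a :: a :: u) := by
  rw [TF_zero, if_neg (lt_irrefl a), if_neg (lt_irrefl a)]

theorem dpF_app (q : K) (N : ℕ) (f : WF K N) (w : List ℕ) (d : ℕ) :
    dpF q N f (w ++ [d]) = if d < N then C (q ^ gtc w d) * f w else 0 := by
  show (if w ++ [d] ≠ [] ∧ (w ++ [d]).getLastD 0 < N then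
    C (q ^ gtc (w ++ [d]).dropLast ((w ++ [d]).getLastD 0)) * f (w ++ [d]).dropLast else 0) = _
  have h1 : (w ++ [d]).getLastD 0 = d := by simp
  have h2 : (w ++ [d]).dropLast = w := by simp
  have h3 : w ++ [d] ≠ [] := by simp
  rw [h1, h2]
  simp only [ne_eq, h3, not_false_eq_true, true_and]

theorem gtc_cons (c : ℕ) (w : List ℕ) (d : ℕ) :
    gtc (c :: w) d = gtc w d + (if d < c then 1 else 0) := by
  unfold gtc
  rw [List.countP_cons]
  simp

theorem gtc_app (w : List ℕ) (c d : ℕ) :
    gtc (w ++ [c]) d = gtc w d + (if d < c then 1 else 0) := by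
  unfold gtc
  rw [List.countP_append, List.countP_cons]
  simp

theorem gtc_perm {w w' : List ℕ} (h : w.Perm w') (d : ℕ) : gtc w d = gtc w' d := by
  unfold gtc
  exact h.countP_eq _

/-! ### general rules -/

/-- multiplication by a symmetric function commutes with `T_j` -/
theorem TF_symm (q : K) (N : ℕ) (j : ℕ) : ∀ (p f : WF K N) (w : List ℕ),
    (∀ w w' : List ℕ, w.Perm w' → p w = p w') →
    TF q N j (fun w' => p w' * f w') w = p w * TF q N j f w := by
  induction j with
  | zero =>
    intro p f w hp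
    rcases w with _ | ⟨b, _ | ⟨a, u⟩⟩
    · show (0 : MvPolynomial (Fin N) K) = p [] * 0
      rw [mul_zero]
    · show (0 : MvPolynomial (Fin N) K) = p [b] * 0
      rw [mul_zero]
    · have h := hp (a :: b :: u) (b :: a :: u) (List.Perm.swap b a u)
      rw [TF_zero, TF_zero, h]
      split_ifs
      · rw [mul_smul_comm]
      · rw [mul_add, mul_smul_comm]
      · rfl
  | succ j ih =>
    intro p f w hp
    rcases w with _ | ⟨c, w⟩
    · show (0 : MvPolynomial (Fin N) K) = p [] * 0
      rw [mul_zero]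
    · exact ih (fun w' => p (c :: w')) (fun w' => f (c :: w')) w
        (fun w w' h => hp _ _ (h.cons c))

theorem TF_smul (q : K) (N : ℕ) (j : ℕ) (p : MvPolynomial (Fin N) K) (f : WF K N) (w : List ℕ) :
    TF q N j (fun w' => p * f w') w = p * TF q N j f w :=
  TF_symm q N j (fun _ => p) f w (fun _ _ _ => rfl)

theorem TF_app (q : K) (N : ℕ) (j : ℕ) : ∀ (g : WF K N) (w v : List ℕ), j + 1 < w.length →
    TF q N j g (w ++ v) = TF q N j (fun w' => g (w' ++ v)) w := by
  induction j with
  | zero =>
    intro g w v h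
    rcases w with _ | ⟨b, _ | ⟨a, u⟩⟩
    · simp at h
    · simp at h
    · rfl
  | succ j ih =>
    intro g w v h
    rcases w with _ | ⟨c, w⟩
    · simp at h
    · exact ih (fun w' => g (c :: w')) w v (by simpa using h)

theorem TF_end (q : K) (N : ℕ) : ∀ (w0 : List ℕ) (g : WF K N) (v : List ℕ),
    TF q N w0.length g (w0 ++ v) = TF q N 0 (fun v' => g (w0 ++ v')) v := by
  intro w0
  induction w0 with
  | nil => intro g v; rfl
  | cons c w0 ih => intro g v; exact ih (fun w' => g (c :: w')) v

/-- symmetrization of double sums -/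
theorem sum_sym (N : ℕ) (F G : ℕ → ℕ → MvPolynomial (Fin N) K)
    (h : ∀ a b, a ≤ b → F a b + F b a = G a b + G b a) :
    ∑ a ∈ range N, ∑ b ∈ range N, F a b = ∑ a ∈ range N, ∑ b ∈ range N, G a b := by
  have h' : ∀ a b, F a b + F b a = G a b + G b a := by
    intro a b
    rcases le_total a b with h1 | h1
    · exact h a b h1
    · rw [add_comm (F a b), add_comm (G a b)]; exact h b a h1
  have h1 : ∀ H : ℕ → ℕ → MvPolynomial (Fin N) K,
      ∑ a ∈ range N, ∑ b ∈ range N, (H a b + H b a) = 2 * ∑ a ∈ range N, ∑ b ∈ range N, H a b := by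
    intro H
    simp only [Finset.sum_add_distrib]
    rw [Finset.sum_comm (f := fun a b => H b a), two_mul]
  have h2 := h1 F
  have h3 := h1 G
  have h4 : ∑ a ∈ range N, ∑ b ∈ range N, (F a b + F b a) =
      ∑ a ∈ range N, ∑ b ∈ range N, (G a b + G b a) :=
    Finset.sum_congr rfl fun a _ => Finset.sum_congr rfl fun b _ => h' a b
  rw [h2, h3] at h4
  have h5 : (2 : MvPolynomial (Fin N) K) ≠ 0 := two_ne_zero
  exact mul_left_cancel₀ h5 h4

/-! ### the relations on functions of words -/

theorem quadF (q : K) (N : ℕ) (j : ℕ) : ∀ (f : WF K N) (w : List ℕ), j + 1 < w.length →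
    TF q N j (TF q N j f) w = (1 - q) • TF q N j f w + q • f w := by
  induction j with
  | zero =>
    intro f w h
    rcases w with _ | ⟨b, _ | ⟨a, u⟩⟩
    · simp at h
    · simp at h
    · rcases lt_trichotomy a b with h1 | h1 | h1
      · rw [TF_zero_gt q N _ u h1, TF_zero_lt q N _ u h1, TF_zero_gt q N _ u h1]
        module
      · subst h1
        rw [TF_zero_eq, TF_zero_eq]
        module
      · rw [TF_zero_lt q N _ u h1, TF_zero_gt q N _ u h1, TF_zero_lt q N _ u h1]
        module
  | succ j ih =>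
    intro f w h
    rcases w with _ | ⟨c, w⟩
    · simp at h
    · exact ih (fun w' => f (c :: w')) w (by simpa using h)

theorem braid0 (q : K) (N : ℕ) (f : WF K N) (c b a : ℕ) (u : List ℕ) :
    TF q N 0 (TF q N 1 (TF q N 0 f)) (c :: b :: a :: u) =
      TF q N 1 (TF q N 0 (TF q N 1 f)) (c :: b :: a :: u) := by
  have e1 : ∀ (g : WF K N) (x y z : ℕ), TF q N 1 g (x :: y :: z :: u) =
      if z < y then q • g (x :: z :: y :: u)
        else if y < z then g (x :: z :: y :: u) + (1 - q) • g (x :: y :: z :: u)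
        else g (x :: y :: z :: u) := fun g x y z => rfl
  rcases lt_trichotomy a b with h1 | h1 | h1 <;> rcases lt_trichotomy b c with h2 | h2 | h2 <;>
    rcases lt_trichotomy a c with h3 | h3 | h3 <;>
    first
      | (exfalso; omega)
      | (have h1' := h1
         have h2' := h2
         have h3' := h3
         try subst h1
         try subst h2
         try subst h3
         simp only [e1, TF_zero, lt_irrefl, if_true, if_false, *, not_lt.2 (le_of_lt _)]
         try module)

theorem braidF (q : K) (N : ℕ) (j : ℕ) : ∀ (f : WF K N) (w : List ℕ), j + 2 < w.length →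
    TF q N j (TF q N (j + 1) (TF q N j f)) w = TF q N (j + 1) (TF q N j (TF q N (j + 1) f)) w := by
  induction j with
  | zero =>
    intro f w h
    rcases w with _ | ⟨c, _ | ⟨b, _ | ⟨a, u⟩⟩⟩
    · simp at h
    · simp at h
    · simp at h
    · exact braid0 q N f c b a u
  | succ j ih =>
    intro f w h
    rcases w with _ | ⟨c, w⟩
    · simp at h
    · exact ih (fun w' => f (c :: w')) w (by rw [List.length_cons] at h; omega)

theorem farF (q : K) (N : ℕ) (i : ℕ) : ∀ (j : ℕ) (f : WF K N) (w : List ℕ), j + 1 < w.length → i + 2 ≤ j →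
    TF q N i (TF q N j f) w = TF q N j (TF q N i f) w := by
  induction i with
  | zero =>
    intro j f w h hj
    obtain ⟨j, rfl⟩ : ∃ j', j = j' + 2 := ⟨j - 2, by omega⟩
    rcases w with _ | ⟨b, _ | ⟨a, u⟩⟩
    · simp at h
    · simp at h
    · have e1 : TF q N (j + 2) (TF q N 0 f) (b :: a :: u) =
          TF q N j (fun w' => TF q N 0 f (b :: a :: w')) u := rfl
      have e2 : TF q N (j + 2) f (b :: a :: u) = TF q N j (fun w' => f (b :: a :: w')) u := rfl
      have e3 : TF q N (j + 2) f (a :: b :: u) = TF q N j (fun w' => f (a :: b :: w')) u := rfl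
      rw [e1]
      rcases lt_trichotomy a b with h1 | h1 | h1
      · have e4 : (fun w' => TF q N 0 f (b :: a :: w')) = q • (fun w' => f (a :: b :: w') : WF K N) := by
          funext w'
          exact TF_zero_gt q N f w' h1
        rw [e4, map_smul, TF_zero_gt q N _ u h1, e3]
        rfl
      · subst h1
        have e4 : (fun w' => TF q N 0 f (a :: a :: w')) = (fun w' => f (a :: a :: w') : WF K N) := by
          funext w'
          exact TF_zero_eq q N f a w'
        rw [e4, TF_zero_eq, e2]
      · have e4 : (fun w' => TF q N 0 f (b :: a :: w')) =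
            (fun w' => f (a :: b :: w') : WF K N) + (1 - q) • (fun w' => f (b :: a :: w') : WF K N) := by
          funext w'
          exact TF_zero_lt q N f w' h1
        rw [e4, map_add, map_smul, TF_zero_lt q N _ u h1, e2, e3]
        rfl
  | succ i ih =>
    intro j f w h hj
    obtain ⟨j, rfl⟩ : ∃ j', j = j' + 1 := ⟨j - 1, by omega⟩
    rcases w with _ | ⟨c, w⟩
    · simp at h
    · exact ih j (fun w' => f (c :: w')) w (by simpa using h) (by omega)

theorem dmTF (q : K) (N : ℕ) (j : ℕ) (f : WF K N) (w : List ℕ) :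
    dmF K N (TF q N (j + 1) f) w = TF q N j (dmF K N f) w := by
  rw [dmF_apply]
  have h1 : dmF K N f = ∑ a ∈ range N, (fun w => yv K N a * f (a :: w) : WF K N) := by
    funext w
    rw [Finset.sum_apply]
    rfl
  rw [h1, map_sum, Finset.sum_apply]
  refine Finset.sum_congr rfl fun a _ => ?_
  rw [TF_succ]
  exact (TF_smul q N j (yv K N a) (fun w' => f (a :: w')) w).symm

theorem dpTF (q : K) (N : ℕ) (j : ℕ) (f : WF K N) (w : List ℕ) (d : ℕ) (h : j + 1 < w.length) :
    dpF q N (TF q N j f) (w ++ [d]) = TF q N j (dpF q N f) (w ++ [d]) := by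
  rw [TF_app q N j _ w [d] h, dpF_app]
  by_cases hd : d < N
  · rw [if_pos hd]
    have h1 : (fun w' => dpF q N f (w' ++ [d])) = (fun w' => C (q ^ gtc w' d) * f w' : WF K N) := by
      funext w'
      rw [dpF_app, if_pos hd]
    rw [h1]
    exact (TF_symm q N j (fun w' => C (q ^ gtc w' d)) f w (fun w w' hw => by
      show C (q ^ gtc w d) = C (q ^ gtc w' d)
      rw [gtc_perm hw])).symm
  · rw [if_neg hd]
    have h1 : (fun w' => dpF q N f (w' ++ [d])) = (0 : WF K N) := by
      funext w'
      rw [dpF_app, if_neg hd]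
      rfl
    rw [h1, map_zero]
    rfl

theorem dm2F (q : K) (N : ℕ) (f : WF K N) (w : List ℕ) :
    dmF K N (dmF K N (TF q N 0 f)) w = dmF K N (dmF K N f) w := by
  have e : ∀ g : WF K N, dmF K N (dmF K N g) w =
      ∑ a ∈ range N, ∑ b ∈ range N, yv K N a * yv K N b * g (b :: a :: w) := by
    intro g
    rw [dmF_apply]
    refine Finset.sum_congr rfl fun a _ => ?_
    rw [dmF_apply, Finset.mul_sum]
    exact Finset.sum_congr rfl fun b _ => by ring
  rw [e, e]
  refine sum_sym N _ _ fun a b hab => ?_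
  rcases hab.eq_or_lt with h | h
  · subst h
    rw [TF_zero_eq]
  · rw [TF_zero_gt q N f w h, TF_zero_lt q N f w h]
    simp only [smul_eq_C_mul, map_sub, map_one]
    ring

/-- `dpF (dpF f)` at a word with two marked last letters -/
theorem dp2_app (q : K) (N : ℕ) (f : WF K N) (w : List ℕ) (c d : ℕ) :
    dpF q N (dpF q N f) (w ++ [c, d]) =
      if d < N then (if c < N then
        C (q ^ (gtc w c + gtc w d + (if d < c then 1 else 0))) * f w else 0) else 0 := by
  have h : w ++ [c, d] = (w ++ [c]) ++ [d] := by simp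
  rw [h, dpF_app, dpF_app, gtc_app]
  by_cases hd : d < N
  · by_cases hc : c < N
    · rw [if_pos hd, if_pos hc, if_pos hd, if_pos hc, ← mul_assoc, ← map_mul, ← pow_add]
      congr 3
      ring
    · rw [if_pos hd, if_neg hc, if_pos hd, if_neg hc, mul_zero]
  · rw [if_neg hd, if_neg hd]

theorem dp2F (q : K) (N : ℕ) (f : WF K N) (w : List ℕ) (c d : ℕ) (hc : c < N) (hd : d < N) :
    TF q N w.length (dpF q N (dpF q N f)) (w ++ [c, d]) = dpF q N (dpF q N f) (w ++ [c, d]) := by
  rw [TF_end]
  rcases lt_trichotomy d c with h | h | h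
  · rw [TF_zero_gt q N _ [] h, dp2_app, dp2_app, if_pos hc, if_pos hd, if_pos hd, if_pos hc,
      if_neg (not_lt.2 h.le), if_pos h, smul_eq_C_mul, ← mul_assoc, ← map_mul]
    congr 2
    ring
  · subst h
    rw [TF_zero_eq]
  · rw [TF_zero_lt q N _ [] h, dp2_app, dp2_app, if_pos hc, if_pos hd, if_pos hd, if_pos hc,
      if_neg (not_lt.2 h.le), if_pos h, smul_eq_C_mul, ← mul_assoc, ← map_mul, ← add_mul, ← map_add]
    congr 2
    ring

theorem saF (q : K) (N : ℕ) (f : WF K N) (w : List ℕ) (d : ℕ) (hd : d < N) :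
    dmF K N (dmF K N (dpF q N f)) (w ++ [d]) + q • dpF q N (dmF K N (dmF K N f)) (w ++ [d]) =
      dmF K N (dpF q N (dmF K N (TF q N 0 f + q • f))) (w ++ [d]) := by
  have e1 : dmF K N (dmF K N (dpF q N f)) (w ++ [d]) =
      ∑ a ∈ range N, ∑ b ∈ range N, C (q ^ gtc w d) * (yv K N a * yv K N b *
        (C (q ^ ((if d < a then 1 else 0) + (if d < b then 1 else 0))) * f (b :: a :: w))) := by
    rw [dmF_apply]
    refine Finset.sum_congr rfl fun a _ => ?_
    rw [dmF_apply, Finset.mul_sum]
    refine Finset.sum_congr rfl fun b _ => ?_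
    have h : b :: a :: (w ++ [d]) = (b :: a :: w) ++ [d] := rfl
    rw [h, dpF_app, if_pos hd, gtc_cons, gtc_cons, add_assoc, pow_add, map_mul]
    ring
  have e2 : q • dpF q N (dmF K N (dmF K N f)) (w ++ [d]) =
      ∑ a ∈ range N, ∑ b ∈ range N, C (q ^ gtc w d) * (yv K N a * yv K N b *
        (C q * f (b :: a :: w))) := by
    rw [dpF_app, if_pos hd, dmF_apply, Finset.mul_sum, Finset.smul_sum]
    refine Finset.sum_congr rfl fun a _ => ?_
    rw [dmF_apply, Finset.mul_sum, Finset.mul_sum, Finset.smul_sum]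
    refine Finset.sum_congr rfl fun b _ => ?_
    rw [smul_eq_C_mul]
    ring
  have e3 : dmF K N (dpF q N (dmF K N (TF q N 0 f + q • f))) (w ++ [d]) =
      ∑ a ∈ range N, ∑ b ∈ range N, C (q ^ gtc w d) * (yv K N a * yv K N b *
        (C (q ^ (if d < a then 1 else 0)) * (TF q N 0 f (b :: a :: w) + C q * f (b :: a :: w)))) := by
    rw [dmF_apply]
    refine Finset.sum_congr rfl fun a _ => ?_
    have h : a :: (w ++ [d]) = (a :: w) ++ [d] := rfl
    rw [h, dpF_app, if_pos hd, dmF_apply, Finset.mul_sum, Finset.mul_sum]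
    refine Finset.sum_congr rfl fun b _ => ?_
    have h2 : (TF q N 0 f + q • f) (b :: a :: w) =
        TF q N 0 f (b :: a :: w) + C q * f (b :: a :: w) := by
      rw [Pi.add_apply, Pi.smul_apply, smul_eq_C_mul]
    rw [h2, gtc_cons, pow_add, map_mul]
    ring
  rw [e1, e2, e3, ← Finset.sum_add_distrib]
  simp only [← Finset.sum_add_distrib]
  refine sum_sym N _ _ fun a b hab => ?_
  rcases hab.eq_or_lt with h | h
  · subst h
    rw [TF_zero_eq]
    by_cases h1 : d < a
    · simp only [if_pos h1, map_pow]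
      ring
    · simp only [if_neg h1, map_pow]
      ring
  · rw [TF_zero_gt q N f w h, TF_zero_lt q N f w h]
    simp only [smul_eq_C_mul, map_sub, map_one]
    by_cases h1 : d < a
    · have h2 : d < b := h1.trans h
      simp only [if_pos h1, if_pos h2, map_pow]
      ring
    · by_cases h2 : d < b
      · simp only [if_neg h1, if_pos h2, map_pow]
        ring
      · simp only [if_neg h1, if_neg h2, map_pow]
        ring

theorem sbF (q : K) (N : ℕ) (f : WF K N) (w : List ℕ) (c d : ℕ) (hc : c < N) (hd : d < N) :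
    dmF K N (dpF q N (dpF q N f)) (w ++ [c, d]) + q • dpF q N (dpF q N (dmF K N f)) (w ++ [c, d]) =
      TF q N w.length (dpF q N (dmF K N (dpF q N f))) (w ++ [c, d]) +
        q • dpF q N (dmF K N (dpF q N f)) (w ++ [c, d]) := by
  have e1 : dmF K N (dpF q N (dpF q N f)) (w ++ [c, d]) =
      ∑ a ∈ range N, C (q ^ (gtc w c + gtc w d)) * (yv K N a * (C (q ^ ((if d < c then 1 else 0) +
        ((if d < a then 1 else 0) + (if c < a then 1 else 0)))) * f (a :: w))) := by
    rw [dmF_apply]
    refine Finset.sum_congr rfl fun a _ => ?_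
    have h : a :: (w ++ [c, d]) = (a :: w) ++ [c, d] := rfl
    have h2 : gtc w c + (if c < a then 1 else 0) + (gtc w d + (if d < a then 1 else 0)) +
        (if d < c then 1 else 0) = gtc w c + gtc w d + ((if d < c then 1 else 0) +
        ((if d < a then 1 else 0) + (if c < a then 1 else 0))) := by ring
    rw [h, dp2_app, if_pos hd, if_pos hc, gtc_cons, gtc_cons, h2, pow_add, map_mul]
    ring
  have e2 : q • dpF q N (dpF q N (dmF K N f)) (w ++ [c, d]) =
      ∑ a ∈ range N, C (q ^ (gtc w c + gtc w d)) * (yv K N a * (C (q ^ ((if d < c then 1 else 0) + 1)) *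
        f (a :: w))) := by
    rw [dp2_app, if_pos hd, if_pos hc, dmF_apply, Finset.mul_sum, Finset.smul_sum]
    refine Finset.sum_congr rfl fun a _ => ?_
    rw [smul_eq_C_mul, pow_add, pow_add _ _ 1, pow_one, map_mul, map_mul]
    ring
  have e3 : ∀ c d : ℕ, c < N → d < N → dpF q N (dmF K N (dpF q N f)) (w ++ [c, d]) =
      ∑ a ∈ range N, C (q ^ (gtc w c + gtc w d)) * (yv K N a * (C (q ^ ((if d < c then 1 else 0) +
        (if c < a then 1 else 0))) * f (a :: w))) := by
    intro c d hc hd
    have h : w ++ [c, d] = (w ++ [c]) ++ [d] := by simp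
    rw [h, dpF_app, if_pos hd, dmF_apply, Finset.mul_sum]
    refine Finset.sum_congr rfl fun a _ => ?_
    have h2 : a :: (w ++ [c]) = (a :: w) ++ [c] := rfl
    rw [h2, dpF_app, if_pos hc, gtc_app, gtc_cons, pow_add, pow_add, pow_add, pow_add]
    simp only [map_mul]
    ring
  rw [TF_end]
  rcases lt_trichotomy d c with h | h | h
  · rw [TF_zero_gt q N _ [] h, e1, e2, e3 d c hd hc, e3 c d hc hd, Finset.smul_sum, Finset.smul_sum,
      ← Finset.sum_add_distrib, ← Finset.sum_add_distrib]
    refine Finset.sum_congr rfl fun a _ => ?_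
    rw [if_neg (not_lt.2 h.le), if_pos h, add_comm (gtc w d) (gtc w c)]
    simp only [smul_eq_C_mul, map_pow]
    by_cases h1 : c < a
    · have h2 : d < a := h.trans h1
      simp only [if_pos h1, if_pos h2]
      ring
    · by_cases h2 : d < a
      · simp only [if_neg h1, if_pos h2]
        ring
      · simp only [if_neg h1, if_neg h2]
        ring
  · subst h
    rw [TF_zero_eq, e1, e2, e3 d d hd hd, Finset.smul_sum,
      ← Finset.sum_add_distrib, ← Finset.sum_add_distrib]
    refine Finset.sum_congr rfl fun a _ => ?_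
    rw [if_neg (lt_irrefl d)]
    simp only [smul_eq_C_mul, map_pow]
    by_cases h1 : d < a
    · simp only [if_pos h1]
      ring
    · simp only [if_neg h1]
      ring
  · rw [TF_zero_lt q N _ [] h, e1, e2, e3 d c hd hc, e3 c d hc hd, Finset.smul_sum, Finset.smul_sum,
      ← Finset.sum_add_distrib, ← Finset.sum_add_distrib, ← Finset.sum_add_distrib]
    refine Finset.sum_congr rfl fun a _ => ?_
    rw [if_pos h, if_neg (not_lt.2 h.le), add_comm (gtc w d) (gtc w c)]
    simp only [smul_eq_C_mul, map_pow, map_sub, map_one]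
    by_cases h1 : d < a
    · have h2 : c < a := h.trans h1
      simp only [if_pos h1, if_pos h2]
      ring
    · by_cases h2 : c < a
      · simp only [if_neg h1, if_pos h2]
        ring
      · simp only [if_neg h1, if_neg h2]
        ring

/-! ### the family -/

theorem ext_FS {N k : ℕ} (f g : FS K N k) (h : ∀ w, VW N k w → f.1 w = g.1 w) : f = g := by
  refine Subtype.ext (funext fun w => ?_)
  by_cases hw : VW N k w
  · exact h w hw
  · rw [f.2 w hw, g.2 w hw]

theorem last1 {N k : ℕ} {w : List ℕ} (h : VW N (k + 1) w) :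
    ∃ w0 d, w = w0 ++ [d] ∧ w0.length = k ∧ d < N := by
  have h1 : w ≠ [] := by
    rintro rfl
    simpa using h.1
  refine ⟨w.dropLast, w.getLast h1, (List.dropLast_append_getLast h1).symm, ?_,
    h.2 _ (List.getLast_mem h1)⟩
  rw [List.length_dropLast, h.1]
  rfl

theorem last2 {N k : ℕ} {w : List ℕ} (h : VW N (k + 2) w) :
    ∃ w0 c d, w = w0 ++ [c, d] ∧ w0.length = k ∧ c < N ∧ d < N := by
  obtain ⟨w1, d, rfl, h1, hd⟩ := last1 h
  have h2 : VW N (k + 1) w1 := ⟨h1, fun x hx => h.2 x (List.mem_append_left _ hx)⟩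
  obtain ⟨w0, c, rfl, h3, hc⟩ := last1 h2
  exact ⟨w0, c, d, by simp, h3, hc, hd⟩

end Pool.VD.WAq

namespace Pool.VD

open WAq in
/-- the words family is an `A_q`-module -/
theorem pWAq : StWAq := by
  intro K _ _ q N _
  constructor
  · intro k j f hj
    refine ext_FS _ _ fun w hw => ?_
    exact quadF q N j f.1 w (by rw [hw.1]; exact hj)
  · intro k j f hj
    refine ext_FS _ _ fun w hw => ?_
    exact braidF q N j f.1 w (by rw [hw.1]; exact hj)
  · intro k i j f hj hi
    refine ext_FS _ _ fun w hw => ?_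
    exact farF q N i j f.1 w (by rw [hw.1]; exact hj) hi
  · intro k j f hj
    refine ext_FS _ _ fun w hw => ?_
    exact dmTF q N j f.1 w
  · intro k j f hj
    refine ext_FS _ _ fun w hw => ?_
    obtain ⟨w0, d, rfl, h1, _⟩ := last1 hw
    exact dpTF q N j f.1 w0 d (by rw [h1]; exact hj)
  · intro k f
    refine ext_FS _ _ fun w hw => ?_
    exact dm2F q N f.1 w
  · intro k f
    refine ext_FS _ _ fun w hw => ?_
    obtain ⟨w0, c, d, rfl, h1, hc, hd⟩ := last2 hw
    have h := dp2F q N f.1 w0 c d hc hd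
    rw [h1] at h
    exact h
  · intro k f
    refine ext_FS _ _ fun w hw => ?_
    obtain ⟨w0, d, rfl, h1, hd⟩ := last1 hw
    exact saF q N f.1 w0 d hd
  · intro k f
    refine ext_FS _ _ fun w hw => ?_
    obtain ⟨w0, c, d, rfl, h1, hc, hd⟩ := last2 hw
    have h := sbF q N f.1 w0 c d hc hd
    rw [h1] at h
    exact h

end Pool.VD
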