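import Pool.Agent.VD.StCG

/-!
# Block C, module WLink (helper17): the level recursion of the Dyck words in the generic form
-/

set_option autoImplicit false
set_option linter.unusedSectionVars false

namespace Pool.VD

open MvPolynomial Finset

namespace WLk

/-! ### algebra: inner and outer recursion -/

section alg
variable {K : Type} [Field K] {U : Type} [AddCommGroup U] [Module K U]

/-- index free version of `ww` -/
def W (c : K) (dm dp : Module.End K U) (b : ℕ) : Module.End K U := ww c dm (fun _ => dp) b 0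

theorem ww_eq (c : K) (dm dp : Module.End K U) (b s : ℕ) : ww c dm (fun _ => dp) b s = W c dm dp b := by
  cases b <;> rfl

/-- index free version of `AA` -/
def AL (c : K) (dm dp : Module.End K U) : ℕ → ℕ → Module.End K U
  | 0, k => if k = 0 then 1 else 0
  | r + 1, k => ∑ b ∈ range (k + 1), AL c dm dp r (k - b) * W c dm dp b

theorem AA_eq (c : K) (dm dp : Module.End K U) (r k m : ℕ) : AA c dm (fun _ => dp) r k m = AL c dm dp r k := by
  induction r generalizing k m with
  | zero => rfl
  | succ r ih =>
    simp only [AA, AL]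
    refine sum_congr rfl fun b _ => ?_
    rw [ih, ww_eq]

theorem AL_outer (c : K) (dm dp : Module.End K U) (r k : ℕ) :
    AL c dm dp (r + 1) k = ∑ b ∈ range (k + 1), W c dm dp b * AL c dm dp r (k - b) := by
  induction r generalizing k with
  | zero =>
    simp only [AL]
    refine sum_congr rfl fun b _ => ?_
    by_cases h : k - b = 0
    · simp [h]
    · simp [h]
  | succ r ih =>
    have e1 : AL c dm dp (r + 1 + 1) k = ∑ b ∈ range (k + 1), ∑ b' ∈ range (k - b + 1),
        W c dm dp b' * AL c dm dp r (k - b - b') * W c dm dp b := by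
      rw [AL]
      refine sum_congr rfl fun b _ => ?_
      rw [ih, sum_mul]
    have e2 : ∑ b ∈ range (k + 1), W c dm dp b * AL c dm dp (r + 1) (k - b) =
        ∑ b' ∈ range (k + 1), ∑ b ∈ range (k - b' + 1),
          W c dm dp b' * AL c dm dp r (k - b - b') * W c dm dp b := by
      refine sum_congr rfl fun b' _ => ?_
      rw [AL, mul_sum]
      refine sum_congr rfl fun b _ => ?_
      rw [mul_assoc, Nat.sub_right_comm]
    rw [e1, e2]
    refine sum_comm' fun b b' => ?_
    simp only [mem_range]
    omega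

theorem dpi_eq (dp : Module.End K U) (m k : ℕ) : dpi (fun _ => dp) m k = dp ^ m := by
  induction m with
  | zero => rfl
  | succ m ih =>
    show dp * dpi (fun _ => dp) m k = dp ^ (m + 1)
    rw [ih, pow_succ']

end alg

variable {K : Type} [Field K] [CharZero K]

/-- agreement on the valid words of length `l` -/
def Rk (K : Type) [Field K] (N l : ℕ) (f g : WF K N) : Prop := ∀ w, VW N l w → f w = g w

theorem Rk_dm {N l : ℕ} {f g : WF K N} (h : Rk K N (l + 1) f g) : Rk K N l (DmW N f) (WDm K N g) := by
  intro w hw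
  show ∑ c ∈ range N, yv K N c * f (w ++ [c]) = ∑ a ∈ range N, yv K N a * g (w ++ [a])
  refine sum_congr rfl fun a ha => ?_
  rw [h (w ++ [a]) ⟨by simp [hw.1], fun x hx => ?_⟩]
  rcases List.mem_append.1 hx with hx | hx
  · exact hw.2 x hx
  · rw [List.mem_singleton.1 hx]; exact mem_range.1 ha

theorem Rk_dp {q : K} {N l : ℕ} {f g : WF K N} (h : Rk K N l f g) : Rk K N (l + 1) (DpW q N f) (WDp q N g) := by
  intro w hw
  rcases w with _ | ⟨a, w⟩
  · exact absurd hw.1 (by simp)
  · have ha : a < N := hw.2 a List.mem_cons_self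
    show C (q ^ gtc w a) * f w = if a < N then C (q ^ gtc w a) * g w else 0
    rw [if_pos ha, h w ⟨by simpa using hw.1, fun x hx => hw.2 x (List.mem_cons_of_mem _ hx)⟩]

theorem Rk_dmi {N : ℕ} (m l : ℕ) {f g : WF K N} (h : Rk K N (l + m) f g) :
    Rk K N l ((DmW N)^[m] f) (((WDm K N) ^ m) g) := by
  induction m generalizing l with
  | zero => exact h
  | succ m ih =>
    rw [Function.iterate_succ_apply', pow_succ', Module.End.mul_apply]
    refine Rk_dm (ih (l + 1) ?_)
    have e : l + 1 + m = l + (m + 1) := by omega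
    rw [e]; exact h

theorem Rk_dpi {q : K} {N : ℕ} (m l : ℕ) {f g : WF K N} (h : Rk K N l f g) :
    Rk K N (l + m) ((DpW q N)^[m] f) (((WDp q N) ^ m) g) := by
  induction m with
  | zero => exact h
  | succ m ih =>
    rw [Function.iterate_succ_apply', pow_succ', Module.End.mul_apply]
    exact Rk_dp ih

theorem Rk_w {q : K} {N : ℕ} (b s : ℕ) {f g : WF K N} (h : Rk K N (s + b) f g) :
    Rk K N (s + 1) (wbW q N b f) (W (q - 1)⁻¹ (WDm K N) (WDp q N) b g) := by
  cases b with
  | zero => exact Rk_dp h
  | succ b =>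
    intro w hw
    have h1 : Rk K N (s + 1) ((DmW N)^[b] f) (((WDm K N) ^ b) g) := by
      refine Rk_dmi b (s + 1) ?_
      have e : s + 1 + b = s + (b + 1) := by omega
      rw [e]; exact h
    have h2 := Rk_dm (Rk_dp (q := q) h1) w hw
    have h3 := Rk_dp (q := q) (Rk_dm h1) w hw
    show C ((q - 1)⁻¹) * (DmW N (DpW q N ((DmW N)^[b] f)) w - DpW q N (DmW N ((DmW N)^[b] f)) w) =
      ((q - 1)⁻¹ • (WDm K N (WDp q N (((WDm K N) ^ b) g)) - WDp q N (WDm K N (((WDm K N) ^ b) g)))) w
    rw [h2, h3, Pi.smul_apply, MvPolynomial.smul_eq_C_mul]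
    rfl

theorem Rk_W {q : K} {N : ℕ} (r k m : ℕ) {f g : WF K N} (h : Rk K N (m + k) f g) :
    Rk K N (m + r) (WWW q N r k f) (AL (q - 1)⁻¹ (WDm K N) (WDp q N) r k g) := by
  induction r generalizing k m with
  | zero =>
    by_cases hk : k = 0
    · subst hk
      intro w hw
      have := h w hw
      simpa [WWW, AL] using this
    · intro w hw
      simp [WWW, AL, hk]
  | succ r ih =>
    intro w hw
    rw [AL_outer]
    have e1 : WWW q N (r + 1) k f w = ∑ b ∈ range (k + 1), wbW q N b (WWW q N r (k - b) f) w := by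
      show (∑ b ∈ range (k + 1), wbW q N b (WWW q N r (k - b) f)) w = _
      rw [Finset.sum_apply]
    rw [e1, LinearMap.sum_apply, Finset.sum_apply]
    refine sum_congr rfl fun b hb => ?_
    have hb' : b ≤ k := by simpa [Nat.lt_succ_iff] using hb
    rw [Module.End.mul_apply]
    refine Rk_w b (m + r) ?_ w (by
      have e : m + r + 1 = m + (r + 1) := by omega
      rw [e]; exact hw)
    have e2 : m + r + b = m + b + r := by omega
    rw [e2]
    refine ih (k - b) (m + b) ?_
    have e3 : m + b + (k - b) = m + k := by omega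
    rw [e3]; exact h

/-! ### supports -/

theorem Sup_sum {ι : Type} {N l : ℕ} (s : Finset ι) (f : ι → WF K N) (h : ∀ i ∈ s, Sup K N l (f i)) :
    Sup K N l (∑ i ∈ s, f i) := by
  intro w hw
  rw [Finset.sum_apply]
  exact Finset.sum_eq_zero fun i hi => h i hi w hw

theorem Sup_smul {N l : ℕ} (c : K) {f : WF K N} (h : Sup K N l f) : Sup K N l (c • f) := by
  intro w hw
  rw [Pi.smul_apply, h w hw, smul_zero]

theorem Sup_sub {N l : ℕ} {f g : WF K N} (h : Sup K N l f) (h' : Sup K N l g) : Sup K N l (f - g) := by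
  intro w hw
  rw [Pi.sub_apply, h w hw, h' w hw, sub_zero]

theorem Sup_dm {N l : ℕ} {f : WF K N} (h : Sup K N (l + 1) f) : Sup K N l (WDm K N f) := by
  intro w hw
  show ∑ a ∈ range N, yv K N a * f (w ++ [a]) = 0
  refine Finset.sum_eq_zero fun a _ => ?_
  rw [h (w ++ [a]) fun h1 => hw ⟨by simpa using h1.1, fun x hx => h1.2 x (List.mem_append_left _ hx)⟩,
    mul_zero]

theorem Sup_dp {q : K} {N l : ℕ} {f : WF K N} (h : Sup K N l f) : Sup K N (l + 1) (WDp q N f) := by
  intro w hw
  rcases w with _ | ⟨a, w⟩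
  · rfl
  · show (if a < N then C (q ^ gtc w a) * f w else 0) = 0
    by_cases ha : a < N
    · rw [if_pos ha, h w, mul_zero]
      intro h1
      refine hw ⟨by simp [h1.1], fun x hx => ?_⟩
      rcases List.mem_cons.1 hx with hx | hx
      · rw [hx]; exact ha
      · exact h1.2 x hx
    · rw [if_neg ha]

theorem Sup_dmi {N : ℕ} (m l : ℕ) {f : WF K N} (h : Sup K N (l + m) f) : Sup K N l (((WDm K N) ^ m) f) := by
  induction m generalizing l with
  | zero => exact h
  | succ m ih =>
    rw [pow_succ', Module.End.mul_apply]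
    refine Sup_dm (ih (l + 1) ?_)
    have e : l + 1 + m = l + (m + 1) := by omega
    rw [e]; exact h

theorem Sup_dpi {q : K} {N : ℕ} (m l : ℕ) {f : WF K N} (h : Sup K N l f) :
    Sup K N (l + m) (((WDp q N) ^ m) f) := by
  induction m with
  | zero => exact h
  | succ m ih =>
    rw [pow_succ', Module.End.mul_apply]
    exact Sup_dp ih

theorem Sup_w {q : K} {N : ℕ} (b s : ℕ) {f : WF K N} (h : Sup K N (s + b) f) :
    Sup K N (s + 1) (W (q - 1)⁻¹ (WDm K N) (WDp q N) b f) := by
  cases b with
  | zero => exact Sup_dp h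
  | succ b =>
    have h1 : Sup K N (s + 1) (((WDm K N) ^ b) f) := by
      refine Sup_dmi b (s + 1) ?_
      have e : s + 1 + b = s + (b + 1) := by omega
      rw [e]; exact h
    exact Sup_smul _ (Sup_sub (Sup_dm (Sup_dp h1)) (Sup_dp (Sup_dm h1)))

theorem Sup_AL {q : K} {N : ℕ} (r k m : ℕ) {f : WF K N} (h : Sup K N (m + k) f) :
    Sup K N (m + r) (AL (q - 1)⁻¹ (WDm K N) (WDp q N) r k f) := by
  induction r generalizing k m f with
  | zero =>
    by_cases hk : k = 0
    · subst hk
      simpa [AL] using h
    · intro w _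
      simp [AL, hk]
  | succ r ih =>
    rw [AL, LinearMap.sum_apply]
    refine Sup_sum _ _ fun b hb => ?_
    have hb' : b ≤ k := by simpa [Nat.lt_succ_iff] using hb
    rw [Module.End.mul_apply]
    have e1 : m + (r + 1) = m + 1 + r := by omega
    rw [e1]
    refine ih (k - b) (m + 1) ?_
    have e2 : m + 1 + (k - b) = m + k - b + 1 := by omega
    rw [e2]
    refine Sup_w b (m + k - b) ?_
    have e3 : m + k - b + b = m + k := by omega
    rw [e3]; exact h

theorem Sup_kc (q t : K) (N r a n : ℕ) : Sup K N r (kc q t N r a n) := by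
  intro w hw
  simp only [kc, if_neg hw]

end WLk

open WLk

theorem pWLink (hOp : ∀ (K : Type) [Field K] [CharZero K] (q t : K), StWOp q t)
    (hSt : ∀ (K : Type) [Field K] [CharZero K] (q t : K), StWStart q t) : StWLink := by
  intro K _ _ q t N hq ht
  refine ⟨fun r a n => ?_, ?_, fun a n => ?_⟩
  · funext w
    by_cases hw : VW N r w
    · have e1 : kc q t N r a n w = PowerSeries.coeff a (KW q t N n w) := by
        simp only [kc, if_pos hw]
      rw [e1, hOp K q t hq ht N n a w hw.2]
      simp only [Lrec, Pi.smul_apply, Finset.sum_apply, AA_eq, dpi_eq]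
      rw [Finset.sum_comm, Finset.smul_sum]
      refine sum_congr rfl fun m hm => ?_
      rw [Finset.smul_sum, Finset.smul_sum]
      refine sum_congr rfl fun k hk => ?_
      have hm' : m ≤ a := by simpa [Nat.lt_succ_iff] using hm
      have h1 : Rk K N k (fun v => PowerSeries.coeff (a - m) (KW q t N (n - k) v))
          (kc q t N k (a - m) (n - k)) := by
        intro v hv
        simp only [kc, if_pos hv]
      have h2 : Rk K N (m + k) ((DpW q N)^[m] (fun v => PowerSeries.coeff (a - m) (KW q t N (n - k) v)))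
          (((WDp q N) ^ m) (kc q t N k (a - m) (n - k))) := by
        rw [add_comm m k]; exact Rk_dpi m k h1
      have h3 := Rk_W (q := q) r k m h2
      have h4 : Rk K N r _ _ := Rk_dmi m r (by rw [add_comm r m]; exact h3)
      have h5 := h4 w hw
      have hr : w.length = r := hw.1
      rw [hr, h5, smul_smul, MvPolynomial.smul_eq_C_mul]
      congr 2
      have e3 : qpo q m = qfac q m := rfl
      rw [e3, pow_add]
      ring
    · rw [Sup_kc q t N r a n w hw]
      symm
      have h1 : Sup K N r (Lrec q t (WDm K N) (fun _ => WDp q N) (kc q t N) r a n) := by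
        simp only [Lrec, AA_eq, dpi_eq]
        refine Sup_smul _ (Sup_sum _ _ fun m _ => Sup_smul _ (Sup_sum _ _ fun k _ => ?_))
        refine Sup_dmi m r ?_
        rw [add_comm r m]
        refine Sup_AL r k m ?_
        rw [add_comm m k]
        exact Sup_dpi m k (Sup_kc q t N k _ _)
      exact h1 w hw
  · have hv : VW N 0 [] := ⟨rfl, fun x hx => absurd hx (by simp)⟩
    simp only [kc, if_pos hv]
    rw [(hSt K q t N).1, Einv, PowerSeries.coeff_mk]
    have h0 : Hst q t 0 = (1 : Lam K) := by
      rw [Hst, Hs]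
    simp [h0]
  · funext w
    by_cases hv : VW N 0 w
    · have hw : w = [] := List.length_eq_zero_iff.1 hv.1
      subst hw
      simp only [kc, if_pos hv]
      rw [(hSt K q t N).2]
      rfl
    · simp only [kc, if_neg hv]
      rfl

end Pool.VD
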