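import Pool.Agent.VD.M_C
import Pool.Agent.VD.CV7
import Pool.Agent.VD.M_Ev
import Pool.Agent.VD.M_WAq
import Pool.Agent.VD.FinCM1
import Pool.Agent.VD.M_WALL
import Pool.Agent.VD.M_WLink
import Pool.Agent.VD.M_HH
import Pool.Agent.VD.M_ClG
import Pool.Agent.VD.M_ClH
import Pool.Agent.VD.M_GqF

/-!
# Block C, assembled; the only hypothesis is the interface theorem `StCMN` of block CM (helper17)
-/

set_option autoImplicit false

namespace Pool.VD

theorem qWLink : StWLink :=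
  pWLink (fun _ _ _ q t => pWOpAll q t) (fun _ _ _ q t => M_WREC.pWStart q t)

theorem qEv : StEv := pEv CM.qPhi pWAq

theorem qC0 (hCMN : CM.StCMN) (K : Type) [Field K] [CharZero K] (q t : K) (hg : Gq q t) : StC K q t := by
  obtain ⟨hq0, ht0, _, hq, ht, _⟩ := pGqF K q t hg
  refine pC hCMN CV.pVH qEv qWLink pHH pClG pClH K q t hg hq0 ht0 (fun n hn => ?_) (fun n hn => ?_)
  · obtain ⟨m, rfl⟩ : ∃ m, n = m + 1 := ⟨n - 1, by omega⟩
    exact hq m
  · obtain ⟨m, rfl⟩ : ∃ m, n = m + 1 := ⟨n - 1, by omega⟩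
    exact ht m

end Pool.VD

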