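import Pool.Agent.VD.StM

/-!
# Module Comp (group V): compositions which dominate a partition
-/

set_option autoImplicit false

namespace Pool.VD

open MvPolynomial Finset

/-- sums over `k` element subsets of an antitone function are at most the initial sum -/
private theorem Comp_sum_le {f : ℕ → ℕ} (hf : Antitone f) :
    ∀ (k : ℕ) (S : Finset ℕ), S.card = k → ∑ i ∈ S, f i ≤ ∑ i ∈ range k, f i
  | 0, S, h => by
    rw [Finset.card_eq_zero.mp h]; simp
  | k + 1, S, h => by
    have hne : S.Nonempty := by rw [← Finset.card_pos]; omega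
    set m := S.max' hne with hm
    have hmS : m ∈ S := S.max'_mem hne
    have h1 : (S.erase m).card = k := by rw [Finset.card_erase_of_mem hmS]; omega
    have h2 := Comp_sum_le hf k (S.erase m) h1
    have h3 : k ≤ m := by
      have hsub : S ⊆ range (m + 1) := by
        intro x hx
        rw [Finset.mem_range]
        exact Nat.lt_succ_of_le (S.le_max' x hx)
      have := Finset.card_le_card hsub
      rw [Finset.card_range] at this
      omega
    rw [← Finset.add_sum_erase S f hmS, Finset.sum_range_succ]
    have := hf h3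
    omega

/-- the diagram with rows `f i`, `i < l` -/
private def Comp_yd (l : ℕ) (f : ℕ → ℕ) (hf : Antitone f) : YoungDiagram where
  cells := (range l ×ˢ range (f 0)).filter (fun c => c.2 < f c.1)
  isLowerSet := by
    rintro ⟨a, b⟩ ⟨c, d⟩ hle hab
    simp only [Finset.coe_filter, Finset.mem_product, Finset.mem_range, Set.mem_ofPred_eq] at hab ⊢
    obtain ⟨h1, h2⟩ := Prod.mk_le_mk.mp hle
    have h3 := hf h1
    omega

private theorem Comp_mem {l : ℕ} {f : ℕ → ℕ} {hf : Antitone f} {i j : ℕ} :
    (i, j) ∈ Comp_yd l f hf ↔ i < l ∧ j < f i := by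
  rw [← YoungDiagram.mem_cells]
  simp only [Comp_yd, Finset.mem_filter, Finset.mem_product, Finset.mem_range]
  have := hf (Nat.zero_le i)
  constructor
  · rintro ⟨⟨h1, h2⟩, h3⟩; exact ⟨h1, h3⟩
  · rintro ⟨h1, h2⟩; exact ⟨⟨h1, by omega⟩, h2⟩

private theorem Comp_rowLen {l : ℕ} {f : ℕ → ℕ} {hf : Antitone f} (h0 : ∀ i, l ≤ i → f i = 0) (i : ℕ) :
    (Comp_yd l f hf).rowLen i = f i := by
  apply le_antisymm
  · by_contra hc
    push Not at hc
    have h1 : (i, f i) ∈ Comp_yd l f hf := YoungDiagram.mem_iff_lt_rowLen.mpr hc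
    rw [Comp_mem] at h1
    omega
  · by_contra hc
    push Not at hc
    have h1 : (i, (Comp_yd l f hf).rowLen i) ∈ Comp_yd l f hf := by
      rw [Comp_mem]
      refine ⟨?_, hc⟩
      by_contra h2
      have := h0 i (not_lt.mp h2)
      omega
    have := YoungDiagram.mem_iff_lt_rowLen.mp h1
    omega

private theorem Comp_card (μ : YoungDiagram) (N : ℕ) (hN : ∀ i, N ≤ i → μ.rowLen i = 0) :
    μ.card = ∑ i ∈ range N, μ.rowLen i := by
  have h : ∀ c ∈ μ.cells, c.1 ∈ range N := by
    rintro ⟨i, j⟩ hc
    rw [Finset.mem_range]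
    by_contra h2
    have h3 := hN i (not_lt.mp h2)
    have h4 := YoungDiagram.mem_iff_lt_rowLen.mp ((YoungDiagram.mem_cells _).mp hc)
    omega
  rw [YoungDiagram.card, Finset.card_eq_sum_card_fiberwise h]
  apply Finset.sum_congr rfl
  intro i _
  rw [YoungDiagram.rowLen_eq_card]
  rfl

private theorem Comp_row0 (μ : YoungDiagram) (i : ℕ) (h : μ.colLen 0 ≤ i) : μ.rowLen i = 0 := by
  by_contra hc
  have h1 : (i, 0) ∈ μ := YoungDiagram.mem_iff_lt_rowLen.mpr (Nat.pos_of_ne_zero hc)
  have := YoungDiagram.mem_iff_lt_colLen.mp h1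
  omega

private theorem Comp_main {K : Type} [Field K] [CharZero K] (a : ℕ → Lam K) (lam : YoungDiagram)
    (l : ℕ) (hl : lam.colLen 0 ≤ l) (α : Fin l → ℕ)
    (hpre : ∀ k ≤ l, ∑ i ∈ range k, lam.rowLen i ≤
      ∑ i ∈ univ.filter (fun i : Fin l => (i : ℕ) < k), α i)
    (htot : ∑ i, α i = lam.card) :
    (∀ i, α i = lam.rowLen (i : ℕ)) ∨ ∃ ν, Dom lam ν ∧ ν ≠ lam ∧ ∏ i, Hs a (α i) = hP a ν := by
  obtain ⟨σ, hσ⟩ : ∃ σ : Equiv.Perm (Fin l), Antitone (α ∘ σ) :=
    ⟨Tuple.sort (fun i => OrderDual.toDual (α i)), fun i j hij =>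
      (Tuple.monotone_sort (fun i => OrderDual.toDual (α i))) hij⟩
  let f : ℕ → ℕ := fun i => if h : i < l then α (σ ⟨i, h⟩) else 0
  have hf : Antitone f := by
    intro i j hij
    simp only [f]
    split_ifs with h1 h2
    · exact hσ (show (⟨i, h2⟩ : Fin l) ≤ ⟨j, h1⟩ from hij)
    · omega
    · exact Nat.zero_le _
    · exact le_refl _
  have hf0 : ∀ i, l ≤ i → f i = 0 := fun i hi => by
    simp only [f, dif_neg (not_lt.mpr hi)]
  have hfσ : ∀ i : Fin l, f (i : ℕ) = α (σ i) := fun i => by
    simp only [f, dif_pos i.2, Fin.eta]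
  set ν := Comp_yd l f hf with hν
  have hrow : ∀ i, ν.rowLen i = f i := fun i => Comp_rowLen hf0 i
  have hlam0 : ∀ i, l ≤ i → lam.rowLen i = 0 := fun i hi => Comp_row0 lam i (hl.trans hi)
  -- sum of f over range l
  have hsumf : ∑ i ∈ range l, f i = ∑ i, α i := by
    rw [Finset.sum_range]
    simp only [hfσ]
    exact Equiv.sum_comp σ α
  have hcardν : ν.card = ∑ i, α i := by
    rw [Comp_card ν l (fun i hi => by rw [hrow, hf0 i hi])]
    simp only [hrow]
    exact hsumf
  -- initial sums of α
  have hmid : ∀ k ≤ l, ∑ i ∈ univ.filter (fun i : Fin l => (i : ℕ) < k), α i ≤ ∑ i ∈ range k, f i := by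
    intro k hk
    have h1 : ∑ i ∈ univ.filter (fun i : Fin l => (i : ℕ) < k), α i =
        ∑ i ∈ (univ.filter (fun i : Fin l => (i : ℕ) < k)).image (fun i => ((σ.symm i : Fin l) : ℕ)), f i := by
      rw [Finset.sum_image]
      · apply Finset.sum_congr rfl
        intro i _
        rw [hfσ, Equiv.apply_symm_apply]
      · intro i _ j _ hij
        exact σ.symm.injective (Fin.ext hij)
    have h2 : ((univ.filter (fun i : Fin l => (i : ℕ) < k)).image
        (fun i => ((σ.symm i : Fin l) : ℕ))).card = k := by
      rw [Finset.card_image_of_injective _ (fun i j hij => σ.symm.injective (Fin.ext hij))]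
      have : (univ.filter (fun i : Fin l => (i : ℕ) < k)).card = k := by
        have h3 : (univ.filter (fun i : Fin l => (i : ℕ) < k)).map Fin.valEmbedding = range k := by
          ext x
          simp only [Finset.mem_map, Finset.mem_filter, Finset.mem_univ, true_and, Finset.mem_range,
            Fin.valEmbedding_apply]
          constructor
          · rintro ⟨y, hy, rfl⟩; exact hy
          · intro hx; exact ⟨⟨x, by omega⟩, hx, rfl⟩
        rw [← Finset.card_map Fin.valEmbedding, h3, Finset.card_range]
      exact this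
    rw [h1]
    exact Comp_sum_le hf k _ h2
  by_cases hνl : ν = lam
  · left
    have hfl : ∀ i, f i = lam.rowLen i := fun i => by rw [← hrow, hνl]
    have heq : ∀ k ≤ l, ∑ i ∈ univ.filter (fun i : Fin l => (i : ℕ) < k), α i =
        ∑ i ∈ range k, lam.rowLen i := by
      intro k hk
      apply le_antisymm
      · have := hmid k hk
        simpa only [hfl] using this
      · exact hpre k hk
    intro i
    have h1 := heq (i : ℕ) (by omega)
    have h2 := heq ((i : ℕ) + 1) (by omega)
    have h3 : univ.filter (fun x : Fin l => (x : ℕ) < (i : ℕ) + 1) =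
        insert i (univ.filter (fun x : Fin l => (x : ℕ) < (i : ℕ))) := by
      ext x
      simp only [Finset.mem_filter, Finset.mem_univ, true_and, Finset.mem_insert, Fin.ext_iff]
      omega
    rw [h3, Finset.sum_insert (by simp), Finset.sum_range_succ, h1] at h2
    omega
  · right
    refine ⟨ν, ⟨?_, ?_⟩, hνl, ?_⟩
    · rw [hcardν, htot]
    · intro k
      simp only [hrow]
      rcases le_total k l with hk | hk
      · exact (hpre k hk).trans (hmid k hk)
      · have h1 : ∑ i ∈ range k, lam.rowLen i = ∑ i ∈ range l, lam.rowLen i := by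
          symm
          apply Finset.sum_subset (Finset.range_mono hk)
          intro i _ hi
          exact hlam0 i (by simpa using hi)
        rw [h1]
        have h2 := (hpre l le_rfl).trans (hmid l le_rfl)
        exact h2.trans (Finset.sum_le_sum_of_subset (Finset.range_mono hk))
    · -- products
      have hcol : ν.colLen 0 ≤ l := by
        by_contra hc
        push Not at hc
        have h1 : (l, 0) ∈ ν := YoungDiagram.mem_iff_lt_colLen.mpr hc
        rw [hν, Comp_mem] at h1
        omega
      have hz : ∀ i, ν.colLen 0 ≤ i → f i = 0 := fun i hi => by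
        rw [← hrow]; exact Comp_row0 ν i hi
      have h1 : hP a ν = ∏ i ∈ range l, Hs a (f i) := by
        unfold hP
        simp only [hrow]
        apply Finset.prod_subset (Finset.range_mono hcol)
        intro i _ hi
        rw [hz i (by simpa using hi), Hs]
      rw [h1, Finset.prod_range]
      simp only [hfσ]
      exact (Equiv.prod_comp σ (fun i => Hs a (α i))).symm

/-- Module Comp. -/
theorem pComp : StComp := by
  intro K _ _ a lam α hpre htot
  exact Comp_main a lam (lam.colLen 0) le_rfl α hpre htot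

end Pool.VD
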