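import Pool.Agent.VD.StM

/-!
# MP_cf06d4_co, group V, module DomT: dominance and transposition (helper94)
-/

set_option autoImplicit false

namespace Pool.VD

open Finset

private theorem DomT_boole (m c : ℕ) : ∑ j ∈ range c, (if j < m then 1 else 0) = min m c := by
  rw [← Finset.card_filter]
  have : (range c).filter (fun j => j < m) = range (min m c) := by
    ext j
    simp only [mem_filter, mem_range, lt_min_iff]
    exact and_comm
  rw [this, card_range]

private theorem DomT_card (μ : YoungDiagram) (N : ℕ) (hN : μ.colLen 0 ≤ N) :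
    ∑ r ∈ range N, μ.rowLen r = μ.card := by
  have h : ∀ c ∈ μ.cells, c.1 ∈ range N := by
    intro c hc
    have h1 : (c.1, 0) ∈ μ := μ.up_left_mem le_rfl (Nat.zero_le _) hc
    exact mem_range.2 ((YoungDiagram.mem_iff_lt_colLen.1 h1).trans_le hN)
  have h2 := Finset.card_eq_sum_card_fiberwise (f := Prod.fst) (s := μ.cells) (t := range N) h
  have h3 : μ.card = μ.cells.card := rfl
  rw [h3, h2]
  refine Finset.sum_congr rfl fun r _ => ?_
  rw [YoungDiagram.rowLen_eq_card]
  rfl

private theorem DomT_cols (μ : YoungDiagram) (N c : ℕ) (hN : μ.colLen 0 ≤ N) :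
    ∑ j ∈ range c, μ.transpose.rowLen j = ∑ r ∈ range N, min (μ.rowLen r) c := by
  have h1 : ∀ j, μ.transpose.rowLen j = ∑ r ∈ range N, (if (r, j) ∈ μ then 1 else 0) := by
    intro j
    have hj : μ.colLen j ≤ N := (μ.colLen_anti 0 j (Nat.zero_le _)).trans hN
    have : ∑ r ∈ range N, (if (r, j) ∈ μ then 1 else 0) =
        ∑ r ∈ range N, (if r < μ.colLen j then 1 else 0) := by
      refine Finset.sum_congr rfl fun r _ => ?_
      simp only [YoungDiagram.mem_iff_lt_colLen]
    rw [this, DomT_boole, YoungDiagram.rowLen_transpose, min_eq_left hj]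
  have h2 : ∀ r, min (μ.rowLen r) c = ∑ j ∈ range c, (if (r, j) ∈ μ then 1 else 0) := by
    intro r
    rw [← DomT_boole]
    refine Finset.sum_congr rfl fun j _ => ?_
    simp only [YoungDiagram.mem_iff_lt_rowLen]
  rw [Finset.sum_congr rfl fun j _ => h1 j, Finset.sum_congr rfl fun r _ => h2 r, Finset.sum_comm]

private theorem DomT_ext {μ ν : YoungDiagram} (h : ∀ i, ν.rowLen i = μ.rowLen i) : ν = μ := by
  refine YoungDiagram.ext ?_
  ext ⟨i, j⟩
  rw [YoungDiagram.mem_cells, YoungDiagram.mem_cells, YoungDiagram.mem_iff_lt_rowLen,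
    YoungDiagram.mem_iff_lt_rowLen, h]

theorem pDomT : StDomT := by
  intro μ ν h1 h2
  by_contra hne
  have hex : ∃ i, ν.rowLen i ≠ μ.rowLen i := by
    by_contra hcon
    push Not at hcon
    exact hne (DomT_ext hcon)
  classical
  set i := Nat.find hex with hi
  have hi1 : ν.rowLen i ≠ μ.rowLen i := Nat.find_spec hex
  have hi2 : ∀ r < i, ν.rowLen r = μ.rowLen r := by
    intro r hr
    by_contra hcon
    exact Nat.find_min hex hr hcon
  set c := μ.rowLen i with hc
  have hpre : ∑ r ∈ range i, ν.rowLen r = ∑ r ∈ range i, μ.rowLen r :=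
    Finset.sum_congr rfl fun r hr => hi2 r (mem_range.1 hr)
  have hlt : c < ν.rowLen i := by
    have h := h1.2 (i + 1)
    rw [Finset.sum_range_succ, Finset.sum_range_succ, hpre] at h
    omega
  set N := μ.colLen 0 + ν.colLen 0 + (i + 1) with hN
  have hNi : i + 1 ≤ N := by omega
  have hm : μ.colLen 0 ≤ N := by omega
  have hn : ν.colLen 0 ≤ N := by omega
  have hA := h2.2 c
  rw [DomT_cols μ N c hm, DomT_cols ν N c hn] at hA
  have htot : ∑ r ∈ range N, μ.rowLen r = ∑ r ∈ range N, ν.rowLen r := by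
    rw [DomT_card μ N hm, DomT_card ν N hn]
    exact h1.1
  have split : ∀ f : ℕ → ℕ, ∑ r ∈ range N, f r =
      ∑ r ∈ range i, f r + f i + ∑ r ∈ Ico (i + 1) N, f r := by
    intro f
    rw [← Finset.sum_range_add_sum_Ico f hNi, Finset.sum_range_succ]
  rw [split, split] at hA htot
  have e1 : ∑ r ∈ range i, min (ν.rowLen r) c = ∑ r ∈ range i, min (μ.rowLen r) c :=
    Finset.sum_congr rfl fun r hr => by rw [hi2 r (mem_range.1 hr)]
  have e2 : ∑ r ∈ Ico (i + 1) N, min (μ.rowLen r) c = ∑ r ∈ Ico (i + 1) N, μ.rowLen r := by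
    refine Finset.sum_congr rfl fun r hr => ?_
    exact min_eq_left (μ.rowLen_anti i r (by have := (mem_Ico.1 hr).1; omega))
  have e3 : ∑ r ∈ Ico (i + 1) N, min (ν.rowLen r) c ≤ ∑ r ∈ Ico (i + 1) N, ν.rowLen r :=
    Finset.sum_le_sum fun r _ => min_le_left _ _
  have e4 : min (ν.rowLen i) c = c := min_eq_right hlt.le
  have e5 : min (μ.rowLen i) c = c := min_self c
  rw [e1, e2, e4, e5] at hA
  rw [hpre] at htot
  omega

end Pool.VD
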