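import Pool.Agent.VD.M_A

/-!
# MODULE Gu
-/

set_option autoImplicit false
set_option linter.unusedSectionVars false

namespace Pool.VD

open MvPolynomial Finset

variable {K : Type} [Field K] [CharZero K]

theorem Gu_eq_Hc (q t u : K) (n : ℕ) :
    Gu q t u n = Hc (fun i => -((1 - u ^ (i + 1)) * (Mk q t (i + 1))⁻¹)) n := by
  simp [Gu, Hc]

/-- the coefficients of `(1-w)/(1-uw)` -/
theorem Gu_kappa (u : K) (n : ℕ) : Hs (fun i => -(1 - u ^ (i + 1))) n =
    if n = 0 then 1 else u ^ n - u ^ (n - 1) := by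
  have h : (fun i => -(1 - u ^ (i + 1))) = (fun _ => (-1 : K)) + fun i => u ^ (i + 1) := by
    funext i
    simp only [Pi.add_apply]
    ring
  rw [h, Hs_add']
  cases n with
  | zero => simp [Hs_zero]
  | succ n =>
    rw [sum_range_succ', sum_range_succ']
    simp [Hs_const_neg_one, Hs_geom]
    ring

theorem Gu_Dk {q t : K} (u : K) (hM : ∀ k, Mk q t (k + 1) ≠ 0) (a n : ℕ) :
    Dk q t a (Gu q t u n) = ∑ i ∈ range (n + 1),
      C (if i = 0 then 1 else u ^ i - u ^ (i - 1)) * Gu q t u (n - i) * Ep K (a + i) := by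
  have h := Vo_Hc_mul (fun i => Mk q t (i + 1)) (fun i => -(X i : Lam K))
    (fun i => -((1 - u ^ (i + 1)) * (Mk q t (i + 1))⁻¹)) a n 1
  have h1 : (fun i => -((1 - u ^ (i + 1)) * (Mk q t (i + 1))⁻¹) * Mk q t (i + 1)) =
      fun i => -(1 - u ^ (i + 1)) := by
    funext i
    have := hM i
    field_simp
  simp only [h1, mul_one, Gu_kappa, Vo_one, ← Gu_eq_Hc] at h
  exact h

theorem pGu : StGu := by
  intro K _ _ q t u hM n
  refine ⟨?_, ?_, ?_, ?_⟩
  · rw [Gu_Dk u hM 0 (n + 1), Gu_Dk u hM 1 n, sum_range_succ', smul_sum, sum_range_succ',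
      sum_range_succ']
    have hE1 : Ep K 1 = -X 0 := by
      rw [Ep, Hs_one]
    have hE0 : Ep K 0 = 1 := by
      rw [Ep, Hs_zero]
    have hs : ∑ i ∈ range n, C (if i + 1 + 1 = 0 then (1 : K) else u ^ (i + 1 + 1) -
        u ^ (i + 1 + 1 - 1)) * Gu q t u (n + 1 - (i + 1 + 1)) * Ep K (0 + (i + 1 + 1)) =
        ∑ i ∈ range n, u • (C (if i + 1 = 0 then (1 : K) else u ^ (i + 1) - u ^ (i + 1 - 1)) *
          Gu q t u (n - (i + 1)) * Ep K (1 + (i + 1))) := by
      refine sum_congr rfl fun i _ => ?_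
      rw [if_neg (Nat.succ_ne_zero _), if_neg (Nat.succ_ne_zero _), MvPolynomial.smul_eq_C_mul,
        show n + 1 - (i + 1 + 1) = n - (i + 1) by omega,
        show 0 + (i + 1 + 1) = 1 + (i + 1) by omega,
        show i + 1 + 1 - 1 = i + 1 by omega, show i + 1 - 1 = i by omega]
      simp only [map_sub, map_pow]
      ring
    rw [hs]
    simp only [MvPolynomial.smul_eq_C_mul]
    simp [hE1, hE0]
    ring
  · rw [Gu, Hs_zero]
  · rw [Gu, Est, ← mul_assoc, ← mul_pow]
    simp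
  · have h : (fun i => -(C ((1 - u ^ (i + 1)) * (Mk q t (i + 1))⁻¹) * X i : Lam K)) =
        (fun i => C u ^ (i + 1) * (C ((Mk q t (i + 1))⁻¹) * X i : Lam K)) +
          fun i => -(C ((Mk q t (i + 1))⁻¹) * X i : Lam K) := by
      funext i
      simp only [Pi.add_apply, map_mul, map_sub, map_one, map_pow]
      ring
    rw [Gu, h, Hs_add, mul_sum]
    refine sum_congr rfl fun p hp => ?_
    rw [Hs_scale, ← Hst, Est, MvPolynomial.smul_eq_C_mul, ← mem_antidiagonal.1 hp]
    have h1 : ((-1 : Lam K)) ^ p.2 * (-1) ^ p.2 = 1 := by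
      rw [← mul_pow]; simp
    have h2 : (C ((-u) ^ p.1) : Lam K) = (-1) ^ p.1 * C u ^ p.1 := by
      rw [map_pow, map_neg, neg_pow]
    rw [h2, pow_add]
    ring

end Pool.VD
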