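import Pool.Agent.VD.M_EB
import Pool.Agent.VD.M_Gu

/-!
# MODULE M4
-/

set_option autoImplicit false
set_option linter.unusedSectionVars false

namespace Pool.VD

open MvPolynomial Finset

variable {K : Type} [Field K] [CharZero K]

theorem M4_GuH (q t u : K) (n : ℕ) : IsH n (Gu q t u n) := by
  refine pHsHom K _ (fun i => ?_) n
  refine IsH.neg ?_
  have h := IsH.mul (IsH.C ((1 - u ^ (i + 1)) * (Mk q t (i + 1))⁻¹)) (IsH.X i)
  rwa [zero_add] at h

theorem M4_dg_one {q t : K} {b : Module.Basis YoungDiagram K (Lam K)} (hb : EB q t b)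
    (φ : YoungDiagram → K) (hφ : ∀ μ : YoungDiagram, μ.card = 0 → φ μ = 1) :
    dg b φ 1 = 1 := by
  have h1 : dg b (fun _ => (1 : K)) 1 = (1 : Lam K) := by
    refine repr_ext b fun μ => ?_
    rw [dg_repr, one_mul]
  conv_rhs => rw [← h1]
  refine dg_congr b fun μ hμ => ?_
  apply hφ
  by_contra h
  exact hμ (hb.repr_zero IsH.one h)

theorem pM4 (hGqF : StGqF) (hB : StB) (hE1 : StE1) : StM4 := by
  intro K _ _ q t u hq b hb n
  obtain ⟨hq0, ht0, hqt, -, -, hM, -, -, -⟩ := hGqF K q t hq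
  obtain ⟨-, hU, -, -⟩ := hE1 K q t hq b hb
  induction n with
  | zero =>
    have h0 := (pGu K q t 0 hM 0).2.1
    have h1 := (pGu K q t u hM 0).2.1
    rw [h0, h1]
    refine M4_dg_one hb _ fun μ hμ => ?_
    rw [Um, Finset.card_eq_zero.1 hμ, prod_empty]
  | succ n ih =>
    have h0 := (pGu K q t 0 hM n).1
    have h1 := (pGu K q t u hM n).1
    rw [zero_smul, add_zero] at h0
    have h2 := congrArg (dg b (Um q t u)) h0
    rw [map_sub, ← hb.d0_comm, hU, ih] at h2
    refine sub_eq_zero.1 (hb.inj (hM 0) (Bm_zero_of hB hq) (n := n + 1) (by omega) ?_ ?_)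
    · exact (hb.dg_isH _ (M4_GuH q t 0 (n + 1))).sub (M4_GuH q t u (n + 1))
    · rw [map_sub]
      rw [← h1] at h2
      linear_combination h2

end Pool.VD
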