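import Pool.Agent.VD.M_M4

/-!
# MODULE M4c
-/

set_option autoImplicit false
set_option linter.unusedSectionVars false

namespace Pool.VD

open MvPolynomial Finset

variable {K : Type} [Field K] [CharZero K]

private theorem M4c_eB_zero (q t : K) (m : ℕ) (μ : YoungDiagram) (h : μ.card < m) :
    eB q t m μ = 0 := by
  unfold eB
  rw [Finset.powersetCard_eq_empty.2 h, sum_empty]

private theorem M4c_eB_card (q t : K) (μ : YoungDiagram) : eB q t μ.card μ = Tm q t μ := by
  unfold eB Tm
  show ∑ S ∈ μ.cells.powersetCard μ.cells.card, ∏ c ∈ S, xc q t c = _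
  rw [Finset.powersetCard_self, sum_singleton]

private theorem M4c_Um (q t u : K) (μ : YoungDiagram) :
    Um q t u μ = ∑ m ∈ range (μ.card + 1), (-u) ^ m * eB q t m μ := by
  unfold Um eB
  have h : ∀ c ∈ μ.cells, (1 - u * xc q t c) = 1 + (-u) * xc q t c := fun c _ => by ring
  rw [Finset.prod_congr rfl h, Finset.prod_one_add, Finset.sum_powerset]
  refine Finset.sum_congr rfl fun m _ => ?_
  rw [Finset.mul_sum]
  refine Finset.sum_congr rfl fun S hS => ?_
  rw [Finset.prod_mul_distrib, Finset.prod_const, (Finset.mem_powersetCard.1 hS).2]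

private theorem M4c_sgn (n : ℕ) (f : Lam K) : ((-1 : Lam K)) ^ n * f = ((-1 : K) ^ n) • f := by
  rw [MvPolynomial.smul_eq_C_mul, map_pow, map_neg, map_one]

theorem pM4c (hM4 : StM4) (hGqF : StGqF) : StM4c := by
  intro K _ _ q t hq b hb
  obtain ⟨-, -, -, -, -, hM, -, -, -⟩ := hGqF K q t hq
  -- the generating function
  have key : ∀ (n : ℕ) (μ : YoungDiagram) (u : K), Um q t u μ * b.repr (Est q t n) μ =
      ∑ p ∈ antidiagonal n, (-u) ^ p.1 * b.repr (Hst q t p.1 * Est q t p.2) μ := by
    intro n μ u
    have h1 := hM4 K q t u hq b hb n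
    have h2 := (pGu K q t u hM n).2.2.1
    have h3 := (pGu K q t u hM n).2.2.2
    rw [M4c_sgn] at h2 h3
    rw [h2, map_smul] at h1
    have h4 : dg b (Um q t u) (Est q t n) =
        ∑ p ∈ antidiagonal n, (-u) ^ p.1 • (Hst q t p.1 * Est q t p.2) := by
      rw [← h3, ← h1, smul_smul, ← pow_add, Even.neg_one_pow ⟨n, rfl⟩, one_smul]
    rw [← dg_repr, h4, map_sum, Finsupp.finsetSum_apply]
    refine Finset.sum_congr rfl fun p _ => ?_
    rw [map_smul, Finsupp.smul_apply, smul_eq_mul]
  -- coefficients
  have key2 : ∀ (m k : ℕ) (μ : YoungDiagram), eB q t m μ * b.repr (Est q t (m + k)) μ =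
      b.repr (Hst q t m * Est q t k) μ := by
    intro m k μ
    have hPQ : (∑ j ∈ range (μ.card + 1),
        Polynomial.C ((-1) ^ j * eB q t j μ * b.repr (Est q t (m + k)) μ) * Polynomial.X ^ j) =
        ∑ p ∈ antidiagonal (m + k), Polynomial.C ((-1 : K) ^ p.1 *
          b.repr (Hst q t p.1 * Est q t p.2) μ) * Polynomial.X ^ p.1 := by
      apply Polynomial.funext
      intro u
      rw [Polynomial.eval_finsetSum, Polynomial.eval_finsetSum]
      have h := key (m + k) μ u
      rw [M4c_Um, Finset.sum_mul] at h
      calc _ = ∑ j ∈ range (μ.card + 1), (-u) ^ j * eB q t j μ * b.repr (Est q t (m + k)) μ := by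
            refine Finset.sum_congr rfl fun j _ => ?_
            rw [Polynomial.eval_mul, Polynomial.eval_C, Polynomial.eval_pow, Polynomial.eval_X,
              neg_pow u j]
            ring
        _ = _ := by
            rw [h]
            refine Finset.sum_congr rfl fun p _ => ?_
            rw [Polynomial.eval_mul, Polynomial.eval_C, Polynomial.eval_pow, Polynomial.eval_X,
              neg_pow u p.1]
            ring
    have h := congrArg (fun P => Polynomial.coeff P m) hPQ
    simp only [Polynomial.finsetSum_coeff, Polynomial.coeff_C_mul, Polynomial.coeff_X_pow] at h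
    have hr : (∑ p ∈ antidiagonal (m + k), (-1 : K) ^ p.1 *
        b.repr (Hst q t p.1 * Est q t p.2) μ * (if m = p.1 then 1 else 0)) =
        (-1 : K) ^ m * b.repr (Hst q t m * Est q t k) μ := by
      rw [Finset.sum_eq_single (m, k)]
      · rw [if_pos rfl, mul_one]
      · intro p hp hne
        rw [if_neg, mul_zero]
        intro hm
        apply hne
        rw [HasAntidiagonal.mem_antidiagonal] at hp
        ext
        · exact hm.symm
        · show p.2 = k
          omega
      · intro hp
        exact absurd (HasAntidiagonal.mem_antidiagonal.2 (rfl : (m, k).1 + (m, k).2 = m + k)) hp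
    have hl : (∑ j ∈ range (μ.card + 1), (-1) ^ j * eB q t j μ * b.repr (Est q t (m + k)) μ *
        (if m = j then 1 else 0)) = (-1) ^ m * eB q t m μ * b.repr (Est q t (m + k)) μ := by
      by_cases hm : m ∈ range (μ.card + 1)
      · rw [Finset.sum_eq_single m]
        · rw [if_pos rfl, mul_one]
        · intro j _ hne
          rw [if_neg (Ne.symm hne), mul_zero]
        · intro h'
          exact absurd hm h'
      · rw [Finset.sum_eq_zero, M4c_eB_zero q t m μ (by rw [mem_range] at hm; omega), mul_zero,
          zero_mul]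
        intro j hj
        rw [if_neg, mul_zero]
        rintro rfl
        exact hm hj
    rw [hl, hr] at h
    have hs : ((-1 : K) ^ m) ≠ 0 := pow_ne_zero _ (by norm_num)
    apply mul_left_cancel₀ hs
    rw [← h]
    ring
  intro m k
  refine ⟨repr_ext b fun μ => by rw [dg_repr]; exact key2 m k μ, ?_⟩
  -- the case `k = 0`
  have hE : IsH m (Est q t m) := by
    have h2 := (pGu K q t 0 hM m).2.2.1
    rw [M4c_sgn] at h2
    have h3 : Est q t m = ((-1 : K) ^ m) • Gu q t 0 m := by
      rw [h2, smul_smul, ← pow_add, Even.neg_one_pow ⟨m, rfl⟩, one_smul]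
    rw [h3]
    exact IsH.smul _ (M4_GuH q t 0 m)
  have hE0 : Est q t 0 = (1 : Lam K) := by
    unfold Est
    rw [pow_zero, one_mul, Hs]
  have h0 : dg b (eB q t m) (Est q t m) = Hst q t m := by
    refine repr_ext b fun μ => ?_
    have h := key2 m 0 μ
    rw [add_zero, hE0, mul_one] at h
    rw [dg_repr]
    exact h
  rw [← h0]
  refine dg_congr b fun μ hμ => ?_
  have hc : μ.card = m := by
    by_contra hne
    exact hμ (hb.repr_zero hE hne)
  rw [← hc]
  exact (M4c_eB_card q t μ).symm

end Pool.VD
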