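import Pool.Agent.VD.M_EB
import Pool.Agent.VD.M_Gu

/-!
# MODULE M5
-/

set_option autoImplicit false
set_option linter.unusedSectionVars false

namespace Pool.VD

open MvPolynomial Finset

variable {K : Type} [Field K] [CharZero K]

theorem M5_GuH (q t u : K) (n : ℕ) : IsH n (Gu q t u n) := by
  refine pHsHom K _ (fun i => ?_) n
  refine IsH.neg ?_
  have h := IsH.mul (IsH.C ((1 - u ^ (i + 1)) * (Mk q t (i + 1))⁻¹)) (IsH.X i)
  rwa [zero_add] at h

theorem M5_DX (q t : K) (a i : ℕ) : Dk q t a (X i : Lam K) =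
    X i * Ep K a + C (Mk q t (i + 1)) * Ep K (a + (i + 1)) := by
  have h := Dk_X_mul q t a i 1
  rwa [mul_one, Dk_one, Dk_one] at h

theorem pM5 (hGqF : StGqF) (hB : StB) (hE1 : StE1) : StM5 := by
  intro K _ _ q t hq b hb n hn
  obtain ⟨hq0, ht0, hqt, -, -, hM, -, -, -⟩ := hGqF K q t hq
  obtain ⟨-, -, hP, hP0⟩ := hE1 K q t hq b hb
  have hE0 : Ep K 0 = 1 := by rw [Ep, Hs_zero]
  have hE1' : Ep K 1 = -X 0 := by rw [Ep, Hs_one]
  have key : ∀ m : ℕ, dg b (Pm q t) (Gu q t 0 (m + 1)) = -(C ((Mk q t (m + 1))⁻¹) * X m) := by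
    intro m
    induction m with
    | zero =>
      have h1 : Gu q t 0 1 = -(C ((Mk q t 1)⁻¹) * X 0) := by
        rw [Gu, Hs_one]
        simp
      rw [zero_add, h1, map_neg, ← MvPolynomial.smul_eq_C_mul, map_smul, hP0]
    | succ m ih =>
      have h0 := (pGu K q t 0 hM (m + 1)).1
      rw [zero_smul, add_zero] at h0
      have h2 := congrArg (dg b (Pm q t)) h0
      rw [map_sub, ← hb.d0_comm, hP (m + 1) _ (by omega) (M5_GuH q t 0 (m + 1)), ih] at h2
      have hCm : ∀ k, (C (Mk q t (k + 1))⁻¹ : Lam K) * C (Mk q t (k + 1)) = 1 := by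
        intro k
        rw [← map_mul, inv_mul_cancel₀ (hM k), map_one]
      have hD : ∀ (a k : ℕ), Dk q t a (C (Mk q t (k + 1))⁻¹ * X k : Lam K) =
          C (Mk q t (k + 1))⁻¹ * X k * Ep K a + Ep K (a + (k + 1)) := by
        intro a k
        rw [← MvPolynomial.smul_eq_C_mul, map_smul, M5_DX, MvPolynomial.smul_eq_C_mul,
          MvPolynomial.smul_eq_C_mul, mul_add]
        have := hCm k
        linear_combination Ep K (a + (k + 1)) * this
      rw [← sub_eq_zero, sub_neg_eq_add]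
      refine hb.inj (hM 0) (Bm_zero_of hB hq) (n := m + 1 + 1) (by omega) ?_ ?_
      · refine (hb.dg_isH _ (M5_GuH q t 0 (m + 1 + 1))).add ?_
        have h := IsH.mul (IsH.C (K := K) ((Mk q t (m + 1 + 1))⁻¹)) (IsH.X (m + 1))
        rwa [zero_add] at h
      · rw [map_add, hD 0 (m + 1), hE0, mul_one, zero_add]
        rw [map_neg, hD 1 m, hE1'] at h2
        rw [show 1 + (m + 1) = m + 1 + 1 by omega] at h2
        linear_combination h2
  obtain ⟨m, rfl⟩ : ∃ m, n = m + 1 := ⟨n - 1, by omega⟩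
  have h3 := (pGu K q t 0 hM (m + 1)).2.2.1
  have h4 : Est q t (m + 1) = (-1 : K) ^ (m + 1) • Gu q t 0 (m + 1) := by
    rw [h3, MvPolynomial.smul_eq_C_mul, map_pow, map_neg, map_one, ← mul_assoc, ← mul_pow]
    simp
  rw [h4, map_smul, key, omp, Nat.add_sub_cancel, smul_neg, smul_neg,
    MvPolynomial.smul_eq_C_mul, MvPolynomial.smul_eq_C_mul]
  have hCm : (C (Mk q t (m + 1)) : Lam K) * C (Mk q t (m + 1))⁻¹ = 1 := by
    rw [← map_mul, mul_inv_cancel₀ (hM m), map_one]
  rw [map_pow, map_neg, map_one, pow_succ]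
  linear_combination (-1) ^ m * X m * hCm

end Pool.VD
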