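import Pool.Agent.VD.StM

/-!
# MP_cf06d4_co, group V, module MF
-/

set_option autoImplicit false

namespace Pool.VD

open MvPolynomial Finset

private theorem MF_deg {K : Type} [Field K] [CharZero K]
    (b : Module.Basis YoungDiagram K (Lam K)) (hb : ∀ μ, IsH μ.card (b μ)) (f : Lam K) (n : ℕ)
    (hf : IsH n f) (μ : YoungDiagram) (hne : b.repr f μ ≠ 0) : μ.card = n := by
  classical
  have key : (b.coord μ).comp (weightedHomogeneousComponent (fun i : ℕ => i + 1) μ.card) =
      b.coord μ := by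
    refine b.ext fun ν => ?_
    simp only [LinearMap.comp_apply, Module.Basis.coord_apply]
    by_cases e : ν.card = μ.card
    · rw [← e, (hb ν).weightedHomogeneousComponent_same]
    · rw [(hb ν).weightedHomogeneousComponent_ne _ (Ne.symm e), map_zero,
        Module.Basis.repr_self, Finsupp.single_eq_of_ne]
      · rfl
      · rintro rfl
        exact e rfl
  by_contra hcon
  have h1 := LinearMap.congr_fun key f
  simp only [LinearMap.comp_apply, Module.Basis.coord_apply] at h1
  rw [IsWeightedHomogeneous.weightedHomogeneousComponent_ne _ hf hcon, map_zero] at h1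
  exact hne h1.symm

private theorem MF_dg {K : Type} [Field K] [CharZero K]
    (b : Module.Basis YoungDiagram K (Lam K)) (φ : YoungDiagram → K) (μ : YoungDiagram) :
    dg b φ (b μ) = φ μ • b μ := by
  unfold dg
  exact b.constr_basis K _ μ

private theorem MF_comm {K : Type} [Field K] [CharZero K]
    (b : Module.Basis YoungDiagram K (Lam K)) (φ ψ : YoungDiagram → K) (f : Lam K) :
    dg b φ (dg b ψ f) = dg b ψ (dg b φ f) := by
  have key : (dg b φ).comp (dg b ψ) = (dg b ψ).comp (dg b φ) := by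
    refine b.ext fun ν => ?_
    simp only [LinearMap.comp_apply, MF_dg, map_smul]
    rw [smul_comm]
  exact LinearMap.congr_fun key f

private theorem MF_agree {K : Type} [Field K] [CharZero K]
    (b : Module.Basis YoungDiagram K (Lam K)) (hb : ∀ μ, IsH μ.card (b μ)) (n : ℕ)
    (D D' : Lam K →ₗ[K] Lam K) (h : ∀ μ : YoungDiagram, μ.card = n → D (b μ) = D' (b μ))
    (f : Lam K) (hf : IsH n f) : D f = D' f := by
  classical
  have e := b.linearCombination_repr f
  rw [← e, Finsupp.linearCombination_apply, Finsupp.sum, map_sum, map_sum]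
  refine Finset.sum_congr rfl fun μ hμ => ?_
  rw [map_smul, map_smul, h μ (MF_deg b hb f n hf μ (Finsupp.mem_support_iff.1 hμ))]

private theorem MF_omp {K : Type} [Field K] (n : ℕ) (hn : 1 ≤ n) : IsH n (omp K n) := by
  unfold omp
  have h1 : IsH (n - 1 + 1) (X (n - 1) : Lam K) := isWeightedHomogeneous_X _ _ (n - 1)
  rw [Nat.sub_add_cancel hn] at h1
  have h2 : ((-1 : Lam K) ^ (n - 1)) = C ((-1 : K) ^ (n - 1)) := by
    rw [map_pow, map_neg, map_one]
  rw [h2]
  exact IsWeightedHomogeneous.C_mul h1 _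

private theorem MF_est {K : Type} [Field K] [CharZero K] (hHsHom : StHsHom) (q t : K) (n : ℕ) :
    IsH n (Est q t n) := by
  unfold Est
  have h1 : IsH n (Hs (fun i => -(C (Mk q t (i + 1))⁻¹ * X i : Lam K)) n) := by
    refine hHsHom K _ (fun i => ?_) n
    exact IsWeightedHomogeneous.neg
      (IsWeightedHomogeneous.C_mul (isWeightedHomogeneous_X _ _ i) _)
  have h2 : ((-1 : Lam K) ^ n) = C ((-1 : K) ^ n) := by
    rw [map_pow, map_neg, map_one]
  rw [h2]
  exact IsWeightedHomogeneous.C_mul h1 _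

private theorem MF_qn {K : Type} [Field K] (q : K) (n : ℕ) : (1 - q) * qn q n = 1 - q ^ n := by
  unfold qn
  exact mul_neg_geom_sum q n

theorem pMF (hEig : StEig) (hMac : StMac) (hE1 : StE1) (hNabU : StNabU) (hM4c : StM4c)
    (hM5 : StM5) (hTh : StTh) (hGqF : StGqF) (hHsHom : StHsHom) : StMF := by
  intro K _ _ q t hG m k hm D N hD hN
  obtain ⟨b, hb⟩ := hEig K q t hG
  obtain ⟨-, -, -, hq1, ht1, hM, -, -, -⟩ := hGqF K q t hG
  have hN' : N = dg b (Tm q t) := hNabU K q t (hM 0) N _ hN (hE1 K q t hG b hb).1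
  have hn : 1 ≤ m + k := by omega
  have hMn : Mk q t (m + k) ≠ 0 := by
    have := hM (m + k - 1)
    rwa [Nat.sub_add_cancel hn] at this
  have hMm : Mk q t m ≠ 0 := by
    have := hM (m - 1)
    rwa [Nat.sub_add_cancel hm] at this
  -- `D` on the degree `m + k`
  have hDf : ∀ f, IsH (m + k) f → D f = dg b (eB q t m) f := by
    intro f hf
    refine MF_agree b hb.hom (m + k) D _ (fun μ hμ => ?_) f hf
    rw [MF_dg]
    exact hD μ (b μ) hμ ((hMac K q t hG b hb μ (b μ)).2 ⟨1, one_ne_zero, (one_smul K _).symm⟩)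
  have hPn := hM5 K q t hG b hb (m + k) hn
  have hPm := hM5 K q t hG b hb m hm
  have hPm' : dg b (Pm q t) (Est q t m) = (Mk q t m)⁻¹ • omp K m := by
    rw [← hPm, smul_smul, inv_mul_cancel₀ hMm, one_smul]
  have h4 := hM4c K q t hG b hb m k
  have hT := hTh K q t hG b hb k m (Est q t m) hm (MF_est hHsHom q t m)
  have key : D (omp K (m + k)) = (Mk q t (m + k) * (Mk q t m)⁻¹) •
      ∑ p ∈ antidiagonal k, (-1 : K) ^ p.2 • (Est q t p.1 * N (Est q t p.2 * omp K m)) := by
    rw [hDf _ (MF_omp _ hn), ← hPn, map_smul, MF_comm, h4.1, mul_comm (Hst q t m), ← h4.2, hT,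
      mul_smul]
    congr 1
    rw [Finset.smul_sum]
    refine Finset.sum_congr rfl fun p _ => ?_
    rw [hPm', hN', mul_smul_comm, map_smul, mul_smul_comm, smul_comm]
  rw [key, smul_smul]
  congr 1
  have a1 : qn q m ≠ 0 := by
    intro h
    have h1 := MF_qn q m
    rw [h, mul_zero] at h1
    have h2 := hq1 (m - 1)
    rw [Nat.sub_add_cancel hm] at h2
    exact h2 (sub_eq_zero.1 h1.symm).symm
  have a2 : qn q (m + k) ≠ 0 := by
    intro h
    have h1 := MF_qn q (m + k)
    rw [h, mul_zero] at h1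
    have h2 := hq1 (m + k - 1)
    rw [Nat.sub_add_cancel hn] at h2
    exact h2 (sub_eq_zero.1 h1.symm).symm
  have a3 : qn t m ≠ 0 := by
    intro h
    have h1 := MF_qn t m
    rw [h, mul_zero] at h1
    have h2 := ht1 (m - 1)
    rw [Nat.sub_add_cancel hm] at h2
    exact h2 (sub_eq_zero.1 h1.symm).symm
  have c1 : (1 - q) ≠ 0 := by
    intro h
    have h2 := hq1 0
    rw [zero_add, pow_one] at h2
    exact h2 (sub_eq_zero.1 h).symm
  have c2 : (1 - t) ≠ 0 := by
    intro h
    have h2 := ht1 0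
    rw [zero_add, pow_one] at h2
    exact h2 (sub_eq_zero.1 h).symm
  unfold Mk
  rw [← MF_qn q (m + k), ← MF_qn t (m + k), ← MF_qn q m, ← MF_qn t m]
  field_simp

end Pool.VD
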