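import Pool.Agent.VD.StM

/-!
# MP_cf06d4_co, block M, module MX: existence of the Macdonald polynomials, of Delta and of nabla
-/

set_option autoImplicit false

namespace Pool.VD

open MvPolynomial Finset

private theorem MX_dg {K : Type} [Field K] [CharZero K] (b : Module.Basis YoungDiagram K (Lam K))
    (φ : YoungDiagram → K) (μ : YoungDiagram) : dg b φ (b μ) = φ μ • b μ := by
  rw [dg, Module.Basis.constr_basis]

theorem pMX (hEig : StEig) (hMac : StMac) (hE1 : StE1) : StMX := by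
  intro K _ _ q t hqt
  obtain ⟨b, hb⟩ := hEig K q t hqt
  refine ⟨fun μ => ⟨b μ, ?_⟩, fun n m => ⟨dg b (eB q t m), ?_⟩, dg b (Tm q t), ?_⟩
  · exact (hMac K q t hqt b hb μ (b μ)).2 ⟨1, one_ne_zero, (one_smul K (b μ)).symm⟩
  · intro μ H _ hH
    obtain ⟨a, -, rfl⟩ := (hMac K q t hqt b hb μ H).1 hH
    rw [map_smul, MX_dg, smul_comm]
  · exact (hE1 K q t hqt b hb).1

end Pool.VD
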