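import Pool.Agent.VD.StM

/-!
# MP_cf06d4_co, block M: module Mac (Macdonald polynomials are the eigenvectors)
-/

set_option autoImplicit false

namespace Pool.VD

open MvPolynomial Finset

variable {K : Type} [Field K] [CharZero K]

private theorem Mac_scal_X (c : ℕ → K) (i : ℕ) : scal c (X i : Lam K) = C (c i) * X i := by
  simp [scal]

private theorem Mac_scal_scal (c d : ℕ → K) (h : ∀ i, c i * d i = 1) (f : Lam K) :
    scal c (scal d f) = f := by
  have h1 : (scal c).comp (scal d) = AlgHom.id K (Lam K) := by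
    refine MvPolynomial.algHom_ext fun i => ?_
    rw [AlgHom.comp_apply, Mac_scal_X, map_mul, Mac_scal_X]
    have h2 : scal c (C (d i) : Lam K) = C (d i) := by
      exact (scal c).commutes (d i)
    rw [h2, AlgHom.id_apply, ← mul_assoc, ← C_mul, mul_comm (d i), h i, C_1, one_mul]
  exact DFunLike.congr_fun h1 f

private theorem Mac_HZ (hHsMap : StHsMap) (q : K) (z : ℤ) :
    scal (fun i => (1 - q ^ (i + 1))⁻¹) (HZ (fun i => (X i : Lam K)) z) = HZ (gq q) z := by
  unfold HZ
  split_ifs with h
  · have h1 := hHsMap (Lam K) (Lam K) (scal (fun i => (1 - q ^ (i + 1))⁻¹)).toRingHom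
      (fun i => (X i : Lam K)) z.toNat
    have h2 : (fun i => (scal (fun i => (1 - q ^ (i + 1))⁻¹)).toRingHom (X i : Lam K)) = gq q := by
      funext i
      exact Mac_scal_X _ i
    rw [h2] at h1
    exact h1
  · exact map_zero _

private theorem Mac_schur (hHsMap : StHsMap) (q : K) (lam : YoungDiagram) :
    scal (fun i => (1 - q ^ (i + 1))⁻¹) (schur K lam) = JT (gq q) lam := by
  unfold schur JT
  rw [AlgHom.map_det]
  congr 1
  ext i j
  simp only [AlgHom.mapMatrix_apply, Matrix.map_apply, Matrix.of_apply]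
  rw [Mac_HZ hHsMap]

private theorem Mac_ax (hHsMap : StHsMap) (hSpan : StSpan) (q : K) (hq : ∀ k, q ^ (k + 1) ≠ 1)
    (μ : YoungDiagram) (H : Lam K) :
    scal (fun i => 1 - q ^ (i + 1)) H ∈
      Submodule.span K {f : Lam K | ∃ lam : YoungDiagram, Dom μ lam ∧ f = schur K lam} ↔
    H ∈ Uge (gq q) μ := by
  have hc : ∀ i : ℕ, (1 - q ^ (i + 1)) ≠ 0 := fun i => sub_ne_zero.2 (Ne.symm (hq i))
  have e1 : ∀ f : Lam K, scal (fun i => (1 - q ^ (i + 1))⁻¹) (scal (fun i => 1 - q ^ (i + 1)) f) = f :=
    Mac_scal_scal _ _ fun i => inv_mul_cancel₀ (hc i)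
  have e2 : ∀ f : Lam K, scal (fun i => 1 - q ^ (i + 1)) (scal (fun i => (1 - q ^ (i + 1))⁻¹) f) = f :=
    Mac_scal_scal _ _ fun i => mul_inv_cancel₀ (hc i)
  rw [← hSpan K (gq q) μ]
  constructor
  · intro h
    rw [← e1 H]
    have h1 := Submodule.mem_map_of_mem (f := (scal (fun i => (1 - q ^ (i + 1))⁻¹)).toLinearMap) h
    rw [Submodule.map_span] at h1
    refine Submodule.span_mono ?_ h1
    rintro _ ⟨f, ⟨lam, hl, rfl⟩, rfl⟩
    exact ⟨lam, hl, Mac_schur hHsMap q lam⟩
  · intro h
    have h1 := Submodule.mem_map_of_mem (f := (scal (fun i => 1 - q ^ (i + 1))).toLinearMap) h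
    rw [Submodule.map_span] at h1
    refine Submodule.span_mono ?_ h1
    rintro _ ⟨f, ⟨lam, hl, rfl⟩, rfl⟩
    refine ⟨lam, hl, ?_⟩
    show scal (fun i => 1 - q ^ (i + 1)) (JT (gq q) lam) = schur K lam
    rw [← Mac_schur hHsMap, e2]

private theorem Mac_Dk (q t : K) (k : ℕ) : Dk t q k = Dk q t k := by
  unfold Dk
  congr 1
  funext i
  unfold Mk
  ring

private theorem Mac_set (P : YoungDiagram → Prop) (b : Module.Basis YoungDiagram K (Lam K)) :
    {f : Lam K | ∃ lam, P lam ∧ f = b lam} = b '' {lam | P lam} := by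
  ext f
  constructor
  · rintro ⟨lam, h, rfl⟩
    exact ⟨lam, h, rfl⟩
  · rintro ⟨lam, h, rfl⟩
    exact ⟨lam, h, rfl⟩

/-- **Module Mac.** -/
theorem pMac (hEig : StEig) (hSpan : StSpan) (hHsMap : StHsMap) (hB : StB) (hDomT : StDomT)
    (hGqF : StGqF) : StMac := by
  intro K _ _ q t hg b hb μ H
  obtain ⟨hq0, ht0, hqt, hq, ht, hM, hM', hg', hx⟩ := hGqF K q t hg
  obtain ⟨b', hb'⟩ := hEig K t q hg'
  obtain ⟨hB1, hB2, hB3, hB4⟩ := hB K q t
  -- eigenvalues are distinct
  have hinj : ∀ ν lam : YoungDiagram, cm q t ν = cm q t lam → ν = lam := by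
    intro ν lam h
    refine hB1 hg _ _ ?_
    unfold cm at h
    have h1 : Mk q t 1 * Bm q t ν = Mk q t 1 * Bm q t lam := by linear_combination -h
    exact mul_left_cancel₀ (hM 0) h1
  -- the two bases
  have hbb : ∀ lam : YoungDiagram, ∃ a : K, a ≠ 0 ∧ b' lam = a • b lam.transpose := by
    intro lam
    have h1 : Dk q t 0 (b' lam) = cm q t lam.transpose • b' lam := by
      rw [← Mac_Dk, hb'.d0, ← hB3 lam.transpose, YoungDiagram.transpose_transpose]
    have h2 : ∀ ν, ν ≠ lam.transpose → b.repr (b' lam) ν = 0 := by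
      intro ν hν
      have h3 : b.repr (Dk q t 0 (b' lam)) ν = cm q t ν * b.repr (b' lam) ν := by
        have h4 : (b.coord ν).comp (Dk q t 0) = cm q t ν • b.coord ν := by
          refine b.ext fun κ => ?_
          simp only [LinearMap.comp_apply, LinearMap.smul_apply, hb.d0, map_smul, smul_eq_mul,
            Module.Basis.coord_apply, Module.Basis.repr_self]
          rcases eq_or_ne κ ν with rfl | hne
          · rfl
          · rw [Finsupp.single_eq_of_ne (Ne.symm hne), mul_zero, mul_zero]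
        have h5 := DFunLike.congr_fun h4 (b' lam)
        simpa using h5
      rw [h1, map_smul, Finsupp.smul_apply, smul_eq_mul] at h3
      have h6 : (cm q t lam.transpose - cm q t ν) * b.repr (b' lam) ν = 0 := by
        linear_combination h3
      rcases mul_eq_zero.1 h6 with h7 | h7
      · exact absurd (hinj _ _ (sub_eq_zero.1 h7)).symm hν
      · exact h7
    have h3 : b' lam = b.repr (b' lam) lam.transpose • b lam.transpose := by
      apply b.repr.injective
      rw [map_smul, b.repr_self]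
      ext ν
      rcases eq_or_ne ν lam.transpose with rfl | hne
      · simp
      · rw [h2 ν hne, Finsupp.smul_apply, Finsupp.single_eq_of_ne hne, smul_zero]
    refine ⟨_, ?_, h3⟩
    intro h0
    rw [h0, zero_smul] at h3
    exact b'.ne_zero lam h3
  have hax1 : scal (fun i => 1 - q ^ (i + 1)) H ∈
      Submodule.span K {f : Lam K | ∃ lam : YoungDiagram, Dom μ lam ∧ f = schur K lam} ↔
      (↑(b.repr H).support : Set YoungDiagram) ⊆ {lam | Dom μ lam} := by
    rw [Mac_ax hHsMap hSpan q hq, ← hb.sp μ, Mac_set, Module.Basis.mem_span_image]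
  have hax2 : scal (fun i => 1 - t ^ (i + 1)) H ∈
      Submodule.span K {f : Lam K | ∃ lam : YoungDiagram, Dom μ.transpose lam ∧ f = schur K lam} ↔
      (↑(b.repr H).support : Set YoungDiagram) ⊆ {lam | Dom μ.transpose lam.transpose} := by
    rw [Mac_ax hHsMap hSpan t ht, ← hb'.sp μ.transpose, ← Module.Basis.mem_span_image, ← Mac_set]
    have h1 : Submodule.span K {f : Lam K | ∃ lam, Dom μ.transpose lam ∧ f = b' lam} =
        Submodule.span K {f : Lam K | ∃ lam : YoungDiagram, Dom μ.transpose lam.transpose ∧ f = b lam} := by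
      apply le_antisymm
      · rw [Submodule.span_le]
        rintro _ ⟨lam, hl, rfl⟩
        obtain ⟨a, -, ha⟩ := hbb lam
        rw [ha]
        refine Submodule.smul_mem _ _ (Submodule.subset_span ⟨lam.transpose, ?_, rfl⟩)
        rwa [YoungDiagram.transpose_transpose]
      · rw [Submodule.span_le]
        rintro _ ⟨lam, hl, rfl⟩
        obtain ⟨a, ha0, ha⟩ := hbb lam.transpose
        rw [YoungDiagram.transpose_transpose] at ha
        have h2 : b lam = a⁻¹ • b' lam.transpose := by
          rw [ha, smul_smul, inv_mul_cancel₀ ha0, one_smul]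
        rw [h2]
        exact Submodule.smul_mem _ _ (Submodule.subset_span ⟨lam.transpose, hl, rfl⟩)
    rw [h1]
  constructor
  · rintro ⟨hne, h1, h2⟩
    rw [hax1] at h1
    rw [hax2] at h2
    have h3 : ∀ ν, ν ≠ μ → b.repr H ν = 0 := by
      intro ν hν
      by_contra h
      have h4 : ν ∈ (b.repr H).support := Finsupp.mem_support_iff.2 h
      exact hν (hDomT μ ν (h1 h4) (h2 h4))
    have h4 : H = b.repr H μ • b μ := by
      apply b.repr.injective
      rw [map_smul, b.repr_self]
      ext ν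
      rcases eq_or_ne ν μ with rfl | hne
      · simp
      · rw [h3 ν hne, Finsupp.smul_apply, Finsupp.single_eq_of_ne hne, smul_zero]
    refine ⟨_, ?_, h4⟩
    intro h0
    rw [h0, zero_smul] at h4
    exact hne h4
  · rintro ⟨a, ha, rfl⟩
    have hs : ∀ ν ∈ (b.repr (a • b μ)).support, ν = μ := by
      intro ν hν
      rw [map_smul, b.repr_self, Finsupp.mem_support_iff, Finsupp.smul_apply] at hν
      by_contra hne
      exact hν (by rw [Finsupp.single_eq_of_ne hne, smul_zero])
    refine ⟨?_, hax1.2 ?_, hax2.2 ?_⟩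
    · exact smul_ne_zero ha (b.ne_zero μ)
    · intro ν hν
      rw [hs ν hν]
      exact ⟨rfl, fun _ => le_rfl⟩
    · intro ν hν
      rw [hs ν hν]
      exact ⟨rfl, fun _ => le_rfl⟩

end Pool.VD
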