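import Pool.Agent.VD.StM

/-!
# MP_cf06d4_co, block M, module Th: the Theta formula
-/

set_option autoImplicit false

namespace Pool.VD

open MvPolynomial Finset

section Th

variable {K : Type} [Field K]

private theorem Th_dg_basis (b : Module.Basis YoungDiagram K (Lam K)) (φ : YoungDiagram → K) (μ : YoungDiagram) :
    dg b φ (b μ) = φ μ • b μ := by
  simp [dg]

private theorem Th_dg_comm (b : Module.Basis YoungDiagram K (Lam K)) (φ ψ : YoungDiagram → K) (f : Lam K) :
    dg b φ (dg b ψ f) = dg b ψ (dg b φ f) := by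
  have h : dg b φ ∘ₗ dg b ψ = dg b ψ ∘ₗ dg b φ := by
    apply b.ext
    intro μ
    simp only [LinearMap.comp_apply, Th_dg_basis, map_smul, smul_smul]
    rw [mul_comm]
  exact LinearMap.congr_fun h f

variable [CharZero K]

private theorem Th_dg_D0 {q t : K} {b : Module.Basis YoungDiagram K (Lam K)} (hb : EB q t b)
    (φ : YoungDiagram → K) (f : Lam K) :
    Dk q t 0 (dg b φ f) = dg b φ (Dk q t 0 f) := by
  have h : Dk q t 0 ∘ₗ dg b φ = dg b φ ∘ₗ Dk q t 0 := by
    apply b.ext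
    intro μ
    simp only [LinearMap.comp_apply, Th_dg_basis, map_smul, hb.d0, smul_smul]
    rw [mul_comm]
  exact LinearMap.congr_fun h f

private theorem Th_dg_hom {q t : K} {b : Module.Basis YoungDiagram K (Lam K)} (hb : EB q t b)
    (φ : YoungDiagram → K) {n : ℕ} {f : Lam K} (hf : IsH n f) : IsH n (dg b φ f) := by
  have h : (weightedHomogeneousComponent (fun i : ℕ => i + 1) n : Lam K →ₗ[K] Lam K) ∘ₗ dg b φ =
      dg b φ ∘ₗ (weightedHomogeneousComponent (fun i : ℕ => i + 1) n : Lam K →ₗ[K] Lam K) := by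
    apply b.ext
    intro μ
    have h1 : weightedHomogeneousComponent (fun i : ℕ => i + 1) n (b μ) =
        if n = μ.card then b μ else 0 :=
      weightedHomogeneousComponent_of_mem
        ((mem_weightedHomogeneousSubmodule K (fun i : ℕ => i + 1) μ.card (b μ)).2 (hb.hom μ))
    simp only [LinearMap.comp_apply, Th_dg_basis, map_smul, h1]
    by_cases hc : n = μ.card
    · simp [hc, Th_dg_basis]
    · simp [hc]
  have h2 := LinearMap.congr_fun h f
  simp only [LinearMap.comp_apply] at h2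
  have h3 : weightedHomogeneousComponent (fun i : ℕ => i + 1) n f = f := by
    have := weightedHomogeneousComponent_of_mem (m := n)
      ((mem_weightedHomogeneousSubmodule K (fun i : ℕ => i + 1) n f).2 hf)
    rw [this, if_pos rfl]
  rw [h3] at h2
  rw [← h2]
  exact weightedHomogeneousComponent_isWeightedHomogeneous _ _

/-- the left side `f ↦ Pi (e*_k N f)` -/
private noncomputable def Th_A (q t : K) (b : Module.Basis YoungDiagram K (Lam K)) (k : ℕ) : Lam K →ₗ[K] Lam K :=
  dg b (Pm q t) ∘ₗ mulL (Est q t k) ∘ₗ dg b (Tm q t)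

/-- the right side -/
private noncomputable def Th_B (q t : K) (b : Module.Basis YoungDiagram K (Lam K)) (k : ℕ) : Lam K →ₗ[K] Lam K :=
  ∑ p ∈ antidiagonal k, (-1 : K) ^ p.2 •
    (mulL (Est q t p.1) ∘ₗ dg b (Tm q t) ∘ₗ mulL (Est q t p.2) ∘ₗ dg b (Pm q t))

private theorem Th_A_apply (q t : K) (b : Module.Basis YoungDiagram K (Lam K)) (k : ℕ) (f : Lam K) :
    Th_A q t b k f = dg b (Pm q t) (Est q t k * dg b (Tm q t) f) := by
  simp [Th_A, mulL]

private theorem Th_B_apply (q t : K) (b : Module.Basis YoungDiagram K (Lam K)) (k : ℕ) (f : Lam K) :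
    Th_B q t b k f = ∑ p ∈ antidiagonal k, (-1 : K) ^ p.2 •
      (Est q t p.1 * dg b (Tm q t) (Est q t p.2 * dg b (Pm q t) f)) := by
  simp [Th_B, mulL, LinearMap.sum_apply]

private theorem Th_Est0 (q t : K) : Est q t 0 = (1 : Lam K) := by
  simp [Est, Hs]

private theorem Th_Est_hom (hHsHom : StHsHom) (q t : K) (n : ℕ) : IsH n (Est q t n : Lam K) := by
  unfold Est
  have h1 : IsH n (Hs (fun i => -(C (Mk q t (i + 1))⁻¹ * X i : Lam K)) n) := by
    apply hHsHom K
    intro i
    have h2 : IsWeightedHomogeneous (fun i : ℕ => i + 1) (C (-(Mk q t (i + 1))⁻¹) * X i : Lam K)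
        (0 + (i + 1)) :=
      (isWeightedHomogeneous_C _ _).mul (isWeightedHomogeneous_X K (fun i : ℕ => i + 1) i)
    rw [zero_add] at h2
    unfold IsH
    have h3 : (-(C (Mk q t (i + 1))⁻¹ * X i : Lam K)) = C (-(Mk q t (i + 1))⁻¹) * X i := by
      rw [map_neg]; ring
    rw [h3]
    exact h2
  have h2 : ((-1 : Lam K) ^ n) = C ((-1 : K) ^ n) := by simp
  rw [h2]
  have h3 := (isWeightedHomogeneous_C (fun i : ℕ => i + 1) ((-1 : K) ^ n)).mul h1
  rw [zero_add] at h3
  exact h3

private theorem Th_A_hom (hHsHom : StHsHom) {q t : K} {b : Module.Basis YoungDiagram K (Lam K)} (hb : EB q t b)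
    (k n : ℕ) (f : Lam K) (hf : IsH n f) : IsH (n + k) (Th_A q t b k f) := by
  rw [Th_A_apply]
  apply Th_dg_hom hb
  have h1 := (Th_Est_hom hHsHom q t k).mul (Th_dg_hom hb (Tm q t) hf)
  rw [add_comm] at h1
  exact h1

private theorem Th_B_hom (hHsHom : StHsHom) {q t : K} {b : Module.Basis YoungDiagram K (Lam K)} (hb : EB q t b)
    (k n : ℕ) (f : Lam K) (hf : IsH n f) : IsH (n + k) (Th_B q t b k f) := by
  rw [Th_B_apply]
  unfold IsH
  rw [← mem_weightedHomogeneousSubmodule]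
  apply Submodule.sum_mem
  intro p hp
  rw [HasAntidiagonal.mem_antidiagonal] at hp
  apply Submodule.smul_mem
  rw [mem_weightedHomogeneousSubmodule]
  have h1 := (Th_Est_hom hHsHom q t p.2).mul (Th_dg_hom hb (Pm q t) hf)
  have h2 := (Th_Est_hom hHsHom q t p.1).mul (Th_dg_hom hb (Tm q t) h1)
  have h3 : p.1 + (p.2 + n) = n + k := by omega
  rw [h3] at h2
  exact h2

/-- `D_0 A_(k+1) f = A_(k+1) D_0 f - A_k (e_1 f)` -/
private theorem Th_A_rec (hDEst : StDEst) {q t : K} (hM : ∀ k, Mk q t (k + 1) ≠ 0)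
    {b : Module.Basis YoungDiagram K (Lam K)} (hb : EB q t b) (hN : IsNabla q t (dg b (Tm q t)))
    (k : ℕ) (f : Lam K) :
    Dk q t 0 (Th_A q t b (k + 1) f) = Th_A q t b (k + 1) (Dk q t 0 f) - Th_A q t b k (X 0 * f) := by
  have h1 := hDEst K q t hM 0 k (dg b (Tm q t) f)
  rw [zero_add] at h1
  rw [Th_A_apply, Th_A_apply, Th_A_apply, Th_dg_D0 hb, h1, ← hN.d0, hN.e1]
  simp only [mul_neg, map_neg, map_add]
  ring

private theorem Th_D1N {q t : K} {b : Module.Basis YoungDiagram K (Lam K)} (hN : IsNabla q t (dg b (Tm q t)))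
    (g : Lam K) : Dk q t 1 (dg b (Tm q t) g) = -dg b (Tm q t) (X 0 * g) := by
  rw [hN.e1, neg_neg]

/-- `D_0 (e*_i g)` for every `i` -/
private theorem Th_D0E (hDEst : StDEst) {q t : K} (hM : ∀ k, Mk q t (k + 1) ≠ 0) (i : ℕ) (g : Lam K) :
    Dk q t 0 (Est q t i * g) = Est q t i * Dk q t 0 g +
      (if i = 0 then 0 else Est q t (i - 1) * Dk q t 1 g) := by
  cases i with
  | zero => simp [Th_Est0]
  | succ i =>
    have h1 := hDEst K q t hM 0 i g
    rw [zero_add] at h1
    rw [h1]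
    simp

/-- `D_0 B_(k+1) f = B_(k+1) D_0 f - B_k (e_1 f)` -/
private theorem Th_B_rec (hDEst : StDEst) {q t : K} (hM : ∀ k, Mk q t (k + 1) ≠ 0)
    {b : Module.Basis YoungDiagram K (Lam K)} (hb : EB q t b) (hN : IsNabla q t (dg b (Tm q t)))
    (k : ℕ) (f : Lam K)
    (hP : dg b (Pm q t) (X 0 * f) = X 0 * dg b (Pm q t) f + Dk q t 1 (dg b (Pm q t) f)) :
    Dk q t 0 (Th_B q t b (k + 1) f) = Th_B q t b (k + 1) (Dk q t 0 f) - Th_B q t b k (X 0 * f) := by
  have hterm : ∀ p : ℕ × ℕ, Dk q t 0 (Est q t p.1 * dg b (Tm q t) (Est q t p.2 * dg b (Pm q t) f)) =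
      Est q t p.1 * dg b (Tm q t) (Est q t p.2 * dg b (Pm q t) (Dk q t 0 f)) +
      (if p.2 = 0 then 0 else Est q t p.1 * dg b (Tm q t) (Est q t (p.2 - 1) * Dk q t 1 (dg b (Pm q t) f))) -
      (if p.1 = 0 then 0 else Est q t (p.1 - 1) * dg b (Tm q t) (X 0 * (Est q t p.2 * dg b (Pm q t) f))) := by
    intro p
    rw [Th_D0E hDEst hM, ← hN.d0, Th_D0E hDEst hM, Th_D1N hN, Th_dg_D0 hb]
    by_cases h1 : p.1 = 0 <;> by_cases h2 : p.2 = 0 <;> simp [h1, h2, mul_add] <;> ring
  rw [Th_B_apply, Th_B_apply, Th_B_apply, map_sum]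
  simp only [map_smul, hterm, smul_add, smul_sub, sum_add_distrib, sum_sub_distrib]
  have e1 : ∑ p ∈ antidiagonal (k + 1), (-1 : K) ^ p.2 •
      (if p.2 = 0 then (0 : Lam K) else
        Est q t p.1 * dg b (Tm q t) (Est q t (p.2 - 1) * Dk q t 1 (dg b (Pm q t) f))) =
      -∑ p ∈ antidiagonal k, (-1 : K) ^ p.2 •
        (Est q t p.1 * dg b (Tm q t) (Est q t p.2 * Dk q t 1 (dg b (Pm q t) f))) := by
    rw [Nat.sum_antidiagonal_succ']
    simp [pow_succ]
  have e2 : ∑ p ∈ antidiagonal (k + 1), (-1 : K) ^ p.2 •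
      (if p.1 = 0 then (0 : Lam K) else
        Est q t (p.1 - 1) * dg b (Tm q t) (X 0 * (Est q t p.2 * dg b (Pm q t) f))) =
      ∑ p ∈ antidiagonal k, (-1 : K) ^ p.2 •
        (Est q t p.1 * dg b (Tm q t) (X 0 * (Est q t p.2 * dg b (Pm q t) f))) := by
    rw [Nat.sum_antidiagonal_succ]
    simp
  rw [e1, e2, hP]
  have e3 : ∑ p ∈ antidiagonal k, (-1 : K) ^ p.2 •
      (Est q t p.1 * dg b (Tm q t) (Est q t p.2 * (X 0 * dg b (Pm q t) f + Dk q t 1 (dg b (Pm q t) f)))) =
      ∑ p ∈ antidiagonal k, (-1 : K) ^ p.2 •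
        (Est q t p.1 * dg b (Tm q t) (X 0 * (Est q t p.2 * dg b (Pm q t) f))) +
      ∑ p ∈ antidiagonal k, (-1 : K) ^ p.2 •
        (Est q t p.1 * dg b (Tm q t) (Est q t p.2 * Dk q t 1 (dg b (Pm q t) f))) := by
    rw [← sum_add_distrib]
    apply sum_congr rfl
    intro p _
    rw [← smul_add, ← mul_add, ← map_add]
    congr 3
    ring
  rw [e3]
  ring

end Th

theorem pTh (hDEst : StDEst) (hE1 : StE1) (hU : StU) (hHsHom : StHsHom) (hGqF : StGqF) : StTh := by
  intro K _ _ q t hq b hb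
  have hM : ∀ k, Mk q t (k + 1) ≠ 0 := (hGqF K q t hq).2.2.2.2.2.1
  obtain ⟨hN, -, hPi, -⟩ := hE1 K q t hq b hb
  have key : ∀ (k n : ℕ) (f : Lam K), 1 ≤ n → IsH n f → Th_A q t b k f = Th_B q t b k f := by
    intro k
    induction k with
    | zero =>
      intro n f _ _
      rw [Th_A_apply, Th_B_apply]
      simp only [Nat.antidiagonal_zero, sum_singleton, pow_zero, one_smul, Th_Est0, one_mul]
      exact Th_dg_comm b _ _ f
    | succ k ih =>
      intro n f hn hf
      have h1 := hU K q t hq b hb (Th_A q t b (k + 1) - Th_B q t b (k + 1)) (k + 1) (by omega)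
        (by
          intro n f hn hf
          rw [LinearMap.sub_apply]
          unfold IsH
          rw [← mem_weightedHomogeneousSubmodule]
          apply Submodule.sub_mem
          · exact (mem_weightedHomogeneousSubmodule _ _ _ _).2 (Th_A_hom hHsHom hb (k + 1) n f hf)
          · exact (mem_weightedHomogeneousSubmodule _ _ _ _).2 (Th_B_hom hHsHom hb (k + 1) n f hf))
        (by
          intro n f hn hf
          rw [LinearMap.sub_apply, LinearMap.sub_apply, map_sub, Th_A_rec hDEst hM hb hN,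
            Th_B_rec hDEst hM hb hN k f (hPi n f hn hf)]
          have h2 : IsH (n + 1) (X 0 * f) := by
            have h3 := (isWeightedHomogeneous_X K (fun i : ℕ => i + 1) 0).mul hf
            rw [zero_add, add_comm] at h3
            exact h3
          rw [ih (n + 1) (X 0 * f) (by omega) h2]
          ring)
        n f hn hf
      rw [LinearMap.sub_apply, sub_eq_zero] at h1
      exact h1
  intro k n f hn hf
  have h1 := key k n f hn hf
  rw [Th_A_apply, Th_B_apply] at h1
  exact h1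

end Pool.VD
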