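import Pool.Agent.VD.StM

/-!
# MP_cf06d4_co, block M, module U: an operator of positive degree commuting with `D_0` is 0
-/

set_option autoImplicit false

namespace Pool.VD

open MvPolynomial Finset

variable {K : Type} [Field K] [CharZero K]

private lemma U_repr (q t : K) (b : Module.Basis YoungDiagram K (Lam K)) (hb : EB q t b)
    (v : Lam K) (ν : YoungDiagram) : b.repr (Dk q t 0 v) ν = cm q t ν * b.repr v ν := by
  have h : (b.coord ν) ∘ₗ (Dk q t 0) = (cm q t ν) • (b.coord ν) := by
    refine b.ext fun μ => ?_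
    rw [LinearMap.comp_apply, hb.d0 μ, LinearMap.smul_apply, map_smul, smul_eq_mul, smul_eq_mul,
      Module.Basis.coord_apply, Module.Basis.repr_self]
    by_cases h : μ = ν
    · rw [h]
    · rw [Finsupp.single_eq_of_ne (Ne.symm h), mul_zero, mul_zero]
  have h2 := LinearMap.congr_fun h v
  simpa using h2

theorem pU (hB : StB) (hGqF : StGqF) : StU := by
  intro K _ _ q t hq b hb L k hk hL1 hL2 n f hn hf
  obtain ⟨hq0, ht0, hqt, hqk, htk, hMk, hM', hsw, hxc⟩ := hGqF K q t hq
  have hM1 : Mk q t 1 ≠ 0 := hMk 0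
  have hinj : ∀ μ ν, cm q t μ = cm q t ν → μ = ν := by
    intro μ ν h
    apply (hB K q t).1 hq
    simp only [cm] at h
    have h1 : Mk q t 1 * Bm q t μ = Mk q t 1 * Bm q t ν := by linear_combination -h
    exact mul_left_cancel₀ hM1 h1
  have h0 : ∀ μ : YoungDiagram, μ.card = n → L (b μ) = 0 := by
    intro μ hμ
    have hh : IsH n (b μ) := hμ ▸ hb.hom μ
    have e1 := hL2 n (b μ) hn hh
    rw [hb.d0 μ, map_smul] at e1
    have e2 : ∀ ν, ν ≠ μ → b.repr (L (b μ)) ν = 0 := by
      intro ν hν
      have e3 := U_repr q t b hb (L (b μ)) ν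
      rw [← e1, map_smul, Finsupp.smul_apply, smul_eq_mul] at e3
      have e4 : (cm q t μ - cm q t ν) * b.repr (L (b μ)) ν = 0 := by linear_combination e3
      rcases mul_eq_zero.1 e4 with e5 | e5
      · exact absurd (hinj μ ν (sub_eq_zero.1 e5)).symm hν
      · exact e5
    have e6 : L (b μ) = (b.repr (L (b μ)) μ) • b μ := by
      apply b.repr.injective
      ext ν
      rw [map_smul, Module.Basis.repr_self, Finsupp.smul_apply, smul_eq_mul]
      by_cases h : ν = μ
      · rw [h, Finsupp.single_eq_same, mul_one]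
      · rw [e2 ν h, Finsupp.single_eq_of_ne h, mul_zero]
    by_contra hne
    have e7 : IsH (n + k) (L (b μ)) := hL1 n (b μ) hn hh
    have e8 : IsH n (L (b μ)) := by
      rw [e6]
      exact (weightedHomogeneousSubmodule K (fun i : ℕ => i + 1) n).smul_mem _ hh
    have e9 := IsWeightedHomogeneous.inj_right hne e7 e8
    omega
  have h1 : L ∘ₗ (weightedHomogeneousComponent (fun i : ℕ => i + 1) n) = 0 := by
    refine b.ext fun μ => ?_
    rw [LinearMap.comp_apply, LinearMap.zero_apply]
    by_cases h : μ.card = n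
    · have hh : IsH n (b μ) := h ▸ hb.hom μ
      rw [IsWeightedHomogeneous.weightedHomogeneousComponent_same hh, h0 μ h]
    · rw [IsWeightedHomogeneous.weightedHomogeneousComponent_ne n (hb.hom μ) (Ne.symm h), map_zero]
  have h2 := LinearMap.congr_fun h1 f
  rw [LinearMap.comp_apply, IsWeightedHomogeneous.weightedHomogeneousComponent_same hf] at h2
  simpa using h2

end Pool.VD
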