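import Pool.Agent.VD.StM

/-!
# MP_cf06d4_co, module VoHom: the operators `D_k` raise the degree by `k`
-/

set_option autoImplicit false

namespace Pool.VD

open MvPolynomial Finset

private theorem VoHom_mono (hDX : StDX) (hVo1 : StVo1) (hHsHom : StHsHom)
    {K : Type} [Field K] [CharZero K] (m : ℕ → K) (a : ℕ → Lam K)
    (ha : ∀ i, IsH (i + 1) (a i)) (s : ℕ →₀ ℕ) (c : K) :
    ∃ n, IsH n (monomial s c : Lam K) ∧ ∀ k, IsH (n + k) (Vo m a k (monomial s c)) := by
  refine MvPolynomial.induction_on_monomial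
    (motive := fun p : Lam K => ∃ n, IsH n p ∧ ∀ k, IsH (n + k) (Vo m a k p)) ?_ ?_ s c
  · intro c
    refine ⟨0, isWeightedHomogeneous_C _ c, fun k => ?_⟩
    have h1 : (C c : Lam K) = c • (1 : Lam K) := by
      rw [MvPolynomial.smul_eq_C_mul, mul_one]
    rw [h1, map_smul, (hVo1 K m a k).1, zero_add, MvPolynomial.smul_eq_C_mul]
    exact (hHsHom K a ha k).C_mul c
  · rintro p i ⟨n, hn, hk⟩
    refine ⟨n + (i + 1), hn.mul (isWeightedHomogeneous_X K _ i), fun k => ?_⟩
    rw [mul_comm p (X i), (hDX K m a k i p 0 0).1]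
    refine IsWeightedHomogeneous.add ?_ ?_
    · have h := (isWeightedHomogeneous_X K (fun i : ℕ => i + 1) i).mul (hk k)
      have e : i + 1 + (n + k) = n + (i + 1) + k := by omega
      rw [e] at h
      exact h
    · rw [MvPolynomial.smul_eq_C_mul]
      have h := (hk (k + i + 1)).C_mul (m i)
      have e : n + (k + i + 1) = n + (i + 1) + k := by omega
      rw [e] at h
      exact h

private theorem VoHom_gen (hDX : StDX) (hVo1 : StVo1) (hHsHom : StHsHom)
    {K : Type} [Field K] [CharZero K] (m : ℕ → K) (a : ℕ → Lam K)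
    (ha : ∀ i, IsH (i + 1) (a i)) (k n : ℕ) (f : Lam K) (hf : IsH n f) :
    IsH (n + k) (Vo m a k f) := by
  rw [MvPolynomial.as_sum f, map_sum]
  refine IsWeightedHomogeneous.sum _ _ _ fun s hs => ?_
  have hs' : coeff s f ≠ 0 := MvPolynomial.mem_support_iff.1 hs
  obtain ⟨n', h1, h2⟩ := VoHom_mono hDX hVo1 hHsHom m a ha s (coeff s f)
  have e : n' = n := by
    have e1 := hf hs'
    have e2 := h1 (d := s) (by rw [coeff_monomial, if_pos rfl]; exact hs')
    exact e2.symm.trans e1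
  rw [← e]
  exact h2 k

theorem pVoHom (hDX : StDX) (hVo1 : StVo1) (hHsHom : StHsHom) : StVoHom := by
  intro K _ _ q t k n f hf
  have hX : ∀ i, IsH (i + 1) (X i : Lam K) := fun i => isWeightedHomogeneous_X K _ i
  exact ⟨VoHom_gen hDX hVo1 hHsHom _ _ (fun i => (hX i).neg) k n f hf,
    VoHom_gen hDX hVo1 hHsHom _ _ hX 0 n f hf⟩

end Pool.VD
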