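import Pool.Agent.VD.M_A
import Pool.Agent.VD.M_VoHom
import Pool.Agent.VD.M_Gu
import Pool.Agent.VD.M_GqF
import Pool.Agent.VD.M_Dom
import Pool.Agent.VD.M_DomT
import Pool.Agent.VD.M_B
import Pool.Agent.VD.M_PB
import Pool.Agent.VD.M_Lag
import Pool.Agent.VD.M_Tour
import Pool.Agent.VD.M_JT
import Pool.Agent.VD.M_VoG
import Pool.Agent.VD.M_Comp
import Pool.Agent.VD.M_JTm
import Pool.Agent.VD.M_TriG
import Pool.Agent.VD.M_Span
import Pool.Agent.VD.M_TriD
import Pool.Agent.VD.M_HPB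
import Pool.Agent.VD.M_EigA
import Pool.Agent.VD.M_Eig
import Pool.Agent.VD.M_Mac
import Pool.Agent.VD.M_Pie
import Pool.Agent.VD.M_E1
import Pool.Agent.VD.M_Cyc
import Pool.Agent.VD.M_NabU
import Pool.Agent.VD.M_U
import Pool.Agent.VD.M_M4
import Pool.Agent.VD.M_M4c
import Pool.Agent.VD.M_M5
import Pool.Agent.VD.M_Th
import Pool.Agent.VD.M_MF
import Pool.Agent.VD.M_MX
import Pool.Agent.VD.M_PieS
import Pool.Agent.VD.M_E1S
import Pool.Agent.VD.M_CycV
import Pool.Agent.VD.M_Om
import Pool.Agent.VD.M_NN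

/-!
# MP_cf06d4_co, block M: assembly (no hypotheses left)
-/

set_option autoImplicit false

namespace Pool.VD

theorem qVoHom : StVoHom := pVoHom pDX pVo1 pHsHom
theorem qDom : StDom := pDom
theorem qDomT : StDomT := pDomT
theorem qB : StB := pB
theorem qLag : StLag := pLag
theorem qTour : StTour := pTour
theorem qVoG : StVoG := pVoG pHsGeo pTrHs
theorem qJTm : StJTm := pJTm pJT qTour pComp
theorem qTriG : StTriG := pTriG qLag qTour pJT qVoG pComp qJTm
theorem qSpan : StSpan := pSpan qJTm qDom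
theorem qTriD : StTriD := pTriD qTriG qSpan qJTm qDom qB pGqF
theorem qHPB : StHPB := pHPB pHsR pHsMap
theorem qEigA : StEigA := pEigA qDom
theorem qEig : StEig := pEig qHPB qEigA qTriD pDD pGqF qB pHsHom
theorem qMac : StMac := pMac qEig qSpan pHsMap qB qDomT pGqF
theorem qPie : StPie := pPie pDX pDD pPB pGqF
theorem qE1 : StE1 := pE1 qPie
theorem qCycV : StCycV := pCycV pDX pVo1 pHsR
theorem qCyc : StCyc := pCyc qCycV
theorem qNabU : StNabU := pNabU qCyc
theorem qU : StU := pU qB pGqF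
theorem qM4 : StM4 := pM4 pGqF qB qE1
theorem qM4c : StM4c := pM4c qM4 pGqF
theorem qM5 : StM5 := pM5 pGqF qB qE1
theorem qTh : StTh := pTh pDEst qE1 qU pHsHom pGqF
/-- result: the symmetric function side of Q1 -/
theorem qMF : StMF := pMF qEig qMac qE1 qNabU qM4c qM5 qTh pGqF pHsHom
/-- result: existence of the Macdonald polynomials, Delta operators and nabla -/
theorem qMX : StMX := pMX qEig qMac qE1
theorem qPieS : StPieS := pPieS pGqF
theorem qE1S : StE1S := pE1S qPieS qPie pGqF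
/-- result: characterisation of nabla for block CM -/
theorem qNN : StNN := pNN pOm qEig qE1 qE1S qCycV pGqF


/-- the Macdonald polynomial `H_μ` exists and is unique up to a scalar -/
theorem qMacU (K : Type) [Field K] [CharZero K] (q t : K) (hg : Gq q t) (μ : YoungDiagram) :
    ∃ H : Lam K, IsMac q t μ H ∧ ∀ H' : Lam K, IsMac q t μ H' → ∃ c : K, H' = c • H := by
  obtain ⟨b, hb⟩ := qEig K q t hg
  refine ⟨b μ, (qMac K q t hg b hb μ (b μ)).2 ⟨1, one_ne_zero, (one_smul K _).symm⟩, fun H' h => ?_⟩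
  obtain ⟨a, -, ha⟩ := (qMac K q t hg b hb μ H').1 h
  exact ⟨a, ha⟩

end Pool.VD
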