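import Pool.Agent.VD.StCM

/-!
# MP_cf06d4_co, block CM, module A1: the inverses of the Hecke generators
-/

set_option autoImplicit false

namespace Pool.VD.CM

namespace A1

section

variable {K : Type} [Field K] {U : ℕ → Type} [∀ k, AddCommGroup (U k)] [∀ k, Module K (U k)]

theorem Ti_apply (q : K) (T : ∀ k, ℕ → (U k →ₗ[K] U k)) (k j : ℕ) (f : U k) :
    Ti q T k j f = q⁻¹ • (T k j f + (q - 1) • f) := rfl

theorem comb1 {V : Type} [AddCommGroup V] [Module K V] {q : K} (hq : q ≠ 0) (a : V) :
    q⁻¹ • (a + (q - 1) • a) = a := by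
  have h : a + (q - 1) • a = q • a := by
    rw [sub_smul, one_smul]
    abel
  rw [h, smul_smul, inv_mul_cancel₀ hq, one_smul]

theorem comb2 {V : Type} [AddCommGroup V] [Module K V] {q : K} (hq : q ≠ 0) (a f : V) :
    q⁻¹ • ((1 - q) • a + q • f + (q - 1) • a) = f := by
  have h : (1 - q) • a + q • f + (q - 1) • a = q • f := by
    rw [sub_smul, sub_smul, one_smul]
    abel
  rw [h, smul_smul, inv_mul_cancel₀ hq, one_smul]

end

end A1

open A1 in
theorem pA1 : StA1 := by
  intro K _ q hq U _ _ Dm Dp T h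
  have inv1 : ∀ k j (f : U k), j + 1 < k → T k j (Ti q T k j f) = f := by
    intro k j f hj
    rw [Ti_apply, map_smul, map_add, map_smul, h.quad k j f hj]
    exact comb2 hq _ _
  have inv2 : ∀ k j (f : U k), j + 1 < k → Ti q T k j (T k j f) = f := by
    intro k j f hj
    rw [Ti_apply, h.quad k j f hj]
    exact comb2 hq _ _
  refine ⟨fun k j f hj => ⟨inv1 k j f hj, inv2 k j f hj⟩, ?_, ?_, ?_, ?_, ?_, ?_⟩
  · intro k j f hj
    rw [Ti_apply, Ti_apply, map_smul, map_add, map_smul, h.dmT k j f hj]
  · intro k j f hj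
    rw [Ti_apply, Ti_apply, map_smul, map_add, map_smul, h.dpT k j f hj]
  · intro k f
    rw [Ti_apply, map_smul, map_add, map_smul, map_smul, map_add, map_smul, h.dm2 k f]
    exact comb1 hq _
  · intro k f
    rw [Ti_apply, h.dp2 k f]
    exact comb1 hq _
  · intro k j f hj
    have e1 : T k (j + 1) (T k j (Ti q T k j (Ti q T k (j + 1) (T k j f)))) = T k j f := by
      rw [inv1 k j _ (by omega), inv1 k (j + 1) _ (by omega)]
    have e2 : T k (j + 1) (T k j (T k (j + 1) (Ti q T k j (Ti q T k (j + 1) f)))) = T k j f := by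
      rw [← h.braid k j _ hj, inv1 k j _ (by omega), inv1 k (j + 1) _ (by omega)]
    have e3 := congrArg (fun x => Ti q T k j (Ti q T k (j + 1) x)) (e1.trans e2.symm)
    rw [inv2 k (j + 1) _ (by omega), inv2 k (j + 1) _ (by omega), inv2 k j _ (by omega),
      inv2 k j _ (by omega)] at e3
    exact e3
  · intro k i j f hi hj hij
    have e : T k i (T k j f) = T k j (T k i f) := by
      rcases hij with hij | hij
      · exact h.far k i j f hj hij
      · exact (h.far k j i f hi hij).symm
    rw [Ti_apply, Ti_apply, map_smul, map_add, map_smul, e]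

end Pool.VD.CM
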