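import Pool.Agent.VD.StCM
import Pool.Agent.VD.CM_D

/-!
# MP_cf06d4_co, block CM, module C10: relation (Sa) for `d_+^*`
-/

set_option autoImplicit false
set_option linter.unusedSectionVars false

namespace Pool.VD.CM

open MvPolynomial Finset

namespace C10

/-- shift of a sequence -/
def sh {R : Type} [Zero R] (c : ℕ → R) : ℕ → R
  | 0 => 0
  | n + 1 => c n

theorem sum1 {K R : Type} [Field K] [CommRing R] (φ : K →+* R) (q : K) (c : ℕ → R) (a b : ℕ) :
    ∑ j ∈ range (a + 2), φ (kb q j) * (c (a + 1 - j) * sh c (b + 1 + j)) =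
      c (a + 1) * c b + ∑ j ∈ range (a + 1), φ (kb q (j + 1)) * (c (a - j) * c (b + 1 + j)) := by
  rw [sum_range_succ', add_comm]
  congr 1
  · have h0 : kb q 0 = 1 := rfl
    have h1 : sh c (b + 1 + 0) = c b := rfl
    rw [h0, h1, map_one, one_mul, Nat.sub_zero]
  · refine sum_congr rfl fun j _ => ?_
    have h1 : sh c (b + 1 + (j + 1)) = c (b + 1 + j) := rfl
    rw [h1, Nat.succ_sub_succ]

theorem sum2 {K R : Type} [Field K] [CommRing R] (φ : K →+* R) (q : K) (c : ℕ → R) (a b : ℕ) :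
    ∑ j ∈ range (a + 2), φ (kb q j) * (sh c (a + 1 - j) * c (b + 1 + j)) =
      ∑ j ∈ range (a + 1), φ (kb q j) * (c (a - j) * c (b + 1 + j)) := by
  rw [sum_range_succ]
  have h0 : sh c (a + 1 - (a + 1)) = 0 := by rw [Nat.sub_self]; rfl
  rw [h0, zero_mul, mul_zero, add_zero]
  refine sum_congr rfl fun j hj => ?_
  have hj' : j ≤ a := Nat.lt_succ_iff.1 (mem_range.1 hj)
  have h1 : a + 1 - j = (a - j) + 1 := by omega
  have h2 : sh c (a - j + 1) = c (a - j) := rfl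
  rw [h1, h2]

theorem key {K R : Type} [Field K] [CommRing R] (φ : K →+* R) (q : K) (c : ℕ → R) (a b : ℕ) :
    ∑ j ∈ range (a + 2), φ (kb q j) *
      (c (a + 1 - j) * sh c (b + 1 + j) - φ q * (sh c (a + 1 - j) * c (b + 1 + j))) =
      c (a + 1) * c b - c a * c (b + 1) := by
  have e1 : ∑ j ∈ range (a + 2), φ (kb q j) *
      (c (a + 1 - j) * sh c (b + 1 + j) - φ q * (sh c (a + 1 - j) * c (b + 1 + j))) =
      ∑ j ∈ range (a + 2), φ (kb q j) * (c (a + 1 - j) * sh c (b + 1 + j)) -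
        φ q * ∑ j ∈ range (a + 2), φ (kb q j) * (sh c (a + 1 - j) * c (b + 1 + j)) := by
    rw [mul_sum, ← sum_sub_distrib]
    refine sum_congr rfl fun j _ => ?_
    ring
  rw [e1, sum1, sum2, sum_range_succ', mul_sum, sum_range_succ']
  have h0 : kb q 0 = 1 := rfl
  have h1 : kb q (0 + 1) = (q - 1) := by
    change (q - 1) * q ^ 0 = q - 1
    rw [pow_zero, mul_one]
  have e2 : ∑ j ∈ range a, φ (kb q (j + 1 + 1)) * (c (a - (j + 1)) * c (b + 1 + (j + 1))) =
      ∑ j ∈ range a, φ q * (φ (kb q (j + 1)) * (c (a - (j + 1)) * c (b + 1 + (j + 1)))) := by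
    refine sum_congr rfl fun j _ => ?_
    have h2 : kb q (j + 1 + 1) = q * kb q (j + 1) := by
      change (q - 1) * q ^ (j + 1) = q * ((q - 1) * q ^ j)
      ring
    rw [h2, map_mul]
    ring
  rw [e2, h0, h1, map_sub, map_one, Nat.sub_zero]
  ring

section main
variable {K : Type} [Field K] [CharZero K]

/-- `C (C c)` as a ring homomorphism -/
noncomputable def cc2 (K : Type) [Field K] : K →+* Ry K := (C : Lam K →+* Ry K).comp (C : K →+* Lam K)

theorem cc2_apply (c : K) : cc2 K c = C (C c) := rfl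

/-- `∑ β^i ε_(n-i)` -/
noncomputable def cs (t : K) (k : ℕ) (n : ℕ) : Ry K :=
  ∑ i ∈ range (n + 1), (C (C t) * X k) ^ i * C (Ep K (n - i))

theorem x_eq (t : K) (k n : ℕ) : (C (Ep K n) : Ry K) = cs t k n - C (C t) * X k * sh (cs t k) n := by
  cases n with
  | zero =>
    simp [cs, sh]
  | succ n =>
    have h1 : sh (cs t k) (n + 1) = cs t k n := rfl
    rw [h1, cs, sum_range_succ', pow_zero, one_mul, Nat.sub_zero, cs, mul_sum]
    have h2 : ∑ i ∈ range (n + 1), (C (C t) * X k : Ry K) ^ (i + 1) * C (Ep K (n + 1 - (i + 1))) =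
        ∑ i ∈ range (n + 1), C (C t) * X k * ((C (C t) * X k) ^ i * C (Ep K (n - i))) := by
      refine sum_congr rfl fun i _ => ?_
      rw [Nat.succ_sub_succ]
      ring
    rw [h2]
    ring

theorem xt_eq (q t : K) (k n : ℕ) : sg q t k (C (Ep K n)) =
    cs t k n - C (C q) * (C (C t) * X k) * sh (cs t k) n := by
  cases n with
  | zero =>
    rw [sg_Ep]
    have h : ka q 0 = 1 := rfl
    simp [cs, sh, h]
  | succ n =>
    have h1 : sh (cs t k) (n + 1) = cs t k n := rfl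
    have hx := x_eq t k (n + 1)
    rw [h1] at hx
    rw [h1, sg_Ep, sum_range_succ']
    have h2 : ∑ i ∈ range (n + 1), C (C (ka q (i + 1) * t ^ (i + 1)) * Ep K (n + 1 - (i + 1))) *
        (X k : Ry K) ^ (i + 1) = C (C (1 - q)) * (C (C t) * X k) * cs t k n := by
      rw [cs, mul_sum]
      refine sum_congr rfl fun i _ => ?_
      have h3 : ka q (i + 1) = 1 - q := rfl
      rw [Nat.succ_sub_succ, h3]
      simp only [map_mul, map_pow]
      ring
    have h4 : (C (C (ka q 0 * t ^ 0) * Ep K (n + 1 - 0)) * X k ^ 0 : Ry K) = C (Ep K (n + 1)) := by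
      have h5 : ka q 0 = 1 := rfl
      rw [h5, pow_zero, pow_zero, mul_one, mul_one, Nat.sub_zero, C_1, one_mul]
    rw [h2, h4, hx]
    simp only [map_sub, map_one]
    ring

theorem d1 (q : K) (a b : ℕ) : dmi q (X 1 ^ b * X 0 ^ a : Ry K) = -(C (Ep K (a + 1)) * X 0 ^ b) := by
  have h : (X 1 ^ b : Ry K) = io q (X 0 ^ b) := by rw [map_pow, io_X]
  rw [h, dmi_io_pow]
  ring

theorem d2 (q : K) (a b : ℕ) : dmi q (dmi q (X 1 ^ b * X 0 ^ a : Ry K)) =
    ∑ j ∈ range (a + 2), C (C (kb q j)) * (C (Ep K (a + 1 - j)) * C (Ep K (b + 1 + j))) := by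
  rw [d1, map_neg, dmi_Ep_pow, neg_neg]
  refine sum_congr rfl fun j _ => ?_
  rw [map_mul, map_mul, show b + j + 1 = b + 1 + j by omega]
  ring

theorem d3 (q t : K) (k a b : ℕ) : sg q t k (dmi q (dmi q (X 1 ^ b * X 0 ^ a : Ry K))) =
    ∑ j ∈ range (a + 2), C (C (kb q j)) *
      (sg q t k (C (Ep K (a + 1 - j))) * sg q t k (C (Ep K (b + 1 + j)))) := by
  rw [d2, map_sum]
  refine sum_congr rfl fun j _ => ?_
  rw [map_mul, map_mul, sg_CC]

theorem d4 (q t : K) (k a b : ℕ) : dmi q (sg q t (k + 1) (dmi q (X 1 ^ b * X 0 ^ a : Ry K))) =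
    ∑ j ∈ range (a + 2), C (C (kb q j)) * (sg q t k (C (Ep K (a + 1 - j))) * C (Ep K (b + 1 + j))) := by
  rw [d1, map_neg, map_neg, Ep_io q (a + 1), sum_mul, map_sum, map_sum, ← sum_neg_distrib]
  refine sum_congr rfl fun j _ => ?_
  rw [map_mul (sg q t (k + 1)), map_mul (sg q t (k + 1)), map_pow (sg q t (k + 1)), map_pow (sg q t (k + 1)),
    sg_X_lt q t (Nat.succ_pos k), sg_io, mul_assoc, ← pow_add, dmi_io_pow, neg_neg, map_mul C, map_mul, sg_CC,
    show j + b + 1 = b + 1 + j by omega]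
  ring

theorem mono (q t : K) (k a b : ℕ) :
    C (C q) * dmi q (dmi q (X 1 ^ b * X 0 ^ a : Ry K)) + sg q t k (dmi q (dmi q (X 1 ^ b * X 0 ^ a : Ry K))) -
      C (C (1 + q)) * dmi q (sg q t (k + 1) (dmi q (X 1 ^ b * X 0 ^ a : Ry K))) =
    -(C (C (q - 1)) * (C (C t) * X k) * (cs t k (a + 1) * cs t k b - cs t k a * cs t k (b + 1))) := by
  rw [d3, d4, d2, mul_sum, mul_sum, ← sum_add_distrib, ← sum_sub_distrib, ← key (cc2 K) q (cs t k) a b,
    mul_sum, ← sum_neg_distrib]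
  refine sum_congr rfl fun j _ => ?_
  rw [xt_eq, xt_eq, x_eq t k (a + 1 - j), x_eq t k (b + 1 + j), cc2_apply, cc2_apply]
  simp only [map_add, map_sub, map_one]
  ring

/-- the difference of the two sides -/
noncomputable def Lm (q t : K) (k : ℕ) : Ry K →ₗ[K] Ry K :=
  q • (dmi q ∘ₗ dmi q ∘ₗ (sg q t (k + 2)).toLinearMap) + (sg q t k).toLinearMap ∘ₗ dmi q ∘ₗ dmi q -
    (1 + q) • (dmi q ∘ₗ (sg q t (k + 1)).toLinearMap ∘ₗ dmi q)

theorem Lm_apply (q t : K) (k : ℕ) (F : Ry K) : Lm q t k F =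
    q • dmi q (dmi q (sg q t (k + 2) F)) + sg q t k (dmi q (dmi q F)) -
      (1 + q) • dmi q (sg q t (k + 1) (dmi q F)) := rfl

theorem Lm_io (q t : K) (k : ℕ) (G F : Ry K) : Lm q t k (io q (io q G) * F) = sg q t k G * Lm q t k F := by
  rw [Lm_apply, Lm_apply, map_mul, sg_io, sg_io, dmi_io_mul, dmi_io_mul, dmi_io_mul, dmi_io_mul, map_mul,
    map_mul, sg_io, dmi_io_mul, smulK, smulK, smulK, smulK]
  ring

theorem Lm_mono (q t : K) (k a b : ℕ) : Lm q t k (X 1 ^ b * X 0 ^ a) =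
    -(C (C (q - 1)) * (C (C t) * X k) * (cs t k (a + 1) * cs t k b - cs t k a * cs t k (b + 1))) := by
  rw [Lm_apply, map_mul, map_pow, map_pow, sg_X_lt q t (show 0 < k + 2 by omega),
    sg_X_lt q t (show 1 < k + 2 by omega), smulK, smulK, mono]

/-- symmetrised version -/
noncomputable def Em (q t : K) (k : ℕ) : Ry K →+ Ry K :=
  (Lm q t k).toAddMonoidHom.comp (AddMonoidHom.id (Ry K) + (sw K 0 : Ry K →ₐ[Lam K] Ry K).toLinearMap.toAddMonoidHom)

theorem Em_apply (q t : K) (k : ℕ) (F : Ry K) : Em q t k F = Lm q t k (F + sw K 0 F) := rfl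

theorem Em_zero (hC1 : StC1) (hC3 : StC3) (q t : K) (k : ℕ) (F : Ry K) : Em q t k F = 0 := by
  have h := (hC3 K q (Em q t k).ker).2
  refine h (fun G a b => ?_) F
  rw [AddMonoidHom.mem_ker, Em_apply]
  have h1 : sw K 0 (io q (io q G)) = io q (io q G) := (hC1 K q t).2.2.2.2.2.1 G
  have hx0 : sw K 0 (X 0 : Ry K) = X 1 := by simp [sw]
  have hx1 : sw K 0 (X 1 : Ry K) = X 0 := by simp [sw]
  have h2 : sw K 0 (io q (io q G) * (X 1 ^ b * X 0 ^ a)) = io q (io q G) * (X 1 ^ a * X 0 ^ b) := by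
    rw [map_mul, map_mul, map_pow, map_pow, h1, hx0, hx1]
    ring
  rw [h2, map_add, Lm_io, Lm_io, Lm_mono, Lm_mono]
  ring

theorem Lm_sym (hC1 : StC1) (hC3 : StC3) (q t : K) (k : ℕ) (G : Ry K) (hG : sw K 0 G = G) :
    Lm q t k G = 0 := by
  have h := Em_zero hC1 hC3 q t k G
  rw [Em_apply, hG, map_add] at h
  have h2 : (2 : K) • Lm q t k G = 0 := by rw [two_smul, h]
  rcases smul_eq_zero.1 h2 with h3 | h3
  · exact absurd h3 two_ne_zero
  · exact h3

end main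

end C10

theorem pC10 (hC1 : StC1) (hC3 : StC3) (hC4 : StC4) (hC6 : StC6) (hC7 : StC7) : StC10 := by
  intro K _ _ q t hq hq1 k F
  have hsym : sw K 0 (Th q 0 F + q • F) = Th q 0 F + q • F := (hC4 K q 0 F).2.2.2.1
  have h := C10.Lm_sym hC1 hC3 q t k _ hsym
  rw [C10.Lm_apply] at h
  have e1 : sg q t (k + 2) (Th q 0 F) = Th q 0 (sg q t (k + 2) F) :=
    (hC6 K q t F).2.1 (k + 2) 0 (by omega)
  have e2 : dmi q (dmi q (sg q t (k + 2) (Th q 0 F + q • F))) =
      (1 + q) • dmi q (dmi q (sg q t (k + 2) F)) := by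
    rw [map_add, map_smul, map_add, map_add, map_smul, map_smul, e1, hC7 K q hq, add_smul, one_smul]
  have e3 : dmi q (dmi q (Th q 0 F + q • F)) = (1 + q) • dmi q (dmi q F) := by
    rw [map_add, map_smul, map_add, map_smul, hC7 K q hq, add_smul, one_smul]
  rw [e2, e3, map_smul] at h
  have hne : (1 + q : K) ≠ 0 := by rwa [add_comm]
  have h2 : (1 + q) • (q • dmi q (dmi q (sg q t (k + 2) F)) + sg q t k (dmi q (dmi q F)) -
      dmi q (sg q t (k + 1) (dmi q (Th q 0 F + q • F)))) = 0 := by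
    rw [← h, smul_sub, smul_add, smul_comm (1 + q) q]
  rcases smul_eq_zero.1 h2 with h3 | h3
  · exact absurd h3 hne
  · exact sub_eq_zero.1 h3

end Pool.VD.CM
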