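import Pool.Agent.VD.ColSt

/-!
# MP_cf06d4_co, group V: the collapse lemma from its modules (helper13)
-/

set_option autoImplicit false

namespace Pool.VD.M_COL

open Pool.VD Finset

theorem mem_Wd {α : Type} (A : Finset α) (n : ℕ) (L : List α) :
    L ∈ Wd A n ↔ L.length = n ∧ ∀ c ∈ L, c ∈ A := by
  induction n generalizing L with
  | zero =>
    simp only [Wd, mem_singleton]
    constructor
    · rintro rfl; simp
    · rintro ⟨h, -⟩; exact List.length_eq_zero_iff.mp h
  | succ n ih =>
    rw [Wd, Finset.mem_map]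
    constructor
    · rintro ⟨⟨a, L'⟩, h, rfl⟩
      obtain ⟨ha, hL'⟩ := Finset.mem_product.mp h
      change a ∈ A at ha
      change L' ∈ Wd A n at hL'
      rw [ih] at hL'
      change (a :: L').length = n + 1 ∧ ∀ c ∈ a :: L', c ∈ A
      refine ⟨by simp [hL'.1], ?_⟩
      intro c hc
      rcases List.mem_cons.mp hc with rfl | hc
      · exact ha
      · exact hL'.2 c hc
    · rintro ⟨hlen, hmem⟩
      cases L with
      | nil => simp at hlen
      | cons a L' =>
        refine ⟨(a, L'), Finset.mem_product.mpr ⟨hmem a (by simp), ?_⟩, rfl⟩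
        change L' ∈ Wd A n
        rw [ih]
        exact ⟨by simpa using hlen, fun c hc => hmem c (by simp [hc])⟩

theorem leg_lower (L : List Car) : ∀ p : Car, Leg p L → -(L.length : ℤ) ≤ p.1 := by
  induction L with
  | nil => intro p h; simpa [Leg] using h
  | cons u L ih =>
    intro p h
    obtain ⟨h1, h2⟩ := h
    have := ih u h2
    simp only [Hi, dn] at h1
    simp only [List.length_cons]
    push_cast
    rcases h1 with h1 | h1
    · omega
    · omega

theorem leg_mem_lower (L : List Car) : ∀ p : Car, Leg p L → ∀ c ∈ L, -(L.length : ℤ) ≤ c.1 := by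
  induction L with
  | nil => intro p h c hc; simp at hc
  | cons u L ih =>
    intro p h c hc
    obtain ⟨h1, h2⟩ := h
    simp only [List.length_cons]
    push_cast
    rcases List.mem_cons.mp hc with rfl | hc
    · have := leg_lower L _ h2; omega
    · have := ih u h2 c hc; omega

theorem leg_mem_upper (L : List Car) : ∀ p : Car, Leg p L → ∀ c ∈ L, c.1 ≤ p.1 + L.length := by
  induction L with
  | nil => intro p h c hc; simp at hc
  | cons u L ih =>
    intro p h c hc
    obtain ⟨h1, h2⟩ := h
    simp only [Hi, dn] at h1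
    simp only [List.length_cons]
    push_cast
    rcases List.mem_cons.mp hc with rfl | hc
    · omega
    · have := ih u h2 c hc; omega

theorem bot_le_iff (L : List Car) (i : ℕ) : bot L ≤ i ↔ ∀ c ∈ L, -(i : ℤ) ≤ c.1 := by
  induction L with
  | nil => simp [bot]
  | cons u L ih =>
    have : bot (u :: L) = max (-u.1).toNat (bot L) := rfl
    rw [this, max_le_iff, ih]
    constructor
    · rintro ⟨h1, h2⟩ c hc
      rcases List.mem_cons.mp hc with rfl | hc
      · omega
      · exact h2 c hc
    · intro h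
      exact ⟨by have := h u (by simp); omega, fun c hc => h c (by simp [hc])⟩

/-- telescoping -/
theorem tele {A : Type} [CommRing A] (th x y : A) (n b : ℕ) (F : ℕ → A) (h0 : ∀ i, i < b → F i = 0)
    (hb : F b = x) (h1 : ∀ i, b < i → F i = y) (s : ℕ) :
    F 0 + ∑ i ∈ range s, th ^ (n * (i + 1)) * (F (i + 1) - F i) =
      if s < b then 0 else if s = b then th ^ (n * b) * x else
        th ^ (n * b) * x + th ^ (n * (b + 1)) * (y - x) := by
  induction s with
  | zero =>
    simp only [range_zero, sum_empty, add_zero]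
    by_cases hb0 : b = 0
    · subst hb0; simp [hb]
    · rw [if_pos (Nat.pos_of_ne_zero hb0), h0 0 (Nat.pos_of_ne_zero hb0)]
  | succ s ih =>
    rw [sum_range_succ, ← add_assoc, ih]
    rcases lt_trichotomy s b with h | h | h
    · rw [if_pos h, h0 s h]
      by_cases h2 : s + 1 = b
      · subst h2; simp [hb]
      · have h3 : s + 1 < b := by omega
        rw [if_pos h3, h0 _ h3]; simp
    · subst h
      rw [if_neg (lt_irrefl _), if_pos rfl, if_neg (by omega), if_neg (by omega), hb, h1 (s + 1) (by omega)]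
    · rw [if_neg (by omega), if_neg (by omega), if_neg (by omega), if_neg (by omega), h1 s h,
        h1 (s + 1) (by omega)]
      ring

variable {K : Type} [Field K] [CharZero K]

/-- the gap product of a legal square word -/
theorem gp_eq (hB : StCB) (q t : K) (hq : q ≠ 0) (N i B k : ℕ) (L : List Car) (hL : Leg (0, N) L) :
    (GP (Als i B N) (gaD q t N) (0, N) [] L).coeff k = EE q t N i B k L := by
  have h1 : (gaD q t N) = fun c h => (fun (c : Car) (j : ℕ) =>
      MvPolynomial.C (t ^ c.1 * q ^ ((j : ℤ) - if 0 ≤ c.1 then 1 else 0)) * yv K N c.2) c (cnt h c) := rfl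
  rw [h1, hB (MvPolynomial (Fin N) K) _ (Als i B N)
    (fun (c : Car) (j : ℕ) =>
      MvPolynomial.C (t ^ c.1 * q ^ ((j : ℤ) - if 0 ≤ c.1 then 1 else 0)) * yv K N c.2) (0, N) [] L hL]
  refine congrArg (fun P : Polynomial (MvPolynomial (Fin N) K) => P.coeff k) ?_
  refine prod_congr rfl fun c hc => ?_
  have hc2 : c.2 < N := by
    simp only [Als, mem_product, mem_range] at hc
    exact hc.2
  have hcnt : cnt [] c = 0 := rfl
  have hHi : Hi (0, N) c ↔ c.1 < 0 := by
    simp only [Hi]
    constructor
    · rintro (h | ⟨-, h⟩)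
      · exact h
      · omega
    · intro h; exact Or.inl h
  rw [hcnt]
  by_cases h0 : 0 ≤ c.1
  · have hn : ¬ Hi (0, N) c := by rw [hHi]; omega
    rw [if_neg hn, if_pos h0]
    simp only [zero_add]
    rw [prod_Ico_eq_prod_range]
    simp only [Nat.add_sub_cancel]
    refine prod_congr rfl fun j _ => ?_
    congr 3
    rw [if_pos h0]
    congr 2
    push_cast
    rw [show ((1 : ℤ) + (j : ℤ) - 1) = (j : ℤ) by ring, zpow_natCast]
  · have hy : Hi (0, N) c := by rw [hHi]; omega
    rw [if_pos hy, if_neg h0]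
    simp only [zero_add, add_zero, Nat.Ico_zero_eq_range]
    refine prod_congr rfl fun j _ => ?_
    congr 3
    rw [if_neg h0, sub_zero, zpow_natCast]

open Classical in
theorem main (q t : K) (hq : q ≠ 0) (ht : t ≠ 0) (hA : StCA) (hB : StCB) (hD : StCD q t) (hE : StCE)
    (hF : StCF q t) (hG : StCG q t) : StCol q t := by
  intro m k N hm
  have hFF := hD ht hq (m + k) k N (m + k + 1) (by omega) (by omega)
  rw [hFF]
  have e1 : ∀ L : List DCar, (MvPolynomial.C (t ^ ((m + k) * botD L)) : MvPolynomial (Fin N) K) =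
      (MvPolynomial.C t) ^ ((m + k) * botD L) := fun L => by rw [map_pow]
  simp only [e1]
  rw [hE (MvPolynomial (Fin N) K) _ (wtD (phU q t N) (gaD q t N) []) (MvPolynomial.C t) (m + k) k N
    (m + k) (m + k + 1) (by omega)]
  -- the sums S_i
  have hS : ∀ i : ℕ, ∑ L ∈ (Wd (AD2 (Als i (m + k) N)) (m + k)).filter
        (fun L => LegD (0, N) L ∧ ndec L = k), wtD (phU q t N) (gaD q t N) [] L =
      ∑ L ∈ SqW m N, if bot L ≤ i then wtP (phU q t N) [] L * EE q t N i (m + k) k L else 0 := by
    intro i
    rw [hA (MvPolynomial (Fin N) K) _ (Als i (m + k) N) (phU q t N) (gaD q t N) m k (0, N) []]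
    rw [← sum_filter]
    have hset : (Wd (Als i (m + k) N) m).filter (fun L => Leg (0, N) L) =
        (SqW m N).filter (fun L => bot L ≤ i) := by
      ext L
      simp only [SqW, mem_filter, mem_Wd, bot_le_iff]
      constructor
      · rintro ⟨⟨hlen, hmem⟩, hleg⟩
        refine ⟨⟨⟨hlen, ?_⟩, hleg⟩, ?_⟩
        · intro c hc
          have h1 := hmem c hc
          have h2 := leg_mem_lower L _ hleg c hc
          have h3 := leg_mem_upper L _ hleg c hc
          simp only [Als, mem_product, mem_Icc, mem_range] at h1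
          simp only [Al, mem_product, mem_Icc, mem_range]
          rw [hlen] at h2 h3
          simp only [zero_add] at h3
          exact ⟨⟨h2, h3⟩, h1.2⟩
        · intro c hc
          have h1 := hmem c hc
          simp only [Als, mem_product, mem_Icc, mem_range] at h1
          exact h1.1.1
      · rintro ⟨⟨⟨hlen, hmem⟩, hleg⟩, hbot⟩
        refine ⟨⟨hlen, ?_⟩, hleg⟩
        intro c hc
        have h1 := hmem c hc
        simp only [Al, mem_product, mem_Icc, mem_range] at h1
        simp only [Als, mem_product, mem_Icc, mem_range]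
        refine ⟨⟨hbot c hc, ?_⟩, h1.2⟩
        push_cast
        omega
    rw [hset]
    refine sum_congr rfl fun L hL => ?_
    have hleg : Leg (0, N) L := by
      simp only [SqW, mem_filter] at hL
      exact hL.1.2
    rw [gp_eq hB q t hq N i (m + k) k L hleg]
  simp only [hS]
  -- exchange the sums
  have hswap : ∑ L ∈ SqW m N, (if bot L ≤ 0 then wtP (phU q t N) [] L * EE q t N 0 (m + k) k L else 0) +
      ∑ i ∈ range (m + k + 1), (MvPolynomial.C t : MvPolynomial (Fin N) K) ^ ((m + k) * (i + 1)) *
        (∑ L ∈ SqW m N, (if bot L ≤ i + 1 then wtP (phU q t N) [] L * EE q t N (i + 1) (m + k) k L else 0) -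
          ∑ L ∈ SqW m N, (if bot L ≤ i then wtP (phU q t N) [] L * EE q t N i (m + k) k L else 0)) =
      ∑ L ∈ SqW m N, ((if bot L ≤ 0 then wtP (phU q t N) [] L * EE q t N 0 (m + k) k L else 0) +
        ∑ i ∈ range (m + k + 1), (MvPolynomial.C t : MvPolynomial (Fin N) K) ^ ((m + k) * (i + 1)) *
          ((if bot L ≤ i + 1 then wtP (phU q t N) [] L * EE q t N (i + 1) (m + k) k L else 0) -
            (if bot L ≤ i then wtP (phU q t N) [] L * EE q t N i (m + k) k L else 0))) := by
    rw [sum_add_distrib]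
    congr 1
    rw [sum_comm]
    refine sum_congr rfl fun i _ => ?_
    rw [← sum_sub_distrib, mul_sum]
  rw [hswap]
  refine sum_congr rfl fun L hL => ?_
  simp only [SqW, mem_filter, mem_Wd] at hL
  obtain ⟨⟨hlen, hmem⟩, hleg⟩ := hL
  have hlev : ∀ c ∈ L, -(m : ℤ) ≤ c.1 ∧ c.1 ≤ (m : ℤ) := by
    intro c hc
    have h1 := hmem c hc
    simp only [Al, mem_product, mem_Icc] at h1
    exact h1.1
  have hbm : bot L ≤ m := (bot_le_iff L m).mpr fun c hc => (hlev c hc).1
  obtain ⟨f1, f2⟩ := hF ht N (m + k) m k L hlen hlev (by omega)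
  have key := tele (MvPolynomial.C t : MvPolynomial (Fin N) K)
    (wtP (phU q t N) [] L * EE q t N (bot L) (m + k) k L)
    (wtP (phU q t N) [] L * EE q t N (bot L + 1) (m + k) k L) (m + k) (bot L)
    (fun i => if bot L ≤ i then wtP (phU q t N) [] L * EE q t N i (m + k) k L else 0)
    (fun i hi => if_neg (by omega)) (if_pos le_rfl)
    (fun i hi => by
      show (if bot L ≤ i then _ else _) = _
      rw [if_pos (by omega), f2 i (by omega), f2 (bot L + 1) le_rfl]) (m + k + 1)
  rw [key, if_neg (by omega), if_neg (by omega), f1, f2 (bot L + 1) le_rfl, ← hG ht N L, hlen]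
  have hC : ∀ a b : ℕ, (MvPolynomial.C t : MvPolynomial (Fin N) K) ^ a * MvPolynomial.C ((t ^ b)⁻¹) =
      MvPolynomial.C (t ^ a * (t ^ b)⁻¹) := fun a b => by rw [← map_pow, ← map_mul]
  have s1 : t ^ ((m + k) * bot L) * (t ^ (k * bot L))⁻¹ = t ^ (m * bot L) := by
    rw [show (m + k) * bot L = m * bot L + k * bot L by ring, pow_add, mul_assoc,
      mul_inv_cancel₀ (pow_ne_zero _ ht), mul_one]
  have s2 : t ^ ((m + k) * (bot L + 1)) * (t ^ (k * (bot L + 1)))⁻¹ = t ^ (m * bot L) * t ^ m := by
    rw [show (m + k) * (bot L + 1) = (m * bot L + m) + k * (bot L + 1) by ring, pow_add, mul_assoc,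
      mul_inv_cancel₀ (pow_ne_zero _ ht), mul_one, pow_add]
  have s3 : t ^ ((m + k) * (bot L + 1)) * (t ^ (k * bot L))⁻¹ = t ^ (m * bot L) * t ^ m * t ^ k := by
    rw [show (m + k) * (bot L + 1) = (m * bot L + m + k) + k * bot L by ring, pow_add, mul_assoc,
      mul_inv_cancel₀ (pow_ne_zero _ ht), mul_one, pow_add, pow_add]
  have c1 := hC ((m + k) * bot L) (k * bot L)
  have c2 := hC ((m + k) * (bot L + 1)) (k * (bot L + 1))
  have c3 := hC ((m + k) * (bot L + 1)) (k * bot L)
  rw [s1] at c1
  rw [s2] at c2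
  rw [s3] at c3
  rw [map_mul] at c2
  rw [map_mul, map_mul] at c3
  generalize (wtP (phU q t N) [] L) = W at *
  generalize (A0 q t N L).coeff k = a0 at *
  generalize (A1 q t N L).coeff k = a1 at *
  linear_combination (W * a0) * c1 + (W * a1) * c2 - (W * a0) * c3

end Pool.VD.M_COL
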