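import Pool.Agent.VD.M_WSH

/-!
# MP_cf06d4_co, group V, block C, words half: the level-0 factor of `A0` (helper13)
-/

set_option autoImplicit false

namespace Pool.VD

open MvPolynomial Finset

namespace M_WPHA

open M_WSH M_WMEM

theorem bot_zero (L : List Car) (hL : ∀ c ∈ L, 0 ≤ c.1) : bot L = 0 := by
  induction L with
  | nil => rfl
  | cons u L ih =>
    have hu := hL u (by simp)
    have hb : bot (u :: L) = max (-u.1).toNat (bot L) := rfl
    rw [hb, ih fun c hc => hL c (by simp [hc])]
    simp only [Nat.max_zero]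
    omega

theorem hil_nonneg (L : List Car) (hL : ∀ c ∈ L, 0 ≤ c.1) : ∀ c ∈ hil L, 0 ≤ c.1 := by
  intro c hc
  simp only [hil, List.mem_map, List.mem_filter] at hc
  obtain ⟨d, ⟨h1, h2⟩, rfl⟩ := hc
  have := hL d h1
  simp only [ne_eq, decide_not, Bool.not_eq_eq_eq_not, Bool.not_true, decide_eq_false_iff_not] at h2
  simp only [dn]
  omega

theorem hil_lev : ∀ (L : List Car) (p : Car), 0 ≤ p.1 → (∀ c ∈ L, 0 ≤ c.1) → Leg p L →
    ∀ c ∈ hil L, c.1 + 1 ≤ p.1 + (hil L).length := by
  intro L
  induction L with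
  | nil => intro p _ _ _ c hc; simp [hil] at hc
  | cons u L ih =>
    intro p hp hL h c hc
    have hu : u.1 ≤ p.1 + 1 := by
      have := h.1
      simp only [Hi, dn] at this
      omega
    have hu0 := hL u (by simp)
    have ih' := ih u hu0 (fun c hc => hL c (by simp [hc])) h.2
    rw [hil_cons] at hc ⊢
    by_cases h0 : u.1 = 0
    · rw [if_pos h0] at hc ⊢
      have := ih' c hc
      omega
    · rw [if_neg h0] at hc ⊢
      simp only [List.length_cons, Nat.cast_add, Nat.cast_one]
      rcases List.mem_cons.1 hc with rfl | h'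
      · simp only [dn]; omega
      · have := ih' c h'
        omega

theorem cnt_cons (x : Car) (L : List Car) (c : Car) :
    cnt (x :: L) c = cnt L c + if att x c then 1 else 0 := by
  simp only [cnt, List.countP_cons, decide_eq_true_eq]

theorem gtc_cons (x : ℕ) (l : List ℕ) (v : ℕ) : gtc (x :: l) v = gtc l v + if v < x then 1 else 0 := by
  simp only [gtc, List.countP_cons, decide_eq_true_eq]

theorem gtc_one (v x : ℕ) : gtc [v] x = if x < v then 1 else 0 := by
  simp only [gtc, List.countP_cons, List.countP_nil, zero_add, decide_eq_true_eq]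

theorem cnt0 (L : List Car) (hL : ∀ c ∈ L, 0 ≤ c.1) (v : ℕ) :
    cnt L (0, v) = gtc (lab0 (hil L)) v + crs (lab0 L) [v] := by
  induction L with
  | nil => simp [cnt, hil, lab0, gtc, crs]
  | cons x L ih =>
    have hx := hL x (by simp)
    rw [cnt_cons, ih fun c hc => hL c (by simp [hc]), hil_cons, lab0_cons]
    by_cases h0 : x.1 = 0
    · rw [if_pos h0, if_pos h0]
      have e : crs (x.2 :: lab0 L) [v] = gtc [v] x.2 + crs (lab0 L) [v] := by
        simp [crs]
      rw [e, gtc_one]
      have e2 : (att x (0, v)) ↔ x.2 < v := by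
        simp only [att, h0]; simp
      simp only [e2]
      ring
    · rw [if_neg h0, if_neg h0, lab0_cons]
      by_cases h1 : x.1 = 1
      · have e1 : (dn x).1 = 0 := by simp [dn, h1]
        rw [if_pos e1, gtc_cons]
        have e2 : (att x (0, v)) ↔ v < (dn x).2 := by
          simp only [att, h1, dn]; simp
        simp only [e2]
        ring
      · have e1 : (dn x).1 ≠ 0 := by simp only [dn]; omega
        rw [if_neg e1]
        have e2 : ¬ (att x (0, v)) := by
          simp only [att]; omega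
        simp only [e2, if_false, add_zero]

theorem cntS (L : List Car) (hL : ∀ c ∈ L, 0 ≤ c.1) (b v : ℕ) :
    cnt L ((b : ℤ) + 1, v) = cnt (hil L) ((b : ℤ), v) := by
  induction L with
  | nil => simp [cnt, hil]
  | cons x L ih =>
    have hx := hL x (by simp)
    rw [cnt_cons, ih fun c hc => hL c (by simp [hc]), hil_cons]
    by_cases h0 : x.1 = 0
    · rw [if_pos h0]
      have e2 : ¬ (att x ((b : ℤ) + 1, v)) := by
        simp only [att]; omega
      simp only [e2, if_false, add_zero]
    · rw [if_neg h0, cnt_cons]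
      have e2 : (att x ((b : ℤ) + 1, v)) ↔ (att (dn x) ((b : ℤ), v)) := by
        simp only [att, dn]
        constructor <;> rintro (⟨a, b⟩ | ⟨a, b⟩)
        · exact Or.inl ⟨by omega, b⟩
        · exact Or.inr ⟨by omega, b⟩
        · exact Or.inl ⟨by omega, b⟩
        · exact Or.inr ⟨by omega, b⟩
      simp only [e2]

theorem cnt_big (L : List Car) (B : ℤ) (hL : ∀ c ∈ L, c.1 < B) (b : ℤ) (hb : B ≤ b) (v : ℕ) :
    cnt L (b, v) = 0 := by
  induction L with
  | nil => simp [cnt]
  | cons x L ih =>
    have hx := hL x (by simp)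
    rw [cnt_cons, ih fun c hc => hL c (by simp [hc])]
    have e2 : ¬ (att x (b, v)) := by
      simp only [att]; omega
    simp only [e2, if_false]

variable {K : Type} [Field K] [CharZero K]

omit [CharZero K] in
theorem A0_eq (q t : K) (N : ℕ) (L : List Car) (B : ℕ)
    (hB : ∀ c ∈ L, c.1 < (B : ℤ)) (m : ℕ) (hm : B ≤ m) :
    ∏ b ∈ range m, ∏ v ∈ range N, poch q t N b v (cnt L ((b : ℤ), v)) =
      ∏ b ∈ range B, ∏ v ∈ range N, poch q t N b v (cnt L ((b : ℤ), v)) := by
  symm
  refine prod_subset (fun b hb => ?_) fun b _ hb => ?_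
  · rw [mem_range] at hb ⊢; omega
  · rw [mem_range, not_lt] at hb
    refine prod_eq_one fun v _ => ?_
    rw [cnt_big L B hB b (by exact_mod_cast hb) v]
    simp [poch]

omit [CharZero K] in
theorem poch_coe (q t : K) (N b v n : ℕ) :
    ((poch q t N b v n : Polynomial (MvPolynomial (Fin N) K)) : PowerSeries (MvPolynomial (Fin N) K)) =
      ∏ j ∈ range n, (1 + PowerSeries.C (C (t ^ b * q ^ j) * yv K N v) * PowerSeries.X) := by
  have h := map_prod (Polynomial.coeToPowerSeries.ringHom (R := MvPolynomial (Fin N) K))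
    (fun j => (1 + Polynomial.C (C (t ^ b * q ^ j) * yv K N v) * Polynomial.X)) (range n)
  rw [poch]
  refine Eq.trans h (prod_congr rfl fun j _ => ?_)
  simp only [map_add, map_mul, map_one, Polynomial.coeToPowerSeries.ringHom_apply, Polynomial.coe_C,
    Polynomial.coe_X]

theorem poch_rescale (q t : K) (N b v n : ℕ) :
    ((poch q t N (b + 1) v n : Polynomial (MvPolynomial (Fin N) K)) :
      PowerSeries (MvPolynomial (Fin N) K)) =
      PowerSeries.rescale (C t : MvPolynomial (Fin N) K)
        (poch q t N b v n : Polynomial (MvPolynomial (Fin N) K)) := by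
  rw [poch_coe, poch_coe, map_prod]
  refine prod_congr rfl fun j _ => ?_
  rw [map_add (PowerSeries.rescale _), map_one (PowerSeries.rescale _), map_mul (PowerSeries.rescale _),
    PowerSeries.rescale_X]
  have hC : PowerSeries.rescale (C t : MvPolynomial (Fin N) K)
      (PowerSeries.C (C (t ^ b * q ^ j) * yv K N v)) = PowerSeries.C (C (t ^ b * q ^ j) * yv K N v) := by
    ext n
    rw [PowerSeries.coeff_rescale, PowerSeries.coeff_C]
    by_cases hn : n = 0
    · subst hn; simp
    · simp [hn]
  rw [hC, ← mul_assoc, ← map_mul]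
  congr 3
  rw [pow_succ, map_mul, map_mul, map_mul]
  ring

/-- `A0(L)(z) = (level-0 factor) * A0(hil L)(tz)` -/
theorem A0_split (q t : K) (N m : ℕ) (L : List Car) (hL : L ∈ DyW m N) :
    (A0 q t N L : PowerSeries (MvPolynomial (Fin N) K)) =
      (∏ c ∈ range N, ((poch q t N 0 c (gtc (lab0 (hil L)) c + crs (lab0 L) [c]) :
        Polynomial (MvPolynomial (Fin N) K)) : PowerSeries (MvPolynomial (Fin N) K))) *
      PowerSeries.rescale (C t : MvPolynomial (Fin N) K)
        (A0 q t N (hil L) : PowerSeries (MvPolynomial (Fin N) K)) := by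
  obtain ⟨_, h2, h3⟩ := (pWMem m N L).1 hL
  have h0 : ∀ c ∈ L, 0 ≤ c.1 := fun c hc => (h2 c hc).1
  have hh0 := hil_nonneg L h0
  have hlev : ∀ c ∈ hil L, c.1 < ((hil L).length : ℤ) := fun c hc => by
    have := hil_lev L (0, N) le_rfl h0 h3 c hc
    simp only [zero_add] at this
    omega
  have hlen : (hil L).length ≤ L.length := by
    rw [hil, List.length_map]; exact List.length_filter_le _ _
  have e1 : A0 q t N L = (∏ c ∈ range N, poch q t N 0 c (gtc (lab0 (hil L)) c + crs (lab0 L) [c])) *
      ∏ b ∈ range (hil L).length, ∏ v ∈ range N, poch q t N (b + 1) v (cnt (hil L) ((b : ℤ), v)) := by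
    rw [A0, bot_zero L h0, prod_range_succ', mul_comm]
    congr 1
    · refine prod_congr rfl fun v _ => ?_
      rw [← cnt0 L h0]
      simp
    · have : ∏ b ∈ range (2 * L.length + 1), ∏ v ∈ range N,
          poch q t N (b + 1) v (cnt L (((b + 1 : ℕ) : ℤ) - ((0 : ℕ) : ℤ), v)) =
          ∏ b ∈ range (2 * L.length + 1), ∏ v ∈ range N,
          poch q t N (b + 1) v (cnt (hil L) ((b : ℤ), v)) := by
        refine prod_congr rfl fun b _ => prod_congr rfl fun v _ => ?_
        have e : (((b + 1 : ℕ) : ℤ) - ((0 : ℕ) : ℤ)) = (b : ℤ) + 1 := by push_cast; ring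
        rw [← cntS L h0, e]
      refine Eq.trans this ?_
      symm
      refine prod_subset (fun b hb => ?_) fun b _ hb => ?_
      · rw [mem_range] at hb ⊢; omega
      · rw [mem_range, not_lt] at hb
        refine prod_eq_one fun v _ => ?_
        rw [cnt_big (hil L) (hil L).length hlev b (by exact_mod_cast hb) v]
        simp [poch]
  have e2 : A0 q t N (hil L) =
      ∏ b ∈ range (hil L).length, ∏ v ∈ range N, poch q t N b v (cnt (hil L) ((b : ℤ), v)) := by
    rw [A0, bot_zero (hil L) hh0]
    simp only [Nat.cast_zero, sub_zero]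
    exact A0_eq q t N (hil L) (hil L).length hlev _ (by omega)
  have hp : ∀ (P Q : Polynomial (MvPolynomial (Fin N) K)), ((P * Q : Polynomial (MvPolynomial (Fin N) K)) :
      PowerSeries (MvPolynomial (Fin N) K)) = (P : PowerSeries (MvPolynomial (Fin N) K)) *
        (Q : PowerSeries (MvPolynomial (Fin N) K)) := fun P Q => Polynomial.coe_mul P Q
  have hpr : ∀ (s : Finset ℕ) (f : ℕ → Polynomial (MvPolynomial (Fin N) K)),
      ((∏ b ∈ s, f b : Polynomial (MvPolynomial (Fin N) K)) : PowerSeries (MvPolynomial (Fin N) K)) =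
        ∏ b ∈ s, (f b : PowerSeries (MvPolynomial (Fin N) K)) := fun s f =>
    map_prod (Polynomial.coeToPowerSeries.ringHom (R := MvPolynomial (Fin N) K)) f s
  rw [e1, e2, hp, hpr, hpr, hpr, map_prod]
  congr 1
  refine prod_congr rfl fun b _ => ?_
  rw [hpr, hpr, map_prod]
  exact prod_congr rfl fun v _ => poch_rescale q t N b v _

/-- `(1 - y z) φ(y) = φ(q y)` -/
theorem phi_step (q : K) (hq : ∀ n : ℕ, 1 ≤ n → q ^ n ≠ 1) {A : Type} [CommRing A] [Algebra K A] (y : A) :
    (1 - PowerSeries.C y * PowerSeries.X) * phiS q y = phiS q (q • y) := by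
  ext n
  rw [sub_mul, one_mul, map_sub]
  cases n with
  | zero =>
    have : PowerSeries.coeff 0 (PowerSeries.C y * PowerSeries.X * phiS q y) = 0 := by
      rw [mul_assoc, PowerSeries.coeff_C_mul, mul_comm, ← zero_add 0]
      simp
    rw [this]
    simp [phiS]
  | succ n =>
    have : PowerSeries.coeff (n + 1) (PowerSeries.C y * PowerSeries.X * phiS q y) =
        y * PowerSeries.coeff n (phiS q y) := by
      rw [mul_assoc, PowerSeries.coeff_C_mul, PowerSeries.coeff_succ_X_mul]
    rw [this]
    simp only [phiS, PowerSeries.coeff_mk]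
    have h1 : (1 : K) - q ^ (n + 1) ≠ 0 := sub_ne_zero.2 (hq (n + 1) (by omega)).symm
    have h2 : (qpo q n)⁻¹ = (1 - q ^ (n + 1)) * (qpo q (n + 1))⁻¹ := by
      rw [qpo, qpo, prod_range_succ, mul_inv, mul_left_comm, mul_inv_cancel₀ h1, mul_one]
    rw [h2, mul_smul_comm, ← pow_succ', ← sub_smul, smul_pow, smul_smul]
    congr 1
    ring

/-- `(-x z; q)_n φ(-x) = φ(-q^n x)` -/
theorem poch_phi (q t : K) (hq : ∀ n : ℕ, 1 ≤ n → q ^ n ≠ 1) (N c n : ℕ) :
    ((poch q t N 0 c n : Polynomial (MvPolynomial (Fin N) K)) : PowerSeries (MvPolynomial (Fin N) K)) *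
      phiS q (-(yv K N c)) = phiS q (-(C (q ^ n) * yv K N c)) := by
  rw [poch_coe]
  induction n with
  | zero => simp
  | succ n ih =>
    rw [prod_range_succ, mul_comm (∏ j ∈ range n, _), mul_assoc, ih]
    have h := phi_step q hq (-(C (q ^ n) * yv K N c))
    have e1 : (1 - PowerSeries.C (-(C (q ^ n) * yv K N c)) * PowerSeries.X :
        PowerSeries (MvPolynomial (Fin N) K)) =
        1 + PowerSeries.C (C (t ^ 0 * q ^ n) * yv K N c) * PowerSeries.X := by
      rw [pow_zero, one_mul, map_neg, neg_mul, sub_neg_eq_add]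
    have e2 : q • (-(C (q ^ n) * yv K N c)) = -(C (q ^ (n + 1)) * yv K N c) := by
      rw [smul_neg, smul_eq_C_mul, pow_succ', map_mul, mul_assoc]
    rw [← e1, h, e2]

end M_WPHA

end Pool.VD
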