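import Pool.Agent.VD.M_WSH

/-!
# MP_cf06d4_co, group V, block C, words half: the level recursion (helper23)
-/

set_option autoImplicit false

namespace Pool.VD

open MvPolynomial Finset

namespace M_WREC

open M_WSH M_WMEM

variable {K : Type} [Field K] [CharZero K]

/-! ### the tail -/

theorem crs_cons_left (c : ℕ) (a v : List ℕ) : crs (c :: a) v = gtc v c + crs a v := by
  simp [crs]

theorem tailY (q : K) (N : ℕ) (a v : List ℕ) (τ : List ℕ) :
    (τ.map (fun c => -(C (q ^ (gtc v c + crs a [c])) * yv K N c))).prod =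
      (-1) ^ τ.length * (C (q ^ (crs a τ + crs τ v)) * xl K N τ) := by
  induction τ with
  | nil => rw [crs_nil_right]; simp [crs, xl]
  | cons c τ ih =>
    have e1 : crs a (c :: τ) = crs a [c] + crs a τ := crs_cons_right a c τ
    have e2 : xl K N (c :: τ) = yv K N c * xl K N τ := by simp [xl]
    rw [List.map_cons, List.prod_cons, ih, e1, crs_cons_left, e2, List.length_cons]
    simp only [pow_add, map_mul, pow_one]
    ring

theorem T0_eq (q : K) (hq : ∀ n : ℕ, 1 ≤ n → q ^ n ≠ 1) (hT : StWTail q) (N : ℕ) (a v : List ℕ) :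
    T0 q N a v = ∏ c ∈ range N, phiS q (-(C (q ^ (gtc v c + crs a [c])) * yv K N c)) := by
  ext1 m
  have h := hT hq (MvPolynomial (Fin N) K) N m (fun c => -(C (q ^ (gtc v c + crs a [c])) * yv K N c))
  have hq0 : qpo q m ≠ 0 := by
    rw [qpo, prod_ne_zero_iff]
    intro i _
    exact sub_ne_zero.2 (hq (i + 1) (by omega)).symm
  have h2 : PowerSeries.coeff m
      (∏ c ∈ range N, phiS q (-(C (q ^ (gtc v c + crs a [c])) * yv K N c))) =
      (qpo q m)⁻¹ • ∑ τ ∈ Ws N m, q ^ inl τ •
        (τ.map (fun c => -(C (q ^ (gtc v c + crs a [c])) * yv K N c))).prod := by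
    rw [h, smul_smul, inv_mul_cancel₀ hq0, one_smul]
  rw [h2, T0, PowerSeries.coeff_mk, smul_sum, mul_sum]
  refine sum_congr rfl fun τ hτ => ?_
  have hl := ((mem_Ws N m τ).1 hτ).1
  rw [tailY, hl, smul_eq_C_mul, smul_eq_C_mul]
  simp only [pow_add, map_mul, div_eq_mul_inv, map_pow, map_neg, map_one]
  ring

/-! ### bookkeeping -/

theorem lev_sum (L : List Car) (hL : ∀ c ∈ L, 0 ≤ c.1) :
    (L.map (fun c => c.1.toNat)).sum = ((hil L).map (fun c => c.1.toNat)).sum + (hil L).length := by
  induction L with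
  | nil => rfl
  | cons c L ih =>
    have hc := hL c (by simp)
    rw [List.map_cons, List.sum_cons, ih fun d hd => hL d (by simp [hd]), hil_cons]
    by_cases h : c.1 = 0
    · rw [if_pos h, h]; simp
    · rw [if_neg h, List.map_cons, List.sum_cons, List.length_cons]
      have : c.1.toNat = (dn c).1.toNat + 1 := by simp only [dn]; omega
      rw [this]; ring

theorem xl_split (N : ℕ) (L : List Car) :
    xl K N (L.map Prod.snd) = xl K N (lab0 L) * xl K N ((hil L).map Prod.snd) := by
  induction L with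
  | nil => simp [xl, lab0, hil]
  | cons c L ih =>
    have e : ∀ (x : ℕ) (l : List ℕ), xl K N (x :: l) = yv K N x * xl K N l := by
      intro x l; simp [xl]
    rw [List.map_cons, e, ih, lab0_cons, hil_cons]
    by_cases h : c.1 = 0
    · rw [if_pos h, if_pos h, e]; ring
    · rw [if_neg h, if_neg h, List.map_cons, e]
      simp only [dn]; ring

theorem len_split (L : List Car) : (lab0 L).length + (hil L).length = L.length := by
  induction L with
  | nil => rfl
  | cons c L ih =>
    rw [lab0_cons, hil_cons]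
    by_cases h : c.1 = 0
    · rw [if_pos h, if_pos h, List.length_cons, List.length_cons, ← ih]; ring
    · rw [if_neg h, if_neg h, List.length_cons, List.length_cons, ← ih]; ring

/-- the part of the weight of `L` which depends only on `a = lab0 L` and `H = hil L` -/
noncomputable def GH (q t : K) (N : ℕ) (a : List ℕ) (H : List Car) :
    PowerSeries (MvPolynomial (Fin N) K) :=
  PowerSeries.C (C (t ^ ((H.map (fun c => c.1.toNat)).sum + H.length)) * xl K N (H.map Prod.snd)) *
    T0 q N a (lab0 H) * PowerSeries.rescale (C t : MvPolynomial (Fin N) K) (PhiW q t N H)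

theorem weight_L (q t : K) (hq : ∀ n : ℕ, 1 ≤ n → q ^ n ≠ 1) (ht : ∀ n : ℕ, 1 ≤ n → t ^ n ≠ 1)
    (hP : StWPhi q t) (hT : StWTail q) (N m : ℕ) (L : List Car) (hL : L ∈ DyW m N) :
    PowerSeries.C (wK q t N L) * PhiW q t N L =
      PowerSeries.C (C (q ^ inv L)) * GH q t N (lab0 L) (hil L) := by
  have hM := (pWMem m N L).1 hL
  rw [hP hq ht N m L hL, ← T0_eq q hq hT, GH, wK, lev_sum L fun c hc => (hM.2.1 c hc).1]
  simp only [pow_add, map_mul]
  ring

theorem inner (q t : K) (hq : ∀ n : ℕ, 1 ≤ n → q ^ n ≠ 1) (ht : ∀ n : ℕ, 1 ≤ n → t ^ n ≠ 1)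
    (hP : StWPhi q t) (hT : StWTail q) (N d : ℕ) (a : List ℕ) (ha : ∀ c ∈ a, c < N) (H : List Car)
    (hH : ∀ c ∈ H, 0 ≤ c.1 ∧ c.2 < N) (hd : H.length = d) :
    ∑ L ∈ (DyW (a.length + d) N).filter (fun L => lab0 L = a ∧ hil L = H),
        PowerSeries.C (wK q t N L) * PhiW q t N L =
      PowerSeries.C (C (q ^ inl a * wt q (0, N) H * GamW q a (lab0 H))) * GH q t N a H := by
  classical
  rw [← pWSh K q N a H hH, map_sum, map_sum, sum_mul]
  have hset : (DyW (a.length + d) N).filter (fun L => lab0 L = a ∧ hil L = H) =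
      (Sh a H).filter (fun L => Leg (0, N) L) := by
    ext L
    rw [mem_filter, mem_filter, pWShM a H L fun c hc => (hH c hc).1, pWMem]
    constructor
    · rintro ⟨⟨_, _, h3⟩, h4⟩; exact ⟨h4, h3⟩
    · rintro ⟨h4, h3⟩
      refine ⟨⟨?_, ?_, h3⟩, h4⟩
      · rw [← len_split, h4.1, h4.2, hd]
      · intro c hc
        by_cases h0 : c.1 = 0
        · refine ⟨by omega, ha _ ?_⟩
          rw [← h4.1]
          simp only [lab0, List.mem_map, List.mem_filter]
          exact ⟨c, ⟨hc, by simpa using h0⟩, rfl⟩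
        · have : dn c ∈ H := by
            rw [← h4.2]
            simp only [hil, List.mem_map, List.mem_filter]
            exact ⟨c, ⟨hc, by simpa using h0⟩, rfl⟩
          have := hH _ this
          simp only [dn] at this
          exact ⟨by omega, this.2⟩
  have hterm : ∀ L ∈ (DyW (a.length + d) N).filter (fun L => lab0 L = a ∧ hil L = H),
      PowerSeries.C (wK q t N L) * PhiW q t N L =
        PowerSeries.C (C (wt q (0, N) L)) * GH q t N a H := by
    intro L hL
    rw [mem_filter] at hL
    rw [weight_L q t hq ht hP hT N _ L hL.1, hL.2.1, hL.2.2, wt, if_pos ((pWMem _ N L).1 hL.1).2.2]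
  rw [sum_congr rfl hterm, hset, sum_filter]
  refine sum_congr rfl fun L _ => ?_
  by_cases h : Leg (0, N) L
  · rw [if_pos h]
  · rw [if_neg h, wt, if_neg h]; simp

theorem step1 (q t : K) (hq : ∀ n : ℕ, 1 ≤ n → q ^ n ≠ 1) (ht : ∀ n : ℕ, 1 ≤ n → t ^ n ≠ 1)
    (hP : StWPhi q t) (hT : StWTail q) (N d : ℕ) (a : List ℕ) (ha : ∀ c ∈ a, c < N) :
    KW q t N d a = ∑ H ∈ DyW d N,
      PowerSeries.C (C (q ^ inl a * q ^ inv H * GamW q a (lab0 H))) * GH q t N a H := by
  classical
  set T' : Finset (List Car) := (Wd (Al (a.length + d) N) d).filter (fun H => ∀ c ∈ H, 0 ≤ c.1) with hT'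
  have hmem : ∀ H : List Car, H ∈ T' ↔ H.length = d ∧ ∀ c ∈ H, c ∈ Al (a.length + d) N ∧ 0 ≤ c.1 := by
    intro H
    rw [hT', mem_filter, mem_Wd]
    constructor
    · rintro ⟨⟨h1, h2⟩, h3⟩; exact ⟨h1, fun c hc => ⟨h2 c hc, h3 c hc⟩⟩
    · rintro ⟨h1, h2⟩; exact ⟨⟨h1, fun c hc => (h2 c hc).1⟩, fun c hc => (h2 c hc).2⟩
  have hmaps : ∀ L ∈ (DyW (a.length + d) N).filter (fun L => lab0 L = a), hil L ∈ T' := by
    intro L hL
    rw [mem_filter] at hL
    have hM := (pWMem _ N L).1 hL.1
    have hlev := Leg_lev L (0, N) hM.2.2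
    rw [hmem]
    constructor
    · have := len_split L
      rw [hL.2, hM.1] at this
      omega
    · intro c hc
      simp only [hil, List.mem_map, List.mem_filter] at hc
      obtain ⟨e, ⟨he, he0⟩, rfl⟩ := hc
      have h1 := hM.2.1 e he
      have h2 := hlev e he
      simp only [decide_eq_true_eq] at he0
      rw [hM.1] at h2
      simp only [Al, mem_product, mem_Icc, mem_range, dn]
      refine ⟨⟨⟨by omega, ?_⟩, h1.2⟩, by omega⟩
      push_cast at h2 ⊢
      omega
  rw [KW, ← sum_fiberwise_of_maps_to hmaps]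
  have hin : ∀ H ∈ T', ∑ L ∈ ((DyW (a.length + d) N).filter (fun L => lab0 L = a)).filter
        (fun L => hil L = H), PowerSeries.C (wK q t N L) * PhiW q t N L =
      PowerSeries.C (C (q ^ inl a * wt q (0, N) H * GamW q a (lab0 H))) * GH q t N a H := by
    intro H hH
    rw [hmem] at hH
    rw [filter_filter]
    refine inner q t hq ht hP hT N d a ha H (fun c hc => ?_) hH.1
    have := hH.2 c hc
    simp only [Al, mem_product, mem_Icc, mem_range] at this
    exact ⟨this.2, this.1.2⟩
  rw [sum_congr rfl hin]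
  have hsub : DyW d N ⊆ T' := by
    intro H hH
    have hM := (pWMem d N H).1 hH
    have hlev := Leg_lev H (0, N) hM.2.2
    rw [hmem]
    refine ⟨hM.1, fun c hc => ?_⟩
    have h1 := hM.2.1 c hc
    have h2 := hlev c hc
    rw [hM.1] at h2
    simp only [Al, mem_product, mem_Icc, mem_range]
    refine ⟨⟨⟨by omega, ?_⟩, h1.2⟩, h1.1⟩
    push_cast at h2 ⊢
    omega
  symm
  apply sum_subset_zero_on_sdiff hsub
  · intro H hH
    rw [mem_sdiff, hmem, pWMem] at hH
    have : ¬ Leg (0, N) H := by
      intro hleg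
      apply hH.2
      refine ⟨hH.1.1, fun c hc => ?_, hleg⟩
      have := hH.1.2 c hc
      simp only [Al, mem_product, mem_Icc, mem_range] at this
      exact ⟨this.2, this.1.2⟩
    rw [wt, if_neg this]; simp
  · intro H hH
    rw [wt, if_pos ((pWMem d N H).1 hH).2.2]

theorem recOf (q t : K) (hP : StWPhi q t) (hT : StWTail q) : StWRec q t := by
  classical
  intro hq ht N d a ha
  rw [step1 q t hq ht hP hT N d a ha]
  have hmaps : ∀ H ∈ DyW d N, (lab0 H).length ∈ range (d + 1) := by
    intro H hH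
    have hM := (pWMem d N H).1 hH
    have := len_split H
    rw [hM.1] at this
    rw [mem_range]; omega
  rw [← sum_fiberwise_of_maps_to hmaps]
  refine sum_congr rfl fun k hk => ?_
  have hmaps2 : ∀ H ∈ (DyW d N).filter (fun H => (lab0 H).length = k), lab0 H ∈ Ws N k := by
    intro H hH
    rw [mem_filter] at hH
    have hM := (pWMem d N H).1 hH.1
    rw [mem_Ws]
    refine ⟨hH.2, fun c hc => ?_⟩
    simp only [lab0, List.mem_map, List.mem_filter] at hc
    obtain ⟨e, ⟨he, _⟩, rfl⟩ := hc
    exact (hM.2.1 e he).2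
  rw [← sum_fiberwise_of_maps_to hmaps2]
  refine sum_congr rfl fun v hv => ?_
  have hvl := ((mem_Ws N k v).1 hv).1
  have hkd : k ≤ d := by rw [mem_range] at hk; omega
  have hset : ((DyW d N).filter (fun H => (lab0 H).length = k)).filter (fun H => lab0 H = v) =
      (DyW (v.length + (d - k)) N).filter (fun H => lab0 H = v) := by
    have : v.length + (d - k) = d := by omega
    rw [this, filter_filter]
    ext H
    simp only [mem_filter]
    constructor
    · rintro ⟨h1, _, h3⟩; exact ⟨h1, h3⟩
    · rintro ⟨h1, h3⟩; exact ⟨h1, by rw [h3, hvl], h3⟩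
  rw [hset, KW, map_sum, mul_sum]
  refine sum_congr rfl fun H hH => ?_
  rw [mem_filter] at hH
  have hM := (pWMem _ N H).1 hH.1
  have hlen : H.length = d := by rw [hM.1]; omega
  rw [GH, hH.2, xl_split, hH.2, hlen, wK, map_mul (PowerSeries.rescale (C t))]
  have hres : ∀ r : MvPolynomial (Fin N) K,
      PowerSeries.rescale (C t : MvPolynomial (Fin N) K) (PowerSeries.C r) = PowerSeries.C r := by
    intro r
    ext n
    rw [PowerSeries.coeff_rescale, PowerSeries.coeff_C]
    by_cases h : n = 0
    · subst h; simp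
    · rw [if_neg h, mul_zero]
  rw [hres]
  simp only [pow_add, map_mul]
  ring

theorem start (q t : K) : StWStart q t := by
  classical
  intro N
  constructor
  · have h0 : (DyW (([] : List ℕ).length + 0) N).filter (fun L => lab0 L = []) = {[]} := by
      ext L
      rw [mem_filter, pWMem, mem_singleton]
      constructor
      · rintro ⟨⟨h1, _⟩, _⟩
        exact List.length_eq_zero_iff.1 (by simpa using h1)
      · rintro rfl
        exact ⟨⟨rfl, by simp, le_refl _⟩, rfl⟩
    rw [KW, h0, sum_singleton, wK, PhiW, A0]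
    have : ∀ b v : ℕ, cnt [] ((b : ℤ) - (bot [] : ℤ), v) = 0 := by intro b v; simp [cnt]
    have hc : (∏ b ∈ range (2 * ([] : List Car).length + 2), ∏ v ∈ range N,
        poch q t N b v (cnt [] ((b : ℤ) - (bot [] : ℤ), v))) = 1 := by
      refine prod_eq_one fun b _ => prod_eq_one fun v _ => ?_
      rw [this]; simp [poch]
    rw [hc]
    simp [inv, hil, xl]
  · intro d
    rw [KW, sum_eq_zero]
    intro L hL
    rw [mem_filter] at hL
    exfalso
    have hM := (pWMem _ N L).1 hL.1
    cases L with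
    | nil => simp at hM
    | cons c L =>
      have h1 := hM.2.2.1
      have h2 := (hM.2.1 c (by simp)).1
      have hN := (hM.2.1 c (by simp)).2
      have h3 : c.1 ≠ 0 := by
        intro h
        have := hL.2
        rw [lab0_cons, if_pos h] at this
        simp at this
      simp only [Hi, dn] at h1
      omega

theorem pWStart (q t : K) : StWStart q t := start q t

end M_WREC

end Pool.VD
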