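import Pool.Agent.VD.StCG
import Pool.Agent.VD.M_WPHA
import Pool.Agent.VD.M_WREC
import Pool.Agent.VD.M_HS

/-!
# MP_cf06d4_co, group V, block C: library for the closings (helper13)
-/

set_option autoImplicit false
set_option linter.unusedSectionVars false

namespace Pool.VD

open MvPolynomial Finset

namespace Cl

open M_WSH M_WMEM M_WPHA M_WREC

variable {K : Type} [Field K] [CharZero K]

/-! ### the series `E` -/

/-- `E(z) = ∑ z^n e_n[X/M]` in `N` variables -/
noncomputable def ES (q t : K) (N : ℕ) : PowerSeries (MvPolynomial (Fin N) K) :=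
  PowerSeries.mk fun n => evN K N (Est q t n)

theorem ES_mul_Einv (q t : K) (N : ℕ) : ES q t N * Einv q t N = 1 := by
  have h1 : PowerSeries.mk (fun n => Est q t n) * PowerSeries.mk (fun n => (-1) ^ n * Hst q t n) =
      (1 : PowerSeries (Lam K)) := by
    have h := HS_neg_mul (R := Lam K) (fun i => (C (Mk q t (i + 1))⁻¹ * X i : Lam K))
    have h2 := congrArg (PowerSeries.rescale (-1 : Lam K)) h
    rw [map_mul, map_one] at h2
    have e1 : PowerSeries.mk (fun n => Est q t n) = PowerSeries.rescale (-1 : Lam K)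
        (HS (-(fun i => (C (Mk q t (i + 1))⁻¹ * X i : Lam K)))) := by
      ext1 n
      rw [PowerSeries.coeff_mk, PowerSeries.coeff_rescale, coeff_HS]
      rfl
    have e2 : PowerSeries.mk (fun n => (-1) ^ n * Hst q t n) = PowerSeries.rescale (-1 : Lam K)
        (HS (fun i => (C (Mk q t (i + 1))⁻¹ * X i : Lam K))) := by
      ext1 n
      rw [PowerSeries.coeff_mk, PowerSeries.coeff_rescale, coeff_HS]
      rfl
    rw [e1, e2, h2]
  have h2 := congrArg (PowerSeries.map ((evN K N : Lam K →ₐ[K] MvPolynomial (Fin N) K) :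
    Lam K →+* MvPolynomial (Fin N) K)) h1
  rw [map_mul, map_one] at h2
  have e1 : ES q t N = PowerSeries.map ((evN K N : Lam K →ₐ[K] MvPolynomial (Fin N) K) :
    Lam K →+* MvPolynomial (Fin N) K) (PowerSeries.mk (fun n => Est q t n)) := by
    ext1 n
    rw [PowerSeries.coeff_map, PowerSeries.coeff_mk, ES, PowerSeries.coeff_mk]
    rfl
  have e2 : Einv q t N = PowerSeries.map ((evN K N : Lam K →ₐ[K] MvPolynomial (Fin N) K) :
    Lam K →+* MvPolynomial (Fin N) K) (PowerSeries.mk (fun n => (-1) ^ n * Hst q t n)) := by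
    ext1 n
    rw [PowerSeries.coeff_map, PowerSeries.coeff_mk, Einv, PowerSeries.coeff_mk]
    simp
  rw [e1, e2, h2]

/-- `A0 = E Φ` -/
theorem A0_ES (q t : K) (N : ℕ) (L : List Car) :
    (A0 q t N L : PowerSeries (MvPolynomial (Fin N) K)) = ES q t N * PhiW q t N L := by
  rw [PhiW, mul_left_comm, ES_mul_Einv, mul_one]

theorem A0_coeff (q t : K) (N : ℕ) (L : List Car) (a : ℕ) :
    (A0 q t N L).coeff a = ∑ p ∈ antidiagonal a, evN K N (Est q t p.1) *
      PowerSeries.coeff p.2 (PhiW q t N L) := by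
  rw [← Polynomial.coeff_coe, A0_ES, PowerSeries.coeff_mul]
  simp only [ES, PowerSeries.coeff_mk]

/-! ### the weights -/

theorem countP_neg (L : List Car) (hL : ∀ c ∈ L, 0 ≤ c.1) :
    L.countP (fun c => decide (c.1 < 0)) = 0 := by
  rw [List.countP_eq_zero]
  intro c hc
  have := hL c hc
  simp only [decide_eq_true_eq, not_lt]
  exact this

theorem wU_eq (q t : K) (N : ℕ) (L : List Car) (hL : ∀ c ∈ L, 0 ≤ c.1) :
    wU q t N L = xl K N (lab0 L) * wK q t N L := by
  rw [wU, wK, bot_zero L hL, countP_neg L hL]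
  have h := xl_split (K := K) N L
  have h1 : (L.map (fun c => yv K N c.2)).prod = xl K N (L.map Prod.snd) := by
    rw [xl, List.map_map]; rfl
  rw [h1, h]
  simp only [Nat.cast_zero, add_zero]
  ring

theorem c0_eq (L : List Car) : c0 L = (lab0 L).length := by
  rw [c0, lab0, List.length_map, List.countP_eq_length_filter]

theorem lab0_lt (N : ℕ) (L : List Car) (hL : ∀ c ∈ L, c.2 < N) : ∀ x ∈ lab0 L, x < N := by
  intro x hx
  simp only [lab0, List.mem_map, List.mem_filter] at hx
  obtain ⟨c, ⟨h1, _⟩, rfl⟩ := hx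
  exact hL c h1

theorem len_lab0 (N m : ℕ) (hm : 1 ≤ m) (L : List Car) (hL : L ∈ DyW m N) :
    1 ≤ (lab0 L).length ∧ (lab0 L).length ≤ m := by
  obtain ⟨h1, h2, h3⟩ := (pWMem m N L).1 hL
  have h4 := len_split L
  refine ⟨?_, by omega⟩
  cases L with
  | nil => simp at h1; omega
  | cons c L =>
    have hc := h2 c (by simp)
    have h5 := h3.1
    simp only [Hi, dn] at h5
    have h6 : c.1 = 0 := by omega
    rw [lab0_cons, if_pos h6]
    simp

/-! ### the grouping -/

theorem group (q t : K) (N m : ℕ) (hm : 1 ≤ m) (G : List Car → MvPolynomial (Fin N) K) :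
    ∑ L ∈ DyW m N, C (qn q m / qn q (c0 L)) * (wU q t N L * G L) =
      ∑ r ∈ Icc 1 m, (qn q m / qn q r) • ∑ w ∈ Ws N r, xl K N w *
        ∑ L ∈ (DyW m N).filter (fun L => lab0 L = w), wK q t N L * G L := by
  classical
  have h1 : ∑ L ∈ DyW m N, C (qn q m / qn q (c0 L)) * (wU q t N L * G L) =
      ∑ r ∈ Icc 1 m, ∑ L ∈ (DyW m N).filter (fun L => (lab0 L).length = r),
        C (qn q m / qn q (c0 L)) * (wU q t N L * G L) := by
    rw [sum_fiberwise_of_maps_to]
    intro L hL
    rw [mem_Icc]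
    exact len_lab0 N m hm L hL
  rw [h1]
  refine sum_congr rfl fun r hr => ?_
  have h2 : ∑ L ∈ (DyW m N).filter (fun L => (lab0 L).length = r),
        C (qn q m / qn q (c0 L)) * (wU q t N L * G L) =
      ∑ w ∈ Ws N r, ∑ L ∈ ((DyW m N).filter (fun L => (lab0 L).length = r)).filter (fun L => lab0 L = w),
        C (qn q m / qn q (c0 L)) * (wU q t N L * G L) := by
    rw [sum_fiberwise_of_maps_to]
    intro L hL
    rw [mem_filter] at hL
    rw [mem_Ws]
    refine ⟨hL.2, lab0_lt N L fun c hc => ?_⟩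
    exact (((pWMem m N L).1 hL.1).2.1 c hc).2
  rw [h2, smul_sum]
  refine sum_congr rfl fun w hw => ?_
  have hl := ((mem_Ws N r w).1 hw).1
  have h3 : ((DyW m N).filter (fun L => (lab0 L).length = r)).filter (fun L => lab0 L = w) =
      (DyW m N).filter (fun L => lab0 L = w) := by
    ext L
    simp only [mem_filter]
    constructor
    · rintro ⟨⟨a, _⟩, c⟩; exact ⟨a, c⟩
    · rintro ⟨a, c⟩; exact ⟨⟨a, by rw [c, hl]⟩, c⟩
  rw [h3, mul_sum, smul_sum]
  refine sum_congr rfl fun L hL => ?_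
  rw [mem_filter] at hL
  have h0 : ∀ c ∈ L, 0 ≤ c.1 := fun c hc => (((pWMem m N L).1 hL.1).2.1 c hc).1
  rw [wU_eq q t N L h0, c0_eq, hL.2, hl, smul_eq_C_mul]
  ring

theorem KW_coeff (q t : K) (N m r : ℕ) (w : List ℕ) (hw : w ∈ Ws N r) (hr : r ≤ m) (a : ℕ) :
    ∑ L ∈ (DyW m N).filter (fun L => lab0 L = w), wK q t N L * PowerSeries.coeff a (PhiW q t N L) =
      kc q t N r a (m - r) w := by
  classical
  have h : VW N r w := (mem_Ws N r w).1 hw
  rw [kc, if_pos h, KW, map_sum, h.1, show r + (m - r) = m by omega]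
  refine sum_congr ?_ fun L _ => ?_
  · ext L; simp only [mem_filter]
  · rw [PowerSeries.coeff_C_mul]

/-! ### the operators -/

theorem sum_Ws_succ {A : Type} [AddCommMonoid A] (N s : ℕ) (F : List ℕ → A) :
    ∑ w ∈ Ws N (s + 1), F w = ∑ a ∈ range N, ∑ w ∈ Ws N s, F (a :: w) := by
  rw [Ws, Wd, sum_map, sum_product]
  rfl

theorem sum_Ws_zero {A : Type} [AddCommMonoid A] (N : ℕ) (F : List ℕ → A) :
    ∑ w ∈ Ws N 0, F w = F [] := by
  rw [Ws, Wd, sum_singleton]

theorem xl_cons (N x : ℕ) (l : List ℕ) : xl K N (x :: l) = yv K N x * xl K N l := by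
  simp [xl]

theorem WDm_pow (N : ℕ) (f : WF K N) (s : ℕ) (u : List ℕ) :
    ((WDm K N) ^ s) f u = ∑ w ∈ Ws N s, xl K N w * f (u ++ w) := by
  induction s generalizing u with
  | zero => rw [sum_Ws_zero]; simp [xl]
  | succ s ih =>
    rw [sum_Ws_succ, pow_succ', Module.End.mul_apply]
    have h : ∀ g : WF K N, WDm K N g u = ∑ a ∈ range N, yv K N a * g (u ++ [a]) := fun g => rfl
    rw [h]
    refine sum_congr rfl fun a _ => ?_
    rw [ih, mul_sum]
    refine sum_congr rfl fun w _ => ?_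
    rw [xl_cons, List.append_assoc, List.singleton_append]
    ring

theorem WDp_pow (q : K) (N : ℕ) (f : WF K N) (s : ℕ) (τ w : List ℕ) (hτ : τ ∈ Ws N s) :
    ((WDp q N) ^ s) f (τ ++ w) = C (q ^ (inl τ + crs τ w)) * f w := by
  induction s generalizing τ with
  | zero =>
    have := ((mem_Ws N 0 τ).1 hτ).1
    rw [List.length_eq_zero_iff] at this
    subst this
    simp [inl, crs]
  | succ s ih =>
    obtain ⟨h1, h2⟩ := (mem_Ws N (s + 1) τ).1 hτ
    cases τ with
    | nil => simp at h1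
    | cons a τ =>
      have ha : a < N := h2 a (by simp)
      have h3 : τ ∈ Ws N s := (mem_Ws N s τ).2 ⟨by simpa using h1, fun c hc => h2 c (by simp [hc])⟩
      rw [pow_succ', Module.End.mul_apply]
      have h : ∀ g : WF K N, WDp q N g (a :: (τ ++ w)) = C (q ^ gtc (τ ++ w) a) * g (τ ++ w) := fun g => by
        show (if a < N then C (q ^ gtc (τ ++ w) a) * g (τ ++ w) else 0) = _
        rw [if_pos ha]
      rw [List.cons_append, h, ih τ h3, ← mul_assoc, ← map_mul, ← pow_add]
      congr 3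
      have e1 : gtc (τ ++ w) a = gtc τ a + gtc w a := by
        simp only [gtc, List.countP_append]
      rw [e1, inl, crs_cons_left]
      ring

theorem WDmp (q : K) (N r s : ℕ) (f : WF K N) :
    ((WDm K N) ^ (r + s)) (((WDp q N) ^ s) f) [] =
      ∑ w ∈ Ws N r, xl K N w * ((∑ τ ∈ Ws N s, C (q ^ (inl τ + crs τ w)) * xl K N τ) * f w) := by
  rw [add_comm r s, pow_add, Module.End.mul_apply, WDm_pow]
  have h : ∀ τ ∈ Ws N s, xl K N τ * ((WDm K N) ^ r) (((WDp q N) ^ s) f) ([] ++ τ) =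
      ∑ w ∈ Ws N r, xl K N w * ((C (q ^ (inl τ + crs τ w)) * xl K N τ) * f w) := by
    intro τ hτ
    rw [WDm_pow, mul_sum]
    refine sum_congr rfl fun w _ => ?_
    rw [List.nil_append, WDp_pow q N f s τ w hτ]
    ring
  rw [sum_congr rfl h, sum_comm]
  refine sum_congr rfl fun w _ => ?_
  rw [← mul_sum, sum_mul]

end Cl

end Pool.VD
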