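import Pool.Agent.VD.StM

/-!
# Library: diagonal operators in an eigenbasis, homogeneous components
-/

set_option autoImplicit false
set_option linter.unusedSectionVars false

namespace Pool.VD

open MvPolynomial Finset

variable {K : Type} [Field K] [CharZero K]

/-- the homogeneous component of degree `n` -/
noncomputable def hc (K : Type) [Field K] (n : ℕ) : Lam K →ₗ[K] Lam K :=
  weightedHomogeneousComponent (fun i : ℕ => i + 1) n

theorem hc_same {n : ℕ} {f : Lam K} (hf : IsH n f) : hc K n f = f :=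
  IsWeightedHomogeneous.weightedHomogeneousComponent_same hf

theorem hc_ne {n m : ℕ} {f : Lam K} (hf : IsH m f) (h : n ≠ m) : hc K n f = 0 :=
  IsWeightedHomogeneous.weightedHomogeneousComponent_ne n hf h

theorem hc_isH (n : ℕ) (f : Lam K) : IsH n (hc K n f) :=
  weightedHomogeneousComponent_isWeightedHomogeneous n f

theorem IsH.zero (n : ℕ) : IsH n (0 : Lam K) := isWeightedHomogeneous_zero K _ n

theorem IsH.one : IsH 0 (1 : Lam K) := isWeightedHomogeneous_one K _

theorem IsH.add {n : ℕ} {f g : Lam K} (hf : IsH n f) (hg : IsH n g) : IsH n (f + g) :=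
  IsWeightedHomogeneous.add hf hg

theorem IsH.sub {n : ℕ} {f g : Lam K} (hf : IsH n f) (hg : IsH n g) : IsH n (f - g) :=
  IsWeightedHomogeneous.sub hf hg

theorem IsH.neg {n : ℕ} {f : Lam K} (hf : IsH n f) : IsH n (-f) :=
  IsWeightedHomogeneous.neg hf

theorem IsH.smul {n : ℕ} {f : Lam K} (c : K) (hf : IsH n f) : IsH n (c • f) :=
  Submodule.smul_mem (weightedHomogeneousSubmodule K (fun i : ℕ => i + 1) n) c hf

theorem IsH.mul {n m : ℕ} {f g : Lam K} (hf : IsH n f) (hg : IsH m g) : IsH (n + m) (f * g) :=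
  IsWeightedHomogeneous.mul hf hg

theorem IsH.X (i : ℕ) : IsH (i + 1) (X i : Lam K) := isWeightedHomogeneous_X K _ i

theorem IsH.C (c : K) : IsH 0 (C c : Lam K) := isWeightedHomogeneous_C _ c

theorem IsH.sum {ι : Type} {n : ℕ} (s : Finset ι) (f : ι → Lam K) (h : ∀ i ∈ s, IsH n (f i)) :
    IsH n (∑ i ∈ s, f i) :=
  Submodule.sum_mem (weightedHomogeneousSubmodule K (fun i : ℕ => i + 1) n) h

theorem IsH.unique {n m : ℕ} {f : Lam K} (h1 : IsH n f) (h2 : IsH m f) (hnm : n ≠ m) : f = 0 := by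
  rw [← hc_same h1]
  exact hc_ne h2 hnm

theorem sum_hc (f : Lam K) : ∃ N, ∑ n ∈ range N, hc K n f = f := by
  classical
  refine ⟨weightedTotalDegree (fun i : ℕ => i + 1) f + 1, ?_⟩
  have h := sum_weightedHomogeneousComponent (R := K) (fun i : ℕ => i + 1) f
  conv_rhs => rw [← h]
  rw [finsum_eq_sum_of_support_subset]
  · rfl
  · intro m hm
    rw [Finset.mem_coe, Finset.mem_range, Nat.lt_succ_iff]
    by_contra hlt
    exact hm (weightedHomogeneousComponent_eq_zero m f (not_le.1 hlt))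

variable (b : Module.Basis YoungDiagram K (Lam K))

theorem dg_basis (φ : YoungDiagram → K) (μ : YoungDiagram) : dg b φ (b μ) = φ μ • b μ := by
  rw [dg, Module.Basis.constr_basis]

theorem dg_repr (φ : YoungDiagram → K) (f : Lam K) (μ : YoungDiagram) :
    b.repr (dg b φ f) μ = φ μ * b.repr f μ := by
  have h : (b.coord μ) ∘ₗ (dg b φ) = φ μ • b.coord μ := by
    refine b.ext fun ν => ?_
    simp only [LinearMap.comp_apply, dg_basis, map_smul, LinearMap.smul_apply,
      Module.Basis.coord_apply, Module.Basis.repr_self, smul_eq_mul]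
    by_cases hν : ν = μ
    · rw [hν]
    · rw [Finsupp.single_eq_of_ne (Ne.symm hν)]
      simp
  have h1 := LinearMap.congr_fun h f
  simpa using h1

theorem repr_ext {f g : Lam K} (h : ∀ μ, b.repr f μ = b.repr g μ) : f = g :=
  b.repr.injective (Finsupp.ext h)

theorem dg_dg (φ ψ : YoungDiagram → K) (f : Lam K) :
    dg b φ (dg b ψ f) = dg b (fun μ => φ μ * ψ μ) f := by
  refine repr_ext b fun μ => ?_
  rw [dg_repr, dg_repr, dg_repr, mul_assoc]

theorem dg_comm (φ ψ : YoungDiagram → K) (f : Lam K) :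
    dg b φ (dg b ψ f) = dg b ψ (dg b φ f) := by
  rw [dg_dg, dg_dg]
  congr 2
  funext μ
  ring

theorem dg_congr {φ ψ : YoungDiagram → K} {f : Lam K}
    (h : ∀ μ, b.repr f μ ≠ 0 → φ μ = ψ μ) : dg b φ f = dg b ψ f := by
  refine repr_ext b fun μ => ?_
  rw [dg_repr, dg_repr]
  by_cases hμ : b.repr f μ = 0
  · rw [hμ, mul_zero, mul_zero]
  · rw [h μ hμ]

variable {b} {q t : K}

theorem EB.d0_eq (hb : EB q t b) : Dk q t 0 = dg b (cm q t) :=
  b.ext fun μ => by rw [hb.d0, dg_basis]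

theorem EB.ds_eq (hb : EB q t b) : Ds q t = dg b (cm q⁻¹ t⁻¹) :=
  b.ext fun μ => by rw [hb.ds, dg_basis]

theorem EB.hc_eq (hb : EB q t b) (n : ℕ) :
    hc K n = dg b (fun μ => if μ.card = n then 1 else 0) := by
  refine b.ext fun μ => ?_
  rw [dg_basis]
  split_ifs with h
  · rw [one_smul, hc_same]
    rw [← h]
    exact hb.hom μ
  · rw [zero_smul]
    exact hc_ne (hb.hom μ) (Ne.symm h)

theorem EB.repr_zero (hb : EB q t b) {n : ℕ} {f : Lam K} (hf : IsH n f) {μ : YoungDiagram}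
    (hμ : μ.card ≠ n) : b.repr f μ = 0 := by
  have h := dg_repr b (fun μ => if μ.card = n then 1 else 0) f μ
  rw [← hb.hc_eq n, hc_same hf] at h
  simpa [hμ] using h

theorem EB.dg_isH (hb : EB q t b) (φ : YoungDiagram → K) {n : ℕ} {f : Lam K} (hf : IsH n f) :
    IsH n (dg b φ f) := by
  have h : hc K n (dg b φ f) = dg b φ f := by
    rw [hb.hc_eq n, dg_comm, ← hb.hc_eq n, hc_same hf]
  rw [← h]
  exact hc_isH _ _

theorem EB.d0_comm (hb : EB q t b) (φ : YoungDiagram → K) (f : Lam K) :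
    Dk q t 0 (dg b φ f) = dg b φ (Dk q t 0 f) := by
  rw [hb.d0_eq, dg_comm]

/-- `D_0 - 1` is injective in positive degree. -/
theorem EB.inj (hb : EB q t b) (hM : Mk q t 1 ≠ 0) (hB : ∀ μ, Bm q t μ = 0 → μ.card = 0)
    {n : ℕ} (hn : 1 ≤ n) {f : Lam K} (hf : IsH n f) (h : Dk q t 0 f = f) : f = 0 := by
  refine repr_ext b fun μ => ?_
  rw [map_zero, Finsupp.zero_apply]
  by_cases hμ : μ.card = n
  · have h1 := dg_repr b (cm q t) f μ
    rw [← hb.d0_eq, h] at h1
    have h2 : (Mk q t 1 * Bm q t μ) * b.repr f μ = 0 := by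
      have h3 : cm q t μ * b.repr f μ = b.repr f μ - Mk q t 1 * Bm q t μ * b.repr f μ := by
        rw [cm]; ring
      rw [h3] at h1
      linear_combination h1
    rcases mul_eq_zero.1 h2 with h4 | h4
    · rcases mul_eq_zero.1 h4 with h5 | h5
      · exact absurd h5 hM
      · have := hB μ h5
        omega
    · exact h4
  · exact hb.repr_zero hf hμ

theorem Bm_zero_of {q t : K} (hB : StB) (hq : Gq q t) : ∀ μ, Bm q t μ = 0 → μ.card = 0 := by
  intro μ hμ
  have h : Bm q t (⊥ : YoungDiagram) = 0 := by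
    simp [Bm]
  have h1 := (hB K q t).1 hq μ ⊥ (by rw [hμ, h])
  rw [h1]
  simp

end Pool.VD
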