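import Pool.Agent.VD.M_SPR

/-! # VD block S: the theorem of block S from `StRat` (helper54) -/

set_option autoImplicit false

namespace Pool.VD

open MvPolynomial Finset

/-! ### words -/

theorem leg_p_lb (L : List Car) : ∀ p : Car, Leg p L → -(L.length : ℤ) ≤ p.1 := by
  induction L with
  | nil => intro p h; have h' : 0 ≤ p.1 := h; simpa using h'
  | cons u L ih =>
    intro p h
    obtain ⟨h1, h2⟩ := h
    have := ih u h2
    unfold Hi dn at h1
    simp only [List.length_cons]
    push_cast
    simp only at h1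
    omega

theorem leg_lb (L : List Car) : ∀ p : Car, Leg p L → ∀ u ∈ L, -(L.length : ℤ) ≤ u.1 := by
  induction L with
  | nil => intro p _ u hu; simp at hu
  | cons a L ih =>
    intro p h u hu
    obtain ⟨h1, h2⟩ := h
    simp only [List.length_cons]
    push_cast
    rcases List.mem_cons.1 hu with rfl | hu
    · have := leg_p_lb L _ h2
      omega
    · have := ih a h2 u hu
      omega

theorem leg_ub (L : List Car) : ∀ p : Car, Leg p L → ∀ u ∈ L, u.1 ≤ p.1 + (L.length : ℤ) := by
  induction L with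
  | nil => intro p _ u hu; simp at hu
  | cons a L ih =>
    intro p h u hu
    obtain ⟨h1, h2⟩ := h
    unfold Hi dn at h1
    simp only [List.length_cons]
    push_cast
    simp only at h1
    rcases List.mem_cons.1 hu with rfl | hu
    · omega
    · have := ih a h2 u hu
      omega

/-- all levels between `p` and a higher car occur -/
theorem leg_up (L : List Car) : ∀ p : Car, Leg p L → ∀ u ∈ L, ∀ l : ℤ, p.1 < l → l ≤ u.1 →
    ∃ v ∈ L, v.1 = l := by
  induction L with
  | nil => intro p _ u hu; simp at hu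
  | cons a L ih =>
    intro p h u hu l hl hlu
    obtain ⟨h1, h2⟩ := h
    unfold Hi dn at h1
    simp only at h1
    by_cases hla : l ≤ a.1
    · exact ⟨a, by simp, by omega⟩
    · rcases List.mem_cons.1 hu with rfl | hu
      · omega
      · obtain ⟨v, hv, hvl⟩ := ih a h2 u hu l (by omega) hlu
        exact ⟨v, List.mem_cons_of_mem _ hv, hvl⟩

theorem leg_to0 (L : List Car) : ∀ p : Car, Leg p L → ∀ l : ℤ, p.1 ≤ l → l ≤ 0 →
    l = p.1 ∨ ∃ v ∈ L, v.1 = l := by
  induction L with
  | nil => intro p h l h1 h2; left; have : 0 ≤ p.1 := h; omega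
  | cons a L ih =>
    intro p h l hl hl0
    obtain ⟨h1, h2⟩ := h
    unfold Hi dn at h1
    simp only at h1
    by_cases hlp : l = p.1
    · left; exact hlp
    · right
      rcases ih a h2 l (by omega) hl0 with h | ⟨v, hv, hvl⟩
      · exact ⟨a, by simp, h.symm⟩
      · exact ⟨v, List.mem_cons_of_mem _ hv, hvl⟩

theorem leg_dn (L : List Car) : ∀ p : Car, Leg p L → ∀ u ∈ L, ∀ l : ℤ, u.1 ≤ l → l ≤ 0 →
    ∃ v ∈ L, v.1 = l := by
  induction L with
  | nil => intro p _ u hu; simp at hu
  | cons a L ih =>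
    intro p h u hu l hl hl0
    obtain ⟨h1, h2⟩ := h
    rcases List.mem_cons.1 hu with rfl | hu
    · rcases leg_to0 L _ h2 l hl hl0 with h | ⟨v, hv, hvl⟩
      · exact ⟨_, by simp, h.symm⟩
      · exact ⟨v, List.mem_cons_of_mem _ hv, hvl⟩
    · obtain ⟨v, hv, hvl⟩ := ih a h2 u hu l hl hl0
      exact ⟨v, List.mem_cons_of_mem _ hv, hvl⟩

theorem bot_le (L : List Car) : ∀ c ∈ L, -(bot L : ℤ) ≤ c.1 := by
  induction L with
  | nil => intro c hc; simp at hc
  | cons a L ih =>
    intro c hc
    have hb : bot (a :: L) = max (-a.1).toNat (bot L) := rfl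
    rw [hb]
    rcases List.mem_cons.1 hc with rfl | hc
    · have := le_max_left (-c.1).toNat (bot L)
      omega
    · have := ih c hc
      have := le_max_right (-a.1).toNat (bot L)
      omega

theorem bot_mem (L : List Car) : bot L = 0 ∨ ∃ c ∈ L, c.1 = -(bot L : ℤ) := by
  induction L with
  | nil => left; rfl
  | cons a L ih =>
    have hb : bot (a :: L) = max (-a.1).toNat (bot L) := rfl
    rw [hb]
    rcases le_total (-a.1).toNat (bot L) with h | h
    · rw [max_eq_right h]
      rcases ih with ih | ⟨c, hc, hcl⟩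
      · left; exact ih
      · right; exact ⟨c, List.mem_cons_of_mem _ hc, hcl⟩
    · rw [max_eq_left h]
      by_cases h0 : (-a.1).toNat = 0
      · left; exact h0
      · right
        exact ⟨a, by simp, by omega⟩

theorem bot_eq {L : List Car} {s : ℕ} (h1 : ∀ c ∈ L, -(s : ℤ) ≤ c.1) (h2 : ∃ c ∈ L, c.1 = -(s : ℤ)) :
    bot L = s := by
  obtain ⟨c, hc, hcs⟩ := h2
  have h3 := bot_le L c hc
  rcases bot_mem L with h4 | ⟨d, hd, hds⟩
  · omega
  · have := h1 d hd
    omega

/-! ### the finite sets -/

theorem mem_Wd {α : Type} (A : Finset α) (n : ℕ) (L : List α) :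
    L ∈ Wd A n ↔ L.length = n ∧ ∀ u ∈ L, u ∈ A := by
  induction n generalizing L with
  | zero =>
    unfold Wd
    rw [Finset.mem_singleton, List.length_eq_zero_iff]
    constructor
    · rintro rfl; simp
    · exact fun h => h.1
  | succ n ih =>
    unfold Wd
    rw [Finset.mem_map]
    constructor
    · rintro ⟨⟨a, L'⟩, h1, rfl⟩
      rw [Finset.mem_product, ih] at h1
      refine ⟨by simp [h1.2.1], ?_⟩
      intro u hu
      simp only [Function.Embedding.coeFn_mk, List.mem_cons] at hu
      rcases hu with rfl | hu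
      · exact h1.1
      · exact h1.2.2 u hu
    · rintro ⟨h1, h2⟩
      cases L with
      | nil => simp at h1
      | cons a L' =>
        refine ⟨(a, L'), ?_, rfl⟩
        rw [Finset.mem_product, ih]
        exact ⟨h2 a (by simp), by simpa using h1, fun u hu => h2 u (List.mem_cons_of_mem _ hu)⟩

theorem mem_SqW (m N : ℕ) (L : List Car) :
    L ∈ SqW m N ↔ L.length = m ∧ (∀ u ∈ L, u.2 < N) ∧ Leg (0, N) L := by
  classical
  unfold SqW
  rw [Finset.mem_filter, mem_Wd]
  constructor
  · rintro ⟨⟨h1, h2⟩, h3⟩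
    refine ⟨h1, ?_, h3⟩
    intro u hu
    have := h2 u hu
    unfold Al at this
    rw [Finset.mem_product, Finset.mem_range] at this
    exact this.2
  · rintro ⟨h1, h2, h3⟩
    refine ⟨⟨h1, ?_⟩, h3⟩
    intro u hu
    unfold Al
    rw [Finset.mem_product, Finset.mem_range, Finset.mem_Icc]
    have h4 := leg_lb L _ h3 u hu
    have h5 := leg_ub L _ h3 u hu
    simp only at h5
    rw [h1] at h4 h5
    exact ⟨⟨h4, by omega⟩, h2 u hu⟩

theorem mem_DyW (m N : ℕ) (L : List Car) :
    L ∈ DyW m N ↔ L ∈ SqW m N ∧ ∀ c ∈ L, 0 ≤ c.1 := by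
  classical
  unfold DyW
  rw [Finset.mem_filter]

/-- good contents -/
structure GC (m N H : ℕ) (C : Multiset Car) : Prop where
  card : C.card = m
  bd : ∀ u ∈ C, u.2 < N ∧ 0 ≤ u.1 ∧ u.1 ≤ (H : ℤ)
  full : ∀ l : ℕ, l ≤ H → 1 ≤ C.countP (fun u => u.1 = (l : ℤ))

theorem shc_mem (L : List Car) (u : Car) :
    u ∈ shc L ↔ (u.1 - (bot L : ℤ), u.2) ∈ L := by
  unfold shc
  rw [Multiset.mem_coe, List.mem_map]
  constructor
  · rintro ⟨c, hc, rfl⟩
    simpa using hc
  · intro h
    exact ⟨_, h, by simp⟩

theorem sq_lev0 {m N : ℕ} (hm : 1 ≤ m) {L : List Car} (hL : L ∈ SqW m N) : ∃ v ∈ L, v.1 = 0 := by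
  rw [mem_SqW] at hL
  obtain ⟨h1, h2, h3⟩ := hL
  cases L with
  | nil => simp at h1; omega
  | cons a L =>
    have ha : a.1 ≤ 0 := by
      have h4 := h3.1
      have h5 := h2 a (by simp)
      unfold Hi dn at h4
      simp only at h4
      omega
    exact leg_dn _ _ h3 a (by simp) 0 ha (le_refl _)

theorem sq_GC {m N : ℕ} (hm : 1 ≤ m) {L : List Car} (hL : L ∈ SqW m N) : ∃ H, GC m N H (shc L) := by
  have h0 := sq_lev0 hm hL
  have hL' := hL
  rw [mem_SqW] at hL'
  obtain ⟨h1, h2, h3⟩ := hL'
  -- highest level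
  have hne : (L.toFinset).Nonempty := by
    obtain ⟨v, hv, _⟩ := h0
    exact ⟨v, List.mem_toFinset.2 hv⟩
  obtain ⟨X, hX, hXmax⟩ := Finset.exists_max_image L.toFinset (fun u => u.1) hne
  rw [List.mem_toFinset] at hX
  have hX0 : 0 ≤ X.1 := by
    obtain ⟨v, hv, hv0⟩ := h0
    have := hXmax v (List.mem_toFinset.2 hv)
    omega
  refine ⟨(X.1 + bot L).toNat, ⟨?_, ?_, ?_⟩⟩
  · unfold shc
    rw [Multiset.coe_card, List.length_map, h1]
  · intro u hu
    rw [shc_mem] at hu
    have h4 := h2 _ hu
    have h5 := bot_le L _ hu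
    have h6 := hXmax _ (List.mem_toFinset.2 hu)
    simp only at h4 h5 h6
    refine ⟨h4, by omega, by omega⟩
  · intro l hl
    have hlX : (l : ℤ) - bot L ≤ X.1 := by omega
    have hex : ∃ v ∈ L, v.1 = (l : ℤ) - bot L := by
      rcases le_or_gt ((l : ℤ) - bot L) 0 with h | h
      · rcases bot_mem L with hb | ⟨c, hc, hcb⟩
        · have : (l : ℤ) - bot L = 0 := by rw [hb] at h ⊢; omega
          rw [this]; exact h0
        · exact leg_dn L _ h3 c hc _ (by omega) h
      · exact leg_up L _ h3 X hX _ (by simpa using h) hlX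
    obtain ⟨v, hv, hvl⟩ := hex
    rw [Nat.one_le_iff_ne_zero, ← Nat.pos_iff_ne_zero, Multiset.countP_pos]
    refine ⟨((l : ℤ), v.2), ?_, rfl⟩
    rw [shc_mem]
    have : (((l : ℤ), v.2).1 - (bot L : ℤ), ((l : ℤ), v.2).2) = v := by
      apply Prod.ext
      · simp only; omega
      · rfl
    rw [this]; exact hv

theorem sft_shc (L : List Car) : sft (bot L : ℤ) (shc L) = (L : Multiset Car) := by
  unfold sft shc
  rw [Multiset.map_coe, List.map_map]
  congr 1
  conv_rhs => rw [← List.map_id L]
  apply List.map_congr_left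
  intro u _
  simp

theorem shc_of {s : ℤ} {C : Multiset Car} {L : List Car} (h : (L : Multiset Car) = sft s C)
    (hs : (bot L : ℤ) = s) : shc L = C := by
  unfold shc
  rw [← Multiset.map_coe, h, hs]
  unfold sft
  rw [Multiset.map_map]
  conv_rhs => rw [← Multiset.map_id C]
  apply Multiset.map_congr rfl
  intro u _
  simp

theorem mem_sft (s : ℤ) (C : Multiset Car) (u : Car) : u ∈ sft s C ↔ (u.1 + s, u.2) ∈ C := by
  unfold sft
  rw [Multiset.mem_map]
  constructor
  · rintro ⟨c, hc, rfl⟩
    simpa using hc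
  · intro h
    exact ⟨_, h, by simp⟩

theorem countP_sft (s : ℤ) (C : Multiset Car) (P : Car → Prop) [DecidablePred P] :
    (sft s C).countP P = C.countP (fun u => P (u.1 - s, u.2)) := by
  unfold sft
  rw [Multiset.countP_map, ← Multiset.countP_eq_card_filter]

theorem fiber_sq {m N H : ℕ} {C : Multiset Car} (hC : GC m N H C) (s : ℕ) (L : List Car) :
    (L ∈ SqW m N ∧ shc L = C ∧ bot L = s) ↔ (L ∈ Lw (sft (s : ℤ) C) ∧ Leg (0, N) L) := by
  constructor
  · rintro ⟨h1, h2, h3⟩
    rw [mem_SqW] at h1
    refine ⟨?_, h1.2.2⟩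
    rw [mem_Lw, ← h2, ← h3, sft_shc]
  · rintro ⟨h1, h2⟩
    rw [mem_Lw] at h1
    have hmem : ∀ u, u ∈ L ↔ (u.1 + s, u.2) ∈ C := by
      intro u
      rw [← Multiset.mem_coe, h1, mem_sft]
    have hb : bot L = s := by
      apply bot_eq
      · intro c hc
        have := hC.bd _ ((hmem c).1 hc)
        simp only at this
        omega
      · have h4 := hC.full 0 (Nat.zero_le _)
        have h5 : 0 < C.countP (fun u => u.1 = ((0 : ℕ) : ℤ)) := h4
        rw [Multiset.countP_pos] at h5
        obtain ⟨c, hc, hc0⟩ := h5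
        refine ⟨(c.1 - s, c.2), ?_, ?_⟩
        · rw [hmem]; simpa using hc
        · simp only; rw [hc0]; simp
    refine ⟨?_, shc_of h1 (by rw [hb]), hb⟩
    rw [mem_SqW]
    refine ⟨?_, ?_, h2⟩
    · rw [← Multiset.coe_card, h1]
      unfold sft
      rw [Multiset.card_map, hC.card]
    · intro u hu
      exact (hC.bd _ ((hmem u).1 hu)).1

variable {K : Type} [Field K] [CharZero K]

omit [CharZero K] in
theorem Tw_filter (q : K) (p : Car) (M : Multiset Car) [DecidablePred (fun L => Leg p L)] :
    Tw q p M = ∑ L ∈ (Lw M).filter (fun L => Leg p L), q ^ inv L := by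
  unfold Tw wt
  rw [Finset.sum_filter]
  apply Finset.sum_congr rfl
  intro L _
  by_cases h : Leg p L
  · rw [if_pos h, if_pos h]
  · rw [if_neg h, if_neg h]

omit [CharZero K] in
theorem qn_add (q : K) (a b : ℕ) : qn q (a + b) = qn q a + q ^ a * qn q b := by
  unfold qn
  rw [Finset.sum_range_add, Finset.mul_sum]
  congr 1
  apply Finset.sum_congr rfl
  intro i _
  rw [pow_add]

omit [CharZero K] in
theorem sum_qn (q : K) (C : Multiset Car) (hC : ∀ u ∈ C, 0 ≤ u.1) (H : ℕ) :
    ∑ s ∈ range H, q ^ (C.countP (fun u => u.1 < (s : ℤ))) * qn q (C.countP (fun u => u.1 = (s : ℤ))) =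
      qn q (C.countP (fun u => u.1 < (H : ℤ))) := by
  induction H with
  | zero =>
    have : C.countP (fun u => u.1 < ((0 : ℕ) : ℤ)) = 0 := by
      rw [Multiset.countP_eq_zero]
      intro u hu h
      have := hC u hu
      push_cast at h
      omega
    rw [this]; simp [qn]
  | succ H ih =>
    rw [Finset.sum_range_succ, ih, ← qn_add]
    congr 1
    clear ih hC
    induction C using Multiset.induction_on with
    | empty => simp
    | cons a C ih =>
      rw [Multiset.countP_cons, Multiset.countP_cons, Multiset.countP_cons, ← ih]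
      push_cast
      by_cases h1 : a.1 < (H : ℤ)
      · rw [if_pos h1, if_neg (by omega), if_pos (by omega)]; ring
      · by_cases h2 : a.1 = (H : ℤ)
        · rw [if_neg h1, if_pos h2, if_pos (by omega)]; ring
        · rw [if_neg h1, if_neg h2, if_neg (by omega)]; ring

theorem pSD (q : K) (hq : ∀ j : ℕ, 1 ≤ j → qn q j ≠ 0) (hR : StRat q) : StSD q := by
  classical
  intro R _ _ m N hm Φ
  -- group by the shifted content
  have hDS : ∀ L ∈ DyW m N, L ∈ SqW m N ∧ bot L = 0 ∧ shc L = (L : Multiset Car) := by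
    intro L hL
    rw [mem_DyW] at hL
    have hb : bot L = 0 := by
      rcases bot_mem L with h | ⟨c, hc, hcb⟩
      · exact h
      · have := hL.2 c hc
        omega
    refine ⟨hL.1, hb, ?_⟩
    have := sft_shc L
    rw [← this]
    unfold sft
    rw [hb]
    conv_lhs => rw [← Multiset.map_id (shc L)]
    apply Multiset.map_congr rfl
    intro u _
    simp
  rw [← Finset.sum_fiberwise_of_maps_to (s := SqW m N) (t := (SqW m N).image shc) (g := shc)
    (fun L hL => Finset.mem_image_of_mem _ hL)]
  rw [← Finset.sum_fiberwise_of_maps_to (s := DyW m N) (t := (SqW m N).image shc)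
    (g := fun L : List Car => ((L : List Car) : Multiset Car))
    (fun L hL => by
      rw [Finset.mem_image]
      exact ⟨L, (hDS L hL).1, (hDS L hL).2.2⟩)]
  apply Finset.sum_congr rfl
  intro C hC
  rw [Finset.mem_image] at hC
  obtain ⟨L1, hL1, rfl⟩ := hC
  obtain ⟨H, hG⟩ := sq_GC hm hL1
  set C := shc L1 with hCdef
  clear_value C
  clear hCdef hL1 L1
  -- left side
  have hl : ∑ L ∈ (SqW m N).filter (fun L => shc L = C),
      (q ^ (inv L + L.countP (fun c => decide (c.1 < 0)))) • Φ (shc L) =
      (∑ L ∈ (SqW m N).filter (fun L => shc L = C),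
        q ^ (inv L + L.countP (fun c => decide (c.1 < 0)))) • Φ C := by
    rw [Finset.sum_smul]
    apply Finset.sum_congr rfl
    intro L hL
    rw [(Finset.mem_filter.1 hL).2]
  have hr : ∑ L ∈ (DyW m N).filter (fun L : List Car => ((L : List Car) : Multiset Car) = C),
      (qn q m / qn q (c0 L) * q ^ inv L) • Φ (L : Multiset Car) =
      (∑ L ∈ (DyW m N).filter (fun L : List Car => ((L : List Car) : Multiset Car) = C),
        (qn q m / qn q (c0 L) * q ^ inv L)) • Φ C := by
    rw [Finset.sum_smul]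
    apply Finset.sum_congr rfl
    intro L hL
    rw [(Finset.mem_filter.1 hL).2]
  rw [hl, hr]
  congr 1
  -- right side = ([m]/[c_0]) T(C)
  have hsft0 : sft ((0 : ℕ) : ℤ) C = C := by
    unfold sft
    conv_rhs => rw [← Multiset.map_id C]
    apply Multiset.map_congr rfl
    intro u _
    simp
  have hr2 : ∑ L ∈ (DyW m N).filter (fun L : List Car => ((L : List Car) : Multiset Car) = C),
      (qn q m / qn q (c0 L) * q ^ inv L) =
      qn q m / qn q (C.countP (fun u => u.1 = 0)) * Tw q (0, N) C := by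
    rw [Tw_filter, Finset.mul_sum]
    apply Finset.sum_congr
    · ext L
      rw [Finset.mem_filter, Finset.mem_filter]
      have hf := fiber_sq hG 0 L
      rw [hsft0] at hf
      rw [← hf]
      constructor
      · rintro ⟨h1, h2⟩
        have h3 := hDS L h1
        exact ⟨h3.1, by rw [h3.2.2, h2], h3.2.1⟩
      · rintro ⟨h1, h2, h3⟩
        have h4 : (L : Multiset Car) = C := by
          have := sft_shc L
          rw [h3, h2] at this
          rw [← this, hsft0]
        refine ⟨?_, h4⟩
        rw [mem_DyW]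
        refine ⟨h1, ?_⟩
        intro c hc
        rw [← Multiset.mem_coe, h4] at hc
        exact (hG.bd c hc).2.1
    · intro L hL
      rw [Finset.mem_filter, mem_Lw] at hL
      congr 3
      unfold c0
      rw [← hL.1, Multiset.coe_countP]
  rw [hr2]
  -- left side = sum over the shift
  have hs : ∀ L ∈ (SqW m N).filter (fun L => shc L = C), bot L ∈ range (H + 1) := by
    intro L hL
    rw [Finset.mem_filter] at hL
    rw [Finset.mem_range]
    obtain ⟨v, hv, hv0⟩ := sq_lev0 hm hL.1
    have h1 : ((bot L : ℤ), v.2) ∈ C := by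
      rw [← hL.2, shc_mem]
      have : (((bot L : ℤ), v.2).1 - (bot L : ℤ), ((bot L : ℤ), v.2).2) = v := by
        apply Prod.ext
        · simp only; omega
        · rfl
      rw [this]; exact hv
    have := (hG.bd _ h1).2.2
    simp only at this
    omega
  rw [← Finset.sum_fiberwise_of_maps_to hs]
  have hl2 : ∀ s ∈ range (H + 1), ∑ L ∈ ((SqW m N).filter (fun L => shc L = C)).filter (fun L => bot L = s),
      q ^ (inv L + L.countP (fun c => decide (c.1 < 0))) =
      (q ^ (C.countP (fun u => u.1 < (s : ℤ))) * qn q (C.countP (fun u => u.1 = (s : ℤ)))) *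
        (Tw q (0, N) C / qn q (C.countP (fun u => u.1 = 0))) := by
    intro s hs'
    rw [Finset.mem_range] at hs'
    have h1 := hR N H C hG.bd hG.full s (by omega)
    have h0 : qn q (C.countP (fun u => u.1 = 0)) ≠ 0 := by
      apply hq
      have := hG.full 0 (Nat.zero_le _)
      simpa using this
    have h2 : Tw q (0, N) (sft s C) = qn q (C.countP (fun u => u.1 = (s : ℤ))) *
        (Tw q (0, N) C / qn q (C.countP (fun u => u.1 = 0))) := by
      field_simp
      linear_combination h1
    rw [mul_assoc, ← h2, Tw_filter, Finset.mul_sum]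
    apply Finset.sum_congr
    · ext L
      rw [Finset.mem_filter, Finset.mem_filter, Finset.mem_filter, and_assoc, fiber_sq hG s L]
    · intro L hL
      rw [Finset.mem_filter, mem_Lw] at hL
      rw [pow_add, mul_comm]
      congr 2
      have h3 : (L : Multiset Car).countP (fun c => c.1 < 0) = C.countP (fun u => u.1 < (s : ℤ)) := by
        rw [hL.1, countP_sft]
        apply Multiset.countP_congr rfl
        intro u _
        simp
      rw [← h3, Multiset.coe_countP]
  rw [Finset.sum_congr rfl hl2, ← Finset.sum_mul, sum_qn q C (fun u hu => (hG.bd u hu).2.1)]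
  have h3 : C.countP (fun u => u.1 < ((H + 1 : ℕ) : ℤ)) = m := by
    rw [← hG.card, Multiset.countP_eq_card]
    intro u hu
    have := (hG.bd u hu).2.2
    push_cast
    omega
  rw [h3]
  ring

end Pool.VD
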