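import Pool.Agent.VD.StS

/-! # VD block S: insertion of the highest / lowest car (helper54) -/

set_option autoImplicit false

namespace Pool.VD

open MvPolynomial Finset

section basic

variable {R : Type} [CommRing R]

theorem hb_zero (q : R) (N : ℕ) : hb q N 0 = 1 := by
  cases N <;> simp [hb]

theorem hb_z (q : R) (b : ℕ) : hb q 0 (b + 1) = 0 := by
  simp [hb]

theorem hb_succ (q : R) (N b : ℕ) :
    hb q (N + 1) (b + 1) = hb q N (b + 1) + q ^ N * hb q (N + 1) b := by
  rw [hb]

theorem hb_succ' (q : R) (N b : ℕ) :
    hb q (N + 1) (b + 1) = hb q (N + 1) b + q ^ (b + 1) * hb q N (b + 1) := by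
  induction N generalizing b with
  | zero => rw [hb_succ, hb_z]; ring
  | succ N ih =>
    induction b with
    | zero =>
      have h1 := ih 0
      have e1 := hb_succ q (N + 1) 0
      have e2 := hb_succ q N 0
      rw [hb_zero] at e1 e2 h1
      rw [hb_zero]
      linear_combination e1 + h1 - q * e2
    | succ b ihb =>
      have h1 := ih (b + 1)
      have e1 := hb_succ q (N + 1) (b + 1)
      have e3 := hb_succ q (N + 1) b
      have e4 := hb_succ q N (b + 1)
      linear_combination e1 + h1 + q ^ (N + 1) * ihb - e3 - q ^ (b + 2) * e4

end basic

theorem pHb2 : StHb2 := fun _ _ q N b => hb_succ' q N b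

/-! ### words -/

theorem mem_Lw {M : Multiset Car} {L : List Car} : L ∈ Lw M ↔ (L : Multiset Car) = M := by
  unfold Lw
  rw [Multiset.mem_toFinset, Multiset.mem_lists_iff]
  exact eq_comm

theorem cnt0 {X : Car} {L0 : List Car} (hX : X ∉ L0) : L0.countP (fun u => decide (u = X)) = 0 := by
  rw [List.countP_eq_zero]
  intro u hu
  have : u ≠ X := by rintro rfl; exact hX hu
  simpa using this

theorem mem_Ins {X : Car} {b : ℕ} {L0 L : List Car} (hX : X ∉ L0) :
    L ∈ Ins X b L0 ↔ L.filter (fun u => decide (u ≠ X)) = L0 ∧
      L.countP (fun u => decide (u = X)) = b := by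
  unfold Ins
  rw [Finset.mem_filter, mem_Lw]
  constructor
  · rintro ⟨h1, h2⟩
    refine ⟨h2, ?_⟩
    have := congrArg (Multiset.countP (fun u => u = X)) h1
    rw [Multiset.countP_add, Multiset.coe_countP, Multiset.coe_countP, cnt0 hX, zero_add] at this
    rw [this, ← Multiset.coe_replicate, Multiset.coe_countP, List.countP_replicate]
    simp
  · rintro ⟨h1, h2⟩
    refine ⟨?_, h1⟩
    have h3 := Multiset.filter_add_not (fun u => u ≠ X) (L : Multiset Car)
    rw [← h3, Multiset.filter_coe, Multiset.filter_coe, h1]
    congr 1
    rw [← Multiset.coe_replicate]
    congr 1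
    rw [List.eq_replicate_iff]
    constructor
    · rw [← h2, List.countP_eq_length_filter]
      congr 2
      ext u
      simp
    · intro u hu
      rw [List.mem_filter] at hu
      simpa using hu.2

theorem sum_Ins_zero {R : Type} [AddCommMonoid R] {X : Car} {L0 : List Car} (hX : X ∉ L0)
    (f : List Car → R) : ∑ L ∈ Ins X 0 L0, f L = f L0 := by
  have : Ins X 0 L0 = {L0} := by
    ext L
    rw [mem_Ins hX, Finset.mem_singleton]
    constructor
    · rintro ⟨h1, h2⟩
      rw [← h1, List.filter_eq_self.2]
      intro u hu
      rw [List.countP_eq_zero] at h2
      have := h2 u hu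
      simpa using this
    · rintro rfl
      refine ⟨?_, cnt0 hX⟩
      rw [List.filter_eq_self]
      intro u hu
      have : u ≠ X := by
        rintro rfl
        exact hX hu
      simpa using this
  rw [this, Finset.sum_singleton]

theorem sum_Ins_nil {R : Type} [AddCommMonoid R] {X : Car} (b : ℕ) (f : List Car → R) :
    ∑ L ∈ Ins X (b + 1) [], f L = ∑ L ∈ Ins X b [], f (X :: L) := by
  have hX : X ∉ ([] : List Car) := by simp
  symm
  apply Finset.sum_bij' (i := fun L _ => X :: L) (j := fun L _ => L.tail)
  · intro L hL
    rw [mem_Ins hX] at hL ⊢
    simpa using hL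
  · intro L hL
    rw [mem_Ins hX] at hL ⊢
    obtain ⟨h1, h2⟩ := hL
    cases L with
    | nil => simp at h2
    | cons u L =>
      by_cases hu : u = X
      · subst hu
        simpa using And.intro h1 h2
      · simp [hu] at h1
  · intro L _; rfl
  · intro L hL
    rw [mem_Ins hX] at hL
    obtain ⟨h1, h2⟩ := hL
    cases L with
    | nil => simp at h2
    | cons u L =>
      by_cases hu : u = X
      · subst hu; rfl
      · simp [hu] at h1
  · intro L _; rfl

theorem sum_Ins_cons {R : Type} [AddCommMonoid R] {X Y : Car} (b : ℕ) {L0 : List Car}
    (hX : X ∉ Y :: L0) (f : List Car → R) :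
    ∑ L ∈ Ins X (b + 1) (Y :: L0), f L =
      ∑ L ∈ Ins X b (Y :: L0), f (X :: L) + ∑ L ∈ Ins X (b + 1) L0, f (Y :: L) := by
  have hYX : Y ≠ X := fun h => hX (by simp [h])
  have hX0 : X ∉ L0 := fun h => hX (List.mem_cons_of_mem _ h)
  have hun : Ins X (b + 1) (Y :: L0) =
      (Ins X b (Y :: L0)).image (fun L => X :: L) ∪ (Ins X (b + 1) L0).image (fun L => Y :: L) := by
    ext L
    rw [mem_Ins hX, Finset.mem_union, Finset.mem_image, Finset.mem_image]
    constructor
    · rintro ⟨h1, h2⟩
      cases L with
      | nil => simp at h1
      | cons u L =>
        by_cases hu : u = X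
        · subst hu
          left
          refine ⟨L, ?_, rfl⟩
          rw [mem_Ins hX]
          simpa using And.intro h1 h2
        · right
          have h3 : u = Y ∧ L.filter (fun u => decide (u ≠ X)) = L0 := by
            rw [List.filter_cons_of_pos (by simpa using hu)] at h1
            exact List.cons.inj h1
          refine ⟨L, ?_, by rw [h3.1]⟩
          rw [mem_Ins hX0]
          refine ⟨h3.2, ?_⟩
          rw [List.countP_cons, if_neg (by simpa using hu), add_zero] at h2
          exact h2
    · rintro (⟨L', hL', rfl⟩ | ⟨L', hL', rfl⟩)
      · rw [mem_Ins hX] at hL'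
        simpa using hL'
      · rw [mem_Ins hX0] at hL'
        rw [List.filter_cons_of_pos (by simpa using hYX), List.countP_cons, if_neg (by simpa using hYX),
          hL'.1, hL'.2]
        exact ⟨rfl, rfl⟩
  have hdis : Disjoint ((Ins X b (Y :: L0)).image (fun L => X :: L))
      ((Ins X (b + 1) L0).image (fun L => Y :: L)) := by
    rw [Finset.disjoint_left]
    intro L h1 h2
    rw [Finset.mem_image] at h1 h2
    obtain ⟨L1, _, rfl⟩ := h1
    obtain ⟨L2, _, h⟩ := h2
    exact hYX (List.cons.inj h).1
  rw [hun, Finset.sum_union hdis, Finset.sum_image, Finset.sum_image]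
  · intro a _ b _ h; exact (List.cons.inj h).2
  · intro a _ b _ h; exact (List.cons.inj h).2

section weights

variable {R : Type} [CommRing R]

theorem wt_nil (q : R) (p : Car) : wt q p [] = if 0 ≤ p.1 then 1 else 0 := by
  unfold wt Leg inv
  simp

theorem wt_cons (q : R) (p u : Car) (L : List Car) :
    wt q p (u :: L) = if Hi p (dn u) then q ^ (L.countP (fun d => decide (att u d))) * wt q u L else 0 := by
  unfold wt
  rw [show Leg p (u :: L) = (Hi p (dn u) ∧ Leg u L) from rfl]
  rw [show inv (u :: L) = L.countP (fun d => decide (att u d)) + inv L from rfl]
  by_cases h1 : Hi p (dn u)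
  · by_cases h2 : Leg u L
    · simp [h1, h2, pow_add]
    · simp [h1, h2]
  · simp [h1]

/-- number of cars with a property in an insertion -/
theorem countP_Ins {X : Car} {b : ℕ} {L0 L : List Car} (hL : L ∈ Ins X b L0)
    (f : Car → Bool) : L.countP f = L0.countP f + if f X = true then b else 0 := by
  have h0 : (L : Multiset Car) = (L0 : Multiset Car) + Multiset.replicate b X := by
    unfold Ins at hL
    rw [Finset.mem_filter, mem_Lw] at hL
    exact hL.1
  have h1 := congrArg (Multiset.countP (fun u => f u = true)) h0
  rw [Multiset.countP_add, Multiset.coe_countP, Multiset.coe_countP] at h1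
  have h2 : Multiset.countP (fun u => f u = true) (Multiset.replicate b X) = if f X = true then b else 0 := by
    rw [← Multiset.coe_replicate, Multiset.coe_countP, List.countP_replicate]
    simp
  rw [h2] at h1
  simpa using h1

end weights

/-! ### facts on the order -/

theorem not_Hi_self (X : Car) : ¬ Hi X X := by unfold Hi; omega

theorem not_att_self (X : Car) : ¬ att X X := by unfold att; omega

theorem Hi_of_att {p c : Car} (h : att p c) : Hi p c := by
  unfold att at h; unfold Hi; omega

theorem pUp : StUp := by
  intro R _ q X p b L0 hX0 hp hL0 hpe hLe
  have key : ∀ (L0 : List Car), (∀ u ∈ L0, Hi X u) → (∀ u ∈ L0, att X u → 0 ≤ u.1) → ∀ (b : ℕ) (p : Car),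
      (Hi X p ∨ p = X) → (att X p → 0 ≤ p.1) →
      ∑ L ∈ Ins X b L0, wt q p L =
        hb q (L0.countP (fun u => decide (att X u)) + ep p X) b * wt q p L0 := by
    intro L0
    induction L0 with
    | nil =>
      intro _ _ b
      have hXn : X ∉ ([] : List Car) := by simp
      induction b with
      | zero => intro p _ _; rw [sum_Ins_zero hXn, hb_zero, one_mul]
      | succ b ihb =>
        intro p hp hpe
        rw [sum_Ins_nil]
        have h1 : ∀ L ∈ Ins X b [], wt q p (X :: L) = if Hi p (dn X) then wt q X L else 0 := by
          intro L hL
          rw [wt_cons, countP_Ins hL]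
          simp [not_att_self]
        rw [Finset.sum_congr rfl h1]
        have h2 := ihb X (Or.inr rfl) (fun h => absurd h (not_att_self X))
        have e1 : ep X X = 1 := by simp [ep]
        rw [wt_nil, if_pos hX0, e1] at h2
        simp only [List.countP_nil, zero_add, mul_one] at h2
        by_cases hc : p = X ∨ att X p
        · have e2 : ep p X = 1 := by simp [ep, hc]
          have e3 : Hi p (dn X) := by
            rcases hc with rfl | hc
            · unfold Hi dn; simp
            · unfold att at hc; unfold Hi dn; simp only; omega
          have e4 : 0 ≤ p.1 := by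
            rcases hc with rfl | hc
            · exact hX0
            · exact hpe hc
          rw [wt_nil, if_pos e4, e2]
          simp only [e3, if_true, List.countP_nil, zero_add, mul_one]
          rw [h2, hb_succ, hb_z]; ring
        · have e2 : ep p X = 0 := by simp [ep, hc]
          have e3 : ¬ Hi p (dn X) := by
            intro h
            apply hc
            rcases hp with hp | hp
            · right
              unfold Hi dn at h; unfold Hi at hp; unfold att; simp only at h; omega
            · left; exact hp
          rw [e2]
          simp only [e3, if_false, Finset.sum_const_zero, List.countP_nil, add_zero, hb_z, zero_mul]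
    | cons Y L0 ih =>
      intro hL hLe b
      have hXn : X ∉ Y :: L0 := fun h => not_Hi_self X (hL X h)
      have hY : Hi X Y := hL Y (by simp)
      have hYX : Y ≠ X := fun h => hXn (by simp [h])
      have ih' := ih (fun u hu => hL u (List.mem_cons_of_mem _ hu))
        (fun u hu => hLe u (List.mem_cons_of_mem _ hu))
      have hXn0 : X ∉ L0 := fun h => hXn (List.mem_cons_of_mem _ h)
      induction b with
      | zero => intro p _ _; rw [sum_Ins_zero hXn, hb_zero, one_mul]
      | succ b ihb =>
        intro p hp hpe
        rw [sum_Ins_cons b hXn]
        -- first letter `X`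
        have h1 : ∀ L ∈ Ins X b (Y :: L0), wt q p (X :: L) =
            if Hi p (dn X) then q ^ ((Y :: L0).countP (fun u => decide (att X u))) * wt q X L else 0 := by
          intro L hL'
          rw [wt_cons, countP_Ins hL']
          simp [not_att_self]
        have h2 : ∀ L ∈ Ins X (b + 1) L0, wt q p (Y :: L) =
            if Hi p (dn Y) then q ^ (L0.countP (fun u => decide (att Y u))) * wt q Y L else 0 := by
          intro L hL'
          have hn : ¬ att Y X := by
            intro h
            have := Hi_of_att h
            unfold Hi at this hY; omega
          rw [wt_cons, countP_Ins hL']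
          simp [hn]
        rw [Finset.sum_congr rfl h1, Finset.sum_congr rfl h2]
        have e1 : ep X X = 1 := by simp [ep]
        have h3 := ihb X (Or.inr rfl) (fun h => absurd h (not_att_self X))
        rw [e1] at h3
        have h4 := ih' (b + 1) Y (Or.inl hY) (hLe Y (by simp))
        have e5 : L0.countP (fun u => decide (att X u)) + ep Y X =
            (Y :: L0).countP (fun u => decide (att X u)) := by
          rw [List.countP_cons]
          congr 1
          unfold ep
          simp [hYX]
        rw [e5] at h4
        set n := (Y :: L0).countP (fun u => decide (att X u)) with hn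
        have h5 : (∑ L ∈ Ins X (b + 1) L0,
            if Hi p (dn Y) then q ^ (L0.countP (fun u => decide (att Y u))) * wt q Y L else 0) =
            hb q n (b + 1) * wt q p (Y :: L0) := by
          rw [wt_cons]
          by_cases hc : Hi p (dn Y)
          · simp only [hc, if_true]
            rw [← Finset.mul_sum, h4]; ring
          · simp [hc]
        rw [h5]
        by_cases hc : p = X ∨ att X p
        · have e2 : ep p X = 1 := by simp [ep, hc]
          have e3 : Hi p (dn X) := by
            rcases hc with rfl | hc
            · unfold Hi dn; simp
            · unfold att at hc; unfold Hi dn; simp only; omega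
          have e6 : wt q X (Y :: L0) = wt q p (Y :: L0) := by
            rw [wt_cons, wt_cons]
            have a1 : Hi X (dn Y) := by unfold Hi at hY; unfold Hi dn; simp only; omega
            have a2 : Hi p (dn Y) := by
              rcases hc with rfl | hc
              · exact a1
              · unfold att at hc; unfold Hi at hY; unfold Hi dn; simp only; omega
            rw [if_pos a1, if_pos a2]
          rw [e2, hb_succ]
          simp only [e3, if_true]
          rw [← Finset.mul_sum, h3, e6]
          ring
        · have e2 : ep p X = 0 := by simp [ep, hc]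
          have e3 : ¬ Hi p (dn X) := by
            intro h
            apply hc
            rcases hp with hp | hp
            · right
              unfold Hi dn at h; unfold Hi at hp; unfold att; simp only at h; omega
            · left; exact hp
          rw [e2]
          simp only [e3, if_false, Finset.sum_const_zero, zero_add, add_zero]
  exact key L0 hL0 hLe b p hp hpe

theorem pDn : StDn := by
  intro R _ q X p b L0 hX0 hp hL0
  have key : ∀ (L0 : List Car), (∀ u ∈ L0, Hi u X) → ∀ (b : ℕ) (p : Car),
      (Hi p X ∨ p = X) →
      ∑ L ∈ Ins X b L0, wt q p L =
        hb q (L0.countP (fun u => decide (att u X))) b * wt q p L0 := by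
    intro L0
    induction L0 with
    | nil =>
      intro _ b
      have hXn : X ∉ ([] : List Car) := by simp
      induction b with
      | zero => intro p _; rw [sum_Ins_zero hXn, hb_zero, one_mul]
      | succ b ihb =>
        intro p hp
        rw [sum_Ins_nil]
        have h1 : ∀ L ∈ Ins X b [], wt q p (X :: L) = if Hi p (dn X) then wt q X L else 0 := by
          intro L hL
          rw [wt_cons, countP_Ins hL]
          simp [not_att_self]
        rw [Finset.sum_congr rfl h1]
        have h2 := ihb X (Or.inr rfl)
        rw [wt_nil, if_neg (by omega), mul_zero] at h2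
        simp only [List.countP_nil, hb_z, zero_mul]
        by_cases hc : Hi p (dn X)
        · simp only [hc, if_true]; exact h2
        · simp [hc]
    | cons Y L0 ih =>
      intro hL b
      have hXn : X ∉ Y :: L0 := fun h => not_Hi_self X (hL X h)
      have hY : Hi Y X := hL Y (by simp)
      have ih' := ih (fun u hu => hL u (List.mem_cons_of_mem _ hu))
      have hXn0 : X ∉ L0 := fun h => hXn (List.mem_cons_of_mem _ h)
      induction b with
      | zero => intro p _; rw [sum_Ins_zero hXn, hb_zero, one_mul]
      | succ b ihb =>
        intro p hp
        rw [sum_Ins_cons b hXn]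
        have hz : (Y :: L0).countP (fun u => decide (att X u)) = 0 := by
          rw [List.countP_eq_zero]
          intro u hu
          have h1 := hL u hu
          simp only [decide_eq_true_eq]
          intro h2
          have h3 := Hi_of_att h2
          unfold Hi at h1 h3; omega
        have hpX : Hi p (dn X) := by
          rcases hp with hp | hp
          · unfold Hi at hp; unfold Hi dn; simp only; omega
          · rw [hp]; unfold Hi dn; simp
        have h1 : ∀ L ∈ Ins X b (Y :: L0), wt q p (X :: L) = wt q X L := by
          intro L hL'
          rw [wt_cons, countP_Ins hL', hz]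
          simp [not_att_self, hpX]
        have h2 : ∀ L ∈ Ins X (b + 1) L0, wt q p (Y :: L) =
            if Hi p (dn Y) then q ^ (L0.countP (fun u => decide (att Y u)) +
              (if att Y X then b + 1 else 0)) * wt q Y L else 0 := by
          intro L hL'
          rw [wt_cons, countP_Ins hL']
          simp
        rw [Finset.sum_congr rfl h1, Finset.sum_congr rfl h2, ihb X (Or.inr rfl)]
        have h4 := ih' (b + 1) Y (Or.inl hY)
        by_cases hc : att Y X
        · -- window letter
          have a1 : Hi X (dn Y) := by unfold att at hc; unfold Hi dn; simp only; omega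
          have a2 : Hi p (dn Y) := by
            rcases hp with hp | hp
            · unfold att at hc; unfold Hi at hp; unfold Hi dn; simp only; omega
            · rw [hp]; exact a1
          have e5 : (Y :: L0).countP (fun u => decide (att u X)) =
              L0.countP (fun u => decide (att u X)) + 1 := by
            rw [List.countP_cons]; simp [hc]
          rw [e5, hb_succ', wt_cons, wt_cons, if_pos a1, if_pos a2]
          simp only [a2, if_true, hc]
          rw [← Finset.mul_sum, h4, pow_add]
          ring
        · have a1 : ¬ Hi X (dn Y) := by
            intro h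
            apply hc
            unfold Hi dn at h; unfold Hi at hY; unfold att; simp only at h; omega
          have e5 : (Y :: L0).countP (fun u => decide (att u X)) =
              L0.countP (fun u => decide (att u X)) := by
            rw [List.countP_cons]; simp [hc]
          rw [e5]
          have e6 : wt q X (Y :: L0) = 0 := by rw [wt_cons, if_neg a1]
          rw [e6, mul_zero, zero_add, wt_cons]
          by_cases hd : Hi p (dn Y)
          · simp only [hd, if_true, hc, if_false, add_zero]
            rw [← Finset.mul_sum, h4]
            ring
          · simp [hd]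
  exact key L0 hL0 b p (Or.inl hp)

end Pool.VD
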