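import Pool.Agent.VD.M_SINS

/-! # VD block S: product formula for square words of given content (helper54) -/

set_option autoImplicit false

namespace Pool.VD

open MvPolynomial Finset

theorem filter_add_rep (X : Car) (M : Multiset Car) :
    M = M.filter (fun u => u ≠ X) + Multiset.replicate (M.count X) X := by
  ext u
  rw [Multiset.count_add, Multiset.count_replicate, Multiset.count_filter]
  by_cases h : u = X
  · subst h; simp
  · rw [if_pos h, if_neg (fun h' => h h'.symm), add_zero]

theorem Tw_split {R : Type} [CommRing R] (q : R) (p X : Car) (b : ℕ) (M0 : Multiset Car)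
    (hX : X ∉ M0) :
    Tw q p (M0 + Multiset.replicate b X) = ∑ L0 ∈ Lw M0, ∑ L ∈ Ins X b L0, wt q p L := by
  unfold Tw
  rw [← Finset.sum_fiberwise_of_maps_to (s := Lw (M0 + Multiset.replicate b X)) (t := Lw M0)
    (g := fun L => L.filter (fun u => decide (u ≠ X)))]
  · apply Finset.sum_congr rfl
    intro L0 hL0
    rw [mem_Lw] at hL0
    unfold Ins
    rw [hL0]
  · intro L hL
    rw [mem_Lw] at hL ⊢
    have h1 : ((L.filter (fun u => decide (u ≠ X)) : List Car) : Multiset Car) =
        (L : Multiset Car).filter (fun u => u ≠ X) := by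
      rw [Multiset.filter_coe]
    rw [h1, hL, Multiset.filter_add, Multiset.filter_eq_self.2, Multiset.filter_eq_nil.2, add_zero]
    · intro u hu
      rw [Multiset.eq_of_mem_replicate hu]
      simp
    · intro u hu
      rintro rfl
      exact hX hu

theorem Tw_up {R : Type} [CommRing R] (q : R) (X p : Car) (b : ℕ) (M0 : Multiset Car)
    (hX0 : 0 ≤ X.1) (hp : Hi X p ∨ p = X) (hM : ∀ u ∈ M0, Hi X u) (hpe : att X p → 0 ≤ p.1)
    (hMe : ∀ u ∈ M0, att X u → 0 ≤ u.1) :
    Tw q p (M0 + Multiset.replicate b X) =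
      hb q (M0.countP (fun u => att X u) + ep p X) b * Tw q p M0 := by
  rw [Tw_split q p X b M0 (fun h => not_Hi_self X (hM X h))]
  unfold Tw
  rw [Finset.mul_sum]
  apply Finset.sum_congr rfl
  intro L0 hL0
  rw [mem_Lw] at hL0
  have hm : ∀ u, u ∈ L0 ↔ u ∈ M0 := by
    intro u; rw [← hL0, Multiset.mem_coe]
  rw [pUp R q X p b L0 hX0 hp (fun u hu => hM u ((hm u).1 hu)) hpe (fun u hu => hMe u ((hm u).1 hu))]
  rw [← hL0, Multiset.coe_countP]

theorem Tw_dn {R : Type} [CommRing R] (q : R) (X p : Car) (b : ℕ) (M0 : Multiset Car)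
    (hX0 : X.1 < 0) (hp : Hi p X) (hM : ∀ u ∈ M0, Hi u X) :
    Tw q p (M0 + Multiset.replicate b X) =
      hb q (M0.countP (fun u => att u X)) b * Tw q p M0 := by
  rw [Tw_split q p X b M0 (fun h => not_Hi_self X (hM X h))]
  unfold Tw
  rw [Finset.mul_sum]
  apply Finset.sum_congr rfl
  intro L0 hL0
  rw [mem_Lw] at hL0
  have hm : ∀ u, u ∈ L0 ↔ u ∈ M0 := by
    intro u; rw [← hL0, Multiset.mem_coe]
  rw [pDn R q X p b L0 hX0 hp (fun u hu => hM u ((hm u).1 hu))]
  rw [← hL0, Multiset.coe_countP]

theorem Tw_zero {R : Type} [CommRing R] (q : R) (p : Car) : Tw q p 0 = if 0 ≤ p.1 then 1 else 0 := by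
  have : Lw 0 = {[]} := by
    ext L
    rw [mem_Lw, Finset.mem_singleton, Multiset.coe_eq_zero]
  unfold Tw
  rw [this, Finset.sum_singleton, wt_nil]

/-- the highest car -/
theorem exists_top (M : Multiset Car) (hM : M ≠ 0) : ∃ X ∈ M, ∀ u ∈ M, u ≠ X → Hi X u := by
  have hne : M.toFinset.Nonempty := by
    rw [Multiset.toFinset_nonempty]; exact hM
  obtain ⟨X, hX, h⟩ := Finset.exists_max_image M.toFinset (fun u => toLex (u.1, -(u.2 : ℤ))) hne
  refine ⟨X, Multiset.mem_toFinset.1 hX, ?_⟩
  intro u hu hne'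
  have h1 := h u (Multiset.mem_toFinset.2 hu)
  rw [Prod.Lex.toLex_le_toLex] at h1
  unfold Hi
  rcases h1 with h1 | ⟨h1, h2⟩
  · left; exact h1
  · right
    refine ⟨h1, ?_⟩
    rcases Nat.lt_or_ge X.2 u.2 with h3 | h3
    · exact h3
    · exfalso
      apply hne'
      have h4 : u.1 = X.1 := h1
      have h5 : -(u.2 : ℤ) ≤ -(X.2 : ℤ) := h2
      apply Prod.ext h4
      omega

/-- the lowest car -/
theorem exists_bot (M : Multiset Car) (hM : M ≠ 0) : ∃ X ∈ M, ∀ u ∈ M, u ≠ X → Hi u X := by
  have hne : M.toFinset.Nonempty := by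
    rw [Multiset.toFinset_nonempty]; exact hM
  obtain ⟨X, hX, h⟩ := Finset.exists_min_image M.toFinset (fun u => toLex (u.1, -(u.2 : ℤ))) hne
  refine ⟨X, Multiset.mem_toFinset.1 hX, ?_⟩
  intro u hu hne'
  have h1 := h u (Multiset.mem_toFinset.2 hu)
  rw [Prod.Lex.toLex_le_toLex] at h1
  unfold Hi
  rcases h1 with h1 | ⟨h1, h2⟩
  · left; exact h1
  · right
    refine ⟨h1, ?_⟩
    rcases Nat.lt_or_ge u.2 X.2 with h3 | h3
    · exact h3
    · exfalso
      apply hne'
      have h4 : X.1 = u.1 := h1
      have h5 : -(X.2 : ℤ) ≤ -(u.2 : ℤ) := h2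
      apply Prod.ext h4.symm
      omega

theorem nU_split (X : Car) (M : Multiset Car) (l : ℤ) (c : ℕ) (h : ¬ (X.1 = l ∧ c < X.2)) :
    nU (M.filter (fun u => u ≠ X)) l c = nU M l c := by
  unfold nU
  rw [Multiset.countP_filter]
  apply Multiset.countP_congr rfl
  intro u _
  have : (u.1 = l ∧ c < u.2) ∧ u ≠ X ↔ (u.1 = l ∧ c < u.2) := by
    constructor
    · exact fun h => h.1
    · intro h'
      refine ⟨h', ?_⟩
      rintro rfl
      exact h h'
  exact propext this

theorem nD_split (X : Car) (M : Multiset Car) (l : ℤ) (c : ℕ) (h : ¬ (X.1 = l ∧ X.2 < c)) :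
    nD (M.filter (fun u => u ≠ X)) l c = nD M l c := by
  unfold nD
  rw [Multiset.countP_filter]
  apply Multiset.countP_congr rfl
  intro u _
  have : (u.1 = l ∧ u.2 < c) ∧ u ≠ X ↔ (u.1 = l ∧ u.2 < c) := by
    constructor
    · exact fun h => h.1
    · intro h'
      refine ⟨h', ?_⟩
      rintro rfl
      exact h h'
  exact propext this

theorem countP_att_up (X : Car) (M : Multiset Car) :
    (M.filter (fun u => u ≠ X)).countP (fun u => att X u) =
      nU M X.1 X.2 + nD M (X.1 - 1) X.2 := by
  rw [← nU_split X M X.1 X.2 (by omega), ← nD_split X M (X.1 - 1) X.2 (by omega)]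
  unfold nU nD
  generalize M.filter (fun u => u ≠ X) = M0
  induction M0 using Multiset.induction_on with
  | empty => simp
  | cons a M ih =>
    rw [Multiset.countP_cons, Multiset.countP_cons, Multiset.countP_cons, ih]
    unfold att
    by_cases h1 : a.1 = X.1 ∧ X.2 < a.2
    · have h2 : ¬ (a.1 = X.1 - 1 ∧ a.2 < X.2) := by omega
      rw [if_pos (Or.inl h1), if_pos h1, if_neg h2]; ring
    · by_cases h2 : a.1 = X.1 - 1 ∧ a.2 < X.2
      · rw [if_pos (Or.inr h2), if_neg h1, if_pos h2]; ring
      · rw [if_neg (by rintro (h | h) <;> [exact h1 h; exact h2 h]), if_neg h1, if_neg h2]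
        ring

theorem countP_att_dn (X : Car) (M : Multiset Car) :
    (M.filter (fun u => u ≠ X)).countP (fun u => att u X) =
      nD M X.1 X.2 + nU M (X.1 + 1) X.2 := by
  rw [← nU_split X M (X.1 + 1) X.2 (by omega), ← nD_split X M X.1 X.2 (by omega)]
  unfold nU nD
  generalize M.filter (fun u => u ≠ X) = M0
  induction M0 using Multiset.induction_on with
  | empty => simp
  | cons a M ih =>
    rw [Multiset.countP_cons, Multiset.countP_cons, Multiset.countP_cons, ih]
    unfold att
    by_cases h1 : a.1 = X.1 ∧ a.2 < X.2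
    · have h2 : ¬ (a.1 = X.1 + 1 ∧ X.2 < a.2) := by omega
      rw [if_pos (Or.inl ⟨h1.1.symm, h1.2⟩), if_pos h1, if_neg h2]; ring
    · by_cases h2 : a.1 = X.1 + 1 ∧ X.2 < a.2
      · rw [if_pos (Or.inr ⟨by omega, h2.2⟩), if_neg h1, if_pos h2]; ring
      · rw [if_neg (by rintro (h | h) <;> [exact h1 ⟨h.1.symm, h.2⟩; exact h2 ⟨by omega, h.2⟩]),
          if_neg h1, if_neg h2]
        ring

variable {K : Type} [Field K] [CharZero K]

omit [CharZero K] in
theorem toFinset_split (X : Car) (M : Multiset Car) (hX : X ∈ M) (f : Car → K) :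
    ∏ Y ∈ M.toFinset, f Y = f X * ∏ Y ∈ (M.filter (fun u => u ≠ X)).toFinset, f Y := by
  have : M.toFinset = insert X (M.filter (fun u => u ≠ X)).toFinset := by
    ext u
    rw [Finset.mem_insert, Multiset.mem_toFinset, Multiset.mem_toFinset, Multiset.mem_filter]
    by_cases h : u = X
    · subst h; simp [hX]
    · simp [h]
  rw [this, Finset.prod_insert]
  rw [Multiset.mem_toFinset, Multiset.mem_filter]
  simp

theorem pProd (q : K) : StProd q := by
  intro N M
  induction hn : M.card using Nat.strong_induction_on generalizing M with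
  | _ n ih =>
  intro hN
  by_cases hM : M = 0
  · subst hM
    rw [Tw_zero]
    simp
  by_cases hneg : ∃ u ∈ M, u.1 < 0
  · obtain ⟨X, hX, hXmin⟩ := exists_bot M hM
    have hX0 : X.1 < 0 := by
      obtain ⟨u, hu, hu0⟩ := hneg
      by_cases h : u = X
      · rw [← h]; exact hu0
      · have := hXmin u hu h
        unfold Hi at this; omega
    set M0 := M.filter (fun u => u ≠ X) with hM0
    have hM0u : ∀ u ∈ M0, Hi u X := by
      intro u hu
      rw [hM0, Multiset.mem_filter] at hu
      exact hXmin u hu.1 hu.2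
    have hcard : M0.card < n := by
      rw [← hn, hM0, ← Multiset.countP_eq_card_filter]
      have h1 := Multiset.card_eq_countP_add_countP (fun u => u ≠ X) M
      have h2 : 0 < M.countP (fun u => ¬ (u ≠ X)) := by
        rw [Multiset.countP_pos]
        exact ⟨X, hX, by simp⟩
      omega
    have h1 := Tw_dn q X (0, N) (M.count X) M0 hX0 (by unfold Hi; left; exact hX0) hM0u
    rw [← filter_add_rep X M] at h1
    rw [h1, ih M0.card hcard M0 rfl (fun u hu => hN u (Multiset.mem_filter.1 hu).1), hM0,
      countP_att_dn, toFinset_split X M hX]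
    congr 1
    · unfold fac
      rw [if_neg (by omega), if_neg (by omega)]
    · apply Finset.prod_congr rfl
      intro Y hY
      rw [Multiset.mem_toFinset, ← hM0] at hY
      have hYX := hM0u Y hY
      have hYne : Y ≠ X := (Multiset.mem_filter.1 hY).2
      unfold fac
      rw [Multiset.count_filter_of_pos (p := fun u => u ≠ X) hYne]
      unfold Hi at hYX
      rw [nU_split X M 0 Y.2 (by omega)]
      by_cases h0 : Y.1 = 0
      · rw [if_pos h0, if_pos h0]
      · rw [if_neg h0, if_neg h0]
        by_cases h2 : 0 < Y.1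
        · rw [if_pos h2, if_pos h2, nD_split X M (Y.1 - 1) Y.2 (by omega), nU_split X M Y.1 Y.2 (by omega)]
        · rw [if_neg h2, if_neg h2, nD_split X M Y.1 Y.2 (by omega), nU_split X M (Y.1 + 1) Y.2 (by omega)]
  · push Not at hneg
    obtain ⟨X, hX, hXmax⟩ := exists_top M hM
    have hX0 : 0 ≤ X.1 := hneg X hX
    have hXN : X.2 < N := hN X hX
    set M0 := M.filter (fun u => u ≠ X) with hM0
    have hM0u : ∀ u ∈ M0, Hi X u := by
      intro u hu
      rw [hM0, Multiset.mem_filter] at hu
      exact hXmax u hu.1 hu.2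
    have hcard : M0.card < n := by
      rw [← hn, hM0, ← Multiset.countP_eq_card_filter]
      have h1 := Multiset.card_eq_countP_add_countP (fun u => u ≠ X) M
      have h2 : 0 < M.countP (fun u => ¬ (u ≠ X)) := by
        rw [Multiset.countP_pos]
        exact ⟨X, hX, by simp⟩
      omega
    have h1 := Tw_up q X (0, N) (M.count X) M0 hX0 (by unfold Hi; left; omega) hM0u
      (fun _ => le_refl _) (fun u hu _ => hneg u (Multiset.mem_filter.1 hu).1)
    rw [← filter_add_rep X M] at h1
    rw [h1, ih M0.card hcard M0 rfl (fun u hu => hN u (Multiset.mem_filter.1 hu).1), hM0,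
      countP_att_up, toFinset_split X M hX]
    have hep : ep (0, N) X = if X.1 = 0 then 1 else 0 := by
      unfold ep
      have : ((0, N) = X ∨ att X (0, N)) ↔ X.1 = 0 := by
        constructor
        · rintro (h | h)
          · rw [← h]
          · unfold att at h; simp only at h; omega
        · intro h
          right; unfold att; simp only; omega
      simp only [this]
    congr 1
    · unfold fac
      rw [hep]
      by_cases h0 : X.1 = 0
      · have h3 : nD M (X.1 - 1) X.2 = 0 := by
          unfold nD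
          rw [Multiset.countP_eq_zero]
          intro u hu h
          have := hneg u hu
          omega
        rw [if_pos h0, if_pos h0, h3, h0]
        congr 1
        ring
      · rw [if_neg h0, if_neg h0, if_pos (by omega), add_zero]
    · apply Finset.prod_congr rfl
      intro Y hY
      rw [Multiset.mem_toFinset, ← hM0] at hY
      have hYX := hM0u Y hY
      have hYne : Y ≠ X := (Multiset.mem_filter.1 hY).2
      have hY0 : 0 ≤ Y.1 := hneg Y (Multiset.mem_filter.1 hY).1
      unfold fac
      rw [Multiset.count_filter_of_pos (p := fun u => u ≠ X) hYne]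
      unfold Hi at hYX
      by_cases h0 : Y.1 = 0
      · rw [if_pos h0, if_pos h0, nU_split X M 0 Y.2 (by omega)]
      · rw [if_neg h0, if_neg h0]
        have h2 : 0 < Y.1 := by omega
        rw [if_pos h2, if_pos h2, nU_split X M Y.1 Y.2 (by omega), nD_split X M (Y.1 - 1) Y.2 (by omega)]

end Pool.VD
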