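import Pool.Agent.VD.StCW

/-!
# MP_cf06d4_co, group V, block C, words half: membership in `Wd` and `DyW` (helper23)
-/

set_option autoImplicit false

namespace Pool.VD

open Finset

namespace M_WMEM

theorem mem_Wd {α : Type} (S : Finset α) : ∀ (n : ℕ) (L : List α),
    L ∈ Wd S n ↔ L.length = n ∧ ∀ c ∈ L, c ∈ S := by
  intro n
  induction n with
  | zero =>
    intro L
    simp only [Wd, mem_singleton]
    constructor
    · rintro rfl; simp
    · rintro ⟨h, _⟩; exact List.length_eq_zero_iff.1 h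
  | succ n ih =>
    intro L
    simp only [Wd, mem_map, mem_product, Function.Embedding.coeFn_mk, Prod.exists]
    constructor
    · rintro ⟨a, l, ⟨ha, hl⟩, rfl⟩
      obtain ⟨h1, h2⟩ := (ih l).1 hl
      refine ⟨by simp [h1], ?_⟩
      intro c hc
      rcases List.mem_cons.1 hc with rfl | h
      · exact ha
      · exact h2 c h
    · rintro ⟨h1, h2⟩
      cases L with
      | nil => simp at h1
      | cons a l =>
        exact ⟨a, l, ⟨h2 a (by simp), (ih l).2 ⟨by simpa using h1, fun c hc => h2 c (by simp [hc])⟩⟩, rfl⟩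

theorem mem_Ws (N m : ℕ) (τ : List ℕ) : τ ∈ Ws N m ↔ τ.length = m ∧ ∀ c ∈ τ, c < N := by
  rw [Ws, mem_Wd]; simp

theorem Leg_lev : ∀ (L : List Car) (p : Car), Leg p L → ∀ c ∈ L, c.1 ≤ p.1 + L.length := by
  intro L
  induction L with
  | nil => intro p _ c hc; simp at hc
  | cons u L ih =>
    intro p h c hc
    have hu : u.1 ≤ p.1 + 1 := by
      have := h.1
      simp only [Hi, dn] at this
      omega
    rcases List.mem_cons.1 hc with rfl | h'
    · simp only [List.length_cons, Nat.cast_add, Nat.cast_one]; omega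
    · have := ih u h.2 c h'
      simp only [List.length_cons, Nat.cast_add, Nat.cast_one]; omega

theorem pWMem : StWMem := by
  intro m N L
  simp only [DyW, SqW, mem_filter, mem_Wd, Al, mem_product, mem_Icc, mem_range]
  constructor
  · rintro ⟨⟨⟨h1, h2⟩, h3⟩, h4⟩
    exact ⟨h1, fun c hc => ⟨h4 c hc, (h2 c hc).2⟩, h3⟩
  · rintro ⟨h1, h2, h3⟩
    refine ⟨⟨⟨h1, fun c hc => ?_⟩, h3⟩, fun c hc => (h2 c hc).1⟩
    have h5 := Leg_lev L (0, N) h3 c hc
    have h6 := h2 c hc
    rw [h1] at h5
    simp only [zero_add] at h5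
    refine ⟨⟨by omega, h5⟩, h6.2⟩

end M_WMEM

end Pool.VD
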