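import Pool.Agent.VD.M_WMEM

/-!
# MP_cf06d4_co, group V, block C, words half: the shuffle lemma (helper23)
-/

set_option autoImplicit false

namespace Pool.VD

open Finset

namespace M_WSH

theorem lab0_nil : lab0 [] = [] := rfl
theorem hil_nil : hil [] = [] := rfl

theorem lab0_cons (c : Car) (L : List Car) :
    lab0 (c :: L) = if c.1 = 0 then c.2 :: lab0 L else lab0 L := by
  by_cases h : c.1 = 0 <;> simp [lab0, h]

theorem hil_cons (c : Car) (L : List Car) :
    hil (c :: L) = if c.1 = 0 then hil L else dn c :: hil L := by
  by_cases h : c.1 = 0 <;> simp [hil, h]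

theorem up_dn (c : Car) : up (dn c) = c := by simp [up, dn]
theorem dn_up (c : Car) : dn (up c) = c := by simp [up, dn]

theorem up_inj {a b : Car} (h : up a = up b) : a = b := by
  have := congrArg dn h
  rwa [dn_up, dn_up] at this

theorem lab0_up (H : List Car) (hH : ∀ c ∈ H, 0 ≤ c.1) : lab0 (H.map up) = [] := by
  induction H with
  | nil => rfl
  | cons h H ih =>
    have h0 := hH h (by simp)
    rw [List.map_cons, lab0_cons, if_neg (by simp only [up]; omega)]
    exact ih fun c hc => hH c (by simp [hc])

theorem hil_up (H : List Car) (hH : ∀ c ∈ H, 0 ≤ c.1) : hil (H.map up) = H := by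
  induction H with
  | nil => rfl
  | cons h H ih =>
    have h0 := hH h (by simp)
    rw [List.map_cons, hil_cons, if_neg (by simp only [up]; omega), dn_up,
      ih fun c hc => hH c (by simp [hc])]

theorem up_of_lab0 (L : List Car) (h : lab0 L = []) : (hil L).map up = L := by
  induction L with
  | nil => rfl
  | cons c L ih =>
    rw [lab0_cons] at h
    by_cases hc : c.1 = 0
    · rw [if_pos hc] at h; simp at h
    · rw [if_neg hc] at h
      rw [hil_cons, if_neg hc, List.map_cons, up_dn, ih h]

theorem pWShM : StWShM := by
  intro a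
  induction a with
  | nil =>
    intro H L hH
    rw [Sh, mem_singleton]
    constructor
    · rintro rfl; exact ⟨lab0_up H hH, hil_up H hH⟩
    · rintro ⟨h1, h2⟩
      rw [← h2, up_of_lab0 L h1]
  | cons c a iha =>
    intro H
    induction H with
    | nil =>
      intro L hH
      rw [Sh, mem_map]
      simp only [Function.Embedding.coeFn_mk]
      constructor
      · rintro ⟨L', h1, rfl⟩
        have := (iha [] L' (by simp)).1 h1
        rw [lab0_cons, hil_cons, if_pos rfl, if_pos rfl, this.1, this.2]
        exact ⟨rfl, rfl⟩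
      · rintro ⟨h1, h2⟩
        cases L with
        | nil => simp [lab0] at h1
        | cons x L =>
          rw [lab0_cons] at h1
          rw [hil_cons] at h2
          by_cases hx : x.1 = 0
          · rw [if_pos hx] at h1 h2
            simp only [List.cons.injEq] at h1
            refine ⟨L, (iha [] L (by simp)).2 ⟨h1.2, h2⟩, ?_⟩
            rw [← h1.1, ← hx]
          · rw [if_neg hx] at h2; simp at h2
    | cons h H ihH =>
      intro L hH
      have h0 : 0 ≤ h.1 := hH h (by simp)
      have hH' : ∀ c ∈ H, 0 ≤ c.1 := fun c hc => hH c (by simp [hc])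
      rw [Sh, mem_union, mem_map, mem_map]
      simp only [Function.Embedding.coeFn_mk]
      constructor
      · rintro (⟨L', h1, rfl⟩ | ⟨L', h1, rfl⟩)
        · have := (iha (h :: H) L' hH).1 h1
          rw [lab0_cons, hil_cons, if_pos rfl, if_pos rfl, this.1, this.2]
          exact ⟨rfl, rfl⟩
        · have := (ihH L' hH').1 h1
          have hu : (up h).1 ≠ 0 := by simp only [up]; omega
          rw [lab0_cons, hil_cons, if_neg hu, if_neg hu, this.1, this.2, dn_up]
          exact ⟨rfl, rfl⟩
      · rintro ⟨h1, h2⟩
        cases L with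
        | nil => simp [lab0] at h1
        | cons x L =>
          rw [lab0_cons] at h1
          rw [hil_cons] at h2
          by_cases hx : x.1 = 0
          · left
            rw [if_pos hx] at h1 h2
            simp only [List.cons.injEq] at h1
            refine ⟨L, (iha (h :: H) L hH).2 ⟨h1.2, h2⟩, ?_⟩
            rw [← h1.1, ← hx]
          · right
            rw [if_neg hx] at h1 h2
            simp only [List.cons.injEq] at h2
            refine ⟨L, (ihH L hH').2 ⟨h1, h2.2⟩, ?_⟩
            rw [← h2.1, up_dn]

/-! ### the attack counts -/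

theorem cntLow (c : ℕ) (L : List Car) (hL : ∀ d ∈ L, 0 ≤ d.1) :
    L.countP (fun d => decide (att (0, c) d)) = gtc (lab0 L) c := by
  induction L with
  | nil => rfl
  | cons x L ih =>
    have hx := hL x (by simp)
    rw [List.countP_cons, ih fun d hd => hL d (by simp [hd]), lab0_cons]
    by_cases h : x.1 = 0
    · rw [if_pos h]
      simp only [gtc, List.countP_cons, att, h]
      simp
    · rw [if_neg h]
      have : ¬ att (0, c) x := by
        simp only [att]; omega
      simp [this]

theorem cntUp (h : Car) (h0 : 0 ≤ h.1) (L : List Car) (hL : ∀ d ∈ L, 0 ≤ d.1) :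
    L.countP (fun d => decide (att (up h) d)) =
      (hil L).countP (fun d => decide (att h d)) + if h.1 = 0 then crs (lab0 L) [h.2] else 0 := by
  induction L with
  | nil => simp [hil, lab0, crs]
  | cons x L ih =>
    have hx := hL x (by simp)
    rw [List.countP_cons, ih fun d hd => hL d (by simp [hd]), lab0_cons, hil_cons]
    by_cases h1 : x.1 = 0
    · rw [if_pos h1, if_pos h1]
      by_cases h2 : h.1 = 0
      · simp only [h2, if_true, crs, List.map_cons, List.sum_cons]
        have : decide (att (up h) x) = decide (x.2 < h.2) := by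
          congr 1
          simp only [att, up, h2, h1]
          simp
        rw [this]
        have e : gtc [h.2] x.2 = if x.2 < h.2 then 1 else 0 := by
          simp only [gtc, List.countP_cons, List.countP_nil, zero_add, decide_eq_true_eq]
        rw [e]
        simp only [decide_eq_true_eq]
        ring
      · have : ¬ att (up h) x := by
          simp only [att, up]; omega
        simp [this, h2]
    · rw [if_neg h1, if_neg h1, List.countP_cons]
      have : decide (att (up h) x) = decide (att h (dn x)) := by
        congr 1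
        simp only [att, up, dn, eq_iff_iff]
        constructor <;> rintro (⟨a, b⟩ | ⟨a, b⟩)
        · exact Or.inl ⟨by omega, b⟩
        · exact Or.inr ⟨by omega, b⟩
        · exact Or.inl ⟨by omega, b⟩
        · exact Or.inr ⟨by omega, b⟩
      rw [this]
      ring

/-! ### weights -/

section

variable {A : Type} [CommRing A] (q : A)

theorem wt_nil (p : Car) (h : 0 ≤ p.1) : wt q p [] = 1 := by
  rw [wt, if_pos (by exact h)]; simp [inv]

theorem wt_cons (p u : Car) (L : List Car) :
    wt q p (u :: L) =
      if Hi p (dn u) then q ^ (L.countP (fun d => decide (att u d))) * wt q u L else 0 := by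
  by_cases h1 : Hi p (dn u)
  · rw [if_pos h1]
    by_cases h2 : Leg u L
    · rw [wt, wt, if_pos h2, if_pos ⟨h1, h2⟩, inv, pow_add]
    · rw [wt, wt, if_neg h2, if_neg (fun h => h2 h.2), mul_zero]
  · rw [if_neg h1, wt, if_neg (fun h => h1 h.1)]

/-- the open group -/
def G0 (a v : List ℕ) : A := ∑ i ∈ range (v.length + 1), q ^ crs a (v.take i) * GamW q a (v.drop i)

theorem crs_cons_right (a : List ℕ) (x : ℕ) (v : List ℕ) : crs a (x :: v) = crs a [x] + crs a v := by
  induction a with
  | nil => rfl
  | cons c a ih =>
    simp only [crs, List.map_cons, List.sum_cons] at ih ⊢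
    rw [ih]
    have : gtc (x :: v) c = gtc [x] c + gtc v c := by
      simp only [gtc, List.countP_cons, List.countP_nil]; ring
    rw [this]; ring

theorem crs_nil_right (a : List ℕ) : crs a [] = 0 := by
  induction a with
  | nil => rfl
  | cons c a ih =>
    simp only [crs, List.map_cons, List.sum_cons] at ih ⊢
    rw [ih]; rfl

theorem Gam_nil (v : List ℕ) : GamW q [] v = if v = [] then 1 else 0 := by rw [GamW]

theorem Gam_cons (c : ℕ) (a v : List ℕ) :
    GamW q (c :: a) v = if v ≠ [] ∧ c < v.headD 0 then G0 q a v else GamW q a v := by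
  rw [GamW]
  by_cases h : v ≠ [] ∧ c < v.headD 0
  · rw [if_pos h, G0]
    exact sum_congr rfl fun i _ => by rw [if_pos (Or.inr h.2)]
  · rw [if_neg h]
    rw [sum_eq_single_of_mem 0 (by simp)]
    · rw [if_pos (Or.inl rfl)]; simp [crs_nil_right]
    · intro i hi hi0
      have hv : v ≠ [] := by
        rintro rfl
        simp at hi; omega
      rw [if_neg]
      rintro (h' | h')
      · exact hi0 h'
      · exact h ⟨hv, h'⟩

theorem G0_nil (a : List ℕ) : G0 q a [] = GamW q a [] := by
  simp [G0, crs_nil_right]

theorem G0_cons (a : List ℕ) (x : ℕ) (v : List ℕ) :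
    G0 q a (x :: v) = GamW q a (x :: v) + q ^ crs a [x] * G0 q a v := by
  rw [G0, List.length_cons, sum_range_succ', add_comm, G0, mul_sum]
  congr 1
  · simp [crs_nil_right]
  · exact sum_congr rfl fun i _ => by
      rw [List.take_succ_cons, List.drop_succ_cons, crs_cons_right, pow_add, mul_assoc]

theorem G0_nil_left (v : List ℕ) : G0 q [] v = 1 := by
  induction v with
  | nil => rw [G0_nil, Gam_nil, if_pos rfl]
  | cons x v ih => rw [G0_cons, ih, Gam_nil, if_neg (by simp)]; simp [crs]

theorem Gam_nil_right (a : List ℕ) : GamW q a [] = 1 := by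
  induction a with
  | nil => rw [Gam_nil, if_pos rfl]
  | cons c a ih => rw [Gam_cons, if_neg (by simp), ih]

/-- the sum over the shuffles -/
noncomputable def S (p : Car) (a : List ℕ) (H : List Car) : A := ∑ L ∈ Sh a H, wt q p L

theorem wt_up (h0 : Car) (H : List Car) (h : 0 ≤ h0.1) (hH : ∀ c ∈ H, 0 ≤ c.1) :
    wt q (up h0) (H.map up) = wt q h0 H := by
  induction H generalizing h0 with
  | nil => rw [List.map_nil, wt_nil q _ h, wt_nil q]; simp only [up]; omega
  | cons x H ih =>
    have hx := hH x (by simp)
    have hH' : ∀ c ∈ H, 0 ≤ c.1 := fun c hc => hH c (by simp [hc])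
    rw [List.map_cons, wt_cons, wt_cons, ih x hx hH']
    have e1 : Hi (up h0) (dn (up x)) ↔ Hi h0 (dn x) := by
      simp only [Hi, up, dn]
      constructor <;> rintro (a | ⟨a, b⟩)
      · left; omega
      · right; exact ⟨by omega, b⟩
      · left; omega
      · right; exact ⟨by omega, b⟩
    have e2 : (H.map up).countP (fun d => decide (att (up x) d)) =
        H.countP (fun d => decide (att x d)) := by
      rw [cntUp x hx _ (by
        intro d hd
        obtain ⟨e, he, rfl⟩ := List.mem_map.1 hd
        have := hH' e he
        simp only [up]; omega), hil_up H hH', lab0_up H hH']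
      simp [crs]
    rw [e2]
    by_cases h3 : Hi h0 (dn x)
    · rw [if_pos h3, if_pos (e1.2 h3)]
    · rw [if_neg h3, if_neg (fun h4 => h3 (e1.1 h4))]

theorem mem_nonneg {a : List ℕ} {H L : List Car} (hH : ∀ c ∈ H, 0 ≤ c.1) (hL : L ∈ Sh a H) :
    ∀ c ∈ L, 0 ≤ c.1 := by
  intro c hc
  by_contra h
  have hM := (pWShM a H L hH).1 hL
  have : dn c ∈ hil L := by
    simp only [hil, List.mem_map, List.mem_filter]
    exact ⟨c, ⟨hc, by simp; omega⟩, rfl⟩
  rw [hM.2] at this
  have := hH _ this
  simp only [dn] at this
  omega

theorem first_low (p : Car) (hp : 0 ≤ p.1) (c : ℕ) (a : List ℕ) (H : List Car)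
    (hH : ∀ c ∈ H, 0 ≤ c.1) :
    ∑ L ∈ Sh a H, wt q p (((0, c) : Car) :: L) = q ^ gtc a c * S q (0, c) a H := by
  rw [S, mul_sum]
  refine sum_congr rfl fun L hL => ?_
  rw [wt_cons, if_pos (show Hi p (dn (0, c)) from Or.inl (by simp only [dn]; omega)),
    cntLow c L (mem_nonneg hH hL),
    ((pWShM a H L hH).1 hL).1]

theorem first_up (p : Car) (h : Car) (h0 : 0 ≤ h.1) (a : List ℕ) (H : List Car)
    (hH : ∀ c ∈ H, 0 ≤ c.1) :
    ∑ L ∈ Sh a H, wt q p (up h :: L) =
      if Hi p h then q ^ (H.countP (fun d => decide (att h d)) + if h.1 = 0 then crs a [h.2] else 0) *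
        S q (up h) a H else 0 := by
  by_cases h3 : Hi p h
  · rw [if_pos h3, S, mul_sum]
    refine sum_congr rfl fun L hL => ?_
    have hM := (pWShM a H L hH).1 hL
    rw [wt_cons, dn_up, if_pos h3, cntUp h h0 L (mem_nonneg hH hL), hM.1, hM.2]
  · rw [if_neg h3]
    exact sum_eq_zero fun L _ => by rw [wt_cons, dn_up, if_neg h3]

theorem S_cons_nil (p : Car) (hp : 0 ≤ p.1) (c : ℕ) (a : List ℕ) :
    S q p (c :: a) [] = q ^ gtc a c * S q (0, c) a [] := by
  rw [S, Sh, sum_map]
  exact first_low q p hp c a [] (by simp)

theorem S_cons_cons (p : Car) (hp : 0 ≤ p.1) (c : ℕ) (a : List ℕ) (h : Car) (H : List Car)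
    (h0 : 0 ≤ h.1) (hH : ∀ c ∈ H, 0 ≤ c.1) :
    S q p (c :: a) (h :: H) = q ^ gtc a c * S q (0, c) a (h :: H) +
      if Hi p h then q ^ (H.countP (fun d => decide (att h d)) +
        if h.1 = 0 then crs (c :: a) [h.2] else 0) * S q (up h) (c :: a) H else 0 := by
  rw [S, Sh, sum_union, sum_map, sum_map]
  · congr 1
    · exact first_low q p hp c a (h :: H) (by
        intro d hd
        rcases List.mem_cons.1 hd with rfl | hd
        · exact h0
        · exact hH d hd)
    · exact first_up q p h h0 (c :: a) H hH
  · rw [disjoint_left]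
    intro L h1 h2
    simp only [mem_map, Function.Embedding.coeFn_mk] at h1 h2
    obtain ⟨L1, _, rfl⟩ := h1
    obtain ⟨L2, _, h2⟩ := h2
    simp only [List.cons.injEq] at h2
    have := congrArg Prod.fst h2.1
    simp only [up] at this
    omega

theorem key (N : ℕ) : ∀ (n : ℕ) (a : List ℕ) (H : List Car), a.length + H.length = n →
    (∀ c ∈ H, 0 ≤ c.1 ∧ c.2 < N) →
    (∀ c, S q (0, c) a H = q ^ inl a * wt q (0, N) H * GamW q (c :: a) (lab0 H)) ∧
    (∀ h0 : Car, 0 ≤ h0.1 → S q (up h0) a H = q ^ inl a * wt q h0 H * G0 q a (lab0 H)) := by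
  intro n
  induction n using Nat.strong_induction_on with
  | _ n ih =>
  intro a H hn hH
  have hH0 : ∀ c ∈ H, 0 ≤ c.1 := fun c hc => (hH c hc).1
  cases a with
  | nil =>
    constructor
    · intro c
      rw [S, Sh, sum_singleton]
      cases H with
      | nil =>
        rw [List.map_nil, wt_nil q _ (le_refl 0), wt_nil q _ (le_refl 0), lab0_nil, Gam_nil_right]
        simp [inl]
      | cons h H =>
        have h0 := hH0 h (by simp)
        have hH' : ∀ c ∈ H, 0 ≤ c.1 := fun c hc => hH0 c (by simp [hc])
        have hN := (hH h (by simp)).2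
        have := wt_up q h H h0 hH'
        rw [List.map_cons, wt_cons, dn_up, this, wt_cons, lab0_cons, Gam_cons, G0_nil_left, Gam_nil]
        have e2 : (H.map up).countP (fun d => decide (att (up h) d)) =
            H.countP (fun d => decide (att h d)) := by
          rw [cntUp h h0 _ (by
            intro d hd
            obtain ⟨e, he, rfl⟩ := List.mem_map.1 hd
            have := hH' e he
            simp only [up]; omega), hil_up H hH', lab0_up H hH']
          simp [crs]
        rw [e2]
        by_cases h1 : h.1 = 0
        · have h2 : Hi (0, N) (dn h) := Or.inl (by simp only [dn]; omega)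
          rw [if_pos h2]
          simp only [if_pos h1, List.headD_cons, ne_eq, reduceCtorEq, not_false_eq_true, true_and,
            if_false, inl, pow_zero, one_mul]
          by_cases h3 : c < h.2
          · rw [if_pos (show Hi (0, c) h from Or.inr ⟨h1, h3⟩), if_pos h3, mul_one]
          · rw [if_neg, if_neg h3, mul_zero]
            rintro (h4 | h4)
            · simp only at h4; omega
            · exact h3 h4.2
        · have h2 : ¬ Hi (0, N) (dn h) := by
            simp only [Hi, dn]; omega
          rw [if_neg h2, if_neg]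
          · simp
          · simp only [Hi]; omega
    · intro h0 hh0
      rw [S, Sh, sum_singleton, wt_up q h0 H hh0 hH0, G0_nil_left]
      simp [inl]
  | cons c1 a =>
    cases H with
    | nil =>
      have ih1 := ih (a.length) (by rw [← hn]; simp) a [] (by simp) (by simp)
      constructor
      · intro c
        rw [S_cons_nil q _ (le_refl 0), ih1.1 c1, wt_nil q _ (le_refl 0), lab0_nil, Gam_nil_right,
          Gam_nil_right, inl, pow_add]
        ring
      · intro h0 hh0
        rw [S_cons_nil q _ (by simp only [up]; omega), ih1.1 c1, wt_nil q _ (le_refl 0),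
          wt_nil q _ hh0, lab0_nil, Gam_nil_right, G0_nil, Gam_nil_right, inl, pow_add]
        ring
    | cons h H =>
      have h0 := hH0 h (by simp)
      have hN := (hH h (by simp)).2
      have hH' : ∀ c ∈ H, 0 ≤ c.1 := fun c hc => hH0 c (by simp [hc])
      have hH'' : ∀ c ∈ H, 0 ≤ c.1 ∧ c.2 < N := fun c hc => hH c (by simp [hc])
      have ih1 := (ih (a.length + (h :: H).length) (by
        rw [← hn]; simp) a (h :: H) rfl hH).1 c1
      have ih2 := (ih ((c1 :: a).length + H.length) (by
        rw [← hn]; simp) (c1 :: a) H rfl hH'').2 h h0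
      constructor
      · intro c
        rw [S_cons_cons q _ (le_refl 0) c1 a h H h0 hH', ih1, ih2]
        by_cases h1 : h.1 = 0
        · have h2 : Hi (0, N) (dn h) := Or.inl (by simp only [dn]; omega)
          have h4 : lab0 (h :: H) = h.2 :: lab0 H := by rw [lab0_cons, if_pos h1]
          rw [h4, wt_cons, if_pos h2, Gam_cons q c, if_pos h1]
          by_cases h3 : c < h.2
          · rw [if_pos (show Hi (0, c) h from Or.inr ⟨h1, h3⟩), if_pos ⟨by simp, by simpa using h3⟩,
              G0_cons, inl, pow_add, pow_add]
            ring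
          · rw [if_neg, if_neg (fun h5 => h3 (by simpa using h5.2)), inl, pow_add]
            · ring
            · rintro (h4 | h4)
              · simp only at h4; omega
              · exact h3 h4.2
        · have h2 : ¬ Hi (0, N) (dn h) := by
            simp only [Hi, dn]; omega
          rw [wt_cons q (0, N), if_neg h2, if_neg (by simp only [Hi]; omega)]
          ring
      · intro g hg
        rw [S_cons_cons q _ (by simp only [up]; omega) c1 a h H h0 hH', ih1, ih2]
        have e1 : Hi (up g) h ↔ Hi g (dn h) := by
          simp only [Hi, up, dn]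
          constructor <;> rintro (a | ⟨a, b⟩)
          · left; omega
          · right; exact ⟨by omega, b⟩
          · left; omega
          · right; exact ⟨by omega, b⟩
        by_cases h1 : h.1 = 0
        · have h2 : Hi (0, N) (dn h) := Or.inl (by simp only [dn]; omega)
          have h3 : Hi g (dn h) := Or.inl (by simp only [dn]; omega)
          have h4 : lab0 (h :: H) = h.2 :: lab0 H := by rw [lab0_cons, if_pos h1]
          rw [h4, wt_cons, if_pos h2, if_pos (e1.2 h3), wt_cons, if_pos h3, G0_cons, if_pos h1, inl,
            pow_add, pow_add]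
          ring
        · have h2 : ¬ Hi (0, N) (dn h) := by
            simp only [Hi, dn]; omega
          have h4 : lab0 (h :: H) = lab0 H := by rw [lab0_cons, if_neg h1]
          rw [h4, wt_cons q (0, N), if_neg h2, wt_cons q g, if_neg h1]
          by_cases h3 : Hi g (dn h)
          · rw [if_pos h3, if_pos (e1.2 h3)]; ring
          · rw [if_neg h3, if_neg (fun h5 => h3 (e1.1 h5))]; ring

end

theorem pWSh : StWSh := by
  intro A _ q N a H hH
  have := (key q N _ a H rfl hH).1 N
  rw [S] at this
  rw [this, Gam_cons]
  cases hv : lab0 H with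
  | nil => simp
  | cons x v =>
    rw [if_neg]
    rintro ⟨_, h⟩
    simp only [List.headD_cons] at h
    have hx : x ∈ lab0 H := by rw [hv]; simp
    simp only [lab0, List.mem_map, List.mem_filter] at hx
    obtain ⟨c, ⟨hc, _⟩, rfl⟩ := hx
    have := (hH c hc).2
    omega

end M_WSH

end Pool.VD
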