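import Pool.Agent.VD.Comb

/-!
# MP_cf06d4_co, group V, block S (leader helper54): undecorated square words versus Dyck words

Everything is about undecorated words of cars (`Comb.lean`).  No bijections: sums over words of a given
content are computed by inserting the cars of one kind `X` into a fixed word.
-/

set_option autoImplicit false

namespace Pool.VD

open MvPolynomial Finset

variable {K : Type} [Field K] [CharZero K]

/-- `hb q N b = h_b(1, q, …, q^(N-1))` (`= 0` for `N = 0 < b`). -/
def hb {R : Type} [CommRing R] (q : R) : ℕ → ℕ → R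
  | _, 0 => 1
  | 0, _ + 1 => 0
  | N + 1, b + 1 => hb q N (b + 1) + q ^ N * hb q (N + 1) b
termination_by N b => (N, b)

/-- the finite set of all words of content `M` -/
def Lw (M : Multiset Car) : Finset (List Car) := (Multiset.lists M).toFinset

/-- the words `L` with `b` cars `X` which give `L0` when the cars `X` are removed -/
def Ins (X : Car) (b : ℕ) (L0 : List Car) : Finset (List Car) :=
  (Lw ((L0 : Multiset Car) + Multiset.replicate b X)).filter
    fun L => L.filter (fun u => decide (u ≠ X)) = L0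

open Classical in
/-- `q^(inv L)` for a word that may stand after `p`, `0` otherwise -/
noncomputable def wt {R : Type} [CommRing R] (q : R) (p : Car) (L : List Car) : R :=
  if Leg p L then q ^ inv L else 0

/-- sum of `q^(inv L)` over the words of content `M` that may stand after `p` -/
noncomputable def Tw {R : Type} [CommRing R] (q : R) (p : Car) (M : Multiset Car) : R :=
  ∑ L ∈ Lw M, wt q p L

/-- `1` if the car `X` may be inserted directly after `p` (`X` the highest car) -/
def ep (p X : Car) : ℕ := if p = X ∨ att X p then 1 else 0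

/-- MODULE SH (helper54 / helper15, about 60 lines).  Arithmetic of `hb`: closed form
`hb q N b * ∏_(j < b) [j+1] = ∏_(j < b) [N+j]`, and the second recursion
`hb (N+1) (b+1) = hb (N+1) b + q^(b+1) hb N (b+1)`.
Proof: induction; `[N+1+b] = [N] + q^N [b+1]`, `[N+1+b] = [b+1] + q^(b+1) [N]` and
`q^N [b+1]... `; it is simplest to prove both together by induction on `N + b`. -/
def StHb : Prop :=
  ∀ (R : Type) [CommRing R] (q : R) (N b : ℕ),
    hb q N b * ∏ j ∈ range b, (∑ i ∈ range (j + 1), q ^ i) = ∏ j ∈ range b, (∑ i ∈ range (N + j), q ^ i)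

/-- see `StHb` -/
def StHb2 : Prop :=
  ∀ (R : Type) [CommRing R] (q : R) (N b : ℕ),
    hb q (N + 1) (b + 1) = hb q (N + 1) b + q ^ (b + 1) * hb q N (b + 1)

/-- MODULE SUP (helper54).  Insertion of the highest car.  `X` is higher than every car of `L0` and than
`p` (or equal to `p`); the level of `X`, and of the cars attacked by `X`, is `≥ 0`.  Induction on `L0`
and `b`: the first car of `L` is `X` (weight `q^N`, `N` = number of cars of `L0` attacked by `X`) or the
first car of `L0`. -/
def StUp : Prop :=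
  ∀ (R : Type) [CommRing R] (q : R) (X p : Car) (b : ℕ) (L0 : List Car),
    0 ≤ X.1 → (Hi X p ∨ p = X) → (∀ u ∈ L0, Hi X u) → (att X p → 0 ≤ p.1) →
    (∀ u ∈ L0, att X u → 0 ≤ u.1) →
      ∑ L ∈ Ins X b L0, wt q p L =
        hb q (L0.countP (fun u => decide (att X u)) + ep p X) b * wt q p L0

/-- MODULE SDN (helper54).  Insertion of the lowest car `X`, of negative level.  (Each car of `L0` is higher than
`X`; `X` must be followed by `X` or by a car attacking `X`.) -/
def StDn : Prop :=
  ∀ (R : Type) [CommRing R] (q : R) (X p : Car) (b : ℕ) (L0 : List Car),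
    X.1 < 0 → Hi p X → (∀ u ∈ L0, Hi u X) →
      ∑ L ∈ Ins X b L0, wt q p L = hb q (L0.countP (fun u => decide (att u X))) b * wt q p L0

/-! ### the product formula -/

/-- number of cars of `M` on level `l` with label `> c` -/
def nU (M : Multiset Car) (l : ℤ) (c : ℕ) : ℕ := M.countP (fun u => u.1 = l ∧ c < u.2)

/-- number of cars of `M` on level `l` with label `< c` -/
def nD (M : Multiset Car) (l : ℤ) (c : ℕ) : ℕ := M.countP (fun u => u.1 = l ∧ u.2 < c)

/-- the factor of the car `X` in the product formula, base level `s`: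
`h_b` of `1 + #(s, > c)` for `X = (s, c)`, of `#(l, > c) + #(l-1, < c)` for `X = (l,c)`, `l > s`, of
`#(l, < c) + #(l+1, > c)` for `l < s`. -/
def fac (q : K) (s : ℤ) (M : Multiset Car) (X : Car) : K :=
  hb q (if X.1 = s then 1 + nU M s X.2
    else if s < X.1 then nU M X.1 X.2 + nD M (X.1 - 1) X.2
    else nD M X.1 X.2 + nU M (X.1 + 1) X.2) (M.count X)

/-- MODULE SPR (helper54): product formula for square words of given content (labels `< N`). -/
def StProd (q : K) : Prop :=
  ∀ (N : ℕ) (M : Multiset Car), (∀ u ∈ M, u.2 < N) →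
    Tw q (0, N) M = ∏ X ∈ M.toFinset, fac q 0 M X

/-- MODULE STEL (helper15, about 150 lines).  Pure arithmetic: two adjacent levels, lower level with
`a c` cars of label `c`, upper level with `b c` cars of label `c`, `c < n`.
`N_c = ∑_(i < c) a_i + ∑_(c < i < n) b_i`.
`[A] word(b) ∏_c h_(a_c)(N_c) = [B] word(a) ∏_c h_(b_c)(N_c)`,
`word(a) = ∏_c h_(a_c)(1 + ∑_(c < i < n) a_i)` `= [A]! / ∏ [a_c]!`.
Proof: with `G(k) = ∏_(k ≤ j < Z) [j]` (`Z` large), `(∏_(N_c ≤ j < N_c + a_c) [j]) G(N_c + a_c) = G(N_c)` and
`N_(c+1) + b_(c+1) = N_c + a_c`; induction on the number of labels treated gives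
`(∏_c ∏_(N_c ≤ j < N_c + a_c) [j]) G(A) = G(B) ∏_c ∏_(N_c ≤ j < N_c + b_c) [j]` (no cancellation needed), then the
closed form `StHb`.  For `A = 0` or `B = 0` both sides are `0` or equal (`[0] = 0`; if `B = 0 < A`, the smallest label
`c` of the lower level has `N_c = 0`); assume `1 ≤ A`, `1 ≤ B` to be safe. -/
def StTel (q : K) : Prop :=
  ∀ (n : ℕ) (a b : ℕ → ℕ), 1 ≤ ∑ i ∈ range n, a i → 1 ≤ ∑ i ∈ range n, b i →
    qn q (∑ i ∈ range n, a i) *
      (∏ c ∈ range n, hb q (1 + ∑ i ∈ (range n).filter (fun i => c < i), b i) (b c)) *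
      (∏ c ∈ range n,
        hb q (∑ i ∈ range c, a i + ∑ i ∈ (range n).filter (fun i => c < i), b i) (a c)) =
    qn q (∑ i ∈ range n, b i) *
      (∏ c ∈ range n, hb q (1 + ∑ i ∈ (range n).filter (fun i => c < i), a i) (a c)) *
      (∏ c ∈ range n,
        hb q (∑ i ∈ range c, a i + ∑ i ∈ (range n).filter (fun i => c < i), b i) (b c))

/-- content shifted by `-s` levels -/
def sft (s : ℤ) (M : Multiset Car) : Multiset Car := M.map (fun u => (u.1 - s, u.2))

/-- MODULE SRAT (helper15, about 150 lines; from `StTel` and `StProd`).  `M` with levels exactly `0, …, H`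
(each nonempty), labels `< N`, `s ≤ H`:
`[c_0] T(M shifted by -s) = [c_s] T(M)`.
Proof: `StProd` and reindexing: `T(M shifted by -s) = ∏_(X) fac q s M X`, write it as a product over levels
`l ≤ H` and labels `c < N` (extra factors are `h_0 = 1`); passing from `s` to `s+1` only the factors on levels `s`, `s+1`
change, `StTel` with `a = M.count (s, ·)`, `b = M.count (s+1, ·)` gives `[c_s] T_(s+1) = [c_(s+1)] T_s`; induction on `s`,
cancel `[c_s] ≠ 0`. -/
def StRat (q : K) : Prop :=
  ∀ (N H : ℕ) (M : Multiset Car), (∀ u ∈ M, u.2 < N ∧ 0 ≤ u.1 ∧ u.1 ≤ (H : ℤ)) →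
    (∀ l : ℕ, l ≤ H → 1 ≤ M.countP (fun u => u.1 = (l : ℤ))) → ∀ s : ℕ, s ≤ H →
      qn q (M.countP (fun u => u.1 = 0)) * Tw q (0, N) (sft s M) =
        qn q (M.countP (fun u => u.1 = (s : ℤ))) * Tw q (0, N) M

/-- shifted content of a word (lowest level 0) -/
def shc (L : List Car) : Multiset Car := ((L.map (fun c => (c.1 + (bot L : ℤ), c.2)) : List Car) : Multiset Car)

/-- number of cars on level 0 -/
def c0 (L : List Car) : ℕ := L.countP (fun c => decide (c.1 = 0))

/-- MODULE SASM (helper54): THE THEOREM OF BLOCK S in general form.  For every function `Φ` of the shifted content. -/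
def StSD (q : K) : Prop :=
  ∀ (R : Type) [CommRing R] [Algebra K R] (m N : ℕ), 1 ≤ m → ∀ Φ : Multiset Car → R,
    ∑ L ∈ SqW m N, (q ^ (inv L + L.countP (fun c => decide (c.1 < 0)))) • Φ (shc L) =
      ∑ L ∈ DyW m N, (qn q m / qn q (c0 L) * q ^ inv L) • Φ (L : Multiset Car)

/-- MODULE SFDY (helper15, about 100 lines; from `StSD` and `StCol`): `A0`, `A1`, the `t`-weight and the `x`-weight
are functions of the shifted content, and for a Dyck word `shc L = L` (`bot L = 0`). -/
def StFDy (q t : K) : Prop :=
  ∀ m k N : ℕ, 1 ≤ m → FF q t (m + k) k N =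
    ∑ L ∈ DyW m N, C (qn q m / qn q (c0 L)) * (wU q t N L * ((A0 q t N L).coeff k +
      C (t ^ m) * ((A1 q t N L).coeff k - C (t ^ k) * (A0 q t N L).coeff k)))

end Pool.VD
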